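import Mathlib

/-!
Chains of classes linked by elements `T`: products of all rows but one.
-/

namespace Pool.Agent.HankelPerm

open Finset

/-- Data of a chain of classes.  `R i x` is the row `x` of the class `i`; the classes `0, ..., h`
are linked through the elements `T i`; `Φ i` is the product of the class `i` without link, `f i`
is `T i` times the product of the rows `≥ 1`, and `q i x` is `T i` times the product without link
of the rows different from `x`. -/
structure Chain (A : Type*) [CommRing A] where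
  b : ℕ
  h : ℕ
  hb : h < b
  ρ : ℕ → ℕ
  R : ℕ → ℕ → A
  T : ℕ → A
  Φ : ℕ → A
  f : ℕ → A
  q : ℕ → ℕ → A
  hT0 : T 0 = 1
  hC : ∀ g < h, ∃ F, ∏ x ∈ range (ρ g), R g x = Φ g + T (g + 1) * F ∧ T g * F = f g
  hCh : ∏ x ∈ range (ρ h), R h x = Φ h
  hTΦ : ∀ g ≤ h, T g * Φ g = 0
  hq : ∀ g < h, ∀ x < ρ g, ∃ G, T g * ∏ x' ∈ (range (ρ g)).erase x, R g x' = q g x + T (g + 1) * G
  hqh : ∀ x < ρ h, T h * ∏ x' ∈ (range (ρ h)).erase x, R h x' = q h x

namespace Chain

variable {A : Type*} [CommRing A] (K : Chain A)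

/-- The product of all rows of the class `i`. -/
def C (i : ℕ) : A := ∏ x ∈ range (K.ρ i), K.R i x

/-- The product of the rows `≠ x` of the class `i`. -/
def Cx (i x : ℕ) : A := ∏ x' ∈ (range (K.ρ i)).erase x, K.R i x'

/-- The factor of the class `i` in the product of all rows but `(g, x)`. -/
def Z (g x i : ℕ) : A :=
  if i < g then K.f i else if i = g then K.q g x else if i ≤ K.h then K.Φ i else K.C i

theorem Φ_zero : K.Φ 0 = 0 := by
  have := K.hTΦ 0 (Nat.zero_le _)
  rwa [K.hT0, one_mul] at this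

theorem T_mul_C {g : ℕ} (hg : g < K.h) : K.T g * K.C g = K.f g * K.T (g + 1) := by
  obtain ⟨F, h1, h2⟩ := K.hC g hg
  rw [C, h1, mul_add, K.hTΦ g hg.le, zero_add, ← h2]
  ring

theorem prod_lower {g : ℕ} (hg : g ≤ K.h) :
    ∏ i ∈ range g, K.C i = (∏ i ∈ range g, K.f i) * K.T g := by
  induction g with
  | zero => simp [K.hT0]
  | succ g ih =>
    rw [prod_range_succ, prod_range_succ, ih (by omega), mul_assoc, K.T_mul_C (by omega)]
    ring

theorem T_mul_upper (j : ℕ) : ∀ g, g + j = K.h → K.T g * ∏ i ∈ Ico g (K.h + 1), K.C i = 0 := by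
  induction j with
  | zero =>
    intro g hg
    rw [add_zero] at hg
    subst hg
    rw [Finset.prod_Ico_succ_top le_rfl, Finset.Ico_self, prod_empty, one_mul, C, K.hCh,
      K.hTΦ _ le_rfl]
  | succ j ih =>
    intro g hg
    rw [Finset.prod_eq_prod_Ico_succ_bot (by omega), ← mul_assoc, K.T_mul_C (by omega), mul_assoc,
      ih (g + 1) (by omega), mul_zero]

theorem prod_upper (j : ℕ) : ∀ g, g + j = K.h + 1 →
    ∏ i ∈ Ico g (K.h + 1), K.C i = ∏ i ∈ Ico g (K.h + 1), K.Φ i := by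
  induction j with
  | zero =>
    intro g hg
    rw [add_zero] at hg
    subst hg
    simp
  | succ j ih =>
    intro g hg
    rw [Finset.prod_eq_prod_Ico_succ_bot (by omega), Finset.prod_eq_prod_Ico_succ_bot
      (f := K.Φ) (by omega), ← ih (g + 1) (by omega)]
    rcases Nat.lt_or_ge g K.h with h | h
    · obtain ⟨F, h1, h2⟩ := K.hC g h
      rw [C, h1, add_mul, mul_assoc, mul_comm F, ← mul_assoc,
        K.T_mul_upper (K.h - (g + 1)) (g + 1) (by omega), zero_mul, add_zero]
    · have : g = K.h := by omega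
      subst this
      rw [C, K.hCh]

theorem prod_Z {g x : ℕ} (hg : g ≤ K.h) (hx : x < K.ρ g) :
    ∏ i ∈ range K.b, (if i = g then K.Cx g x else K.C i) = ∏ i ∈ range K.b, K.Z g x i := by
  have hb := K.hb
  have hsplit : ∀ u : ℕ → A, ∏ i ∈ range K.b, u i = (∏ i ∈ range g, u i) *
      (u g * ((∏ i ∈ Ico (g + 1) (K.h + 1), u i) * ∏ i ∈ Ico (K.h + 1) K.b, u i)) := by
    intro u
    rw [Finset.prod_Ico_consecutive u (by omega) (by omega),
      ← Finset.prod_eq_prod_Ico_succ_bot (by omega) u,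
      Finset.prod_range_mul_prod_Ico u (by omega)]
  rw [hsplit, hsplit]
  have e1 : ∏ i ∈ range g, (if i = g then K.Cx g x else K.C i) = ∏ i ∈ range g, K.C i :=
    Finset.prod_congr rfl fun i hi => if_neg (by rw [mem_range] at hi; omega)
  have e2 : ∏ i ∈ Ico (g + 1) (K.h + 1), (if i = g then K.Cx g x else K.C i) =
      ∏ i ∈ Ico (g + 1) (K.h + 1), K.C i :=
    Finset.prod_congr rfl fun i hi => if_neg (by rw [mem_Ico] at hi; omega)
  have e3 : ∏ i ∈ Ico (K.h + 1) K.b, (if i = g then K.Cx g x else K.C i) =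
      ∏ i ∈ Ico (K.h + 1) K.b, K.C i :=
    Finset.prod_congr rfl fun i hi => if_neg (by rw [mem_Ico] at hi; omega)
  have e4 : ∏ i ∈ range g, K.Z g x i = ∏ i ∈ range g, K.f i :=
    Finset.prod_congr rfl fun i hi => by rw [mem_range] at hi; rw [Z, if_pos hi]
  have e5 : ∏ i ∈ Ico (g + 1) (K.h + 1), K.Z g x i = ∏ i ∈ Ico (g + 1) (K.h + 1), K.Φ i :=
    Finset.prod_congr rfl fun i hi => by
      rw [mem_Ico] at hi
      rw [Z, if_neg (by omega), if_neg (by omega), if_pos (by omega)]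
  have e6 : ∏ i ∈ Ico (K.h + 1) K.b, K.Z g x i = ∏ i ∈ Ico (K.h + 1) K.b, K.C i :=
    Finset.prod_congr rfl fun i hi => by
      rw [mem_Ico] at hi
      rw [Z, if_neg (by omega), if_neg (by omega), if_neg (by omega)]
  have e7 : K.Z g x g = K.q g x := by rw [Z, if_neg (by omega), if_pos rfl]
  rw [e1, e2, e3, e4, e5, e6, e7, if_pos rfl, K.prod_lower hg,
    K.prod_upper (K.h - g) (g + 1) (by omega), mul_assoc]
  congr 1
  rw [← mul_assoc, ← mul_assoc, ← mul_assoc]
  congr 1
  rcases Nat.lt_or_ge g K.h with h | h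
  · obtain ⟨G, h1⟩ := K.hq g h x hx
    have h2 := K.T_mul_upper (K.h - (g + 1)) (g + 1) (by omega)
    rw [K.prod_upper (K.h - g) (g + 1) (by omega)] at h2
    rw [Cx, h1, add_mul, mul_assoc (K.T (g + 1)), mul_comm G, ← mul_assoc (K.T (g + 1)), h2]
    ring
  · have : g = K.h := by omega
    subst this
    rw [Cx, K.hqh x hx]

theorem prod_zero {g x : ℕ} (hg : K.h < g) :
    ∏ i ∈ range K.b, (if i = g then K.Cx g x else K.C i) = 0 := by
  have hb := K.hb
  have h1 : ∏ i ∈ range (K.h + 1), (if i = g then K.Cx g x else K.C i) = 0 := by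
    have e1 : ∏ i ∈ range (K.h + 1), (if i = g then K.Cx g x else K.C i) =
        ∏ i ∈ range (K.h + 1), K.C i :=
      Finset.prod_congr rfl fun i hi => if_neg (by rw [mem_range] at hi; omega)
    rw [e1, range_eq_Ico, K.prod_upper (K.h + 1) 0 (by omega)]
    exact Finset.prod_eq_zero (i := 0) (by simp) K.Φ_zero
  rw [range_eq_Ico, ← Finset.prod_Ico_consecutive _ (Nat.zero_le (K.h + 1)) (by omega),
    ← range_eq_Ico, h1, zero_mul]

/-- The total relation. -/
def Tot (D : ℕ → ℕ → A) : A :=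
  ∑ g ∈ range K.b, ∑ x ∈ range (K.ρ g), D g x *
    ∏ i ∈ range K.b, (if i = g then K.Cx g x else K.C i)

theorem tot_eq (D : ℕ → ℕ → A) : K.Tot D =
    ∑ g ∈ range (K.h + 1), ∑ x ∈ range (K.ρ g), D g x * ∏ i ∈ range K.b, K.Z g x i := by
  have hb := K.hb
  rw [Tot, ← Finset.sum_subset (s₁ := range (K.h + 1)) (fun i hi => by
    rw [mem_range] at hi ⊢; omega)]
  · refine Finset.sum_congr rfl fun g hg => Finset.sum_congr rfl fun x hx => ?_
    rw [mem_range] at hg hx
    rw [K.prod_Z (by omega) hx]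
  · intro g _ hg
    rw [mem_range] at hg
    refine Finset.sum_eq_zero fun x _ => ?_
    rw [K.prod_zero (by omega), mul_zero]

theorem mul_tot (D : ℕ → ℕ → A) {β : ℕ} (hβ : β < K.b) (M : ℕ → A) :
    (∏ i ∈ (range K.b).erase β, M i) * K.Tot D =
      ∑ g ∈ range (K.h + 1), ∑ x ∈ range (K.ρ g), D g x *
        ((∏ i ∈ (range K.b).erase β, M i * K.Z g x i) * K.Z g x β) := by
  rw [tot_eq, Finset.mul_sum]
  refine Finset.sum_congr rfl fun g _ => ?_
  rw [Finset.mul_sum]
  refine Finset.sum_congr rfl fun x _ => ?_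
  rw [← Finset.mul_prod_erase (range K.b) _ (mem_range.mpr hβ), Finset.prod_mul_distrib]
  ring

end Chain

end Pool.Agent.HankelPerm
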