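import Pool.Agent.HankelPerm.SqAlg
import Pool.Agent.HankelPerm.Chain

/-!
From the Hankel matrix to the squarefree algebra: points of the variety, rows, nonvanishing of
products of distinct variables.
-/

namespace Pool.Agent.HankelPerm

open Matrix Finset Equiv MvPolynomial Pool.Agent.H32

section point

variable {k : Type*} [Field k] {n : ℕ}

/-- If the product of the rows vanishes in the squarefree algebra, then so do all permanents. -/
theorem permanent_eq_zero_of_prod {ι : Type*} [Fintype ι] [DecidableEq ι] (m : ι → Fin n → k)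
    (h : ∏ i, ∑ j, m i j • sy k n j = 0) (c : ι → Fin n) (hc : Function.Injective c) :
    (Matrix.of fun i j => m i (c j)).permanent = 0 := by
  classical
  refine smul_prod_sy_eq_zero (n := n) univ _ ?_
  have h1 : ∏ i, ∑ j, m i j • sy k n j =
      ∑ c' : ι → Fin n, (∏ i, m i (c' i)) • ∏ i, sy k n (c' i) := by
    rw [Finset.prod_univ_sum, Fintype.piFinset_univ]
    refine Finset.sum_congr rfl fun c _ => ?_
    simp only [Algebra.smul_def, Finset.prod_mul_distrib, map_prod]
  rw [h1] at h
  set U : Finset (Fin n) := univ.image c with hU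
  have hsplit : (∏ j ∈ U, sy k n j) * ∏ j ∈ Uᶜ, sy k n j = ∏ j, sy k n j :=
    Finset.prod_mul_prod_compl U _
  have hUc : ∏ j ∈ U, sy k n j = ∏ i, sy k n (c i) := by
    rw [hU, Finset.prod_image (fun x _ y _ hxy => hc hxy)]
  have h2 := congrArg (· * ∏ j ∈ Uᶜ, sy k n j) h
  simp only [zero_mul] at h2
  rw [Finset.sum_mul] at h2
  rw [← h2]
  symm
  have hzero : ∀ c' : ι → Fin n, ¬ (∃ σ : Perm ι, c ∘ σ = c') →
      ((∏ i, m i (c' i)) • ∏ i, sy k n (c' i)) * ∏ j ∈ Uᶜ, sy k n j = 0 := by
    intro c' hc'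
    by_cases hmaps : ∀ i, c' i ∈ U
    · -- then `c'` is not injective
      have hni : ¬ Function.Injective c' := by
        intro hinj
        apply hc'
        have h4 : ∀ i, ∃ j, c j = c' i := by
          intro i
          have := hmaps i
          rw [hU] at this
          simpa using this
        choose g hg using h4
        have hginj : Function.Injective g := by
          intro i j hij
          apply hinj
          rw [← hg, ← hg, hij]
        exact ⟨Equiv.ofBijective g (Finite.injective_iff_bijective.mp hginj), by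
          funext i; simp [hg]⟩
      rw [Function.not_injective_iff] at hni
      obtain ⟨a, b, hab, hne⟩ := hni
      have : ∏ i, sy k n (c' i) = 0 := by
        rw [← Finset.mul_prod_erase _ _ (Finset.mem_univ a),
          ← Finset.mul_prod_erase (univ.erase a) _ (a := b) (by simp [hne.symm]), hab,
          ← mul_assoc, sy_mul_self, zero_mul]
      rw [this, smul_zero, zero_mul]
    · push Not at hmaps
      obtain ⟨i, hi⟩ := hmaps
      rw [← Finset.mul_prod_erase univ (fun i => sy k n (c' i)) (Finset.mem_univ i),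
        ← Finset.mul_prod_erase Uᶜ (fun j => sy k n j) (Finset.mem_compl.mpr hi), smul_mul_assoc]
      have : sy k n (c' i) * (∏ x ∈ univ.erase i, sy k n (c' x)) *
          (sy k n (c' i) * ∏ x ∈ Uᶜ.erase (c' i), sy k n x) = 0 := by
        linear_combination ((∏ x ∈ univ.erase i, sy k n (c' x)) *
          ∏ x ∈ Uᶜ.erase (c' i), sy k n x) * sy_mul_self (k := k) (c' i)
      rw [this, smul_zero]
  have h3 : ∑ c' : ι → Fin n, ((∏ i, m i (c' i)) • ∏ i, sy k n (c' i)) * ∏ j ∈ Uᶜ, sy k n j =
      ∑ σ : Perm ι, ((∏ i, m i (c (σ i))) • ∏ i, sy k n (c (σ i))) * ∏ j ∈ Uᶜ, sy k n j := by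
    symm
    rw [← Finset.sum_subset (s₁ := (univ : Finset (Perm ι)).image (fun σ i => c (σ i)))
      (Finset.subset_univ _)]
    · rw [Finset.sum_image]
      intro σ _ σ' _ h
      ext i
      exact hc (congrFun h i)
    · intro c' _ hc'
      apply hzero
      rintro ⟨σ, rfl⟩
      exact hc' (Finset.mem_image_of_mem _ (Finset.mem_univ _))
  rw [h3, Matrix.permanent, Finset.sum_smul, ← Equiv.sum_comp (Equiv.inv (Perm ι))]
  refine Finset.sum_congr rfl fun σ _ => ?_
  have h5 : ∏ i, sy k n (c ((Equiv.inv (Perm ι) σ) i)) = ∏ i, sy k n (c i) :=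
    Equiv.prod_comp (Equiv.inv (Perm ι) σ) (fun i => sy k n (c i))
  have h6 : ∏ i, (Matrix.of fun i j => m i (c j)) (σ i) i =
      ∏ i, m i (c ((Equiv.inv (Perm ι) σ) i)) := by
    rw [← Equiv.prod_comp σ (fun i => m i (c ((Equiv.inv (Perm ι) σ) i)))]
    simp
  rw [h5, smul_mul_assoc, ← hUc, hsplit, h6]

variable (k n)

/-- The variables, `1`-indexed. -/
noncomputable def YY (j : ℕ) : SqAlg k n := if h : 1 ≤ j ∧ j ≤ n then sy k n ⟨j - 1, by omega⟩ else 0

variable {k n}

theorem YY_sq (j : ℕ) : YY k n j * YY k n j = 0 := by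
  rw [YY]
  split_ifs
  · exact sy_mul_self _
  · simp

theorem YY_zero : YY k n 0 = 0 := by simp [YY]

theorem YY_big {j : ℕ} (h : n < j) : YY k n j = 0 := by
  rw [YY, dif_neg (by omega)]

theorem YY_succ (j : Fin n) : YY k n (j + 1) = sy k n j := by
  rw [YY, dif_pos ⟨by omega, by have := j.2; omega⟩]
  congr 1

theorem smul_prod_YY {T : Finset ℕ} (hT : ∀ j ∈ T, 1 ≤ j ∧ j ≤ n) (c : k)
    (h : c • ∏ j ∈ T, YY k n j = 0) : c = 0 := by
  classical
  refine smul_prod_sy_eq_zero ((univ : Finset (Fin n)).filter fun i => (i : ℕ) + 1 ∈ T) c ?_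
  rw [← h]
  congr 1
  refine Finset.prod_bij (fun i _ => (i : ℕ) + 1) ?_ ?_ ?_ ?_
  · intro i hi
    rw [Finset.mem_filter] at hi
    exact hi.2
  · intro i _ j _ hij
    exact Fin.ext (by simpa using hij)
  · intro j hj
    have h1 := hT j hj
    refine ⟨⟨j - 1, by omega⟩, ?_, ?_⟩
    · rw [Finset.mem_filter]
      refine ⟨Finset.mem_univ _, ?_⟩
      simp only
      rwa [show j - 1 + 1 = j by omega]
    · simp only
      omega
  · intro i _
    exact (YY_succ i).symm

theorem sum_ind (r c : ℕ) :
    ∑ j : Fin n, (if r + (j : ℕ) = c then (1 : k) else 0) • sy k n j =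
      if r ≤ c then YY k n (c + 1 - r) else 0 := by
  by_cases h : r ≤ c
  · rw [if_pos h]
    by_cases h1 : c - r < n
    · rw [Finset.sum_eq_single (⟨c - r, h1⟩ : Fin n)]
      · rw [if_pos (by simp only; omega), one_smul, ← YY_succ]
        congr 1
        simp only
        omega
      · intro j _ hj
        have : r + (j : ℕ) ≠ c := by
          intro h2
          apply hj
          apply Fin.ext
          simp only
          omega
        rw [if_neg this, zero_smul]
      · intro hno; exact absurd (Finset.mem_univ _) hno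
    · rw [YY_big (by omega)]
      refine Finset.sum_eq_zero fun j _ => ?_
      have := j.2
      rw [if_neg (by omega), zero_smul]
  · rw [if_neg h]
    refine Finset.sum_eq_zero fun j _ => ?_
    rw [if_neg (by omega), zero_smul]

theorem sum_range_mul' {M : Type*} [AddCommMonoid M] (f : ℕ → M) (S b : ℕ) :
    ∑ j ∈ range (S * b), f j = ∑ s ∈ range S, ∑ i ∈ range b, f (i + s * b) := by
  induction S with
  | zero => simp
  | succ S ih =>
    rw [Nat.succ_mul, Finset.sum_range_add, ih, sum_range_succ]
    congr 1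
    refine Finset.sum_congr rfl fun i _ => ?_
    rw [add_comm]

/-- Extension of a sequence by zero to the integers. -/
def ext0 (δ : ℕ → k) (z : ℤ) : k := if 0 ≤ z then δ z.toNat else 0

/-- The row of the tangent vector. -/
theorem sum_delta (δ : ℕ → k) (t u S b : ℕ) (ht : u + 1 ≤ t) (hS : n + 1 ≤ S * b) :
    ∑ j : Fin n, δ (t - 1 - u + j) • sy k n j =
      ∑ s ∈ range S, ∑ i ∈ range b,
        ext0 δ (((i + s * b : ℕ) : ℤ) - u + (t - 2)) • YY k n (i + s * b) := by
  rw [← sum_range_mul' (fun j => ext0 δ (((j : ℕ) : ℤ) - u + (t - 2)) • YY k n j),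
    ← Finset.sum_subset (s₁ := range (n + 1)) (fun i hi => by
      rw [Finset.mem_range] at hi ⊢; omega), Finset.sum_range_succ', YY_zero, smul_zero, add_zero,
    Fin.sum_univ_eq_sum_range (fun j => ext0 δ (((j + 1 : ℕ) : ℤ) - u + (t - 2)) •
      YY k n (j + 1)) n |>.symm]
  · refine Finset.sum_congr rfl fun j _ => ?_
    rw [YY_succ, ext0, if_pos (by omega)]
    congr 2
    omega
  · intro j _ hj
    rw [Finset.mem_range] at hj
    rw [YY_big (by omega), smul_zero]

end point

section rows

variable {A : Type*} [CommRing A]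

theorem prod_sigma_erase (ρ : ℕ → ℕ) (R : ℕ → ℕ → A) {b g x : ℕ} (hg : g < b) (hx : x < ρ g) :
    ∏ a ∈ ((range b).sigma fun i => range (ρ i)).erase ⟨g, x⟩, R a.1 a.2 =
      ∏ i ∈ range b, (if i = g then ∏ x' ∈ (range (ρ g)).erase x, R g x' else
        ∏ x' ∈ range (ρ i), R i x') := by
  have h1 : ((range b).sigma fun i => range (ρ i)).erase ⟨g, x⟩ =
      (range b).sigma (fun i => if i = g then (range (ρ g)).erase x else range (ρ i)) := by
    ext ⟨i, y⟩
    simp only [Finset.mem_erase, Finset.mem_sigma, Finset.mem_range, ne_eq, Sigma.mk.injEq,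
      heq_eq_eq, not_and]
    by_cases h : i = g
    · subst h
      simp only [if_true, Finset.mem_erase, Finset.mem_range, forall_const]
      tauto
    · simp only [if_neg h, Finset.mem_range]
      tauto
  rw [h1, Finset.prod_sigma]
  refine Finset.prod_congr rfl fun i _ => ?_
  by_cases h : i = g
  · subst h; simp
  · simp [h]

theorem tot_of_relation (K : Chain A) (D : ℕ → ℕ → A)
    (h : ∑ a ∈ (range K.b).sigma fun i => range (K.ρ i), D a.1 a.2 *
      ∏ i ∈ ((range K.b).sigma fun i => range (K.ρ i)).erase a, K.R i.1 i.2 = 0) :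
    K.Tot D = 0 := by
  rw [← h, Chain.Tot, Finset.sum_sigma]
  refine Finset.sum_congr rfl fun g hg => Finset.sum_congr rfl fun x hx => ?_
  rw [Finset.mem_range] at hg hx
  rw [prod_sigma_erase K.ρ K.R hg hx]
  rfl

/-- The product of all rows of a chain vanishes. -/
theorem prod_all (K : Chain A) :
    ∏ a ∈ (range K.b).sigma fun i => range (K.ρ i), K.R a.1 a.2 = 0 := by
  have hb := K.hb
  rw [Finset.prod_sigma]
  have h1 : ∏ i ∈ range (K.h + 1), K.C i = 0 := by
    rw [range_eq_Ico, K.prod_upper (K.h + 1) 0 (by omega)]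
    exact Finset.prod_eq_zero (i := 0) (by simp) K.Φ_zero
  rw [← Finset.prod_range_mul_prod_Ico _ (show K.h + 1 ≤ K.b by omega)]
  have : ∏ x ∈ range (K.h + 1), ∏ s ∈ range (K.ρ x), K.R (⟨x, s⟩ : (_ : ℕ) × ℕ).fst
      (⟨x, s⟩ : (_ : ℕ) × ℕ).snd = 0 := h1
  rw [this, zero_mul]

end rows

section variety

variable {k : Type*} [Field k]

/-- The point belongs to the variety if the product of the rows vanishes. -/
theorem mem_variety {t n : ℕ} (q : ℕ → k) {β : Type*} (s : Finset β) (hs : s.card = t)
    (r : β → ℕ) (hr : Set.InjOn r s) (hrt : ∀ i ∈ s, r i < t)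
    (h : ∏ i ∈ s, (∑ j : Fin n, q (r i + j) • sy k n j) = 0)
    (f : MvPolynomial (Fin (t + n - 1)) k) (hf : f ∈ permIdeal t (hankelMatrix k t n)) :
    aeval (fun i : Fin (t + n - 1) => q i) f = 0 := by
  classical
  refine aeval_eq_zero_of_mem q ?_ f hf
  intro r' c
  have himg : s.image r = range t := by
    apply Finset.eq_of_subset_of_card_le
    · intro x hx
      obtain ⟨i, hi, rfl⟩ := Finset.mem_image.mp hx
      exact Finset.mem_range.mpr (hrt i hi)
    · rw [Finset.card_range, Finset.card_image_of_injOn hr, hs]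
  have h1 : ∏ u : Fin t, (∑ j : Fin n, q ((r' u : ℕ) + j) • sy k n j) = 0 := by
    rw [← h]
    have hbij : Function.Bijective r' := by
      rw [← Finite.injective_iff_bijective]
      exact r'.injective
    rw [Function.Bijective.prod_comp hbij (fun u : Fin t => ∑ j : Fin n, q ((u : ℕ) + j) • sy k n j),
      Fin.prod_univ_eq_prod_range (fun u => ∑ j : Fin n, q (u + j) • sy k n j) t, ← himg,
      Finset.prod_image hr]
  have h2 := permanent_eq_zero_of_prod (n := n) (fun (u : Fin t) j => q ((r' u : ℕ) + j)) h1 c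
    c.injective
  exact h2

end variety

end Pool.Agent.HankelPerm
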