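import Pool.Agent.HankelPerm.BOddElim
import Pool.Agent.HankelPerm.LinkPoint

/-!
The family `m = t`, `n = t + 1`, `t ≥ 11` odd: the ideal of maximal permanents of a Hankel matrix
is not prime.
-/

namespace Pool.Agent.HankelPerm.BOdd

open Finset MvPolynomial Pool.Agent.H32

section tangent

variable {k : Type*} [Field k] {N : ℕ}

/-- If `P` is prime and big, then at each point of `V(P)` there is a nonzero tangent vector
killed by at most `T` prescribed functionals. -/
theorem exists_tangent_lin (P : Ideal (MvPolynomial (Fin N) k)) [P.IsPrime] {T : ℕ}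
    (hbig : Big P T) (q : Fin N → k) (hq : ∀ f ∈ P, aeval q f = 0) {ι : Type*} [Fintype ι]
    (Φ : ι → (Fin N → k) →ₗ[k] k) (hι : Fintype.card ι ≤ T) :
    ∃ δ : Fin N → k, δ ≠ 0 ∧ (∀ i, Φ i δ = 0) ∧ ∀ f ∈ P, aeval q (dd δ f) = 0 := by
  classical
  obtain ⟨κ, a, ha, hsp, hli⟩ := exists_linearIndependent' k
    (fun f : P => grad q (f : MvPolynomial (Fin N) k))
  have : Finite κ := hli.finite
  have : Fintype κ := Fintype.ofFinite κ
  let e := (Fintype.equivFin κ).symm
  have h1 := first_order P hbig q hq (fun i => ((a (e i) : P) : MvPolynomial (Fin N) k))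
    (fun i => (a (e i)).2) (hli.comp e e.injective)
  let φ : (Fin N → k) →ₗ[k] (ι → k) × (κ → k) :=
    LinearMap.prod (LinearMap.pi Φ)
      (LinearMap.pi fun b : κ => Fintype.linearCombination k (grad q ((a b : P) : MvPolynomial (Fin N) k)))
  have hφ : ¬ Function.Injective φ := by
    intro hinj
    have h2 := LinearMap.finrank_le_finrank_of_injective hinj
    rw [Module.finrank_prod, Module.finrank_fintype_fun_eq_card, Module.finrank_fintype_fun_eq_card,
      Module.finrank_fintype_fun_eq_card, Fintype.card_fin] at h2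
    omega
  rw [← LinearMap.ker_eq_bot, LinearMap.ker_eq_bot'] at hφ
  push Not at hφ
  obtain ⟨δ, hδ, hδ0⟩ := hφ
  refine ⟨δ, hδ0, fun i => ?_, fun f hf => ?_⟩
  · exact congrFun (congrArg Prod.fst hδ) i
  · have h2 : ∀ v ∈ Submodule.span k (Set.range ((fun f : P => grad q (f : MvPolynomial (Fin N) k)) ∘ a)),
        ∑ i, v i * δ i = 0 := by
      intro v hv
      induction hv using Submodule.span_induction with
      | mem v hv =>
        obtain ⟨b, rfl⟩ := hv
        have h3 := congrFun (congrArg Prod.snd hδ) b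
        simp only [φ, LinearMap.prod_apply, Prod.snd_zero, Pi.zero_apply] at h3
        rw [← h3]
        refine Finset.sum_congr rfl fun i _ => ?_
        simp only [Function.comp_apply, smul_eq_mul]
        ring
      | zero => simp
      | add v w _ _ hv hw => simp only [Pi.add_apply, add_mul, Finset.sum_add_distrib, hv, hw,
          add_zero]
      | smul c v _ hv =>
        simp only [Pi.smul_apply, smul_eq_mul, mul_assoc, ← Finset.mul_sum, hv, mul_zero]
    rw [← sum_grad_mul]
    apply h2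
    rw [hsp]
    exact Submodule.subset_span ⟨⟨f, hf⟩, rfl⟩

end tangent

section presum

variable {k : Type*} [Field k]

theorem sum_sign (f : ℕ → k) (M X : ℕ) (h : M ≤ X) :
    ∑ x ∈ range X, (if M ≤ x then -1 else 1) * (f x - f (x + 1)) = f 0 + f X - 2 * f M := by
  induction X, h using Nat.le_induction with
  | base =>
    have h1 : ∑ x ∈ range M, (if M ≤ x then -1 else 1) * (f x - f (x + 1)) =
        ∑ x ∈ range M, (f x - f (x + 1)) := by
      refine Finset.sum_congr rfl fun x hx => ?_
      rw [mem_range] at hx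
      rw [if_neg (by omega), one_mul]
    rw [h1, Finset.sum_range_sub']
    ring
  | succ X hX ih =>
    rw [Finset.sum_range_succ, ih, if_pos hX]
    ring

variable (δ : ℕ → k)

/-- Partial sums. -/
def PP (s : ℕ) : k := ∑ i ∈ range s, δ (i + 1)

theorem PP_zero : PP δ 0 = 0 := by simp [PP]

theorem PP_succ (s : ℕ) : PP δ (s + 1) = PP δ s + δ (s + 1) := by
  rw [PP, Finset.sum_range_succ]; rfl

theorem bb_eq (e m j : ℕ) (h1 : 3 ≤ m) (h2 : m ≤ e + 5) :
    bb e δ m (j + 1) = PP δ (j + 1) - PP δ j + PP δ (2 * e + 7 + j) + PP δ (e + 5 + j) -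
      2 * PP δ (2 * e + 10 - m + j) := by
  have h3 := sum_sign (fun x => PP δ (2 * e + 7 - x + j)) (m - 3) (e + 2) (by omega)
  have h4 : ∑ x ∈ range (e + 2), (if m ≤ x + 3 then (-1 : k) else 1) *
      δ (2 * e + 6 - x + (j + 1)) =
      ∑ x ∈ range (e + 2), (if m - 3 ≤ x then -1 else 1) *
        ((fun x => PP δ (2 * e + 7 - x + j)) x - (fun x => PP δ (2 * e + 7 - x + j)) (x + 1)) := by
    refine Finset.sum_congr rfl fun x hx => ?_
    rw [mem_range] at hx
    have h5 : (m ≤ x + 3) = (m - 3 ≤ x) := by rw [eq_iff_iff]; omega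
    simp only [h5]
    congr 1
    have h6 := PP_succ δ (2 * e + 6 - x + j)
    rw [show 2 * e + 7 - x + j = 2 * e + 6 - x + j + 1 by omega,
      show 2 * e + 7 - (x + 1) + j = 2 * e + 6 - x + j by omega, h6]
    rw [show 2 * e + 6 - x + j + 1 = 2 * e + 6 - x + (j + 1) by omega]
    ring
  rw [bb, h4, h3, PP_succ]
  rw [Nat.sub_zero, show 2 * e + 7 - (e + 2) + j = e + 5 + j by omega,
    show 2 * e + 7 - (m - 3) + j = 2 * e + 10 - m + j by omega]
  ring

end presum

section last

variable {k : Type*} [Field k] {A : Type*} [CommRing A] [Algebra k A] {y : ℕ → A} {e : ℕ}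
  {δ : ℕ → k}

theorem last_zero (h2 : (2 : k) ≠ 0) (hv : ∀ s, y s * y s = 0)
    (hR : T0 y e δ * ((y (e + 6) - y 1) * GG y e) -
      ∑ i ∈ Icc 1 (e + 2), YZ y (e + 2) * EV y e (bb e δ (i + 2)) *
        ((y (e + 6) - y 1) * GGk y e i) +
      YZ y (e + 2) * EV y e (bb e δ (e + 5)) * GG y e = 0)
    (hN : ∀ c : k, c • (YZ y (e + 2) * TT y e) = 0 → c = 0)
    (hP : ∀ s, 3 ≤ s → s ≤ 4 * e + 14 → PP δ s = PP δ 3) (hP1 : PP δ 1 = 0) (hP2 : PP δ 2 = 0) :
    δ 3 = 0 := by
  have hv' : ∀ s, (fun l => y (e + 6 + l)) s * (fun l => y (e + 6 + l)) s = 0 := fun s => hv _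
  have hδ : ∀ s, 4 ≤ s → s ≤ 4 * e + 14 → δ s = 0 := by
    intro s h1 h3
    have h4 := PP_succ δ (s - 1)
    rw [show s - 1 + 1 = s by omega, hP s (by omega) h3, hP (s - 1) (by omega) (by omega)] at h4
    linear_combination -h4
  have hEV : ∀ m, 3 ≤ m → m ≤ e + 5 → EV y e (bb e δ m) = 0 := by
    intro m h1 h3
    have e1 : bb e δ m 1 = 0 := by
      have := bb_eq δ e m 0 h1 h3
      rw [zero_add, PP_zero, hP1, hP (2 * e + 7 + 0) (by omega) (by omega),
        hP (e + 5 + 0) (by omega) (by omega),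
        hP (2 * e + 10 - m + 0) (by omega) (by omega)] at this
      rw [this]; ring
    have e2 : bb e δ m 2 = 0 := by
      have := bb_eq δ e m 1 h1 h3
      rw [show 1 + 1 = 2 from rfl, hP2, hP1, hP (2 * e + 7 + 1) (by omega) (by omega),
        hP (e + 5 + 1) (by omega) (by omega),
        hP (2 * e + 10 - m + 1) (by omega) (by omega)] at this
      rw [this]; ring
    have e3 : ∀ l ∈ range (e + 3), bb e δ m (e + 6 + l) • (fun l => y (e + 6 + l)) l = 0 := by
      intro l hl
      rw [mem_range] at hl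
      have := bb_eq δ e m (e + 5 + l) h1 h3
      rw [show e + 5 + l + 1 = e + 6 + l by ring, hP (e + 6 + l) (by omega) (by omega),
        hP (e + 5 + l) (by omega) (by omega), hP (2 * e + 7 + (e + 5 + l)) (by omega) (by omega),
        hP (e + 5 + (e + 5 + l)) (by omega) (by omega),
        hP (2 * e + 10 - m + (e + 5 + l)) (by omega) (by omega)] at this
      rw [this, show PP δ 3 - PP δ 3 + PP δ 3 + PP δ 3 - 2 * PP δ 3 = 0 by ring, zero_smul]
    rw [EV, ev, e1, e2, Finset.sum_eq_zero e3, zero_smul, zero_smul, add_zero, add_zero]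
  have hT : T0 y e δ = δ 3 • YZ y (e + 2) := by
    have e1 : ∀ x ∈ range (e + 2), LL y e (fun j => δ (2 * e + 6 - x + j)) * zz y (e + 2) x = 0 := by
      intro x hx
      rw [mem_range] at hx
      have : LL y e (fun j => δ (2 * e + 6 - x + j)) = 0 := by
        rw [LL]
        refine Finset.sum_eq_zero fun j hj => ?_
        rw [mem_range] at hj
        rw [hδ _ (by omega) (by omega), zero_smul]
      rw [this, zero_mul]
    have e2 : LL y e δ = δ 3 • y 3 := by
      rw [LL, Finset.sum_eq_single_of_mem 2 (mem_range.mpr (by omega))]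
      intro j hj hj2
      rw [mem_range] at hj
      have d1 : δ 1 = 0 := by
        have := PP_succ δ 0
        rw [zero_add, PP_zero, hP1] at this
        linear_combination -this
      have d2 : δ 2 = 0 := by
        have := PP_succ δ 1
        rw [show 1 + 1 = 2 from rfl, hP1, hP2] at this
        linear_combination -this
      rcases Nat.lt_or_ge j 2 with h | h
      · interval_cases j
        · rw [zero_add, d1, zero_smul]
        · rw [show 1 + 1 = 2 from rfl, d2, zero_smul]
      · rw [hδ _ (by omega) (by omega), zero_smul]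
    rw [T0, Finset.sum_eq_zero e1, e2, zero_add, smul_mul_assoc,
      mul_zl (d := e + 2) hv le_rfl (by omega)]
  have hs : ∑ i ∈ Icc 1 (e + 2), YZ y (e + 2) * EV y e (bb e δ (i + 2)) *
        ((y (e + 6) - y 1) * GGk y e i) = 0 := by
    refine Finset.sum_eq_zero fun i hi => ?_
    rw [mem_Icc] at hi
    rw [hEV _ (by omega) (by omega), mul_zero, zero_mul]
  rw [hs, hEV _ (by omega) le_rfl, hT, mul_zero, zero_mul, add_zero, sub_zero] at hR
  have hA := (wt_A1G (k := k) (e := e) (hv 1) (hv 2) hv').hv 1 (by omega)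
  simp only [one_ne_zero, if_false, if_pos (show 1 ≤ e + 1 by omega), add_zero] at hA
  have h5 : (δ 3 * -2) • (YZ y (e + 2) * TT y e) = 0 := by
    rw [mul_smul, ← mul_smul_comm (-2 : k), TT, ← hA]
    rw [smul_mul_assoc] at hR
    have := congrArg (y (e + 6 + 1) * ·) hR
    simp only [mul_zero] at this
    rw [← this]
    rw [mul_smul_comm]
    congr 1
    ring
  have h6 := hN _ h5
  have h7 : 2 * δ 3 = 0 := by linear_combination -h6
  exact (mul_eq_zero.mp h7).resolve_left h2

end last

section point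

variable {k : Type*} [Field k] (e : ℕ)

/-- The point. -/
def pt (k : Type*) [Field k] (e : ℕ) (i : ℕ) : k :=
  (if i = 2 then 1 else 0) - (if i = e + 4 then 1 else 0) + (if i = 2 * e + 8 then 1 else 0) +
    (if i = 2 * e + 9 then 1 else 0)

/-- The rows. -/
noncomputable def row (k : Type*) [Field k] (e u : ℕ) : SqAlg k (2 * e + 8) :=
  YY k (2 * e + 8) u + YY k (2 * e + 8) (u + 1) - YY k (2 * e + 8) (u - (e + 4)) +
    YY k (2 * e + 8) (u - (2 * e + 6))

theorem row_eq {u : ℕ} (h1 : 3 ≤ u) (h2 : u ≤ 2 * e + 9) :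
    ∑ j : Fin (2 * e + 8), pt k e (2 * e + 9 - u + j) • sy k (2 * e + 8) j = row k e u := by
  have h3 : ∀ j : Fin (2 * e + 8), pt k e (2 * e + 9 - u + j) • sy k (2 * e + 8) j =
      (if 2 * e + 9 - u + (j : ℕ) = 2 then (1 : k) else 0) • sy k (2 * e + 8) j -
      (if 2 * e + 9 - u + (j : ℕ) = e + 4 then (1 : k) else 0) • sy k (2 * e + 8) j +
      (if 2 * e + 9 - u + (j : ℕ) = 2 * e + 8 then (1 : k) else 0) • sy k (2 * e + 8) j +
      (if 2 * e + 9 - u + (j : ℕ) = 2 * e + 9 then (1 : k) else 0) • sy k (2 * e + 8) j := by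
    intro j
    rw [pt, add_smul, add_smul, sub_smul]
  simp only [h3, Finset.sum_add_distrib, Finset.sum_sub_distrib, sum_ind]
  rw [if_pos (show 2 * e + 9 - u ≤ 2 * e + 8 by omega), if_pos (show 2 * e + 9 - u ≤ 2 * e + 9 by
    omega), show 2 * e + 8 + 1 - (2 * e + 9 - u) = u by omega,
    show 2 * e + 9 + 1 - (2 * e + 9 - u) = u + 1 by omega]
  have h4 : (if 2 * e + 9 - u ≤ e + 4 then YY k (2 * e + 8) (e + 4 + 1 - (2 * e + 9 - u)) else 0) =
      YY k (2 * e + 8) (u - (e + 4)) := by
    split_ifs with h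
    · congr 1; omega
    · rw [show u - (e + 4) = 0 by omega, YY_zero]
  have h5 : (if 2 * e + 9 - u ≤ 2 then YY k (2 * e + 8) (2 + 1 - (2 * e + 9 - u)) else 0) =
      YY k (2 * e + 8) (u - (2 * e + 6)) := by
    split_ifs with h
    · congr 1; omega
    · rw [show u - (2 * e + 6) = 0 by omega, YY_zero]
  rw [h4, h5, row]
  ring

theorem delta_eq (δ0 : ℕ → k) {u : ℕ} :
    ∑ j : Fin (2 * e + 8), δ0 (2 * e + 9 - u + j) • sy k (2 * e + 8) j =
      LL (YY k (2 * e + 8)) e (fun j => δ0 (2 * e + 9 - u + j - 1)) := by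
  rw [LL, ← Fin.sum_univ_eq_sum_range (fun j => δ0 (2 * e + 9 - u + (j + 1) - 1) •
    YY k (2 * e + 8) (j + 1)) (2 * e + 8)]
  refine Finset.sum_congr rfl fun j _ => ?_
  rw [YY_succ]
  congr 1

/-- The rows of the cycle. -/
def Zs : Finset ℕ := insert (2 * e + 9) (Ico 3 (e + 5))

theorem row_Z {u : ℕ} (h2 : u < e + 5) :
    row k e u = YY k (2 * e + 8) u + YY k (2 * e + 8) (u + 1) := by
  rw [row, show u - (e + 4) = 0 by omega, show u - (2 * e + 6) = 0 by omega, YY_zero]
  ring

theorem row_last : row k e (2 * e + 9) = YY k (2 * e + 8) 3 - YY k (2 * e + 8) (e + 5) := by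
  rw [row, YY_big (show 2 * e + 8 < 2 * e + 9 by omega), YY_big (show 2 * e + 8 < 2 * e + 9 + 1 by
    omega), show 2 * e + 9 - (e + 4) = e + 5 by omega, show 2 * e + 9 - (2 * e + 6) = 3 by omega]
  ring

theorem prod_row_Z {a l : ℕ} (h : a + l ≤ e + 5) :
    ∏ u ∈ Ico a (a + l), row k e u = pth (YY k (2 * e + 8)) a l := by
  rw [Finset.prod_Ico_eq_prod_range, pth, show a + l - a = l by omega]
  refine Finset.prod_congr rfl fun x hx => ?_
  rw [mem_range] at hx
  rw [row_Z e (by omega)]

theorem prod_Zs_last : ∏ u ∈ (Zs e).erase (2 * e + 9), row k e u =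
    zl (YY k (2 * e + 8)) (e + 2) := by
  rw [Zs, Finset.erase_insert (by simp; omega), show e + 5 = 3 + (e + 2) by ring,
    prod_row_Z e (by omega), zl]

theorem prod_Zs_mid {x : ℕ} (hx : x < e + 2) : ∏ u ∈ (Zs e).erase (x + 3), row k e u =
    zz (YY k (2 * e + 8)) (e + 2) x := by
  have h : (Zs e).erase (x + 3) = insert (2 * e + 9) (Ico 3 (3 + x) ∪
      Ico (x + 4) (x + 4 + (e + 1 - x))) := by
    ext u; simp only [Zs, mem_erase, mem_insert, mem_union, mem_Ico]; omega
  rw [h, Finset.prod_insert (by simp; omega), Finset.prod_union (by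
    rw [Finset.disjoint_left]; intro u; simp only [mem_Ico]; omega), prod_row_Z e (by omega),
    prod_row_Z e (by omega), row_last, zz, show e + 2 - 1 - x = e + 1 - x by omega]
  ring

theorem prod_Zs : ∏ u ∈ Zs e, row k e u = 0 := by
  rw [← Finset.mul_prod_erase (Zs e) _ (show 2 * e + 9 ∈ Zs e by simp [Zs]), prod_Zs_last,
    row_last]
  have h : zl (YY k (2 * e + 8)) (e + 2) * (YY k (2 * e + 8) 3 - YY k (2 * e + 8) (e + 5)) = 0 :=
    cycle_zero (y := YY k (2 * e + 8)) (d := e + 2) (fun s => YY_sq (k := k) s)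
  linear_combination h

theorem prod_W : ∏ u ∈ Ico (e + 5) (2 * e + 9), row k e u =
    (YY k (2 * e + 8) (e + 6) - YY k (2 * e + 8) 1 + YY k (2 * e + 8) (e + 5)) *
      ((YY k (2 * e + 8) (e + 6) + YY k (2 * e + 8) (e + 7) - YY k (2 * e + 8) 2) *
    ∏ i ∈ Icc 1 (e + 2), (rr (YY k (2 * e + 8) 1) (YY k (2 * e + 8) 2)
      (fun l => YY k (2 * e + 8) (e + 6 + l)) e i - YY k (2 * e + 8) (i + 2))) := by
  have h : Ico (e + 5) (2 * e + 9) = insert (e + 5) (insert (e + 6)
      ((Icc 1 (e + 2)).map (addRightEmbedding (e + 6)))) := by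
    ext u
    simp only [mem_Ico, mem_insert, mem_map, mem_Icc, addRightEmbedding_apply]
    constructor
    · rintro ⟨h1, h2⟩
      rcases Nat.lt_or_ge u (e + 7) with h3 | h3
      · omega
      · exact Or.inr (Or.inr ⟨u - (e + 6), by omega, by omega⟩)
    · rintro (h1 | h1 | ⟨a, h1, h2⟩) <;> omega
  rw [h, Finset.prod_insert, Finset.prod_insert, Finset.prod_map]
  · congr 1
    · rw [row, show e + 5 - (e + 4) = 1 by omega, show e + 5 - (2 * e + 6) = 0 by omega, YY_zero,
        show e + 5 + 1 = e + 6 by ring]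
      ring
    congr 1
    · rw [row, show e + 6 - (e + 4) = 2 by omega, show e + 6 - (2 * e + 6) = 0 by omega, YY_zero,
        show e + 6 + 1 = e + 7 by ring]
      ring
    refine Finset.prod_congr rfl fun i hi => ?_
    rw [mem_Icc] at hi
    rw [addRightEmbedding_apply, row, show i + (e + 6) - (e + 4) = i + 2 by omega,
      show i + (e + 6) = e + 6 + i by ring]
    rcases Nat.lt_or_ge e i with h1 | h1
    · rcases Nat.lt_or_ge (e + 1) i with h3 | h3
      · obtain rfl : i = e + 2 := by omega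
        rw [rr_last, YY_big (show 2 * e + 8 < e + 6 + (e + 2) + 1 by omega),
          show e + 6 + (e + 2) - (2 * e + 6) = 2 by omega]
        ring
      · obtain rfl : i = e + 1 := by omega
        rw [rr_pred, show e + 6 + (e + 1) - (2 * e + 6) = 1 by omega,
          show e + 6 + (e + 1) + 1 = e + 6 + (e + 2) by ring]
        ring
    · rw [rr_mid h1, show e + 6 + i - (2 * e + 6) = 0 by omega, YY_zero, add_assoc (e + 6) i 1]
      ring
  · simp only [mem_map, mem_Icc, addRightEmbedding_apply, not_exists, not_and]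
    intro a ha; omega
  · simp only [mem_insert, mem_map, mem_Icc, addRightEmbedding_apply, not_or, not_exists, not_and]
    refine ⟨by omega, fun a ha => ?_⟩
    omega

theorem Icc_eq_union : Icc 3 (2 * e + 9) = Zs e ∪ Ico (e + 5) (2 * e + 9) := by
  ext u; simp only [Zs, mem_Icc, mem_union, mem_insert, mem_Ico]; omega

theorem disj : Disjoint (Zs e) (Ico (e + 5) (2 * e + 9)) := by
  rw [Finset.disjoint_left]; intro u; simp only [Zs, mem_insert, mem_Ico]; omega

theorem prod_rows : ∏ u ∈ Icc 3 (2 * e + 9), row k e u = 0 := by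
  rw [Icc_eq_union, Finset.prod_union (disj e), prod_Zs, zero_mul]

theorem nondeg (c : k) (h : c • (YZ (YY k (2 * e + 8)) (e + 2) * TT (YY k (2 * e + 8)) e) = 0) :
    c = 0 := by
  refine smul_prod_YY (n := 2 * e + 8) (T := Icc 1 (2 * e + 8)) (fun j hj => mem_Icc.mp hj) c ?_
  rw [← h]
  congr 1
  have h1 : Icc 1 (2 * e + 8) = (range (2 + (e + 3) + (1 + (e + 1) + 1))).map
      (addRightEmbedding 1) := by
    ext u
    simp only [mem_Icc, mem_map, mem_range, addRightEmbedding_apply]
    constructor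
    · rintro ⟨h1, h2⟩; exact ⟨u - 1, by omega, by omega⟩
    · rintro ⟨a, h1, rfl⟩; omega
  rw [h1, Finset.prod_map]
  simp only [addRightEmbedding_apply]
  rw [Finset.prod_range_add _ (2 + (e + 3)) (1 + (e + 1) + 1),
    Finset.prod_range_add _ 2 (e + 3), Finset.prod_range_add _ (1 + (e + 1)) 1,
    Finset.prod_range_add _ 1 (e + 1), Finset.prod_range_succ, Finset.prod_range_one,
    Finset.prod_range_one, Finset.prod_range_one, YZ, TT, Top, mon, mon]
  have e1 : ∏ x ∈ range (e + 3), YY k (2 * e + 8) (2 + x + 1) =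
      ∏ x ∈ range (e + 2 + 1), YY k (2 * e + 8) (3 + x) := by
    refine Finset.prod_congr rfl fun x _ => ?_
    congr 1; ring
  have e2 : ∏ x ∈ range (e + 1), YY k (2 * e + 8) (2 + (e + 3) + (1 + x) + 1) =
      ∏ x ∈ range (e + 1), YY k (2 * e + 8) (e + 6 + (1 + x)) := by
    refine Finset.prod_congr rfl fun x _ => ?_
    congr 1; ring
  rw [e1, e2, show 2 + (e + 3) + 0 + 1 = e + 6 + 0 by ring,
    show 2 + (e + 3) + (1 + (e + 1) + 0) + 1 = e + 6 + (e + 2) by ring, zero_add,
    show 1 + 1 = 2 from rfl]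
  ring

end point

section main

variable {k : Type*} [Field k]

/-- Extension of a vector by zero. -/
def ext (N : ℕ) (δ : Fin N → k) (i : ℕ) : k := if h : i < N then δ ⟨i, h⟩ else 0

/-- The functionals. -/
noncomputable def fn (k : Type*) [Field k] (N : ℕ) (a : ℕ × ℕ × ℕ × ℕ) : (Fin N → k) →ₗ[k] k where
  toFun δ := (∑ i ∈ range a.1, ext N δ i - ∑ i ∈ range a.2.1, ext N δ i) -
    (∑ i ∈ range a.2.2.1, ext N δ i - ∑ i ∈ range a.2.2.2, ext N δ i)
  map_add' x y := by
    have h : ∀ i, ext N (x + y) i = ext N x i + ext N y i := by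
      intro i; simp only [ext]; split_ifs <;> simp
    simp only [h, Finset.sum_add_distrib]
    ring
  map_smul' c x := by
    have h : ∀ i, ext N (c • x) i = c * ext N x i := by
      intro i; simp only [ext]; split_ifs <;> simp
    simp only [h, ← Finset.mul_sum, RingHom.id_apply, smul_eq_mul]
    ring

/-- The list of functionals. -/
def fns (e : ℕ) : List (ℕ × ℕ × ℕ × ℕ) :=
  [(2 * e + 8, 2 * e + 7, 0, 0), (2 * e + 9, 2 * e + 8, 0, 0), (2 * e + 10, 2 * e + 9, 0, 0),
    (2 * e + 11, 2 * e + 10, 0, 0), (2 * e + 12, 2 * e + 11, 0, 0), (e + 7, e + 6, 0, 0)] ++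
  (List.range (e + 2)).map (fun i => (4 + i, 3 + i, 0, 0)) ++
  (List.range ((e + 1) / 2 - 1)).map
    (fun i => (e + 6 + (i + 2), e + 6, 2 * e + 11 + (i + 2), 2 * e + 11)) ++
  (List.range ((e + 4) / 2 - 3)).map (fun i => (2 * e + 11 + (i + 4), 2 * e + 11, 0, 0))

theorem length_fns {e : ℕ} (he : 2 ≤ e) : (fns e).length ≤ 2 * e + 6 := by
  simp only [fns, List.length_append, List.length_map, List.length_range, List.length_cons,
    List.length_nil]
  omega

theorem not_prime_aux (h2 : (2 : k) ≠ 0) {e : ℕ} (he : 2 ≤ e) :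
    ¬ (permIdeal (2 * e + 7) (hankelMatrix k (2 * e + 7) (2 * e + 8))).IsPrime := by
  intro hp
  have hbig := hankel_big (k := k) (m := 2 * e + 7) (n := 2 * e + 8) (T := 2 * e + 6) (by omega)
    (by omega) (by omega) hp
  have hmem := mem_variety (t := 2 * e + 7) (n := 2 * e + 8) (pt k e) (Icc 3 (2 * e + 9))
    (by rw [Nat.card_Icc]; omega) (fun u => 2 * e + 9 - u) (by
      intro u hu v hv huv
      rw [Finset.mem_coe, mem_Icc] at hu hv
      simp only at huv
      omega) (by
      intro u hu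
      rw [mem_Icc] at hu
      omega) (by
      rw [← prod_rows (k := k) e]
      refine Finset.prod_congr rfl fun u hu => ?_
      rw [mem_Icc] at hu
      exact row_eq e hu.1 hu.2)
  set N := 2 * e + 7 + (2 * e + 8) - 1 with hN
  have hN' : N = 4 * e + 14 := by omega
  obtain ⟨δ, hδ0, hΦ, hδ⟩ := exists_tangent_lin _ hbig (fun i : Fin N => pt k e i) hmem
    (fun i : Fin (fns e).length => fn k N ((fns e).get i)) (by
      rw [Fintype.card_fin]; exact length_fns he)
  have hΦ' : ∀ a ∈ fns e, fn k N a δ = 0 := by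
    intro a ha
    obtain ⟨i, rfl⟩ := List.get_of_mem ha
    exact hΦ i
  set δ0 : ℕ → k := ext N δ with hδ0def
  set δ1 : ℕ → k := fun s => δ0 (s - 1) with hδ1
  have hPP : ∀ s, PP δ1 s = ∑ i ∈ range s, ext N δ i := by
    intro s
    rw [PP]
    refine Finset.sum_congr rfl fun i _ => ?_
    rfl
  have hz : ∀ a b c d, (a, b, c, d) ∈ fns e → PP δ1 a - PP δ1 b = PP δ1 c - PP δ1 d := by
    intro a b c d hm
    have := hΦ' _ hm
    rw [hPP, hPP, hPP, hPP, ← sub_eq_zero]
    exact this
  have hδ' : ∀ f ∈ permIdeal (2 * e + 7) (hankelMatrix k (2 * e + 7) (2 * e + 8)),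
      aeval (fun i : Fin (2 * e + 7 + (2 * e + 8) - 1) => pt k e i)
        (dd (fun i : Fin (2 * e + 7 + (2 * e + 8) - 1) => δ0 i) f) = 0 := by
    intro f hf
    have h1 := hδ f hf
    have h3 : (fun i : Fin N => δ0 i) = δ := by
      funext i
      simp [hδ0def, ext]
    rw [← h3] at h1
    exact h1
  have hrel := tangent_relation (m := 2 * e + 7) (t := 2 * e + 7) (n := 2 * e + 8) (pt k e) δ0 hδ'
    (sy k (2 * e + 8)) (fun j => sy_mul_self j) (Icc 3 (2 * e + 9))
    (by rw [Nat.card_Icc]; omega) (fun u => 2 * e + 9 - u) (by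
      intro u hu v hv huv
      rw [Finset.mem_coe, mem_Icc] at hu hv
      simp only at huv
      omega) (by
      intro u hu
      rw [mem_Icc] at hu
      omega)
  set y := YY k (2 * e + 8) with hy
  have hyv : ∀ s, y s * y s = 0 := fun s => YY_sq s
  have hrel2 : ∑ a ∈ Icc 3 (2 * e + 9), LL y e (fun j => δ0 (2 * e + 9 - a + j - 1)) *
      ∏ u ∈ (Icc 3 (2 * e + 9)).erase a, row k e u = 0 := by
    rw [← hrel]
    refine Finset.sum_congr rfl fun a ha => ?_
    rw [delta_eq]
    congr 1
    refine Finset.prod_congr rfl fun u hu => ?_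
    have hu' := Finset.mem_of_mem_erase hu
    rw [mem_Icc] at hu'
    exact (row_eq e hu'.1 hu'.2).symm
  have hT0 : T0 y e δ1 * ∏ u ∈ Ico (e + 5) (2 * e + 9), row k e u = 0 := by
    rw [Icc_eq_union, Finset.sum_union (disj e)] at hrel2
    have h1 : ∑ a ∈ Ico (e + 5) (2 * e + 9), LL y e (fun j => δ0 (2 * e + 9 - a + j - 1)) *
        ∏ u ∈ (Zs e ∪ Ico (e + 5) (2 * e + 9)).erase a, row k e u = 0 := by
      refine Finset.sum_eq_zero fun a ha => ?_
      have h3 : (Zs e ∪ Ico (e + 5) (2 * e + 9)).erase a = Zs e ∪ (Ico (e + 5) (2 * e + 9)).erase a := by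
        rw [Finset.erase_union_distrib, Finset.erase_eq_of_notMem]
        exact Finset.disjoint_right.mp (disj e) ha
      rw [h3, Finset.prod_union (Finset.disjoint_of_subset_right (Finset.erase_subset _ _)
        (disj e)), prod_Zs, zero_mul, mul_zero]
    have h4 : ∀ a ∈ Zs e, LL y e (fun j => δ0 (2 * e + 9 - a + j - 1)) *
        ∏ u ∈ (Zs e ∪ Ico (e + 5) (2 * e + 9)).erase a, row k e u =
        LL y e (fun j => δ0 (2 * e + 9 - a + j - 1)) * (∏ u ∈ (Zs e).erase a, row k e u) *
          ∏ u ∈ Ico (e + 5) (2 * e + 9), row k e u := by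
      intro a ha
      have h3 : (Zs e ∪ Ico (e + 5) (2 * e + 9)).erase a =
          (Zs e).erase a ∪ Ico (e + 5) (2 * e + 9) := by
        rw [Finset.erase_union_distrib, Finset.erase_eq_of_notMem
          (Finset.disjoint_left.mp (disj e) ha)]
      rw [h3, Finset.prod_union (Finset.disjoint_of_subset_left (Finset.erase_subset _ _)
        (disj e)), mul_assoc]
    rw [h1, add_zero, Finset.sum_congr rfl h4, ← Finset.sum_mul] at hrel2
    rw [← hrel2]
    congr 1
    have h5 : Zs e = insert (2 * e + 9) ((range (e + 2)).map (addRightEmbedding 3)) := by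
      ext u
      simp only [Zs, mem_insert, mem_Ico, mem_map, mem_range, addRightEmbedding_apply]
      constructor
      · rintro (h | ⟨h3, h4⟩)
        · exact Or.inl h
        · exact Or.inr ⟨u - 3, by omega, by omega⟩
      · rintro (h | ⟨a, h3, rfl⟩) <;> omega
    have h6 : ∑ a ∈ Zs e, LL y e (fun j => δ0 (2 * e + 9 - a + j - 1)) *
        (∏ u ∈ (Zs e).erase a, row k e u) =
        LL y e (fun j => δ0 (2 * e + 9 - (2 * e + 9) + j - 1)) *
          (∏ u ∈ (Zs e).erase (2 * e + 9), row k e u) +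
        ∑ x ∈ range (e + 2), LL y e (fun j => δ0 (2 * e + 9 - (x + 3) + j - 1)) *
          (∏ u ∈ (Zs e).erase (x + 3), row k e u) := by
      conv_lhs => rw [h5]
      rw [Finset.sum_insert (by
        simp only [mem_map, mem_range, addRightEmbedding_apply, not_exists, not_and]
        intro a ha; omega), Finset.sum_map]
      rw [← h5]
      rfl
    have h7 : T0 y e δ1 = LL y e δ1 * zl y (e + 2) +
        ∑ x ∈ range (e + 2), LL y e (fun j => δ1 (2 * e + 6 - x + j)) * zz y (e + 2) x := by
      rw [T0]; exact add_comm _ _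
    rw [h6, h7]
    congr 1
    · rw [prod_Zs_last]
      congr 2
      funext j
      simp only [hδ1]
      congr 1
      omega
    · refine Finset.sum_congr rfl fun x hx => ?_
      rw [mem_range] at hx
      rw [prod_Zs_mid e hx]
      congr 2
      funext j
      simp only [hδ1]
      congr 1
      omega
  rw [prod_W] at hT0
  have hR := relation hyv hT0
  have hNd : ∀ c : k, c • (YZ y (e + 2) * TT y e) = 0 → c = 0 := fun c hc => nondeg e c hc
  have hC := cons h2 hyv hR hNd
  have hcases := elim h2 he (PP δ1) (PP_zero _) (bb e δ1)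
    (fun m j h1 h3 => bb_eq δ1 e m j h1 h3) hC
    (by have := hz (2 * e + 8) (2 * e + 7) 0 0 (by simp [fns]); linear_combination this)
    (by have := hz (2 * e + 9) (2 * e + 8) 0 0 (by simp [fns]); linear_combination this)
    (by have := hz (2 * e + 10) (2 * e + 9) 0 0 (by simp [fns]); linear_combination this)
    (by have := hz (2 * e + 11) (2 * e + 10) 0 0 (by simp [fns]); linear_combination this)
    (by have := hz (2 * e + 12) (2 * e + 11) 0 0 (by simp [fns]); linear_combination this)
    (by have := hz (e + 7) (e + 6) 0 0 (by simp [fns]); linear_combination this)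
    (by
      intro i hi
      have := hz (4 + i) (3 + i) 0 0 (by
        simp only [fns, List.mem_append, List.mem_map, List.mem_range]
        exact Or.inl (Or.inl (Or.inr ⟨i, by omega, rfl⟩)))
      linear_combination this)
    (by
      intro j hj1 hj2
      exact hz (e + 6 + j) (e + 6) (2 * e + 11 + j) (2 * e + 11) (by
        simp only [fns, List.mem_append, List.mem_map, List.mem_range]
        exact Or.inl (Or.inr ⟨j - 2, by omega, by rw [show j - 2 + 2 = j by omega]⟩)))
    (by
      intro j hj1 hj2 hj3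
      have := hz (2 * e + 11 + j) (2 * e + 11) 0 0 (by
        simp only [fns, List.mem_append, List.mem_map, List.mem_range]
        exact Or.inr ⟨j - 4, by omega, by rw [show j - 4 + 4 = j by omega]⟩)
      linear_combination this)
  obtain ⟨hP, hP1, hP2⟩ := hcases
  have h3 := last_zero h2 hyv hR hNd hP hP1 hP2
  -- the vector vanishes
  have hP3 : PP δ1 3 = 0 := by
    have := PP_succ δ1 2
    rw [show 2 + 1 = 3 from rfl, hP2, h3] at this
    rw [this, add_zero]
  have hall : ∀ s, s ≤ 4 * e + 14 → PP δ1 s = 0 := by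
    intro s hs
    rcases Nat.lt_or_ge s 3 with h | h
    · interval_cases s
      · exact PP_zero _
      · exact hP1
      · exact hP2
    · rw [hP s h hs, hP3]
  apply hδ0
  funext i
  have hi := i.2
  have h4 := PP_succ δ1 i
  rw [hall _ (by omega), hall _ (by omega)] at h4
  have h5 : δ1 (i + 1) = δ i := by
    show ext N δ ((i : ℕ) + 1 - 1) = δ i
    rw [Nat.add_sub_cancel, ext, dif_pos hi]
  rw [Pi.zero_apply, ← h5]
  linear_combination -h4

/-- The ideal is not prime for `m = t`, `n = t + 1`, `t ≥ 11` odd. -/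
theorem not_prime (h2 : (2 : k) ≠ 0) {t : ℕ} (ht : Odd t) (h11 : 11 ≤ t) :
    ¬ (permIdeal t (hankelMatrix k t (t + 1))).IsPrime := by
  obtain ⟨c, rfl⟩ := ht
  have h := not_prime_aux (k := k) h2 (e := c - 3) (by omega)
  rw [show 2 * (c - 3) + 7 = 2 * c + 1 by omega, show 2 * (c - 3) + 8 = 2 * c + 1 + 1 by omega] at h
  exact h

end main

end Pool.Agent.HankelPerm.BOdd
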