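import Pool.Agent.HankelPerm.LinkPoint

/-!
Second order: if a prescribed set of `T + 1` coordinates determines the tangent vectors at a point,
then the second derivatives along tangent vectors of the elements of `P` with zero gradient vanish.
First and second derivatives of a maximal permanent, in the squarefree algebra.
-/

namespace Pool.Agent.HankelPerm

open Matrix Finset Equiv MvPolynomial Pool.Agent.H32

section line

variable {k : Type*} [Field k] {N : ℕ}

theorem second_order_line (P : Ideal (MvPolynomial (Fin N) k)) [P.IsPrime] {T : ℕ}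
    (hbig : Big P T) (q : Fin N → k) (hq : ∀ f ∈ P, aeval q f = 0) (F : Finset (Fin N))
    (hF : F.card ≤ T + 1)
    (hinj : ∀ δ : Fin N → k, (∀ i ∈ F, δ i = 0) → (∀ f ∈ P, aeval q (dd δ f) = 0) → δ = 0)
    (τ τ' : Fin N → k) (hτ : ∀ f ∈ P, aeval q (dd τ f) = 0)
    (hτ' : ∀ f ∈ P, aeval q (dd τ' f) = 0) (h : MvPolynomial (Fin N) k) (hh : h ∈ P)
    (hh0 : ∀ δ : Fin N → k, aeval q (dd δ h) = 0) :
    aeval q (dd τ' (dd τ h)) = 0 := by
  classical
  obtain ⟨κ, a, ha, hsp, hli⟩ := exists_linearIndependent' k
    (fun f : P => grad q (f : MvPolynomial (Fin N) k))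
  have : Finite κ := hli.finite
  have : Fintype κ := Fintype.ofFinite κ
  let e := (Fintype.equivFin κ).symm
  have hlie : LinearIndependent k (fun i => grad q ((a (e i) : P) : MvPolynomial (Fin N) k)) :=
    hli.comp e e.injective
  have h1 := first_order P hbig q hq (fun i => ((a (e i) : P) : MvPolynomial (Fin N) k))
    (fun i => (a (e i)).2) hlie
  let φ : (Fin N → k) →ₗ[k] (F → k) × (κ → k) :=
    LinearMap.prod (LinearMap.pi fun i : F => LinearMap.proj (i : Fin N))
      (LinearMap.pi fun b : κ => Fintype.linearCombination k (grad q ((a b : P) : MvPolynomial (Fin N) k)))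
  have hφ : Function.Injective φ := by
    rw [← LinearMap.ker_eq_bot, LinearMap.ker_eq_bot']
    intro δ hδ
    refine hinj δ (fun i hi => congrFun (congrArg Prod.fst hδ) ⟨i, hi⟩) (fun f hf => ?_)
    have h2 : ∀ v ∈ Submodule.span k (Set.range ((fun f : P => grad q (f : MvPolynomial (Fin N) k)) ∘ a)),
        ∑ i, v i * δ i = 0 := by
      intro v hv
      induction hv using Submodule.span_induction with
      | mem v hv =>
        obtain ⟨b, rfl⟩ := hv
        have h3 := congrFun (congrArg Prod.snd hδ) b
        simp only [φ, LinearMap.prod_apply, Prod.snd_zero, Pi.zero_apply] at h3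
        rw [← h3]
        refine Finset.sum_congr rfl fun i _ => ?_
        simp only [Function.comp_apply, smul_eq_mul]
        ring
      | zero => simp
      | add v w _ _ hv hw => simp only [Pi.add_apply, add_mul, Finset.sum_add_distrib, hv, hw,
          add_zero]
      | smul c v _ hv =>
        simp only [Pi.smul_apply, smul_eq_mul, mul_assoc, ← Finset.mul_sum, hv, mul_zero]
    rw [← sum_grad_mul]
    apply h2
    rw [hsp]
    exact Submodule.subset_span ⟨⟨f, hf⟩, rfl⟩
  have h2 := LinearMap.finrank_le_finrank_of_injective hφ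
  rw [Module.finrank_prod, Module.finrank_fintype_fun_eq_card, Module.finrank_fintype_fun_eq_card,
    Module.finrank_fintype_fun_eq_card, Fintype.card_fin, Fintype.card_coe] at h2
  rw [← sum_sum_hess]
  refine second_order P hbig q hq (fun i => ((a (e i) : P) : MvPolynomial (Fin N) k))
    (fun i => (a (e i)).2) hlie (by omega) τ τ' (fun i => ?_) (fun i => ?_) h hh (fun i => ?_)
  · rw [sum_grad_mul]; exact hτ _ (a (e i)).2
  · rw [sum_grad_mul]; exact hτ' _ (a (e i)).2
  · have := hh0 (Pi.single i 1)
    rw [← sum_grad_mul] at this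
    simpa [Pi.single_apply] using this

end line

section perm

variable {k : Type*} [Field k] {n : ℕ} {A : Type*} [CommRing A] [Algebra k A]

/-- The permanent of a selection of columns, as a coefficient. -/
theorem compl_mul_prod (y : Fin n → A) (hy : ∀ j, y j * y j = 0) {ι : Type*} [Fintype ι]
    [DecidableEq ι] (m : ι → Fin n → k) (c : ι → Fin n) (hc : Function.Injective c) :
    (∏ j ∈ (univ.image c)ᶜ, y j) * ∏ i, ∑ j, m i j • y j =
      (Matrix.of fun i j => m i (c j)).permanent • ∏ j, y j := by
  classical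
  have h1 : ∏ i, ∑ j, m i j • y j =
      ∑ c' : ι → Fin n, (∏ i, m i (c' i)) • ∏ i, y (c' i) := by
    rw [Finset.prod_univ_sum, Fintype.piFinset_univ]
    refine Finset.sum_congr rfl fun c _ => ?_
    simp only [Algebra.smul_def, Finset.prod_mul_distrib, map_prod]
  rw [h1]
  set U : Finset (Fin n) := univ.image c with hU
  have hsplit : (∏ j ∈ U, y j) * ∏ j ∈ Uᶜ, y j = ∏ j, y j :=
    Finset.prod_mul_prod_compl U _
  have hUc : ∏ j ∈ U, y j = ∏ i, y (c i) := by
    rw [hU, Finset.prod_image (fun x _ y _ hxy => hc hxy)]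
  rw [mul_comm, Finset.sum_mul]
  have hzero : ∀ c' : ι → Fin n, ¬ (∃ σ : Perm ι, c ∘ σ = c') →
      ((∏ i, m i (c' i)) • ∏ i, y (c' i)) * ∏ j ∈ Uᶜ, y j = 0 := by
    intro c' hc'
    by_cases hmaps : ∀ i, c' i ∈ U
    · -- then `c'` is not injective
      have hni : ¬ Function.Injective c' := by
        intro hinj
        apply hc'
        have h4 : ∀ i, ∃ j, c j = c' i := by
          intro i
          have := hmaps i
          rw [hU] at this
          simpa using this
        choose g hg using h4
        have hginj : Function.Injective g := by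
          intro i j hij
          apply hinj
          rw [← hg, ← hg, hij]
        exact ⟨Equiv.ofBijective g (Finite.injective_iff_bijective.mp hginj), by
          funext i; simp [hg]⟩
      rw [Function.not_injective_iff] at hni
      obtain ⟨a, b, hab, hne⟩ := hni
      have : ∏ i, y (c' i) = 0 := by
        rw [← Finset.mul_prod_erase _ _ (Finset.mem_univ a),
          ← Finset.mul_prod_erase (univ.erase a) _ (a := b) (by simp [hne.symm]), hab,
          ← mul_assoc, hy, zero_mul]
      rw [this, smul_zero, zero_mul]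
    · push Not at hmaps
      obtain ⟨i, hi⟩ := hmaps
      rw [← Finset.mul_prod_erase univ (fun i => y (c' i)) (Finset.mem_univ i),
        ← Finset.mul_prod_erase Uᶜ (fun j => y j) (Finset.mem_compl.mpr hi), smul_mul_assoc]
      have : y (c' i) * (∏ x ∈ univ.erase i, y (c' x)) *
          (y (c' i) * ∏ x ∈ Uᶜ.erase (c' i), y x) = 0 := by
        linear_combination ((∏ x ∈ univ.erase i, y (c' x)) *
          ∏ x ∈ Uᶜ.erase (c' i), y x) * hy (c' i)
      rw [this, smul_zero]
  have h3 : ∑ c' : ι → Fin n, ((∏ i, m i (c' i)) • ∏ i, y (c' i)) * ∏ j ∈ Uᶜ, y j =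
      ∑ σ : Perm ι, ((∏ i, m i (c (σ i))) • ∏ i, y (c (σ i))) * ∏ j ∈ Uᶜ, y j := by
    symm
    rw [← Finset.sum_subset (s₁ := (univ : Finset (Perm ι)).image (fun σ i => c (σ i)))
      (Finset.subset_univ _)]
    · rw [Finset.sum_image]
      intro σ _ σ' _ h
      ext i
      exact hc (congrFun h i)
    · intro c' _ hc'
      apply hzero
      rintro ⟨σ, rfl⟩
      exact hc' (Finset.mem_image_of_mem _ (Finset.mem_univ _))
  rw [h3, Matrix.permanent, Finset.sum_smul, ← Equiv.sum_comp (Equiv.inv (Perm ι))]
  refine Finset.sum_congr rfl fun σ _ => ?_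
  have h5 : ∏ i, y (c ((Equiv.inv (Perm ι) σ) i)) = ∏ i, y (c i) :=
    Equiv.prod_comp (Equiv.inv (Perm ι) σ) (fun i => y (c i))
  have h6 : ∏ i, (Matrix.of fun i j => m i (c j)) (σ i) i =
      ∏ i, m i (c ((Equiv.inv (Perm ι) σ) i)) := by
    rw [← Equiv.prod_comp σ (fun i => m i (c ((Equiv.inv (Perm ι) σ) i)))]
    simp
  rw [h5, smul_mul_assoc, ← hUc, hsplit, h6]

/-- The gradient of the permanent of a selection of columns. -/
theorem compl_mul_dd {m : ℕ} (y : Fin n → A) (hy : ∀ j, y j * y j = 0) {ι : Type*} [Fintype ι]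
    [DecidableEq ι] (q δ : ℕ → k) (r : ι → Fin m) (c : ι → Fin n) (hc : Function.Injective c) :
    (∏ j ∈ (univ.image c)ᶜ, y j) * ∑ a, ∏ i, (if i = a then ∑ j : Fin n, δ (r i + j) • y j else
      ∑ j : Fin n, q (r i + j) • y j) =
      (aeval (fun i : Fin (m + n - 1) => q i) (dd (fun i : Fin (m + n - 1) => δ i)
        ((hankelMatrix k m n).submatrix r c).permanent)) • ∏ j, y j := by
  rw [aeval_dd_permanent, Finset.sum_smul, Finset.mul_sum]
  refine Finset.sum_congr rfl fun a _ => ?_
  have h1 := compl_mul_prod y hy (fun i j => if i = a then δ (r i + j) else q (r i + j)) c hc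
  have h2 : (Matrix.of fun i j => if i = a then δ (r i + c j) else q (r i + c j)) =
      (hm q (fun i => r i) (fun i => c i)).updateRow a (fun j => δ (r a + c j)) := by
    ext i j
    by_cases hi : i = a
    · subst hi; simp
    · simp [hi, hm]
  rw [h2] at h1
  rw [← h1]
  congr 1
  refine Finset.prod_congr rfl fun i _ => ?_
  split_ifs <;> rfl

/-- The second derivatives of the permanent of a selection of columns. -/
theorem compl_mul_dd_dd {m : ℕ} (y : Fin n → A) (hy : ∀ j, y j * y j = 0) {ι : Type*}
    [Fintype ι] [DecidableEq ι] (q τ τ' : ℕ → k) (r : ι → Fin m) (c : ι → Fin n)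
    (hc : Function.Injective c) :
    (∏ j ∈ (univ.image c)ᶜ, y j) * ∑ a, ∑ b ∈ univ.erase a, ∏ i, (if i = b then
      ∑ j : Fin n, τ' (r i + j) • y j else if i = a then ∑ j : Fin n, τ (r i + j) • y j else
      ∑ j : Fin n, q (r i + j) • y j) =
      (aeval (fun i : Fin (m + n - 1) => q i) (dd (fun i : Fin (m + n - 1) => τ' i)
        (dd (fun i : Fin (m + n - 1) => τ i)
        ((hankelMatrix k m n).submatrix r c).permanent))) • ∏ j, y j := by
  rw [aeval_dd_dd_permanent, Finset.sum_smul, Finset.mul_sum]
  refine Finset.sum_congr rfl fun a _ => ?_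
  rw [Finset.sum_smul, Finset.mul_sum]
  refine Finset.sum_congr rfl fun b _ => ?_
  have h1 := compl_mul_prod y hy (fun i j => if i = b then τ' (r i + j) else
    if i = a then τ (r i + j) else q (r i + j)) c hc
  have h2 : (Matrix.of fun i j => if i = b then τ' (r i + c j) else
      if i = a then τ (r i + c j) else q (r i + c j)) =
      ((hm q (fun i => r i) (fun i => c i)).updateRow a (fun j => τ (r a + c j))).updateRow b
        (fun j => τ' (r b + c j)) := by
    ext i j
    by_cases hi : i = b
    · subst hi; simp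
    · by_cases hi' : i = a
      · subst hi'; simp [hi]
      · simp [hi, hi', hm]
  rw [h2] at h1
  rw [← h1]
  congr 1
  refine Finset.prod_congr rfl fun i _ => ?_
  split_ifs <;> rfl

end perm

end Pool.Agent.HankelPerm
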