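import Pool.Agent.HankelPerm.EvenValue
import Pool.Agent.HankelPerm.SecondOrder

/-!
`m = t`, `n = t + 1`, `t` even, `t ≥ 6`: the permanental ideal of the generic Hankel matrix is not
prime.
-/

namespace Pool.Agent.HankelPerm

open Matrix Finset Equiv MvPolynomial Pool.Agent.H32

namespace Even

section sums

variable {A : Type*} [CommRing A]

theorem prod_iota {m : ℕ} (f : Bool × Fin m → A) :
    ∏ i, f i = (∏ x, f (true, x)) * ∏ x, f (false, x) := by
  rw [Fintype.prod_prod_type, Fintype.prod_bool]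

theorem sum_iota {m : ℕ} (f : Bool × Fin m → A) :
    ∑ i, f i = (∑ x, f (true, x)) + ∑ x, f (false, x) := by
  rw [Fintype.sum_prod_type, Fintype.sum_bool]

theorem prod_one {m : ℕ} (x : Fin m) (f g : ℕ → A) :
    ∏ y : Fin m, (if y = x then f y else g y) = f x * ∏ y ∈ (range m).erase x, g y := by
  have h1 : ∏ y : Fin m, (if y = x then f y else g y) =
      ∏ y ∈ range m, (if y = (x : ℕ) then f y else g y) := by
    rw [← Fin.prod_univ_eq_prod_range (fun y => if y = (x : ℕ) then f y else g y) m]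
    refine Finset.prod_congr rfl fun y _ => ?_
    by_cases h : y = x
    · rw [if_pos h, if_pos (congrArg Fin.val h)]
    · rw [if_neg h, if_neg (fun h' => h (Fin.ext h'))]
  rw [h1, ← Finset.mul_prod_erase _ _ (mem_range.mpr x.2), if_pos rfl]
  congr 1
  refine Finset.prod_congr rfl fun y hy => ?_
  rw [if_neg (Finset.ne_of_mem_erase hy)]

variable (K B dK dB : ℕ → A) (m : ℕ)

omit [CommRing A] in
/-- The rows, and the rows of the tangent vector. -/
def LL (i : Bool × Fin m) : A := if i.1 = true then K i.2 else B i.2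

variable {K B dK dB m}

omit [CommRing A] in
theorem LL_true (x : Fin m) : LL K B m (true, x) = K x := by simp [LL]

omit [CommRing A] in
theorem LL_false (x : Fin m) : LL K B m (false, x) = B x := by simp [LL]

theorem first_sum : ∑ a : Bool × Fin m, ∏ i, (if i = a then LL dK dB m i else LL K B m i) =
    (∑ x ∈ range m, dK x * ∏ y ∈ (range m).erase x, K y) * ∏ x ∈ range m, B x +
    (∏ x ∈ range m, K x) * ∑ x ∈ range m, dB x * ∏ y ∈ (range m).erase x, B y := by
  have h1 : ∀ x : Fin m, ∏ i, (if i = (true, x) then LL dK dB m i else LL K B m i) =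
      (dK x * ∏ y ∈ (range m).erase x, K y) * ∏ x ∈ range m, B x := by
    intro x
    rw [prod_iota, ← prod_one, Finset.prod_range (fun x => B x)]
    congr 1
    · refine Finset.prod_congr rfl fun y _ => ?_
      rw [LL_true, LL_true]
      simp only [Prod.mk.injEq, true_and]
  have h2 : ∀ x : Fin m, ∏ i, (if i = (false, x) then LL dK dB m i else LL K B m i) =
      (∏ x ∈ range m, K x) * (dB x * ∏ y ∈ (range m).erase x, B y) := by
    intro x
    rw [prod_iota, ← prod_one, Finset.prod_range (fun x => K x)]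
    congr 1
    · refine Finset.prod_congr rfl fun y _ => ?_
      rw [LL_false, LL_false]
      simp only [Prod.mk.injEq, true_and]
  rw [sum_iota, Finset.sum_congr rfl (fun x _ => h1 x), Finset.sum_congr rfl (fun x _ => h2 x),
    Finset.sum_mul, Finset.mul_sum, Finset.sum_range, Finset.sum_range]

theorem sum_erase_eq {ι M : Type*} [Fintype ι] [DecidableEq ι] [AddCommMonoid M] (a : ι)
    (f : ι → M) : ∑ b ∈ univ.erase a, f b = ∑ b, if b = a then 0 else f b := by
  rw [← Finset.sum_erase (s := univ) (a := a) (f := fun b => if b = a then 0 else f b) (if_pos rfl)]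
  refine Finset.sum_congr rfl fun b hb => ?_
  rw [if_neg (Finset.ne_of_mem_erase hb)]

theorem second_sum {z : A} (hB : z * ∏ x ∈ range m, B x = 0) (hK : z * ∏ x ∈ range m, K x = 0) :
    z * ∑ a : Bool × Fin m, ∑ b ∈ univ.erase a, ∏ i, (if i = b then LL dK dB m i else
      if i = a then LL dK dB m i else LL K B m i) =
    2 * (z * ((∑ x ∈ range m, dK x * ∏ y ∈ (range m).erase x, K y) *
      ∑ x ∈ range m, dB x * ∏ y ∈ (range m).erase x, B y)) := by
  have hB' : z * ∏ x : Fin m, B x = 0 := by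
    rw [Fin.prod_univ_eq_prod_range (fun x => B x) m]; exact hB
  have hK' : z * ∏ x : Fin m, K x = 0 := by
    rw [Fin.prod_univ_eq_prod_range (fun x => K x) m]; exact hK
  have key : ∀ x y : Fin m, ∏ i, (if i = (false, y) then LL dK dB m i else
      if i = (true, x) then LL dK dB m i else LL K B m i) =
      (dK x * ∏ y ∈ (range m).erase x, K y) * (dB y * ∏ y ∈ (range m).erase y, B y) := by
    intro x y
    rw [prod_iota, ← prod_one, ← prod_one]
    congr 1
    · refine Finset.prod_congr rfl fun y _ => ?_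
      rw [if_neg (by simp), LL_true, LL_true]
      simp only [Prod.mk.injEq, true_and]
    · refine Finset.prod_congr rfl fun y _ => ?_
      rw [LL_false, LL_false]
      simp
  have key' : ∀ x y : Fin m, ∏ i, (if i = (true, y) then LL dK dB m i else
      if i = (false, x) then LL dK dB m i else LL K B m i) =
      (dK y * ∏ y ∈ (range m).erase y, K y) * (dB x * ∏ y ∈ (range m).erase x, B y) := by
    intro x y
    rw [prod_iota, ← prod_one, ← prod_one]
    congr 1
    · refine Finset.prod_congr rfl fun y _ => ?_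
      rw [LL_true, LL_true]
      simp
    · refine Finset.prod_congr rfl fun y _ => ?_
      rw [if_neg (by simp), LL_false, LL_false]
      simp only [Prod.mk.injEq, true_and]
  have kt : ∀ x y : Fin m, z * ∏ i, (if i = (true, y) then LL dK dB m i else
      if i = (true, x) then LL dK dB m i else LL K B m i) = 0 := by
    intro x y
    rw [prod_iota, mul_left_comm]
    have : ∏ w : Fin m, (if ((false, w) : Bool × Fin m) = (true, y) then LL dK dB m (false, w) else
      if ((false, w) : Bool × Fin m) = (true, x) then LL dK dB m (false, w) else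
        LL K B m (false, w)) = ∏ w : Fin m, B w := by
      refine Finset.prod_congr rfl fun w _ => ?_
      rw [if_neg (by simp), if_neg (by simp), LL_false]
    rw [this, hB', mul_zero]
  have kf : ∀ x y : Fin m, z * ∏ i, (if i = (false, y) then LL dK dB m i else
      if i = (false, x) then LL dK dB m i else LL K B m i) = 0 := by
    intro x y
    rw [prod_iota, ← mul_assoc]
    have : ∏ w : Fin m, (if ((true, w) : Bool × Fin m) = (false, y) then LL dK dB m (true, w) else
      if ((true, w) : Bool × Fin m) = (false, x) then LL dK dB m (true, w) else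
        LL K B m (true, w)) = ∏ w : Fin m, K w := by
      refine Finset.prod_congr rfl fun w _ => ?_
      rw [if_neg (by simp), if_neg (by simp), LL_true]
    rw [this, hK', zero_mul]
  have e1 : ∀ x : Fin m, z * ∑ b ∈ univ.erase ((true, x) : Bool × Fin m), ∏ i,
      (if i = b then LL dK dB m i else if i = (true, x) then LL dK dB m i else LL K B m i) =
      ∑ y : Fin m, z * ((dK x * ∏ y ∈ (range m).erase x, K y) *
        (dB y * ∏ y ∈ (range m).erase y, B y)) := by
    intro x
    rw [sum_erase_eq, Finset.mul_sum, sum_iota, Finset.sum_eq_zero (fun y _ => by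
      split_ifs
      · rw [mul_zero]
      · exact kt x y), zero_add]
    refine Finset.sum_congr rfl fun y _ => ?_
    rw [if_neg (by simp), key]
  have e2 : ∀ x : Fin m, z * ∑ b ∈ univ.erase ((false, x) : Bool × Fin m), ∏ i,
      (if i = b then LL dK dB m i else if i = (false, x) then LL dK dB m i else LL K B m i) =
      ∑ y : Fin m, z * ((dK y * ∏ y ∈ (range m).erase y, K y) *
        (dB x * ∏ y ∈ (range m).erase x, B y)) := by
    intro x
    rw [sum_erase_eq, Finset.mul_sum, sum_iota, add_comm, Finset.sum_eq_zero (fun y _ => by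
      split_ifs
      · rw [mul_zero]
      · exact kf x y), zero_add]
    refine Finset.sum_congr rfl fun y _ => ?_
    rw [if_neg (by simp), key']
  have e3 : z * ((∑ x ∈ range m, dK x * ∏ y ∈ (range m).erase x, K y) *
      ∑ x ∈ range m, dB x * ∏ y ∈ (range m).erase x, B y) =
      ∑ x : Fin m, ∑ y : Fin m, z * ((dK x * ∏ y ∈ (range m).erase x, K y) *
        (dB y * ∏ y ∈ (range m).erase y, B y)) := by
    rw [Finset.sum_range, Finset.sum_range, Finset.sum_mul_sum, Finset.mul_sum]
    refine Finset.sum_congr rfl fun x _ => ?_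
    rw [Finset.mul_sum]
  rw [sum_iota, mul_add, Finset.mul_sum, Finset.mul_sum, Finset.sum_congr rfl (fun x _ => e1 x),
    Finset.sum_congr rfl (fun x _ => e2 x), Finset.sum_comm (f := fun x y : Fin m =>
      z * ((dK y * ∏ y ∈ (range m).erase y, K y) * (dB x * ∏ y ∈ (range m).erase x, B y))), e3]
  ring

end sums

section point

variable (k : Type*) [Field k] (p : ℕ)

/-- The point. -/
def pt (i : ℕ) : k :=
  (if i = 0 then 1 else 0) + (if i = 2 * p + 3 then 1 else 0) + (if i = 2 * p + 5 then 1 else 0) -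
    (if i = 4 * p + 9 then 1 else 0) - (if i = 4 * p + 11 then 1 else 0)

/-- The two classes of variables. -/
noncomputable def uu (l : ℕ) : SqAlg k (2 * p + 7) := YY k (2 * p + 7) (2 * l - 1)

noncomputable def vw (l : ℕ) : SqAlg k (2 * p + 7) := YY k (2 * p + 7) (2 * l)

variable {k p}

theorem uu_sq (l : ℕ) : uu k p l * uu k p l = 0 := YY_sq _

theorem vw_sq (l : ℕ) : vw k p l * vw k p l = 0 := YY_sq _

theorem YY_congr {n a b : ℕ} (h : a = b) : YY k n a = YY k n b := by rw [h]

theorem row_K {x : ℕ} (hx : x < p + 3) :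
    ∑ j : Fin (2 * p + 7), pt k p (2 * p + 4 - 2 * x + j) • sy k (2 * p + 7) j =
      KK (uu k p) (vw k p) p x := by
  have hexp : ∑ j : Fin (2 * p + 7), pt k p (2 * p + 4 - 2 * x + j) • sy k (2 * p + 7) j =
      (if x = p + 2 then YY k (2 * p + 7) 1 else 0) + YY k (2 * p + 7) (2 * x) +
      YY k (2 * p + 7) (2 * x + 2) - YY k (2 * p + 7) (2 * p + 6 + 2 * x) - 0 := by
    simp only [pt, add_smul, sub_smul, Finset.sum_add_distrib, Finset.sum_sub_distrib, sum_ind]
    congr 1
    · congr 1
      · congr 1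
        · congr 1
          · by_cases h : x = p + 2
            · rw [if_pos (by omega), if_pos h]
              congr 1
              omega
            · rw [if_neg (by omega), if_neg h]
          · by_cases h : x = 0
            · rw [if_neg (by omega), h, Nat.mul_zero, YY_zero]
            · rw [if_pos (by omega)]
              congr 1
              omega
        · rw [if_pos (by omega)]
          congr 1
          omega
      · rw [if_pos (by omega)]
        congr 1
        omega
    · rw [if_pos (by omega), YY_big (by omega)]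
  rw [hexp, KK, kk, uu, vw, vw, vw, vw]
  by_cases h : x = 0
  · subst h
    rw [if_pos rfl, if_neg (by omega), YY_congr (k := k) (n := 2 * p + 7)
      (show 2 * 0 = 0 by omega), YY_zero, YY_congr (k := k) (n := 2 * p + 7)
      (show 2 * p + 6 + 0 = 2 * (p + 3) by omega), YY_congr (k := k) (n := 2 * p + 7)
      (show 0 + 2 = 2 * 1 by omega)]
    ring
  · rw [if_neg h, YY_big (j := 2 * p + 6 + 2 * x) (by omega), YY_congr (k := k) (n := 2 * p + 7)
      (show 2 * x + 2 = 2 * (x + 1) by omega), YY_congr (k := k) (n := 2 * p + 7)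
      (show 2 * 1 - 1 = 1 by omega)]
    ring

theorem row_B {x : ℕ} (hx : x < p + 3) :
    ∑ j : Fin (2 * p + 7), pt k p (2 * p + 5 - 2 * x + j) • sy k (2 * p + 7) j =
      BB (uu k p) p x := by
  have hexp : ∑ j : Fin (2 * p + 7), pt k p (2 * p + 5 - 2 * x + j) • sy k (2 * p + 7) j =
      0 + YY k (2 * p + 7) (2 * x - 1) +
      YY k (2 * p + 7) (2 * x + 1) - YY k (2 * p + 7) (2 * p + 5 + 2 * x) -
      YY k (2 * p + 7) (2 * p + 7 + 2 * x) := by
    simp only [pt, add_smul, sub_smul, Finset.sum_add_distrib, Finset.sum_sub_distrib, sum_ind]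
    congr 1
    · congr 1
      · congr 1
        · congr 1
          · rw [if_neg (by omega)]
          · by_cases h : x = 0
            · rw [if_neg (by omega), h, YY_zero]
            · rw [if_pos (by omega)]
              congr 1
              omega
        · rw [if_pos (by omega)]
          congr 1
          omega
      · rw [if_pos (by omega)]
        congr 1
        omega
    · rw [if_pos (by omega)]
      congr 1
      omega
  rw [hexp, BB, bb]
  simp only [uu]
  by_cases h : x = 0
  · subst h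
    rw [if_pos rfl, if_pos (by omega), YY_congr (k := k) (n := 2 * p + 7)
      (show 2 * 0 - 1 = 0 by omega), YY_zero, YY_congr (k := k) (n := 2 * p + 7)
      (show 2 * 0 + 1 = 2 * 1 - 1 by omega), YY_congr (k := k) (n := 2 * p + 7)
      (show 2 * p + 5 + 2 * 0 = 2 * (p + 3) - 1 by omega), YY_congr (k := k) (n := 2 * p + 7)
      (show 2 * p + 7 + 2 * 0 = 2 * (p + 4) - 1 by omega)]
    ring
  · by_cases h1 : x = 1
    · subst h1
      rw [if_neg (by omega), if_pos rfl, if_pos le_rfl, YY_congr (k := k) (n := 2 * p + 7)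
        (show 2 * 1 + 1 = 2 * 2 - 1 by omega), YY_congr (k := k) (n := 2 * p + 7)
        (show 2 * p + 5 + 2 * 1 = 2 * (p + 4) - 1 by omega),
        YY_big (n := 2 * p + 7) (j := 2 * p + 7 + 2 * 1) (by omega)]
      ring
    · rw [if_neg h, if_neg h1, if_neg (by omega), YY_congr (k := k) (n := 2 * p + 7)
        (show 2 * x + 1 = 2 * (x + 1) - 1 by omega),
        YY_big (j := 2 * p + 5 + 2 * x) (by omega), YY_big (j := 2 * p + 7 + 2 * x) (by omega)]
      ring

theorem sum_even_odd {M : Type*} [AddCommMonoid M] (f : ℕ → M) (m : ℕ) :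
    ∑ j ∈ range (2 * m + 1), f j = ∑ l ∈ range m, f (2 * l + 1) + ∑ l ∈ range (m + 1), f (2 * l) := by
  induction m with
  | zero => simp
  | succ m ih =>
    rw [show 2 * (m + 1) + 1 = 2 * m + 1 + 1 + 1 by ring, sum_range_succ, sum_range_succ, ih,
      sum_range_succ (fun l => f (2 * l + 1)) m, sum_range_succ (fun l => f (2 * l)) (m + 1),
      show 2 * (m + 1) = 2 * m + 1 + 1 by ring]
    abel

theorem sum_split (g : ℕ → k) : ∑ j : Fin (2 * p + 7), g j • sy k (2 * p + 7) j =
    LV (vw k p) p (fun l => g (2 * l + 1)) + LU (uu k p) p (fun l => g (2 * l)) := by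
  have h1 : ∑ j : Fin (2 * p + 7), g j • sy k (2 * p + 7) j =
      ∑ j ∈ range (2 * (p + 3) + 1), g j • YY k (2 * p + 7) (j + 1) := by
    rw [show 2 * (p + 3) + 1 = 2 * p + 7 by ring,
      ← Fin.sum_univ_eq_sum_range (fun j => g j • YY k (2 * p + 7) (j + 1))]
    refine Finset.sum_congr rfl fun j _ => ?_
    rw [YY_succ]
  rw [h1, sum_even_odd, LV, LU]
  congr 1

theorem row_dK (δ : ℕ → k) {x : ℕ} (hx : x < p + 3) :
    ∑ j : Fin (2 * p + 7), δ (2 * p + 4 - 2 * x + j) • sy k (2 * p + 7) j =
      DK (uu k p) (vw k p) p (fun s => δ (2 * s + 1)) (fun s => δ (2 * s)) x := by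
  rw [sum_split (fun j => δ (2 * p + 4 - 2 * x + j)), DK]
  congr 1
  · congr 1
    funext l
    congr 1
    omega
  · congr 1
    funext l
    congr 1
    omega

theorem row_dB (δ : ℕ → k) {x : ℕ} (hx : x < p + 3) :
    ∑ j : Fin (2 * p + 7), δ (2 * p + 5 - 2 * x + j) • sy k (2 * p + 7) j =
      DB (uu k p) (vw k p) p (fun s => δ (2 * s + 1)) (fun s => δ (2 * s)) x := by
  rw [sum_split (fun j => δ (2 * p + 5 - 2 * x + j)), DB]
  congr 1
  · congr 1
    funext l
    congr 1
    omega
  · congr 1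
    funext l
    congr 1
    omega

theorem nondeg (c : k) (h : c • (mon (uu k p) 1 (p + 4) * mon (vw k p) 1 (p + 3)) = 0) :
    c = 0 := by
  have h1 : mon (uu k p) 1 (p + 4) * mon (vw k p) 1 (p + 3) =
      ∏ j ∈ (range (p + 4)).image (fun x => 2 * x + 1) ∪ (range (p + 3)).image (fun x => 2 * x + 2),
        YY k (2 * p + 7) j := by
    rw [Finset.prod_union, Finset.prod_image (fun x _ y _ h => by omega),
      Finset.prod_image (fun x _ y _ h => by omega)]
    · rw [mon, mon]
      congr 1
      · refine Finset.prod_congr rfl fun x _ => ?_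
        rw [uu]
        congr 1
        omega
      · refine Finset.prod_congr rfl fun x _ => ?_
        rw [vw]
        congr 1
        omega
    · rw [Finset.disjoint_left]
      intro j hj hj'
      rw [Finset.mem_image] at hj hj'
      obtain ⟨a, _, rfl⟩ := hj
      obtain ⟨b, _, hb⟩ := hj'
      omega
  rw [h1] at h
  refine smul_prod_YY ?_ c h
  intro j hj
  rw [Finset.mem_union, Finset.mem_image, Finset.mem_image] at hj
  rcases hj with ⟨a, ha, rfl⟩ | ⟨a, ha, rfl⟩
  · rw [mem_range] at ha; omega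
  · rw [mem_range] at ha; omega

end point

section main

variable {k : Type*} [Field k]

/-- Rows of the matrix. -/
def rowI (p : ℕ) (i : Bool × Fin (p + 3)) : Fin (2 * p + 6) :=
  if i.1 = true then ⟨2 * p + 4 - 2 * i.2, by omega⟩ else ⟨2 * p + 5 - 2 * i.2, by omega⟩

/-- Columns of the matrix, but the first one. -/
def colI (p : ℕ) (i : Bool × Fin (p + 3)) : Fin (2 * p + 7) :=
  if i.1 = true then ⟨2 * i.2 + 1, by have := i.2.2; omega⟩ else
    ⟨2 * i.2 + 2, by have := i.2.2; omega⟩

theorem rowI_true (p : ℕ) (x : Fin (p + 3)) : (rowI p (true, x) : ℕ) = 2 * p + 4 - 2 * x := rfl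
theorem rowI_false (p : ℕ) (x : Fin (p + 3)) : (rowI p (false, x) : ℕ) = 2 * p + 5 - 2 * x := rfl
theorem colI_true (p : ℕ) (x : Fin (p + 3)) : (colI p (true, x) : ℕ) = 2 * x + 1 := rfl
theorem colI_false (p : ℕ) (x : Fin (p + 3)) : (colI p (false, x) : ℕ) = 2 * x + 2 := rfl

theorem rowI_inj (p : ℕ) : Function.Injective (rowI p) := by
  rintro ⟨a, x⟩ ⟨b, y⟩ h
  have h' := congrArg Fin.val h
  have hx := x.2
  have hy := y.2
  rcases a with _ | _ <;> rcases b with _ | _ <;>
    simp only [rowI_true, rowI_false] at h'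
  · have : x = y := Fin.ext (by omega)
    rw [this]
  · omega
  · omega
  · have : x = y := Fin.ext (by omega)
    rw [this]

theorem colI_inj (p : ℕ) : Function.Injective (colI p) := by
  rintro ⟨a, x⟩ ⟨b, y⟩ h
  have h' := congrArg Fin.val h
  rcases a with _ | _ <;> rcases b with _ | _ <;>
    simp only [colI_true, colI_false] at h'
  · have : x = y := Fin.ext (by omega)
    rw [this]
  · omega
  · omega
  · have : x = y := Fin.ext (by omega)
    rw [this]

theorem compl_col (p : ℕ) : (univ.image (colI p))ᶜ = {(0 : Fin (2 * p + 7))} := by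
  ext j
  simp only [Finset.mem_compl, Finset.mem_image, Finset.mem_univ, true_and, Finset.mem_singleton,
    not_exists]
  constructor
  · intro h
    by_contra hj
    have hj' : (j : ℕ) ≠ 0 := fun h' => hj (Fin.ext h')
    have hj2 := j.2
    rcases Nat.even_or_odd' (j : ℕ) with ⟨c, hc | hc⟩
    · refine h (false, ⟨c - 1, by omega⟩) (Fin.ext ?_)
      rw [colI_false]
      simp only
      omega
    · refine h (true, ⟨c, by omega⟩) (Fin.ext ?_)
      rw [colI_true]
      simp only
      omega
  · rintro rfl ⟨a, x⟩ h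
    have h' := congrArg Fin.val h
    rcases a with _ | _
    · rw [colI_false] at h'
      simp at h'
    · rw [colI_true] at h'
      simp at h'

theorem row_L (p : ℕ) (i : Bool × Fin (p + 3)) :
    ∑ j : Fin (2 * p + 7), pt k p ((rowI p i : ℕ) + j) • sy k (2 * p + 7) j =
      LL (KK (uu k p) (vw k p) p) (BB (uu k p) p) (p + 3) i := by
  obtain ⟨a, x⟩ := i
  rcases a with _ | _
  · rw [rowI_false, LL_false, row_B x.2]
  · rw [rowI_true, LL_true, row_K x.2]

theorem row_D (p : ℕ) (δ : ℕ → k) (i : Bool × Fin (p + 3)) :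
    ∑ j : Fin (2 * p + 7), δ ((rowI p i : ℕ) + j) • sy k (2 * p + 7) j =
      LL (DK (uu k p) (vw k p) p (fun s => δ (2 * s + 1)) (fun s => δ (2 * s)))
        (DB (uu k p) (vw k p) p (fun s => δ (2 * s + 1)) (fun s => δ (2 * s))) (p + 3) i := by
  obtain ⟨a, x⟩ := i
  rcases a with _ | _
  · rw [rowI_false, LL_false, row_dB δ x.2]
  · rw [rowI_true, LL_true, row_dK δ x.2]

theorem card_iota (p : ℕ) : Fintype.card (Bool × Fin (p + 3)) = 2 * p + 6 := by
  rw [Fintype.card_prod, Fintype.card_bool, Fintype.card_fin]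
  ring

theorem U_prod_KK (p : ℕ) : uu k p 1 * ∏ x ∈ range (p + 3), KK (uu k p) (vw k p) p x = 0 := by
  rw [prod_KK uu_sq vw_sq, ← mul_assoc, uu_sq, zero_mul]

theorem U_prod_BB (p : ℕ) : uu k p 1 * ∏ x ∈ range (p + 3), BB (uu k p) p x = 0 := by
  rw [prod_BB uu_sq, ← mul_assoc, uu_sq, zero_mul]

theorem point_mem (p : ℕ) (f : MvPolynomial (Fin (2 * p + 6 + (2 * p + 7) - 1)) k)
    (hf : f ∈ permIdeal (2 * p + 6) (hankelMatrix k (2 * p + 6) (2 * p + 7))) :
    aeval (fun i : Fin (2 * p + 6 + (2 * p + 7) - 1) => pt k p i) f = 0 := by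
  refine mem_variety (pt k p) (univ : Finset (Bool × Fin (p + 3))) (card_iota p)
    (fun i => (rowI p i : ℕ)) (fun i _ j _ h => rowI_inj p (Fin.ext h)) (fun i _ => (rowI p i).2)
    ?_ f hf
  rw [Finset.prod_congr rfl (fun i _ => row_L (k := k) p i), prod_iota]
  simp only [LL_true, LL_false]
  rw [← Finset.prod_range, ← Finset.prod_range, prod_KK uu_sq vw_sq, mul_right_comm, U_prod_BB,
    zero_mul]

/-- The tangent vectors. -/
theorem tangent_rel (p : ℕ) (δ : ℕ → k)
    (hδ : ∀ f ∈ permIdeal (2 * p + 6) (hankelMatrix k (2 * p + 6) (2 * p + 7)),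
      aeval (fun i : Fin (2 * p + 6 + (2 * p + 7) - 1) => pt k p i)
        (dd (fun i : Fin (2 * p + 6 + (2 * p + 7) - 1) => δ i) f) = 0) :
    (∑ x ∈ range (p + 3), DK (uu k p) (vw k p) p (fun s => δ (2 * s + 1)) (fun s => δ (2 * s)) x *
      GK (uu k p) (vw k p) p x) * ∏ x ∈ range (p + 3), BB (uu k p) p x +
      (∏ x ∈ range (p + 3), KK (uu k p) (vw k p) p x) *
      ∑ x ∈ range (p + 3), DB (uu k p) (vw k p) p (fun s => δ (2 * s + 1)) (fun s => δ (2 * s)) x *
        GB (uu k p) p x = 0 := by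
  have h1 := tangent_relation (pt k p) δ hδ (sy k (2 * p + 7)) sy_mul_self
    (univ : Finset (Bool × Fin (p + 3))) (card_iota p) (fun i => (rowI p i : ℕ))
    (fun i _ j _ h => rowI_inj p (Fin.ext h)) (fun i _ => (rowI p i).2)
  have h2 := first_sum (K := KK (uu k p) (vw k p) p) (B := BB (uu k p) p)
    (dK := DK (uu k p) (vw k p) p (fun s => δ (2 * s + 1)) (fun s => δ (2 * s)))
    (dB := DB (uu k p) (vw k p) p (fun s => δ (2 * s + 1)) (fun s => δ (2 * s))) (m := p + 3)
  refine h2.symm.trans (Eq.trans ?_ h1)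
  refine Finset.sum_congr rfl fun a _ => ?_
  rw [← Finset.mul_prod_erase univ _ (Finset.mem_univ a), if_pos rfl, row_D]
  congr 1
  refine Finset.prod_congr rfl fun i hi => ?_
  rw [if_neg (Finset.ne_of_mem_erase hi), row_L]

theorem Sol.zeroO {p : ℕ} {E O : ℕ → k} (S : Sol p E O) (h : E 0 = 0) {s : ℕ}
    (hs : s ≤ 2 * p + 5) : O s = 0 := by
  rw [S.O_eq hs, h, zero_mul]

theorem Sol.zeroE {p : ℕ} {E O : ℕ → k} (S : Sol p E O) (h : E 0 = 0) {s : ℕ}
    (hs : s ≤ 2 * p + 5) : E s = 0 := by
  rcases Nat.eq_zero_or_pos s with h1 | h1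
  · rw [h1, h]
  · rcases Nat.lt_or_ge (2 * p + 4) s with h3 | h3
    · rw [show s = 2 * p + 5 by omega, S.e5, h, mul_zero]
    · exact S.ez s h1 h3

/-- The polynomial with zero gradient. -/
noncomputable def hpol (k : Type*) [Field k] (p : ℕ) :
    MvPolynomial (Fin (2 * p + 6 + (2 * p + 7) - 1)) k :=
  ((hankelMatrix k (2 * p + 6) (2 * p + 7)).submatrix (rowI p) (colI p)).permanent

theorem hpol_mem (p : ℕ) :
    hpol k p ∈ permIdeal (2 * p + 6) (hankelMatrix k (2 * p + 6) (2 * p + 7)) :=
  permanent_mem_permIdeal' _ (card_iota p) _ (rowI_inj p) _ (colI_inj p)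

theorem sy_zero (p : ℕ) : sy k (2 * p + 7) 0 = uu k p 1 := by
  rw [uu, show 2 * 1 - 1 = ((0 : Fin (2 * p + 7)) : ℕ) + 1 by simp, YY_succ]

theorem hpol_grad (p : ℕ) (δ : ℕ → k) :
    aeval (fun i : Fin (2 * p + 6 + (2 * p + 7) - 1) => pt k p i)
      (dd (fun i : Fin (2 * p + 6 + (2 * p + 7) - 1) => δ i) (hpol k p)) = 0 := by
  have h1 := compl_mul_dd (sy k (2 * p + 7)) sy_mul_self (pt k p) δ (rowI p) (colI p) (colI_inj p)
  rw [compl_col, Finset.prod_singleton, sy_zero] at h1
  simp only [row_D p δ, row_L] at h1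
  rw [first_sum, mul_add, mul_left_comm, U_prod_BB, mul_zero, ← mul_assoc, U_prod_KK, zero_mul,
    add_zero] at h1
  exact smul_prod_sy_eq_zero univ _ h1.symm

theorem hpol_hess (p : ℕ) (δ : ℕ → k)
    (h : aeval (fun i : Fin (2 * p + 6 + (2 * p + 7) - 1) => pt k p i)
      (dd (fun i : Fin (2 * p + 6 + (2 * p + 7) - 1) => δ i)
      (dd (fun i : Fin (2 * p + 6 + (2 * p + 7) - 1) => δ i) (hpol k p))) = 0)
    (S : Sol p (fun s => δ (2 * s + 1)) (fun s => δ (2 * s))) : 32 * (δ 1) ^ 2 = 0 := by
  have h1 := compl_mul_dd_dd (sy k (2 * p + 7)) sy_mul_self (pt k p) δ δ (rowI p) (colI p)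
    (colI_inj p)
  rw [compl_col, Finset.prod_singleton, sy_zero] at h1
  simp only [row_D p δ, row_L] at h1
  rw [second_sum (U_prod_BB p) (U_prod_KK p)] at h1
  have h2 := second (U := uu k p) (V := vw k p) (p := p) (E := fun s => δ (2 * s + 1))
    (O := fun s => δ (2 * s)) uu_sq vw_sq
  rw [S.value] at h2
  apply nondeg (p := p)
  have h3 : (aeval (fun i : Fin (2 * p + 6 + (2 * p + 7) - 1) => pt k p i)
      (dd (fun i : Fin (2 * p + 6 + (2 * p + 7) - 1) => δ i)
      (dd (fun i : Fin (2 * p + 6 + (2 * p + 7) - 1) => δ i)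
      ((hankelMatrix k (2 * p + 6) (2 * p + 7)).submatrix (rowI p) (colI p)).permanent))) = 0 := h
  rw [h3, zero_smul] at h1
  have h4 : (32 * (δ 1) ^ 2) • (mon (uu k p) 1 (p + 4) * mon (vw k p) 1 (p + 3)) =
      2 * ((16 * (δ (2 * 0 + 1)) ^ 2) • (mon (uu k p) 1 (p + 4) * mon (vw k p) 1 (p + 3))) := by
    simp only [Algebra.smul_def, map_mul, map_pow, map_ofNat]
    ring
  rw [h4, ← h2]
  exact h1

theorem not_prime_aux (h2 : (2 : k) ≠ 0) (p : ℕ) :
    ¬ (permIdeal (2 * p + 6) (hankelMatrix k (2 * p + 6) (2 * p + 7))).IsPrime := by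
  intro hP
  have hbig := hankel_big (k := k) (m := 2 * p + 6) (n := 2 * p + 7) (T := 2 * p + 5) (by omega)
    le_rfl (by omega) hP
  have hN : 2 * p + 6 + (2 * p + 7) - 1 = 4 * p + 12 := by omega
  let F : Finset (Fin (2 * p + 6 + (2 * p + 7) - 1)) := univ.filter fun i =>
    (i : ℕ) ∈ insert 0 ((range (2 * p + 4)).image fun s => 2 * s + 3)
  have hF : F.card ≤ 2 * p + 5 := by
    have h1 : F.card ≤ (insert 0 ((range (2 * p + 4)).image fun s => 2 * s + 3)).card := by
      refine Finset.card_le_card_of_injOn (fun i => (i : ℕ)) (fun i hi => ?_)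
        (fun i _ j _ h => Fin.ext h)
      exact (Finset.mem_filter.mp hi).2
    have h3 := Finset.card_insert_le 0 ((range (2 * p + 4)).image fun s => 2 * s + 3)
    have h4 := Finset.card_image_le (s := range (2 * p + 4)) (f := fun s => 2 * s + 3)
    rw [Finset.card_range] at h4
    omega
  let ex : (Fin (2 * p + 6 + (2 * p + 7) - 1) → k) → ℕ → k := fun δ i =>
    if h : i < 2 * p + 6 + (2 * p + 7) - 1 then δ ⟨i, h⟩ else 0
  have hex : ∀ δ, (fun i : Fin (2 * p + 6 + (2 * p + 7) - 1) => ex δ i) = δ := by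
    intro δ
    funext i
    simp only [ex, dif_pos i.2]
  have hsol : ∀ δ, (∀ f ∈ permIdeal (2 * p + 6) (hankelMatrix k (2 * p + 6) (2 * p + 7)),
      aeval (fun i : Fin (2 * p + 6 + (2 * p + 7) - 1) => pt k p i) (dd δ f) = 0) →
      (∀ i ∈ F, δ i = 0) → Sol p (fun s => ex δ (2 * s + 1)) (fun s => ex δ (2 * s)) := by
    intro δ hδ hδF
    have hrel := tangent_rel p (ex δ) (by rw [hex]; exact hδ)
    have hz : ∀ i, i ∈ insert 0 ((range (2 * p + 4)).image fun s => 2 * s + 3) → ex δ i = 0 := by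
      intro i hi
      simp only [ex]
      split_ifs with h
      · exact hδF _ (Finset.mem_filter.mpr ⟨Finset.mem_univ _, hi⟩)
      · rfl
    refine solve h2 (hz _ (Finset.mem_insert_self _ _)) (fun s h1 h3 => hz _ ?_)
      (fun m h1 h3 => rel_V uu_sq vw_sq nondeg hrel h1 h3)
      (fun m h1 h3 => rel_U uu_sq vw_sq nondeg hrel h1 h3)
    refine Finset.mem_insert_of_mem (Finset.mem_image.mpr ⟨s - 1, mem_range.mpr (by omega), ?_⟩)
    omega
  have hzero : ∀ δ, (∀ f ∈ permIdeal (2 * p + 6) (hankelMatrix k (2 * p + 6) (2 * p + 7)),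
      aeval (fun i : Fin (2 * p + 6 + (2 * p + 7) - 1) => pt k p i) (dd δ f) = 0) →
      (∀ i ∈ F, δ i = 0) → ex δ 1 = 0 → δ = 0 := by
    intro δ hδ hδF h0
    have S := hsol δ hδ hδF
    funext i
    have hi := i.2
    rw [← hex δ]
    simp only [Pi.zero_apply]
    rcases Nat.even_or_odd' (i : ℕ) with ⟨c, hc | hc⟩
    · rw [hc]
      exact S.zeroO h0 (by omega)
    · rw [hc]
      exact S.zeroE h0 (by omega)
  obtain ⟨δ, hδ0, hδF, hδ⟩ := exists_tangent _ hbig _ (point_mem p) F hF
  have hne : ex δ 1 ≠ 0 := fun h => hδ0 (hzero δ hδ hδF h)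
  have hone : ∀ δ : Fin (2 * p + 6 + (2 * p + 7) - 1) → k, ex δ 1 = δ ⟨1, by omega⟩ := by
    intro δ
    simp only [ex]
    rw [dif_pos (by omega)]
  have hess := second_order_line _ hbig _ (point_mem p) (insert ⟨1, by omega⟩ F)
    ((Finset.card_insert_le _ _).trans (by omega)) (fun δ h1 h3 => hzero δ h3
      (fun i hi => h1 i (Finset.mem_insert_of_mem hi)) (by
        rw [hone]
        exact h1 _ (Finset.mem_insert_self _ _))) δ δ hδ hδ (hpol k p) (hpol_mem p) (fun δ => by
      have := hpol_grad p (ex δ)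
      rwa [hex] at this)
  have h1 := hpol_hess p (ex δ) (by rw [hex]; exact hess) (hsol δ hδ hδF)
  have h3 : (32 : k) = 2 ^ 5 := by norm_num
  rw [h3] at h1
  exact mul_ne_zero (pow_ne_zero _ h2) (pow_ne_zero _ hne) h1

end main

end Even

/-- `m = t`, `n = t + 1`, `t` even, `t ≥ 6`. -/
theorem not_prime_even {k : Type*} [Field k] (h2 : (2 : k) ≠ 0) {t : ℕ} (ht : Even t)
    (h6 : 6 ≤ t) : ¬ (permIdeal t (hankelMatrix k t (t + 1))).IsPrime := by
  obtain ⟨p, rfl⟩ : ∃ p, t = 2 * p + 6 := by
    obtain ⟨r, hr⟩ := ht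
    exact ⟨r - 3, by omega⟩
  exact Even.not_prime_aux h2 p

end Pool.Agent.HankelPerm
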