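import Pool.Agent.HankelPerm.FamAElim
import Pool.Agent.HankelPerm.LinkPoint

/-!
The first link family: `m = t`, `n = t + b - 1`, `t = (p + 1) b + τ`, `2 ≤ τ ≤ b`, `3 ≤ b`.
-/

namespace Pool.Agent.HankelPerm

open Matrix Finset Equiv MvPolynomial Pool.Agent.H32

namespace FamA

section

variable {k : Type*} [Field k] (b p τ : ℕ)

/-- The point. -/
def pt (k : Type*) [Field k] (b p τ : ℕ) (i : ℕ) : k :=
  (if i = (p + 1) * b + τ - 2 then 1 else 0) + (if i = (p + 1) * b + τ - 2 + b then 1 else 0) -
    (if i = τ - 2 then 1 else 0) - (if i = (p + 1) * b + τ - 2 + (p + 2) * b then 1 else 0) +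
    (if i = (p + 1) * b + τ - 1 + (p + 2) * b then 1 else 0)

theorem row_eq {t n : ℕ} (ht : t = (p + 1) * b + τ) (hn : n + 1 = (p + 2) * b + τ)
    (h2τ : 2 ≤ τ) (hτb : τ ≤ b) {i x : ℕ} (hi : i < b) (hx : x < rho p τ i) :
    ∑ j : Fin n, pt k b p τ (t - 1 - (i + x * b) + j) • sy k n j = row (YY k n) b p τ i x := by
  have hp2 : (p + 2) * b = (p + 1) * b + b := by ring
  have hb1 : b ≤ (p + 1) * b := Nat.le_mul_of_pos_left b (by omega)
  have hxb : x * b ≤ (p + 1) * b := by
    apply Nat.mul_le_mul_right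
    simp only [rho] at hx
    split_ifs at hx <;> omega
  have hut : i + x * b + 1 ≤ t := by
    rcases Nat.lt_or_ge x (p + 1) with h | h
    · have : (x + 1) * b ≤ (p + 1) * b := Nat.mul_le_mul_right _ h
      have h3 : (x + 1) * b = x * b + b := by ring
      omega
    · have hiτ : i < τ := by
        by_contra hno
        simp only [rho, if_neg hno] at hx
        omega
      omega
  have hexp : ∑ j : Fin n, pt k b p τ (t - 1 - (i + x * b) + j) • sy k n j =
      YY k n (i + x * b) + YY k n (i + x * b + b) -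
      (if (p + 1) * b + 1 ≤ i + x * b then YY k n (i + x * b - (p + 1) * b) else 0) -
      YY k n (i + x * b + (p + 2) * b) + YY k n (i + x * b + (p + 2) * b + 1) := by
    simp only [pt, add_smul, sub_smul, Finset.sum_add_distrib, Finset.sum_sub_distrib, sum_ind]
    congr 1
    · congr 1
      · congr 1
        · congr 1
          · by_cases h0 : 1 ≤ i + x * b
            · rw [if_pos (by omega)]
              congr 1
              omega
            · rw [if_neg (by omega), show i + x * b = 0 by omega, YY_zero]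
          · rw [if_pos (by omega)]
            congr 1
            omega
        · by_cases h0 : (p + 1) * b + 1 ≤ i + x * b
          · rw [if_pos (by omega), if_pos h0]
            congr 1
            omega
          · rw [if_neg (by omega), if_neg h0]
      · rw [if_pos (by omega)]
        congr 1
        omega
    · rw [if_pos (by omega)]
      congr 1
      omega
  rw [hexp, row]
  by_cases hiτ : i < τ
  · rw [if_pos hiτ]
    have hx' : x < p + 2 := by simpa only [rho, if_pos hiτ] using hx
    rcases Nat.eq_zero_or_pos x with h | h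
    · subst h
      rw [rwA_zero, if_pos rfl, if_neg (by omega)]
      simp only [vv, Nat.zero_mul, add_zero, one_mul, sub_zero]
      rw [show i + 1 + (p + 2) * b = i + (p + 2) * b + 1 by ring]
    · rw [if_neg (show ¬ x = 0 by omega), add_zero]
      have hxb1 : b ≤ x * b := Nat.le_mul_of_pos_left b h
      have e1 : YY k n (i + x * b + (p + 2) * b) = 0 := YY_big (by omega)
      have e2 : YY k n (i + x * b + (p + 2) * b + 1) = 0 := YY_big (by omega)
      rw [e1, e2, sub_zero, add_zero]
      have h3 : i + x * b + b = i + (x + 1) * b := by ring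
      rcases Nat.lt_or_ge x (p + 1) with h' | h'
      · have : (x + 1) * b ≤ (p + 1) * b := Nat.mul_le_mul_right _ h'
        have h4 : (x + 1) * b = x * b + b := by ring
        rw [rwA_mid h (by omega), if_neg (by omega), sub_zero, h3]
        rfl
      · have hxp : x = p + 1 := by omega
        subst hxp
        rw [rwA_last, h3]
        simp only [vv, Nat.zero_mul, add_zero]
        by_cases h0 : 1 ≤ i
        · rw [if_pos (by omega), Nat.add_sub_cancel]
        · rw [if_neg (by omega), show i = 0 by omega, YY_zero]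
  · rw [if_neg hiτ]
    have hx' : x < p + 1 := by simpa only [rho, if_neg hiτ] using hx
    have : (x + 1) * b ≤ (p + 1) * b := Nat.mul_le_mul_right _ hx'
    have h4 : (x + 1) * b = x * b + b := by ring
    have e1 : YY k n (i + x * b + (p + 2) * b) = 0 := YY_big (by omega)
    have e2 : YY k n (i + x * b + (p + 2) * b + 1) = 0 := YY_big (by omega)
    have h3 : i + x * b + b = i + (x + 1) * b := by ring
    rw [e1, e2, if_neg (by omega), sub_zero, sub_zero, add_zero, h3]
    rfl

/-- The number of rows. -/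
theorem card_rows (hτb : τ ≤ b) :
    ((range b).sigma fun i => range (rho p τ i)).card = (p + 1) * b + τ := by
  rw [Finset.card_sigma]
  simp only [Finset.card_range, rho]
  have h1 : ∀ i, (if i < τ then p + 2 else p + 1) = (p + 1) + if i < τ then 1 else 0 := by
    intro i; split_ifs <;> omega
  simp only [h1]
  rw [Finset.sum_add_distrib, Finset.sum_const, Finset.card_range, smul_eq_mul,
    ← Finset.card_filter]
  have : ((range b).filter fun i => i < τ) = range τ := by
    ext i; simp only [Finset.mem_filter, Finset.mem_range]; omega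
  rw [this, Finset.card_range]
  ring

theorem idx_inj {b : ℕ} {i x i' x' : ℕ} (hi : i < b) (hi' : i' < b) (h : i + x * b = i' + x' * b) :
    i = i' ∧ x = x' := by
  have hb : 0 < b := by omega
  have h1 : i = i' := by
    have := congrArg (· % b) h
    simp only [Nat.add_mul_mod_self_right, Nat.mod_eq_of_lt hi, Nat.mod_eq_of_lt hi'] at this
    exact this
  subst h1
  refine ⟨rfl, ?_⟩
  exact Nat.eq_of_mul_eq_mul_right hb (by omega)

/-- The set of rows of a class occurring in its top. -/
def cols (p τ i : ℕ) : Finset ℕ :=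
  if i = 0 then Finset.Ico 1 (p + 3) else if i < τ then range (p + 3) else range (p + 2)

theorem om_eq {A : Type*} [CommRing A] (Y : ℕ → A) (i : ℕ) :
    om Y b p τ i = ∏ s ∈ cols p τ i, vv Y b i s := by
  have hmon : mon (vv Y b i) 1 (p + 1) = ∏ s ∈ Finset.Ico 1 (p + 2), vv Y b i s := by
    rw [mon, Finset.prod_Ico_eq_prod_range]
    rfl
  simp only [om, cols]
  split_ifs with h1 h2
  · subst h1
    rw [show p + 3 = p + 2 + 1 by ring, Finset.prod_Ico_succ_top (by omega), hmon, mul_comm]
  · rw [hmon, show p + 3 = p + 2 + 1 by ring, prod_range_succ, range_eq_Ico,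
      Finset.prod_eq_prod_Ico_succ_bot (by omega : 0 < p + 2)]
    simp only [zero_add]
    ring
  · rw [mon]
    refine Finset.prod_congr rfl fun s _ => ?_
    rw [zero_add]

theorem nondeg {n : ℕ} (hn : n + 1 = (p + 2) * b + τ) (h2τ : 2 ≤ τ) (hτb : τ ≤ b) (c : k)
    (h : c • ∏ i ∈ range b, om (YY k n) b p τ i = 0) : c = 0 := by
  classical
  have hp2 : (p + 2) * b = (p + 1) * b + b := by ring
  have h1 : ∏ i ∈ range b, om (YY k n) b p τ i =
      ∏ j ∈ ((range b).sigma (cols p τ)).image (fun a => a.1 + a.2 * b), YY k n j := by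
    rw [Finset.prod_image, Finset.prod_sigma]
    · refine Finset.prod_congr rfl fun i _ => ?_
      rw [om_eq]
      rfl
    · rintro ⟨i, s⟩ ha ⟨i', s'⟩ ha' haa
      simp only [Finset.coe_sigma, Set.mem_sigma_iff, Finset.mem_coe, Finset.mem_range] at ha ha'
      obtain ⟨rfl, rfl⟩ := idx_inj ha.1 ha'.1 haa
      rfl
  rw [h1] at h
  refine smul_prod_YY ?_ c h
  intro j hj
  obtain ⟨⟨i, s⟩, ha, rfl⟩ := Finset.mem_image.mp hj
  rw [Finset.mem_sigma, Finset.mem_range] at ha
  obtain ⟨hi, hs⟩ := ha
  simp only at hi hs ⊢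
  simp only [cols] at hs
  split_ifs at hs with h3 h4
  · rw [Finset.mem_Ico] at hs
    have h5 : s * b ≤ (p + 2) * b := Nat.mul_le_mul_right _ (by omega)
    have h6 : 1 * b ≤ s * b := Nat.mul_le_mul_right _ hs.1
    omega
  · rw [Finset.mem_range] at hs
    have h5 : s * b ≤ (p + 2) * b := Nat.mul_le_mul_right _ (by omega)
    omega
  · rw [Finset.mem_range] at hs
    have h5 : s * b ≤ (p + 1) * b := Nat.mul_le_mul_right _ (by omega)
    omega

theorem row_lt (h2τ : 2 ≤ τ) {i x : ℕ} (hi : i < b) (hx : x < rho p τ i) :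
    i + x * b + 1 ≤ (p + 1) * b + τ := by
  rcases Nat.lt_or_ge x (p + 1) with h | h
  · have : (x + 1) * b ≤ (p + 1) * b := Nat.mul_le_mul_right _ h
    have h3 : (x + 1) * b = x * b + b := by ring
    omega
  · have hiτ : i < τ := by
      by_contra hno
      simp only [rho, if_neg hno] at hx
      omega
    have hx' : x < p + 2 := by simpa only [rho, if_pos hiτ] using hx
    have : x = p + 1 := by omega
    subst this
    omega

/-- The free coordinates. -/
noncomputable def G (b p τ : ℕ) : Finset ℤ :=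
  (Finset.Icc (-(p : ℤ)) (p + 1)).image (fun z => z * b) ∪
  ((Finset.Ico 1 τ).image (fun e : ℕ => (e : ℤ) + (p + 2) * b) ∪
  (((Finset.Ico τ b) ×ˢ (Finset.Icc (-(p + 1) : ℤ) (-1))).image
    (fun a : ℕ × ℤ => (a.1 : ℤ) + a.2 * b) ∪
  ((Finset.Ico (b + 2 - τ) b).image (fun e : ℕ => (e : ℤ) + -(p + 2) * b) ∪
  (if τ = b ∧ 1 ≤ p then {1 + -(p + 1) * (b : ℤ)} else ∅))))

theorem card_G (h3b : 3 ≤ b) (h2τ : 2 ≤ τ) (hτb : τ ≤ b) :
    (G b p τ).card + 1 ≤ (p + 1) * b + τ := by
  have h0 : ((Finset.Icc (-(p : ℤ)) (p + 1)).image (fun z => z * (b : ℤ))).card ≤ 2 * p + 2 := by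
    refine Finset.card_image_le.trans ?_
    rw [Int.card_Icc]
    omega
  have h1 : ((Finset.Ico 1 τ).image (fun e : ℕ => (e : ℤ) + (p + 2) * b)).card ≤ τ - 1 := by
    refine Finset.card_image_le.trans ?_
    rw [Nat.card_Ico]
  have h2 : (((Finset.Ico τ b) ×ˢ (Finset.Icc (-(p + 1) : ℤ) (-1))).image
      (fun a : ℕ × ℤ => (a.1 : ℤ) + a.2 * b)).card ≤ (b - τ) * (p + 1) := by
    refine Finset.card_image_le.trans ?_
    rw [Finset.card_product, Nat.card_Ico, Int.card_Icc]
    apply Nat.mul_le_mul_left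
    omega
  have h3 : ((Finset.Ico (b + 2 - τ) b).image
      (fun e : ℕ => (e : ℤ) + -(p + 2) * b)).card ≤ τ - 2 := by
    refine Finset.card_image_le.trans ?_
    rw [Nat.card_Ico]
    omega
  have h4 : (if τ = b ∧ 1 ≤ p then ({1 + -(p + 1) * (b : ℤ)} : Finset ℤ) else ∅).card ≤
      if τ = b ∧ 1 ≤ p then 1 else 0 := by
    split_ifs <;> simp
  have h5 : (G b p τ).card ≤ (2 * p + 2) + ((τ - 1) + ((b - τ) * (p + 1) + ((τ - 2) +
      if τ = b ∧ 1 ≤ p then 1 else 0))) := by
    refine (Finset.card_union_le _ _).trans (Nat.add_le_add h0 ?_)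
    refine (Finset.card_union_le _ _).trans (Nat.add_le_add h1 ?_)
    refine (Finset.card_union_le _ _).trans (Nat.add_le_add h2 ?_)
    exact (Finset.card_union_le _ _).trans (Nat.add_le_add h3 h4)
  refine (Nat.add_le_add_right h5 1).trans ?_
  obtain ⟨c, rfl⟩ : ∃ c, b = τ + c := ⟨b - τ, by omega⟩
  obtain ⟨e, rfl⟩ : ∃ e, τ = e + 2 := ⟨τ - 2, by omega⟩
  rw [show e + 2 + c - (e + 2) = c by omega, show e + 2 - 1 = e + 1 by omega,
    show e + 2 - 2 = e by omega]
  have h6 : (if e + 2 = e + 2 + c ∧ 1 ≤ p then 1 else 0) ≤ p * e := by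
    split_ifs with h
    · have : 1 ≤ e := by omega
      exact Nat.mul_pos h.2 this
    · exact Nat.zero_le _
  nlinarith

/-- The first link family. -/
theorem not_prime (h2 : (2 : k) ≠ 0) {t n : ℕ} (h3b : 3 ≤ b) (h2τ : 2 ≤ τ) (hτb : τ ≤ b)
    (ht : t = (p + 1) * b + τ) (hn : n + 1 = (p + 2) * b + τ) :
    ¬ (permIdeal t (hankelMatrix k t n)).IsPrime := by
  intro hP
  have hp2 : (p + 2) * b = (p + 1) * b + b := by ring
  obtain ⟨T, hT⟩ : ∃ T, t = T + 1 := ⟨t - 1, by omega⟩
  have hbig : Big (permIdeal t (hankelMatrix k t n)) T := by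
    subst hT
    exact hankel_big (by omega) le_rfl (by omega) hP
  set s := (range b).sigma fun i => range (rho p τ i) with hs
  have hcard : s.card = t := by rw [card_rows b p τ hτb, ht]
  let r : (_ : ℕ) × ℕ → ℕ := fun a => t - 1 - (a.1 + a.2 * b)
  have hmem : ∀ a ∈ s, a.1 < b ∧ a.2 < rho p τ a.1 := by
    intro a ha
    rw [hs, Finset.mem_sigma, Finset.mem_range, Finset.mem_range] at ha
    exact ha
  have hlt : ∀ a ∈ s, a.1 + a.2 * b + 1 ≤ t := by
    intro a ha
    rw [ht]
    exact row_lt b p τ h2τ (hmem a ha).1 (hmem a ha).2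
  have hrt : ∀ a ∈ s, r a < t := by
    intro a _
    simp only [r]
    omega
  have hr : Set.InjOn r s := by
    intro a ha a' ha' h
    have e1 := hlt a ha
    have e2 := hlt a' ha'
    simp only [r] at h
    obtain ⟨h1, h2⟩ := idx_inj (hmem a ha).1 (hmem a' ha').1 (show a.1 + a.2 * b =
      a'.1 + a'.2 * b by omega)
    exact Sigma.ext h1 (heq_of_eq h2)
  have hYn : ∀ j, (p + 2) * b + τ ≤ j → YY k n j = 0 := fun j hj => YY_big (by omega)
  let K := chain (YY k n) b p τ YY_sq YY_zero hYn h2τ hτb
  have hrow : ∀ a ∈ s, ∑ j : Fin n, pt k b p τ (r a + j) • sy k n j = K.R a.1 a.2 := by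
    intro a ha
    exact row_eq b p τ ht hn h2τ hτb (hmem a ha).1 (hmem a ha).2
  have hq : ∀ f ∈ permIdeal t (hankelMatrix k t n),
      aeval (fun i : Fin (t + n - 1) => pt k b p τ i) f = 0 := by
    refine mem_variety (pt k b p τ) s hcard r hr hrt ?_
    rw [Finset.prod_congr rfl hrow]
    exact prod_all K
  -- the tangent vector
  let F : Finset (Fin (t + n - 1)) := univ.filter fun i => ((i : ℕ) : ℤ) - (t - 2) ∈ G b p τ
  have hF : F.card ≤ T := by
    have h1 : F.card ≤ (G b p τ).card := by
      refine Finset.card_le_card_of_injOn (fun i : Fin (t + n - 1) => ((i : ℕ) : ℤ) - (t - 2))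
        (fun i hi => ?_) (fun i _ j _ h => ?_)
      · have := (Finset.mem_filter.mp hi).2
        exact this
      · apply Fin.ext
        simp only at h
        omega
    have h2 := card_G b p τ h3b h2τ hτb
    omega
  obtain ⟨δ, hδ0, hδF, hδ⟩ := exists_tangent _ hbig _ hq F hF
  let δ' : ℕ → k := fun i => if h : i < t + n - 1 then δ ⟨i, h⟩ else 0
  have hδ' : (fun i : Fin (t + n - 1) => δ' i) = δ := by
    funext i
    simp only [δ', dif_pos i.2]
  have hrel := tangent_relation (pt k b p τ) δ' (by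
    intro f hf
    rw [hδ']
    exact hδ f hf) (sy k n) sy_mul_self s hcard r hr hrt
  let d : ℤ → k := fun z => ext0 δ' (z + (t - 2))
  have hDD : ∀ a ∈ s, ∑ j : Fin n, δ' (r a + j) • sy k n j = DD (YY k n) b p d a.1 a.2 := by
    intro a ha
    have h1 := sum_delta (n := n) δ' t (a.1 + a.2 * b) (p + 3) b (hlt a ha) (by
      have : (p + 3) * b = (p + 2) * b + b := by ring
      omega)
    refine h1.trans ?_
    rw [DD]
    refine Finset.sum_congr rfl fun s _ => Finset.sum_congr rfl fun i _ => ?_
    simp only [d, vv]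
    congr 2
    push_cast
    ring
  have hTot : K.Tot (DD (YY k n) b p d) = 0 := by
    apply tot_of_relation
    rw [← hrel]
    refine Finset.sum_congr rfl fun a ha => ?_
    have ha' : a ∈ s := ha
    rw [← hDD a ha']
    congr 1
    refine Finset.prod_congr rfl fun i hi => ?_
    exact (hrow i (Finset.mem_of_mem_erase hi)).symm
  have hG : ∀ z ∈ G b p τ, d z = 0 := by
    intro z hz
    simp only [d, ext0]
    split_ifs with h1
    · simp only [δ']
      split_ifs with h3
      · apply hδF
        rw [Finset.mem_filter]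
        refine ⟨Finset.mem_univ _, ?_⟩
        simp only
        rw [Int.toNat_of_nonneg h1]
        convert hz using 1
        ring
      · rfl
    · rfl
  have hv := vanish (YY k n) b p τ d YY_sq YY_zero hYn h2τ hτb h2 hTot
    (nondeg b p τ hn h2τ hτb) h3b
    (fun z h1 h3 => hG _ (by
      simp only [G, Finset.mem_union]
      exact Or.inl (Finset.mem_image.mpr ⟨z, Finset.mem_Icc.mpr ⟨h1, h3⟩, rfl⟩)))
    (fun e h1 h3 => hG _ (by
      simp only [G, Finset.mem_union]
      exact Or.inr (Or.inl (Finset.mem_image.mpr ⟨e, Finset.mem_Ico.mpr ⟨h1, h3⟩, rfl⟩))))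
    (fun e h1 h3 z h4 h5 => hG _ (by
      simp only [G, Finset.mem_union]
      exact Or.inr (Or.inr (Or.inl (Finset.mem_image.mpr ⟨(e, z), Finset.mem_product.mpr
        ⟨Finset.mem_Ico.mpr ⟨h1, h3⟩, Finset.mem_Icc.mpr ⟨h4, h5⟩⟩, rfl⟩)))))
    (fun e h1 h3 => hG _ (by
      simp only [G, Finset.mem_union]
      exact Or.inr (Or.inr (Or.inr (Or.inl (Finset.mem_image.mpr ⟨e, Finset.mem_Ico.mpr
        ⟨by omega, h3⟩, rfl⟩))))))
    (fun h1 h3 => hG _ (by
      simp only [G, Finset.mem_union]
      refine Or.inr (Or.inr (Or.inr (Or.inr ?_)))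
      rw [if_pos ⟨h1, h3⟩]
      exact Finset.mem_singleton_self _))
  apply hδ0
  funext i
  have hi := i.2
  have h1 := hv (((i : ℕ) : ℤ) - (t - 2)) (by
      have : (t : ℤ) = (p + 1) * b + τ := by exact_mod_cast ht
      omega) (by
      have h3 : (t : ℤ) = (p + 1) * b + τ := by exact_mod_cast ht
      have h4 : (n : ℤ) + 1 = (p + 2) * b + τ := by exact_mod_cast hn
      omega)
  simp only [d, ext0] at h1
  rw [if_pos (by omega)] at h1
  simp only [δ'] at h1
  rw [dif_pos (by omega)] at h1
  rw [Pi.zero_apply, ← h1]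
  congr 1
  apply Fin.ext
  simp only
  omega

end

end FamA

end Pool.Agent.HankelPerm
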