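import Pool.Agent.HankelPerm.FamBRel
import Pool.Agent.HankelPerm.LinkA

/-!
The second link family: `m = t`, `n = t + b - 1`, `t = (p + 2) b + 1`, `3 ≤ b`.
-/

namespace Pool.Agent.HankelPerm

open Matrix Finset Equiv MvPolynomial Pool.Agent.H32

namespace FamB

open FamA (W1 W2 W2_succ W2_succ' idx_inj)

section elim

variable {k A : Type*} [Field k] [CommRing A] [Algebra k A] (Y : ℕ → A) (b p : ℕ) (d : ℤ → k)

variable (hY : ∀ j, Y j * Y j = 0) (hYn : ∀ j, (p + 3) * b + 1 ≤ j → Y j = 0) (h2b : 2 ≤ b)
  (h2 : (2 : k) ≠ 0)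

variable (hD : (chain Y b p hY hYn h2b).Tot (DD Y b p d) = 0)
  (hnd : ∀ c : k, c • ∏ i ∈ range b, om Y b p i = 0 → c = 0)

include h2 hD hnd

theorem core_ge (h3b : 3 ≤ b) (hF : ∀ z : ℤ, -(p + 2) ≤ z → z ≤ p → d (z * b) = 0)
    {e : ℕ} (h1 : 2 ≤ e) (he : e < b) :
    ∀ z : ℤ, -(p + 2) ≤ z → z ≤ 0 → d (e + z * b) = 0 := by
  have hneg : ∀ j : ℕ, 1 ≤ j → j ≤ p → d ((e : ℤ) + -(j : ℤ) * b) = 0 := by
    intro j h3 h4
    have h5 := relF Y b p d hY hYn h2b h2 hD hnd (e := e) h1 he h3 (by omega)
    rw [relD Y b p d hY hYn h2b h2 hD hnd (by omega) he h3 h4, sub_zero] at h5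
    exact (mul_eq_zero.mp h5).resolve_left h2
  have hW1 : W1 b p d e (-(p + 1)) = d (e + -(p + 1) * b) := by
    rw [W1, sum_range_succ', Finset.sum_eq_zero, zero_add]
    · congr 1
    · intro s hs
      rw [mem_range] at hs
      have := hneg (p - s) (by omega) (by omega)
      rw [← this]
      congr 1
      push_cast [Nat.cast_sub hs.le]
      ring
  have e1 := W2_succ b p d e (-(p + 1))
  have e2 := W2_succ' b p d e (-(p + 2))
  have e3 : W1 b p d e (-(p + 2) + 1) = W1 b p d e (-(p + 1)) := by
    rw [show -((p : ℤ) + 2) + 1 = -(p + 1) by ring]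
  have e4 : d ((e : ℤ) + (-(p + 1) + (p + 1)) * b) = d e := by
    rw [show (e : ℤ) + (-(p + 1) + (p + 1)) * b = e by ring]
  rw [hW1, e4] at e1
  rw [e3, hW1] at e2
  have hF1 := relF Y b p d hY hYn h2b h2 hD hnd (e := e) (j := p + 1) h1 he (by omega) le_rfl
  have e5 : -((p + 1 : ℕ) : ℤ) = -((p : ℤ) + 1) := by push_cast; ring
  rw [e5] at hF1
  have hG : 2 * d (e + -(p + 2) * b) - W2 b p d e (-(p + 2)) = 0 := by
    rcases Nat.lt_or_ge (e + 1) b with h | h
    · exact relG Y b p d hY hYn h2b h2 hD hnd h1 h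
    · have he' : (e : ℤ) = b - 1 := by omega
      have hH := relH Y b p d hY hYn h2b h2 hD hnd hF
      have hI := relI Y b p d hY hYn h2b h2 hD hnd h3b hF
      rw [he']
      linear_combination hI - hH
  have hsp := sp_rel Y b p d hY hYn h2b h2 hD hnd (e := e) (by omega) he
  have hP : d ((e : ℤ) + -(p + 1) * b) = 0 := by
    have h6 : (2 : k) * (2 * d ((e : ℤ) + -(p + 1) * b)) = 0 := by
      linear_combination hsp + hF1 - 2 * e2 - hG
    rcases mul_eq_zero.mp h6 with h | h
    · exact absurd h h2
    · exact (mul_eq_zero.mp h).resolve_left h2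
  have hQ : d ((e : ℤ) + -(p + 2) * b) = 0 := by
    linear_combination hG + e2 + hP
  have hZ : d (e : ℤ) = 0 := by
    linear_combination -hF1 - e1 + hP
  intro z hz1 hz2
  rcases lt_or_ge z (-(p + 1)) with h | h
  · have : z = -(p + 2) := by omega
    subst this
    exact hQ
  rcases lt_or_ge z (-p) with h' | h'
  · have : z = -(p + 1) := by omega
    subst this
    exact hP
  rcases lt_or_ge z 0 with h'' | h''
  · have := hneg (-z).toNat (by omega) (by omega)
    rw [Int.toNat_of_nonneg (by omega), neg_neg] at this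
    exact this
  · have : z = 0 := by omega
    subst this
    rw [zero_mul, add_zero]
    exact hZ

/-- The elimination. -/
theorem vanish (h3b : 3 ≤ b) (hF : ∀ z : ℤ, -(p + 2) ≤ z → z ≤ p → d (z * b) = 0)
    (hF1 : ∀ e : ℕ, 1 ≤ e → e < b → d (e + (p + 2) * b) = 0) (hF2 : d 1 = 0) (j : ℤ)
    (hj1 : -((p + 2) * b) ≤ j) (hj2 : j + 1 ≤ (p + 3) * b) : d j = 0 := by
  have hb0 : (0 : ℤ) < b := by omega
  have hcore := fun {e : ℕ} (h1 : 2 ≤ e) (he : e < b) =>
    core_ge Y b p d hY hYn h2b h2 hD hnd h3b hF h1 he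
  have hZ : ∀ e : ℕ, 1 ≤ e → e < b → d (e : ℤ) = 0 := by
    intro e h1 he
    rcases Nat.lt_or_ge 1 e with h | h
    · have := hcore h he 0 (by omega) le_rfl
      rwa [zero_mul, add_zero] at this
    · have : e = 1 := by omega
      subst this
      rw [Nat.cast_one]; exact hF2
  -- positive part
  have hpos : ∀ e : ℕ, 1 ≤ e → e < b → ∀ z : ℤ, 0 ≤ z → z ≤ p + 1 → d (e + z * b) = 0 := by
    intro e h1 he z hz1 hz2
    rcases lt_or_ge 0 z with h | h
    · rcases lt_or_ge (p : ℤ) z with h' | h'
      · have hz : z = p + 1 := by omega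
        subst hz
        rcases Nat.lt_or_ge 1 e with h4 | h4
        · have h5 := relBa Y b p d hY hYn h2b h2 hD hnd h4 he
          have h6 := hZ (e - 1) (by omega) (by omega)
          rw [show ((e - 1 : ℕ) : ℤ) = e - 1 by omega] at h6
          rw [h6, add_zero] at h5
          exact h5
        · have : e = 1 := by omega
          subst this
          rw [Nat.cast_one]
          exact relBb Y b p d hY hYn h2b h2 hD hnd
      · exact relA Y b p d hY hYn h2b h2 hD hnd h1 he h h'
    · have : z = 0 := by omega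
      subst this
      rw [zero_mul, add_zero]
      exact hZ e h1 he
  have hW0 : ∀ e : ℕ, 1 ≤ e → e < b → W2 b p d e 0 = 0 := by
    intro e h1 he
    rw [W2]
    refine Finset.sum_eq_zero fun s hs => ?_
    rw [mem_range] at hs
    exact hpos e h1 he _ (by omega) (by omega)
  have hW01 : W2 b p d 1 0 = 0 := by
    have := hW0 1 le_rfl (by omega)
    rwa [Nat.cast_one] at this
  -- the class `1`
  have hwin : ∀ j : ℕ, 1 ≤ j → j ≤ p + 2 → W2 b p d 1 (-(j : ℤ)) = 0 := by
    intro j h1 h3
    have hC := relC Y b p d hY hYn h2b h2 hD hnd (e := 2) le_rfl (by omega)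
    rw [hW0 2 (by omega) (by omega), zero_add, Nat.cast_ofNat,
      show ((2 : ℤ) - 1) = 1 by norm_num] at hC
    rcases Nat.lt_or_ge p j with h | h
    · rcases Nat.lt_or_ge (p + 1) j with h' | h'
      · have : j = p + 2 := by omega
        subst this
        have hsp := sp_rel Y b p d hY hYn h2b h2 hD hnd (e := 1) le_rfl (by omega)
        rw [Nat.cast_one, hC, zero_add] at hsp
        rw [← hsp]
        congr 1
      · have : j = p + 1 := by omega
        subst this
        rw [← hC]
        congr 1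
    · have := relD Y b p d hY hYn h2b h2 hD hnd (e := 1) (x := j) le_rfl (by omega) h1 h
      rwa [Nat.cast_one] at this
  have hone : ∀ j : ℕ, 1 ≤ j → j ≤ p + 2 → d (1 + -(j : ℤ) * b) = 0 := by
    intro j
    induction j using Nat.strong_induction_on with
    | _ j ih =>
      intro h1 h3
      have h4 := hwin j h1 h3
      rw [W2_succ', W1, Finset.sum_eq_zero, add_zero] at h4
      · exact h4
      · intro s hs
        rw [mem_range] at hs
        rcases lt_or_ge (-(j : ℤ) + 1 + s) 0 with h | h
        · have := ih (j - 1 - s) (by omega) (by omega) (by omega)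
          rw [← this]
          congr 1
          rw [show ((j - 1 - s : ℕ) : ℤ) = j - 1 - s by omega]
          ring
        · have := hpos 1 le_rfl (by omega) _ h (by omega)
          rwa [Nat.cast_one] at this
  have hall : ∀ e : ℕ, 1 ≤ e → e < b → ∀ z : ℤ, -(p + 2) ≤ z → z ≤ p + 2 →
      d (e + z * b) = 0 := by
    intro e h1 he z hz1 hz2
    rcases lt_or_ge ((p : ℤ) + 1) z with h | h
    · have hz : z = p + 2 := by omega
      subst hz
      exact hF1 e h1 he
    rcases lt_or_ge z 0 with h' | h'
    · rcases Nat.lt_or_ge 1 e with h4 | h4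
      · exact hcore h4 he z hz1 h'.le
      · have : e = 1 := by omega
        subst this
        rw [Nat.cast_one]
        have := hone (-z).toNat (by omega) (by omega)
        rw [Int.toNat_of_nonneg (by omega), neg_neg] at this
        exact this
    · exact hpos e h1 he z h' h
  -- the class `0`
  have h01 : d ((p + 1) * b) = 0 := by
    have hH := relH Y b p d hY hYn h2b h2 hD hnd hF
    linear_combination hW01 - hH
  have h02 : d ((p + 2) * b) = 0 := by
    have hJ := relJ Y b p d hY hYn h2b h2 hD hnd (fun z hz1 hz2 => by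
      rcases lt_or_ge (p : ℤ) z with h | h
      · have : z = p + 1 := by omega
        subst this
        exact h01
      · exact hF z hz1 h)
    have h6 := hZ (b - 1) (by omega) (by omega)
    rw [show ((b - 1 : ℕ) : ℤ) = b - 1 by omega] at h6
    linear_combination hJ - h6
  obtain ⟨e, z, hez, heb⟩ : ∃ e : ℕ, ∃ z : ℤ, j = e + z * b ∧ e < b := by
    refine ⟨(j % b).toNat, j / b, ?_, ?_⟩
    · rw [Int.toNat_of_nonneg (Int.emod_nonneg _ hb0.ne')]
      have := Int.emod_add_mul_ediv j b
      linarith [mul_comm (b : ℤ) (j / b)]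
    · have := Int.emod_lt_of_pos j hb0
      have := Int.emod_nonneg j hb0.ne'
      omega
  subst hez
  have hz1 : -((p : ℤ) + 2) ≤ z := by
    by_contra hlt'
    push Not at hlt'
    have : z + (p + 3) ≤ 0 := by omega
    have h5 : (z + (p + 3)) * b ≤ 0 := mul_nonpos_of_nonpos_of_nonneg this hb0.le
    nlinarith
  have hz2 : z ≤ (p : ℤ) + 2 := by
    by_contra hlt'
    push Not at hlt'
    have : 0 ≤ z - (p + 3) := by omega
    have h5 : 0 ≤ (z - (p + 3)) * b := mul_nonneg this hb0.le
    nlinarith
  rcases Nat.eq_zero_or_pos e with h7 | h7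
  · subst h7
    rw [Nat.cast_zero, zero_add]
    rcases lt_or_ge (p : ℤ) z with h | h
    · rcases lt_or_ge ((p : ℤ) + 1) z with h' | h'
      · have : z = p + 2 := by omega
        subst this
        exact h02
      · have : z = p + 1 := by omega
        subst this
        exact h01
    · exact hF z hz1 h
  · exact hall e h7 heb z hz1 hz2

end elim

/-- The row of the tangent vector, classes of columns starting at `1`. -/
theorem sum_delta' {k : Type*} [Field k] {n : ℕ} (δ : ℕ → k) (t u S b : ℕ) (ht : u + 1 ≤ t)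
    (hS : n ≤ S * b) :
    ∑ j : Fin n, δ (t - 1 - u + j) • sy k n j =
      ∑ s ∈ range S, ∑ i ∈ range b,
        ext0 δ (((i + 1 + s * b : ℕ) : ℤ) - u + (t - 2)) • YY k n (i + 1 + s * b) := by
  have h1 : ∑ s ∈ range S, ∑ i ∈ range b,
        ext0 δ (((i + 1 + s * b : ℕ) : ℤ) - u + (t - 2)) • YY k n (i + 1 + s * b) =
      ∑ s ∈ range S, ∑ i ∈ range b,
        ext0 δ (((i + s * b + 1 : ℕ) : ℤ) - u + (t - 2)) • YY k n (i + s * b + 1) := by
    refine Finset.sum_congr rfl fun s _ => Finset.sum_congr rfl fun i _ => ?_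
    rw [show i + 1 + s * b = i + s * b + 1 by ring]
  rw [h1, ← sum_range_mul' (fun j => ext0 δ (((j + 1 : ℕ) : ℤ) - u + (t - 2)) •
      YY k n (j + 1)),
    ← Finset.sum_subset (s₁ := range n) (fun i hi => by
      rw [Finset.mem_range] at hi ⊢; omega),
    Fin.sum_univ_eq_sum_range (fun j => ext0 δ (((j + 1 : ℕ) : ℤ) - u + (t - 2)) •
      YY k n (j + 1)) n |>.symm]
  · refine Finset.sum_congr rfl fun j _ => ?_
    rw [YY_succ, ext0, if_pos (by omega)]
    congr 2
    omega
  · intro j _ hj
    rw [Finset.mem_range] at hj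
    rw [YY_big (by omega), smul_zero]

section concrete

variable {k : Type*} [Field k] (b p : ℕ)

/-- The point. -/
def pt (k : Type*) [Field k] (b p : ℕ) (i : ℕ) : k :=
  (if i = (p + 2) * b then 1 else 0) + (if i = (p + 3) * b then 1 else 0) -
    (if i = b then 1 else 0) + (if i = 0 then 1 else 0) +
    (if i = (p + 2) * b + (p + 2) * b + 1 then 1 else 0)

theorem row_lt {i x : ℕ} (hi : i < b) (hx : x < rho p i) :
    i + x * b + 1 ≤ (p + 2) * b + 1 := by
  rcases Nat.lt_or_ge x (p + 2) with h | h
  · have : (x + 1) * b ≤ (p + 2) * b := Nat.mul_le_mul_right _ h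
    have h3 : (x + 1) * b = x * b + b := by ring
    omega
  · have hi0 : i = 0 := by
      by_contra hno
      simp only [rho, if_neg hno] at hx
      omega
    have hx' : x < p + 3 := by simpa only [rho, if_pos hi0] using hx
    have : x = p + 2 := by omega
    subst this
    omega

theorem row_eq {t n : ℕ} (ht : t = (p + 2) * b + 1) (hn : n = (p + 3) * b)
    (h2b : 2 ≤ b) {i x : ℕ} (hi : i < b) (hx : x < rho p i) :
    ∑ j : Fin n, pt k b p (t - 1 - (i + x * b) + j) • sy k n j = row (YY k n) b p i x := by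
  have hp3 : (p + 3) * b = (p + 2) * b + b := by ring
  have hp2 : (p + 2) * b = (p + 1) * b + b := by ring
  have hp1 : (p + 1) * b = p * b + b := by ring
  have hut := row_lt b p hi hx
  have hexp : ∑ j : Fin n, pt k b p (t - 1 - (i + x * b) + j) • sy k n j =
      YY k n (i + x * b + 1) + YY k n (i + x * b + 1 + b) -
      (if (p + 1) * b ≤ i + x * b then YY k n (i + x * b + 1 - (p + 1) * b) else 0) +
      (if (p + 2) * b ≤ i + x * b then YY k n 1 else 0) +
      YY k n (i + x * b + (p + 2) * b + 2) := by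
    simp only [pt, add_smul, sub_smul, Finset.sum_add_distrib, Finset.sum_sub_distrib, sum_ind]
    congr 1
    · congr 1
      · congr 1
        · congr 1
          · rw [if_pos (by omega)]
            congr 1
            omega
          · rw [if_pos (by omega)]
            congr 1
            omega
        · by_cases h0 : (p + 1) * b ≤ i + x * b
          · rw [if_pos (by omega), if_pos h0]
            congr 1
            omega
          · rw [if_neg (by omega), if_neg h0]
      · by_cases h0 : (p + 2) * b ≤ i + x * b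
        · rw [if_pos (by omega), if_pos h0]
          congr 1
          omega
        · rw [if_neg (by omega), if_neg h0]
    · rw [if_pos (by omega)]
      congr 1
      omega
  have hrow : ∀ i' : ℕ, ∀ s : ℕ, vv (YY k n) b i' s = YY k n (i' + 1 + s * b) := fun _ _ => rfl
  rw [hexp, row]
  have hx3 : x < p + 3 := by
    simp only [rho] at hx
    split_ifs at hx <;> omega
  rcases Nat.lt_or_ge x (p + 2) with hx2 | hx2
  · have e0 : (if i = 0 then rwC (vv (YY k n) b i) p x else rwB (vv (YY k n) b i) p x) =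
        rwB (vv (YY k n) b i) p x := by
      split_ifs
      · exact rwC_lt hx2
      · rfl
    rw [e0]
    rcases Nat.eq_zero_or_pos x with h | h
    · subst h
      rw [rwB, if_pos rfl, if_pos rfl, if_neg (by omega), if_neg (by omega)]
      simp only [hrow, Nat.zero_mul, add_zero, one_mul, sub_zero]
      rw [show i + 1 + 1 + (p + 2) * b = i + (p + 2) * b + 2 by ring]
    · rw [if_neg (show ¬ x = 0 by omega), add_zero]
      have hxb1 : b ≤ x * b := Nat.le_mul_of_pos_left b h
      have e2 : YY k n (i + x * b + (p + 2) * b + 2) = 0 := YY_big (by omega)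
      have e3 : ¬ (p + 2) * b ≤ i + x * b := by
        have : x * b ≤ (p + 1) * b := Nat.mul_le_mul_right _ (by omega)
        omega
      rw [e2, add_zero, if_neg e3, add_zero]
      have h3 : i + x * b + 1 + b = i + 1 + (x + 1) * b := by ring
      have h3' : i + x * b + 1 = i + 1 + x * b := by ring
      rcases Nat.lt_or_ge x (p + 1) with h' | h'
      · have : x * b ≤ p * b := Nat.mul_le_mul_right _ (by omega)
        rw [rwB, if_neg (by omega), if_neg (by omega), if_neg (by omega), sub_zero, h3, h3']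
        rfl
      · have hxp : x = p + 1 := by omega
        subst hxp
        rw [rwB, if_neg (show ¬ p + 1 = 0 by omega), if_pos (show p + 1 = p + 1 from rfl),
          if_pos (show (p + 1) * b ≤ i + (p + 1) * b by omega), h3, h3',
          show i + 1 + (p + 1) * b - (p + 1) * b = i + 1 by omega]
        simp only [hrow, Nat.zero_mul, add_zero]
  · have hxp : x = p + 2 := by omega
    subst hxp
    have hi0 : i = 0 := by omega
    subst hi0
    have e2 : YY k n (0 + (p + 2) * b + (p + 2) * b + 2) = 0 := YY_big (by omega)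
    have e3 : YY k n (0 + (p + 2) * b + 1 + b) = 0 := YY_big (by omega)
    rw [if_pos (show (0 : ℕ) = 0 from rfl), rwC, if_pos (show p + 2 = p + 2 from rfl),
      if_neg (show ¬ p + 2 = 0 by omega), e2, e3,
      if_pos (show (p + 1) * b ≤ 0 + (p + 2) * b by omega),
      if_pos (show (p + 2) * b ≤ 0 + (p + 2) * b by omega),
      show 0 + (p + 2) * b + 1 - (p + 1) * b = b + 1 by omega]
    simp only [hrow, Nat.zero_mul, one_mul, zero_add, add_zero]
    rw [add_comm ((p + 2) * b) 1, add_comm b 1]

/-- The number of rows. -/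
theorem card_rows (h2b : 2 ≤ b) :
    ((range b).sigma fun i => range (rho p i)).card = (p + 2) * b + 1 := by
  rw [Finset.card_sigma]
  simp only [Finset.card_range, rho]
  have h1 : ∀ i, (if i = 0 then p + 3 else p + 2) = (p + 2) + if i = 0 then 1 else 0 := by
    intro i; split_ifs <;> omega
  simp only [h1]
  rw [Finset.sum_add_distrib, Finset.sum_const, Finset.card_range, smul_eq_mul,
    Finset.sum_ite_eq' (range b) 0, if_pos (by rw [Finset.mem_range]; omega)]
  ring

theorem om_eq {A : Type*} [CommRing A] (Y : ℕ → A) (i : ℕ) :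
    om Y b p i = ∏ s ∈ range (p + 3), vv Y b i s := by
  have hmon : mon (vv Y b i) 1 (p + 1) = ∏ s ∈ Finset.Ico 1 (p + 2), vv Y b i s := by
    rw [mon, Finset.prod_Ico_eq_prod_range]
    rfl
  rw [om, hmon, show p + 3 = p + 2 + 1 by ring, prod_range_succ, range_eq_Ico,
      Finset.prod_eq_prod_Ico_succ_bot (by omega : 0 < p + 2)]
  simp only [zero_add]
  ring

theorem nondeg {n : ℕ} (hn : n = (p + 3) * b) (c : k)
    (h : c • ∏ i ∈ range b, om (YY k n) b p i = 0) : c = 0 := by
  classical
  have hp3 : (p + 3) * b = (p + 2) * b + b := by ring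
  have h1 : ∏ i ∈ range b, om (YY k n) b p i =
      ∏ j ∈ ((range b).sigma (fun _ => range (p + 3))).image (fun a => a.1 + 1 + a.2 * b),
        YY k n j := by
    rw [Finset.prod_image, Finset.prod_sigma]
    · refine Finset.prod_congr rfl fun i _ => ?_
      rw [om_eq]
      rfl
    · rintro ⟨i, s⟩ ha ⟨i', s'⟩ ha' haa
      simp only [Finset.coe_sigma, Set.mem_sigma_iff, Finset.mem_coe, Finset.mem_range] at ha ha'
      simp only at haa
      obtain ⟨rfl, rfl⟩ := idx_inj ha.1 ha'.1 (show i + s * b = i' + s' * b by omega)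
      rfl
  rw [h1] at h
  refine smul_prod_YY ?_ c h
  intro j hj
  obtain ⟨⟨i, s⟩, ha, rfl⟩ := Finset.mem_image.mp hj
  rw [Finset.mem_sigma, Finset.mem_range, Finset.mem_range] at ha
  obtain ⟨hi, hs⟩ := ha
  simp only at hi hs ⊢
  have h5 : s * b ≤ (p + 2) * b := Nat.mul_le_mul_right _ (by omega)
  omega

/-- The free coordinates. -/
noncomputable def G (b p : ℕ) : Finset ℤ :=
  (Finset.Icc (-(p + 2) : ℤ) p).image (fun z => z * b) ∪
  ((Finset.Ico 1 b).image (fun e : ℕ => (e : ℤ) + (p + 2) * b) ∪ {1})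

theorem card_G (h3b : 3 ≤ b) : (G b p).card ≤ (p + 2) * b := by
  have h0 : ((Finset.Icc (-(p + 2) : ℤ) p).image (fun z => z * (b : ℤ))).card ≤ 2 * p + 3 := by
    refine Finset.card_image_le.trans ?_
    rw [Int.card_Icc]
    omega
  have h1 : ((Finset.Ico 1 b).image (fun e : ℕ => (e : ℤ) + (p + 2) * b)).card ≤ b - 1 := by
    refine Finset.card_image_le.trans ?_
    rw [Nat.card_Ico]
  have h5 : (G b p).card ≤ (2 * p + 3) + ((b - 1) + 1) := by
    refine (Finset.card_union_le _ _).trans (Nat.add_le_add h0 ?_)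
    exact (Finset.card_union_le _ _).trans (Nat.add_le_add h1 (by simp))
  refine h5.trans ?_
  obtain ⟨c, rfl⟩ : ∃ c, b = c + 3 := ⟨b - 3, by omega⟩
  rw [show c + 3 - 1 = c + 2 by omega]
  nlinarith [Nat.zero_le (p * c)]

/-- The second link family. -/
theorem not_prime (h2 : (2 : k) ≠ 0) {t n : ℕ} (h3b : 3 ≤ b)
    (ht : t = (p + 2) * b + 1) (hn : n = (p + 3) * b) :
    ¬ (permIdeal t (hankelMatrix k t n)).IsPrime := by
  intro hP
  have hp3 : (p + 3) * b = (p + 2) * b + b := by ring
  have hb2 : b ≤ (p + 2) * b := Nat.le_mul_of_pos_left b (by omega)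
  have hbig : Big (permIdeal t (hankelMatrix k t n)) ((p + 2) * b) := by
    subst ht
    exact hankel_big (by omega) le_rfl (by omega) hP
  set s := (range b).sigma fun i => range (rho p i) with hs
  have hcard : s.card = t := by rw [card_rows b p (by omega), ht]
  let r : (_ : ℕ) × ℕ → ℕ := fun a => t - 1 - (a.1 + a.2 * b)
  have hmem : ∀ a ∈ s, a.1 < b ∧ a.2 < rho p a.1 := by
    intro a ha
    rw [hs, Finset.mem_sigma, Finset.mem_range, Finset.mem_range] at ha
    exact ha
  have hlt : ∀ a ∈ s, a.1 + a.2 * b + 1 ≤ t := by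
    intro a ha
    rw [ht]
    exact row_lt b p (hmem a ha).1 (hmem a ha).2
  have hrt : ∀ a ∈ s, r a < t := by
    intro a _
    simp only [r]
    omega
  have hr : Set.InjOn r s := by
    intro a ha a' ha' h
    have e1 := hlt a ha
    have e2 := hlt a' ha'
    simp only [r] at h
    obtain ⟨h1, h2⟩ := idx_inj (hmem a ha).1 (hmem a' ha').1 (show a.1 + a.2 * b =
      a'.1 + a'.2 * b by omega)
    exact Sigma.ext h1 (heq_of_eq h2)
  have hYn : ∀ j, (p + 3) * b + 1 ≤ j → YY k n j = 0 := fun j hj => YY_big (by omega)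
  have h2b : 2 ≤ b := by omega
  let K := chain (YY k n) b p YY_sq hYn h2b
  have hrow : ∀ a ∈ s, ∑ j : Fin n, pt k b p (r a + j) • sy k n j = K.R a.1 a.2 := by
    intro a ha
    exact row_eq b p ht hn h2b (hmem a ha).1 (hmem a ha).2
  have hq : ∀ f ∈ permIdeal t (hankelMatrix k t n),
      aeval (fun i : Fin (t + n - 1) => pt k b p i) f = 0 := by
    refine mem_variety (pt k b p) s hcard r hr hrt ?_
    rw [Finset.prod_congr rfl hrow]
    exact prod_all K
  -- the tangent vector
  let F : Finset (Fin (t + n - 1)) := univ.filter fun i => ((i : ℕ) : ℤ) - (t - 1) ∈ G b p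
  have hF : F.card ≤ (p + 2) * b := by
    have h1 : F.card ≤ (G b p).card := by
      refine Finset.card_le_card_of_injOn (fun i : Fin (t + n - 1) => ((i : ℕ) : ℤ) - (t - 1))
        (fun i hi => ?_) (fun i _ j _ h => ?_)
      · have := (Finset.mem_filter.mp hi).2
        exact this
      · apply Fin.ext
        simp only at h
        omega
    exact h1.trans (card_G b p h3b)
  obtain ⟨δ, hδ0, hδF, hδ⟩ := exists_tangent _ hbig _ hq F hF
  let δ' : ℕ → k := fun i => if h : i < t + n - 1 then δ ⟨i, h⟩ else 0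
  have hδ' : (fun i : Fin (t + n - 1) => δ' i) = δ := by
    funext i
    simp only [δ', dif_pos i.2]
  have hrel := tangent_relation (pt k b p) δ' (by
    intro f hf
    rw [hδ']
    exact hδ f hf) (sy k n) sy_mul_self s hcard r hr hrt
  let d : ℤ → k := fun z => ext0 δ' (z + 1 + (t - 2))
  have hDD : ∀ a ∈ s, ∑ j : Fin n, δ' (r a + j) • sy k n j = DD (YY k n) b p d a.1 a.2 := by
    intro a ha
    have h1 := sum_delta' (n := n) δ' t (a.1 + a.2 * b) (p + 3) b (hlt a ha) (by omega)
    refine h1.trans ?_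
    rw [DD]
    refine Finset.sum_congr rfl fun s _ => Finset.sum_congr rfl fun i _ => ?_
    simp only [d, vv]
    congr 2
    push_cast
    ring
  have hTot : K.Tot (DD (YY k n) b p d) = 0 := by
    apply tot_of_relation
    rw [← hrel]
    refine Finset.sum_congr rfl fun a ha => ?_
    have ha' : a ∈ s := ha
    rw [← hDD a ha']
    congr 1
    refine Finset.prod_congr rfl fun i hi => ?_
    exact (hrow i (Finset.mem_of_mem_erase hi)).symm
  have hG : ∀ z ∈ G b p, d z = 0 := by
    intro z hz
    simp only [d, ext0]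
    split_ifs with h1
    · simp only [δ']
      split_ifs with h3
      · apply hδF
        rw [Finset.mem_filter]
        refine ⟨Finset.mem_univ _, ?_⟩
        simp only
        rw [Int.toNat_of_nonneg h1]
        convert hz using 1
        ring
      · rfl
    · rfl
  have hv := vanish (YY k n) b p d YY_sq hYn h2b h2 hTot
    (nondeg b p hn) h3b
    (fun z h1 h3 => hG _ (by
      simp only [G, Finset.mem_union]
      exact Or.inl (Finset.mem_image.mpr ⟨z, Finset.mem_Icc.mpr ⟨h1, h3⟩, rfl⟩)))
    (fun e h1 h3 => hG _ (by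
      simp only [G, Finset.mem_union]
      exact Or.inr (Or.inl (Finset.mem_image.mpr ⟨e, Finset.mem_Ico.mpr ⟨h1, h3⟩, rfl⟩))))
    (hG _ (Finset.mem_union_right _ (Finset.mem_union_right _ (Finset.mem_singleton_self _))))
  apply hδ0
  funext i
  have hi := i.2
  have h3 : (t : ℤ) = (p + 2) * b + 1 := by exact_mod_cast ht
  have h4 : (n : ℤ) = (p + 3) * b := by exact_mod_cast hn
  have h1 := hv (((i : ℕ) : ℤ) - (t - 1)) (by omega) (by omega)
  simp only [d, ext0] at h1
  rw [if_pos (by omega)] at h1
  simp only [δ'] at h1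
  rw [dif_pos (by omega)] at h1
  rw [Pi.zero_apply, ← h1]
  congr 1
  apply Fin.ext
  simp only
  omega

end concrete

end FamB

/-- **Link families**: `m = t`, `n = t + b - 1` with `3 ≤ b ≤ t - 2`. -/
theorem not_prime_link {k : Type*} [Field k] (h2 : (2 : k) ≠ 0) {t n b : ℕ} (hn : n + 1 = t + b)
    (h3b : 3 ≤ b) (hbt : b + 2 ≤ t) : ¬ (permIdeal t (hankelMatrix k t n)).IsPrime := by
  have hdiv := Nat.div_add_mod' (t - 1) b
  have hmod := Nat.mod_lt (t - 1) (show b > 0 by omega)
  have hq1 : 1 ≤ (t - 1) / b := by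
    rw [Nat.one_le_div_iff (by omega)]
    omega
  obtain ⟨p, hp⟩ : ∃ p, (t - 1) / b = p + 1 := ⟨(t - 1) / b - 1, by omega⟩
  rw [hp] at hdiv
  have hp2 : (p + 2) * b = (p + 1) * b + b := by ring
  rcases Nat.eq_zero_or_pos ((t - 1) % b) with h | h
  · rw [h, add_zero] at hdiv
    obtain ⟨r, rfl⟩ : ∃ r, p = r + 1 := by
      rcases Nat.eq_zero_or_pos p with h0 | h0
      · subst h0
        rw [zero_add, one_mul] at hdiv
        omega
      · exact ⟨p - 1, by omega⟩
    refine FamB.not_prime b r h2 h3b ?_ ?_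
    · have : (r + 1 + 1) * b = (r + 2) * b := by ring
      omega
    · have : (r + 1 + 1) * b = (r + 2) * b := by ring
      have : (r + 3) * b = (r + 2) * b + b := by ring
      omega
  · exact FamA.not_prime b p ((t - 1) % b + 1) h2 h3b (by omega) (by omega) (by omega) (by omega)

end Pool.Agent.HankelPerm

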