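import Pool.Agent.H32.SquareIrr

/-!
Hankel permanental ideals `P_t` of `m × n` matrices with `n ≥ 2t - 1` are not prime.
-/

namespace Pool.Agent.HankelPerm

open Matrix Finset Equiv MvPolynomial Pool.Agent.H32

section laplace

variable {R : Type*} [CommRing R]

/-- If `t = T + 1` rows `r` are fixed, `c` gives `T + 1` columns and `d` gives `T` further columns,
then `det (r, c) * perm (r without r l, d)` is in the permanental ideal. -/
theorem det_mul_perm_mem {m n T : ℕ} (M : Matrix (Fin m) (Fin n) R)
    (r : Fin (T + 1) → Fin m) (hr : Function.Injective r) (c : Fin (T + 1) → Fin n)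
    (d : Fin T → Fin n) (hd : Function.Injective d) (hcd : ∀ i j, c i ≠ d j) (l : Fin (T + 1)) :
    (M.submatrix r c).det * (M.submatrix (r ∘ l.succAbove) d).permanent ∈ permIdeal (T + 1) M := by
  set B := M.submatrix r c with hB
  set v : Fin (T + 1) → R := fun i => (M.submatrix (r ∘ i.succAbove) d).permanent with hv
  have hmem : ∀ j, (v ᵥ* B) j ∈ permIdeal (T + 1) M := by
    intro j
    have h1 : (v ᵥ* B) j = (M.submatrix r (Fin.cons (c j) d : Fin (T + 1) → Fin n)).permanent := by
      rw [permanent_succ_column_zero]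
      simp only [Matrix.vecMul, dotProduct]
      refine Finset.sum_congr rfl fun i _ => ?_
      rw [mul_comm]
      congr 1
    rw [h1]
    refine permanent_mem_permIdeal M r hr _ ?_
    rw [Fin.cons_injective_iff]
    refine ⟨?_, hd⟩
    rintro ⟨i, hi⟩
    exact hcd j i hi.symm
  have key : B.det * v l = ((v ᵥ* B) ᵥ* B.adjugate) l := by
    rw [Matrix.vecMul_vecMul, Matrix.mul_adjugate]
    simp [Matrix.vecMul_smul, mul_comm]
  have key2 : B.det * v l = ∑ j, (v ᵥ* B) j * B.adjugate j l := by
    rw [key]; rfl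
  change B.det * v l ∈ _
  rw [key2]
  exact Ideal.sum_mem _ fun j _ => Ideal.mul_mem_right _ _ (hmem j)

theorem permanent_mul_row_col {n : Type*} [Fintype n] [DecidableEq n] (u v : n → R)
    (A : Matrix n n R) :
    (Matrix.of fun i j => u i * v j * A i j).permanent = (∏ i, u i) * (∏ j, v j) * A.permanent := by
  rw [Matrix.permanent, Matrix.permanent, Finset.mul_sum]
  refine Finset.sum_congr rfl fun σ _ => ?_
  simp only [Matrix.of_apply, Finset.prod_mul_distrib]
  rw [Equiv.prod_comp σ u]

theorem det_mul_row_col {n : Type*} [Fintype n] [DecidableEq n] (u v : n → R)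
    (A : Matrix n n R) :
    (Matrix.of fun i j => u i * v j * A i j).det = (∏ i, u i) * (∏ j, v j) * A.det := by
  rw [Matrix.det_apply', Matrix.det_apply', Finset.mul_sum]
  refine Finset.sum_congr rfl fun σ _ => ?_
  simp only [Matrix.of_apply, Finset.prod_mul_distrib]
  rw [Equiv.prod_comp σ u]
  ring

end laplace

variable {k : Type*} [Field k]

/-- The sequence `1` at `0`, `1` at `T`, `-1` at `2T`. -/
def seqA (k : Type*) [Field k] (T : ℕ) (s : ℕ) : k :=
  if s = 0 then 1 else if s = T then 1 else if s = 2 * T then -1 else 0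

theorem seqA_perm (h2 : (2 : k) ≠ 0) {T : ℕ} (hT : 1 ≤ T) :
    (Matrix.of fun i j : Fin (T + 1) => seqA k T (i + j)).permanent = 0 := by
  set A : Matrix (Fin (T + 1)) (Fin (T + 1)) k := Matrix.of fun i j => seqA k T (i + j) with hA
  have h0T : (0 : Fin (T + 1)) ≠ Fin.last T := by
    intro h
    have := congrArg Fin.val h
    simp at this
    omega
  have hsum : A.permanent = ∑ σ : Perm (Fin (T + 1)),
      ∏ i, A ((σ * Equiv.swap 0 (Fin.last T)) i) i := by
    rw [Matrix.permanent]
    exact (Equiv.sum_comp (Equiv.mulRight (Equiv.swap 0 (Fin.last T)))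
      (fun σ : Perm (Fin (T + 1)) => ∏ i, A (σ i) i)).symm
  have h : A.permanent + A.permanent = 0 := by
    nth_rewrite 2 [hsum]
    rw [Matrix.permanent, ← Finset.sum_add_distrib]
    refine Finset.sum_eq_zero fun σ _ => ?_
    have hsplit : ∀ f : Fin (T + 1) → k, ∏ i, f i =
        f 0 * (f (Fin.last T) * ∏ i ∈ (Finset.univ.erase 0).erase (Fin.last T), f i) := by
      intro f
      rw [← Finset.mul_prod_erase _ _ (Finset.mem_univ 0),
        ← Finset.mul_prod_erase (Finset.univ.erase 0) _ (a := Fin.last T)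
          (by simp [h0T.symm])]
    rw [hsplit, hsplit]
    have hrest : ∏ i ∈ (Finset.univ.erase (0 : Fin (T + 1))).erase (Fin.last T),
        A ((σ * Equiv.swap 0 (Fin.last T)) i) i =
        ∏ i ∈ (Finset.univ.erase (0 : Fin (T + 1))).erase (Fin.last T), A (σ i) i := by
      refine Finset.prod_congr rfl fun i hi => ?_
      simp only [Finset.mem_erase, Finset.mem_univ, and_true] at hi
      rw [Perm.mul_apply, Equiv.swap_apply_of_ne_of_ne hi.2 hi.1]
    rw [hrest, Perm.mul_apply, Perm.mul_apply, Equiv.swap_apply_left, Equiv.swap_apply_right]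
    set a := σ 0 with ha
    set b := σ (Fin.last T) with hb
    have hab : a ≠ b := fun h => h0T (σ.injective h)
    have hcol : A a 0 * A b (Fin.last T) + A b 0 * A a (Fin.last T) = 0 := by
      simp only [hA, Matrix.of_apply, seqA, Fin.val_zero, Fin.val_last]
      have ha2 := a.2
      have hb2 := b.2
      have hab' : (a : ℕ) ≠ b := fun h => hab (Fin.ext h)
      split_ifs <;> first | omega | norm_num
    linear_combination
      (∏ i ∈ (Finset.univ.erase (0 : Fin (T + 1))).erase (Fin.last T), A (σ i) i) * hcol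
  have h' : (2 : k) * A.permanent = 0 := by rw [two_mul]; exact h
  exact (mul_eq_zero.mp h').resolve_left h2

theorem seqA_det (h2 : (2 : k) ≠ 0) {T : ℕ} (hT : 1 ≤ T) :
    (Matrix.of fun i j : Fin (T + 1) => seqA k T (i + j)).det ≠ 0 := by
  set A : Matrix (Fin (T + 1)) (Fin (T + 1)) k := Matrix.of fun i j => seqA k T (i + j) with hA
  intro h
  obtain ⟨v, hv0, hv⟩ := (Matrix.exists_mulVec_eq_zero_iff).mpr h
  apply hv0
  have h0T : (0 : Fin (T + 1)) ≠ Fin.last T := by
    intro h
    have := congrArg Fin.val h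
    simp at this
    omega
  have hrow : ∀ i, ∑ j, A i j * v j = 0 := fun i => congrFun hv i
  have hmid : ∀ j : Fin (T + 1), j ≠ 0 → j ≠ Fin.last T → v j = 0 := by
    intro j hj0 hjT
    have h1 := hrow (Fin.rev j)
    rw [Finset.sum_eq_single j] at h1
    · have h3 : A (Fin.rev j) j = 1 := by
        simp only [hA, Matrix.of_apply, seqA, Fin.val_rev]
        have := j.2
        split_ifs <;> first | rfl | omega
      rw [h3, one_mul] at h1
      exact h1
    · intro l _ hl
      have h3 : A (Fin.rev j) l = 0 := by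
        simp only [hA, Matrix.of_apply, seqA, Fin.val_rev]
        have h4 := j.2
        have h5 := l.2
        have h6 : (l : ℕ) ≠ j := fun h => hl (Fin.ext h)
        have h7 : (j : ℕ) ≠ 0 := fun h => hj0 (Fin.ext h)
        have h8 : (j : ℕ) ≠ T := fun h => hjT (Fin.ext h)
        split_ifs <;> first | rfl | omega
      rw [h3, zero_mul]
    · intro h; exact absurd (Finset.mem_univ _) h
  have htwo : ∀ i, A i 0 * v 0 + A i (Fin.last T) * v (Fin.last T) = 0 := by
    intro i
    have h1 := hrow i
    rw [← Finset.add_sum_erase _ _ (Finset.mem_univ 0),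
      ← Finset.add_sum_erase (Finset.univ.erase 0) _ (a := Fin.last T) (by simp [h0T.symm]),
      Finset.sum_eq_zero, add_zero] at h1
    · exact h1
    · intro l hl
      simp only [Finset.mem_erase, Finset.mem_univ, and_true] at hl
      rw [hmid l hl.2 hl.1, mul_zero]
  have e1 := htwo 0
  have e2 := htwo (Fin.last T)
  have a00 : A 0 0 = 1 := by simp [hA, seqA]
  have a0T : A 0 (Fin.last T) = 1 := by simp [hA, seqA]
  have aT0 : A (Fin.last T) 0 = 1 := by simp [hA, seqA]
  have aTT : A (Fin.last T) (Fin.last T) = -1 := by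
    simp only [hA, Matrix.of_apply, seqA, Fin.val_last]
    split_ifs <;> first | rfl | omega
  rw [a00, a0T] at e1
  rw [aT0, aTT] at e2
  have e3 : (2 : k) * v 0 = 0 := by linear_combination e1 + e2
  have e4 : v 0 = 0 := (mul_eq_zero.mp e3).resolve_left h2
  have e5 : v (Fin.last T) = 0 := by rw [e4] at e1; linear_combination e1
  funext j
  by_cases hj0 : j = 0
  · rw [hj0, e4]; rfl
  by_cases hjT : j = Fin.last T
  · rw [hjT, e5]; rfl
  exact hmid j hj0 hjT

theorem sum_orderEmb_ge {T m : ℕ} (r : Fin (T + 1) ↪o Fin m) (i : Fin (T + 1)) :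
    (i : ℕ) ≤ r i := by
  obtain ⟨i, hi⟩ := i
  induction i with
  | zero => simp
  | succ i ih =>
    have h1 := ih (by omega)
    have h2 : r ⟨i, by omega⟩ < r ⟨i + 1, hi⟩ := r.strictMono (by simp)
    have h3 : ((r ⟨i, by omega⟩ : Fin m) : ℕ) < r ⟨i + 1, hi⟩ := h2
    simp only at h1 ⊢
    omega

/-- The weight substitution. -/
noncomputable def wsub (k : Type*) [Field k] (N : ℕ) (a : ℕ → k) (e : ℕ → ℕ) :
    MvPolynomial (Fin N) k →+* Polynomial k :=
  (aeval (fun s : Fin N => Polynomial.C (a s) * Polynomial.X ^ e s)).toRingHom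

theorem det_not_mem (h2 : (2 : k) ≠ 0) {m n T : ℕ} (hT : 1 ≤ T) (hm : T + 1 ≤ m)
    (hn : T + 1 ≤ n) :
    ((hankelMatrix k m n).submatrix (Fin.castLE hm) (Fin.castLE hn)).det ∉
      permIdeal (T + 1) (hankelMatrix k m n) := by
  set W := (∑ i : Fin (T + 1), (i : ℕ)) + ∑ i : Fin (T + 1), (i : ℕ) with hW
  set φ := wsub k (m + n - 1) (seqA k T) id with hφ
  have hent : ∀ i j, φ (hankelMatrix k m n i j) =
      Polynomial.X ^ (i : ℕ) * Polynomial.X ^ (j : ℕ) * Polynomial.C (seqA k T (i + j)) := by
    intro i j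
    simp only [hφ, wsub, hankelMatrix, Matrix.of_apply, AlgHom.toRingHom_eq_coe, RingHom.coe_coe,
      aeval_X, id]
    ring
  have hle : permIdeal (T + 1) (hankelMatrix k m n) ≤
      (Ideal.span {(Polynomial.X : Polynomial k) ^ (W + 1)}).comap φ := by
    rw [permIdeal, Ideal.span_le]
    rintro f ⟨r, c, rfl⟩
    rw [SetLike.mem_coe, Ideal.mem_comap, Ideal.mem_span_singleton, map_permanent]
    have h1 : (((hankelMatrix k m n).submatrix r c).map φ) = Matrix.of fun i j : Fin (T + 1) =>
        (Polynomial.X : Polynomial k) ^ (r i : ℕ) * Polynomial.X ^ (c j : ℕ) *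
        (Matrix.of fun i j : Fin (T + 1) => Polynomial.C (seqA k T (r i + c j))) i j := by
      ext1 i j
      simp only [Matrix.map_apply, Matrix.submatrix_apply, Matrix.of_apply, hent]
    rw [h1, permanent_mul_row_col, Finset.prod_pow_eq_pow_sum, Finset.prod_pow_eq_pow_sum,
      ← pow_add]
    by_cases hb : (∀ i, (r i : ℕ) = i) ∧ ∀ j, (c j : ℕ) = j
    · have h3 : (Matrix.of fun i j : Fin (T + 1) => Polynomial.C (seqA k T (r i + c j))).permanent
          = 0 := by
        have h4 : (Matrix.of fun i j : Fin (T + 1) => Polynomial.C (seqA k T (r i + c j))) =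
            (Matrix.of fun i j : Fin (T + 1) => seqA k T (i + j)).map Polynomial.C := by
          ext1 i j
          simp only [Matrix.map_apply, Matrix.of_apply, hb.1 i, hb.2 j]
        rw [h4, ← map_permanent, seqA_perm h2 hT, map_zero]
      rw [h3, mul_zero]
      exact dvd_zero _
    · refine Dvd.dvd.mul_right (pow_dvd_pow _ ?_) _
      have hr : ∀ i : Fin (T + 1), (i : ℕ) ≤ r i := sum_orderEmb_ge r
      have hc : ∀ i : Fin (T + 1), (i : ℕ) ≤ c i := sum_orderEmb_ge c
      have hr' : ∑ i : Fin (T + 1), (i : ℕ) ≤ ∑ i, (r i : ℕ) := Finset.sum_le_sum fun i _ => hr i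
      have hc' : ∑ i : Fin (T + 1), (i : ℕ) ≤ ∑ i, (c i : ℕ) := Finset.sum_le_sum fun i _ => hc i
      rw [not_and_or] at hb
      rcases hb with hb | hb
      · push Not at hb
        obtain ⟨i, hi⟩ := hb
        have : ∑ i : Fin (T + 1), (i : ℕ) < ∑ i, (r i : ℕ) :=
          Finset.sum_lt_sum (fun i _ => hr i) ⟨i, Finset.mem_univ _, lt_of_le_of_ne (hr i) hi.symm⟩
        omega
      · push Not at hb
        obtain ⟨i, hi⟩ := hb
        have : ∑ i : Fin (T + 1), (i : ℕ) < ∑ i, (c i : ℕ) :=
          Finset.sum_lt_sum (fun i _ => hc i) ⟨i, Finset.mem_univ _, lt_of_le_of_ne (hc i) hi.symm⟩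
        omega
  intro hmem
  have h5 := hle hmem
  rw [Ideal.mem_comap, Ideal.mem_span_singleton, RingHom.map_det, RingHom.mapMatrix_apply] at h5
  have h6 : (((hankelMatrix k m n).submatrix (Fin.castLE hm) (Fin.castLE hn)).map φ) =
      Matrix.of fun i j : Fin (T + 1) =>
        (Polynomial.X : Polynomial k) ^ (i : ℕ) * Polynomial.X ^ (j : ℕ) *
        ((Matrix.of fun i j : Fin (T + 1) => seqA k T (i + j)).map Polynomial.C) i j := by
    ext1 i j
    simp only [Matrix.map_apply, Matrix.submatrix_apply, Matrix.of_apply, hent, Fin.val_castLE]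
  rw [h6, det_mul_row_col, Finset.prod_pow_eq_pow_sum, ← pow_add] at h5
  have h7 : ((Matrix.of fun i j : Fin (T + 1) => seqA k T (i + j)).map Polynomial.C).det =
      Polynomial.C (Matrix.of fun i j : Fin (T + 1) => seqA k T (i + j)).det := by
    rw [RingHom.map_det, RingHom.mapMatrix_apply]
  rw [h7, ← hW, Polynomial.X_pow_dvd_iff] at h5
  have h8 := h5 W (Nat.lt_succ_self W)
  rw [mul_comm, Polynomial.coeff_C_mul, Polynomial.coeff_X_pow, if_pos rfl, mul_one] at h8
  exact seqA_det h2 hT h8

theorem perm_not_mem {m n T : ℕ} (hm : T + 1 ≤ m) (d : Fin T → Fin n)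
    (hd : ∀ j, (d j : ℕ) = T + 1 + j) :
    ((hankelMatrix k m n).submatrix (Fin.castLE hm ∘ (Fin.last T).succAbove) d).permanent ∉
      permIdeal (T + 1) (hankelMatrix k m n) := by
  set φ := wsub k (m + n - 1) (fun s => if s = 2 * T then 1 else 0) (fun _ => 1) with hφ
  have hent : ∀ i j, φ (hankelMatrix k m n i j) =
      Polynomial.X * 1 * Polynomial.C (if (i : ℕ) + j = 2 * T then (1 : k) else 0) := by
    intro i j
    simp only [hφ, wsub, hankelMatrix, Matrix.of_apply, AlgHom.toRingHom_eq_coe, RingHom.coe_coe,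
      aeval_X]
    ring
  have hle : permIdeal (T + 1) (hankelMatrix k m n) ≤
      (Ideal.span {(Polynomial.X : Polynomial k) ^ (T + 1)}).comap φ := by
    rw [permIdeal, Ideal.span_le]
    rintro f ⟨r, c, rfl⟩
    rw [SetLike.mem_coe, Ideal.mem_comap, Ideal.mem_span_singleton, map_permanent]
    have h1 : (((hankelMatrix k m n).submatrix r c).map φ) = Matrix.of fun i j =>
        (fun _ => (Polynomial.X : Polynomial k)) i * (fun _ => 1) j *
        (Matrix.of fun i j : Fin (T + 1) => Polynomial.C (if (r i : ℕ) + c j = 2 * T then (1 : k)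
          else 0)) i j := by
      ext1 i j
      simp only [Matrix.map_apply, Matrix.submatrix_apply, Matrix.of_apply, hent]
    rw [h1, permanent_mul_row_col]
    simp only [Finset.prod_const, Finset.card_univ, Fintype.card_fin, one_pow, mul_one]
    exact Dvd.intro _ rfl
  intro hmem
  have h5 := hle hmem
  rw [Ideal.mem_comap, Ideal.mem_span_singleton, map_permanent] at h5
  have h6 : (((hankelMatrix k m n).submatrix (Fin.castLE hm ∘ (Fin.last T).succAbove) d).map φ) =
      Matrix.of fun i j => (fun _ => (Polynomial.X : Polynomial k)) i * (fun _ => 1) j *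
        ((Matrix.of fun i j : Fin T => if (i : ℕ) + j + 1 = T then (1 : k) else 0).map
          Polynomial.C) i j := by
    ext1 i j
    simp only [Matrix.map_apply, Matrix.submatrix_apply, Matrix.of_apply, hent,
      Function.comp_apply, Fin.succAbove_last, Fin.val_castLE, Fin.val_castSucc, hd]
    have : ((i : ℕ) + (T + 1 + j) = 2 * T) ↔ ((i : ℕ) + j + 1 = T) := by omega
    simp only [this]
  rw [h6, permanent_mul_row_col, ← map_permanent] at h5
  simp only [Finset.prod_const, Finset.card_univ, Fintype.card_fin, one_pow, mul_one] at h5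
  rw [Polynomial.X_pow_dvd_iff] at h5
  have h8 := h5 T (Nat.lt_succ_self T)
  rw [mul_comm, Polynomial.coeff_C_mul, Polynomial.coeff_X_pow, if_pos rfl, mul_one] at h8
  refine permanent_permMatrix_ne_zero Fin.revPerm _ ?_ h8
  intro i j
  simp only [Matrix.of_apply, Fin.revPerm_apply, Fin.ext_iff, Fin.val_rev]
  have h1 := i.2
  have h2 := j.2
  have : ((i : ℕ) + j + 1 = T) ↔ (T - (i + 1) = (j : ℕ)) := by omega
  simp only [this]

/-- Region (A): for `n ≥ 2t - 1` the ideal `P_t` of the `m × n` Hankel matrix is not prime. -/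
theorem not_prime_of_two_mul_le (h2 : (2 : k) ≠ 0) {m n T : ℕ} (hT : 1 ≤ T) (hm : T + 1 ≤ m)
    (hn : 2 * T + 1 ≤ n) : ¬ (permIdeal (T + 1) (hankelMatrix k m n)).IsPrime := by
  intro hp
  let d : Fin T → Fin n := fun j => ⟨T + 1 + j, by omega⟩
  have h := det_mul_perm_mem (hankelMatrix k m n) (Fin.castLE hm) (Fin.castLE_injective _)
    (Fin.castLE (show T + 1 ≤ n by omega)) d
    (by
      intro x y hxy
      have := congrArg Fin.val hxy
      simp only [d] at this
      exact Fin.ext (by omega))
    (by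
      intro i j hij
      have := congrArg Fin.val hij
      simp only [d, Fin.val_castLE] at this
      omega) (Fin.last T)
  rcases hp.mem_or_mem h with h | h
  · exact det_not_mem h2 hT hm _ h
  · exact perm_not_mem hm d (fun j => rfl) h

end Pool.Agent.HankelPerm
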