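import Pool.Agent.HankelPerm.PermTools
import Pool.Agent.HankelPerm.FewRows

/-!
The case `m = t`, `n = 2t - 2`.
-/

namespace Pool.Agent.HankelPerm

open Matrix Finset Equiv MvPolynomial Pool.Agent.H32

section general

variable {R : Type*} [CommRing R] {ι : Type*} [Fintype ι] [DecidableEq ι]

theorem perm_eq_one_or_swap (ρ : Perm ι) {a a' : ι} (ha : a ≠ a')
    (h : ∀ x, x ≠ a → x ≠ a' → ρ x = x) : ρ = 1 ∨ ρ = Equiv.swap a a' := by
  have h1 : ρ a = a ∨ ρ a = a' := by
    by_contra hno
    push Not at hno
    have h2 := h (ρ a) hno.1 hno.2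
    exact hno.1 (ρ.injective h2)
  have h1' : ρ a' = a ∨ ρ a' = a' := by
    by_contra hno
    push Not at hno
    have h2 := h (ρ a') hno.1 hno.2
    exact hno.2 (ρ.injective h2)
  rcases h1 with h1 | h1
  · left
    have h3 : ρ a' = a' := by
      rcases h1' with h3 | h3
      · exact absurd (ρ.injective (h1.trans h3.symm)) ha
      · exact h3
    ext x
    by_cases hx : x = a
    · rw [hx, h1]; rfl
    by_cases hx' : x = a'
    · rw [hx', h3]; rfl
    rw [h x hx hx']; rfl
  · right
    have h3 : ρ a' = a := by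
      rcases h1' with h3 | h3
      · exact h3
      · exact absurd (ρ.injective (h1.trans h3.symm)) ha
    ext x
    by_cases hx : x = a
    · rw [hx, h1, Equiv.swap_apply_left]
    by_cases hx' : x = a'
    · rw [hx', h3, Equiv.swap_apply_right]
    rw [h x hx hx', Equiv.swap_apply_of_ne_of_ne hx hx']

/-- All rows except `a`, `a'` are multiples of standard basis vectors. -/
theorem permanent_two_rows (A : Matrix ι ι R) (π : Perm ι) (l : ι → R) {a a' : ι} (ha : a ≠ a')
    (h : ∀ i, i ≠ a → i ≠ a' → ∀ j, A i j = if j = π i then l i else 0) :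
    A.permanent = (A a (π a) * A a' (π a') + A a (π a') * A a' (π a)) *
      ∏ i ∈ (univ.erase a).erase a', l i := by
  have h1 : A.permanent = ∑ ρ : Perm ι, ∏ i, A (ρ i) (π i) := by
    rw [Matrix.permanent, ← Equiv.sum_comp (Equiv.mulRight π⁻¹)]
    refine Finset.sum_congr rfl fun ρ _ => ?_
    refine (Equiv.prod_comp π _).symm.trans ?_
    refine Finset.prod_congr rfl fun i _ => ?_
    simp
  have hsplit : ∀ f : ι → R, ∏ i, f i = f a * (f a' * ∏ i ∈ (Finset.univ.erase a).erase a', f i) := by
    intro f
    rw [← Finset.mul_prod_erase _ _ (Finset.mem_univ a),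
      ← Finset.mul_prod_erase (Finset.univ.erase a) _ (a := a')
        (Finset.mem_erase.mpr ⟨ha.symm, Finset.mem_univ _⟩)]
  have hne : (1 : Perm ι) ≠ Equiv.swap a a' := by
    intro h
    have := DFunLike.congr_fun h a
    rw [Equiv.swap_apply_left] at this
    exact ha this
  rw [h1, ← Finset.sum_subset (Finset.subset_univ {1, Equiv.swap a a'}), Finset.sum_pair hne,
    hsplit, hsplit]
  · have e1 : ∏ i ∈ (Finset.univ.erase a).erase a', A ((1 : Perm ι) i) (π i) =
        ∏ i ∈ (Finset.univ.erase a).erase a', l i := by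
      refine Finset.prod_congr rfl fun i hi => ?_
      simp only [Finset.mem_erase, Finset.mem_univ, and_true] at hi
      rw [Perm.one_apply, h i hi.2 hi.1, if_pos rfl]
    have e2 : ∏ i ∈ (Finset.univ.erase a).erase a', A (Equiv.swap a a' i) (π i) =
        ∏ i ∈ (Finset.univ.erase a).erase a', l i := by
      refine Finset.prod_congr rfl fun i hi => ?_
      simp only [Finset.mem_erase, Finset.mem_univ, and_true] at hi
      rw [Equiv.swap_apply_of_ne_of_ne hi.2 hi.1, h i hi.2 hi.1, if_pos rfl]
    rw [e1, e2, Equiv.swap_apply_left, Equiv.swap_apply_right, Perm.one_apply, Perm.one_apply]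
    ring
  · intro ρ _ hρ
    by_contra hprod
    apply hρ
    simp only [Finset.mem_insert, Finset.mem_singleton]
    apply perm_eq_one_or_swap ρ ha
    intro x hx hx'
    by_contra hne'
    apply hprod
    refine Finset.prod_eq_zero (Finset.mem_univ (ρ.symm x)) ?_
    rw [Equiv.apply_symm_apply, h x hx hx', if_neg]
    intro h2
    apply hne'
    have h3 := π.injective h2
    rw [← h3, Equiv.apply_symm_apply]
    exact h3.symm

end general

theorem first_order' {k : Type*} [Field k] {N : ℕ} (P : Ideal (MvPolynomial (Fin N) k))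
    [P.IsPrime] {T : ℕ} (hbig : Big P T) (q : Fin N → k) (hq : ∀ f ∈ P, aeval q f = 0)
    {ι : Type*} [Fintype ι] (g : ι → MvPolynomial (Fin N) k) (hg : ∀ a, g a ∈ P)
    (hli : ∀ c : ι → k, (∀ δ : Fin N → k, ∑ a, c a * aeval q (dd δ (g a)) = 0) → c = 0) :
    Fintype.card ι + T < N := by
  let e := (Fintype.equivFin ι).symm
  refine first_order P hbig q hq (g ∘ e) (fun a => hg _) ?_
  rw [Fintype.linearIndependent_iff]
  intro c hc
  have h1 := hli (c ∘ e.symm) (by
    intro δ
    rw [← Equiv.sum_comp e]
    simp only [Function.comp_apply, Equiv.symm_apply_apply, ← sum_grad_mul, Finset.mul_sum]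
    rw [Finset.sum_comm]
    refine Finset.sum_eq_zero fun i _ => ?_
    have h2 := congrFun hc i
    simp only [Finset.sum_apply, Pi.smul_apply, smul_eq_mul, Function.comp_apply,
      Pi.zero_apply] at h2
    simp only [← mul_assoc, ← Finset.sum_mul, h2, zero_mul])
  intro a
  have := congrFun h1 (e a)
  simpa using this

theorem second_order' {k : Type*} [Field k] {N : ℕ} (P : Ideal (MvPolynomial (Fin N) k))
    [P.IsPrime] {T : ℕ} (hbig : Big P T) (q : Fin N → k) (hq : ∀ f ∈ P, aeval q f = 0)
    {ι : Type*} [Fintype ι] (g : ι → MvPolynomial (Fin N) k) (hg : ∀ a, g a ∈ P)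
    (hli : ∀ c : ι → k, (∀ δ : Fin N → k, ∑ a, c a * aeval q (dd δ (g a)) = 0) → c = 0)
    (hr : Fintype.card ι + 1 + T = N)
    (τ τ' : Fin N → k) (hτ : ∀ a, aeval q (dd τ (g a)) = 0)
    (hτ' : ∀ a, aeval q (dd τ' (g a)) = 0) (h : MvPolynomial (Fin N) k) (hh : h ∈ P)
    (hh0 : ∀ δ : Fin N → k, aeval q (dd δ h) = 0) :
    aeval q (dd τ' (dd τ h)) = 0 := by
  let e := (Fintype.equivFin ι).symm
  rw [← sum_sum_hess]
  refine second_order P hbig q hq (g ∘ e) (fun a => hg _) ?_ hr τ τ' ?_ ?_ h hh ?_
  · rw [Fintype.linearIndependent_iff]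
    intro c hc
    have h1 := hli (c ∘ e.symm) (by
      intro δ
      rw [← Equiv.sum_comp e]
      simp only [Function.comp_apply, Equiv.symm_apply_apply, ← sum_grad_mul, Finset.mul_sum]
      rw [Finset.sum_comm]
      refine Finset.sum_eq_zero fun i _ => ?_
      have h2 := congrFun hc i
      simp only [Finset.sum_apply, Pi.smul_apply, smul_eq_mul, Function.comp_apply,
        Pi.zero_apply] at h2
      simp only [← mul_assoc, ← Finset.sum_mul, h2, zero_mul])
    intro a
    have := congrFun h1 (e a)
    simpa using this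
  · intro a; rw [sum_grad_mul]; exact hτ _
  · intro a; rw [sum_grad_mul]; exact hτ' _
  · intro i
    have := hh0 (Pi.single i 1)
    rw [← sum_grad_mul] at this
    simpa [Pi.single_apply] using this


section middle

variable {k : Type*} [Field k]

/-- The columns used below. -/
def cB (T x y z : ℕ) (i : ℕ) : ℕ :=
  if i = 0 then x else if i = T then y else if i = T - 1 then z else T - i

theorem seqA_row_mid {T : ℕ} (hT : 2 ≤ T) (z : ℕ) (hz : z = 1 ∨ z = 1 + T) (i j : Fin (T + 1))
    (hi0 : i ≠ 0) (hiT : i ≠ Fin.last T) :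
    seqA k T (i + cB T 0 T z j) = if j = i then (if (i : ℕ) = T - 1 then seqA k T (T - 1 + z)
      else 1) else 0 := by
  have h1 := i.2
  have h2 := j.2
  have h3 : (i : ℕ) ≠ 0 := fun h => hi0 (Fin.ext h)
  have h4 : (i : ℕ) ≠ T := fun h => hiT (Fin.ext h)
  clear hi0 hiT
  rcases hz with rfl | rfl
  · simp only [seqA, cB, Fin.ext_iff]
    split_ifs <;> first | rfl | contradiction | omega
  · simp only [seqA, cB, Fin.ext_iff]
    split_ifs <;> first | rfl | contradiction | omega

/-- A point of `V(P_t)`: the permanents of all maximal submatrices vanish. -/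
theorem seqA_perm_zero (h2 : (2 : k) ≠ 0) {T : ℕ} (hT : 1 ≤ T) {n : ℕ} (hn : n ≤ 2 * T)
    {ι : Type*} [Fintype ι] [DecidableEq ι] (r c : ι → ℕ) (hcn : ∀ j, c j < n)
    (hc : Function.Injective c) (a a' : ι) (ha : r a = 0) (ha' : r a' = T)
    (A : Matrix ι ι k) (hA : ∀ j, A a j = seqA k T (r a + c j))
    (hA' : ∀ j, A a' j = seqA k T (r a' + c j)) : A.permanent = 0 := by
  have haa' : a ≠ a' := by rintro rfl; omega
  refine permanent_eq_zero_of_two_rows h2 A haa' fun j j' hjj' => ?_
  have h3 : c j ≠ c j' := fun h => hjj' (hc h)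
  have h4 := hcn j
  have h5 := hcn j'
  rw [hA, hA, hA', hA', ha, ha']
  simp only [seqA]
  split_ifs <;> first | omega | norm_num


/-- The value at `q` of the gradient for a matrix containing rows `0` and `T`. -/
theorem sum_updateRow_eq (h2 : (2 : k) ≠ 0) {T : ℕ} (hT : 1 ≤ T) (c : Fin (T + 1) → ℕ)
    (hcn : ∀ j, c j < 2 * T) (hc : Function.Injective c) (u : Fin (T + 1) → Fin (T + 1) → k) :
    ∑ a, ((hm (seqA k T) (fun i : Fin (T + 1) => i) c).updateRow a (u a)).permanent =
      ((hm (seqA k T) (fun i : Fin (T + 1) => i) c).updateRow 0 (u 0)).permanent +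
      ((hm (seqA k T) (fun i : Fin (T + 1) => i) c).updateRow (Fin.last T)
        (u (Fin.last T))).permanent := by
  have h0T : (0 : Fin (T + 1)) ≠ Fin.last T := by
    intro h
    have := congrArg Fin.val h
    simp at this
    omega
  rw [← Finset.add_sum_erase _ _ (Finset.mem_univ 0),
    ← Finset.add_sum_erase (Finset.univ.erase 0) _ (a := Fin.last T) (by simp [h0T.symm]),
    Finset.sum_eq_zero, add_zero]
  intro a ha
  simp only [Finset.mem_erase, Finset.mem_univ, and_true] at ha
  refine seqA_perm_zero h2 hT (n := 2 * T) le_rfl (fun i : Fin (T + 1) => (i : ℕ)) c hcn hc 0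
    (Fin.last T) rfl rfl _ (fun j => ?_) (fun j => ?_)
  · rw [Matrix.updateRow_ne (fun h => ha.2 h.symm)]
    rfl
  · rw [Matrix.updateRow_ne (fun h => ha.1 h.symm)]
    rfl

/-- Gradient for the columns `x, (κ-pair), others`. -/
theorem grad_one (h2 : (2 : k) ≠ 0) {T : ℕ} (hT : 3 ≤ T) (x κ : ℕ) (hx : x = 0 ∨ x = T)
    (hκ : 1 ≤ κ) (hκT : κ < T) (δ : ℕ → k) :
    ∑ a : Fin (T + 1), ((hm (seqA k T) (fun i : Fin (T + 1) => i)
      (fun j => cB T x (κ + T) 1 j)).updateRow a
      (fun j => δ (a + cB T x (κ + T) 1 j))).permanent =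
      seqA k T (T + x) * (δ (κ + T) - δ κ) + (δ (κ + 2 * T) - δ (κ + T)) := by
  have h0T : (0 : Fin (T + 1)) ≠ Fin.last T := by
    intro h
    have := congrArg Fin.val h
    simp at this
    omega
  rw [sum_updateRow_eq h2 (by omega) (fun j : Fin (T + 1) => cB T x (κ + T) 1 j)
    (by
      intro j
      have := j.2
      simp only [cB]
      split_ifs <;> omega)
    (by
      intro j j' hjj'
      have h1 := j.2
      have h2 := j'.2
      simp only [cB] at hjj'
      apply Fin.ext
      split_ifs at hjj' <;> omega)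
    (fun a j => δ (a + cB T x (κ + T) 1 j))]
  set i0 : Fin (T + 1) := ⟨T - κ, by omega⟩ with hi0
  have hi00 : i0 ≠ 0 := by
    intro h
    have := congrArg Fin.val h
    simp only [hi0, Fin.val_zero] at this
    omega
  have hi0T : i0 ≠ Fin.last T := by
    intro h
    have := congrArg Fin.val h
    simp only [hi0, Fin.val_last] at this
    omega
  congr 1
  · -- row `0` replaced
    set A := (hm (seqA k T) (fun i : Fin (T + 1) => i)
      (fun j => cB T x (κ + T) 1 j)).updateRow 0
      (fun j => δ (((0 : Fin (T + 1)) : ℕ) + cB T x (κ + T) 1 j)) with hA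
    have hA0 : ∀ j, A 0 j = δ (((0 : Fin (T + 1)) : ℕ) + cB T x (κ + T) 1 j) := fun j => by
      rw [hA, Matrix.updateRow_self]
    have hAi : ∀ i, i ≠ 0 → ∀ j, A i j = seqA k T (i + cB T x (κ + T) 1 j) := fun i hi j => by
      rw [hA, Matrix.updateRow_ne hi]; rfl
    rw [permanent_two_rows A (Equiv.swap 0 (Fin.last T))
      (fun i => if i = Fin.last T then seqA k T (T + x) else 1) hi00.symm]
    · rw [Equiv.swap_apply_left, Equiv.swap_apply_of_ne_of_ne hi00 hi0T, hA0, hA0,
        hAi i0 hi00, hAi i0 hi00]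
      have e1 : cB T x (κ + T) 1 (Fin.last T : Fin (T + 1)) = κ + T := by
        simp only [cB, Fin.val_last]; split_ifs <;> omega
      have e2 : cB T x (κ + T) 1 i0 = κ := by
        simp only [cB, hi0]; split_ifs <;> omega
      have e3 : seqA k T ((i0 : ℕ) + κ) = 1 := by
        simp only [seqA, hi0]; split_ifs <;> first | rfl | omega
      have e4 : seqA k T ((i0 : ℕ) + (κ + T)) = -1 := by
        simp only [seqA, hi0]; split_ifs <;> first | rfl | omega
      have e5 : ∏ i ∈ (Finset.univ.erase (0 : Fin (T + 1))).erase i0,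
          (if i = Fin.last T then seqA k T (T + x) else (1 : k)) = seqA k T (T + x) := by
        rw [Finset.prod_ite_eq' ]
        rw [if_pos]
        simp [h0T.symm, hi0T.symm]
      rw [e1, e2, e3, e4, e5]
      simp only [Fin.val_zero, zero_add]
      ring
    · intro i hi hi' j
      rw [hAi i hi]
      have h1 := i.2
      have h3 := j.2
      have h4 : (i : ℕ) ≠ 0 := fun h => hi (Fin.ext h)
      have h5 : (i : ℕ) ≠ T - κ := fun h => hi' (Fin.ext h)
      by_cases hiT : i = Fin.last T
      · subst hiT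
        rw [Equiv.swap_apply_right, if_pos rfl]
        simp only [cB, Fin.val_last, Fin.ext_iff, Fin.val_zero]
        rcases hx with rfl | rfl <;> simp only [seqA] <;> split_ifs <;>
          first | rfl | contradiction | omega
      · have h6 : (i : ℕ) ≠ T := fun h => hiT (Fin.ext h)
        rw [Equiv.swap_apply_of_ne_of_ne hi hiT, if_neg hiT]
        simp only [cB, Fin.ext_iff]
        rcases hx with rfl | rfl <;> simp only [seqA] <;> split_ifs <;>
          first | rfl | contradiction | omega
  · -- row `T` replaced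
    set A := (hm (seqA k T) (fun i : Fin (T + 1) => i)
      (fun j => cB T x (κ + T) 1 j)).updateRow (Fin.last T)
      (fun j => δ (((Fin.last T : Fin (T + 1)) : ℕ) + cB T x (κ + T) 1 j)) with hA
    have hA0 : ∀ j, A (Fin.last T) j =
        δ (((Fin.last T : Fin (T + 1)) : ℕ) + cB T x (κ + T) 1 j) := fun j => by
      rw [hA, Matrix.updateRow_self]
    have hAi : ∀ i, i ≠ Fin.last T → ∀ j, A i j = seqA k T (i + cB T x (κ + T) 1 j) :=
      fun i hi j => by rw [hA, Matrix.updateRow_ne hi]; rfl
    rw [permanent_two_rows A 1 (fun _ => 1) hi0T.symm]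
    · rw [Perm.one_apply, Perm.one_apply, hA0, hA0, hAi i0 hi0T, hAi i0 hi0T]
      have e1 : cB T x (κ + T) 1 (Fin.last T : Fin (T + 1)) = κ + T := by
        simp only [cB, Fin.val_last]; split_ifs <;> omega
      have e2 : cB T x (κ + T) 1 i0 = κ := by
        simp only [cB, hi0]; split_ifs <;> omega
      have e3 : seqA k T ((i0 : ℕ) + κ) = 1 := by
        simp only [seqA, hi0]; split_ifs <;> first | rfl | omega
      have e4 : seqA k T ((i0 : ℕ) + (κ + T)) = -1 := by
        simp only [seqA, hi0]; split_ifs <;> first | rfl | omega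
      have e6 : T + (κ + T) = κ + 2 * T := by ring
      rw [e1, e2, e3, e4, Finset.prod_const_one, Fin.val_last, e6, add_comm T κ]
      ring
    · intro i hi hi' j
      rw [hAi i hi]
      have h1 := i.2
      have h3 := j.2
      have h4 : (i : ℕ) ≠ T := fun h => hi (Fin.ext h)
      have h5 : (i : ℕ) ≠ T - κ := fun h => hi' (Fin.ext h)
      rw [Perm.one_apply]
      simp only [cB, Fin.ext_iff]
      rcases hx with rfl | rfl <;> simp only [seqA] <;> split_ifs <;>
        first | rfl | contradiction | omega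


theorem cB_lt {T x y z : ℕ} (hT : 2 ≤ T) (hx : x < 2 * T) (hy : y < 2 * T) (hz : z < 2 * T)
    (j : Fin (T + 1)) : cB T x y z j < 2 * T := by
  have := j.2
  simp only [cB]
  split_ifs <;> omega

theorem prod_last (T : ℕ) (hT : 3 ≤ T) (s : Finset (Fin (T + 1)))
    (hs : (⟨T - 1, by omega⟩ : Fin (T + 1)) ∈ s) (c : k) :
    ∏ i ∈ s, (if (i : ℕ) = T - 1 then c else (1 : k)) = c := by
  have : ∀ i : Fin (T + 1), (if (i : ℕ) = T - 1 then c else (1 : k)) =
      if i = ⟨T - 1, by omega⟩ then c else 1 := by
    intro i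
    simp only [Fin.ext_iff]
  simp only [this]
  rw [Finset.prod_ite_eq', if_pos hs]

/-- Gradient for the columns `0, T, z` and the others. -/
theorem grad_two (h2 : (2 : k) ≠ 0) {T : ℕ} (hT : 3 ≤ T) (z : ℕ) (hz : z = 1 ∨ z = 1 + T)
    (δ : ℕ → k) :
    ∑ a : Fin (T + 1), ((hm (seqA k T) (fun i : Fin (T + 1) => i)
      (fun j => cB T 0 T z j)).updateRow a
      (fun j => δ (a + cB T 0 T z j))).permanent =
      seqA k T (T - 1 + z) * (-δ 0 + 2 * δ T + δ (2 * T)) := by
  have h0T : (0 : Fin (T + 1)) ≠ Fin.last T := by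
    intro h
    have := congrArg Fin.val h
    simp at this
    omega
  have hmem : (⟨T - 1, by omega⟩ : Fin (T + 1)) ∈
      (Finset.univ.erase (0 : Fin (T + 1))).erase (Fin.last T) := by
    simp only [Finset.mem_erase, Finset.mem_univ, and_true, ne_eq, Fin.ext_iff, Fin.val_last,
      Fin.val_zero]
    omega
  rw [sum_updateRow_eq h2 (by omega) (fun j : Fin (T + 1) => cB T 0 T z j)
    (fun j => cB_lt (by omega) (by omega) (by omega) (by omega) j)
    (by
      intro j j' hjj'
      have h1 := j.2
      have h2 := j'.2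
      simp only [cB] at hjj'
      apply Fin.ext
      split_ifs at hjj' <;> omega)
    (fun a j => δ (a + cB T 0 T z j))]
  have e1 : cB T 0 T z (Fin.last T : Fin (T + 1)) = T := by
    simp only [cB, Fin.val_last]; split_ifs <;> omega
  have e0 : cB T 0 T z (0 : Fin (T + 1)) = 0 := by simp [cB]
  have e2 : seqA k T (T + 0) = 1 := by
    simp only [seqA]; split_ifs <;> first | rfl | omega
  have e3 : seqA k T (T + T) = -1 := by
    simp only [seqA]; split_ifs <;> first | rfl | omega
  have e4 : seqA k T (0 + 0) = 1 := by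
    simp only [seqA]; split_ifs <;> first | rfl | omega
  have e5 : seqA k T (0 + T) = 1 := by
    simp only [seqA]; split_ifs <;> first | rfl | omega
  have t1 : ((hm (seqA k T) (fun i : Fin (T + 1) => i)
      (fun j => cB T 0 T z j)).updateRow 0
      (fun j => δ (((0 : Fin (T + 1)) : ℕ) + cB T 0 T z j))).permanent =
      seqA k T (T - 1 + z) * (-δ 0 + δ T) := by
    set A := (hm (seqA k T) (fun i : Fin (T + 1) => i)
      (fun j => cB T 0 T z j)).updateRow 0
      (fun j => δ (((0 : Fin (T + 1)) : ℕ) + cB T 0 T z j)) with hA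
    have hA0 : ∀ j, A 0 j = δ (((0 : Fin (T + 1)) : ℕ) + cB T 0 T z j) := fun j => by
      rw [hA, Matrix.updateRow_self]
    have hAi : ∀ i, i ≠ 0 → ∀ j, A i j = seqA k T (i + cB T 0 T z j) := fun i hi j => by
      rw [hA, Matrix.updateRow_ne hi]; rfl
    rw [permanent_two_rows A 1 (fun i => if (i : ℕ) = T - 1 then seqA k T (T - 1 + z) else 1) h0T
      (fun i hi hi' j => by rw [hAi i hi, seqA_row_mid (by omega) z hz i j hi hi']; rfl)]
    rw [Perm.one_apply, Perm.one_apply, hA0, hA0, hAi _ h0T.symm, hAi _ h0T.symm, e0, e1,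
      prod_last T hT _ hmem, Fin.val_last, Fin.val_zero, e2, e3]
    simp only [zero_add]
    ring
  have t2 : ((hm (seqA k T) (fun i : Fin (T + 1) => i)
      (fun j => cB T 0 T z j)).updateRow (Fin.last T)
      (fun j => δ (((Fin.last T : Fin (T + 1)) : ℕ) + cB T 0 T z j))).permanent =
      seqA k T (T - 1 + z) * (δ T + δ (2 * T)) := by
    set A := (hm (seqA k T) (fun i : Fin (T + 1) => i)
      (fun j => cB T 0 T z j)).updateRow (Fin.last T)
      (fun j => δ (((Fin.last T : Fin (T + 1)) : ℕ) + cB T 0 T z j)) with hA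
    have hA0 : ∀ j, A (Fin.last T) j =
        δ (((Fin.last T : Fin (T + 1)) : ℕ) + cB T 0 T z j) := fun j => by
      rw [hA, Matrix.updateRow_self]
    have hAi : ∀ i, i ≠ Fin.last T → ∀ j, A i j = seqA k T (i + cB T 0 T z j) :=
      fun i hi j => by rw [hA, Matrix.updateRow_ne hi]; rfl
    rw [permanent_two_rows A 1 (fun i => if (i : ℕ) = T - 1 then seqA k T (T - 1 + z) else 1) h0T
      (fun i hi hi' j => by rw [hAi i hi', seqA_row_mid (by omega) z hz i j hi hi']; rfl)]
    rw [Perm.one_apply, Perm.one_apply, hA0, hA0, hAi _ h0T, hAi _ h0T, e0, e1,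
      prod_last T hT _ hmem, Fin.val_last, Fin.val_zero, e4, e5, ← two_mul T, add_zero]
    ring
  rw [t1, t2]
  ring

/-- The two tangent directions used in the second order argument. -/
def tau1 (k : Type*) [Field k] (T : ℕ) (s : ℕ) : k :=
  if s = 1 ∨ s = T + 1 ∨ s = 2 * T + 1 then 1 else 0

/-- The two tangent directions used in the second order argument. -/
def tau2 (k : Type*) [Field k] (T : ℕ) (s : ℕ) : k :=
  if s = T - 1 ∨ s = 2 * T - 1 ∨ s = 3 * T - 1 then 1 else 0

theorem hess_value (h2 : (2 : k) ≠ 0) {T : ℕ} (hT : 3 ≤ T) (z : ℕ) (hz : z = 1 ∨ z = 1 + T) :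
    ∑ a : Fin (T + 1), ∑ b ∈ univ.erase a, (((hm (seqA k T) (fun i : Fin (T + 1) => i)
      (fun j => cB T 0 T z j)).updateRow a
      (fun j => tau1 k T (a + cB T 0 T z j))).updateRow b
      (fun j => tau2 k T (b + cB T 0 T z j))).permanent = 2 + 2 * seqA k T (T - 1 + z) := by
  have h0T : (0 : Fin (T + 1)) ≠ Fin.last T := by
    intro h
    have := congrArg Fin.val h
    simp at this
    omega
  set r1 : Fin (T + 1) := ⟨1, by omega⟩ with hr1
  set rp : Fin (T + 1) := ⟨T - 1, by omega⟩ with hrp
  have v1 : (r1 : ℕ) = 1 := rfl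
  have vp : (rp : ℕ) = T - 1 := rfl
  have v0 : ((0 : Fin (T + 1)) : ℕ) = 0 := rfl
  have vT : ((Fin.last T : Fin (T + 1)) : ℕ) = T := rfl
  have h10 : r1 ≠ 0 := fun h => by have := congrArg Fin.val h; omega
  have h1T : r1 ≠ Fin.last T := fun h => by have := congrArg Fin.val h; omega
  have hp0 : rp ≠ 0 := fun h => by have := congrArg Fin.val h; omega
  have hpT : rp ≠ Fin.last T := fun h => by have := congrArg Fin.val h; omega
  have h1p : r1 ≠ rp := fun h => by have := congrArg Fin.val h; omega
  -- the entries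
  have base0 : ∀ j : Fin (T + 1), seqA k T (((0 : Fin (T + 1)) : ℕ) + cB T 0 T z j) =
      if j = 0 ∨ j = Fin.last T then 1 else 0 := by
    intro j
    have := j.2
    simp only [seqA, cB, Fin.ext_iff, v0, vT]
    rcases hz with rfl | rfl <;> split_ifs <;> first | rfl | contradiction | omega
  have baseT : ∀ j : Fin (T + 1), seqA k T (((Fin.last T : Fin (T + 1)) : ℕ) + cB T 0 T z j) =
      if j = 0 then 1 else if j = Fin.last T then -1 else 0 := by
    intro j
    have := j.2
    simp only [seqA, cB, Fin.ext_iff, v0, vT]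
    rcases hz with rfl | rfl <;> split_ifs <;> first | rfl | contradiction | omega
  have base_mid : ∀ i j : Fin (T + 1), i ≠ 0 → i ≠ Fin.last T →
      seqA k T (i + cB T 0 T z j) = if j = i then (if (i : ℕ) = T - 1 then
        seqA k T (T - 1 + z) else 1) else 0 :=
    fun i j hi hi' => seqA_row_mid (by omega) z hz i j hi hi'
  have ta0 : ∀ j : Fin (T + 1), tau1 k T (((0 : Fin (T + 1)) : ℕ) + cB T 0 T z j) =
      if j = rp then 1 else 0 := by
    intro j
    have := j.2
    simp only [tau1, cB, Fin.ext_iff, v0, vp]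
    rcases hz with rfl | rfl <;> split_ifs <;> first | rfl | contradiction | omega
  have taT : ∀ j : Fin (T + 1), tau1 k T (((Fin.last T : Fin (T + 1)) : ℕ) + cB T 0 T z j) =
      if j = rp then 1 else 0 := by
    intro j
    have := j.2
    simp only [tau1, cB, Fin.ext_iff, vT, vp]
    rcases hz with rfl | rfl <;> split_ifs <;> first | rfl | contradiction | omega
  have ta1 : ∀ j : Fin (T + 1), tau1 k T ((r1 : ℕ) + cB T 0 T z j) =
      if j = 0 ∨ j = Fin.last T then 1 else 0 := by
    intro j
    have := j.2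
    simp only [tau1, cB, Fin.ext_iff, vT, v0, v1]
    rcases hz with rfl | rfl <;> split_ifs <;> first | rfl | contradiction | omega
  have tb0 : ∀ j : Fin (T + 1), tau2 k T (((0 : Fin (T + 1)) : ℕ) + cB T 0 T z j) =
      if j = r1 then 1 else 0 := by
    intro j
    have := j.2
    simp only [tau2, cB, Fin.ext_iff, v0, v1]
    rcases hz with rfl | rfl <;> split_ifs <;> first | rfl | contradiction | omega
  have tbT : ∀ j : Fin (T + 1), tau2 k T (((Fin.last T : Fin (T + 1)) : ℕ) + cB T 0 T z j) =
      if j = r1 then 1 else 0 := by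
    intro j
    have := j.2
    simp only [tau2, cB, Fin.ext_iff, vT, v1]
    rcases hz with rfl | rfl <;> split_ifs <;> first | rfl | contradiction | omega
  have tbp : ∀ j : Fin (T + 1), tau2 k T ((rp : ℕ) + cB T 0 T z j) =
      if j = 0 ∨ j = Fin.last T then 1 else 0 := by
    intro j
    have := j.2
    simp only [tau2, cB, Fin.ext_iff, vT, v0, vp]
    rcases hz with rfl | rfl <;> split_ifs <;> first | rfl | contradiction | omega
  -- the matrices
  set M : Fin (T + 1) → Fin (T + 1) → Matrix (Fin (T + 1)) (Fin (T + 1)) k := fun a b =>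
    ((hm (seqA k T) (fun i : Fin (T + 1) => i)
      (fun j => cB T 0 T z j)).updateRow a
      (fun j => tau1 k T (a + cB T 0 T z j))).updateRow b
      (fun j => tau2 k T (b + cB T 0 T z j)) with hM
  have Mb : ∀ a b j, M a b b j = tau2 k T (b + cB T 0 T z j) := by
    intro a b j
    simp only [hM]
    rw [Matrix.updateRow_self]
  have Ma : ∀ a b j, b ≠ a → M a b a j = tau1 k T (a + cB T 0 T z j) := by
    intro a b j hba
    simp only [hM]
    rw [Matrix.updateRow_ne hba.symm, Matrix.updateRow_self]
  have Mi : ∀ a b i j, i ≠ a → i ≠ b → M a b i j = seqA k T (i + cB T 0 T z j) := by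
    intro a b i j hia hib
    simp only [hM]
    rw [Matrix.updateRow_ne hib, Matrix.updateRow_ne hia]
    rfl
  -- criterion for vanishing: conflict of two rows supported on the same column
  have conflict : ∀ (A : Matrix (Fin (T + 1)) (Fin (T + 1)) k) (p p' c : Fin (T + 1)), p ≠ p' →
      (∀ j, j ≠ c → A p j = 0) → (∀ j, j ≠ c → A p' j = 0) → A.permanent = 0 := by
    intro A p p' c hpp' hp hp'
    refine permanent_eq_zero_of_two_rows h2 A hpp' fun j j' hjj' => ?_
    by_cases hj : j = c
    · have hj' : j' ≠ c := fun h => hjj' (hj.trans h.symm)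
      rw [hp' j' hj', hp j' hj']
      ring
    · rw [hp j hj, hp' j hj]
      ring
  have opposite : ∀ (A : Matrix (Fin (T + 1)) (Fin (T + 1)) k) (p : Fin (T + 1)),
      p ≠ Fin.last T → (∀ j, A p j = if j = 0 ∨ j = Fin.last T then 1 else 0) →
      (∀ j, A (Fin.last T) j = if j = 0 then 1 else if j = Fin.last T then -1 else 0) →
      A.permanent = 0 := by
    intro A p hpT hp hlast
    refine permanent_eq_zero_of_two_rows h2 A hpT fun j j' hjj' => ?_
    rw [hp, hp, hlast, hlast]
    by_cases hj0 : j = 0
    · subst hj0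
      have : j' ≠ 0 := hjj'.symm
      by_cases hj'T : j' = Fin.last T
      · subst hj'T; simp [h0T.symm]
      · simp [this, hj'T]
    · by_cases hjT : j = Fin.last T
      · subst hjT
        have : j' ≠ Fin.last T := hjj'.symm
        by_cases hj'0 : j' = 0
        · subst hj'0; simp [h0T.symm]
        · simp [this, hj'0]
      · simp [hj0, hjT]
  -- row sums
  have G0 : ∀ b, b ≠ 0 → (M 0 b).permanent = 0 := by
    intro b hb
    by_cases hbp : b = rp
    · subst hbp
      refine opposite _ rp hpT (fun j => ?_) (fun j => ?_)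
      · rw [Mb, tbp]
      · rw [Mi _ _ _ _ h0T.symm hpT.symm, baseT]
    · refine conflict _ 0 rp rp hp0.symm (fun j hj => ?_) (fun j hj => ?_)
      · rw [Ma _ _ _ hb, ta0, if_neg hj]
      · rw [Mi _ _ _ _ hp0 (fun h => hbp h.symm), base_mid _ _ hp0 hpT, if_neg hj]
  have GT : ∀ b, b ≠ Fin.last T → b ≠ rp → (M (Fin.last T) b).permanent = 0 := by
    intro b hb hbp
    refine conflict _ (Fin.last T) rp rp hpT.symm (fun j hj => ?_) (fun j hj => ?_)
    · rw [Ma _ _ _ hb, taT, if_neg hj]
    · rw [Mi _ _ _ _ hpT (fun h => hbp h.symm), base_mid _ _ hp0 hpT, if_neg hj]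
  have GTp : (M (Fin.last T) rp).permanent = 2 := by
    rw [permanent_two_rows (M (Fin.last T) rp) (Equiv.swap rp (Fin.last T)) (fun _ => 1)
      hp0.symm]
    · rw [Equiv.swap_apply_left, Equiv.swap_apply_of_ne_of_ne hp0.symm h0T,
        Mi _ _ _ _ h0T hp0.symm, Mi _ _ _ _ h0T hp0.symm, Mb, Mb, base0, base0, tbp, tbp,
        Finset.prod_const_one, if_pos (Or.inl rfl), if_pos (Or.inr rfl)]
      norm_num
    · intro i hi hi' j
      by_cases hiT : i = Fin.last T
      · subst hiT
        rw [Ma _ _ _ hpT, taT, Equiv.swap_apply_right]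
      · rw [Mi _ _ _ _ hiT hi', base_mid _ _ hi hiT, Equiv.swap_apply_of_ne_of_ne hi' hiT]
        have : (i : ℕ) ≠ T - 1 := fun h => hi' (Fin.ext h)
        rw [if_neg this]
  have Gm : ∀ a b, a ≠ 0 → a ≠ Fin.last T → b ≠ a → (a ≠ r1 ∨ b ≠ Fin.last T) →
      (M a b).permanent = 0 := by
    intro a b ha0 haT hba hab
    by_cases hb0 : b = 0
    · subst hb0
      by_cases ha1 : a = r1
      · subst ha1
        refine opposite _ r1 h1T (fun j => ?_) (fun j => ?_)
        · rw [Ma _ _ _ hba, ta1]
        · rw [Mi _ _ _ _ h1T.symm h0T.symm, baseT]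
      · refine conflict _ 0 r1 r1 h10.symm (fun j hj => ?_) (fun j hj => ?_)
        · rw [Mb, tb0, if_neg hj]
        · rw [Mi _ _ _ _ (fun h => ha1 h.symm) h10, base_mid _ _ h10 h1T, if_neg hj]
    · by_cases hbT : b = Fin.last T
      · subst hbT
        have ha1 : a ≠ r1 := by
          rcases hab with h | h
          · exact h
          · exact absurd rfl h
        refine conflict _ (Fin.last T) r1 r1 h1T.symm (fun j hj => ?_) (fun j hj => ?_)
        · rw [Mb, tbT, if_neg hj]
        · rw [Mi _ _ _ _ (fun h => ha1 h.symm) h1T, base_mid _ _ h10 h1T, if_neg hj]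
      · refine opposite _ 0 h0T (fun j => ?_) (fun j => ?_)
        · rw [Mi _ _ _ _ (fun h => ha0 h.symm) (fun h => hb0 h.symm), base0]
        · rw [Mi _ _ _ _ (fun h => haT h.symm) (fun h => hbT h.symm), baseT]
  have G1T : (M r1 (Fin.last T)).permanent = 2 * seqA k T (T - 1 + z) := by
    rw [permanent_two_rows (M r1 (Fin.last T)) (Equiv.swap r1 (Fin.last T))
      (fun i => if (i : ℕ) = T - 1 then seqA k T (T - 1 + z) else 1) h10.symm]
    · rw [Equiv.swap_apply_left, Equiv.swap_apply_of_ne_of_ne h10.symm h0T,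
        Mi _ _ _ _ h10.symm h0T, Mi _ _ _ _ h10.symm h0T, Ma _ _ _ h1T.symm,
        Ma _ _ _ h1T.symm, base0, base0, ta1, ta1, prod_last T hT]
      · rw [if_pos (Or.inl rfl), if_pos (Or.inr rfl)]
        ring
      · simp only [Finset.mem_erase, Finset.mem_univ, and_true]
        exact ⟨fun h => h1p h.symm, hp0⟩
    · intro i hi hi' j
      by_cases hiT : i = Fin.last T
      · subst hiT
        rw [Mb, tbT, Equiv.swap_apply_right, vT, if_neg (show T ≠ T - 1 by omega)]
      · rw [Mi _ _ _ _ hi' hiT, base_mid _ _ hi hiT, Equiv.swap_apply_of_ne_of_ne hi' hiT]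
  -- summing up
  have S : ∀ a, ∑ b ∈ univ.erase a, (M a b).permanent =
      if a = Fin.last T then 2 else if a = r1 then 2 * seqA k T (T - 1 + z) else 0 := by
    intro a
    by_cases haT : a = Fin.last T
    · subst haT
      rw [if_pos rfl, Finset.sum_eq_single rp, GTp]
      · intro b hb hbp
        exact GT b (Finset.ne_of_mem_erase hb) hbp
      · intro h
        exact absurd (Finset.mem_erase.mpr ⟨hpT, Finset.mem_univ _⟩) h
    · rw [if_neg haT]
      by_cases ha1 : a = r1
      · subst ha1
        rw [if_pos rfl, Finset.sum_eq_single (Fin.last T), G1T]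
        · intro b hb hbT
          exact Gm _ b h10 h1T (Finset.ne_of_mem_erase hb) (Or.inr hbT)
        · intro h
          exact absurd (Finset.mem_erase.mpr ⟨h1T.symm, Finset.mem_univ _⟩) h
      · rw [if_neg ha1]
        refine Finset.sum_eq_zero fun b hb => ?_
        by_cases ha0 : a = 0
        · subst ha0
          exact G0 b (Finset.ne_of_mem_erase hb)
        · exact Gm a b ha0 haT (Finset.ne_of_mem_erase hb) (Or.inl ha1)
  rw [Finset.sum_congr rfl fun a _ => S a,
    ← Finset.add_sum_erase _ _ (Finset.mem_univ (Fin.last T)), if_pos rfl,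
    Finset.sum_eq_single r1]
  · rw [if_neg h1T, if_pos rfl]
  · intro b hb hb1
    rw [if_neg (Finset.ne_of_mem_erase hb), if_neg hb1]
  · intro h
    exact absurd (Finset.mem_erase.mpr ⟨h1T, Finset.mem_univ _⟩) h


/-- The columns `x`, `y`, `z` and `2, …, T - 1`. -/
def colB (T x y z : ℕ) (hT : 2 ≤ T) (hx : x < 2 * T) (hy : y < 2 * T) (hz : z < 2 * T)
    (j : Fin (T + 1)) : Fin (2 * T) := ⟨cB T x y z j, cB_lt hT hx hy hz j⟩

/-- The corresponding element of the permanental ideal. -/
noncomputable def polB (k : Type*) [Field k] (T x y z : ℕ) (hT : 2 ≤ T) (hx : x < 2 * T)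
    (hy : y < 2 * T) (hz : z < 2 * T) : MvPolynomial (Fin (T + 1 + 2 * T - 1)) k :=
  ((hankelMatrix k (T + 1) (2 * T)).submatrix id (colB T x y z hT hx hy hz)).permanent

theorem polB_mem (T x y z : ℕ) (hT : 2 ≤ T) (hx : x < 2 * T)
    (hy : y < 2 * T) (hz : z < 2 * T) (hinj : Function.Injective (colB T x y z hT hx hy hz)) :
    polB k T x y z hT hx hy hz ∈ permIdeal (T + 1) (hankelMatrix k (T + 1) (2 * T)) :=
  permanent_mem_permIdeal _ id Function.injective_id _ hinj

theorem aeval_dd_polB (T x y z : ℕ) (hT : 2 ≤ T) (hx : x < 2 * T)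
    (hy : y < 2 * T) (hz : z < 2 * T) (q δ : ℕ → k) :
    aeval (fun i : Fin (T + 1 + 2 * T - 1) => q i)
      (dd (fun i : Fin (T + 1 + 2 * T - 1) => δ i) (polB k T x y z hT hx hy hz)) =
    ∑ a : Fin (T + 1), ((hm q (fun i : Fin (T + 1) => i)
      (fun j => cB T x y z j)).updateRow a (fun j => δ (a + cB T x y z j))).permanent :=
  aeval_dd_permanent q δ id (colB T x y z hT hx hy hz)

theorem aeval_dd_dd_polB (T x y z : ℕ) (hT : 2 ≤ T) (hx : x < 2 * T)
    (hy : y < 2 * T) (hz : z < 2 * T) (q τ τ' : ℕ → k) :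
    aeval (fun i : Fin (T + 1 + 2 * T - 1) => q i)
      (dd (fun i : Fin (T + 1 + 2 * T - 1) => τ' i)
      (dd (fun i : Fin (T + 1 + 2 * T - 1) => τ i) (polB k T x y z hT hx hy hz))) =
    ∑ a : Fin (T + 1), ∑ b ∈ univ.erase a, (((hm q (fun i : Fin (T + 1) => i)
      (fun j => cB T x y z j)).updateRow a (fun j => τ (a + cB T x y z j))).updateRow b
      (fun j => τ' (b + cB T x y z j))).permanent :=
  aeval_dd_dd_permanent q τ τ' id (colB T x y z hT hx hy hz)

theorem exists_ext {N : ℕ} (δ : Fin N → k) : ∃ δ' : ℕ → k, δ = fun i : Fin N => δ' i := by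
  refine ⟨fun s => if h : s < N then δ ⟨s, h⟩ else 0, ?_⟩
  funext i
  change δ i = if h : (i : ℕ) < N then δ ⟨i, h⟩ else 0
  rw [dif_pos i.2]

/-- Region (B): `m = t = T + 1`, `n = 2t - 2 = 2T`, for `T ≥ 3`. -/
theorem not_prime_middle (h2 : (2 : k) ≠ 0) {T : ℕ} (hT : 3 ≤ T) :
    ¬ (permIdeal (T + 1) (hankelMatrix k (T + 1) (2 * T))).IsPrime := by
  intro hp
  have hbig := hankel_big (k := k) (m := T + 1) (n := 2 * T) (T := T) (by omega) le_rfl
    (by omega) hp
  set P := permIdeal (T + 1) (hankelMatrix k (T + 1) (2 * T)) with hP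
  have hT2 : 2 ≤ T := by omega
  have hq : ∀ f ∈ P, aeval (fun i : Fin (T + 1 + 2 * T - 1) => seqA k T i) f = 0 := by
    intro f hf
    refine aeval_eq_zero_of_mem (seqA k T) (fun r c => ?_) f hf
    have hr : ∀ i, r i = i := by
      intro i
      have := strictMono_fin_eq_id r r.strictMono
      exact congrFun this i
    refine seqA_perm_zero h2 (by omega) (n := 2 * T) le_rfl (fun i => (r i : ℕ))
      (fun j => (c j : ℕ)) (fun j => (c j).2) (fun j j' h => c.injective (Fin.ext h)) 0
      (Fin.last T) (by simp [hr]) (by simp [hr]) _ (fun j => rfl) (fun j => rfl)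
  -- the family of polynomials with independent gradients
  let ι := Option (Fin (T - 1) × Bool)
  let g : ι → MvPolynomial (Fin (T + 1 + 2 * T - 1)) k := fun a => match a with
    | none => polB k T 0 T 1 hT2 (by omega) (by omega) (by omega)
    | some (κ, false) => polB k T 0 (κ + 1 + T) 1 hT2 (by omega)
        (by have := κ.2; omega) (by omega)
    | some (κ, true) => polB k T T (κ + 1 + T) 1 hT2 (by omega)
        (by have := κ.2; omega) (by omega)
  have hcolinj : ∀ (x y z : ℕ) (hx : x < 2 * T) (hy : y < 2 * T) (hz : z < 2 * T),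
      x ≠ y → x ≠ z → y ≠ z → (x < 2 ∨ T ≤ x) → T ≤ y → (z < 2 ∨ T ≤ z) →
      Function.Injective (colB T x y z hT2 hx hy hz) := by
    intro x y z hx hy hz hxy hxz hyz hx' hy' hz' j j' hjj'
    have h1 := j.2
    have h3 := j'.2
    have h4 := congrArg Fin.val hjj'
    simp only [colB, cB] at h4
    apply Fin.ext
    split_ifs at h4 <;> omega
  have hg : ∀ a, g a ∈ P := by
    intro a
    match a with
    | none => exact polB_mem _ _ _ _ _ _ _ _ (hcolinj _ _ _ _ _ _ (by omega) (by omega)
        (by omega) (by omega) (by omega) (by omega))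
    | some (κ, false) => exact polB_mem _ _ _ _ _ _ _ _ (hcolinj _ _ _ _ _ _ (by omega)
        (by omega) (by omega) (by omega) (by omega) (by omega))
    | some (κ, true) => exact polB_mem _ _ _ _ _ _ _ _ (hcolinj _ _ _ _ _ _ (by omega)
        (by omega) (by omega) (by omega) (by omega) (by omega))
  -- the gradients
  have e1 : seqA k T (T + 0) = 1 := by
    simp only [seqA]; split_ifs <;> first | rfl | omega
  have e2 : seqA k T (T + T) = -1 := by
    simp only [seqA]; split_ifs <;> first | rfl | omega
  have e3 : seqA k T (T - 1 + 1) = 1 := by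
    simp only [seqA]; split_ifs <;> first | rfl | omega
  have e4 : seqA k T (T - 1 + (1 + T)) = -1 := by
    simp only [seqA]; split_ifs <;> first | rfl | omega
  have gnone : ∀ δ : ℕ → k, aeval (fun i : Fin (T + 1 + 2 * T - 1) => seqA k T i)
      (dd (fun i : Fin (T + 1 + 2 * T - 1) => δ i) (g none)) =
      -δ 0 + 2 * δ T + δ (2 * T) := by
    intro δ
    refine (aeval_dd_polB T 0 T 1 _ _ _ _ _ _).trans ?_
    rw [grad_two h2 hT 1 (Or.inl rfl), e3, one_mul]
  have gfalse : ∀ (κ : Fin (T - 1)) (δ : ℕ → k),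
      aeval (fun i : Fin (T + 1 + 2 * T - 1) => seqA k T i)
      (dd (fun i : Fin (T + 1 + 2 * T - 1) => δ i) (g (some (κ, false)))) =
      (δ (κ + 1 + T) - δ (κ + 1)) + (δ (κ + 1 + 2 * T) - δ (κ + 1 + T)) := by
    intro κ δ
    refine (aeval_dd_polB T 0 (κ + 1 + T) 1 _ _ _ _ _ _).trans ?_
    rw [grad_one h2 hT 0 (κ + 1) (Or.inl rfl) (by omega) (by have := κ.2; omega), e1, one_mul]
  have gtrue : ∀ (κ : Fin (T - 1)) (δ : ℕ → k),
      aeval (fun i : Fin (T + 1 + 2 * T - 1) => seqA k T i)
      (dd (fun i : Fin (T + 1 + 2 * T - 1) => δ i) (g (some (κ, true)))) =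
      -(δ (κ + 1 + T) - δ (κ + 1)) + (δ (κ + 1 + 2 * T) - δ (κ + 1 + T)) := by
    intro κ δ
    refine (aeval_dd_polB T T (κ + 1 + T) 1 _ _ _ _ _ _).trans ?_
    rw [grad_one h2 hT T (κ + 1) (Or.inr rfl) (by omega) (by have := κ.2; omega), e2]
    ring
  -- the polynomial with vanishing gradient
  let h : MvPolynomial (Fin (T + 1 + 2 * T - 1)) k :=
    polB k T 0 T 1 hT2 (by omega) (by omega) (by omega) +
    polB k T 0 T (1 + T) hT2 (by omega) (by omega) (by omega)
  have key := second_order' P hbig (fun i : Fin (T + 1 + 2 * T - 1) => seqA k T i) hq g hg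
    (by
      intro c hc
      have hc' : ∀ δ : ℕ → k, c none * (-δ 0 + 2 * δ T + δ (2 * T)) +
          ∑ κ : Fin (T - 1), (c (some (κ, true)) *
            (-(δ (κ + 1 + T) - δ (κ + 1)) + (δ (κ + 1 + 2 * T) - δ (κ + 1 + T))) +
            c (some (κ, false)) *
            ((δ (κ + 1 + T) - δ (κ + 1)) + (δ (κ + 1 + 2 * T) - δ (κ + 1 + T)))) = 0 := by
        intro δ
        have h3 := hc (fun i => δ i)
        rw [Fintype.sum_option, Fintype.sum_prod_type, gnone] at h3
        simp only [Fintype.sum_bool, gfalse, gtrue] at h3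
        exact h3
      have hnone : c none = 0 := by
        have h3 := hc' (fun s => if s = 0 then 1 else 0)
        rw [Finset.sum_eq_zero] at h3
        · simp only [if_true] at h3
          rw [if_neg (by omega), if_neg (by omega)] at h3
          linear_combination -h3
        · intro κ _
          have := κ.2
          rw [if_neg (by omega), if_neg (by omega), if_neg (by omega)]
          ring
      have hpair : ∀ κ : Fin (T - 1), c (some (κ, true)) - c (some (κ, false)) = 0 ∧
          c (some (κ, true)) + c (some (κ, false)) = 0 := by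
        intro κ
        have hκ := κ.2
        constructor
        · have h3 := hc' (fun s => if s = κ + 1 then 1 else 0)
          rw [hnone, zero_mul, zero_add, Finset.sum_eq_single κ] at h3
          · simp only [if_true] at h3
            rw [if_neg (by omega), if_neg (by omega)] at h3
            linear_combination h3
          · intro κ' _ hne
            have := κ'.2
            have hne' : (κ' : ℕ) ≠ κ := fun h => hne (Fin.ext h)
            rw [if_neg (by omega), if_neg (by omega), if_neg (by omega)]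
            ring
          · intro h; exact absurd (Finset.mem_univ _) h
        · have h3 := hc' (fun s => if s = κ + 1 + 2 * T then 1 else 0)
          rw [hnone, zero_mul, zero_add, Finset.sum_eq_single κ] at h3
          · simp only [if_true] at h3
            rw [if_neg (by omega), if_neg (by omega)] at h3
            linear_combination h3
          · intro κ' _ hne
            have := κ'.2
            have hne' : (κ' : ℕ) ≠ κ := fun h => hne (Fin.ext h)
            rw [if_neg (by omega), if_neg (by omega), if_neg (by omega)]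
            ring
          · intro h; exact absurd (Finset.mem_univ _) h
      funext a
      match a with
      | none => exact hnone
      | some (κ, true) =>
        have h4 : (2 : k) * c (some (κ, true)) = 0 := by
          linear_combination (hpair κ).1 + (hpair κ).2
        exact (mul_eq_zero.mp h4).resolve_left h2
      | some (κ, false) =>
        have h4 : (2 : k) * c (some (κ, false)) = 0 := by
          linear_combination (hpair κ).2 - (hpair κ).1
        exact (mul_eq_zero.mp h4).resolve_left h2)
    (by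
      simp only [ι, Fintype.card_option, Fintype.card_prod, Fintype.card_fin, Fintype.card_bool]
      omega)
    (fun i => tau1 k T i) (fun i => tau2 k T i)
    (by
      intro a
      match a with
      | none =>
        rw [gnone]
        simp only [tau1]
        rw [if_neg (by omega), if_neg (by omega), if_neg (by omega)]
        ring
      | some (κ, false) =>
        have := κ.2
        rw [gfalse]
        simp only [tau1]
        split_ifs <;> first | omega | norm_num
      | some (κ, true) =>
        have := κ.2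
        rw [gtrue]
        simp only [tau1]
        split_ifs <;> first | omega | norm_num)
    (by
      intro a
      match a with
      | none =>
        rw [gnone]
        simp only [tau2]
        rw [if_neg (by omega), if_neg (by omega), if_neg (by omega)]
        ring
      | some (κ, false) =>
        have := κ.2
        rw [gfalse]
        simp only [tau2]
        split_ifs <;> first | omega | norm_num
      | some (κ, true) =>
        have := κ.2
        rw [gtrue]
        simp only [tau2]
        split_ifs <;> first | omega | norm_num)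
    h
    (by
      refine Ideal.add_mem _ (polB_mem _ _ _ _ _ _ _ _ (hcolinj _ _ _ _ _ _ (by omega) (by omega)
        (by omega) (by omega) (by omega) (by omega))) (polB_mem _ _ _ _ _ _ _ _
        (hcolinj _ _ _ _ _ _ (by omega) (by omega) (by omega) (by omega) (by omega) (by omega))))
    (by
      intro δ
      obtain ⟨δ, rfl⟩ := exists_ext δ
      simp only [h, map_add]
      rw [aeval_dd_polB, aeval_dd_polB, grad_two h2 hT 1 (Or.inl rfl),
        grad_two h2 hT (1 + T) (Or.inr rfl), e3, e4]
      ring)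
  simp only [h, map_add] at key
  rw [aeval_dd_dd_polB, aeval_dd_dd_polB, hess_value h2 hT 1 (Or.inl rfl),
    hess_value h2 hT (1 + T) (Or.inr rfl), e3, e4] at key
  have h4 : (2 : k) * 2 = 0 := by linear_combination key
  rcases mul_eq_zero.mp h4 with h5 | h5 <;> exact h2 h5

end middle

end Pool.Agent.HankelPerm
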