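import Pool.Agent.HankelPerm.CaseB

/-!
The region `a ≥ 2`, second case: elimination and conclusion.
-/

namespace Pool.Agent.HankelPerm

open Matrix Finset Equiv MvPolynomial Pool.Agent.H32

namespace CaseB

section elim

variable {k : Type*} [Field k] (h2 : (2 : k) ≠ 0) {b p f w : ℕ} (hf : p ≤ f) (hb : f + 2 ≤ b)
  (δ : ℕ → k)
  (hPC : ∀ α β, α ≤ p → IsC b p f β → ∀ q, δ (α + yx b p β + q * b) = 0)
  (hC : ∀ α y i, IsC b p f α → y ≤ f → i ≤ w + 1 →
    ∑ j ∈ range (w + 2), δ (α + y + (i + j) * b) = 0)
  (hC' : ∀ α y i, IsC b p f α → y ≤ p → i ≤ w + 1 → δ (α + y + (i + (w + 2)) * b) = 0)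
  (hR : ∀ y, p < y → y ≤ f → ∑ j ∈ range (w + 2), δ (y + (w + 2 + j) * b) = 0)
  (hOwnC : ∀ α, IsC b p f α → ∑ i ∈ range (w + 2), ∑ j ∈ range (w + 2),
    (if j ≤ i then (1 : k) else -1) *
      δ (α + lev p w α i * b + (yx b p α + cl α j * b)) = 0)
  (hOwnP : ∀ α, α ≤ p → ∑ i ∈ range (w + 3), ∑ j ∈ range (w + 3),
      (if i = 0 then (if j = w + 2 then (2 : k) else 0) else
        if j = w + 2 then 0 else if j ≤ i then 1 else -1) *
      δ (α + lev p w α i * b + (yx b p α + cl α j * b)) = 0)
  (hN : ∀ s, (2 * w + 4) * b + p + 1 ≤ s → δ s = 0)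
  (hS : ∀ s < p, δ s = 0) (hP0 : δ p = 0)
  (hP : ∀ q, 2 ≤ q → q ≤ 2 * w + 3 → δ (p + q * b) = 0)
  (hM : ∀ σ q, 2 * p + 2 ≤ σ → σ ≤ f → w + 3 ≤ q → q ≤ 2 * w + 3 → δ (σ + q * b) = 0)

include hf hb in
theorem isC_succ : IsC b p f (p + 1) := by
  unfold IsC; omega

include hf hb

include hOwnC hP in
theorem elim_p1 : δ (p + 1 * b) = 0 := by
  have h1 := hOwnC (p + 1) (isC_succ hf hb)
  have l0 : ∀ i, lev p w (p + 1) i = w + 1 - i := fun i => by
    rw [lev, if_neg (by omega)]
  have y0 : yx b p (p + 1) = b - 1 := by rw [yx, if_neg (by omega)]; omega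
  have e : ∀ u v, p + 1 + u * b + (b - 1 + v * b) = p + (u + v + 1) * b := by
    intro u v
    rw [add_mul, add_mul]; omega
  simp only [l0, cl, y0, e] at h1
  rw [Finset.sum_eq_single (w + 1), Finset.sum_eq_single 0] at h1
  · rw [if_pos (Nat.zero_le _), one_mul, show w + 1 - (w + 1) + 0 + 1 = 1 by omega] at h1
    exact h1
  · intro j hj hj0
    rw [mem_range] at hj
    rw [hP (w + 1 - (w + 1) + j + 1) (by omega) (by omega), mul_zero]
  · intro h; rw [mem_range] at h; omega
  · intro i hi hi0
    rw [mem_range] at hi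
    refine Finset.sum_eq_zero fun j hj => ?_
    rw [mem_range] at hj
    rw [hP (w + 1 - i + j + 1) (by omega) (by omega), mul_zero]
  · intro h; rw [mem_range] at h; omega

include hOwnC hOwnP hP0 hP h2 in
theorem elim_plast : δ (p + (2 * w + 4) * b) = 0 := by
  have hp1 := elim_p1 hf hb δ hOwnC hP
  have hall : ∀ q, q ≤ 2 * w + 3 → δ (p + q * b) = 0 := by
    intro q hq
    rcases Nat.lt_or_ge q 2 with h | h
    · rcases Nat.eq_zero_or_pos q with h3 | h3
      · subst h3
        rw [zero_mul, add_zero]; exact hP0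
      · have : q = 1 := by omega
        subst this
        exact hp1
    · exact hP q h hq
  have h1 := hOwnP 0 (by omega)
  have l0 : ∀ i, lev p w 0 i = w + 2 - i := fun i => by
    rw [lev, if_pos (by omega)]
  have y0 : yx b p 0 = p := by rw [yx, if_pos (by omega)]; omega
  have e : ∀ u v, 0 + u * b + (p + v * b) = p + (u + v) * b := by
    intro u v
    rw [add_mul]; omega
  simp only [l0, cl, y0, e] at h1
  rw [Finset.sum_eq_single 0, Finset.sum_eq_single (w + 2)] at h1
  · rw [if_pos rfl, if_pos rfl, show w + 2 - 0 + (w + 2) = 2 * w + 4 by omega] at h1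
    exact (mul_eq_zero.mp h1).resolve_left h2
  · intro j hj hj0
    rw [mem_range] at hj
    rw [hall (w + 2 - 0 + j) (by omega), mul_zero]
  · intro h; rw [mem_range] at h; omega
  · intro i hi hi0
    rw [mem_range] at hi
    refine Finset.sum_eq_zero fun j hj => ?_
    rw [mem_range] at hj
    rw [hall (w + 2 - i + j) (by omega), mul_zero]
  · intro h; rw [mem_range] at h; omega

include h2 hPC hC hC' hR hOwnC hOwnP hN hS hP0 hP hM

theorem elim_all (s : ℕ) : δ s = 0 := by
  have hb0 : 0 < b := by omega
  have hr : s % b < b := Nat.mod_lt _ hb0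
  have hs : s % b + s / b * b = s := by rw [mul_comm, Nat.mod_add_div]
  have hmul : ∀ x y : ℕ, x ≤ y → x * b ≤ y * b := fun x y h => Nat.mul_le_mul_right b h
  have e5 : (2 * w + 5) * b = (2 * w + 4) * b + b := by ring
  rw [← hs]
  set r := s % b with hrdef
  set q := s / b with hqdef
  clear_value r q
  -- the tail
  have htail : ∀ q, p < r → 2 * w + 4 ≤ q → δ (r + q * b) = 0 := by
    intro q h1 h3
    apply hN
    have := hmul _ _ h3
    omega
  rcases Nat.lt_trichotomy r p with h | h | h
  · rcases Nat.eq_zero_or_pos q with h1 | h1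
    · subst h1
      rw [zero_mul, add_zero]
      exact hS r h
    · obtain ⟨e, rfl⟩ : ∃ e, q = e + 1 := ⟨q - 1, by omega⟩
      have h3 := hPC (r + 1) (p + 1) (by omega) (isC_succ hf hb) e
      rw [yx, if_neg (by omega)] at h3
      rw [← h3, add_mul]
      congr 1
      omega
  · subst h
    rcases Nat.lt_or_ge q (2 * w + 4) with h1 | h1
    · rcases Nat.lt_or_ge q 2 with h3 | h3
      · rcases Nat.eq_zero_or_pos q with h4 | h4
        · subst h4
          rw [zero_mul, add_zero]; exact hP0
        · have : q = 1 := by omega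
          subst this
          exact elim_p1 hf hb δ hOwnC hP
      · exact hP q h3 (by omega)
    · rcases Nat.lt_or_ge q (2 * w + 5) with h3 | h3
      · have : q = 2 * w + 4 := by omega
        subst this
        exact elim_plast h2 hf hb δ hOwnC hOwnP hP0 hP
      · apply hN
        have := hmul _ _ h3
        omega
  · rcases Nat.lt_or_ge f r with hfr | hfr
    · -- `r > f`
      have h3 := hPC 0 (p + b - r) (by omega) (by unfold IsC; omega) q
      rw [yx, if_neg (by omega)] at h3
      rw [← h3]
      congr 1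
      omega
    -- windows
    have hwin : ∀ i ≤ w + 1, ∑ j ∈ range (w + 2), δ (r + (i + j) * b) = 0 := by
      intro i hi
      have h3 := hC (p + 1) (r - (p + 1)) i (isC_succ hf hb) (by omega) hi
      rw [← h3]
      refine Finset.sum_congr rfl fun j _ => ?_
      congr 2
      omega
    have hhigh : ∀ q, w + 2 ≤ q → δ (r + q * b) = 0 := by
      intro q hq
      rcases Nat.lt_or_ge q (2 * w + 4) with h1 | h1
      · rcases Nat.lt_or_ge r (2 * p + 2) with h3 | h3
        · have h4 := hC' (p + 1) (r - (p + 1)) (q - (w + 2)) (isC_succ hf hb) (by omega) (by omega)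
          rw [← h4, Nat.sub_add_cancel hq]
          congr 2
          omega
        · rcases Nat.lt_or_ge q (w + 3) with h4 | h4
          · have : q = w + 2 := by omega
            subst this
            have h5 := hR r h hfr
            rw [sum_range_succ', Finset.sum_eq_zero, zero_add, add_zero] at h5
            · exact h5
            · intro j hj
              rw [mem_range] at hj
              exact hM r _ h3 hfr (by omega) (by omega)
          · exact hM r q h3 hfr h4 (by omega)
      · exact htail q h h1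
    exact down_lemma (fun q => δ (r + q * b)) (w + 1) (w + 2) 0 hhigh
      (fun q _ hq => hwin q (by omega)) q (Nat.zero_le _)

end elim

section final

variable {k : Type*} [Field k]

theorem not_prime (h2 : (2 : k) ≠ 0) {b p f w : ℕ} (hf : p ≤ f) (hb : f + 2 ≤ b) :
    ¬ (permIdeal ((w + 1) * b + f + 1 + 1)
      (hankelMatrix k ((w + 2) * b + p + 1) ((w + 2) * b + f + 1))).IsPrime := by
  intro hPr
  have e1 : (w + 1) * b = w * b + b := by ring
  have e2 : (w + 2) * b = w * b + 2 * b := by ring
  have e3 : (2 * w + 4) * b = w * b + w * b + 4 * b := by ring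
  set n := (w + 2) * b + f + 1 with hn
  -- the point
  have hq : ∀ g ∈ permIdeal ((w + 1) * b + f + 1 + 1) (hankelMatrix k ((w + 2) * b + p + 1) n),
      aeval (fun i : Fin ((w + 2) * b + p + 1 + n - 1) => pt b p w k i) g = 0 := by
    refine mem_of_classes (a := b + p - f) (b := b) (pt b p w k) (by omega)
      ((range b).filter (fun x => x ≤ p ∨ IsC b p f x)) (by omega) ?_ ?_ (rho p w) (lev p w)
      ?_ ?_ ?_
    · have : (range b).filter (fun x => x ≤ p ∨ IsC b p f x) = range (b + p - f) := by
        ext x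
        simp only [mem_filter, mem_range, IsC]
        omega
      rw [this, card_range]
    · intro x hx
      exact mem_range.mp (Finset.mem_filter.mp hx).1
    · intro x _
      exact lev_inj x
    · intro x hx z hz
      exact lev_lt (mem_range.mp (Finset.mem_filter.mp hx).1) hz
    · intro x hx
      obtain ⟨h3, h4⟩ := Finset.mem_filter.mp hx
      rcases h4 with h4 | h4
      · rw [rho, if_pos h4, ← prod_zpR (v := clW k n b p cl x) (fun s => clW_sq x s) (w := w)]
        refine Finset.prod_congr rfl fun z hz => ?_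
        rw [mem_range] at hz
        exact row_P hf hb hn h4 (by omega)
      · rw [rho, if_neg (by unfold IsC at h4; omega),
          ← prod_cyR (v := clW k n b p cl x) (fun s => clW_sq x s) (L := w + 1)]
        refine Finset.prod_congr rfl fun z hz => ?_
        rw [mem_range] at hz
        exact row_C hf hb hn h4 (by omega)
  -- the free coordinates
  set S1 := (range (2 * w + 2)).image (fun q => p + (q + 2) * b) with hS1
  set S2 := Ico ((2 * w + 4) * b + p + 1) ((2 * w + 4) * b + p + 1 + f) with hS2
  set S3 := ((Ico (2 * p + 2) (f + 1)) ×ˢ (range (w + 1))).image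
    (fun x => x.1 + (x.2 + (w + 3)) * b) with hS3
  have hcard : ((range (p + 1) ∪ S1) ∪ (S2 ∪ S3)).card ≤ (w + 1) * b + f + 1 := by
    have h3 : S1.card ≤ 2 * w + 2 := by
      refine Finset.card_image_le.trans ?_
      rw [card_range]
    have h4 : S2.card = f := by
      rw [hS2, Nat.card_Ico]
      omega
    have h5 : S3.card ≤ (f + 1 - (2 * p + 2)) * (w + 1) := by
      refine Finset.card_image_le.trans ?_
      rw [card_product, Nat.card_Ico, card_range]
    have h6 := Finset.card_union_le (range (p + 1) ∪ S1) (S2 ∪ S3)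
    have h7 := Finset.card_union_le (range (p + 1)) S1
    have h8 := Finset.card_union_le S2 S3
    rw [card_range] at h7
    rcases Nat.lt_or_ge f (2 * p + 2) with h9 | h9
    · rw [show f + 1 - (2 * p + 2) = 0 by omega, zero_mul] at h5
      have h10 : w * (p + 2) ≤ w * b := Nat.mul_le_mul_left w (by omega)
      have h11 : w * (p + 2) = w * p + 2 * w := by ring
      have : 0 ≤ w * p := Nat.zero_le _
      omega
    · obtain ⟨g, rfl⟩ : ∃ g, f = 2 * p + 1 + g := ⟨f - (2 * p + 1), by omega⟩
      rw [show 2 * p + 1 + g + 1 - (2 * p + 2) = g by omega] at h5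
      have h10 : (w + 1) * (2 * p + 1 + g + 2) ≤ (w + 1) * b := Nat.mul_le_mul_left _ hb
      have h11 : (w + 1) * (2 * p + 1 + g + 2) = 2 * (w * p) + 3 * w + 2 * p + 3 + g * (w + 1) := by
        ring
      have : 0 ≤ w * p := Nat.zero_le _
      omega
  obtain ⟨δ, ⟨s0, hs0, hne⟩, hN, hS, hδ⟩ := exists_delta (m := (w + 2) * b + p + 1) (n := n)
    (T := (w + 1) * b + f + 1) (by omega) (by omega) (by omega) hPr (pt b p w k) hq
    ((range (p + 1) ∪ S1) ∪ (S2 ∪ S3)) hcard
  have hN' : ∀ s, (2 * w + 4) * b + p + 1 ≤ s → δ s = 0 := by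
    intro s hs
    rcases Nat.lt_or_ge s ((2 * w + 4) * b + p + 1 + f) with h | h
    · refine hS s (Finset.mem_union_right _ (Finset.mem_union_left _ ?_))
      rw [hS2, mem_Ico]
      exact ⟨hs, h⟩
    · exact hN s (by omega)
  apply hne
  refine elim_all h2 hf hb δ
    (fun α β hα hβ q => relPC hf hb hn δ hδ h2 hα hβ hN' q)
    (fun α y i hα hy hi => relC hf hb hn δ hδ h2 hα hy hi)
    (fun α y i hα hy hi => relC' hf hb hn δ hδ h2 hα hy hi)
    (fun y hy hyf => relP hf hb hn δ hδ h2 hy hyf)
    (fun α hα => relOwnC hf hb hn δ hδ hα)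
    (fun α hα => relOwnP hf hb hn δ hδ hα)
    hN'
    (fun s hs => hS s ?_) (hS p ?_)
    (fun q h3 h4 => hS _ ?_)
    (fun σ q h3 h4 h5 h6 => hS _ ?_) s0
  · exact Finset.mem_union_left _ (Finset.mem_union_left _ (mem_range.mpr (by omega)))
  · exact Finset.mem_union_left _ (Finset.mem_union_left _ (mem_range.mpr (by omega)))
  · refine Finset.mem_union_left _ (Finset.mem_union_right _ ?_)
    rw [hS1, mem_image]
    exact ⟨q - 2, mem_range.mpr (by omega), by rw [Nat.sub_add_cancel h3]⟩
  · refine Finset.mem_union_right _ (Finset.mem_union_right _ ?_)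
    rw [hS3, mem_image]
    refine ⟨(σ, q - (w + 3)), ?_, ?_⟩
    · rw [mem_product, mem_Ico, mem_range]
      simp only
      omega
    · simp only
      rw [Nat.sub_add_cancel h5]

end final

end CaseB

end Pool.Agent.HankelPerm
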