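import Pool.Agent.HankelPerm.CaseA
import Pool.Agent.HankelPerm.CaseBElim

/-!
Hankel matrices with at least `T + 2` rows and columns, and fewer than `2 (T + 1) - 1` columns: the
ideal of `(T + 1) × (T + 1)` permanents is not prime.
-/

namespace Pool.Agent.HankelPerm

open Pool.Agent.H32

theorem not_prime_two_le {k : Type*} [Field k] (h2 : (2 : k) ≠ 0) {T a b : ℕ} (ha : 2 ≤ a)
    (hab : a ≤ b) (hb : b ≤ T) :
    ¬ (permIdeal (T + 1) (hankelMatrix k (T + a) (T + b))).IsPrime := by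
  obtain ⟨Q, R, hR, rfl⟩ : ∃ Q R, R < b ∧ T = Q * b + R :=
    ⟨T / b, T % b, Nat.mod_lt _ (by omega), by rw [mul_comm, Nat.div_add_mod]⟩
  have hQ : 1 ≤ Q := by
    rcases Nat.eq_zero_or_pos Q with h | h
    · subst h; rw [zero_mul] at hb; omega
    · exact h
  obtain ⟨w, rfl⟩ : ∃ w, Q = w + 1 := ⟨Q - 1, by omega⟩
  have e2 : (w + 2) * b = (w + 1) * b + b := by ring
  rcases Nat.lt_or_ge b (R + a) with h | h
  · have h3 := CaseB.not_prime h2 (b := b) (p := R + a - b - 1) (f := R - 1) (w := w) (by omega)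
      (by omega)
    rwa [show (w + 1) * b + (R - 1) + 1 + 1 = (w + 1) * b + R + 1 by omega,
      show (w + 2) * b + (R + a - b - 1) + 1 = (w + 1) * b + R + a by omega,
      show (w + 2) * b + (R - 1) + 1 = (w + 1) * b + R + b by omega] at h3
  · have h3 := CaseA.not_prime h2 (b := b) (p := R + a - 2) (d := R) (w := w) (by omega)
      (by omega)
    rwa [show (w + 1) * b + (R + a - 2) + 2 = (w + 1) * b + R + a by omega,
      show (w + 2) * b + R = (w + 1) * b + R + b by omega] at h3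

theorem not_prime_ab {k : Type*} [Field k] (h2 : (2 : k) ≠ 0) {m n t : ℕ} (htm : t < m)
    (hmn : m ≤ n) (hn : n + 2 ≤ 2 * t) : ¬ (permIdeal t (hankelMatrix k m n)).IsPrime := by
  obtain ⟨T, rfl⟩ : ∃ T, t = T + 1 := ⟨t - 1, by omega⟩
  obtain ⟨a, rfl⟩ := Nat.exists_eq_add_of_le (show T ≤ m by omega)
  obtain ⟨b, rfl⟩ := Nat.exists_eq_add_of_le (show T ≤ n by omega)
  exact not_prime_two_le h2 (by omega) (by omega) (by omega)

end Pool.Agent.HankelPerm
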