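import Pool.Agent.HankelPerm.FewRows
import Pool.Agent.HankelPerm.Middle
import Pool.Agent.HankelPerm.LinkB
import Pool.Agent.HankelPerm.EvenMain
import Pool.Agent.HankelPerm.BOdd
import Pool.Agent.HankelPerm.TwoTwo

/-!
Assembly: the ideal of `t × t` permanents of the `m × n` Hankel matrix is not prime unless
`t = m = n`.
-/

namespace Pool.Agent.HankelPerm

open MvPolynomial Pool.Agent.H32

section comm

/-- The Hankel matrix with a prescribed number of variables. -/
noncomputable def hMat (k : Type*) [Field k] (m n N : ℕ) (hN : N = m + n - 1) :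
    Matrix (Fin m) (Fin n) (MvPolynomial (Fin N) k) :=
  Matrix.of fun i j => X ⟨i + j, by omega⟩

variable {k : Type*} [Field k]

theorem isPrime_hMat (m n t N N' : ℕ) (hN : N = m + n - 1) (hN' : N' = m + n - 1)
    (h : (permIdeal t (hMat k m n N hN)).IsPrime) : (permIdeal t (hMat k m n N' hN')).IsPrime := by
  subst hN
  subst hN'
  exact h

theorem isPrime_hankel_swap {m n t : ℕ} (h : (permIdeal t (hankelMatrix k m n)).IsPrime) :
    (permIdeal t (hankelMatrix k n m)).IsPrime := by
  have h1 : hankelMatrix k n m = (hMat k m n (n + m - 1) (by omega)).transpose := by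
    ext i j
    simp only [hankelMatrix, hMat, Matrix.of_apply, Matrix.transpose_apply]
    congr 2
    apply Fin.ext
    simp only
    omega
  rw [h1, permIdeal_transpose]
  exact isPrime_hMat m n t (m + n - 1) (n + m - 1) rfl (by omega) h

end comm

variable {k : Type*} [Field k]

/-- The case `m = t`, `n = t + 1`. -/
theorem not_prime_b2 (h2 : (2 : k) ≠ 0)
    (hsmall : ∀ t, (t = 3 ∨ t = 4 ∨ t = 5 ∨ t = 7 ∨ t = 9) →
      ¬ (permIdeal t (hankelMatrix k t (t + 1))).IsPrime) {t : ℕ} (ht : 3 ≤ t) :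
    ¬ (permIdeal t (hankelMatrix k t (t + 1))).IsPrime := by
  rcases Nat.even_or_odd t with he | ho
  · rcases Nat.lt_or_ge t 6 with h | h
    · have : t = 4 := by
        obtain ⟨r, hr⟩ := he
        omega
      exact hsmall t (Or.inr (Or.inl this))
    · exact not_prime_even h2 he h
  · rcases Nat.lt_or_ge t 11 with h | h
    · have : t = 3 ∨ t = 5 ∨ t = 7 ∨ t = 9 := by
        obtain ⟨r, hr⟩ := ho
        omega
      exact hsmall t (by tauto)
    · exact BOdd.not_prime h2 ho h

/-- The case `m = t`. -/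
theorem not_prime_maximal (h2 : (2 : k) ≠ 0)
    (hsmall : ∀ t, (t = 3 ∨ t = 4 ∨ t = 5 ∨ t = 7 ∨ t = 9) →
      ¬ (permIdeal t (hankelMatrix k t (t + 1))).IsPrime) {t n : ℕ} (ht : 2 ≤ t) (hn : t < n) :
    ¬ (permIdeal t (hankelMatrix k t n)).IsPrime := by
  rcases Nat.lt_or_ge n (2 * t - 1) with h | h
  · rcases Nat.lt_or_ge n (2 * t - 2) with h' | h'
    · rcases Nat.lt_or_ge n (t + 2) with h'' | h''
      · obtain rfl : n = t + 1 := by omega
        exact not_prime_b2 h2 hsmall (by omega)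
      · exact not_prime_link h2 (b := n + 1 - t) (by omega) (by omega) (by omega)
    · obtain rfl : n = 2 * t - 2 := by omega
      rcases Nat.lt_or_ge t 4 with h'' | h''
      · have : t = 3 := by omega
        subst this
        exact hsmall 3 (Or.inl rfl)
      · obtain ⟨T, rfl⟩ : ∃ T, t = T + 1 := ⟨t - 1, by omega⟩
        rw [show 2 * (T + 1) - 2 = 2 * T by omega]
        exact not_prime_middle h2 (by omega)
  · obtain ⟨T, rfl⟩ : ∃ T, t = T + 1 := ⟨t - 1, by omega⟩
    exact not_prime_of_two_mul_le h2 (by omega) le_rfl (by omega)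

/-- Everything, from the remaining cases. -/
theorem not_prime_le (h2 : (2 : k) ≠ 0)
    (hsmall : ∀ t, (t = 3 ∨ t = 4 ∨ t = 5 ∨ t = 7 ∨ t = 9) →
      ¬ (permIdeal t (hankelMatrix k t (t + 1))).IsPrime)
    {m n t : ℕ} (ht : 2 ≤ t) (htm : t ≤ m) (hmn : m ≤ n) (hne : ¬ (t = m ∧ m = n)) :
    ¬ (permIdeal t (hankelMatrix k m n)).IsPrime := by
  rcases Nat.lt_or_ge n (2 * t - 1) with h | h
  · rcases Nat.eq_or_lt_of_le htm with h' | h'
    · subst h'
      exact not_prime_maximal h2 hsmall ht (by omega)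
    · exact not_prime_ab h2 h' hmn (by omega)
  · obtain ⟨T, rfl⟩ : ∃ T, t = T + 1 := ⟨t - 1, by omega⟩
    exact not_prime_of_two_mul_le h2 (by omega) htm (by omega)

/-- `P_t` is prime iff `t = m = n`. -/
theorem hankel_iff_aux (h2 : (2 : k) ≠ 0)
    (hsmall : ∀ t, (t = 3 ∨ t = 4 ∨ t = 5 ∨ t = 7 ∨ t = 9) →
      ¬ (permIdeal t (hankelMatrix k t (t + 1))).IsPrime)
    {m n t : ℕ} (ht : 2 ≤ t) (htm : t ≤ m) (htn : t ≤ n) :
    (permIdeal t (hankelMatrix k m n)).IsPrime ↔ t = m ∧ m = n := by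
  constructor
  · intro hp
    by_contra hne
    rcases Nat.le_total m n with h | h
    · exact not_prime_le h2 hsmall ht htm h hne hp
    · exact not_prime_le h2 hsmall ht htn h (by omega) (isPrime_hankel_swap hp)
  · rintro ⟨rfl, rfl⟩
    exact isPrime_of_irreducible _ (hankel_irreducible t (by omega))

end Pool.Agent.HankelPerm
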