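import Mathlib

/-!
Identities modulo squares for the family `m = t`, `n = t + 1`, `t` odd.
-/

set_option linter.unusedVariables false

namespace Pool.Agent.HankelPerm.BOdd

variable {A : Type*} [CommRing A]

/-- Relations between the end variables `v1`, `ve` of a path, its product `a` and the product `M`
of its variables. -/
structure Whole (p q w v0 v1 ve a M : A) : Prop where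
  hp : p * p = 0
  hq : q * q = 0
  hw : w * w = 0
  h0 : v0 * v0 = 0
  h1 : v1 * a = M
  he : ve * a = M
  h1M : v1 * M = 0
  heM : ve * M = 0

/-- The same for a path with a missing edge `vk, vk1`. -/
structure Split (p q w v0 v1 ve vk vk1 P1 P2 M1 M2 : A) : Prop where
  hp : p * p = 0
  hq : q * q = 0
  hw : w * w = 0
  h0 : v0 * v0 = 0
  h1 : v1 * P1 = M1
  hk : vk * P1 = M1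
  hk1 : vk1 * P2 = M2
  he : ve * P2 = M2
  h1M : v1 * M1 = 0
  hkM : vk * M1 = 0
  hk1M : vk1 * M2 = 0
  heM : ve * M2 = 0

variable {p q w v0 v1 ve vk vk1 a M P1 P2 M1 M2 x y : A}

theorem A1G_p (W : Whole p q w v0 v1 ve a M) :
    p * ((v0 - p) * ((v0 + v1 - q) * a * (ve + w + p) * (w + q))) = 0 := by
  linear_combination (-a*p*q*v0 -a*p*q*v1 +a*p*q*w +a*p*q^2 -a*p*v0*w -a*p*v1*w +a*q*v0*v1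
    -a*q*v0*ve -2*a*q*v0*w +a*q*v0^2 -a*q*v1*ve -a*q*v1*w +a*q*ve*w +a*q*w^2 -a*q^2*v0 +a*q^2*ve
    +a*q^2*w +a*v0*v1*w -a*v0*ve*w -a*v0*w^2 +a*v0^2*w -a*v1*ve*w -a*v1*w^2) * W.hp +
    (-a*p*v0*ve -a*p*v0*w) * W.hq + (-a*p*q*v0 +a*p*v0*v1 +a*p*v0^2) * W.hw + (a*p*q*ve +a*p*q*w
    +a*p*ve*w) * W.h0 + (p*q*v0 +p*v0*w) * W.heM + (p*q*v0*ve +p*q*v0*w +p*v0*ve*w) * W.h1 +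
    (-p*q*v0*w) * W.he

theorem A1G_q (W : Whole p q w v0 v1 ve a M) :
    q * ((v0 - p) * ((v0 + v1 - q) * a * (ve + w + p) * (w + q))) = 0 := by
  linear_combination (-a*q*v0*w -a*q*v1*w -a*q^2*v0 -a*q^2*v1 +a*q^2*w +a*q^3) * W.hp +
    (-a*p*q*v0 +a*p*q*ve +a*p*q*w +a*p*v0*v1 -a*p*v0*ve -2*a*p*v0*w +a*p*v0^2 -a*p*v1*ve
    -a*p*v1*w +a*p*ve*w +a*p*w^2 -a*q*v0*ve -a*q*v0*w +a*v0*v1*ve +a*v0*v1*w -a*v0*ve*w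
    -a*v0*w^2 +a*v0^2*ve +a*v0^2*w) * W.hq + (-a*p*q*v0 -a*p*q*v1 +a*q*v0*v1 +a*q*v0^2) * W.hw +
    (a*p*q*w +a*q*ve*w) * W.h0 + (-p*q*w +q*v0*w) * W.heM + (p*q*v0*w -p*q*ve*w +q*v0*ve*w) *
    W.h1 + (-p*q*v0*w) * W.he

theorem A1G_v0 (W : Whole p q w v0 v1 ve a M) :
    v0 * ((v0 - p) * ((v0 + v1 - q) * a * (ve + w + p) * (w + q))) = 0 := by
  linear_combination (-a*q*v0*v1 +a*q*v0*w -a*q*v0^2 +a*q^2*v0 -a*v0*v1*w -a*v0^2*w) * W.hp +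
    (a*p*v0*ve +a*p*v0*w -a*p*v0^2 -a*v0^2*ve -a*v0^2*w) * W.hq + (a*p*q*v0 -a*p*v0*v1 -a*p*v0^2
    -a*q*v0^2 +a*v0^2*v1 +a*v0^3) * W.hw + (a*p*q*v0 +a*p*q*v1 -a*p*q*ve -2*a*p*q*w +a*p*v0*w
    +a*p*v1*w -a*p*ve*w +a*q*v0*ve +a*q*v0*w +a*q*v1*ve +a*q*v1*w -a*q*ve*w +a*v0*ve*w
    +a*v1*ve*w) * W.h0 + (-p*q*v0 -p*v0*w) * W.heM + (-p*q*v0*ve -p*q*v0*w -p*v0*ve*w) * W.h1 +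
    (p*q*v0*w) * W.he

theorem A1G_x (W : Whole p q w v0 v1 ve a M) (hx : x * a = M) (hxM : x * M = 0) :
    x * ((v0 - p) * ((v0 + v1 - q) * a * (ve + w + p) * (w + q))) = -(2 * (p * q * v0 * M * w))
      := by
  linear_combination (-a*q*v0*x -a*q*v1*x +a*q*w*x +a*q^2*x -a*v0*w*x -a*v1*w*x) * W.hp +
    (-a*p*v0*x +a*p*ve*x +a*p*w*x -a*v0*ve*x -a*v0*w*x) * W.hq + (a*p*q*x -a*p*v0*x -a*p*v1*x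
    -a*q*v0*x +a*v0*v1*x +a*v0^2*x) * W.hw + (a*p*q*x +a*p*w*x +a*q*ve*x +a*q*w*x +a*ve*w*x) *
    W.h0 + (p*q*v0 -p*q*ve -p*q*w +p*v0*w -p*ve*w +q*v0*ve +q*v0*w +v0*ve*w) * W.h1M + (-p*q*v0
    +p*q*w -p*v0*w -q*v0*w) * W.heM + (p*q*v0*v1 -p*q*v0*ve -2*p*q*v0*w -p*q*v1*ve -p*q*v1*w
    +p*q*ve*w +p*v0*v1*w -p*v0*ve*w -p*v1*ve*w +q*v0*v1*ve +q*v0*v1*w -q*v0*ve*w +v0*v1*ve*w) *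
    hx

theorem A1G_w (W : Whole p q w v0 v1 ve a M) :
    w * ((v0 - p) * ((v0 + v1 - q) * a * (ve + w + p) * (w + q))) = 0 := by
  linear_combination (-a*q*v0*w -a*q*v1*w +a*q*w^2 +a*q^2*w -a*v0*w^2 -a*v1*w^2) * W.hp +
    (-a*p*v0*w +a*p*ve*w +a*p*w^2 -a*v0*ve*w -a*v0*w^2) * W.hq + (-2*a*p*q*v0 -a*p*q*v1
    +a*p*q*ve +a*p*q*w +a*p*v0*v1 -a*p*v0*ve -a*p*v0*w +a*p*v0^2 -a*p*v1*ve -a*p*v1*w +a*q*v0*v1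
    -a*q*v0*ve -a*q*v0*w +a*q*v0^2 +a*v0*v1*ve +a*v0*v1*w +a*v0^2*ve +a*v0^2*w) * W.hw +
    (a*p*q*w +a*q*ve*w) * W.h0 + (-p*q*w +q*v0*w) * W.heM + (p*q*v0*w -p*q*ve*w +q*v0*ve*w) *
    W.h1 + (-p*q*v0*w) * W.he

theorem IG_p (W : Whole p q w v0 v1 ve a M) :
    p * ((p + v0) * ((v0 + v1 - q) * a * (ve + w + p) * (w + q))) = 0 := by
  linear_combination (a*p*q*v0 +a*p*q*v1 -a*p*q*w -a*p*q^2 +a*p*v0*w +a*p*v1*w +a*q*v0*v1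
    +a*q*v0*ve +a*q*v0^2 +a*q*v1*ve +a*q*v1*w -a*q*ve*w -a*q*w^2 -a*q^2*v0 -a*q^2*ve -a*q^2*w
    +a*v0*v1*w +a*v0*ve*w +a*v0*w^2 +a*v0^2*w +a*v1*ve*w +a*v1*w^2) * W.hp + (-a*p*v0*ve
    -a*p*v0*w) * W.hq + (-a*p*q*v0 +a*p*v0*v1 +a*p*v0^2) * W.hw + (a*p*q*ve +a*p*q*w +a*p*ve*w)
    * W.h0 + (p*q*v0 +p*v0*w) * W.heM + (p*q*v0*ve +p*q*v0*w +p*v0*ve*w) * W.h1 + (-p*q*v0*w) *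
    W.he

theorem IG_q (W : Whole p q w v0 v1 ve a M) :
    q * ((p + v0) * ((v0 + v1 - q) * a * (ve + w + p) * (w + q))) = 2 * (p * q * v0 * M * w) := by
  linear_combination (a*q*v0*w +a*q*v1*w +a*q^2*v0 +a*q^2*v1 -a*q^2*w -a*q^3) * W.hp +
    (-a*p*q*v0 -a*p*q*ve -a*p*q*w +a*p*v0*v1 +a*p*v0*ve +a*p*v0^2 +a*p*v1*ve +a*p*v1*w -a*p*ve*w
    -a*p*w^2 -a*q*v0*ve -a*q*v0*w +a*v0*v1*ve +a*v0*v1*w -a*v0*ve*w -a*v0*w^2 +a*v0^2*ve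
    +a*v0^2*w) * W.hq + (a*p*q*v0 +a*p*q*v1 +a*q*v0*v1 +a*q*v0^2) * W.hw + (a*p*q*w +a*q*ve*w) *
    W.h0 + (p*q*w +q*v0*w) * W.heM + (p*q*v0*w +p*q*ve*w +q*v0*ve*w) * W.h1 + (p*q*v0*w) * W.he

theorem IG_v0 (W : Whole p q w v0 v1 ve a M) :
    v0 * ((p + v0) * ((v0 + v1 - q) * a * (ve + w + p) * (w + q))) = 0 := by
  linear_combination (a*q*v0*v1 -a*q*v0*w +a*q*v0^2 -a*q^2*v0 +a*v0*v1*w +a*v0^2*w) * W.hp +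
    (-a*p*v0*ve -a*p*v0*w -a*p*v0^2 -a*v0^2*ve -a*v0^2*w) * W.hq + (-a*p*q*v0 +a*p*v0*v1
    +a*p*v0^2 -a*q*v0^2 +a*v0^2*v1 +a*v0^3) * W.hw + (a*p*q*v0 +a*p*q*v1 +a*p*q*ve +a*p*v0*w
    +a*p*v1*w +a*p*ve*w +a*q*v0*ve +a*q*v0*w +a*q*v1*ve +a*q*v1*w -a*q*ve*w +a*v0*ve*w
    +a*v1*ve*w) * W.h0 + (p*q*v0 +p*v0*w) * W.heM + (p*q*v0*ve +p*q*v0*w +p*v0*ve*w) * W.h1 +
    (-p*q*v0*w) * W.he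

theorem IG_x (W : Whole p q w v0 v1 ve a M) (hx : x * a = M) (hxM : x * M = 0) :
    x * ((p + v0) * ((v0 + v1 - q) * a * (ve + w + p) * (w + q))) = 0 := by
  linear_combination (a*q*v0*x +a*q*v1*x -a*q*w*x -a*q^2*x +a*v0*w*x +a*v1*w*x) * W.hp +
    (-a*p*v0*x -a*p*ve*x -a*p*w*x -a*v0*ve*x -a*v0*w*x) * W.hq + (-a*p*q*x +a*p*v0*x +a*p*v1*x
    -a*q*v0*x +a*v0*v1*x +a*v0^2*x) * W.hw + (a*p*q*x +a*p*w*x +a*q*ve*x +a*q*w*x +a*ve*w*x) *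
    W.h0 + (p*q*v0 +p*q*ve +p*q*w +p*v0*w +p*ve*w +q*v0*ve +q*v0*w +v0*ve*w) * W.h1M + (p*q*v0
    -p*q*w +p*v0*w -q*v0*w) * W.heM + (p*q*v0*v1 +p*q*v0*ve +p*q*v1*ve +p*q*v1*w -p*q*ve*w
    +p*v0*v1*w +p*v0*ve*w +p*v1*ve*w +q*v0*v1*ve +q*v0*v1*w -q*v0*ve*w +v0*v1*ve*w) * hx

theorem IG_w (W : Whole p q w v0 v1 ve a M) :
    w * ((p + v0) * ((v0 + v1 - q) * a * (ve + w + p) * (w + q))) = 2 * (p * q * v0 * M * w) := by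
  linear_combination (a*q*v0*w +a*q*v1*w -a*q*w^2 -a*q^2*w +a*v0*w^2 +a*v1*w^2) * W.hp +
    (-a*p*v0*w -a*p*ve*w -a*p*w^2 -a*v0*ve*w -a*v0*w^2) * W.hq + (a*p*q*v1 -a*p*q*ve -a*p*q*w
    +a*p*v0*v1 +a*p*v0*ve +a*p*v0*w +a*p*v0^2 +a*p*v1*ve +a*p*v1*w +a*q*v0*v1 -a*q*v0*ve
    -a*q*v0*w +a*q*v0^2 +a*v0*v1*ve +a*v0*v1*w +a*v0^2*ve +a*v0^2*w) * W.hw + (a*p*q*w
    +a*q*ve*w) * W.h0 + (p*q*w +q*v0*w) * W.heM + (p*q*v0*w +p*q*ve*w +q*v0*ve*w) * W.h1 +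
    (p*q*v0*w) * W.he

theorem IIG_p (W : Whole p q w v0 v1 ve a M) :
    p * ((w - q) * ((v0 - p) * ((v0 + v1 - q) * a * (ve + w + p)))) = -(2 * (p * q * v0 * M *
      w)) := by
  linear_combination (a*p*q*v0 +a*p*q*v1 +a*p*q*w -a*p*q^2 -a*p*v0*w -a*p*v1*w -a*q*v0*v1
    +a*q*v0*ve -a*q*v0^2 +a*q*v1*ve +a*q*v1*w +a*q*ve*w +a*q*w^2 +a*q^2*v0 -a*q^2*ve -a*q^2*w
    +a*v0*v1*w -a*v0*ve*w -a*v0*w^2 +a*v0^2*w -a*v1*ve*w -a*v1*w^2) * W.hp + (a*p*v0*ve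
    +a*p*v0*w) * W.hq + (-a*p*q*v0 +a*p*v0*v1 +a*p*v0^2) * W.hw + (-a*p*q*ve -a*p*q*w +a*p*ve*w)
    * W.h0 + (-p*q*v0 +p*v0*w) * W.heM + (-p*q*v0*ve -p*q*v0*w +p*v0*ve*w) * W.h1 + (-p*q*v0*w)
    * W.he

theorem IIG_q (W : Whole p q w v0 v1 ve a M) :
    q * ((w - q) * ((v0 - p) * ((v0 + v1 - q) * a * (ve + w + p)))) = 0 := by
  linear_combination (-a*q*v0*w -a*q*v1*w +a*q^2*v0 +a*q^2*v1 +a*q^2*w -a*q^3) * W.hp +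
    (a*p*q*v0 -a*p*q*ve -a*p*q*w -a*p*v0*v1 +a*p*v0*ve -a*p*v0^2 +a*p*v1*ve +a*p*v1*w +a*p*ve*w
    +a*p*w^2 +a*q*v0*ve +a*q*v0*w -a*v0*v1*ve -a*v0*v1*w -a*v0*ve*w -a*v0*w^2 -a*v0^2*ve
    -a*v0^2*w) * W.hq + (-a*p*q*v0 -a*p*q*v1 +a*q*v0*v1 +a*q*v0^2) * W.hw + (a*p*q*w +a*q*ve*w)
    * W.h0 + (-p*q*w +q*v0*w) * W.heM + (p*q*v0*w -p*q*ve*w +q*v0*ve*w) * W.h1 + (-p*q*v0*w) *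
    W.he

theorem IIG_v0 (W : Whole p q w v0 v1 ve a M) :
    v0 * ((w - q) * ((v0 - p) * ((v0 + v1 - q) * a * (ve + w + p)))) = 2 * (p * q * v0 * M * w)
      := by
  linear_combination (a*q*v0*v1 +a*q*v0*w +a*q*v0^2 -a*q^2*v0 -a*v0*v1*w -a*v0^2*w) * W.hp +
    (-a*p*v0*ve -a*p*v0*w +a*p*v0^2 +a*v0^2*ve +a*v0^2*w) * W.hq + (a*p*q*v0 -a*p*v0*v1
    -a*p*v0^2 -a*q*v0^2 +a*v0^2*v1 +a*v0^3) * W.hw + (-a*p*q*v0 -a*p*q*v1 +a*p*q*ve +a*p*v0*w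
    +a*p*v1*w -a*p*ve*w -a*q*v0*ve -a*q*v0*w -a*q*v1*ve -a*q*v1*w -a*q*ve*w +a*v0*ve*w
    +a*v1*ve*w) * W.h0 + (p*q*v0 -p*v0*w) * W.heM + (p*q*v0*ve +p*q*v0*w -p*v0*ve*w) * W.h1 +
    (p*q*v0*w) * W.he

theorem IIG_x (W : Whole p q w v0 v1 ve a M) (hx : x * a = M) (hxM : x * M = 0) :
    x * ((w - q) * ((v0 - p) * ((v0 + v1 - q) * a * (ve + w + p)))) = 0 := by
  linear_combination (a*q*v0*x +a*q*v1*x +a*q*w*x -a*q^2*x -a*v0*w*x -a*v1*w*x) * W.hp +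
    (a*p*v0*x -a*p*ve*x -a*p*w*x +a*v0*ve*x +a*v0*w*x) * W.hq + (a*p*q*x -a*p*v0*x -a*p*v1*x
    -a*q*v0*x +a*v0*v1*x +a*v0^2*x) * W.hw + (-a*p*q*x +a*p*w*x -a*q*ve*x -a*q*w*x +a*ve*w*x) *
    W.h0 + (-p*q*v0 +p*q*ve +p*q*w +p*v0*w -p*ve*w -q*v0*ve -q*v0*w +v0*ve*w) * W.h1M + (p*q*v0
    +p*q*w -p*v0*w -q*v0*w) * W.heM + (-p*q*v0*v1 +p*q*v0*ve +p*q*v1*ve +p*q*v1*w +p*q*ve*w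
    +p*v0*v1*w -p*v0*ve*w -p*v1*ve*w -q*v0*v1*ve -q*v0*v1*w -q*v0*ve*w +v0*v1*ve*w) * hx

theorem IIG_w (W : Whole p q w v0 v1 ve a M) :
    w * ((w - q) * ((v0 - p) * ((v0 + v1 - q) * a * (ve + w + p)))) = 0 := by
  linear_combination (a*q*v0*w +a*q*v1*w +a*q*w^2 -a*q^2*w -a*v0*w^2 -a*v1*w^2) * W.hp +
    (a*p*v0*w -a*p*ve*w -a*p*w^2 +a*v0*ve*w +a*v0*w^2) * W.hq + (a*p*q*v1 +a*p*q*ve +a*p*q*w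
    +a*p*v0*v1 -a*p*v0*ve -a*p*v0*w +a*p*v0^2 -a*p*v1*ve -a*p*v1*w -a*q*v0*v1 -a*q*v0*ve
    -a*q*v0*w -a*q*v0^2 +a*v0*v1*ve +a*v0*v1*w +a*v0^2*ve +a*v0^2*w) * W.hw + (-a*p*q*w
    -a*q*ve*w) * W.h0 + (p*q*w -q*v0*w) * W.heM + (-p*q*v0*w +p*q*ve*w -q*v0*ve*w) * W.h1 +
    (p*q*v0*w) * W.he

theorem pGe_p (W : Whole p q w v0 v1 ve a M) :
    p * (p * ((v0 - p) * ((v0 + v1 - q) * a * (w + q)))) = 0 := by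
  linear_combination (-a*p*q*v0 -a*p*q*v1 +a*p*q*w +a*p*q^2 -a*p*v0*w -a*p*v1*w +a*q*v0*v1
    -a*q*v0*w +a*q*v0^2 -a*q^2*v0 +a*v0*v1*w +a*v0^2*w) * W.hp

theorem pGe_q (W : Whole p q w v0 v1 ve a M) :
    q * (p * ((v0 - p) * ((v0 + v1 - q) * a * (w + q)))) = (p * q * v0 * M * w) := by
  linear_combination (-a*q*v0*w -a*q*v1*w -a*q^2*v0 -a*q^2*v1 +a*q^2*w +a*q^3) * W.hp +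
    (-a*p*q*v0 +a*p*v0*v1 -a*p*v0*w +a*p*v0^2) * W.hq + (a*p*q*w) * W.h0 + (p*q*v0*w) * W.h1

theorem pGe_v0 (W : Whole p q w v0 v1 ve a M) :
    v0 * (p * ((v0 - p) * ((v0 + v1 - q) * a * (w + q)))) = 0 := by
  linear_combination (-a*q*v0*v1 +a*q*v0*w -a*q*v0^2 +a*q^2*v0 -a*v0*v1*w -a*v0^2*w) * W.hp +
    (-a*p*v0^2) * W.hq + (a*p*q*v0 +a*p*q*v1 -a*p*q*w +a*p*v0*w +a*p*v1*w) * W.h0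

theorem pGe_x (W : Whole p q w v0 v1 ve a M) (hx : x * a = M) (hxM : x * M = 0) :
    x * (p * ((v0 - p) * ((v0 + v1 - q) * a * (w + q)))) = -(p * q * v0 * M * w) := by
  linear_combination (-a*q*v0*x -a*q*v1*x +a*q*w*x +a*q^2*x -a*v0*w*x -a*v1*w*x) * W.hp +
    (-a*p*v0*x) * W.hq + (a*p*q*x +a*p*w*x) * W.h0 + (p*q*v0 +p*v0*w) * W.h1M + (p*q*v0*v1
    -p*q*v0*w +p*v0*v1*w) * hx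

theorem pGe_w (W : Whole p q w v0 v1 ve a M) :
    w * (p * ((v0 - p) * ((v0 + v1 - q) * a * (w + q)))) = (p * q * v0 * M * w) := by
  linear_combination (-a*q*v0*w -a*q*v1*w +a*q*w^2 +a*q^2*w -a*v0*w^2 -a*v1*w^2) * W.hp +
    (-a*p*v0*w) * W.hq + (-a*p*q*v0 +a*p*v0*v1 +a*p*v0^2) * W.hw + (a*p*q*w) * W.h0 + (p*q*v0*w)
    * W.h1

theorem pGd_p (W : Whole p q w v0 v1 ve a M) :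
    p * (p * ((v0 - p) * ((v0 + v1 - q) * a * (ve + w + p)))) = 0 := by
  linear_combination (-a*p*q*v0 +a*p*q*ve +a*p*q*w +a*p*v0*v1 -a*p*v0*ve -a*p*v0*w +a*p*v0^2
    -a*p*v1*ve -a*p*v1*w +a*p^2*q -a*p^2*v0 -a*p^2*v1 -a*q*v0*ve -a*q*v0*w +a*v0*v1*ve
    +a*v0*v1*w +a*v0^2*ve +a*v0^2*w) * W.hp

theorem pGd_q (W : Whole p q w v0 v1 ve a M) :
    q * (p * ((v0 - p) * ((v0 + v1 - q) * a * (ve + w + p)))) = (p * q * v0 * M * w) := by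
  linear_combination (-a*p*q*v0 -a*p*q*v1 +a*p*q^2 +a*q*v0*v1 -a*q*v0*ve -a*q*v0*w +a*q*v0^2
    -a*q*v1*ve -a*q*v1*w -a*q^2*v0 +a*q^2*ve +a*q^2*w) * W.hp + (-a*p*v0*ve -a*p*v0*w) * W.hq +
    (a*p*q*ve +a*p*q*w) * W.h0 + (p*q*v0) * W.heM + (p*q*v0*ve +p*q*v0*w) * W.h1

theorem pGd_v0 (W : Whole p q w v0 v1 ve a M) :
    v0 * (p * ((v0 - p) * ((v0 + v1 - q) * a * (ve + w + p)))) = 0 := by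
  linear_combination (a*p*q*v0 -a*p*v0*v1 -a*p*v0^2 +a*q*v0*ve +a*q*v0*w -a*q*v0^2 -a*v0*v1*ve
    -a*v0*v1*w +a*v0^2*v1 -a*v0^2*ve -a*v0^2*w +a*v0^3) * W.hp + (-a*p*q*ve -a*p*q*w +a*p*v0*ve
    +a*p*v0*w +a*p*v1*ve +a*p*v1*w) * W.h0

theorem pGd_x (W : Whole p q w v0 v1 ve a M) (hx : x * a = M) (hxM : x * M = 0) :
    x * (p * ((v0 - p) * ((v0 + v1 - q) * a * (ve + w + p)))) = -(p * q * v0 * M * w) := by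
  linear_combination (a*p*q*x -a*p*v0*x -a*p*v1*x -a*q*v0*x +a*q*ve*x +a*q*w*x +a*v0*v1*x
    -a*v0*ve*x -a*v0*w*x +a*v0^2*x -a*v1*ve*x -a*v1*w*x) * W.hp + (a*p*ve*x +a*p*w*x) * W.h0 +
    (p*v0*ve +p*v0*w) * W.h1M + (-p*q*v0) * W.heM + (-p*q*v0*ve -p*q*v0*w +p*v0*v1*ve
    +p*v0*v1*w) * hx

theorem pGd_w (W : Whole p q w v0 v1 ve a M) :
    w * (p * ((v0 - p) * ((v0 + v1 - q) * a * (ve + w + p)))) = -(p * q * v0 * M * w) := by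
  linear_combination (a*p*q*w -a*p*v0*w -a*p*v1*w -a*q*v0*w +a*q*ve*w +a*q*w^2 +a*v0*v1*w
    -a*v0*ve*w -a*v0*w^2 +a*v0^2*w -a*v1*ve*w -a*v1*w^2) * W.hp + (-a*p*q*v0 +a*p*v0*v1
    +a*p*v0^2) * W.hw + (a*p*ve*w) * W.h0 + (p*v0*w) * W.heM + (p*v0*ve*w) * W.h1 + (-p*q*v0*w)
    * W.he

theorem qGe_p (W : Whole p q w v0 v1 ve a M) :
    p * (q * ((v0 - p) * ((v0 + v1 - q) * a * (w + q)))) = (p * q * v0 * M * w) := by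
  linear_combination (-a*q*v0*w -a*q*v1*w -a*q^2*v0 -a*q^2*v1 +a*q^2*w +a*q^3) * W.hp +
    (-a*p*q*v0 +a*p*v0*v1 -a*p*v0*w +a*p*v0^2) * W.hq + (a*p*q*w) * W.h0 + (p*q*v0*w) * W.h1

theorem qGe_q (W : Whole p q w v0 v1 ve a M) :
    q * (q * ((v0 - p) * ((v0 + v1 - q) * a * (w + q)))) = 0 := by
  linear_combination (-a*p*q*v0 -a*p*q*v1 +a*p*q*w +a*p*q^2 -a*p*v0*w -a*p*v1*w +a*q*v0*v1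
    -a*q*v0*w +a*q*v0^2 -a*q^2*v0 +a*v0*v1*w +a*v0^2*w) * W.hq

theorem qGe_v0 (W : Whole p q w v0 v1 ve a M) :
    v0 * (q * ((v0 - p) * ((v0 + v1 - q) * a * (w + q)))) = -(p * q * v0 * M * w) := by
  linear_combination (a*p*q*v0 -a*p*v0*v1 +a*p*v0*w -a*p*v0^2 -a*q*v0^2 +a*v0^2*v1 -a*v0^2*w
    +a*v0^3) * W.hq + (-a*p*q*w +a*q*v0*w +a*q*v1*w) * W.h0 + (-p*q*v0*w) * W.h1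

theorem qGe_x (W : Whole p q w v0 v1 ve a M) (hx : x * a = M) (hxM : x * M = 0) :
    x * (q * ((v0 - p) * ((v0 + v1 - q) * a * (w + q)))) = -(p * q * v0 * M * w) := by
  linear_combination (a*p*q*x -a*p*v0*x -a*p*v1*x +a*p*w*x -a*q*v0*x +a*v0*v1*x -a*v0*w*x
    +a*v0^2*x) * W.hq + (a*q*w*x) * W.h0 + (-p*q*w +q*v0*w) * W.h1M + (-p*q*v0*w -p*q*v1*w
    +q*v0*v1*w) * hx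

theorem qGe_w (W : Whole p q w v0 v1 ve a M) :
    w * (q * ((v0 - p) * ((v0 + v1 - q) * a * (w + q)))) = 0 := by
  linear_combination (a*p*q*w -a*p*v0*w -a*p*v1*w +a*p*w^2 -a*q*v0*w +a*v0*v1*w -a*v0*w^2
    +a*v0^2*w) * W.hq + (-a*p*q*v0 -a*p*q*v1 +a*q*v0*v1 +a*q*v0^2) * W.hw

theorem qGd_p (W : Whole p q w v0 v1 ve a M) :
    p * (q * ((v0 - p) * ((v0 + v1 - q) * a * (ve + w + p)))) = (p * q * v0 * M * w) := by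
  linear_combination (-a*p*q*v0 -a*p*q*v1 +a*p*q^2 +a*q*v0*v1 -a*q*v0*ve -a*q*v0*w +a*q*v0^2
    -a*q*v1*ve -a*q*v1*w -a*q^2*v0 +a*q^2*ve +a*q^2*w) * W.hp + (-a*p*v0*ve -a*p*v0*w) * W.hq +
    (a*p*q*ve +a*p*q*w) * W.h0 + (p*q*v0) * W.heM + (p*q*v0*ve +p*q*v0*w) * W.h1

theorem qGd_q (W : Whole p q w v0 v1 ve a M) :
    q * (q * ((v0 - p) * ((v0 + v1 - q) * a * (ve + w + p)))) = 0 := by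
  linear_combination (-a*q^2*v0 -a*q^2*v1 +a*q^3) * W.hp + (-a*p*q*v0 +a*p*q*ve +a*p*q*w
    +a*p*v0*v1 -a*p*v0*ve -a*p*v0*w +a*p*v0^2 -a*p*v1*ve -a*p*v1*w -a*q*v0*ve -a*q*v0*w
    +a*v0*v1*ve +a*v0*v1*w +a*v0^2*ve +a*v0^2*w) * W.hq

theorem qGd_v0 (W : Whole p q w v0 v1 ve a M) :
    v0 * (q * ((v0 - p) * ((v0 + v1 - q) * a * (ve + w + p)))) = -(p * q * v0 * M * w) := by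
  linear_combination (-a*q*v0*v1 -a*q*v0^2 +a*q^2*v0) * W.hp + (a*p*v0*ve +a*p*v0*w -a*p*v0^2
    -a*v0^2*ve -a*v0^2*w) * W.hq + (a*p*q*v0 +a*p*q*v1 -a*p*q*ve -a*p*q*w +a*q*v0*ve +a*q*v0*w
    +a*q*v1*ve +a*q*v1*w) * W.h0 + (-p*q*v0) * W.heM + (-p*q*v0*ve -p*q*v0*w) * W.h1

theorem qGd_x (W : Whole p q w v0 v1 ve a M) (hx : x * a = M) (hxM : x * M = 0) :
    x * (q * ((v0 - p) * ((v0 + v1 - q) * a * (ve + w + p)))) = -(p * q * v0 * M * w) := by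
  linear_combination (-a*q*v0*x -a*q*v1*x +a*q^2*x) * W.hp + (-a*p*v0*x +a*p*ve*x +a*p*w*x
    -a*v0*ve*x -a*v0*w*x) * W.hq + (a*p*q*x +a*q*ve*x +a*q*w*x) * W.h0 + (p*q*v0 -p*q*ve -p*q*w
    +q*v0*ve +q*v0*w) * W.h1M + (-p*q*v0) * W.heM + (p*q*v0*v1 -p*q*v0*ve -p*q*v0*w -p*q*v1*ve
    -p*q*v1*w +q*v0*v1*ve +q*v0*v1*w) * hx

theorem qGd_w (W : Whole p q w v0 v1 ve a M) :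
    w * (q * ((v0 - p) * ((v0 + v1 - q) * a * (ve + w + p)))) = 0 := by
  linear_combination (-a*q*v0*w -a*q*v1*w +a*q^2*w) * W.hp + (-a*p*v0*w +a*p*ve*w +a*p*w^2
    -a*v0*ve*w -a*v0*w^2) * W.hq + (-a*p*q*v0 -a*p*q*v1 +a*q*v0*v1 +a*q*v0^2) * W.hw + (a*p*q*w
    +a*q*ve*w) * W.h0 + (-p*q*w +q*v0*w) * W.heM + (p*q*v0*w -p*q*ve*w +q*v0*ve*w) * W.h1 +
    (-p*q*v0*w) * W.he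

theorem pG_p (W : Whole p q w v0 v1 ve a M) :
    p * (p * ((v0 + v1 - q) * a * (ve + w + p) * (w + q))) = 0 := by
  linear_combination (a*p*q*v0 +a*p*q*v1 -a*p*q*w -a*p*q^2 +a*p*v0*w +a*p*v1*w +a*q*v0*ve
    +a*q*v0*w +a*q*v1*ve +a*q*v1*w -a*q*ve*w -a*q*w^2 -a*q^2*ve -a*q^2*w +a*v0*ve*w +a*v0*w^2
    +a*v1*ve*w +a*v1*w^2) * W.hp

theorem pG_q (W : Whole p q w v0 v1 ve a M) :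
    q * (p * ((v0 + v1 - q) * a * (ve + w + p) * (w + q))) = (p * q * v0 * M * w) := by
  linear_combination (a*q*v0*w +a*q*v1*w +a*q^2*v0 +a*q^2*v1 -a*q^2*w -a*q^3) * W.hp +
    (-a*p*q*ve -a*p*q*w +a*p*v0*ve +a*p*v0*w +a*p*v1*ve +a*p*v1*w -a*p*ve*w -a*p*w^2) * W.hq +
    (a*p*q*v0 +a*p*q*v1) * W.hw + (p*q*w) * W.heM + (p*q*ve*w) * W.h1 + (p*q*v0*w) * W.he

theorem pG_v0 (W : Whole p q w v0 v1 ve a M) :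
    v0 * (p * ((v0 + v1 - q) * a * (ve + w + p) * (w + q))) = 0 := by
  linear_combination (a*q*v0*v1 -a*q*v0*w +a*q*v0^2 -a*q^2*v0 +a*v0*v1*w +a*v0^2*w) * W.hp +
    (-a*p*v0*ve -a*p*v0*w) * W.hq + (-a*p*q*v0 +a*p*v0*v1 +a*p*v0^2) * W.hw + (a*p*q*ve +a*p*q*w
    +a*p*ve*w) * W.h0 + (p*q*v0 +p*v0*w) * W.heM + (p*q*v0*ve +p*q*v0*w +p*v0*ve*w) * W.h1 +
    (-p*q*v0*w) * W.he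

theorem pG_x (W : Whole p q w v0 v1 ve a M) (hx : x * a = M) (hxM : x * M = 0) :
    x * (p * ((v0 + v1 - q) * a * (ve + w + p) * (w + q))) = (p * q * v0 * M * w) := by
  linear_combination (a*q*v0*x +a*q*v1*x -a*q*w*x -a*q^2*x +a*v0*w*x +a*v1*w*x) * W.hp +
    (-a*p*ve*x -a*p*w*x) * W.hq + (-a*p*q*x +a*p*v0*x +a*p*v1*x) * W.hw + (p*q*ve +p*q*w
    +p*ve*w) * W.h1M + (p*q*v0 -p*q*w +p*v0*w) * W.heM + (p*q*v0*ve +p*q*v0*w +p*q*v1*ve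
    +p*q*v1*w -p*q*ve*w +p*v0*ve*w +p*v1*ve*w) * hx

theorem pG_w (W : Whole p q w v0 v1 ve a M) :
    w * (p * ((v0 + v1 - q) * a * (ve + w + p) * (w + q))) = (p * q * v0 * M * w) := by
  linear_combination (a*q*v0*w +a*q*v1*w -a*q*w^2 -a*q^2*w +a*v0*w^2 +a*v1*w^2) * W.hp +
    (-a*p*ve*w -a*p*w^2) * W.hq + (a*p*q*v0 +a*p*q*v1 -a*p*q*ve -a*p*q*w +a*p*v0*ve +a*p*v0*w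
    +a*p*v1*ve +a*p*v1*w) * W.hw + (p*q*w) * W.heM + (p*q*ve*w) * W.h1 + (p*q*v0*w) * W.he

theorem qG_p (W : Whole p q w v0 v1 ve a M) :
    p * (q * ((v0 + v1 - q) * a * (ve + w + p) * (w + q))) = (p * q * v0 * M * w) := by
  linear_combination (a*q*v0*w +a*q*v1*w +a*q^2*v0 +a*q^2*v1 -a*q^2*w -a*q^3) * W.hp +
    (-a*p*q*ve -a*p*q*w +a*p*v0*ve +a*p*v0*w +a*p*v1*ve +a*p*v1*w -a*p*ve*w -a*p*w^2) * W.hq +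
    (a*p*q*v0 +a*p*q*v1) * W.hw + (p*q*w) * W.heM + (p*q*ve*w) * W.h1 + (p*q*v0*w) * W.he

theorem qG_q (W : Whole p q w v0 v1 ve a M) :
    q * (q * ((v0 + v1 - q) * a * (ve + w + p) * (w + q))) = 0 := by
  linear_combination (a*p*q*v0 +a*p*q*v1 -a*p*q*w -a*p*q^2 +a*p*v0*w +a*p*v1*w +a*q*v0*ve
    +a*q*v0*w +a*q*v1*ve +a*q*v1*w -a*q*ve*w -a*q*w^2 -a*q^2*ve -a*q^2*w +a*v0*ve*w +a*v0*w^2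
    +a*v1*ve*w +a*v1*w^2) * W.hq

theorem qG_v0 (W : Whole p q w v0 v1 ve a M) :
    v0 * (q * ((v0 + v1 - q) * a * (ve + w + p) * (w + q))) = (p * q * v0 * M * w) := by
  linear_combination (-a*p*q*v0 +a*p*v0*v1 -a*p*v0*w +a*p*v0^2 -a*q*v0*ve -a*q*v0*w +a*v0*v1*ve
    +a*v0*v1*w -a*v0*ve*w -a*v0*w^2 +a*v0^2*ve +a*v0^2*w) * W.hq + (a*q*v0*v1 +a*q*v0^2) * W.hw
    + (a*p*q*w +a*q*ve*w) * W.h0 + (q*v0*w) * W.heM + (p*q*v0*w +q*v0*ve*w) * W.h1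

theorem qG_x (W : Whole p q w v0 v1 ve a M) (hx : x * a = M) (hxM : x * M = 0) :
    x * (q * ((v0 + v1 - q) * a * (ve + w + p) * (w + q))) = (p * q * v0 * M * w) := by
  linear_combination (-a*p*q*x +a*p*v0*x +a*p*v1*x -a*p*w*x -a*q*ve*x -a*q*w*x +a*v0*ve*x
    +a*v0*w*x +a*v1*ve*x +a*v1*w*x -a*ve*w*x -a*w^2*x) * W.hq + (a*q*v0*x +a*q*v1*x) * W.hw +
    (p*q*w +q*ve*w) * W.h1M + (q*v0*w) * W.heM + (p*q*v0*w +p*q*v1*w +q*v0*ve*w +q*v1*ve*w) * hx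

theorem qG_w (W : Whole p q w v0 v1 ve a M) :
    w * (q * ((v0 + v1 - q) * a * (ve + w + p) * (w + q))) = 0 := by
  linear_combination (-a*p*q*w +a*p*v0*w +a*p*v1*w -a*p*w^2 -a*q*ve*w -a*q*w^2 +a*v0*ve*w
    +a*v0*w^2 +a*v1*ve*w +a*v1*w^2 -a*ve*w^2 -a*w^3) * W.hq + (a*p*q*v0 +a*p*q*v1 +a*q*v0*ve
    +a*q*v0*w +a*q*v1*ve +a*q*v1*w) * W.hw

theorem DG_p (W : Split p q w v0 v1 ve vk vk1 P1 P2 M1 M2) :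
    p * ((vk - vk1) * ((v0 - p) * ((v0 + v1 - q) * (P1 * P2) * (ve + w + p) * (w + q)))) = -(2 *
      (p * q * v0 * (M1 * M2) * w)) := by
  linear_combination (-P1*P2*p*q*v0*vk +P1*P2*p*q*v0*vk1 -P1*P2*p*q*v1*vk +P1*P2*p*q*v1*vk1
    +P1*P2*p*q*vk*w -P1*P2*p*q*vk1*w +P1*P2*p*q^2*vk -P1*P2*p*q^2*vk1 -P1*P2*p*v0*vk*w
    +P1*P2*p*v0*vk1*w -P1*P2*p*v1*vk*w +P1*P2*p*v1*vk1*w +P1*P2*q*v0*v1*vk -P1*P2*q*v0*v1*vk1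
    -P1*P2*q*v0*ve*vk +P1*P2*q*v0*ve*vk1 -2*P1*P2*q*v0*vk*w +2*P1*P2*q*v0*vk1*w +P1*P2*q*v0^2*vk
    -P1*P2*q*v0^2*vk1 -P1*P2*q*v1*ve*vk +P1*P2*q*v1*ve*vk1 -P1*P2*q*v1*vk*w +P1*P2*q*v1*vk1*w
    +P1*P2*q*ve*vk*w -P1*P2*q*ve*vk1*w +P1*P2*q*vk*w^2 -P1*P2*q*vk1*w^2 -P1*P2*q^2*v0*vk
    +P1*P2*q^2*v0*vk1 +P1*P2*q^2*ve*vk -P1*P2*q^2*ve*vk1 +P1*P2*q^2*vk*w -P1*P2*q^2*vk1*w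
    +P1*P2*v0*v1*vk*w -P1*P2*v0*v1*vk1*w -P1*P2*v0*ve*vk*w +P1*P2*v0*ve*vk1*w -P1*P2*v0*vk*w^2
    +P1*P2*v0*vk1*w^2 +P1*P2*v0^2*vk*w -P1*P2*v0^2*vk1*w -P1*P2*v1*ve*vk*w +P1*P2*v1*ve*vk1*w
    -P1*P2*v1*vk*w^2 +P1*P2*v1*vk1*w^2) * W.hp + (-P1*P2*p*v0*ve*vk +P1*P2*p*v0*ve*vk1
    -P1*P2*p*v0*vk*w +P1*P2*p*v0*vk1*w) * W.hq + (-P1*P2*p*q*v0*vk +P1*P2*p*q*v0*vk1
    +P1*P2*p*v0*v1*vk -P1*P2*p*v0*v1*vk1 +P1*P2*p*v0^2*vk -P1*P2*p*v0^2*vk1) * W.hw +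
    (P1*P2*p*q*ve*vk -P1*P2*p*q*ve*vk1 +P1*P2*p*q*vk*w -P1*P2*p*q*vk1*w +P1*P2*p*ve*vk*w
    -P1*P2*p*ve*vk1*w) * W.h0 + (P2*p*q*v0*ve +P2*p*q*v0*w +P2*p*v0*ve*w) * W.hkM + (-M1*p*q*v0
    -M1*p*v0*w +P1*p*q*v0*w) * W.hk1M + (P2*p*q*v0*ve*vk -P2*p*q*v0*ve*vk1 +P2*p*q*v0*vk*w
    -P2*p*q*v0*vk1*w +P2*p*v0*ve*vk*w -P2*p*v0*ve*vk1*w) * W.h1 + (-M1*p*q*v0*vk1 -M1*p*v0*vk1*w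
    -P1*p*q*v0*vk*w +P1*p*q*v0*vk1*w) * W.he + (-M2*p*q*v0*w) * W.hk + (-M1*p*q*v0*w) * W.hk1

theorem DG_q (W : Split p q w v0 v1 ve vk vk1 P1 P2 M1 M2) :
    q * ((vk - vk1) * ((v0 - p) * ((v0 + v1 - q) * (P1 * P2) * (ve + w + p) * (w + q)))) = -(2 *
      (p * q * v0 * (M1 * M2) * w)) := by
  linear_combination (-P1*P2*q*v0*vk*w +P1*P2*q*v0*vk1*w -P1*P2*q*v1*vk*w +P1*P2*q*v1*vk1*w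
    -P1*P2*q^2*v0*vk +P1*P2*q^2*v0*vk1 -P1*P2*q^2*v1*vk +P1*P2*q^2*v1*vk1 +P1*P2*q^2*vk*w
    -P1*P2*q^2*vk1*w +P1*P2*q^3*vk -P1*P2*q^3*vk1) * W.hp + (-P1*P2*p*q*v0*vk +P1*P2*p*q*v0*vk1
    +P1*P2*p*q*ve*vk -P1*P2*p*q*ve*vk1 +P1*P2*p*q*vk*w -P1*P2*p*q*vk1*w +P1*P2*p*v0*v1*vk
    -P1*P2*p*v0*v1*vk1 -P1*P2*p*v0*ve*vk +P1*P2*p*v0*ve*vk1 -2*P1*P2*p*v0*vk*w
    +2*P1*P2*p*v0*vk1*w +P1*P2*p*v0^2*vk -P1*P2*p*v0^2*vk1 -P1*P2*p*v1*ve*vk +P1*P2*p*v1*ve*vk1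
    -P1*P2*p*v1*vk*w +P1*P2*p*v1*vk1*w +P1*P2*p*ve*vk*w -P1*P2*p*ve*vk1*w +P1*P2*p*vk*w^2
    -P1*P2*p*vk1*w^2 -P1*P2*q*v0*ve*vk +P1*P2*q*v0*ve*vk1 -P1*P2*q*v0*vk*w +P1*P2*q*v0*vk1*w
    +P1*P2*v0*v1*ve*vk -P1*P2*v0*v1*ve*vk1 +P1*P2*v0*v1*vk*w -P1*P2*v0*v1*vk1*w
    -P1*P2*v0*ve*vk*w +P1*P2*v0*ve*vk1*w -P1*P2*v0*vk*w^2 +P1*P2*v0*vk1*w^2 +P1*P2*v0^2*ve*vk
    -P1*P2*v0^2*ve*vk1 +P1*P2*v0^2*vk*w -P1*P2*v0^2*vk1*w) * W.hq + (-P1*P2*p*q*v0*vk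
    +P1*P2*p*q*v0*vk1 -P1*P2*p*q*v1*vk +P1*P2*p*q*v1*vk1 +P1*P2*q*v0*v1*vk -P1*P2*q*v0*v1*vk1
    +P1*P2*q*v0^2*vk -P1*P2*q*v0^2*vk1) * W.hw + (P1*P2*p*q*vk*w -P1*P2*p*q*vk1*w
    +P1*P2*q*ve*vk*w -P1*P2*q*ve*vk1*w) * W.h0 + (P2*p*q*v0*w -P2*p*q*ve*w +P2*q*v0*ve*w) *
    W.hkM + (M1*p*q*w -M1*q*v0*w +P1*p*q*v0*w) * W.hk1M + (P2*p*q*v0*vk*w -P2*p*q*v0*vk1*w
    -P2*p*q*ve*vk*w +P2*p*q*ve*vk1*w +P2*q*v0*ve*vk*w -P2*q*v0*ve*vk1*w) * W.h1 + (M1*p*q*vk1*w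
    -M1*q*v0*vk1*w -P1*p*q*v0*vk*w +P1*p*q*v0*vk1*w) * W.he + (-M2*p*q*v0*w) * W.hk +
    (-M1*p*q*v0*w) * W.hk1

theorem DG_v0 (W : Split p q w v0 v1 ve vk vk1 P1 P2 M1 M2) :
    v0 * ((vk - vk1) * ((v0 - p) * ((v0 + v1 - q) * (P1 * P2) * (ve + w + p) * (w + q)))) = 2 *
      (p * q * v0 * (M1 * M2) * w) := by
  linear_combination (-P1*P2*q*v0*v1*vk +P1*P2*q*v0*v1*vk1 +P1*P2*q*v0*vk*w -P1*P2*q*v0*vk1*w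
    -P1*P2*q*v0^2*vk +P1*P2*q*v0^2*vk1 +P1*P2*q^2*v0*vk -P1*P2*q^2*v0*vk1 -P1*P2*v0*v1*vk*w
    +P1*P2*v0*v1*vk1*w -P1*P2*v0^2*vk*w +P1*P2*v0^2*vk1*w) * W.hp + (P1*P2*p*v0*ve*vk
    -P1*P2*p*v0*ve*vk1 +P1*P2*p*v0*vk*w -P1*P2*p*v0*vk1*w -P1*P2*p*v0^2*vk +P1*P2*p*v0^2*vk1
    -P1*P2*v0^2*ve*vk +P1*P2*v0^2*ve*vk1 -P1*P2*v0^2*vk*w +P1*P2*v0^2*vk1*w) * W.hq +
    (P1*P2*p*q*v0*vk -P1*P2*p*q*v0*vk1 -P1*P2*p*v0*v1*vk +P1*P2*p*v0*v1*vk1 -P1*P2*p*v0^2*vk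
    +P1*P2*p*v0^2*vk1 -P1*P2*q*v0^2*vk +P1*P2*q*v0^2*vk1 +P1*P2*v0^2*v1*vk -P1*P2*v0^2*v1*vk1
    +P1*P2*v0^3*vk -P1*P2*v0^3*vk1) * W.hw + (P1*P2*p*q*v0*vk -P1*P2*p*q*v0*vk1 +P1*P2*p*q*v1*vk
    -P1*P2*p*q*v1*vk1 -P1*P2*p*q*ve*vk +P1*P2*p*q*ve*vk1 -2*P1*P2*p*q*vk*w +2*P1*P2*p*q*vk1*w
    +P1*P2*p*v0*vk*w -P1*P2*p*v0*vk1*w +P1*P2*p*v1*vk*w -P1*P2*p*v1*vk1*w -P1*P2*p*ve*vk*w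
    +P1*P2*p*ve*vk1*w +P1*P2*q*v0*ve*vk -P1*P2*q*v0*ve*vk1 +P1*P2*q*v0*vk*w -P1*P2*q*v0*vk1*w
    +P1*P2*q*v1*ve*vk -P1*P2*q*v1*ve*vk1 +P1*P2*q*v1*vk*w -P1*P2*q*v1*vk1*w -P1*P2*q*ve*vk*w
    +P1*P2*q*ve*vk1*w +P1*P2*v0*ve*vk*w -P1*P2*v0*ve*vk1*w +P1*P2*v1*ve*vk*w -P1*P2*v1*ve*vk1*w)
    * W.h0 + (-P2*p*q*v0*ve -P2*p*q*v0*w -P2*p*v0*ve*w) * W.hkM + (M1*p*q*v0 +M1*p*v0*w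
    -P1*p*q*v0*w) * W.hk1M + (-P2*p*q*v0*ve*vk +P2*p*q*v0*ve*vk1 -P2*p*q*v0*vk*w
    +P2*p*q*v0*vk1*w -P2*p*v0*ve*vk*w +P2*p*v0*ve*vk1*w) * W.h1 + (M1*p*q*v0*vk1 +M1*p*v0*vk1*w
    +P1*p*q*v0*vk*w -P1*p*q*v0*vk1*w) * W.he + (M2*p*q*v0*w) * W.hk + (M1*p*q*v0*w) * W.hk1

theorem DG_x (W : Split p q w v0 v1 ve vk vk1 P1 P2 M1 M2) (hx : x * P1 = M1) (hxM : x * M1 = 0) :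
    x * ((vk - vk1) * ((v0 - p) * ((v0 + v1 - q) * (P1 * P2) * (ve + w + p) * (w + q)))) = 2 *
      (p * q * v0 * (M1 * M2) * w) := by
  linear_combination (-P1*P2*q*v0*vk*x +P1*P2*q*v0*vk1*x -P1*P2*q*v1*vk*x +P1*P2*q*v1*vk1*x
    +P1*P2*q*vk*w*x -P1*P2*q*vk1*w*x +P1*P2*q^2*vk*x -P1*P2*q^2*vk1*x -P1*P2*v0*vk*w*x
    +P1*P2*v0*vk1*w*x -P1*P2*v1*vk*w*x +P1*P2*v1*vk1*w*x) * W.hp + (-P1*P2*p*v0*vk*x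
    +P1*P2*p*v0*vk1*x +P1*P2*p*ve*vk*x -P1*P2*p*ve*vk1*x +P1*P2*p*vk*w*x -P1*P2*p*vk1*w*x
    -P1*P2*v0*ve*vk*x +P1*P2*v0*ve*vk1*x -P1*P2*v0*vk*w*x +P1*P2*v0*vk1*w*x) * W.hq +
    (P1*P2*p*q*vk*x -P1*P2*p*q*vk1*x -P1*P2*p*v0*vk*x +P1*P2*p*v0*vk1*x -P1*P2*p*v1*vk*x
    +P1*P2*p*v1*vk1*x -P1*P2*q*v0*vk*x +P1*P2*q*v0*vk1*x +P1*P2*v0*v1*vk*x -P1*P2*v0*v1*vk1*x
    +P1*P2*v0^2*vk*x -P1*P2*v0^2*vk1*x) * W.hw + (P1*P2*p*q*vk*x -P1*P2*p*q*vk1*x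
    +P1*P2*p*vk*w*x -P1*P2*p*vk1*w*x +P1*P2*q*ve*vk*x -P1*P2*q*ve*vk1*x +P1*P2*q*vk*w*x
    -P1*P2*q*vk1*w*x +P1*P2*ve*vk*w*x -P1*P2*ve*vk1*w*x) * W.h0 + (P2*p*q*v0*vk -P2*p*q*v0*vk1
    -P2*p*q*ve*vk +P2*p*q*ve*vk1 -P2*p*q*vk*w +P2*p*q*vk1*w +P2*p*v0*vk*w -P2*p*v0*vk1*w
    -P2*p*ve*vk*w +P2*p*ve*vk1*w +P2*q*v0*ve*vk -P2*q*v0*ve*vk1 +P2*q*v0*vk*w -P2*q*v0*vk1*w
    +P2*v0*ve*vk*w -P2*v0*ve*vk1*w) * W.h1M + (-P2*p*q*v0*ve -2*P2*p*q*v0*w +P2*p*q*ve*w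
    -P2*p*v0*ve*w -P2*q*v0*ve*w) * W.hkM + (M1*p*q*v0 -M1*p*q*w +M1*p*v0*w +M1*q*v0*w) * W.hk1M
    + (P2*p*q*v0*v1*vk -P2*p*q*v0*v1*vk1 -P2*p*q*v0*ve*vk +P2*p*q*v0*ve*vk1 -2*P2*p*q*v0*vk*w
    +2*P2*p*q*v0*vk1*w -P2*p*q*v1*ve*vk +P2*p*q*v1*ve*vk1 -P2*p*q*v1*vk*w +P2*p*q*v1*vk1*w
    +P2*p*q*ve*vk*w -P2*p*q*ve*vk1*w +P2*p*v0*v1*vk*w -P2*p*v0*v1*vk1*w -P2*p*v0*ve*vk*w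
    +P2*p*v0*ve*vk1*w -P2*p*v1*ve*vk*w +P2*p*v1*ve*vk1*w +P2*q*v0*v1*ve*vk -P2*q*v0*v1*ve*vk1
    +P2*q*v0*v1*vk*w -P2*q*v0*v1*vk1*w -P2*q*v0*ve*vk*w +P2*q*v0*ve*vk1*w +P2*v0*v1*ve*vk*w
    -P2*v0*v1*ve*vk1*w) * hx + (M1*p*q*v0*vk1 -M1*p*q*vk1*w +M1*p*v0*vk1*w +M1*q*v0*vk1*w) *
    W.he + (2*M1*p*q*v0*w) * W.hk1

theorem DG_y (W : Split p q w v0 v1 ve vk vk1 P1 P2 M1 M2) (hy : y * P2 = M2) (hyM : y * M2 = 0) :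
    y * ((vk - vk1) * ((v0 - p) * ((v0 + v1 - q) * (P1 * P2) * (ve + w + p) * (w + q)))) = -(2 *
      (p * q * v0 * (M1 * M2) * w)) := by
  linear_combination (-P1*P2*q*v0*vk*y +P1*P2*q*v0*vk1*y -P1*P2*q*v1*vk*y +P1*P2*q*v1*vk1*y
    +P1*P2*q*vk*w*y -P1*P2*q*vk1*w*y +P1*P2*q^2*vk*y -P1*P2*q^2*vk1*y -P1*P2*v0*vk*w*y
    +P1*P2*v0*vk1*w*y -P1*P2*v1*vk*w*y +P1*P2*v1*vk1*w*y) * W.hp + (-P1*P2*p*v0*vk*y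
    +P1*P2*p*v0*vk1*y +P1*P2*p*ve*vk*y -P1*P2*p*ve*vk1*y +P1*P2*p*vk*w*y -P1*P2*p*vk1*w*y
    -P1*P2*v0*ve*vk*y +P1*P2*v0*ve*vk1*y -P1*P2*v0*vk*w*y +P1*P2*v0*vk1*w*y) * W.hq +
    (P1*P2*p*q*vk*y -P1*P2*p*q*vk1*y -P1*P2*p*v0*vk*y +P1*P2*p*v0*vk1*y -P1*P2*p*v1*vk*y
    +P1*P2*p*v1*vk1*y -P1*P2*q*v0*vk*y +P1*P2*q*v0*vk1*y +P1*P2*v0*v1*vk*y -P1*P2*v0*v1*vk1*y
    +P1*P2*v0^2*vk*y -P1*P2*v0^2*vk1*y) * W.hw + (P1*P2*p*q*vk*y -P1*P2*p*q*vk1*y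
    +P1*P2*p*vk*w*y -P1*P2*p*vk1*w*y +P1*P2*q*ve*vk*y -P1*P2*q*ve*vk1*y +P1*P2*q*vk*w*y
    -P1*P2*q*vk1*w*y +P1*P2*ve*vk*w*y -P1*P2*ve*vk1*w*y) * W.h0 + (-P1*p*q*v0*vk +P1*p*q*v0*vk1
    -P1*p*q*v1*vk +P1*p*q*v1*vk1 +P1*p*q*vk*w -P1*p*q*vk1*w -P1*p*v0*vk*w +P1*p*v0*vk1*w
    -P1*p*v1*vk*w +P1*p*v1*vk1*w +P1*q*v0*v1*vk -P1*q*v0*v1*vk1 -P1*q*v0*vk*w +P1*q*v0*vk1*w
    +P1*v0*v1*vk*w -P1*v0*v1*vk1*w) * W.heM + (M2*p*q*v0 -M2*p*q*w +M2*p*v0*w +M2*q*v0*w) *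
    W.hkM + (-P1*p*q*v0*v1 +2*P1*p*q*v0*w +P1*p*q*v1*w -P1*p*v0*v1*w -P1*q*v0*v1*w) * W.hk1M +
    (P1*p*q*v0*v1*vk -P1*p*q*v0*v1*vk1 -P1*p*q*v0*ve*vk +P1*p*q*v0*ve*vk1 -2*P1*p*q*v0*vk*w
    +2*P1*p*q*v0*vk1*w -P1*p*q*v1*ve*vk +P1*p*q*v1*ve*vk1 -P1*p*q*v1*vk*w +P1*p*q*v1*vk1*w
    +P1*p*q*ve*vk*w -P1*p*q*ve*vk1*w +P1*p*v0*v1*vk*w -P1*p*v0*v1*vk1*w -P1*p*v0*ve*vk*w
    +P1*p*v0*ve*vk1*w -P1*p*v1*ve*vk*w +P1*p*v1*ve*vk1*w +P1*q*v0*v1*ve*vk -P1*q*v0*v1*ve*vk1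
    +P1*q*v0*v1*vk*w -P1*q*v0*v1*vk1*w -P1*q*v0*ve*vk*w +P1*q*v0*ve*vk1*w +P1*v0*v1*ve*vk*w
    -P1*v0*v1*ve*vk1*w) * hy + (M2*p*q*v0*vk -M2*p*q*vk*w +M2*p*v0*vk*w +M2*q*v0*vk*w) * W.h1 +
    (-2*M2*p*q*v0*w) * W.hk

theorem DG_w (W : Split p q w v0 v1 ve vk vk1 P1 P2 M1 M2) :
    w * ((vk - vk1) * ((v0 - p) * ((v0 + v1 - q) * (P1 * P2) * (ve + w + p) * (w + q)))) = -(2 *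
      (p * q * v0 * (M1 * M2) * w)) := by
  linear_combination (-P1*P2*q*v0*vk*w +P1*P2*q*v0*vk1*w -P1*P2*q*v1*vk*w +P1*P2*q*v1*vk1*w
    +P1*P2*q*vk*w^2 -P1*P2*q*vk1*w^2 +P1*P2*q^2*vk*w -P1*P2*q^2*vk1*w -P1*P2*v0*vk*w^2
    +P1*P2*v0*vk1*w^2 -P1*P2*v1*vk*w^2 +P1*P2*v1*vk1*w^2) * W.hp + (-P1*P2*p*v0*vk*w
    +P1*P2*p*v0*vk1*w +P1*P2*p*ve*vk*w -P1*P2*p*ve*vk1*w +P1*P2*p*vk*w^2 -P1*P2*p*vk1*w^2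
    -P1*P2*v0*ve*vk*w +P1*P2*v0*ve*vk1*w -P1*P2*v0*vk*w^2 +P1*P2*v0*vk1*w^2) * W.hq +
    (-2*P1*P2*p*q*v0*vk +2*P1*P2*p*q*v0*vk1 -P1*P2*p*q*v1*vk +P1*P2*p*q*v1*vk1 +P1*P2*p*q*ve*vk
    -P1*P2*p*q*ve*vk1 +P1*P2*p*q*vk*w -P1*P2*p*q*vk1*w +P1*P2*p*v0*v1*vk -P1*P2*p*v0*v1*vk1
    -P1*P2*p*v0*ve*vk +P1*P2*p*v0*ve*vk1 -P1*P2*p*v0*vk*w +P1*P2*p*v0*vk1*w +P1*P2*p*v0^2*vk
    -P1*P2*p*v0^2*vk1 -P1*P2*p*v1*ve*vk +P1*P2*p*v1*ve*vk1 -P1*P2*p*v1*vk*w +P1*P2*p*v1*vk1*w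
    +P1*P2*q*v0*v1*vk -P1*P2*q*v0*v1*vk1 -P1*P2*q*v0*ve*vk +P1*P2*q*v0*ve*vk1 -P1*P2*q*v0*vk*w
    +P1*P2*q*v0*vk1*w +P1*P2*q*v0^2*vk -P1*P2*q*v0^2*vk1 +P1*P2*v0*v1*ve*vk -P1*P2*v0*v1*ve*vk1
    +P1*P2*v0*v1*vk*w -P1*P2*v0*v1*vk1*w +P1*P2*v0^2*ve*vk -P1*P2*v0^2*ve*vk1 +P1*P2*v0^2*vk*w
    -P1*P2*v0^2*vk1*w) * W.hw + (P1*P2*p*q*vk*w -P1*P2*p*q*vk1*w +P1*P2*q*ve*vk*w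
    -P1*P2*q*ve*vk1*w) * W.h0 + (P2*p*q*v0*w -P2*p*q*ve*w +P2*q*v0*ve*w) * W.hkM + (M1*p*q*w
    -M1*q*v0*w +P1*p*q*v0*w) * W.hk1M + (P2*p*q*v0*vk*w -P2*p*q*v0*vk1*w -P2*p*q*ve*vk*w
    +P2*p*q*ve*vk1*w +P2*q*v0*ve*vk*w -P2*q*v0*ve*vk1*w) * W.h1 + (M1*p*q*vk1*w -M1*q*v0*vk1*w
    -P1*p*q*v0*vk*w +P1*p*q*v0*vk1*w) * W.he + (-M2*p*q*v0*w) * W.hk + (-M1*p*q*v0*w) * W.hk1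

theorem pGm_p (W : Split p q w v0 v1 ve vk vk1 P1 P2 M1 M2) :
    p * (p * ((v0 - p) * ((v0 + v1 - q) * (P1 * P2) * (ve + w + p) * (w + q)))) = 0 := by
  linear_combination (P1*P2*p*q*v0*v1 -P1*P2*p*q*v0*ve -2*P1*P2*p*q*v0*w +P1*P2*p*q*v0^2
    -P1*P2*p*q*v1*ve -P1*P2*p*q*v1*w +P1*P2*p*q*ve*w +P1*P2*p*q*w^2 -P1*P2*p*q^2*v0
    +P1*P2*p*q^2*ve +P1*P2*p*q^2*w +P1*P2*p*v0*v1*w -P1*P2*p*v0*ve*w -P1*P2*p*v0*w^2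
    +P1*P2*p*v0^2*w -P1*P2*p*v1*ve*w -P1*P2*p*v1*w^2 -P1*P2*p^2*q*v0 -P1*P2*p^2*q*v1
    +P1*P2*p^2*q*w +P1*P2*p^2*q^2 -P1*P2*p^2*v0*w -P1*P2*p^2*v1*w +P1*P2*q*v0*v1*ve
    +P1*P2*q*v0*v1*w -P1*P2*q*v0*ve*w -P1*P2*q*v0*w^2 +P1*P2*q*v0^2*ve +P1*P2*q*v0^2*w
    -P1*P2*q^2*v0*ve -P1*P2*q^2*v0*w +P1*P2*v0*v1*ve*w +P1*P2*v0*v1*w^2 +P1*P2*v0^2*ve*w
    +P1*P2*v0^2*w^2) * W.hp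

theorem pGm_q (W : Split p q w v0 v1 ve vk vk1 P1 P2 M1 M2) :
    q * (p * ((v0 - p) * ((v0 + v1 - q) * (P1 * P2) * (ve + w + p) * (w + q)))) = (p * q * v0 *
      (M1 * M2) * w) := by
  linear_combination (-P1*P2*p*q*v0*w -P1*P2*p*q*v1*w -P1*P2*p*q^2*v0 -P1*P2*p*q^2*v1
    +P1*P2*p*q^2*w +P1*P2*p*q^3 +P1*P2*q*v0*v1*w -P1*P2*q*v0*ve*w -P1*P2*q*v0*w^2
    +P1*P2*q*v0^2*w -P1*P2*q*v1*ve*w -P1*P2*q*v1*w^2 +P1*P2*q^2*v0*v1 -P1*P2*q^2*v0*ve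
    -2*P1*P2*q^2*v0*w +P1*P2*q^2*v0^2 -P1*P2*q^2*v1*ve -P1*P2*q^2*v1*w +P1*P2*q^2*ve*w
    +P1*P2*q^2*w^2 -P1*P2*q^3*v0 +P1*P2*q^3*ve +P1*P2*q^3*w) * W.hp + (-P1*P2*p*q*v0*ve
    -P1*P2*p*q*v0*w +P1*P2*p*v0*v1*ve +P1*P2*p*v0*v1*w -P1*P2*p*v0*ve*w -P1*P2*p*v0*w^2
    +P1*P2*p*v0^2*ve +P1*P2*p*v0^2*w) * W.hq + (P1*P2*p*q*v0*v1 +P1*P2*p*q*v0^2) * W.hw +
    (P1*P2*p*q*ve*w) * W.h0 + (P2*p*q*v0*ve*w) * W.h1 + (M1*p*q*v0*w) * W.he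

theorem pGm_v0 (W : Split p q w v0 v1 ve vk vk1 P1 P2 M1 M2) :
    v0 * (p * ((v0 - p) * ((v0 + v1 - q) * (P1 * P2) * (ve + w + p) * (w + q)))) = 0 := by
  linear_combination (-P1*P2*p*q*v0*v1 +P1*P2*p*q*v0*w -P1*P2*p*q*v0^2 +P1*P2*p*q^2*v0
    -P1*P2*p*v0*v1*w -P1*P2*p*v0^2*w -P1*P2*q*v0*v1*ve -P1*P2*q*v0*v1*w +P1*P2*q*v0*ve*w
    +P1*P2*q*v0*w^2 +P1*P2*q*v0^2*v1 -P1*P2*q*v0^2*ve -2*P1*P2*q*v0^2*w +P1*P2*q*v0^3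
    +P1*P2*q^2*v0*ve +P1*P2*q^2*v0*w -P1*P2*q^2*v0^2 -P1*P2*v0*v1*ve*w -P1*P2*v0*v1*w^2
    +P1*P2*v0^2*v1*w -P1*P2*v0^2*ve*w -P1*P2*v0^2*w^2 +P1*P2*v0^3*w) * W.hp + (-P1*P2*p*v0^2*ve
    -P1*P2*p*v0^2*w) * W.hq + (-P1*P2*p*q*v0^2 +P1*P2*p*v0^2*v1 +P1*P2*p*v0^3) * W.hw +
    (P1*P2*p*q*v0*ve +P1*P2*p*q*v0*w +P1*P2*p*q*v1*ve +P1*P2*p*q*v1*w -P1*P2*p*q*ve*w
    +P1*P2*p*v0*ve*w +P1*P2*p*v1*ve*w) * W.h0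

theorem pGm_x (W : Split p q w v0 v1 ve vk vk1 P1 P2 M1 M2) (hx : x * P1 = M1) (hxM : x * M1 =
      0) :
    x * (p * ((v0 - p) * ((v0 + v1 - q) * (P1 * P2) * (ve + w + p) * (w + q)))) = -(p * q * v0 *
      (M1 * M2) * w) := by
  linear_combination (-P1*P2*p*q*v0*x -P1*P2*p*q*v1*x +P1*P2*p*q*w*x +P1*P2*p*q^2*x
    -P1*P2*p*v0*w*x -P1*P2*p*v1*w*x +P1*P2*q*v0*v1*x -P1*P2*q*v0*ve*x -2*P1*P2*q*v0*w*x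
    +P1*P2*q*v0^2*x -P1*P2*q*v1*ve*x -P1*P2*q*v1*w*x +P1*P2*q*ve*w*x +P1*P2*q*w^2*x
    -P1*P2*q^2*v0*x +P1*P2*q^2*ve*x +P1*P2*q^2*w*x +P1*P2*v0*v1*w*x -P1*P2*v0*ve*w*x
    -P1*P2*v0*w^2*x +P1*P2*v0^2*w*x -P1*P2*v1*ve*w*x -P1*P2*v1*w^2*x) * W.hp + (-P1*P2*p*v0*ve*x
    -P1*P2*p*v0*w*x) * W.hq + (-P1*P2*p*q*v0*x +P1*P2*p*v0*v1*x +P1*P2*p*v0^2*x) * W.hw +
    (P1*P2*p*q*ve*x +P1*P2*p*q*w*x +P1*P2*p*ve*w*x) * W.h0 + (P2*p*q*v0*ve +P2*p*q*v0*w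
    +P2*p*v0*ve*w) * W.h1M + (P2*p*q*v0*v1*ve +P2*p*q*v0*v1*w -P2*p*q*v0*ve*w +P2*p*v0*v1*ve*w)
    * hx + (-M1*p*q*v0*w) * W.he

theorem pGm_y (W : Split p q w v0 v1 ve vk vk1 P1 P2 M1 M2) (hy : y * P2 = M2) (hyM : y * M2 =
      0) :
    y * (p * ((v0 - p) * ((v0 + v1 - q) * (P1 * P2) * (ve + w + p) * (w + q)))) = (p * q * v0 *
      (M1 * M2) * w) := by
  linear_combination (-P1*P2*p*q*v0*y -P1*P2*p*q*v1*y +P1*P2*p*q*w*y +P1*P2*p*q^2*y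
    -P1*P2*p*v0*w*y -P1*P2*p*v1*w*y +P1*P2*q*v0*v1*y -P1*P2*q*v0*ve*y -2*P1*P2*q*v0*w*y
    +P1*P2*q*v0^2*y -P1*P2*q*v1*ve*y -P1*P2*q*v1*w*y +P1*P2*q*ve*w*y +P1*P2*q*w^2*y
    -P1*P2*q^2*v0*y +P1*P2*q^2*ve*y +P1*P2*q^2*w*y +P1*P2*v0*v1*w*y -P1*P2*v0*ve*w*y
    -P1*P2*v0*w^2*y +P1*P2*v0^2*w*y -P1*P2*v1*ve*w*y -P1*P2*v1*w^2*y) * W.hp + (-P1*P2*p*v0*ve*y
    -P1*P2*p*v0*w*y) * W.hq + (-P1*P2*p*q*v0*y +P1*P2*p*v0*v1*y +P1*P2*p*v0^2*y) * W.hw +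
    (P1*P2*p*q*ve*y +P1*P2*p*q*w*y +P1*P2*p*ve*w*y) * W.h0 + (P1*p*q*v0*v1 -P1*p*q*v0*w
    +P1*p*v0*v1*w) * W.heM + (P1*p*q*v0*v1*ve +P1*p*q*v0*v1*w -P1*p*q*v0*ve*w +P1*p*v0*v1*ve*w)
    * hy + (M2*p*q*v0*w) * W.h1

theorem pGm_w (W : Split p q w v0 v1 ve vk vk1 P1 P2 M1 M2) :
    w * (p * ((v0 - p) * ((v0 + v1 - q) * (P1 * P2) * (ve + w + p) * (w + q)))) = (p * q * v0 *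
      (M1 * M2) * w) := by
  linear_combination (-P1*P2*p*q*v0*w -P1*P2*p*q*v1*w +P1*P2*p*q*w^2 +P1*P2*p*q^2*w
    -P1*P2*p*v0*w^2 -P1*P2*p*v1*w^2 +P1*P2*q*v0*v1*w -P1*P2*q*v0*ve*w -2*P1*P2*q*v0*w^2
    +P1*P2*q*v0^2*w -P1*P2*q*v1*ve*w -P1*P2*q*v1*w^2 +P1*P2*q*ve*w^2 +P1*P2*q*w^3
    -P1*P2*q^2*v0*w +P1*P2*q^2*ve*w +P1*P2*q^2*w^2 +P1*P2*v0*v1*w^2 -P1*P2*v0*ve*w^2
    -P1*P2*v0*w^3 +P1*P2*v0^2*w^2 -P1*P2*v1*ve*w^2 -P1*P2*v1*w^3) * W.hp + (-P1*P2*p*v0*ve*w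
    -P1*P2*p*v0*w^2) * W.hq + (P1*P2*p*q*v0*v1 -P1*P2*p*q*v0*ve -P1*P2*p*q*v0*w +P1*P2*p*q*v0^2
    +P1*P2*p*v0*v1*ve +P1*P2*p*v0*v1*w +P1*P2*p*v0^2*ve +P1*P2*p*v0^2*w) * W.hw +
    (P1*P2*p*q*ve*w) * W.h0 + (P2*p*q*v0*ve*w) * W.h1 + (M1*p*q*v0*w) * W.he

theorem qGm_p (W : Split p q w v0 v1 ve vk vk1 P1 P2 M1 M2) :
    p * (q * ((v0 - p) * ((v0 + v1 - q) * (P1 * P2) * (ve + w + p) * (w + q)))) = (p * q * v0 *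
      (M1 * M2) * w) := by
  linear_combination (-P1*P2*p*q*v0*w -P1*P2*p*q*v1*w -P1*P2*p*q^2*v0 -P1*P2*p*q^2*v1
    +P1*P2*p*q^2*w +P1*P2*p*q^3 +P1*P2*q*v0*v1*w -P1*P2*q*v0*ve*w -P1*P2*q*v0*w^2
    +P1*P2*q*v0^2*w -P1*P2*q*v1*ve*w -P1*P2*q*v1*w^2 +P1*P2*q^2*v0*v1 -P1*P2*q^2*v0*ve
    -2*P1*P2*q^2*v0*w +P1*P2*q^2*v0^2 -P1*P2*q^2*v1*ve -P1*P2*q^2*v1*w +P1*P2*q^2*ve*w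
    +P1*P2*q^2*w^2 -P1*P2*q^3*v0 +P1*P2*q^3*ve +P1*P2*q^3*w) * W.hp + (-P1*P2*p*q*v0*ve
    -P1*P2*p*q*v0*w +P1*P2*p*v0*v1*ve +P1*P2*p*v0*v1*w -P1*P2*p*v0*ve*w -P1*P2*p*v0*w^2
    +P1*P2*p*v0^2*ve +P1*P2*p*v0^2*w) * W.hq + (P1*P2*p*q*v0*v1 +P1*P2*p*q*v0^2) * W.hw +
    (P1*P2*p*q*ve*w) * W.h0 + (P2*p*q*v0*ve*w) * W.h1 + (M1*p*q*v0*w) * W.he

theorem qGm_q (W : Split p q w v0 v1 ve vk vk1 P1 P2 M1 M2) :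
    q * (q * ((v0 - p) * ((v0 + v1 - q) * (P1 * P2) * (ve + w + p) * (w + q)))) = 0 := by
  linear_combination (-P1*P2*q^2*v0*w -P1*P2*q^2*v1*w -P1*P2*q^3*v0 -P1*P2*q^3*v1 +P1*P2*q^3*w
    +P1*P2*q^4) * W.hp + (P1*P2*p*q*v0*v1 -P1*P2*p*q*v0*ve -2*P1*P2*p*q*v0*w +P1*P2*p*q*v0^2
    -P1*P2*p*q*v1*ve -P1*P2*p*q*v1*w +P1*P2*p*q*ve*w +P1*P2*p*q*w^2 -P1*P2*p*q^2*v0
    +P1*P2*p*q^2*ve +P1*P2*p*q^2*w +P1*P2*p*v0*v1*w -P1*P2*p*v0*ve*w -P1*P2*p*v0*w^2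
    +P1*P2*p*v0^2*w -P1*P2*p*v1*ve*w -P1*P2*p*v1*w^2 +P1*P2*q*v0*v1*ve +P1*P2*q*v0*v1*w
    -P1*P2*q*v0*ve*w -P1*P2*q*v0*w^2 +P1*P2*q*v0^2*ve +P1*P2*q*v0^2*w -P1*P2*q^2*v0*ve
    -P1*P2*q^2*v0*w +P1*P2*v0*v1*ve*w +P1*P2*v0*v1*w^2 +P1*P2*v0^2*ve*w +P1*P2*v0^2*w^2) * W.hq

theorem qGm_v0 (W : Split p q w v0 v1 ve vk vk1 P1 P2 M1 M2) :
    v0 * (q * ((v0 - p) * ((v0 + v1 - q) * (P1 * P2) * (ve + w + p) * (w + q)))) = -(p * q * v0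
      * (M1 * M2) * w) := by
  linear_combination (-P1*P2*q*v0*v1*w -P1*P2*q*v0^2*w -P1*P2*q^2*v0*v1 +P1*P2*q^2*v0*w
    -P1*P2*q^2*v0^2 +P1*P2*q^3*v0) * W.hp + (P1*P2*p*q*v0*ve +P1*P2*p*q*v0*w -P1*P2*p*q*v0^2
    -P1*P2*p*v0*v1*ve -P1*P2*p*v0*v1*w +P1*P2*p*v0*ve*w +P1*P2*p*v0*w^2 +P1*P2*p*v0^2*v1
    -P1*P2*p*v0^2*ve -2*P1*P2*p*v0^2*w +P1*P2*p*v0^3 -P1*P2*q*v0^2*ve -P1*P2*q*v0^2*w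
    +P1*P2*v0^2*v1*ve +P1*P2*v0^2*v1*w -P1*P2*v0^2*ve*w -P1*P2*v0^2*w^2 +P1*P2*v0^3*ve
    +P1*P2*v0^3*w) * W.hq + (-P1*P2*p*q*v0*v1 -P1*P2*p*q*v0^2 +P1*P2*q*v0^2*v1 +P1*P2*q*v0^3) *
    W.hw + (P1*P2*p*q*v0*w +P1*P2*p*q*v1*w -P1*P2*p*q*ve*w +P1*P2*q*v0*ve*w +P1*P2*q*v1*ve*w) *
    W.h0 + (-P2*p*q*v0*ve*w) * W.h1 + (-M1*p*q*v0*w) * W.he

theorem qGm_x (W : Split p q w v0 v1 ve vk vk1 P1 P2 M1 M2) (hx : x * P1 = M1) (hxM : x * M1 =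
      0) :
    x * (q * ((v0 - p) * ((v0 + v1 - q) * (P1 * P2) * (ve + w + p) * (w + q)))) = -(p * q * v0 *
      (M1 * M2) * w) := by
  linear_combination (-P1*P2*q*v0*w*x -P1*P2*q*v1*w*x -P1*P2*q^2*v0*x -P1*P2*q^2*v1*x
    +P1*P2*q^2*w*x +P1*P2*q^3*x) * W.hp + (-P1*P2*p*q*v0*x +P1*P2*p*q*ve*x +P1*P2*p*q*w*x
    +P1*P2*p*v0*v1*x -P1*P2*p*v0*ve*x -2*P1*P2*p*v0*w*x +P1*P2*p*v0^2*x -P1*P2*p*v1*ve*x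
    -P1*P2*p*v1*w*x +P1*P2*p*ve*w*x +P1*P2*p*w^2*x -P1*P2*q*v0*ve*x -P1*P2*q*v0*w*x
    +P1*P2*v0*v1*ve*x +P1*P2*v0*v1*w*x -P1*P2*v0*ve*w*x -P1*P2*v0*w^2*x +P1*P2*v0^2*ve*x
    +P1*P2*v0^2*w*x) * W.hq + (-P1*P2*p*q*v0*x -P1*P2*p*q*v1*x +P1*P2*q*v0*v1*x +P1*P2*q*v0^2*x)
    * W.hw + (P1*P2*p*q*w*x +P1*P2*q*ve*w*x) * W.h0 + (P2*p*q*v0*w -P2*p*q*ve*w +P2*q*v0*ve*w) *
    W.h1M + (P2*p*q*v0*v1*w -P2*p*q*v0*ve*w -P2*p*q*v1*ve*w +P2*q*v0*v1*ve*w) * hx +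
    (-M1*p*q*v0*w) * W.he

theorem qGm_y (W : Split p q w v0 v1 ve vk vk1 P1 P2 M1 M2) (hy : y * P2 = M2) (hyM : y * M2 =
      0) :
    y * (q * ((v0 - p) * ((v0 + v1 - q) * (P1 * P2) * (ve + w + p) * (w + q)))) = (p * q * v0 *
      (M1 * M2) * w) := by
  linear_combination (-P1*P2*q*v0*w*y -P1*P2*q*v1*w*y -P1*P2*q^2*v0*y -P1*P2*q^2*v1*y
    +P1*P2*q^2*w*y +P1*P2*q^3*y) * W.hp + (-P1*P2*p*q*v0*y +P1*P2*p*q*ve*y +P1*P2*p*q*w*y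
    +P1*P2*p*v0*v1*y -P1*P2*p*v0*ve*y -2*P1*P2*p*v0*w*y +P1*P2*p*v0^2*y -P1*P2*p*v1*ve*y
    -P1*P2*p*v1*w*y +P1*P2*p*ve*w*y +P1*P2*p*w^2*y -P1*P2*q*v0*ve*y -P1*P2*q*v0*w*y
    +P1*P2*v0*v1*ve*y +P1*P2*v0*v1*w*y -P1*P2*v0*ve*w*y -P1*P2*v0*w^2*y +P1*P2*v0^2*ve*y
    +P1*P2*v0^2*w*y) * W.hq + (-P1*P2*p*q*v0*y -P1*P2*p*q*v1*y +P1*P2*q*v0*v1*y +P1*P2*q*v0^2*y)
    * W.hw + (P1*P2*p*q*w*y +P1*P2*q*ve*w*y) * W.h0 + (-P1*p*q*v0*w -P1*p*q*v1*w +P1*q*v0*v1*w)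
    * W.heM + (P1*p*q*v0*v1*w -P1*p*q*v0*ve*w -P1*p*q*v1*ve*w +P1*q*v0*v1*ve*w) * hy +
    (M2*p*q*v0*w) * W.h1

theorem qGm_w (W : Split p q w v0 v1 ve vk vk1 P1 P2 M1 M2) :
    w * (q * ((v0 - p) * ((v0 + v1 - q) * (P1 * P2) * (ve + w + p) * (w + q)))) = 0 := by
  linear_combination (-P1*P2*q*v0*w^2 -P1*P2*q*v1*w^2 -P1*P2*q^2*v0*w -P1*P2*q^2*v1*w
    +P1*P2*q^2*w^2 +P1*P2*q^3*w) * W.hp + (-P1*P2*p*q*v0*w +P1*P2*p*q*ve*w +P1*P2*p*q*w^2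
    +P1*P2*p*v0*v1*w -P1*P2*p*v0*ve*w -2*P1*P2*p*v0*w^2 +P1*P2*p*v0^2*w -P1*P2*p*v1*ve*w
    -P1*P2*p*v1*w^2 +P1*P2*p*ve*w^2 +P1*P2*p*w^3 -P1*P2*q*v0*ve*w -P1*P2*q*v0*w^2
    +P1*P2*v0*v1*ve*w +P1*P2*v0*v1*w^2 -P1*P2*v0*ve*w^2 -P1*P2*v0*w^3 +P1*P2*v0^2*ve*w
    +P1*P2*v0^2*w^2) * W.hq + (P1*P2*p*q*v0*v1 -P1*P2*p*q*v0*ve -P1*P2*p*q*v0*w +P1*P2*p*q*v0^2
    -P1*P2*p*q*v1*ve -P1*P2*p*q*v1*w +P1*P2*q*v0*v1*ve +P1*P2*q*v0*v1*w +P1*P2*q*v0^2*ve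
    +P1*P2*q*v0^2*w) * W.hw

end Pool.Agent.HankelPerm.BOdd
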