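import Pool.Agent.HankelPerm.PathProd
import Pool.Agent.HankelPerm.BOddWt

/-!
Path and cycle products for the family `m = t`, `n = t + 1`, `t` odd.
-/

namespace Pool.Agent.HankelPerm.BOdd

open Finset

section cyc

variable {A : Type*} [CommRing A] (y : ℕ → A) (d : ℕ)

/-- The cycle without the row `x + 3`. -/
def zz (x : ℕ) : A := pth y 3 x * pth y (x + 4) (d - 1 - x) * (y 3 - y (d + 3))

/-- The cycle without the closing row. -/
def zl : A := pth y 3 d

/-- The product of the columns of the cycle. -/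
def YZ : A := mon y 3 (d + 1)

variable {y} {d} (hv : ∀ s, y s * y s = 0)

include hv

theorem mul_YZ {m : ℕ} (h1 : 3 ≤ m) (h2 : m ≤ d + 3) : y m * YZ y d = 0 :=
  mul_mon hv h1 (by omega)

theorem mul_zl {m : ℕ} (h1 : 3 ≤ m) (h2 : m ≤ d + 3) : y m * zl y d = YZ y d :=
  mul_pth hv h1 (by omega)

theorem mul_zz_low {m x : ℕ} (hx : x < d) (h1 : 3 ≤ m) (h2 : m ≤ x + 3) :
    y m * zz y d x = - YZ y d := by
  have e1 : y m * pth y 3 x = mon y 3 (x + 1) := mul_pth hv h1 (by omega)
  have e2 : y 3 * mon y 3 (x + 1) = 0 := mul_mon hv le_rfl (by omega)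
  have e3 : y (d + 3) * pth y (x + 4) (d - 1 - x) = mon y (x + 4) (d - 1 - x + 1) :=
    mul_pth hv (by omega) (by omega)
  have e4 : mon y 3 (x + 1) * mon y (x + 4) (d - 1 - x + 1) = YZ y d := by
    have := mon_add (v := y) 3 (x + 1) (d - 1 - x + 1)
    rw [show 3 + (x + 1) = x + 4 by ring, show x + 1 + (d - 1 - x + 1) = d + 1 by omega] at this
    exact this
  rw [zz, ← e4, ← e3]
  linear_combination (pth y (x + 4) (d - 1 - x) * (y 3 - y (d + 3))) * e1 +
    pth y (x + 4) (d - 1 - x) * e2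

theorem mul_zz_high {m x : ℕ} (hx : x < d) (h1 : x + 4 ≤ m) (h2 : m ≤ d + 3) :
    y m * zz y d x = YZ y d := by
  have e1 : y m * pth y (x + 4) (d - 1 - x) = mon y (x + 4) (d - 1 - x + 1) :=
    mul_pth hv h1 (by omega)
  have e2 : y (d + 3) * mon y (x + 4) (d - 1 - x + 1) = 0 := mul_mon hv (by omega) (by omega)
  have e3 : y 3 * pth y 3 x = mon y 3 (x + 1) := mul_pth hv le_rfl (by omega)
  have e4 : mon y 3 (x + 1) * mon y (x + 4) (d - 1 - x + 1) = YZ y d := by
    have := mon_add (v := y) 3 (x + 1) (d - 1 - x + 1)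
    rw [show 3 + (x + 1) = x + 4 by ring, show x + 1 + (d - 1 - x + 1) = d + 1 by omega] at this
    exact this
  rw [zz, ← e4, ← e3]
  linear_combination (pth y 3 x * (y 3 - y (d + 3))) * e1 - pth y 3 x * e2

theorem cycle_zero : zl y d * (y 3 - y (d + 3)) = 0 := by
  linear_combination mul_zl (y := y) (d := d) hv (m := 3) le_rfl (by omega) -
    mul_zl (y := y) (d := d) hv (m := d + 3) (by omega) le_rfl

end cyc

section expand

variable {A : Type*} [CommRing A] {ι : Type*} [DecidableEq ι]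

/-- Expansion of a product of binomials when the second parts multiply to zero. -/
theorem mul_prod_add (X : A) (a b : ι → A) (s : Finset ι)
    (hb : ∀ i ∈ s, ∀ j ∈ s, X * (b i * b j) = 0) :
    X * ∏ i ∈ s, (a i + b i) = X * ∏ i ∈ s, a i + ∑ i ∈ s, X * b i * ∏ j ∈ s.erase i, a j := by
  induction s using Finset.induction_on with
  | empty => simp
  | insert i0 s hi ih =>
    rw [Finset.prod_insert hi, Finset.prod_insert hi, Finset.sum_insert hi,
      Finset.erase_insert hi]
    have h1 : ∑ i ∈ s, X * b i * ∏ j ∈ (insert i0 s).erase i, a j =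
        a i0 * ∑ i ∈ s, X * b i * ∏ j ∈ s.erase i, a j := by
      rw [Finset.mul_sum]
      refine Finset.sum_congr rfl fun i hi' => ?_
      have hne : i ≠ i0 := fun h => hi (h ▸ hi')
      rw [Finset.erase_insert_of_ne hne.symm, Finset.prod_insert (by
        rw [Finset.mem_erase]; exact fun h => hi h.2)]
      ring
    have h2 : b i0 * ∑ i ∈ s, X * b i * ∏ j ∈ s.erase i, a j = 0 := by
      rw [Finset.mul_sum]
      refine Finset.sum_eq_zero fun i hi' => ?_
      linear_combination (∏ j ∈ s.erase i, a j) * hb i0 (Finset.mem_insert_self _ _) i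
        (Finset.mem_insert_of_mem hi')
    have ih' := ih fun i hi' j hj' =>
      hb i (Finset.mem_insert_of_mem hi') j (Finset.mem_insert_of_mem hj')
    rw [h1]
    linear_combination (a i0 + b i0) * ih' + h2

end expand

section out

/-!
The other rows, in variables `p = y 1`, `q = y 2`, `v l = y (d + 4 + l)`.
-/

variable {A : Type*} [CommRing A] (p q : A) (v : ℕ → A) (e : ℕ)

/-- The rows, without the columns of the cycle. -/
def rr (k : ℕ) : A :=
  if k = e + 2 then v (e + 2) + q else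
    if k = e + 1 then v (e + 1) + v (e + 2) + p else v k + v (k + 1)

/-- The product of the rows. -/
def G : A := (v 0 + v 1 - q) * ∏ k ∈ Icc 1 (e + 2), rr p q v e k

/-- The product of the rows but `k`. -/
def Gk (k : ℕ) : A := (v 0 + v 1 - q) * ∏ k' ∈ (Icc 1 (e + 2)).erase k, rr p q v e k'

/-- The product of all variables. -/
def Top : A := p * q * v 0 * mon v 1 (e + 1) * v (e + 2)

variable {p q v e}

theorem rr_last : rr p q v e (e + 2) = v (e + 2) + q := by simp [rr]

theorem rr_pred : rr p q v e (e + 1) = v (e + 1) + v (e + 2) + p := by simp [rr]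

theorem rr_mid {k : ℕ} (hk : k ≤ e) : rr p q v e k = v k + v (k + 1) := by
  rw [rr, if_neg (by omega), if_neg (by omega)]

theorem prod_rr_mid {a l : ℕ} (h : a + l ≤ e + 1) :
    ∏ k ∈ Ico a (a + l), rr p q v e k = pth v a l := by
  rw [Finset.prod_Ico_eq_prod_range, pth, show a + l - a = l by omega]
  refine Finset.prod_congr rfl fun x hx => ?_
  rw [mem_range] at hx
  rw [rr_mid (by omega)]

theorem G_eq : G p q v e = (v 0 + v 1 - q) * pth v 1 e * (v (e + 1) + v (e + 2) + p) *
    (v (e + 2) + q) := by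
  have h : Icc 1 (e + 2) = insert (e + 2) (insert (e + 1) (Ico 1 (1 + e))) := by
    ext x; simp only [mem_Icc, mem_insert, mem_Ico]; omega
  rw [G, h, Finset.prod_insert (by simp; omega), Finset.prod_insert (by simp; omega), rr_last,
    rr_pred, prod_rr_mid (by omega)]
  ring

theorem Gk_last : Gk p q v e (e + 2) = (v 0 + v 1 - q) * pth v 1 e *
    (v (e + 1) + v (e + 2) + p) := by
  have h : (Icc 1 (e + 2)).erase (e + 2) = insert (e + 1) (Ico 1 (1 + e)) := by
    ext x; simp only [mem_erase, mem_Icc, mem_insert, mem_Ico]; omega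
  rw [Gk, h, Finset.prod_insert (by simp; omega), rr_pred, prod_rr_mid (by omega)]
  ring

theorem Gk_pred : Gk p q v e (e + 1) = (v 0 + v 1 - q) * pth v 1 e * (v (e + 2) + q) := by
  have h : (Icc 1 (e + 2)).erase (e + 1) = insert (e + 2) (Ico 1 (1 + e)) := by
    ext x; simp only [mem_erase, mem_Icc, mem_insert, mem_Ico]; omega
  rw [Gk, h, Finset.prod_insert (by simp; omega), rr_last, prod_rr_mid (by omega)]
  ring

theorem Gk_mid {j : ℕ} (hj : j < e) : Gk p q v e (j + 1) = (v 0 + v 1 - q) *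
    (pth v 1 j * pth v (j + 2) (e - (j + 1))) * (v (e + 1) + v (e + 2) + p) *
    (v (e + 2) + q) := by
  have h : (Icc 1 (e + 2)).erase (j + 1) = insert (e + 2) (insert (e + 1)
      (Ico 1 (1 + j) ∪ Ico (j + 2) (j + 2 + (e - (j + 1))))) := by
    ext x; simp only [mem_erase, mem_Icc, mem_insert, mem_union, mem_Ico]; omega
  rw [Gk, h, Finset.prod_insert (by simp; omega), Finset.prod_insert (by simp; omega),
    Finset.prod_union (by
      rw [Finset.disjoint_left]; intro x; simp only [mem_Ico]; omega),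
    rr_last, rr_pred, prod_rr_mid (by omega), prod_rr_mid (by omega)]
  ring

theorem rr_mul_Gk {k : ℕ} (h1 : 1 ≤ k) (h2 : k ≤ e + 2) :
    rr p q v e k * Gk p q v e k = G p q v e := by
  rw [Gk, G, ← Finset.mul_prod_erase (Icc 1 (e + 2)) _ (Finset.mem_Icc.mpr ⟨h1, h2⟩)]
  ring

theorem Gk_eq_mul {k k' : ℕ} (h1 : 1 ≤ k) (h2 : k ≤ e + 2) (hne : k' ≠ k) :
    ∃ R, Gk p q v e k' = rr p q v e k * R := by
  refine ⟨(v 0 + v 1 - q) * ∏ j ∈ ((Icc 1 (e + 2)).erase k').erase k, rr p q v e j, ?_⟩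
  rw [Gk, ← Finset.mul_prod_erase ((Icc 1 (e + 2)).erase k') _ (Finset.mem_erase.mpr
    ⟨hne.symm, Finset.mem_Icc.mpr ⟨h1, h2⟩⟩)]
  ring

end out

section wt

variable {k : Type*} [Field k] {A : Type*} [CommRing A] [Algebra k A] {p q : A} {v : ℕ → A} {e : ℕ}

/-- The products of `X` with the variables are multiples of the product of all variables. -/
structure IsWt (p q : A) (v : ℕ → A) (e : ℕ) (X : A) (wp wq : k) (wv : ℕ → k) : Prop where
  hp : p * X = wp • Top p q v e
  hq : q * X = wq • Top p q v e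
  hv : ∀ l, l ≤ e + 2 → v l * X = wv l • Top p q v e

/-- Value of a linear form at weights. -/
def sc (e : ℕ) (c : ℕ → k) (wp wq : k) (wv : ℕ → k) : k :=
  c 1 * wp + c 2 * wq + ∑ l ∈ range (e + 3), c (e + 6 + l) * wv l

/-- The linear form. -/
def ev (p q : A) (v : ℕ → A) (e : ℕ) (c : ℕ → k) : A :=
  c 1 • p + c 2 • q + ∑ l ∈ range (e + 3), c (e + 6 + l) • v l

theorem IsWt.ev_mul {X : A} {wp wq : k} {wv : ℕ → k} (h : IsWt p q v e X wp wq wv) (c : ℕ → k) :
    ev p q v e c * X = sc e c wp wq wv • Top p q v e := by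
  rw [ev, sc, add_mul, add_mul, smul_mul_assoc, smul_mul_assoc, h.hp, h.hq, Finset.sum_mul,
    add_smul, add_smul, Finset.sum_smul, smul_smul, smul_smul]
  congr 1
  refine Finset.sum_congr rfl fun l hl => ?_
  rw [mem_range] at hl
  rw [smul_mul_assoc, h.hv l (by omega), smul_smul]

theorem IsWt.zero : IsWt p q v e (0 : A) (0 : k) 0 (fun _ => 0) :=
  ⟨by simp, by simp, fun l _ => by simp⟩

theorem two_smul' (x : A) : (2 : k) • x = 2 * x := by
  rw [Algebra.smul_def, map_ofNat]

theorem neg_two_smul' (x : A) : (-2 : k) • x = -(2 * x) := by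
  rw [neg_smul, two_smul']

variable (hp : p * p = 0) (hq : q * q = 0) (hv : ∀ s, v s * v s = 0)

include hp hq hv

theorem whole : Whole p q (v (e + 2)) (v 0) (v 1) (v (e + 1)) (pth v 1 e) (mon v 1 (e + 1)) where
  hp := hp
  hq := hq
  hw := hv _
  h0 := hv _
  h1 := mul_pth hv le_rfl (by omega)
  he := mul_pth hv (by omega) (by omega)
  h1M := mul_mon hv le_rfl (by omega)
  heM := mul_mon hv (by omega) (by omega)

theorem split {j : ℕ} (hj : j < e) : Split p q (v (e + 2)) (v 0) (v 1) (v (e + 1)) (v (j + 1))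
    (v (j + 2)) (pth v 1 j) (pth v (j + 2) (e - (j + 1))) (mon v 1 (j + 1))
    (mon v (j + 2) (e - (j + 1) + 1)) where
  hp := hp
  hq := hq
  hw := hv _
  h0 := hv _
  h1 := mul_pth hv le_rfl (by omega)
  hk := mul_pth hv (by omega) (by omega)
  hk1 := mul_pth hv (by omega) (by omega)
  he := mul_pth hv (by omega) (by omega)
  h1M := mul_mon hv le_rfl (by omega)
  hkM := mul_mon hv (by omega) (by omega)
  hk1M := mul_mon hv (by omega) (by omega)
  heM := mul_mon hv (by omega) (by omega)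

omit hp hq hv in
theorem mon_split {j : ℕ} (hj : j < e) :
    mon v 1 (j + 1) * mon v (j + 2) (e - (j + 1) + 1) = mon v 1 (e + 1) := by
  have := mon_add (v := v) 1 (j + 1) (e - (j + 1) + 1)
  rw [show 1 + (j + 1) = j + 2 by ring, show j + 1 + (e - (j + 1) + 1) = e + 1 by omega] at this
  exact this

omit hp hq in
/-- A criterion for products with the whole path. -/
theorem isWt_whole {X : A} {wp wq w0 wx ww : k} (h1 : p * X = wp • Top p q v e)
    (h2 : q * X = wq • Top p q v e) (h3 : v 0 * X = w0 • Top p q v e)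
    (h4 : ∀ x : A, x * pth v 1 e = mon v 1 (e + 1) → x * mon v 1 (e + 1) = 0 →
      x * X = wx • Top p q v e) (h5 : v (e + 2) * X = ww • Top p q v e) :
    IsWt p q v e X wp wq (fun l => if l = 0 then w0 else if l ≤ e + 1 then wx else ww) := by
  refine ⟨h1, h2, fun l hl => ?_⟩
  split_ifs with h6 h7
  · rw [h6]; exact h3
  · exact h4 _ (mul_pth hv (by omega) (by omega)) (mul_mon hv (by omega) (by omega))
  · have : l = e + 2 := by omega
    rw [this]; exact h5

omit hp hq in
/-- A criterion for products with a path with a missing edge. -/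
theorem isWt_split {X : A} {j : ℕ} (hj : j < e) {wp wq w0 wx wy ww : k}
    (h1 : p * X = wp • Top p q v e)
    (h2 : q * X = wq • Top p q v e) (h3 : v 0 * X = w0 • Top p q v e)
    (h4 : ∀ x : A, x * pth v 1 j = mon v 1 (j + 1) → x * mon v 1 (j + 1) = 0 →
      x * X = wx • Top p q v e)
    (h4' : ∀ x : A, x * pth v (j + 2) (e - (j + 1)) = mon v (j + 2) (e - (j + 1) + 1) →
      x * mon v (j + 2) (e - (j + 1) + 1) = 0 → x * X = wy • Top p q v e)
    (h5 : v (e + 2) * X = ww • Top p q v e) :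
    IsWt p q v e X wp wq (fun l => if l = 0 then w0 else if l ≤ j + 1 then wx else
      if l ≤ e + 1 then wy else ww) := by
  refine ⟨h1, h2, fun l hl => ?_⟩
  split_ifs with h6 h7 h8
  · rw [h6]; exact h3
  · exact h4 _ (mul_pth hv (by omega) (by omega)) (mul_mon hv (by omega) (by omega))
  · exact h4' _ (mul_pth hv (by omega) (by omega)) (mul_mon hv (by omega) (by omega))
  · have : l = e + 2 := by omega
    rw [this]; exact h5

theorem wt_A1G : IsWt p q v e ((v 0 - p) * G p q v e) (0 : k) 0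
    (fun l => if l = 0 then 0 else if l ≤ e + 1 then -2 else 0) := by
  have W := whole (e := e) hp hq hv
  rw [G_eq]
  refine isWt_whole hv ?_ ?_ ?_ (fun x hx hxM => ?_) ?_
  · rw [zero_smul]; exact A1G_p W
  · rw [zero_smul]; exact A1G_q W
  · rw [zero_smul]; exact A1G_v0 W
  · rw [neg_two_smul', Top]; exact A1G_x W hx hxM
  · rw [zero_smul]; exact A1G_w W

theorem wt_IG : IsWt p q v e ((p + v 0) * G p q v e) (0 : k) 2
    (fun l => if l = 0 then 0 else if l ≤ e + 1 then 0 else 2) := by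
  have W := whole (e := e) hp hq hv
  rw [G_eq]
  refine isWt_whole hv ?_ ?_ ?_ (fun x hx hxM => ?_) ?_
  · rw [zero_smul]; exact IG_p W
  · rw [two_smul', Top]; exact IG_q W
  · rw [zero_smul]; exact IG_v0 W
  · rw [zero_smul]; exact IG_x W hx hxM
  · rw [two_smul', Top]; exact IG_w W

theorem wt_IIG : IsWt p q v e ((v (e + 2) - q) * ((v 0 - p) * Gk p q v e (e + 2))) (-2 : k) 0
    (fun l => if l = 0 then 2 else if l ≤ e + 1 then 0 else 0) := by
  have W := whole (e := e) hp hq hv
  rw [Gk_last]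
  refine isWt_whole hv ?_ ?_ ?_ (fun x hx hxM => ?_) ?_
  · rw [neg_two_smul', Top]; exact IIG_p W
  · rw [zero_smul]; exact IIG_q W
  · rw [two_smul', Top]; exact IIG_v0 W
  · rw [zero_smul]; exact IIG_x W hx hxM
  · rw [zero_smul]; exact IIG_w W

theorem wt_pGe : IsWt p q v e (p * ((v 0 - p) * Gk p q v e (e + 1))) (0 : k) 1
    (fun l => if l = 0 then 0 else if l ≤ e + 1 then -1 else 1) := by
  have W := whole (e := e) hp hq hv
  rw [Gk_pred]
  refine isWt_whole hv ?_ ?_ ?_ (fun x hx hxM => ?_) ?_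
  · rw [zero_smul]; exact pGe_p W
  · rw [one_smul, Top]; exact pGe_q W
  · rw [zero_smul]; exact pGe_v0 W
  · rw [neg_one_smul, Top]; exact pGe_x W hx hxM
  · rw [one_smul, Top]; exact pGe_w W

theorem wt_pGd : IsWt p q v e (p * ((v 0 - p) * Gk p q v e (e + 2))) (0 : k) 1
    (fun l => if l = 0 then 0 else if l ≤ e + 1 then -1 else -1) := by
  have W := whole (e := e) hp hq hv
  rw [Gk_last]
  refine isWt_whole hv ?_ ?_ ?_ (fun x hx hxM => ?_) ?_
  · rw [zero_smul]; exact pGd_p W
  · rw [one_smul, Top]; exact pGd_q W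
  · rw [zero_smul]; exact pGd_v0 W
  · rw [neg_one_smul, Top]; exact pGd_x W hx hxM
  · rw [neg_one_smul, Top]; exact pGd_w W

theorem wt_qGe : IsWt p q v e (q * ((v 0 - p) * Gk p q v e (e + 1))) (1 : k) 0
    (fun l => if l = 0 then -1 else if l ≤ e + 1 then -1 else 0) := by
  have W := whole (e := e) hp hq hv
  rw [Gk_pred]
  refine isWt_whole hv ?_ ?_ ?_ (fun x hx hxM => ?_) ?_
  · rw [one_smul, Top]; exact qGe_p W
  · rw [zero_smul]; exact qGe_q W
  · rw [neg_one_smul, Top]; exact qGe_v0 W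
  · rw [neg_one_smul, Top]; exact qGe_x W hx hxM
  · rw [zero_smul]; exact qGe_w W

theorem wt_qGd : IsWt p q v e (q * ((v 0 - p) * Gk p q v e (e + 2))) (1 : k) 0
    (fun l => if l = 0 then -1 else if l ≤ e + 1 then -1 else 0) := by
  have W := whole (e := e) hp hq hv
  rw [Gk_last]
  refine isWt_whole hv ?_ ?_ ?_ (fun x hx hxM => ?_) ?_
  · rw [one_smul, Top]; exact qGd_p W
  · rw [zero_smul]; exact qGd_q W
  · rw [neg_one_smul, Top]; exact qGd_v0 W
  · rw [neg_one_smul, Top]; exact qGd_x W hx hxM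
  · rw [zero_smul]; exact qGd_w W

theorem wt_pG : IsWt p q v e (p * G p q v e) (0 : k) 1
    (fun l => if l = 0 then 0 else if l ≤ e + 1 then 1 else 1) := by
  have W := whole (e := e) hp hq hv
  rw [G_eq]
  refine isWt_whole hv ?_ ?_ ?_ (fun x hx hxM => ?_) ?_
  · rw [zero_smul]; exact pG_p W
  · rw [one_smul, Top]; exact pG_q W
  · rw [zero_smul]; exact pG_v0 W
  · rw [one_smul, Top]; exact pG_x W hx hxM
  · rw [one_smul, Top]; exact pG_w W

theorem wt_qG : IsWt p q v e (q * G p q v e) (1 : k) 0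
    (fun l => if l = 0 then 1 else if l ≤ e + 1 then 1 else 0) := by
  have W := whole (e := e) hp hq hv
  rw [G_eq]
  refine isWt_whole hv ?_ ?_ ?_ (fun x hx hxM => ?_) ?_
  · rw [one_smul, Top]; exact qG_p W
  · rw [zero_smul]; exact qG_q W
  · rw [one_smul, Top]; exact qG_v0 W
  · rw [one_smul, Top]; exact qG_x W hx hxM
  · rw [zero_smul]; exact qG_w W

theorem wt_DG {j : ℕ} (hj : j < e) :
    IsWt p q v e ((v (j + 1) - v (j + 2)) * ((v 0 - p) * Gk p q v e (j + 1))) (-2 : k) (-2)
    (fun l => if l = 0 then 2 else if l ≤ j + 1 then 2 else if l ≤ e + 1 then -2 else -2) := by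
  have W := split (e := e) hp hq hv hj
  rw [Gk_mid hj]
  refine isWt_split hv hj ?_ ?_ ?_ (fun x hx hxM => ?_) (fun x hx hxM => ?_) ?_
  · rw [neg_two_smul', Top, ← mon_split hj]; exact DG_p W
  · rw [neg_two_smul', Top, ← mon_split hj]; exact DG_q W
  · rw [two_smul', Top, ← mon_split hj]; exact DG_v0 W
  · rw [two_smul', Top, ← mon_split hj]; exact DG_x W hx hxM
  · rw [neg_two_smul', Top, ← mon_split hj]; exact DG_y W hx hxM
  · rw [neg_two_smul', Top, ← mon_split hj]; exact DG_w W

theorem wt_pGm {j : ℕ} (hj : j < e) :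
    IsWt p q v e (p * ((v 0 - p) * Gk p q v e (j + 1))) (0 : k) 1
    (fun l => if l = 0 then 0 else if l ≤ j + 1 then -1 else if l ≤ e + 1 then 1 else 1) := by
  have W := split (e := e) hp hq hv hj
  rw [Gk_mid hj]
  refine isWt_split hv hj ?_ ?_ ?_ (fun x hx hxM => ?_) (fun x hx hxM => ?_) ?_
  · rw [zero_smul]; exact pGm_p W
  · rw [one_smul, Top, ← mon_split hj]; exact pGm_q W
  · rw [zero_smul]; exact pGm_v0 W
  · rw [neg_one_smul, Top, ← mon_split hj]; exact pGm_x W hx hxM
  · rw [one_smul, Top, ← mon_split hj]; exact pGm_y W hx hxM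
  · rw [one_smul, Top, ← mon_split hj]; exact pGm_w W

theorem wt_qGm {j : ℕ} (hj : j < e) :
    IsWt p q v e (q * ((v 0 - p) * Gk p q v e (j + 1))) (1 : k) 0
    (fun l => if l = 0 then -1 else if l ≤ j + 1 then -1 else if l ≤ e + 1 then 1 else 0) := by
  have W := split (e := e) hp hq hv hj
  rw [Gk_mid hj]
  refine isWt_split hv hj ?_ ?_ ?_ (fun x hx hxM => ?_) (fun x hx hxM => ?_) ?_
  · rw [one_smul, Top, ← mon_split hj]; exact qGm_p W
  · rw [zero_smul]; exact qGm_q W
  · rw [neg_one_smul, Top, ← mon_split hj]; exact qGm_v0 W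
  · rw [neg_one_smul, Top, ← mon_split hj]; exact qGm_x W hx hxM
  · rw [one_smul, Top, ← mon_split hj]; exact qGm_y W hx hxM
  · rw [zero_smul]; exact qGm_w W

end wt

end Pool.Agent.HankelPerm.BOdd
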