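import Pool.Agent.HankelPerm.BOddRel

/-!
Linear relations for the tangent vectors of the family `m = t`, `n = t + 1`, `t` odd.
-/

namespace Pool.Agent.HankelPerm.BOdd

open Finset

variable {k : Type*} [Field k]

/-- The linear relations for the tangent vector. -/
structure Cons (e : ℕ) (b : ℕ → ℕ → k) : Prop where
  c1 : ∀ m, 3 ≤ m → m ≤ e + 5 → sg e (b m) (e + 1) = 0
  c2 : ∀ j < e, 2 * sg e (b (j + 3)) (j + 1) =
    b (j + 3) 1 + b (j + 3) 2 - b (j + 3) (e + 6) + b (j + 3) (2 * e + 8)
  c3 : b (e + 5) 2 + b (e + 5) (2 * e + 8) = 0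
  c4 : b (e + 4) (e + 6) = b (e + 4) 1
  c5 : ∑ j ∈ range e, (b (j + 3) (e + 6) - b (j + 3) 1) +
    (b (e + 3) 2 + b (e + 3) (2 * e + 8)) + (b (e + 4) 2 - b (e + 4) (2 * e + 8)) = 0
  c6 : ∑ j ∈ range e, (b (j + 3) 2 + b (j + 3) (2 * e + 8)) -
    (b (e + 3) 1 - b (e + 3) (e + 6)) + (b (e + 5) 1 + b (e + 5) (e + 6)) = 0

theorem sum_Icc_eq (e : ℕ) (f : ℕ → k) :
    ∑ i ∈ Icc 1 (e + 2), f i = ∑ j ∈ range e, f (j + 1) + f (e + 1) + f (e + 2) := by
  rw [show Icc 1 (e + 2) = (range (e + 2)).map (addRightEmbedding 1) by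
    ext x
    simp only [mem_Icc, mem_map, mem_range, addRightEmbedding_apply]
    constructor
    · rintro ⟨h1, h2⟩; exact ⟨x - 1, by omega, by omega⟩
    · rintro ⟨a, h1, rfl⟩; omega, Finset.sum_map, Finset.sum_range_succ, Finset.sum_range_succ]
  simp only [addRightEmbedding_apply]

variable {A : Type*} [CommRing A] [Algebra k A] {y : ℕ → A} {e : ℕ} {δ : ℕ → k}

theorem cons (h2 : (2 : k) ≠ 0) (hv : ∀ s, y s * y s = 0)
    (hR : T0 y e δ * ((y (e + 6) - y 1) * GG y e) -
      ∑ i ∈ Icc 1 (e + 2), YZ y (e + 2) * EV y e (bb e δ (i + 2)) *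
        ((y (e + 6) - y 1) * GGk y e i) +
      YZ y (e + 2) * EV y e (bb e δ (e + 5)) * GG y e = 0)
    (hN : ∀ c : k, c • (YZ y (e + 2) * TT y e) = 0 → c = 0) : Cons e (bb e δ) := by
  have hv' : ∀ s, (fun l => y (e + 6 + l)) s * (fun l => y (e + 6 + l)) s = 0 := fun s => hv _
  have hA := wt_A1G (k := k) (e := e) (hv 1) (hv 2) hv'
  have c1 : ∀ m, 3 ≤ m → m ≤ e + 5 → sg e (bb e δ m) (e + 1) = 0 := by
    intro m h1 h3
    have h4 := key1 hv hR hN h1 h3 hA
    rw [sc_whole] at h4
    have h5 : 2 * sg e (bb e δ m) (e + 1) = 0 := by linear_combination -h4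
    exact (mul_eq_zero.mp h5).resolve_left h2
  have c2 : ∀ j < e, 2 * sg e (bb e δ (j + 3)) (j + 1) =
      bb e δ (j + 3) 1 + bb e δ (j + 3) 2 - bb e δ (j + 3) (e + 6) +
        bb e δ (j + 3) (2 * e + 8) := by
    intro j hj
    have hrr : (y (e + 6 + (j + 1)) - y (e + 6 + (j + 2))) *
        rr (y 1) (y 2) (fun l => y (e + 6 + l)) e (j + 1) = 0 := by
      rw [rr_mid (by omega)]
      linear_combination hv (e + 6 + (j + 1)) - hv (e + 6 + (j + 2))
    have hG : (y (e + 6 + (j + 1)) - y (e + 6 + (j + 2))) * GG y e = 0 := by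
      rw [GG, ← rr_mul_Gk (k := j + 1) (by omega) (by omega), ← mul_assoc, hrr, zero_mul]
    have h4 := key2 hR hN (y (e + 6 + (j + 1)) - y (e + 6 + (j + 2)))
      (by linear_combination (y (e + 6) - y 1) * hG)
      (wp := fun i => if i = j + 1 then -2 else 0) (wq := fun i => if i = j + 1 then -2 else 0)
      (wv := fun i => if i = j + 1 then (fun l => if l = 0 then 2 else if l ≤ j + 1 then 2 else
        if l ≤ e + 1 then -2 else -2) else fun _ => 0)
      (wp' := 0) (wq' := 0) (wv' := fun _ => 0) (by
        intro i hi1 hi2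
        by_cases hi : i = j + 1
        · simp only [if_pos hi]
          rw [hi]
          exact wt_DG (hv 1) (hv 2) hv' hj
        · simp only [if_neg hi]
          have : (y (e + 6 + (j + 1)) - y (e + 6 + (j + 2))) *
              ((y (e + 6) - y 1) * GGk y e i) = 0 := by
            obtain ⟨R, hRR⟩ := Gk_eq_mul (p := y 1) (q := y 2) (v := fun l => y (e + 6 + l))
              (e := e) (k := j + 1) (k' := i) (by omega) (by omega) hi
            rw [GGk, hRR]
            linear_combination ((y (e + 6) - y 1) * R) * hrr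
          rw [this]
          exact IsWt.zero) (by
        rw [hG]
        exact IsWt.zero)
    rw [sc_zero, Finset.sum_eq_single_of_mem (j + 1) (Finset.mem_Icc.mpr ⟨by omega, by omega⟩)] at h4
    · simp only [if_true] at h4
      rw [sc_split e _ hj, c1 _ (by omega) (by omega)] at h4
      have h5 : 2 * (2 * sg e (bb e δ (j + 3)) (j + 1) -
        (bb e δ (j + 3) 1 + bb e δ (j + 3) 2 - bb e δ (j + 3) (e + 6) +
        bb e δ (j + 3) (2 * e + 8))) = 0 := by linear_combination -h4
      exact sub_eq_zero.mp ((mul_eq_zero.mp h5).resolve_left h2)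
    · intro i _ hi
      simp only [if_neg hi]
      exact sc_zero _ _
  have c3 : bb e δ (e + 5) 2 + bb e δ (e + 5) (2 * e + 8) = 0 := by
    have hk : (y 1 + y (e + 6)) * (y (e + 6) - y 1) = 0 := by
      linear_combination hv (e + 6) - hv 1
    have h4 := key2 hR hN (y 1 + y (e + 6))
      (by linear_combination GG y e * hk)
      (wp := fun i => 0) (wq := fun i => 0) (wv := fun i _ => 0) (wp' := 0) (wq' := 2)
      (wv' := fun l => if l = 0 then 0 else if l ≤ e + 1 then 0 else 2) (by
        intro i hi1 hi2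
        rw [← mul_assoc, hk, zero_mul]
        exact IsWt.zero) (wt_IG (hv 1) (hv 2) hv')
    simp only [sc_zero, Finset.sum_const_zero, neg_zero, zero_add] at h4
    rw [sc_whole] at h4
    have h5 : 2 * (bb e δ (e + 5) 2 + bb e δ (e + 5) (2 * e + 8)) = 0 := by
      linear_combination h4
    exact (mul_eq_zero.mp h5).resolve_left h2
  have c4 : bb e δ (e + 4) (e + 6) = bb e δ (e + 4) 1 := by
    have hrr : (y (e + 6 + (e + 2)) - y 2) *
        rr (y 1) (y 2) (fun l => y (e + 6 + l)) e (e + 2) = 0 := by
      rw [rr_last]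
      linear_combination hv (e + 6 + (e + 2)) - hv 2
    have hG : (y (e + 6 + (e + 2)) - y 2) * GG y e = 0 := by
      rw [GG, ← rr_mul_Gk (k := e + 2) (by omega) (by omega), ← mul_assoc, hrr, zero_mul]
    have h4 := key2 hR hN (y (e + 6 + (e + 2)) - y 2)
      (by linear_combination (y (e + 6) - y 1) * hG)
      (wp := fun i => if i = e + 2 then -2 else 0) (wq := fun i => if i = e + 2 then 0 else 0)
      (wv := fun i => if i = e + 2 then (fun l => if l = 0 then 2 else if l ≤ e + 1 then 0 else
        0) else fun _ => 0)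
      (wp' := 0) (wq' := 0) (wv' := fun _ => 0) (by
        intro i hi1 hi2
        by_cases hi : i = e + 2
        · simp only [if_pos hi]
          rw [hi]
          exact wt_IIG (hv 1) (hv 2) hv'
        · simp only [if_neg hi]
          have : (y (e + 6 + (e + 2)) - y 2) * ((y (e + 6) - y 1) * GGk y e i) = 0 := by
            obtain ⟨R, hRR⟩ := Gk_eq_mul (p := y 1) (q := y 2) (v := fun l => y (e + 6 + l))
              (e := e) (k := e + 2) (k' := i) (by omega) (by omega) hi
            rw [GGk, hRR]
            linear_combination ((y (e + 6) - y 1) * R) * hrr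
          rw [this]
          exact IsWt.zero) (by
        rw [hG]
        exact IsWt.zero)
    rw [sc_zero, Finset.sum_eq_single_of_mem (e + 2) (Finset.mem_Icc.mpr ⟨by omega, by omega⟩)] at h4
    · simp only [if_true] at h4
      rw [sc_whole] at h4
      have h5 : 2 * (bb e δ (e + 4) (e + 6) - bb e δ (e + 4) 1) = 0 := by linear_combination -h4
      exact sub_eq_zero.mp ((mul_eq_zero.mp h5).resolve_left h2)
    · intro i _ hi
      simp only [if_neg hi]
      exact sc_zero _ _
  have c5 : ∑ j ∈ range e, (bb e δ (j + 3) (e + 6) - bb e δ (j + 3) 1) +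
      (bb e δ (e + 3) 2 + bb e δ (e + 3) (2 * e + 8)) +
      (bb e δ (e + 4) 2 - bb e δ (e + 4) (2 * e + 8)) = 0 := by
    have hG : y 1 * ((y (e + 6) - y 1) * GG y e) = 0 := by
      have := hA.hp
      rw [zero_smul] at this
      exact this
    have h4 := key2 hR hN (y 1) hG
      (wp := fun i => 0) (wq := fun i => 1)
      (wv := fun i => if i ≤ e then (fun l => if l = 0 then 0 else if l ≤ i then -1 else
        if l ≤ e + 1 then 1 else 1) else if i = e + 1 then (fun l => if l = 0 then 0 else
        if l ≤ e + 1 then -1 else 1) else (fun l => if l = 0 then 0 else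
        if l ≤ e + 1 then -1 else -1))
      (wp' := 0) (wq' := 1) (wv' := fun l => if l = 0 then 0 else if l ≤ e + 1 then 1 else 1) (by
        intro i hi1 hi2
        by_cases hi : i ≤ e
        · obtain ⟨j, rfl⟩ : ∃ j, i = j + 1 := ⟨i - 1, by omega⟩
          simp only [if_pos hi]
          exact wt_pGm (hv 1) (hv 2) hv' (by omega)
        · simp only [if_neg hi]
          by_cases hi' : i = e + 1
          · simp only [if_pos hi']
            rw [hi']
            exact wt_pGe (hv 1) (hv 2) hv'
          · simp only [if_neg hi']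
            have hi3 : i = e + 2 := by omega
            rw [hi3]
            exact wt_pGd (hv 1) (hv 2) hv') (wt_pG (hv 1) (hv 2) hv')
    rw [sum_Icc_eq] at h4
    have e1 : ∑ j ∈ range e, sc e (bb e δ (j + 1 + 2)) 0 1 (if j + 1 ≤ e then
        (fun l => if l = 0 then 0 else if l ≤ j + 1 then -1 else
        if l ≤ e + 1 then 1 else 1) else if j + 1 = e + 1 then (fun l => if l = 0 then 0 else
        if l ≤ e + 1 then -1 else 1) else (fun l => if l = 0 then 0 else
        if l ≤ e + 1 then -1 else -1)) =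
        ∑ j ∈ range e, (bb e δ (j + 3) (e + 6) - bb e δ (j + 3) 1) := by
      refine Finset.sum_congr rfl fun j hj => ?_
      rw [mem_range] at hj
      rw [if_pos (by omega), sc_split e _ hj, c1 _ (by omega) (by omega)]
      linear_combination - c2 j hj
    simp only at h4
    rw [e1, if_neg (show ¬ (e + 1 ≤ e) by omega), if_pos trivial, if_neg (show ¬ (e + 2 ≤ e) by omega),
      if_neg (show ¬ (e + 2 = e + 1) by omega), sc_whole, sc_whole, sc_whole,
      c1 _ (by omega) (by omega), c1 _ (by omega) (by omega), c1 _ (by omega) (by omega)] at h4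
    linear_combination -h4 + c3
  have c6 : ∑ j ∈ range e, (bb e δ (j + 3) 2 + bb e δ (j + 3) (2 * e + 8)) -
      (bb e δ (e + 3) 1 - bb e δ (e + 3) (e + 6)) +
      (bb e δ (e + 5) 1 + bb e δ (e + 5) (e + 6)) = 0 := by
    have hG : y 2 * ((y (e + 6) - y 1) * GG y e) = 0 := by
      have := hA.hq
      rw [zero_smul] at this
      exact this
    have h4 := key2 hR hN (y 2) hG
      (wp := fun i => 1) (wq := fun i => 0)
      (wv := fun i => if i ≤ e then (fun l => if l = 0 then -1 else if l ≤ i then -1 else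
        if l ≤ e + 1 then 1 else 0) else if i = e + 1 then (fun l => if l = 0 then -1 else
        if l ≤ e + 1 then -1 else 0) else (fun l => if l = 0 then -1 else
        if l ≤ e + 1 then -1 else 0))
      (wp' := 1) (wq' := 0) (wv' := fun l => if l = 0 then 1 else if l ≤ e + 1 then 1 else 0) (by
        intro i hi1 hi2
        by_cases hi : i ≤ e
        · obtain ⟨j, rfl⟩ : ∃ j, i = j + 1 := ⟨i - 1, by omega⟩
          simp only [if_pos hi]
          exact wt_qGm (hv 1) (hv 2) hv' (by omega)
        · simp only [if_neg hi]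
          by_cases hi' : i = e + 1
          · simp only [if_pos hi']
            rw [hi']
            exact wt_qGe (hv 1) (hv 2) hv'
          · simp only [if_neg hi']
            have hi3 : i = e + 2 := by omega
            rw [hi3]
            exact wt_qGd (hv 1) (hv 2) hv') (wt_qG (hv 1) (hv 2) hv')
    rw [sum_Icc_eq] at h4
    have e1 : ∑ j ∈ range e, sc e (bb e δ (j + 1 + 2)) 1 0 (if j + 1 ≤ e then
        (fun l => if l = 0 then -1 else if l ≤ j + 1 then -1 else
        if l ≤ e + 1 then 1 else 0) else if j + 1 = e + 1 then (fun l => if l = 0 then -1 else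
        if l ≤ e + 1 then -1 else 0) else (fun l => if l = 0 then -1 else
        if l ≤ e + 1 then -1 else 0)) =
        - ∑ j ∈ range e, (bb e δ (j + 3) 2 + bb e δ (j + 3) (2 * e + 8)) := by
      rw [← Finset.sum_neg_distrib]
      refine Finset.sum_congr rfl fun j hj => ?_
      rw [mem_range] at hj
      rw [if_pos (by omega), sc_split e _ hj, c1 _ (by omega) (by omega)]
      linear_combination - c2 j hj
    simp only at h4
    rw [e1, if_neg (show ¬ (e + 1 ≤ e) by omega), if_pos trivial, if_neg (show ¬ (e + 2 ≤ e) by omega),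
      if_neg (show ¬ (e + 2 = e + 1) by omega), sc_whole, sc_whole, sc_whole,
      c1 _ (by omega) (by omega), c1 _ (by omega) (by omega), c1 _ (by omega) (by omega)] at h4
    linear_combination h4 - c4
  exact ⟨c1, c2, c3, c4, c5, c6⟩

end Pool.Agent.HankelPerm.BOdd
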