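import Pool.Agent.HankelPerm.BOddCons

/-!
Elimination for the family `m = t`, `n = t + 1`, `t` odd.
-/

namespace Pool.Agent.HankelPerm.BOdd

open Finset

variable {k : Type*} [Field k]

theorem core (h2 : (2 : k) ≠ 0) {e : ℕ} (he : 2 ≤ e) (a g U : ℕ → k) (hU0 : U 0 = 0)
    (hU : ∀ x, U (x + 1) = U x + g x) (a0 : a 0 = 0) (g0 : g 0 = 0) (g1 : g 1 = 0)
    (gn : g (e + 1) = 0)
    (gn1 : g (e + 2) = 0) (a1 : a 1 = 0) (an : a (e + 1) = 0)
    (E : ∀ j, 1 ≤ j → j < e → a (j + 1) + U (j + 2) + U (j + 1) - 2 * U (e + 3) +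
      2 * U (e + 2 - j) + a (e + 1 - j) + a (e + 2 - j) - g (e + 1 - j) + g (e + 2 - j) = 0)
    (C5 : ∑ j ∈ range e, (a (e + 1 - j) - g (e + 1 - j)) = a 2 + g 2)
    (hD : ∀ j, 2 ≤ j → 2 * j ≤ e + 1 → a j = g j)
    (hg : ∀ j, 4 ≤ j → 2 * j ≤ e + 4 → j ≤ e → g j = 0) :
    ∀ j, j ≤ e + 1 → a j = 0 ∧ g j = 0 := by
  -- the symmetry of `a + g`
  have F : ∀ i, 3 ≤ i → i ≤ e + 1 → a i + g i = a (e + 4 - i) + g (e + 4 - i) := by
    intro i hi1 hi2
    obtain ⟨j, rfl⟩ : ∃ j, i = j + 2 := ⟨i - 2, by omega⟩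
    have h1 := E j (by omega) (by omega)
    have h3 := E (e - j) (by omega) (by omega)
    rw [show e - j + 1 = e + 1 - j by omega, show e - j + 2 = e + 2 - j by omega,
      show e + 2 - (e - j) = j + 2 by omega, show e + 1 - (e - j) = j + 1 by omega] at h3
    have h4 := hU (j + 1)
    have h5 := hU (e + 1 - j)
    rw [show e + 1 - j + 1 = e + 2 - j by omega] at h5
    rw [show j + 1 + 1 = j + 2 by omega] at h4
    rw [show e + 4 - (j + 2) = e + 2 - j by omega]
    linear_combination -h1 + h3 + h5 - h4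
  -- the symmetry of `a - g`
  have S : ∀ j, 2 ≤ j → j ≤ e - 1 → a j - g j = a (e + 1 - j) - g (e + 1 - j) := by
    intro j hj1 hj2
    have h1 := E j (by omega) (by omega)
    have h3 := E (j - 1) (by omega) (by omega)
    have h4 := hU j
    have h5 := hU (j + 1)
    have h6 := hU (e + 2 - j)
    have h7 := F (j + 1) (by omega) (by omega)
    rw [show j - 1 + 1 = j by omega, show j - 1 + 2 = j + 1 by omega,
      show e + 2 - (j - 1) = e + 3 - j by omega, show e + 1 - (j - 1) = e + 2 - j by omega] at h3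
    rw [show j + 1 + 1 = j + 2 by omega] at h5
    rw [show e + 2 - j + 1 = e + 3 - j by omega] at h6
    rw [show e + 4 - (j + 1) = e + 3 - j by omega] at h7
    linear_combination -h1 + h3 + h4 + h5 - 2 * h6 + h7
  have hD' : ∀ j, 2 ≤ j → j ≤ e - 1 → a j - g j = 0 := by
    intro j hj1 hj2
    rcases Nat.lt_or_ge (e + 1) (2 * j) with h | h
    · rw [S j hj1 hj2, hD _ (by omega) (by omega), sub_self]
    · rw [hD j hj1 h, sub_self]
  have h1 : ∑ j ∈ range e, (a (e + 1 - j) - g (e + 1 - j)) = a e - g e := by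
    rw [Finset.sum_eq_single_of_mem 1 (mem_range.mpr (by omega))]
    · rw [show e + 1 - 1 = e by omega]
    · intro j hj hj1
      rw [mem_range] at hj
      rcases Nat.eq_zero_or_pos j with h | h
      · subst h
        rw [Nat.sub_zero, an, gn, sub_zero]
      · exact hD' _ (by omega) (by omega)
  have h3 := E 1 le_rfl (by omega)
  have u1 := hU 0
  have u2 := hU 1
  have u3 := hU 2
  have u4 := hU (e + 1)
  have u5 := hU (e + 2)
  rw [show e + 2 - 1 = e + 1 by omega, show e + 1 - 1 = e by omega] at h3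
  simp only [Nat.zero_add, Nat.reduceAdd, show e + 1 + 1 = e + 2 from rfl,
    show e + 2 + 1 = e + 3 from rfl] at h3 u1 u2 u3 u4 u5
  have h4 : 2 * (a 2 + g 2) = 0 := by
    linear_combination h1 - C5 + h3 - an - gn - u3 - 2 * u2 - 2 * u1 - 2 * hU0 +
      2 * u5 + 2 * u4 - 2 * g0 - 2 * g1 + 2 * gn1 + 2 * gn
  have h5 : a 2 + g 2 = 0 := (mul_eq_zero.mp h4).resolve_left h2
  have h6 : a e - g e = 0 := by linear_combination C5 - h1 + h5
  have hD'' : ∀ j, j ≤ e + 1 → a j - g j = 0 := by
    intro j hj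
    rcases Nat.lt_or_ge j 2 with h | h
    · rcases Nat.eq_zero_or_pos j with h' | h'
      · rw [h', a0, g0, sub_zero]
      · rw [show j = 1 by omega, a1, g1, sub_zero]
    · rcases Nat.lt_or_ge j e with h' | h'
      · exact hD' j h (by omega)
      · rcases Nat.eq_or_lt_of_le h' with h'' | h''
        · rw [← h'', h6]
        · rw [show j = e + 1 by omega, an, gn, sub_zero]
  have h7 : g 2 = 0 := by
    have h8 := hD'' 2 (by omega)
    have h9 : 2 * g 2 = 0 := by linear_combination h5 - h8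
    exact (mul_eq_zero.mp h9).resolve_left h2
  have hsym : ∀ i, 3 ≤ i → i ≤ e + 1 → g i = g (e + 4 - i) := by
    intro i hi1 hi2
    have h8 : 2 * (g i - g (e + 4 - i)) = 0 := by
      linear_combination F i hi1 hi2 - hD'' i hi2 + hD'' (e + 4 - i) (by omega)
    exact sub_eq_zero.mp ((mul_eq_zero.mp h8).resolve_left h2)
  have hg' : ∀ j, j ≤ e + 1 → g j = 0 := by
    intro j hj
    rcases Nat.lt_or_ge j 4 with h | h
    · interval_cases j
      · exact g0
      · exact g1
      · exact h7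
      · rw [hsym 3 le_rfl hj, show e + 4 - 3 = e + 1 by omega, gn]
    · rcases Nat.lt_or_ge e j with h' | h'
      · rw [show j = e + 1 by omega, gn]
      · rcases Nat.lt_or_ge (e + 4) (2 * j) with h'' | h''
        · rw [hsym j (by omega) hj]
          exact hg _ (by omega) (by omega) (by omega)
        · exact hg j h h'' h'
  intro j hj
  refine ⟨?_, hg' j hj⟩
  linear_combination hD'' j hj + hg' j hj

theorem elim (h2 : (2 : k) ≠ 0) {e : ℕ} (he : 2 ≤ e) (P : ℕ → k) (hP0 : P 0 = 0) (b : ℕ → ℕ → k)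
    (hb : ∀ m j, 3 ≤ m → m ≤ e + 5 → b m (j + 1) = P (j + 1) - P j + P (2 * e + 7 + j) +
      P (e + 5 + j) - 2 * P (2 * e + 10 - m + j)) (C : Cons e b)
    (z1 : P (2 * e + 8) = P (2 * e + 7)) (z2 : P (2 * e + 9) = P (2 * e + 8))
    (z3 : P (2 * e + 10) = P (2 * e + 9)) (z4 : P (2 * e + 11) = P (2 * e + 10))
    (z5 : P (2 * e + 12) = P (2 * e + 11)) (z6 : P (e + 7) = P (e + 6))
    (z7 : ∀ i, i ≤ e + 1 → P (4 + i) = P (3 + i))
    (z8 : ∀ j, 2 ≤ j → 2 * j ≤ e + 1 → P (e + 6 + j) - P (e + 6) =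
      P (2 * e + 11 + j) - P (2 * e + 11))
    (z9 : ∀ j, 4 ≤ j → 2 * j ≤ e + 4 → j ≤ e → P (2 * e + 11 + j) = P (2 * e + 11)) :
    (∀ s, 3 ≤ s → s ≤ 4 * e + 14 → P s = P 3) ∧ P 1 = 0 ∧ P 2 = 0 := by
  obtain ⟨B, hB⟩ : ∃ B, B = P (2 * e + 11) := ⟨_, rfl⟩
  obtain ⟨a, ha⟩ : ∃ a : ℕ → k, ∀ i, a i = P (e + 6 + i) - B := ⟨_, fun _ => rfl⟩
  obtain ⟨g, hg⟩ : ∃ g : ℕ → k, ∀ i, g i = P (2 * e + 11 + i) - B := ⟨_, fun _ => rfl⟩
  obtain ⟨U, hU⟩ : ∃ U : ℕ → k, ∀ x, U x = ∑ i ∈ range x, g i := ⟨_, fun _ => rfl⟩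
  have hU0 : U 0 = 0 := by rw [hU]; simp
  have hU1 : ∀ x, U (x + 1) = U x + g x := fun x => by rw [hU, hU, Finset.sum_range_succ]
  have hsg : ∀ j ≤ e + 2, ∀ r, sg e (b (j + 3)) r = a r - a 0 + (U (e + 2 + r) - U (e + 2)) +
      U r - 2 * (U (e + 2 - j + r) - U (e + 2 - j)) := by
    intro j hj r
    induction r with
    | zero => simp [sg, hU0]
    | succ r ih =>
      have h1 : sg e (b (j + 3)) (r + 1) = sg e (b (j + 3)) r + b (j + 3) (e + 7 + r) := by
        rw [sg, Finset.sum_range_succ]; rfl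
      have h3 := hb (j + 3) (e + 6 + r) (by omega) (by omega)
      rw [show e + 6 + r + 1 = e + 7 + r by ring, show 2 * e + 7 + (e + 6 + r) =
        2 * e + 11 + (e + 2 + r) by ring, show e + 5 + (e + 6 + r) = 2 * e + 11 + r by ring,
        show 2 * e + 10 - (j + 3) + (e + 6 + r) = 2 * e + 11 + (e + 2 - j + r) by omega] at h3
      have a1 := ha (r + 1)
      have a2 := ha r
      rw [show e + 6 + (r + 1) = e + 7 + r by ring] at a1
      have g1 := hg (e + 2 + r)
      have g2 := hg r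
      have g3 := hg (e + 2 - j + r)
      have u1 := hU1 (e + 2 + r)
      have u2 := hU1 r
      have u3 := hU1 (e + 2 - j + r)
      rw [h1, ih, h3, ← add_assoc (e + 2) r 1, ← add_assoc (e + 2 - j) r 1, u1, u2, u3]
      linear_combination -a1 + a2 - g1 - g2 + 2 * g3
  have hc1 : ∀ j ≤ e + 2, a (e + 1) - a 0 + (U (2 * e + 3) - U (e + 2)) +
      U (e + 1) - 2 * (U (2 * e + 3 - j) - U (e + 2 - j)) = 0 := by
    intro j hj
    have h1 := C.c1 (j + 3) (by omega) (by omega)
    rw [hsg j hj, show e + 2 + (e + 1) = 2 * e + 3 by ring,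
      show e + 2 - j + (e + 1) = 2 * e + 3 - j by omega] at h1
    exact h1
  have hper : ∀ i ≤ e + 1, g (e + 1 + i) = g i := by
    intro i hi
    have h1 := hc1 (e + 1 - i) (by omega)
    have h3 := hc1 (e + 2 - i) (by omega)
    rw [show 2 * e + 3 - (e + 1 - i) = e + 1 + i + 1 by omega,
      show e + 2 - (e + 1 - i) = i + 1 by omega, hU1 (e + 1 + i), hU1 i] at h1
    rw [show 2 * e + 3 - (e + 2 - i) = e + 1 + i by omega,
      show e + 2 - (e + 2 - i) = i by omega] at h3
    have h4 : 2 * (g (e + 1 + i) - g i) = 0 := by linear_combination h3 - h1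
    exact sub_eq_zero.mp ((mul_eq_zero.mp h4).resolve_left h2)
  have hUper : ∀ i ≤ e + 2, U (e + 1 + i) = U i + U (e + 1) := by
    intro i hi
    induction i with
    | zero => rw [hU0, zero_add]
    | succ i ih =>
      rw [← add_assoc, hU1 (e + 1 + i), ih (by omega), hU1 i, hper i (by omega)]
      ring
  have ha0' : a (e + 1) = a 0 := by
    have h1 := hc1 (e + 2) le_rfl
    rw [show 2 * e + 3 = e + 1 + (e + 2) by ring, hUper (e + 2) le_rfl,
      show e + 1 + (e + 2) - (e + 2) = e + 1 by omega, Nat.sub_self, hU0] at h1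
    linear_combination h1
  have an : a (e + 1) = 0 := by
    rw [ha, show e + 6 + (e + 1) = 2 * e + 7 by ring, hB]
    linear_combination -z1 - z2 - z3 - z4
  have an1 : a (e + 2) = 0 := by
    rw [ha, show e + 6 + (e + 2) = 2 * e + 8 by ring, hB]
    linear_combination - z2 - z3 - z4
  have a0 : a 0 = 0 := by rw [← ha0', an]
  have a1 : a 1 = 0 := by
    rw [ha] at a0
    rw [ha, show e + 6 + 1 = e + 7 by ring, z6]
    exact a0
  have g0 : g 0 = 0 := by rw [hg, add_zero, hB, sub_self]
  have g1 : g 1 = 0 := by rw [hg, show 2 * e + 11 + 1 = 2 * e + 12 by ring, z5, hB, sub_self]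
  have gn : g (e + 1) = 0 := by
    have := hper 0 (by omega)
    rw [add_zero, g0] at this
    exact this
  have gn1 : g (e + 2) = 0 := by
    have := hper 1 (by omega)
    rw [g1] at this
    exact this
  have p6 : P (e + 6) = B := by
    have := ha 0
    rw [a0, add_zero] at this
    linear_combination -this
  have p7 : P (2 * e + 7) = B := by rw [hB]; linear_combination -z1 - z2 - z3 - z4
  have p8 : P (2 * e + 8) = B := by rw [hB]; linear_combination - z2 - z3 - z4
  have p10 : P (2 * e + 10) = B := by rw [hB]; linear_combination - z4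
  have p12 : P (3 * e + 12) = B := by
    have := hg (e + 1)
    rw [gn, show 2 * e + 11 + (e + 1) = 3 * e + 12 by ring] at this
    linear_combination -this
  have p14 : P (4 * e + 14) = B + g (2 * e + 3) := by
    have := hg (2 * e + 3)
    rw [show 2 * e + 11 + (2 * e + 3) = 4 * e + 14 by ring] at this
    linear_combination -this
  have c3 : P 2 - P 1 + g (2 * e + 3) = 0 := by
    have h1 := C.c3
    rw [hb (e + 5) 1 (by omega) (by omega), show 2 * e + 8 = 2 * e + 7 + 1 by ring,
      hb (e + 5) (2 * e + 7) (by omega) (by omega)] at h1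
    rw [show 2 * e + 7 + 1 = 2 * e + 8 by ring, show e + 5 + 1 = e + 6 by ring,
      show 2 * e + 10 - (e + 5) + 1 = e + 6 by omega, show 2 * e + 7 + (2 * e + 7) =
      4 * e + 14 by ring, show e + 5 + (2 * e + 7) = 3 * e + 12 by ring,
      show 2 * e + 10 - (e + 5) + (2 * e + 7) = 3 * e + 12 by omega, p6, p7, p8, p12, p14] at h1
    linear_combination h1
  have c4 : 2 * (B - P (e + 5)) = P 1 := by
    have h1 := C.c4
    have e1 := hb (e + 4) 0 (by omega) (by omega)
    have e3 := hb (e + 4) (e + 5) (by omega) (by omega)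
    rw [zero_add, add_zero, add_zero, add_zero, show 2 * e + 10 - (e + 4) = e + 6 by omega,
      hP0, p7, p6] at e1
    rw [show e + 5 + 1 = e + 6 by ring, show 2 * e + 7 + (e + 5) = 3 * e + 12 by ring,
      show e + 5 + (e + 5) = 2 * e + 10 by ring, show 2 * e + 10 - (e + 4) + (e + 5) = 2 * e + 11
        by omega, p6, p12, p10, ← hB] at e3
    rw [e1, e3] at h1
    linear_combination h1
  have hE : ∀ j < e, a (j + 1) + U (j + 2) + U (j + 1) - 2 * U (e + 3) +
      2 * U (e + 2 - j) + a (e + 1 - j) + a (e + 2 - j) - g (e + 1 - j) + g (2 * e + 3 - j) = 0 := by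
    intro j hj
    have h1 := C.c2 j hj
    rw [hsg j (by omega)] at h1
    have e1 := hb (j + 3) 0 (by omega) (by omega)
    have e2 := hb (j + 3) 1 (by omega) (by omega)
    have e3 := hb (j + 3) (e + 5) (by omega) (by omega)
    have e4 := hb (j + 3) (2 * e + 7) (by omega) (by omega)
    have f1 := ha (e + 1 - j)
    have f2 := ha (e + 2 - j)
    have f3 := hg (e + 1 - j)
    have f4 := hg (2 * e + 3 - j)
    rw [show e + 6 + (e + 1 - j) = 2 * e + 7 - j by omega] at f1
    rw [show e + 6 + (e + 2 - j) = 2 * e + 8 - j by omega] at f2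
    rw [show 2 * e + 11 + (e + 1 - j) = 3 * e + 12 - j by omega] at f3
    rw [show 2 * e + 11 + (2 * e + 3 - j) = 4 * e + 14 - j by omega] at f4
    rw [zero_add, add_zero, add_zero, add_zero, show 2 * e + 10 - (j + 3) = 2 * e + 7 - j by omega,
      hP0, p7] at e1
    rw [show 1 + 1 = 2 from rfl, show 2 * e + 7 + 1 = 2 * e + 8 by ring, show e + 5 + 1 = e + 6 by
      ring, show 2 * e + 10 - (j + 3) + 1 = 2 * e + 8 - j by omega, p8, p6] at e2
    rw [show e + 5 + 1 = e + 6 by ring, show 2 * e + 7 + (e + 5) = 3 * e + 12 by ring,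
      show e + 5 + (e + 5) = 2 * e + 10 by ring, show 2 * e + 10 - (j + 3) + (e + 5) =
      3 * e + 12 - j by omega, p6, p12, p10] at e3
    rw [show 2 * e + 7 + 1 = 2 * e + 8 by ring, show 2 * e + 7 + (2 * e + 7) = 4 * e + 14 by ring,
      show e + 5 + (2 * e + 7) = 3 * e + 12 by ring, show 2 * e + 10 - (j + 3) + (2 * e + 7) =
      4 * e + 14 - j by omega, p8, p7, p14, p12] at e4
    rw [e1, e2, e3, e4, show e + 2 + (j + 1) = e + 1 + (j + 2) by ring, hUper (j + 2) (by omega),
      show e + 2 - j + (j + 1) = e + 3 by omega, a0] at h1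
    have u1 := hUper 1 (by omega)
    have u2 := hU1 0
    rw [zero_add, hU0, g0] at u2
    rw [show e + 1 + 1 = e + 2 by ring, u2] at u1
    have h3 : 2 * (a (j + 1) + U (j + 2) + U (j + 1) - 2 * U (e + 3) +
      2 * U (e + 2 - j) + a (e + 1 - j) + a (e + 2 - j) - g (e + 1 - j) +
      g (2 * e + 3 - j)) = 0 := by
      linear_combination h1 + c3 - c4 + 2 * u1 + 2 * f1 + 2 * f2 - 2 * f3 + 2 * f4
    exact (mul_eq_zero.mp h3).resolve_left h2
  have u0 : U 1 = 0 := by
    have := hU1 0
    rw [zero_add, hU0, g0] at this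
    rw [this, add_zero]
  have u1 : U 2 = 0 := by
    have := hU1 1
    rw [u0, g1] at this
    rw [show (2 : ℕ) = 1 + 1 from rfl, this, add_zero]
  have u2 : U (e + 3) = U (e + 2) := by
    have := hU1 (e + 2)
    rw [gn1, add_zero] at this
    exact this
  have hω : g (2 * e + 3) = 0 := by
    have h1 := hE 0 (by omega)
    rw [zero_add, zero_add, Nat.sub_zero, Nat.sub_zero, Nat.sub_zero, a1, u1, u2, an, an1, gn,
      u0] at h1
    linear_combination h1
  have hg2 : ∀ j, 1 ≤ j → j ≤ e + 2 → g (2 * e + 3 - j) = g (e + 2 - j) := by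
    intro j hj1 hj2
    have := hper (e + 2 - j) (by omega)
    rw [show e + 1 + (e + 2 - j) = 2 * e + 3 - j by omega] at this
    exact this
  -- the values of the forms
  have hb1 : ∀ j ≤ e + 1, b (j + 3) 1 = P 1 + P (e + 5) - B - 2 * a (e + 1 - j) := by
    intro j hj
    have e1 := hb (j + 3) 0 (by omega) (by omega)
    have f1 := ha (e + 1 - j)
    rw [show e + 6 + (e + 1 - j) = 2 * e + 7 - j by omega] at f1
    rw [zero_add, add_zero, add_zero, add_zero, show 2 * e + 10 - (j + 3) = 2 * e + 7 - j by omega,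
      hP0, p7] at e1
    linear_combination e1 + 2 * f1
  have hb2 : ∀ j ≤ e + 2, b (j + 3) 2 = P 2 - P 1 - 2 * a (e + 2 - j) := by
    intro j hj
    have e2 := hb (j + 3) 1 (by omega) (by omega)
    have f2 := ha (e + 2 - j)
    rw [show e + 6 + (e + 2 - j) = 2 * e + 8 - j by omega] at f2
    rw [show 1 + 1 = 2 from rfl, show 2 * e + 7 + 1 = 2 * e + 8 by ring, show e + 5 + 1 = e + 6 by
      ring, show 2 * e + 10 - (j + 3) + 1 = 2 * e + 8 - j by omega, p8, p6] at e2
    linear_combination e2 + 2 * f2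
  have hb3 : ∀ j ≤ e + 1, b (j + 3) (e + 6) = B - P (e + 5) - 2 * g (e + 1 - j) := by
    intro j hj
    have e3 := hb (j + 3) (e + 5) (by omega) (by omega)
    have f3 := hg (e + 1 - j)
    rw [show 2 * e + 11 + (e + 1 - j) = 3 * e + 12 - j by omega] at f3
    rw [show e + 5 + 1 = e + 6 by ring, show 2 * e + 7 + (e + 5) = 3 * e + 12 by ring,
      show e + 5 + (e + 5) = 2 * e + 10 by ring, show 2 * e + 10 - (j + 3) + (e + 5) =
      3 * e + 12 - j by omega, p6, p12, p10] at e3
    linear_combination e3 + 2 * f3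
  have hb4 : ∀ j ≤ e + 2, b (j + 3) (2 * e + 8) = - 2 * g (2 * e + 3 - j) := by
    intro j hj
    have e4 := hb (j + 3) (2 * e + 7) (by omega) (by omega)
    have f4 := hg (2 * e + 3 - j)
    rw [show 2 * e + 11 + (2 * e + 3 - j) = 4 * e + 14 - j by omega] at f4
    rw [show 2 * e + 7 + 1 = 2 * e + 8 by ring, show 2 * e + 7 + (2 * e + 7) = 4 * e + 14 by ring,
      show e + 5 + (2 * e + 7) = 3 * e + 12 by ring, show 2 * e + 10 - (j + 3) + (2 * e + 7) =
      4 * e + 14 - j by omega, p8, p7, p14, p12] at e4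
    linear_combination e4 + 2 * f4 + hω
  have c5 : ∑ j ∈ range e, (a (e + 1 - j) - g (e + 1 - j)) = a 2 + g 2 := by
    have h1 := C.c5
    have h3 : ∑ j ∈ range e, (b (j + 3) (e + 6) - b (j + 3) 1) =
        2 * ∑ j ∈ range e, (a (e + 1 - j) - g (e + 1 - j)) := by
      rw [Finset.mul_sum]
      refine Finset.sum_congr rfl fun j hj => ?_
      rw [mem_range] at hj
      rw [hb1 j (by omega), hb3 j (by omega)]
      linear_combination c4
    have h4 := hg2 (e + 1) (by omega) (by omega)
    rw [show 2 * e + 3 - (e + 1) = e + 2 by omega] at h4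
    have h5 := hg2 e (by omega) (by omega)
    rw [show 2 * e + 3 - e = e + 3 by omega, show e + 2 - e = 2 by omega] at h5
    rw [h3, hb2 e (by omega), hb4 e (by omega), show e + 4 = e + 1 + 3 by ring,
      hb2 (e + 1) (by omega), hb4 (e + 1) (by omega), show e + 2 - e = 2 by omega,
      show e + 2 - (e + 1) = 1 by omega, show 2 * e + 3 - e = e + 3 by omega,
      show 2 * e + 3 - (e + 1) = e + 2 by omega, a1, gn1, h5] at h1
    have h6 : 2 * (∑ j ∈ range e, (a (e + 1 - j) - g (e + 1 - j)) - (a 2 + g 2)) = 0 := by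
      linear_combination h1 - 2 * c3 + 2 * hω
    exact sub_eq_zero.mp ((mul_eq_zero.mp h6).resolve_left h2)
  have hcore := core h2 he a g U hU0 hU1 a0 g0 g1 gn gn1 a1 an (by
      intro j hj1 hj2
      rw [← hg2 j hj1 (by omega)]
      exact hE j hj2) c5 (by
      intro j hj1 hj2
      rw [ha, hg]
      have h1 := z8 j hj1 hj2
      rw [p6, ← hB] at h1
      exact h1) (by
      intro j hj1 hj2 hj3
      rw [hg, z9 j hj1 hj2 hj3, hB, sub_self])
  have ha' : ∀ j, j ≤ e + 2 → a j = 0 := by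
    intro j hj
    rcases Nat.lt_or_ge (e + 1) j with h | h
    · rw [show j = e + 2 by omega, an1]
    · exact (hcore j h).1
  have hg' : ∀ j, j ≤ 2 * e + 3 → g j = 0 := by
    intro j hj
    rcases Nat.lt_or_ge (e + 1) j with h | h
    · rcases Nat.lt_or_ge (2 * e + 2) j with h' | h'
      · rw [show j = 2 * e + 3 by omega, hω]
      · have := hg2 (2 * e + 3 - j) (by omega) (by omega)
        rw [show 2 * e + 3 - (2 * e + 3 - j) = j by omega] at this
        rw [this]
        exact (hcore _ (by omega)).2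
    · exact (hcore j h).2
  have c6 : P 1 = 0 := by
    have h1 := C.c6
    have h3 : ∑ j ∈ range e, (b (j + 3) 2 + b (j + 3) (2 * e + 8)) = 0 := by
      refine Finset.sum_eq_zero fun j hj => ?_
      rw [mem_range] at hj
      rw [hb2 j (by omega), hb4 j (by omega), ha' _ (by omega), hg' _ (by omega)]
      linear_combination c3 - hω
    have e1 := hb (e + 5) 0 (by omega) (by omega)
    have e3 := hb (e + 5) (e + 5) (by omega) (by omega)
    rw [zero_add, add_zero, add_zero, add_zero, show 2 * e + 10 - (e + 5) = e + 5 by omega,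
      hP0, p7] at e1
    rw [show e + 5 + 1 = e + 6 by ring, show 2 * e + 7 + (e + 5) = 3 * e + 12 by ring,
      show e + 5 + (e + 5) = 2 * e + 10 by ring, show 2 * e + 10 - (e + 5) + (e + 5) = 2 * e + 10
        by omega, p6, p12, p10] at e3
    rw [h3, hb1 e (by omega), hb3 e (by omega), ha' _ (by omega), hg' _ (by omega), e1, e3] at h1
    have h4 : 2 * P 1 = 0 := by linear_combination h1 - 2 * c4
    exact (mul_eq_zero.mp h4).resolve_left h2
  have c2 : P 2 = 0 := by linear_combination c3 - hω + c6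
  have p5 : P (e + 5) = B := by
    rw [c6] at c4
    have := (mul_eq_zero.mp c4).resolve_left h2
    linear_combination -this
  have p3 : ∀ i, i ≤ e + 2 → P (3 + i) = P 3 := by
    intro i hi
    induction i with
    | zero => rfl
    | succ i ih =>
      rw [show 3 + (i + 1) = 4 + i by ring, z7 i (by omega), ih (by omega)]
  have hB3 : P 3 = B := by rw [← p3 (e + 2) le_rfl, show 3 + (e + 2) = e + 5 by ring, p5]
  refine ⟨fun s hs1 hs2 => ?_, c6, c2⟩
  rw [hB3]
  rcases Nat.lt_or_ge (e + 5) s with h | h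
  · rcases Nat.lt_or_ge (2 * e + 8) s with h' | h'
    · rcases Nat.lt_or_ge s (2 * e + 11) with h'' | h''
      · have : s = 2 * e + 9 ∨ s = 2 * e + 10 := by omega
        rcases this with rfl | rfl
        · rw [z2, p8]
        · exact p10
      · have h1 := hg (s - (2 * e + 11))
        rw [hg' _ (by omega), show 2 * e + 11 + (s - (2 * e + 11)) = s by omega] at h1
        linear_combination -h1
    · have h1 := ha (s - (e + 6))
      rw [ha' _ (by omega), show e + 6 + (s - (e + 6)) = s by omega] at h1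
      linear_combination -h1
  · have h1 := p3 (s - 3) (by omega)
    rw [show 3 + (s - 3) = s by omega] at h1
    rw [h1, hB3]

end Pool.Agent.HankelPerm.BOdd
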