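import Pool.Agent.HankelPerm.BOddAlg

/-!
The tangent relation for the family `m = t`, `n = t + 1`, `t` odd, and its consequences.
-/

namespace Pool.Agent.HankelPerm.BOdd

open Finset

section rel

variable {k : Type*} [Field k] {A : Type*} [CommRing A] [Algebra k A] (y : ℕ → A) (e : ℕ)
  (δ : ℕ → k)

/-- The coefficients of the products of the relation with the columns of the cycle. -/
def bb (m j : ℕ) : k :=
  δ j + ∑ x ∈ range (e + 2), (if m ≤ x + 3 then -1 else 1) * δ (2 * e + 6 - x + j)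

/-- A linear form in all columns. -/
def LL (c : ℕ → k) : A := ∑ j ∈ range (2 * e + 8), c (j + 1) • y (j + 1)

/-- The sum over the rows of the cycle. -/
def T0 : A := ∑ x ∈ range (e + 2), LL y e (fun j => δ (2 * e + 6 - x + j)) * zz y (e + 2) x +
  LL y e δ * zl y (e + 2)

/-- The linear form in the other columns. -/
abbrev EV (c : ℕ → k) : A := ev (y 1) (y 2) (fun l => y (e + 6 + l)) e c

/-- The product of the other columns. -/
abbrev TT : A := Top (y 1) (y 2) (fun l => y (e + 6 + l)) e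

/-- The product of the other rows but the first one. -/
abbrev GG : A := G (y 1) (y 2) (fun l => y (e + 6 + l)) e

/-- The product of the other rows but the first one and another one. -/
abbrev GGk (i : ℕ) : A := Gk (y 1) (y 2) (fun l => y (e + 6 + l)) e i

variable {y} {e} {δ}

theorem LL_add_mul (a b : k) (c c' : ℕ → k) :
    LL y e (fun j => a * c j + b * c' j) = a • LL y e c + b • LL y e c' := by
  simp only [LL, Finset.smul_sum, ← Finset.sum_add_distrib, add_smul, mul_smul]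

variable (hv : ∀ s, y s * y s = 0)

include hv

theorem y_mul_T0 {m : ℕ} (h1 : 3 ≤ m) (h2 : m ≤ e + 5) :
    y m * T0 y e δ = YZ y (e + 2) * LL y e (bb e δ m) := by
  rw [T0, mul_add, Finset.mul_sum]
  have h3 : ∀ x ∈ range (e + 2), y m * (LL y e (fun j => δ (2 * e + 6 - x + j)) *
      zz y (e + 2) x) = YZ y (e + 2) * ((if m ≤ x + 3 then (-1 : k) else 1) •
        LL y e (fun j => δ (2 * e + 6 - x + j))) := by
    intro x hx
    rw [mem_range] at hx
    split_ifs with h
    · rw [neg_one_smul]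
      linear_combination LL y e (fun j => δ (2 * e + 6 - x + j)) *
        mul_zz_low (d := e + 2) hv hx h1 h
    · rw [one_smul]
      linear_combination LL y e (fun j => δ (2 * e + 6 - x + j)) *
        mul_zz_high (d := e + 2) hv hx (by omega) (show m ≤ e + 2 + 3 by omega)
  rw [Finset.sum_congr rfl h3]
  have h4 : y m * (LL y e δ * zl y (e + 2)) = YZ y (e + 2) * LL y e δ := by
    linear_combination LL y e δ * mul_zl (d := e + 2) hv h1 (show m ≤ e + 2 + 3 by omega)
  rw [h4, ← Finset.mul_sum, ← mul_add]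
  congr 1
  simp only [LL, bb]
  rw [add_comm]
  simp only [add_smul, Finset.sum_add_distrib]
  congr 1
  simp only [Finset.smul_sum, Finset.sum_smul, smul_smul]
  rw [Finset.sum_comm]

theorem YZ_mul_LL (c : ℕ → k) : YZ y (e + 2) * LL y e c = YZ y (e + 2) * EV y e c := by
  rw [LL, EV, ev, show 2 * e + 8 = 2 + (e + 3) + (e + 3) by ring, Finset.sum_range_add,
    Finset.sum_range_add, Finset.sum_range_succ, Finset.sum_range_one, mul_add, mul_add, mul_add]
  have h1 : YZ y (e + 2) * ∑ x ∈ range (e + 3), c (2 + x + 1) • y (2 + x + 1) = 0 := by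
    rw [Finset.mul_sum]
    refine Finset.sum_eq_zero fun x hx => ?_
    rw [mem_range] at hx
    rw [mul_smul_comm, mul_comm, mul_YZ hv (by omega) (by omega), smul_zero]
  rw [h1, add_zero]
  have h2 : ∀ x, 2 + (e + 3) + x + 1 = e + 6 + x := fun x => by ring
  simp only [h2, zero_add, one_add_one_eq_two, ← mul_add]

/-- The relation. -/
theorem relation (h : T0 y e δ * ((y (e + 6) - y 1 + y (e + 5)) * ((y (e + 6) + y (e + 7) - y 2) *
    ∏ i ∈ Icc 1 (e + 2), (rr (y 1) (y 2) (fun l => y (e + 6 + l)) e i - y (i + 2)))) = 0) :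
    T0 y e δ * ((y (e + 6) - y 1) * GG y e) -
      ∑ i ∈ Icc 1 (e + 2), YZ y (e + 2) * EV y e (bb e δ (i + 2)) *
        ((y (e + 6) - y 1) * GGk y e i) +
      YZ y (e + 2) * EV y e (bb e δ (e + 5)) * GG y e = 0 := by
  have hTT : ∀ i j, 3 ≤ i → i ≤ e + 5 → 3 ≤ j → j ≤ e + 5 → T0 y e δ * (y i * y j) = 0 := by
    intro i j hi hi' hj hj'
    linear_combination y j * y_mul_T0 (e := e) (δ := δ) hv hi hi' +
      LL y e (bb e δ i) * mul_YZ (d := e + 2) hv hj (by omega)
  have h1 := mul_prod_add (T0 y e δ) (fun i => rr (y 1) (y 2) (fun l => y (e + 6 + l)) e i)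
    (fun i => - y (i + 2)) (Icc 1 (e + 2)) (by
      intro i hi j hj
      rw [mem_Icc] at hi hj
      linear_combination hTT (i + 2) (j + 2) (by omega) (by omega) (by omega) (by omega))
  simp only [← sub_eq_add_neg] at h1
  have h2 : ∀ i ∈ Icc 1 (e + 2), T0 y e δ * (- y (i + 2)) *
      ∏ j ∈ (Icc 1 (e + 2)).erase i, rr (y 1) (y 2) (fun l => y (e + 6 + l)) e j =
      - (YZ y (e + 2) * EV y e (bb e δ (i + 2))) *
        ∏ j ∈ (Icc 1 (e + 2)).erase i, rr (y 1) (y 2) (fun l => y (e + 6 + l)) e j := by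
    intro i hi
    rw [mem_Icc] at hi
    rw [← YZ_mul_LL hv]
    linear_combination - (∏ j ∈ (Icc 1 (e + 2)).erase i,
      rr (y 1) (y 2) (fun l => y (e + 6 + l)) e j) * y_mul_T0 (e := e) (δ := δ) hv
        (show 3 ≤ i + 2 by omega) (by omega)
  rw [Finset.sum_congr rfl h2] at h1
  have h3 : y (e + 5) * ∑ i ∈ Icc 1 (e + 2), - (YZ y (e + 2) * EV y e (bb e δ (i + 2))) *
        ∏ j ∈ (Icc 1 (e + 2)).erase i, rr (y 1) (y 2) (fun l => y (e + 6 + l)) e j = 0 := by
    rw [Finset.mul_sum]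
    refine Finset.sum_eq_zero fun i _ => ?_
    linear_combination - (EV y e (bb e δ (i + 2)) * ∏ j ∈ (Icc 1 (e + 2)).erase i,
      rr (y 1) (y 2) (fun l => y (e + 6 + l)) e j) *
        mul_YZ (d := e + 2) hv (show 3 ≤ e + 5 by omega) (by omega)
  have h4 : YZ y (e + 2) * EV y e (bb e δ (e + 5)) = y (e + 5) * T0 y e δ := by
    rw [y_mul_T0 hv (by omega) le_rfl, YZ_mul_LL hv]
  have h5 : ∑ i ∈ Icc 1 (e + 2), YZ y (e + 2) * EV y e (bb e δ (i + 2)) *
        ((y (e + 6) - y 1) * GGk y e i) = - ((y (e + 6) - y 1) * (y (e + 6) + y (e + 7) - y 2)) *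
      ∑ i ∈ Icc 1 (e + 2), - (YZ y (e + 2) * EV y e (bb e δ (i + 2))) *
        ∏ j ∈ (Icc 1 (e + 2)).erase i, rr (y 1) (y 2) (fun l => y (e + 6 + l)) e j := by
    rw [Finset.mul_sum]
    refine Finset.sum_congr rfl fun i _ => ?_
    rw [GGk, Gk]
    simp only [add_zero]
    ring
  rw [h4, h5]
  rw [GG, G]
  simp only [add_zero, add_assoc, show 6 + 1 = 7 from rfl] at h h1 h3 ⊢
  linear_combination h - (y (e + 6) - y 1 + y (e + 5)) * (y (e + 6) + y (e + 7) - y 2) * h1 -
    (y (e + 6) + y (e + 7) - y 2) * h3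

omit hv in
theorem scalar_zero (hN : ∀ c : k, c • (YZ y (e + 2) * TT y e) = 0 → c = 0) {c : k}
    (h : YZ y (e + 2) * (c • TT y e) = 0) : c = 0 := by
  apply hN
  rw [← h, mul_smul_comm]

/-- Multiplication by a variable of the cycle. -/
theorem key1 (hR : T0 y e δ * ((y (e + 6) - y 1) * GG y e) -
      ∑ i ∈ Icc 1 (e + 2), YZ y (e + 2) * EV y e (bb e δ (i + 2)) *
        ((y (e + 6) - y 1) * GGk y e i) +
      YZ y (e + 2) * EV y e (bb e δ (e + 5)) * GG y e = 0)
    (hN : ∀ c : k, c • (YZ y (e + 2) * TT y e) = 0 → c = 0) {m : ℕ} (h1 : 3 ≤ m)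
    (h2 : m ≤ e + 5) {wp wq : k} {wv : ℕ → k}
    (hw : IsWt (y 1) (y 2) (fun l => y (e + 6 + l)) e ((y (e + 6) - y 1) * GG y e) wp wq wv) :
    sc e (bb e δ m) wp wq wv = 0 := by
  apply scalar_zero hN
  rw [← hw.ev_mul (bb e δ m)]
  have h3 := mul_YZ (d := e + 2) hv h1 (show m ≤ e + 2 + 3 by omega)
  have h4 : y m * ∑ i ∈ Icc 1 (e + 2), YZ y (e + 2) * EV y e (bb e δ (i + 2)) *
        ((y (e + 6) - y 1) * GGk y e i) = 0 := by
    rw [Finset.mul_sum]
    refine Finset.sum_eq_zero fun i _ => ?_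
    linear_combination (EV y e (bb e δ (i + 2)) * ((y (e + 6) - y 1) * GGk y e i)) * h3
  have h5 := y_mul_T0 (e := e) (δ := δ) hv h1 h2
  rw [YZ_mul_LL hv] at h5
  linear_combination y m * hR + h4 - (EV y e (bb e δ (e + 5)) * GG y e) * h3 -
    ((y (e + 6) - y 1) * GG y e) * h5

omit hv in
/-- Multiplication by a multiplier. -/
theorem key2 (hR : T0 y e δ * ((y (e + 6) - y 1) * GG y e) -
      ∑ i ∈ Icc 1 (e + 2), YZ y (e + 2) * EV y e (bb e δ (i + 2)) *
        ((y (e + 6) - y 1) * GGk y e i) +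
      YZ y (e + 2) * EV y e (bb e δ (e + 5)) * GG y e = 0)
    (hN : ∀ c : k, c • (YZ y (e + 2) * TT y e) = 0 → c = 0) (ξ : A)
    (hξ : ξ * ((y (e + 6) - y 1) * GG y e) = 0) {wp wq : ℕ → k} {wv : ℕ → ℕ → k} {wp' wq' : k}
    {wv' : ℕ → k}
    (hw : ∀ i, 1 ≤ i → i ≤ e + 2 → IsWt (y 1) (y 2) (fun l => y (e + 6 + l)) e
      (ξ * ((y (e + 6) - y 1) * GGk y e i)) (wp i) (wq i) (wv i))
    (hw' : IsWt (y 1) (y 2) (fun l => y (e + 6 + l)) e (ξ * GG y e) wp' wq' wv') :
    - ∑ i ∈ Icc 1 (e + 2), sc e (bb e δ (i + 2)) (wp i) (wq i) (wv i) +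
      sc e (bb e δ (e + 5)) wp' wq' wv' = 0 := by
  apply scalar_zero hN
  have h1 : ξ * ∑ i ∈ Icc 1 (e + 2), YZ y (e + 2) * EV y e (bb e δ (i + 2)) *
        ((y (e + 6) - y 1) * GGk y e i) =
      YZ y (e + 2) * (∑ i ∈ Icc 1 (e + 2), sc e (bb e δ (i + 2)) (wp i) (wq i) (wv i)) • TT y e := by
    rw [Finset.mul_sum, Finset.sum_smul, Finset.mul_sum]
    refine Finset.sum_congr rfl fun i hi => ?_
    rw [mem_Icc] at hi
    rw [← (hw i hi.1 hi.2).ev_mul (bb e δ (i + 2))]
    ring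
  rw [add_smul, neg_smul, mul_add, mul_neg, ← h1, ← hw'.ev_mul (bb e δ (e + 5))]
  linear_combination ξ * hR - T0 y e δ * hξ

end rel

section eval

variable {k : Type*} [Field k]

/-- Partial sums of the coefficients. -/
def sg (e : ℕ) (c : ℕ → k) (r : ℕ) : k := ∑ l ∈ range r, c (e + 7 + l)

theorem sc_whole (e : ℕ) (c : ℕ → k) (wp wq w0 wx ww : k) :
    sc e c wp wq (fun l => if l = 0 then w0 else if l ≤ e + 1 then wx else ww) =
      c 1 * wp + c 2 * wq + c (e + 6) * w0 + sg e c (e + 1) * wx + c (2 * e + 8) * ww := by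
  rw [sc, show e + 3 = 1 + (e + 1) + 1 by ring, Finset.sum_range_add, Finset.sum_range_add,
    Finset.sum_range_one, Finset.sum_range_one, if_pos rfl, if_neg (by omega), if_neg (by omega)]
  have h : ∑ x ∈ range (e + 1), c (e + 6 + (1 + x)) *
      (if 1 + x = 0 then w0 else if 1 + x ≤ e + 1 then wx else ww) = sg e c (e + 1) * wx := by
    rw [sg, Finset.sum_mul]
    refine Finset.sum_congr rfl fun x hx => ?_
    rw [mem_range] at hx
    rw [if_neg (by omega), if_pos (by omega), show e + 6 + (1 + x) = e + 7 + x by ring]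
  rw [h, show e + 6 + (1 + (e + 1) + 0) = 2 * e + 8 by ring, add_zero]
  ring

theorem sc_split (e : ℕ) (c : ℕ → k) {j : ℕ} (hj : j < e) (wp wq w0 wx wy ww : k) :
    sc e c wp wq (fun l => if l = 0 then w0 else if l ≤ j + 1 then wx else
      if l ≤ e + 1 then wy else ww) =
      c 1 * wp + c 2 * wq + c (e + 6) * w0 + sg e c (j + 1) * wx +
        (sg e c (e + 1) - sg e c (j + 1)) * wy + c (2 * e + 8) * ww := by
  rw [sc, show e + 3 = 1 + (j + 1) + (e - j) + 1 by omega, Finset.sum_range_add,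
    Finset.sum_range_add, Finset.sum_range_add,
    Finset.sum_range_one, Finset.sum_range_one, if_pos rfl, if_neg (by omega), if_neg (by omega),
    if_neg (by omega)]
  have h : ∑ x ∈ range (j + 1), c (e + 6 + (1 + x)) *
      (if 1 + x = 0 then w0 else if 1 + x ≤ j + 1 then wx else
      if 1 + x ≤ e + 1 then wy else ww) = sg e c (j + 1) * wx := by
    rw [sg, Finset.sum_mul]
    refine Finset.sum_congr rfl fun x hx => ?_
    rw [mem_range] at hx
    rw [if_neg (by omega), if_pos (by omega), show e + 6 + (1 + x) = e + 7 + x by ring]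
  have h' : ∑ x ∈ range (e - j), c (e + 6 + (1 + (j + 1) + x)) *
      (if 1 + (j + 1) + x = 0 then w0 else if 1 + (j + 1) + x ≤ j + 1 then wx else
      if 1 + (j + 1) + x ≤ e + 1 then wy else ww) = (sg e c (e + 1) - sg e c (j + 1)) * wy := by
    have h1 : sg e c (e + 1) - sg e c (j + 1) = ∑ x ∈ range (e - j), c (e + 7 + (j + 1 + x)) := by
      rw [sg, sg, show e + 1 = j + 1 + (e - j) by omega, Finset.sum_range_add]
      ring_nf
    rw [h1, Finset.sum_mul]
    refine Finset.sum_congr rfl fun x hx => ?_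
    rw [mem_range] at hx
    rw [if_neg (by omega), if_neg (by omega), if_pos (by omega),
      show e + 6 + (1 + (j + 1) + x) = e + 7 + (j + 1 + x) by ring]
  rw [h, h', show e + 6 + (1 + (j + 1) + (e - j) + 0) = 2 * e + 8 by omega, add_zero]
  ring

theorem sc_zero (e : ℕ) (c : ℕ → k) : sc e c 0 0 (fun _ => 0) = 0 := by simp [sc]

end eval

end Pool.Agent.HankelPerm.BOdd
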