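import Pool.Agent.HankelPerm.PathProd

/-!
Products of rows of the classes used in the regions `a ≥ 2`: cycles, and modified paths.
-/

namespace Pool.Agent.HankelPerm

open Finset

section cyc

variable {A : Type*} [CommRing A] (v : ℕ → A)

/-- The rows of a cycle with `L + 1` rows and columns. -/
def cyR (L z : ℕ) : A := if z = L then v L - v 0 else v z + v (z + 1)

/-- The product of all rows of the cycle but `z`. -/
def cyG (L z : ℕ) : A := ∏ z' ∈ (range (L + 1)).erase z, cyR v L z'

variable {v}

theorem range_erase_eq {z L : ℕ} (hz : z < L) :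
    (range (L + 1)).erase z = insert L (range z ∪ Ico (z + 1) L) := by
  ext x
  simp only [mem_erase, mem_range, mem_insert, mem_union, mem_Ico]
  omega

theorem prod_edges_range (f : ℕ → A) {z L : ℕ} (hz : z ≤ L)
    (hf : ∀ x < L, f x = v x + v (x + 1)) : ∏ x ∈ range z, f x = pth v 0 z := by
  rw [pth]
  refine Finset.prod_congr rfl fun x hx => ?_
  rw [mem_range] at hx
  rw [hf x (by omega), zero_add]

theorem prod_edges_Ico (f : ℕ → A) {z L : ℕ} 
    (hf : ∀ x < L, f x = v x + v (x + 1)) :
    ∏ x ∈ Ico (z + 1) L, f x = pth v (z + 1) (L - (z + 1)) := by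
  rw [pth, Finset.prod_Ico_eq_prod_range]
  refine Finset.prod_congr rfl fun x hx => ?_
  rw [mem_range] at hx
  rw [hf _ (by omega)]

theorem cyR_lt {L z : ℕ} (h : z < L) : cyR v L z = v z + v (z + 1) := by
  rw [cyR, if_neg (by omega)]

theorem cyR_last {L : ℕ} : cyR v L L = v L - v 0 := by
  rw [cyR, if_pos rfl]

theorem cyG_last {L : ℕ} : cyG v L L = pth v 0 L := by
  have h : (range (L + 1)).erase L = range L := by
    ext x; simp only [mem_erase, mem_range]; omega
  rw [cyG, h]
  exact prod_edges_range _ le_rfl fun x hx => cyR_lt hx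

theorem cyG_lt {L z : ℕ} (h : z < L) :
    cyG v L z = (v L - v 0) * (pth v 0 z * pth v (z + 1) (L - (z + 1))) := by
  rw [cyG, range_erase_eq h, Finset.prod_insert, Finset.prod_union, cyR_last,
    prod_edges_range _ h.le fun x hx => cyR_lt hx, prod_edges_Ico _ fun x hx => cyR_lt hx]
  · rw [Finset.disjoint_left]
    intro x h1 h2
    rw [mem_range] at h1
    rw [mem_Ico] at h2
    omega
  · simp only [mem_union, mem_range, mem_Ico]
    omega

theorem mon_split {a z L : ℕ} (h : z < L) :
    mon v a (z + 1) * mon v (a + (z + 1)) (L - (z + 1) + 1) = mon v a (L + 1) := by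
  rw [mon_add]
  congr 1
  omega

variable (hv : ∀ s, v s * v s = 0)

include hv

theorem mul_cyG {L z s : ℕ} (hz : z ≤ L) (hs : s ≤ L) :
    v s * cyG v L z = if s ≤ z then mon v 0 (L + 1) else - mon v 0 (L + 1) := by
  rcases Nat.lt_or_ge z L with h | h
  · rw [cyG_lt h]
    have e := mon_split (v := v) (a := 0) h
    rw [zero_add] at e
    have a0 : v 0 * pth v 0 z = mon v 0 (z + 1) := mul_pth hv le_rfl (by omega)
    have aL : v L * pth v (z + 1) (L - (z + 1)) = mon v (z + 1) (L - (z + 1) + 1) :=
      mul_pth hv (by omega) (by omega)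
    split_ifs with h1
    · have a1 : v s * pth v 0 z = mon v 0 (z + 1) := mul_pth hv (by omega) (by omega)
      have a2 : v 0 * mon v 0 (z + 1) = 0 := mul_mon hv le_rfl (by omega)
      rw [← e]
      linear_combination ((v L - v 0) * pth v (z + 1) (L - (z + 1))) * a1 +
        mon v 0 (z + 1) * aL - pth v (z + 1) (L - (z + 1)) * a2
    · have a1 : v s * pth v (z + 1) (L - (z + 1)) = mon v (z + 1) (L - (z + 1) + 1) :=
        mul_pth hv (by omega) (by omega)
      have a2 : v L * mon v (z + 1) (L - (z + 1) + 1) = 0 := mul_mon hv (by omega) (by omega)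
      rw [← e]
      linear_combination ((v L - v 0) * pth v 0 z) * a1 + pth v 0 z * a2 -
        mon v (z + 1) (L - (z + 1) + 1) * a0
  · have : z = L := by omega
    subst this
    rw [cyG_last, if_pos hs]
    exact mul_pth hv (by omega) (by omega)

/-- A multiplier isolating one row. -/
theorem exists_mult_cyG {L i : ℕ} (hi : i ≤ L) :
    ∃ e : A, ∀ z ≤ L, e * cyG v L z = if z = i then 2 * mon v 0 (L + 1) else 0 := by
  rcases Nat.lt_or_ge i L with h | h
  · refine ⟨v i - v (i + 1), fun z hz => ?_⟩
    rw [sub_mul, mul_cyG hv hz hi, mul_cyG hv hz (by omega)]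
    rcases Nat.lt_trichotomy i z with h1 | h1 | h1
    · rw [if_pos (by omega), if_pos (by omega), if_neg (by omega), sub_self]
    · rw [if_pos (by omega), if_neg (by omega), if_pos h1.symm]; ring
    · rw [if_neg (by omega), if_neg (by omega), if_neg (by omega), sub_self]
  · refine ⟨v L + v 0, fun z hz => ?_⟩
    rw [add_mul, mul_cyG hv hz le_rfl, mul_cyG hv hz (Nat.zero_le _), if_pos (Nat.zero_le _)]
    rcases Nat.lt_or_ge z L with h1 | h1
    · rw [if_neg (by omega), if_neg (by omega)]; ring
    · rw [if_pos h1, if_pos (by omega)]; ring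

theorem prod_cyR {L : ℕ} : ∏ z ∈ range (L + 1), cyR v L z = 0 := by
  rw [prod_range_succ, prod_edges_range _ le_rfl fun x hx => cyR_lt hx, cyR_last]
  have a0 : v 0 * pth v 0 L = mon v 0 (L + 1) := mul_pth hv le_rfl (by omega)
  have aL : v L * pth v 0 L = mon v 0 (L + 1) := mul_pth hv (by omega) (by omega)
  linear_combination aL - a0

end cyc

section zlem

variable {k : Type*} [Field k]

/-- A vector orthogonal to all dropped rows of a cycle vanishes. -/
theorem z_lemma (h2 : (2 : k) ≠ 0) {L : ℕ} (u : ℕ → k)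
    (h : ∀ z ≤ L, ∑ j ∈ range (L + 1), (if j ≤ z then (1 : k) else -1) * u j = 0) :
    ∀ j ≤ L, u j = 0 := by
  have hsum : ∑ j ∈ range (L + 1), u j = 0 := by
    rw [← h L le_rfl]
    refine Finset.sum_congr rfl fun j hj => ?_
    rw [mem_range] at hj
    rw [if_pos (by omega), one_mul]
  have h3 : ∀ z ≤ L, ∑ j ∈ range (L + 1), (if j ≤ z then u j else 0) = 0 := by
    intro z hz
    have h4 := h z hz
    have h5 : ∑ j ∈ range (L + 1), (if j ≤ z then (1 : k) else -1) * u j =
        2 * ∑ j ∈ range (L + 1), (if j ≤ z then u j else 0) - ∑ j ∈ range (L + 1), u j := by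
      rw [Finset.mul_sum, ← Finset.sum_sub_distrib]
      refine Finset.sum_congr rfl fun j _ => ?_
      split_ifs <;> ring
    rw [h5, hsum, sub_zero] at h4
    exact (mul_eq_zero.mp h4).resolve_left h2
  have h6 : ∀ z ≤ L, ∑ j ∈ range (z + 1), u j = 0 := by
    intro z hz
    rw [← h3 z hz, ← Finset.sum_filter]
    congr 1
    ext j
    simp only [mem_range, mem_filter]
    omega
  intro j hj
  rcases Nat.eq_zero_or_pos j with h7 | h7
  · subst h7
    have := h6 0 hj
    simpa using this
  · obtain ⟨i, rfl⟩ : ∃ i, j = i + 1 := ⟨j - 1, by omega⟩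
    have h8 := h6 (i + 1) hj
    rw [sum_range_succ, h6 i (by omega), zero_add] at h8
    exact h8

end zlem

section zp

variable {A : Type*} [CommRing A] (v : ℕ → A)

/-- The rows of a modified cycle with `w + 3` rows and columns. -/
def zpR (w z : ℕ) : A :=
  if z = w + 2 then v 0 - v 1 + v (w + 2) else
    if z = w + 1 then v (w + 1) + v (w + 2) - v 0 else v z + v (z + 1)

/-- The product of all rows but `z`. -/
def zpG (w z : ℕ) : A := ∏ z' ∈ (range (w + 3)).erase z, zpR v w z'

variable {v}

theorem zpR_last {w : ℕ} : zpR v w (w + 2) = v 0 - v 1 + v (w + 2) := by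
  rw [zpR, if_pos rfl]

theorem zpR_mid {w : ℕ} : zpR v w (w + 1) = v (w + 1) + v (w + 2) - v 0 := by
  rw [zpR, if_neg (by omega), if_pos rfl]

theorem zpR_lt {w z : ℕ} (h : z < w + 1) : zpR v w z = v z + v (z + 1) := by
  rw [zpR, if_neg (by omega), if_neg (by omega)]

theorem zpG_eq_last {w : ℕ} : ∏ z ∈ range (w + 2), zpR v w z = zpG v w (w + 2) := by
  have h : (range (w + 3)).erase (w + 2) = range (w + 2) := by
    ext x; simp only [mem_erase, mem_range]; omega
  rw [zpG, h]

theorem zpG_last' {w : ℕ} : zpG v w (w + 2) =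
    pth v 0 (w + 1) * (v (w + 1) + v (w + 2) - v 0) := by
  rw [← zpG_eq_last, prod_range_succ, prod_edges_range _ le_rfl fun x hx => zpR_lt hx, zpR_mid]

theorem zpG_mid' {w : ℕ} : zpG v w (w + 1) =
    pth v 0 (w + 1) * (v 0 - v 1 + v (w + 2)) := by
  have h : (range (w + 3)).erase (w + 1) = insert (w + 2) (range (w + 1)) := by
    ext x; simp only [mem_erase, mem_range, mem_insert]; omega
  rw [zpG, h, Finset.prod_insert (by simp), prod_edges_range _ le_rfl fun x hx => zpR_lt hx,
    zpR_last, mul_comm]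

theorem zpG_lt' {w z : ℕ} (h : z < w + 1) : zpG v w z =
    (v 0 - v 1 + v (w + 2)) * (v (w + 1) + v (w + 2) - v 0) *
      (pth v 0 z * pth v (z + 1) (w - z)) := by
  have h1 : (range (w + 3)).erase z =
      insert (w + 2) (insert (w + 1) (range z ∪ Ico (z + 1) (w + 1))) := by
    ext x
    simp only [mem_erase, mem_range, mem_insert, mem_union, mem_Ico]
    omega
  rw [zpG, h1, Finset.prod_insert, Finset.prod_insert, Finset.prod_union, zpR_last, zpR_mid,
    prod_edges_range _ h.le fun x hx => zpR_lt hx, prod_edges_Ico _ fun x hx => zpR_lt hx,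
    show w + 1 - (z + 1) = w - z by omega, mul_assoc]
  · rw [Finset.disjoint_left]
    intro x h1 h2
    rw [mem_range] at h1
    rw [mem_Ico] at h2
    omega
  · simp only [mem_union, mem_range, mem_Ico]
    omega
  · simp only [mem_insert, mem_union, mem_range, mem_Ico]
    omega

variable (hv : ∀ s, v s * v s = 0)

include hv

theorem zpG_last {w : ℕ} : zpG v w (w + 2) = pth v 0 (w + 1) * v (w + 2) := by
  have a0 : v 0 * pth v 0 (w + 1) = mon v 0 (w + 2) := mul_pth hv le_rfl (by omega)
  have a1 : v (w + 1) * pth v 0 (w + 1) = mon v 0 (w + 2) := mul_pth hv (by omega) (by omega)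
  rw [zpG_last']
  linear_combination a1 - a0

theorem zpG_mid {w : ℕ} : zpG v w (w + 1) = pth v 0 (w + 1) * v (w + 2) := by
  have a0 : v 0 * pth v 0 (w + 1) = mon v 0 (w + 2) := mul_pth hv le_rfl (by omega)
  have a1 : v 1 * pth v 0 (w + 1) = mon v 0 (w + 2) := mul_pth hv (by omega) (by omega)
  rw [zpG_mid']
  linear_combination a0 - a1

theorem prod_zpR {w : ℕ} : ∏ z ∈ range (w + 3), zpR v w z = 0 := by
  have a0 : v 0 * pth v 0 (w + 1) = mon v 0 (w + 2) := mul_pth hv le_rfl (by omega)
  have a1 : v 1 * pth v 0 (w + 1) = mon v 0 (w + 2) := mul_pth hv (by omega) (by omega)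
  rw [prod_range_succ, zpG_eq_last, zpG_last hv, zpR_last]
  linear_combination v (w + 2) * a0 - v (w + 2) * a1 + pth v 0 (w + 1) * hv (w + 2)

theorem mon3 {w : ℕ} : mon v 0 (w + 2) * v (w + 2) = mon v 0 (w + 3) := by
  have := mon_succ (v := v) 0 (w + 2)
  rw [zero_add] at this
  exact this.symm

/-- Dropping the last row. -/
theorem mul_zpG_last {w s : ℕ} (hs : s ≤ w + 2) :
    v s * zpG v w (w + 2) = if s ≤ w + 1 then mon v 0 (w + 3) else 0 := by
  rw [zpG_last hv]
  split_ifs with h
  · have a1 : v s * pth v 0 (w + 1) = mon v 0 (w + 2) := mul_pth hv (by omega) (by omega)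
    rw [← mul_assoc, a1, mon3 hv]
  · have : s = w + 2 := by omega
    subst this
    linear_combination pth v 0 (w + 1) * hv (w + 2)

/-- Dropping the row `0`. -/
theorem zpG_zero {w : ℕ} : zpG v w 0 = 2 * mon v 0 (w + 2) := by
  have a1 : v 1 * pth v 1 w = mon v 1 (w + 1) := mul_pth hv le_rfl (by omega)
  have a2 : v (w + 1) * pth v 1 w = mon v 1 (w + 1) := mul_pth hv (by omega) (by omega)
  have a3 : v 1 * mon v 1 (w + 1) = 0 := mul_mon hv le_rfl (by omega)
  have a4 : v 0 * mon v 1 (w + 1) = mon v 0 (w + 2) := by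
    have := mon_add (v := v) 0 1 (w + 1)
    rw [mon_one, zero_add, show 1 + (w + 1) = w + 2 by ring] at this
    exact this
  rw [zpG_lt' (by omega), pth_zero, ← a4]
  simp only [zero_add, Nat.sub_zero, one_mul]
  have h0 := hv 0
  have h2 := hv (w + 2)
  linear_combination (v 0 - v 1 + v (w + 2)) * a2 + (v 0 - v (w + 2)) * a1 - a3 +
    pth v 1 w * (h2 - h0)

theorem mul_zpG_zero {w s : ℕ} (hs : s ≤ w + 2) :
    v s * zpG v w 0 = if s = w + 2 then 2 * mon v 0 (w + 3) else 0 := by
  rw [zpG_zero hv]
  split_ifs with h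
  · subst h
    rw [← mon3 hv]; ring
  · have : v s * mon v 0 (w + 2) = 0 := mul_mon hv (by omega) (by omega)
    linear_combination 2 * this

/-- All weights. -/
theorem mul_zpG {w z s : ℕ} (hz : z ≤ w + 2) (hz0 : 0 < z) (hs : s ≤ w + 2) :
    v s * zpG v w z = if s = w + 2 then 0 else
      if s ≤ z then mon v 0 (w + 3) else - mon v 0 (w + 3) := by
  have h2 := hv (w + 2)
  rcases Nat.lt_or_ge z (w + 1) with h1 | h1
  · rw [zpG_lt' h1]
    have a0 : v 0 * pth v 0 z = mon v 0 (z + 1) := mul_pth hv le_rfl (by omega)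
    have a1 : v 1 * pth v 0 z = mon v 0 (z + 1) := mul_pth hv (by omega) (by omega)
    have a2 : v (w + 1) * pth v (z + 1) (w - z) = mon v (z + 1) (w - z + 1) :=
      mul_pth hv (by omega) (by omega)
    have a4 : mon v 0 (z + 1) * mon v (z + 1) (w - z + 1) = mon v 0 (w + 2) := by
      have := mon_add (v := v) 0 (z + 1) (w - z + 1)
      rw [zero_add, show z + 1 + (w - z + 1) = w + 2 by omega] at this
      exact this
    -- the product
    have key : (v 0 - v 1 + v (w + 2)) * (v (w + 1) + v (w + 2) - v 0) *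
        (pth v 0 z * pth v (z + 1) (w - z)) =
        v (w + 2) * (pth v 0 z * mon v (z + 1) (w - z + 1) -
          mon v 0 (z + 1) * pth v (z + 1) (w - z)) := by
      linear_combination ((v (w + 1) + v (w + 2) - v 0) * pth v (z + 1) (w - z)) * (a0 - a1) +
        v (w + 2) * pth v 0 z * a2 - v (w + 2) * pth v (z + 1) (w - z) * a0 +
        (pth v 0 z * pth v (z + 1) (w - z)) * h2
    rw [key]
    by_cases hs2 : s = w + 2
    · subst hs2
      rw [if_pos rfl]
      linear_combination (pth v 0 z * mon v (z + 1) (w - z + 1) -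
          mon v 0 (z + 1) * pth v (z + 1) (w - z)) * h2
    rw [if_neg hs2, ← mon3 hv, ← a4]
    split_ifs with hsz
    · have a3 : v s * mon v 0 (z + 1) = 0 := mul_mon hv (by omega) (by omega)
      have a5 : v s * pth v 0 z = mon v 0 (z + 1) := mul_pth hv (by omega) (by omega)
      linear_combination (v (w + 2) * mon v (z + 1) (w - z + 1)) * a5 -
        (v (w + 2) * pth v (z + 1) (w - z)) * a3
    · have a3 : v s * mon v (z + 1) (w - z + 1) = 0 := mul_mon hv (by omega) (by omega)
      have a5 : v s * pth v (z + 1) (w - z) = mon v (z + 1) (w - z + 1) :=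
        mul_pth hv (by omega) (by omega)
      linear_combination (v (w + 2) * pth v 0 z) * a3 - (v (w + 2) * mon v 0 (z + 1)) * a5
  · rcases Nat.lt_or_ge z (w + 2) with h3 | h3
    · have : z = w + 1 := by omega
      subst this
      rw [zpG_mid hv]
      by_cases hs2 : s = w + 2
      · subst hs2
        rw [if_pos rfl]
        linear_combination pth v 0 (w + 1) * h2
      · have a5 : v s * pth v 0 (w + 1) = mon v 0 (w + 2) := mul_pth hv (by omega) (by omega)
        rw [if_neg hs2, if_pos (by omega), ← mul_assoc, a5, mon3 hv]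
    · have : z = w + 2 := by omega
      subst this
      rw [mul_zpG_last hv hs]
      by_cases hs2 : s = w + 2
      · rw [if_pos hs2, if_neg (by omega)]
      · rw [if_neg hs2, if_pos (by omega), if_pos (by omega)]

/-- Multiplying by the last variable. -/
theorem vlast_mul_zpG {w z : ℕ} (hz : z ≤ w + 2) :
    v (w + 2) * zpG v w z = if z = 0 then 2 * mon v 0 (w + 3) else 0 := by
  have h2 := hv (w + 2)
  rcases Nat.eq_zero_or_pos z with h | h
  · subst h
    rw [mul_zpG_zero hv (by omega), if_pos rfl, if_pos rfl]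
  rw [if_neg (by omega)]
  rcases Nat.lt_or_ge z (w + 1) with h1 | h1
  · rw [zpG_lt' h1]
    have a0 : v 0 * pth v 0 z = mon v 0 (z + 1) := mul_pth hv le_rfl (by omega)
    have a1 : v 1 * pth v 0 z = mon v 0 (z + 1) := mul_pth hv (by omega) (by omega)
    linear_combination (v (w + 2) * (v (w + 1) + v (w + 2) - v 0) * pth v (z + 1) (w - z)) *
      (a0 - a1) + ((v (w + 1) + v (w + 2) - v 0) * (pth v 0 z * pth v (z + 1) (w - z))) * h2
  · rcases Nat.lt_or_ge z (w + 2) with h3 | h3
    · have : z = w + 1 := by omega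
      subst this
      rw [zpG_mid hv]
      linear_combination pth v 0 (w + 1) * h2
    · have : z = w + 2 := by omega
      subst this
      rw [zpG_last hv]
      linear_combination pth v 0 (w + 1) * h2

/-- Multiplying by the variable `0`. -/
theorem vzero_mul_zpG {w z : ℕ} (hz : z ≤ w + 2) :
    v 0 * zpG v w z = if z = 0 then 0 else mon v 0 (w + 3) := by
  have h2 := hv (w + 2)
  rcases Nat.eq_zero_or_pos z with h | h
  · subst h
    rw [mul_zpG_zero hv (by omega), if_pos rfl, if_neg (by omega)]
  rw [if_neg (by omega)]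
  rcases Nat.lt_or_ge z (w + 1) with h1 | h1
  · rw [zpG_lt' h1]
    have a0 : v 0 * pth v 0 z = mon v 0 (z + 1) := mul_pth hv le_rfl (by omega)
    have a1 : v 1 * pth v 0 z = mon v 0 (z + 1) := mul_pth hv (by omega) (by omega)
    have a2 : v (w + 1) * pth v (z + 1) (w - z) = mon v (z + 1) (w - z + 1) :=
      mul_pth hv (by omega) (by omega)
    have a3 : v 0 * mon v 0 (z + 1) = 0 := mul_mon hv le_rfl (by omega)
    have a5 : v 1 * mon v 0 (z + 1) = 0 := mul_mon hv (by omega) (by omega)
    have a4 : mon v 0 (z + 1) * mon v (z + 1) (w - z + 1) = mon v 0 (w + 2) := by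
      have := mon_add (v := v) 0 (z + 1) (w - z + 1)
      rw [zero_add, show z + 1 + (w - z + 1) = w + 2 by omega] at this
      exact this
    rw [← mon3 hv, ← a4, ← a2]
    linear_combination ((v 0 - v 1 + v (w + 2)) * (v (w + 1) + v (w + 2) - v 0) *
      pth v (z + 1) (w - z)) * a0 + (pth v (z + 1) (w - z)) * (
        (v (w + 1) + v (w + 2) - v 0) * (a3 - a5) + mon v 0 (z + 1) * h2 - v (w + 2) * a3)
  · have a1 : v 0 * pth v 0 (w + 1) = mon v 0 (w + 2) := mul_pth hv (by omega) (by omega)
    rcases Nat.lt_or_ge z (w + 2) with h3 | h3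
    · have : z = w + 1 := by omega
      subst this
      rw [zpG_mid hv, ← mul_assoc, a1, mon3 hv]
    · have : z = w + 2 := by omega
      subst this
      rw [zpG_last hv, ← mul_assoc, a1, mon3 hv]

end zp

end Pool.Agent.HankelPerm
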