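import Pool.Agent.HankelPerm.ClsPt
import Pool.Agent.HankelPerm.ClsAlg

/-!
The region `a ≥ 2`, first case: `m = (w + 1) b + p + 2`, `n = (w + 2) b + d`,
`T = (w + 1) b + d` with `d ≤ p ≤ b - 2` (so `a = p + 2 - d`).
-/

namespace Pool.Agent.HankelPerm

open Matrix Finset Equiv MvPolynomial Pool.Agent.H32

namespace CaseA

section defs

variable (b p d w : ℕ)

/-- The classes of cyclic type. -/
def IsZ (x : ℕ) : Prop := x + d ≤ p ∨ x = p + 1

instance : DecidablePred (IsZ p d) := fun x => by unfold IsZ; infer_instance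

/-- Number of rows of a class. -/
def rho (x : ℕ) : ℕ := if x ≤ p + 1 then w + 2 else w + 1

/-- Number of columns of a class. -/
def cc (x : ℕ) : ℕ := if x ≤ p ∧ p < x + d then w + 3 else w + 2

/-- The labels of the columns. -/
def cl (x j : ℕ) : ℕ := if x = p + 1 then w + 1 - j else j

/-- The labels of the rows. -/
def lev (x z : ℕ) : ℕ := if x = p + 1 then z else if x ≤ p then w + 1 - z else w - z

/-- The point. -/
def pt (k : Type*) [Field k] : ℕ → k :=
  pt4 k (-1) 1 1 (-1) (p + 0 * b) (p + (w + 1) * b) (p + (w + 2) * b) (p + (2 * w + 3) * b)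

end defs

section cols

variable {b p d w n : ℕ} (hd : d ≤ p) (hb : p + 2 ≤ b) (hn : n = (w + 2) * b + d)

include hd hb hn

theorem hc : ∀ x < b, ∀ j, yx b p x + j * b < n ↔ j < cc p d w x := by
  intro x hx j
  subst hn
  rcases Nat.lt_trichotomy j (w + 2) with h | h | h
  · have h1 : j * b ≤ (w + 1) * b := Nat.mul_le_mul_right b (by omega)
    have h2 : (w + 2) * b = (w + 1) * b + b := by ring
    have h3 := yx_lt (p := p) (by omega) hx
    constructor
    · intro _
      rw [cc]; split_ifs <;> omega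
    · intro _
      omega
  · subst h
    rw [cc, yx]
    constructor
    · intro h1
      rw [if_pos]
      · omega
      · split_ifs at h1 <;> omega
    · intro h1
      split_ifs at h1 with h2
      · rw [if_pos h2.1]; omega
      · omega
  · have h1 : (w + 3) * b ≤ j * b := Nat.mul_le_mul_right b (by omega)
    have h2 : (w + 3) * b = (w + 2) * b + b := by ring
    constructor
    · intro h3; omega
    · intro h3
      rw [cc] at h3
      split_ifs at h3 <;> omega

omit hb hn in
theorem hcl : ∀ x < b, ∀ j < cc p d w x, cl p w x j < cc p d w x ∧ cl p w x (cl p w x j) = j := by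
  intro x _ j hj
  simp only [cc, cl] at *
  split_ifs at * <;> omega

end cols

section rows

variable {k : Type*} [Field k] {b p d w n : ℕ} (hd : d ≤ p) (hb : p + 2 ≤ b)
  (hn : n = (w + 2) * b + d)

include hd hb hn

theorem row_le {x z : ℕ} (hx : x ≤ p) (hz : z ≤ w + 1) :
    rowq (pt b p w k) n (x + (w + 1 - z) * b) =
      -(if z = w + 1 then YY k n (yx b p x + 0 * b + 1) else 0) +
        YY k n (yx b p x + z * b + 1) + YY k n (yx b p x + (z + 1) * b + 1) -
        YY k n (yx b p x + (w + 2 + z) * b + 1) := by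
  have hxb : x < b := by omega
  have hpb : p < b := by omega
  rw [pt, rowq_pt4, term_eq hxb hpb, term_eq hxb hpb, term_eq hxb hpb, term_eq hxb hpb]
  simp only [if_pos hx]
  rw [if_pos (show w + 1 - z ≤ w + 1 by omega), if_pos (show w + 1 - z ≤ w + 2 by omega),
    if_pos (show w + 1 - z ≤ 2 * w + 3 by omega), show w + 1 - (w + 1 - z) = z by omega,
    show w + 2 - (w + 1 - z) = z + 1 by omega, show 2 * w + 3 - (w + 1 - z) = w + 2 + z by omega]
  by_cases h : z = w + 1
  · rw [if_pos (by omega), if_pos h, show 0 - (w + 1 - z) = 0 by omega]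
    simp only [neg_smul, one_smul]
    ring
  · rw [if_neg (by omega), if_neg h]
    simp only [neg_smul, one_smul, smul_zero]
    ring

theorem row_gt {x i : ℕ} (hx : p < x) (hxb : x < b) (hi : i ≤ w + 1) :
    rowq (pt b p w k) n (x + i * b) =
      (if i < w + 1 then YY k n (yx b p x + (w - i) * b + 1) else 0) +
        YY k n (yx b p x + (w + 1 - i) * b + 1) -
        YY k n (yx b p x + (2 * w + 2 - i) * b + 1) := by
  have hpb : p < b := by omega
  have hx' : ¬ x ≤ p := by omega
  rw [pt, rowq_pt4, term_eq hxb hpb, term_eq hxb hpb, term_eq hxb hpb, term_eq hxb hpb]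
  simp only [if_neg hx']
  rw [if_neg (show ¬ i < 0 by omega), if_pos (show i < w + 2 by omega),
    if_pos (show i < 2 * w + 3 by omega), show w + 1 - 1 - i = w - i by omega,
    show w + 2 - 1 - i = w + 1 - i by omega, show 2 * w + 3 - 1 - i = 2 * w + 2 - i by omega]
  simp only [neg_smul, one_smul, smul_zero]
  ring

theorem YY_out {x j : ℕ} (hx : x < b) (hj : cc p d w x ≤ j) :
    YY k n (yx b p x + j * b + 1) = 0 := by
  apply YY_big
  have := (hc hd hb hn x hx j).not.mpr (by omega)
  omega

/-- Rows of the cyclic classes. -/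
theorem row_Z {x z : ℕ} (hx : x < b) (hZ : IsZ p d x) (hz : z ≤ w + 1) :
    rowq (pt b p w k) n (x + lev p w x z * b) = cyR (clW k n b p (cl p w) x) (w + 1) z := by
  rcases hZ with h | h
  · have hcc : cc p d w x = w + 2 := by rw [cc, if_neg (by omega)]
    rw [lev, if_neg (by omega), if_pos (by omega), row_le hd hb hn (by omega) hz,
      YY_out hd hb hn (j := w + 2 + z) hx (by omega), cyR]
    simp only [clW, cl, if_neg (show x ≠ p + 1 by omega)]
    by_cases h1 : z = w + 1
    · subst h1
      rw [if_pos rfl, if_pos rfl, YY_out hd hb hn (j := w + 1 + 1) hx (by omega)]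
      ring
    · rw [if_neg h1, if_neg h1]
      ring
  · subst h
    have hcc : cc p d w (p + 1) = w + 2 := by rw [cc, if_neg (by omega)]
    rw [lev, if_pos rfl, row_gt hd hb hn (by omega) hx (by omega), cyR]
    simp only [clW, cl, if_true]
    by_cases h1 : z = w + 1
    · subst h1
      rw [if_neg (by omega), if_pos rfl, show 2 * w + 2 - (w + 1) = w + 1 by omega,
        show w + 1 - 0 = w + 1 by omega]
      ring
    · rw [if_pos (by omega), if_neg h1, YY_out hd hb hn (j := 2 * w + 2 - z) hx (by omega),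
        show w + 1 - (z + 1) = w - z by omega]
      ring

/-- Rows of the classes with an additional column. -/
theorem row_K {x z : ℕ} (hx : x ≤ p) (hK : p < x + d) (hz : z ≤ w + 1) :
    rowq (pt b p w k) n (x + lev p w x z * b) = rwA (clW k n b p (cl p w) x) w z := by
  have hxb : x < b := by omega
  have hcc : cc p d w x = w + 3 := by rw [cc, if_pos (by omega)]
  rw [lev, if_neg (by omega), if_pos (by omega), row_le hd hb hn (by omega) hz, rwA]
  simp only [clW, cl, if_neg (show x ≠ p + 1 by omega)]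
  rcases Nat.eq_zero_or_pos z with h | h
  · subst h
    rw [if_neg (by omega), if_pos rfl]
    simp only [add_zero, zero_add]
    ring
  · rw [if_neg (by omega : ¬ z = 0), YY_out hd hb hn (j := w + 2 + z) hxb (by omega)]
    by_cases h1 : z = w + 1
    · subst h1
      rw [if_pos rfl, if_pos rfl]
      ring
    · rw [if_neg h1, if_neg h1]
      ring

/-- Rows of the last classes. -/
theorem row_L {x z : ℕ} (hxb : x < b) (hx : p + 2 ≤ x) (hz : z < w + 1) :
    rowq (pt b p w k) n (x + lev p w x z * b) =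
      clW k n b p (cl p w) x z + clW k n b p (cl p w) x (z + 1) := by
  have hcc : cc p d w x = w + 2 := by rw [cc, if_neg (by omega)]
  rw [lev, if_neg (by omega), if_neg (by omega), row_gt hd hb hn (by omega) hxb (by omega),
    YY_out hd hb hn (j := 2 * w + 2 - (w - z)) hxb (by omega), if_pos (by omega)]
  simp only [clW, cl, if_neg (show x ≠ p + 1 by omega)]
  rw [show w - (w - z) = z by omega, show w + 1 - (w - z) = z + 1 by omega]
  ring

end rows

section rel

variable (b p d w : ℕ)

/-- The selected rows. -/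
def EE (α β zβ x : ℕ) : Finset ℕ :=
  if x = α then range (w + 2) else
    if IsZ p d x then (range (w + 2)).erase (if x = β then zβ else 0) else range (rho p w x)

variable {b p d w}

theorem EE_α {α β zβ : ℕ} : EE p d w α β zβ α = range (w + 2) := by
  rw [EE, if_pos rfl]

theorem EE_Z {α β zβ x : ℕ} (hx : x ≠ α) (hZ : IsZ p d x) :
    EE p d w α β zβ x = (range (w + 2)).erase (if x = β then zβ else 0) := by
  rw [EE, if_neg hx, if_pos hZ]

theorem EE_K {α β zβ x : ℕ} (hx : x ≠ α) (hxp : x ≤ p) (hK : p < x + d) :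
    EE p d w α β zβ x = range (w + 2) := by
  rw [EE, if_neg hx, if_neg (by unfold IsZ; omega), rho, if_pos (by omega)]

theorem EE_L {α β zβ x : ℕ} (hx : x ≠ α) (hxp : p + 2 ≤ x) :
    EE p d w α β zβ x = range (w + 1) := by
  rw [EE, if_neg hx, if_neg (by unfold IsZ; omega), rho, if_neg (by omega)]

theorem IsZ_le {x : ℕ} (h : IsZ p d x) : x ≤ p + 1 := by
  unfold IsZ at h; omega

theorem EE_sub {α β zβ x : ℕ} (hα : IsZ p d α) : EE p d w α β zβ x ⊆ range (rho p w x) := by
  intro z hz
  have h1 := IsZ_le hα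
  by_cases hx : x = α
  · subst hx
    rw [EE_α] at hz
    rw [rho, if_pos h1]; exact hz
  by_cases hZ : IsZ p d x
  · rw [EE_Z hx hZ] at hz
    rw [rho, if_pos (IsZ_le hZ)]
    exact Finset.mem_of_mem_erase hz
  · rw [EE, if_neg hx, if_neg hZ] at hz
    exact hz

theorem lev_inj (x : ℕ) : Set.InjOn (lev p w x) (range (rho p w x)) := by
  intro z hz z' hz' h
  simp only [coe_range, Set.mem_Iio, rho, lev] at *
  split_ifs at * <;> omega

theorem lev_lt {x z : ℕ} (hx : x < b) (hz : z < rho p w x) :
    x + lev p w x z * b < (w + 1) * b + p + 2 := by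
  have h2 : (w + 1) * b = w * b + b := by ring
  have h3 : ∀ i, i ≤ w + 1 → i * b ≤ (w + 1) * b := fun i hi => Nat.mul_le_mul_right b hi
  have h4 : ∀ i, i ≤ w → i * b ≤ w * b := fun i hi => Nat.mul_le_mul_right b hi
  by_cases h5 : x = p + 1
  · rw [rho, if_pos (by omega)] at hz
    rw [lev, if_pos h5]
    have := h3 z (by omega); omega
  by_cases h6 : x ≤ p
  · rw [rho, if_pos (by omega)] at hz
    rw [lev, if_neg h5, if_pos h6]
    have := h3 (w + 1 - z) (by omega); omega
  · rw [rho, if_neg (by omega)] at hz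
    rw [lev, if_neg h5, if_neg h6]
    have := h4 (w - z) (by omega); omega

theorem card_EE {α β zβ : ℕ} (hd : d ≤ p) (hb : p + 2 ≤ b) (hα : IsZ p d α) (hzβ : zβ ≤ w + 1) :
    ∑ x ∈ range b, (EE p d w α β zβ x).card = (w + 1) * b + d + 1 := by
  have hαp := IsZ_le hα
  have h1 : ∀ x ∈ range b, (EE p d w α β zβ x).card =
      (w + 1) + ((if x = α then 1 else 0) + (if x ∈ Ico (p + 1 - d) (p + 1) then 1 else 0)) := by
    intro x hx
    rw [mem_range] at hx
    by_cases hxα : x = α
    · subst hxα
      rw [EE_α, card_range, if_pos rfl, if_neg]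
      rw [mem_Ico]
      unfold IsZ at hα
      omega
    rw [if_neg hxα]
    by_cases hZ : IsZ p d x
    · have h3 : (if x = β then zβ else 0) ∈ range (w + 2) := by
        rw [mem_range]; split_ifs <;> omega
      have h4 : ¬ x ∈ Ico (p + 1 - d) (p + 1) := by
        rw [mem_Ico]
        unfold IsZ at hZ
        omega
      rw [EE_Z hxα hZ, Finset.card_erase_of_mem h3, card_range, if_neg h4]
      rfl
    · rw [EE, if_neg hxα, if_neg hZ, card_range, rho]
      unfold IsZ at hZ
      by_cases h2 : x ≤ p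
      · rw [if_pos (by omega), if_pos (by rw [mem_Ico]; omega)]
      · rw [if_neg (by omega), if_neg (by rw [mem_Ico]; omega)]
  rw [Finset.sum_congr rfl h1, Finset.sum_add_distrib, sum_const, Finset.sum_add_distrib,
    card_range, Finset.sum_ite_eq' (range b) α, if_pos (by rw [mem_range]; omega),
    ← Finset.sum_filter, ← Finset.card_eq_sum_ones]
  have h2 : (range b).filter (fun x => x ∈ Ico (p + 1 - d) (p + 1)) = Ico (p + 1 - d) (p + 1) := by
    ext x
    simp only [mem_filter, mem_range, mem_Ico]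
    omega
  rw [h2, Nat.card_Ico]
  simp only [smul_eq_mul]
  have : b * (w + 1) = (w + 1) * b := by ring
  omega

variable {k : Type*} [Field k] {n : ℕ} (h2 : (2 : k) ≠ 0) (hd : d ≤ p) (hb : p + 2 ≤ b)
  (hn : n = (w + 2) * b + d) (δ : ℕ → k)
  (hδ : ∀ f ∈ permIdeal ((w + 1) * b + d + 1) (hankelMatrix k ((w + 1) * b + p + 2) n),
    aeval (fun i : Fin ((w + 1) * b + p + 2 + n - 1) => pt b p w k i)
      (dd (fun i : Fin ((w + 1) * b + p + 2 + n - 1) => δ i) f) = 0)

include hd hb hn hδ in
theorem hrel {α β zβ : ℕ} (hα : IsZ p d α) (hzβ : zβ ≤ w + 1) :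
    ∑ a ∈ (range b).sigma (EE p d w α β zβ),
      clD b (clW k n b p (cl p w)) (cc p d w)
        (fun x i x' j => δ (x + lev p w x i * b + (yx b p x' + cl p w x' j * b))) a.1 a.2 *
      ∏ i ∈ ((range b).sigma (EE p d w α β zβ)).erase a,
        (fun x z => rowq (pt b p w k) n (x + lev p w x z * b)) i.1 i.2 = 0 :=
  sys_rel (by omega) (hc hd hb hn) (hcl hd) (pt b p w k) δ hδ (EE p d w α β zβ) (lev p w)
    (fun x _ => (lev_inj x).mono (by exact_mod_cast EE_sub hα))
    (fun x hx z hz => lev_lt hx (mem_range.mp (EE_sub hα hz)))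
    (card_EE hd hb hα hzβ)

theorem clY_Z {x : ℕ} (h : ¬ (x ≤ p ∧ p < x + d)) (W : ℕ → ℕ → SqAlg k n) :
    clY W (cc p d w) x = mon (W x) 0 (w + 2) := by
  rw [clY, mon, cc, if_neg h]
  simp only [zero_add]

theorem clY_K {x : ℕ} (h : x ≤ p ∧ p < x + d) (W : ℕ → ℕ → SqAlg k n) :
    clY W (cc p d w) x = W x 0 * W x (w + 2) * mon (W x) 1 (w + 1) := by
  have h1 : clY W (cc p d w) x = mon (W x) 0 (w + 3) := by
    rw [clY, mon, cc, if_pos h]
    simp only [zero_add]
  have h3 := mon_add (v := W x) 0 1 (w + 1)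
  have h4 := mon_add (v := W x) 0 (w + 2) 1
  rw [mon_one, zero_add, show 1 + (w + 1) = w + 2 by ring] at h3
  rw [mon_one, zero_add, ← h3] at h4
  rw [h1, show w + 3 = w + 2 + 1 by ring, ← h4]
  ring

include hd hb hn

theorem clG_α {α β zβ i : ℕ} (hαb : α < b) (hα : IsZ p d α) (hi : i ≤ w + 1) :
    clG (EE p d w α β zβ) (fun x z => rowq (pt b p w k) n (x + lev p w x z * b)) α i =
      cyG (clW k n b p (cl p w) α) (w + 1) i := by
  rw [clG, EE_α, cyG]
  refine Finset.prod_congr rfl fun z hz => ?_
  have := mem_range.mp (Finset.mem_of_mem_erase hz)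
  exact row_Z hd hb hn hαb hα (by omega)

theorem clM_α {α β zβ : ℕ} (hαb : α < b) (hα : IsZ p d α) :
    clM (EE p d w α β zβ) (fun x z => rowq (pt b p w k) n (x + lev p w x z * b)) α = 0 := by
  rw [clM, EE_α, ← prod_cyR (v := clW k n b p (cl p w) α) (fun s => clW_sq α s) (L := w + 1)]
  refine Finset.prod_congr rfl fun z hz => ?_
  have := mem_range.mp hz
  exact row_Z hd hb hn hαb hα (by omega)

theorem clM_Z {α β zβ x : ℕ} (hxb : x < b) (hxα : x ≠ α) (hx : IsZ p d x) :
    clM (EE p d w α β zβ) (fun x z => rowq (pt b p w k) n (x + lev p w x z * b)) x =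
      cyG (clW k n b p (cl p w) x) (w + 1) (if x = β then zβ else 0) := by
  rw [clM, EE_Z hxα hx, cyG]
  refine Finset.prod_congr rfl fun z hz => ?_
  have := mem_range.mp (Finset.mem_of_mem_erase hz)
  exact row_Z hd hb hn hxb hx (by omega)

theorem clM_K {α β zβ x : ℕ} (hxα : x ≠ α) (hxp : x ≤ p) (hK : p < x + d) :
    clM (EE p d w α β zβ) (fun x z => rowq (pt b p w k) n (x + lev p w x z * b)) x =
      2 * (clW k n b p (cl p w) x 0 * clW k n b p (cl p w) x (w + 2) *
        pth (clW k n b p (cl p w) x) 1 w) := by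
  rw [clM, EE_K hxα hxp hK, ← prod_rwA (v := clW k n b p (cl p w) x) (fun s => clW_sq x s)]
  refine Finset.prod_congr rfl fun z hz => ?_
  have := mem_range.mp hz
  exact row_K hd hb hn hxp hK (by omega)

theorem clM_L {α β zβ x : ℕ} (hxb : x < b) (hxα : x ≠ α) (hxp : p + 2 ≤ x) :
    clM (EE p d w α β zβ) (fun x z => rowq (pt b p w k) n (x + lev p w x z * b)) x =
      pth (clW k n b p (cl p w) x) 0 (w + 1) := by
  rw [clM, EE_L hxα hxp]
  refine prod_edges_range (L := w + 1) _ le_rfl fun z hz => ?_
  exact row_L hd hb hn hxb hxp hz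

include h2

theorem bystander {α β zβ x : ℕ} (hxb : x < b) (hxα : x ≠ α) (hxβ : x ≠ β) :
    ∃ h : SqAlg k n, ∃ s : k, s ≠ 0 ∧
      h * clM (EE p d w α β zβ) (fun x z => rowq (pt b p w k) n (x + lev p w x z * b)) x =
        s • clY (clW k n b p (cl p w)) (cc p d w) x := by
  have hv : ∀ s, clW k n b p (cl p w) x s * clW k n b p (cl p w) x s = 0 := fun s => clW_sq x s
  by_cases hZ : IsZ p d x
  · refine ⟨clW k n b p (cl p w) x 0, 1, one_ne_zero, ?_⟩
    rw [clM_Z hd hb hn hxb hxα hZ, if_neg hxβ, mul_cyG hv (by omega) (by omega), if_pos le_rfl,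
      clY_Z (by unfold IsZ at hZ; omega), one_smul]
  by_cases hK : x ≤ p ∧ p < x + d
  · refine ⟨clW k n b p (cl p w) x 1, 2, h2, ?_⟩
    rw [clM_K hd hb hn hxα hK.1 hK.2, wt_Φ_mid hv le_rfl (by omega), clY_K hK, Algebra.smul_def,
      map_ofNat]
  · have hL : p + 2 ≤ x := by unfold IsZ at hZ; omega
    refine ⟨clW k n b p (cl p w) x 0, 1, one_ne_zero, ?_⟩
    rw [clM_L hd hb hn hxb hxα hL, mul_pth hv le_rfl (by omega), clY_Z hK, one_smul]

include hδ

/-- The relations between a cyclic class and another class. -/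
theorem cross {α β zβ i : ℕ} (hα : IsZ p d α) (hβb : β < b) (hαβ : α ≠ β)
    (hzβ : zβ ≤ w + 1) (hi : i ≤ w + 1) (l : ℕ → k)
    (hl : ∀ j < cc p d w β, clW k n b p (cl p w) β j *
      clM (EE p d w α β zβ) (fun x z => rowq (pt b p w k) n (x + lev p w x z * b)) β =
        l j • clY (clW k n b p (cl p w)) (cc p d w) β) :
    ∑ j ∈ range (cc p d w β), l j * δ (α + lev p w α i * b + (yx b p β + cl p w β j * b)) = 0 := by
  have hαb : α < b := by have := IsZ_le hα; omega
  obtain ⟨e, he⟩ := exists_mult_cyG (v := clW k n b p (cl p w) α) (fun s => clW_sq α s) (L := w + 1)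
    (i := i) (by omega)
  have h3 := rel_cross (b := b) (E := EE p d w α β zβ)
    (R := fun x z => rowq (pt b p w k) n (x + lev p w x z * b)) (W := clW k n b p (cl p w))
    (c := cc p d w)
    (d := fun x i x' j => δ (x + lev p w x i * b + (yx b p x' + cl p w x' j * b)))
    (hrel hd hb hn δ hδ (β := β) hα hzβ) (fun x j => clW_sq x j)
    (clY_ne (by omega) (hc hd hb hn) (hcl hd)) hαb hβb hαβ (clM_α hd hb hn hαb hα) e
    (fun z => if z = i then 2 else 0)
    (by
      intro z hz
      rw [EE_α, mem_range] at hz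
      rw [clG_α hd hb hn hαb hα (by omega), he z (by omega),
        clY_Z (by unfold IsZ at hα; omega)]
      split_ifs
      · rw [Algebra.smul_def, map_ofNat]
      · rw [zero_smul])
    l hl (fun x hx h4 h5 => bystander h2 hd hb hn hx h4 h5)
  rw [EE_α, Finset.sum_eq_single i] at h3
  · simp only [if_true] at h3
    exact (mul_eq_zero.mp h3).resolve_left h2
  · intro z _ hz
    rw [if_neg hz, zero_mul]
  · intro h; rw [mem_range] at h; omega

omit h2 hd hb hn hδ in
theorem exists_lev {α i : ℕ} (hα : IsZ p d α) (hi : i ≤ w + 1) :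
    ∃ i0, i0 ≤ w + 1 ∧ lev p w α i0 = i := by
  have := IsZ_le hα
  by_cases h : α = p + 1
  · exact ⟨i, hi, by rw [lev, if_pos h]⟩
  · exact ⟨w + 1 - i, by omega, by rw [lev, if_neg h, if_pos (by omega)]; omega⟩

theorem relZ {α β i j : ℕ} (hα : IsZ p d α) (hβ : IsZ p d β) (hαβ : α ≠ β)
    (hi : i ≤ w + 1) (hj : j ≤ w + 1) : δ (α + yx b p β + (i + j) * b) = 0 := by
  have hβb : β < b := by have := IsZ_le hβ; omega
  obtain ⟨i0, hi0, rfl⟩ := exists_lev hα hi
  obtain ⟨j0, hj0, rfl⟩ : ∃ j0, j0 ≤ w + 1 ∧ cl p w β j0 = j := by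
    by_cases h : β = p + 1
    · exact ⟨w + 1 - j, by omega, by rw [cl, if_pos h]; omega⟩
    · exact ⟨j, hj, by rw [cl, if_neg h]⟩
  have hcc : cc p d w β = w + 2 := by rw [cc, if_neg (by unfold IsZ at hβ; omega)]
  have hv : ∀ s, clW k n b p (cl p w) β s * clW k n b p (cl p w) β s = 0 := fun s => clW_sq β s
  have h3 := z_lemma h2 (L := w + 1)
    (fun j => δ (α + lev p w α i0 * b + (yx b p β + cl p w β j * b))) (by
      intro z hz
      have h4 := cross h2 hd hb hn δ hδ hα hβb hαβ hz hi0 (fun j => if j ≤ z then 1 else -1) (by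
        intro j hj
        rw [hcc] at hj
        rw [clM_Z hd hb hn hβb hαβ.symm hβ, if_pos rfl, mul_cyG hv (by omega) (by omega),
          clY_Z (by unfold IsZ at hβ; omega)]
        split_ifs
        · rw [one_smul]
        · rw [neg_smul, one_smul])
      rw [hcc] at h4
      exact h4) j0 hj0
  rw [← h3]
  congr 1
  ring

theorem relL {α β i : ℕ} (hα : IsZ p d α) (hβb : β < b) (hβ : p + 2 ≤ β) (hi : i ≤ w + 1) :
    ∑ j ∈ range (w + 2), δ (α + yx b p β + (i + j) * b) = 0 := by
  obtain ⟨i0, hi0, rfl⟩ := exists_lev hα hi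
  have hαβ : α ≠ β := by have := IsZ_le hα; omega
  have hcc : cc p d w β = w + 2 := by rw [cc, if_neg (by omega)]
  have hv : ∀ s, clW k n b p (cl p w) β s * clW k n b p (cl p w) β s = 0 := fun s => clW_sq β s
  have h4 := cross h2 hd hb hn δ hδ hα hβb hαβ (zβ := 0) (by omega) hi0 (fun j => 1) (by
    intro j hj
    rw [hcc] at hj
    rw [clM_L hd hb hn hβb hαβ.symm hβ, mul_pth hv (by omega) (by omega), clY_Z (by omega),
      one_smul])
  rw [hcc] at h4
  rw [← h4]
  refine Finset.sum_congr rfl fun j _ => ?_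
  rw [one_mul, cl, if_neg (by omega)]
  congr 1
  ring

theorem relK {α β i : ℕ} (hα : IsZ p d α) (hβp : β ≤ p) (hβ : p < β + d) (hi : i ≤ w + 1) :
    ∑ j ∈ range (w + 1), δ (α + yx b p β + (i + (j + 1)) * b) = 0 := by
  obtain ⟨i0, hi0, rfl⟩ := exists_lev hα hi
  have hαβ : α ≠ β := by unfold IsZ at hα; omega
  have hcc : cc p d w β = w + 3 := by rw [cc, if_pos (by omega)]
  have hv : ∀ s, clW k n b p (cl p w) β s * clW k n b p (cl p w) β s = 0 := fun s => clW_sq β s
  have h4 := cross h2 hd hb hn δ hδ hα (by omega) hαβ (zβ := 0) (by omega) hi0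
    (fun j => if j = 0 then 0 else if j = w + 2 then 0 else 2) (by
    intro j hj
    rw [hcc] at hj
    rw [clM_K hd hb hn hαβ.symm hβp hβ, clY_K ⟨hβp, hβ⟩]
    by_cases hj0 : j = 0
    · subst hj0
      rw [wt_Φ_zero hv, if_pos rfl, zero_smul]
    by_cases hj1 : j = w + 2
    · subst hj1
      rw [wt_Φ_last hv, if_neg hj0, if_pos rfl, zero_smul]
    · rw [wt_Φ_mid hv (by omega) (by omega), if_neg hj0, if_neg hj1, Algebra.smul_def, map_ofNat])
  rw [hcc, sum_range_succ', sum_range_succ] at h4
  simp only [if_true, zero_mul, add_zero, if_neg (Nat.succ_ne_zero _)] at h4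
  have h5 : 2 * ∑ j ∈ range (w + 1), δ (α + yx b p β + (lev p w α i0 + (j + 1)) * b) = 0 := by
    rw [← h4, Finset.mul_sum]
    refine Finset.sum_congr rfl fun j hj => ?_
    rw [mem_range] at hj
    rw [if_neg (by omega), cl, if_neg (by omega)]
    congr 2
    ring
  exact (mul_eq_zero.mp h5).resolve_left h2

theorem relOwn {α : ℕ} (hα : IsZ p d α) :
    ∑ i ∈ range (w + 2), ∑ j ∈ range (w + 2), (if j ≤ i then (1 : k) else -1) *
      δ (α + lev p w α i * b + (yx b p α + cl p w α j * b)) = 0 := by
  have hαb : α < b := by have := IsZ_le hα; omega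
  have hcc : cc p d w α = w + 2 := by rw [cc, if_neg (by unfold IsZ at hα; omega)]
  have hv : ∀ s, clW k n b p (cl p w) α s * clW k n b p (cl p w) α s = 0 := fun s => clW_sq α s
  have h3 := rel_own (b := b) (E := EE p d w α α 0)
    (R := fun x z => rowq (pt b p w k) n (x + lev p w x z * b)) (W := clW k n b p (cl p w))
    (c := cc p d w)
    (d := fun x i x' j => δ (x + lev p w x i * b + (yx b p x' + cl p w x' j * b)))
    (hrel hd hb hn δ hδ (β := α) (zβ := 0) hα (by omega))
    (fun x j => clW_sq x j)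
    (clY_ne (by omega) (hc hd hb hn) (hcl hd)) hαb (clM_α hd hb hn hαb hα)
    (fun i j => if j ≤ i then 1 else -1)
    (by
      intro i hi j hj
      rw [EE_α, mem_range] at hi
      rw [hcc] at hj
      rw [clG_α hd hb hn hαb hα (by omega), mul_cyG hv (by omega) (by omega),
        clY_Z (by unfold IsZ at hα; omega)]
      split_ifs
      · rw [one_smul]
      · rw [neg_smul, one_smul])
    (fun x hx h4 => bystander h2 hd hb hn hx h4 h4)
  rw [EE_α, hcc] at h3
  exact h3

end rel

section elim

variable {k : Type*} [Field k] {b p d w : ℕ} (hd : d ≤ p) (hb : p + 2 ≤ b) (δ : ℕ → k)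
  (hZ : ∀ α β, IsZ p d α → IsZ p d β → α ≠ β → ∀ i j, i ≤ w + 1 → j ≤ w + 1 →
    δ (α + yx b p β + (i + j) * b) = 0)
  (hL : ∀ α β, IsZ p d α → β < b → p + 2 ≤ β → ∀ i, i ≤ w + 1 →
    ∑ j ∈ range (w + 2), δ (α + yx b p β + (i + j) * b) = 0)
  (hK : ∀ α β, IsZ p d α → β ≤ p → p < β + d → ∀ i, i ≤ w + 1 →
    ∑ j ∈ range (w + 1), δ (α + yx b p β + (i + (j + 1)) * b) = 0)
  (hOwn : ∀ α, IsZ p d α → ∑ i ∈ range (w + 2), ∑ j ∈ range (w + 2),
    (if j ≤ i then (1 : k) else -1) *
      δ (α + lev p w α i * b + (yx b p α + cl p w α j * b)) = 0)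
  (hN : ∀ s, (2 * w + 3) * b + p + 1 + d ≤ s → δ s = 0)
  (hT : ∀ s, (w + 2) * b + p + 1 + d ≤ s → s < (2 * w + 3) * b + p + 1 + d →
    s % b ≠ p → s % b ≠ (2 * p + 1) % b → δ s = 0)
  (hS : ∀ s < d, δ s = 0)
  (hP : ∀ q, 1 ≤ q → q ≤ 2 * w + 2 → δ (p + q * b) = 0)

include hd in
theorem isZ_zero : IsZ p d 0 := Or.inl (by omega)

omit [Field k] in
theorem exists_split {q : ℕ} (h : q ≤ 2 * w + 2) : ∃ i j, i ≤ w + 1 ∧ j ≤ w + 1 ∧ i + j = q := by
  rcases Nat.lt_or_ge q (w + 2) with h1 | h1
  · exact ⟨q, 0, by omega, by omega, by omega⟩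
  · exact ⟨w + 1, q - (w + 1), by omega, by omega, by omega⟩

include hd hb hZ

theorem elim_Z {y q : ℕ} (hy : d ≤ y ∧ y < p ∨ y = b - 1) (hq : q ≤ 2 * w + 2) :
    δ (y + q * b) = 0 := by
  obtain ⟨i, j, hi, hj, rfl⟩ := exists_split hq
  rcases hy with h | h
  · have h1 := hZ 0 (p - y) (isZ_zero hd) (Or.inl (by omega)) (by omega) i j hi hj
    rw [yx, if_pos (by omega)] at h1
    rw [← h1]
    congr 1
    omega
  · have h1 := hZ 0 (p + 1) (isZ_zero hd) (Or.inr rfl) (by omega) i j hi hj
    rw [yx, if_neg (by omega)] at h1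
    rw [← h1]
    congr 1
    omega

theorem elim_sig {q : ℕ} (hq : q ≤ 2 * w + 2) : δ (2 * p + 1 + q * b) = 0 := by
  obtain ⟨i, j, hi, hj, rfl⟩ := exists_split hq
  have h1 := hZ (p + 1) 0 (Or.inr rfl) (isZ_zero hd) (by omega) i j hi hj
  rw [yx, if_pos (by omega)] at h1
  rw [← h1]
  congr 1
  omega

omit hZ in
include hOwn hP in
theorem elim_p0 : δ p = 0 := by
  have h1 := hOwn 0 (isZ_zero hd)
  have l0 : ∀ i, lev p w 0 i = w + 1 - i := fun i => by
    rw [lev, if_neg (by omega), if_pos (by omega)]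
  have c0 : ∀ j, cl p w 0 j = j := fun j => by rw [cl, if_neg (by omega)]
  have y0 : yx b p 0 = p := by rw [yx, if_pos (by omega)]; omega
  have e : ∀ u v, 0 + u * b + (p + v * b) = p + (u + v) * b := by
    intro u v
    rw [add_mul]; omega
  simp only [l0, c0, y0, e] at h1
  rw [Finset.sum_eq_single (w + 1), Finset.sum_eq_single 0] at h1
  · rw [if_pos (Nat.zero_le _), one_mul, show w + 1 - (w + 1) + 0 = 0 by omega, zero_mul,
      add_zero] at h1
    exact h1
  · intro j hj hj0
    rw [mem_range] at hj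
    rw [hP (w + 1 - (w + 1) + j) (by omega) (by omega), mul_zero]
  · intro h; rw [mem_range] at h; omega
  · intro i hi hi0
    rw [mem_range] at hi
    refine Finset.sum_eq_zero fun j hj => ?_
    rw [mem_range] at hj
    rw [hP (w + 1 - i + j) (by omega) (by omega), mul_zero]
  · intro h; rw [mem_range] at h; omega

omit hZ in
include hOwn hP in
theorem elim_plast : δ (p + (2 * w + 3) * b) = 0 := by
  have h1 := hOwn (p + 1) (Or.inr rfl)
  have l0 : ∀ i, lev p w (p + 1) i = i := fun i => by rw [lev, if_pos rfl]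
  have c0 : ∀ j, cl p w (p + 1) j = w + 1 - j := fun j => by rw [cl, if_pos rfl]
  have y0 : yx b p (p + 1) = b - 1 := by rw [yx, if_neg (by omega)]; omega
  have e : ∀ u v, p + 1 + u * b + (b - 1 + v * b) = p + (u + v + 1) * b := by
    intro u v
    rw [add_mul, add_mul]; omega
  simp only [l0, c0, y0, e] at h1
  rw [Finset.sum_eq_single (w + 1), Finset.sum_eq_single 0] at h1
  · rw [if_pos (Nat.zero_le _), one_mul, show w + 1 + (w + 1 - 0) + 1 = 2 * w + 3 by omega] at h1
    exact h1
  · intro j hj hj0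
    rw [mem_range] at hj
    rw [hP (w + 1 + (w + 1 - j) + 1) (by omega) (by omega), mul_zero]
  · intro h; rw [mem_range] at h; omega
  · intro i hi hi0
    rw [mem_range] at hi
    refine Finset.sum_eq_zero fun j hj => ?_
    rw [mem_range] at hj
    rw [hP (i + (w + 1 - j) + 1) (by omega) (by omega), mul_zero]
  · intro h; rw [mem_range] at h; omega

include hL hK hOwn hN hT hS hP

theorem elim_all (s : ℕ) : δ s = 0 := by
  have hb0 : 0 < b := by omega
  have hr : s % b < b := Nat.mod_lt _ hb0
  have hs : s % b + s / b * b = s := by rw [mul_comm, Nat.mod_add_div]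
  have hmul : ∀ x y : ℕ, x ≤ y → x * b ≤ y * b := fun x y h => Nat.mul_le_mul_right b h
  have e2 : (w + 2) * b = w * b + 2 * b := by ring
  have e3 : (2 * w + 3) * b = w * b + w * b + 3 * b := by ring
  have e4 : (2 * w + 4) * b = w * b + w * b + 4 * b := by ring
  have e5 : (w + 3) * b = w * b + 3 * b := by ring
  have e6 : (w + 4) * b = w * b + 4 * b := by ring
  -- the tail
  have htail : ∀ r q : ℕ, r < b → r ≠ p → r ≠ (2 * p + 1) % b →
      (w + 2) * b + p + 1 + d ≤ r + q * b → δ (r + q * b) = 0 := by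
    intro r q h1 h3 h4 h5
    rcases Nat.lt_or_ge (r + q * b) ((2 * w + 3) * b + p + 1 + d) with h6 | h6
    · exact hT _ h5 h6 (by rwa [mod_mul_add h1]) (by rwa [mod_mul_add h1])
    · exact hN _ h6
  rw [← hs]
  set r := s % b with hrdef
  set q := s / b with hqdef
  clear_value r q
  by_cases hrp : r = p
  · subst hrp
    rcases Nat.eq_zero_or_pos q with h | h
    · subst h
      rw [zero_mul, add_zero]
      exact elim_p0 hd hb δ hOwn hP
    · rcases Nat.lt_or_ge q (2 * w + 3) with h1 | h1
      · exact hP q h (by omega)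
      · rcases Nat.lt_or_ge q (2 * w + 4) with h3 | h3
        · have : q = 2 * w + 3 := by omega
          subst this
          exact elim_plast hd hb δ hOwn hP
        · apply hN
          have := hmul _ _ h3
          omega
  by_cases hrσ : r = (2 * p + 1) % b
  · rcases Nat.lt_or_ge (2 * p + 1) b with h | h
    · rw [Nat.mod_eq_of_lt h] at hrσ
      subst hrσ
      rcases Nat.lt_or_ge q (2 * w + 3) with h1 | h1
      · exact elim_sig hd hb δ hZ (by omega)
      · apply hN
        have := hmul _ _ h1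
        omega
    · have h1 : (2 * p + 1) % b = 2 * p + 1 - b := by
        rw [Nat.mod_eq_sub_mod h, Nat.mod_eq_of_lt (by omega)]
      rw [h1] at hrσ
      rcases Nat.eq_zero_or_pos q with h3 | h3
      · subst h3
        rw [zero_mul, add_zero]
        rcases Nat.lt_or_ge r d with h4 | h4
        · exact hS r h4
        · have := elim_Z hd hb δ hZ (y := r) (q := 0) (Or.inl ⟨h4, by omega⟩) (by omega)
          rwa [zero_mul, add_zero] at this
      · rcases Nat.lt_or_ge q (2 * w + 4) with h4 | h4
        · obtain ⟨e, rfl⟩ : ∃ e, q = e + 1 := ⟨q - 1, by omega⟩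
          have h5 := elim_sig hd hb δ hZ (q := e) (by omega)
          rw [← h5]
          congr 1
          rw [add_mul]
          omega
        · apply hN
          have := hmul _ _ h4
          omega
  -- the other residues
  rcases Nat.lt_or_ge r d with h | h
  · -- classes with an additional column
    rcases Nat.eq_zero_or_pos q with h1 | h1
    · subst h1
      rw [zero_mul, add_zero]
      exact hS r h
    · have h3 : δ (r + (w + 3) * b) = 0 := by
        rcases Nat.lt_or_ge (b + r) (p + 1 + d) with h4 | h4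
        · have h5 := hK (p + 1) (p - (r + b - (p + 1))) (Or.inr rfl) (by omega) (by omega) (w + 1)
            le_rfl
          rw [sum_range_succ', Finset.sum_eq_zero, zero_add] at h5
          · rw [← h5, yx, if_pos (by omega)]
            congr 1
            have e7 : (w + 1 + (0 + 1)) * b = w * b + 2 * b := by ring
            omega
          · intro j _
            rw [yx, if_pos (by omega)]
            have e8 : (w + 4 + j) * b = w * b + 4 * b + j * b := by ring
            have h6 := htail r (w + 4 + j) hr hrp hrσ (by omega)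
            rw [← h6]
            congr 1
            have e7 : (w + 1 + (j + 1 + 1)) * b = w * b + 3 * b + j * b := by ring
            omega
        · exact htail r (w + 3) hr hrp hrσ (by omega)
      refine down_lemma (fun q => δ (r + q * b)) w (w + 3) 1 ?_ ?_ q h1
      · intro q hq
        rcases Nat.lt_or_ge q (w + 4) with h4 | h4
        · have : q = w + 3 := by omega
          subst this
          exact h3
        · have := hmul _ _ h4
          exact htail r q hr hrp hrσ (by omega)
      · intro q hq1 hq2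
        obtain ⟨e, rfl⟩ : ∃ e, q = e + 1 := ⟨q - 1, by omega⟩
        have h5 := hK 0 (p - r) (isZ_zero hd) (by omega) (by omega) e (by omega)
        rw [← h5]
        refine Finset.sum_congr rfl fun j _ => ?_
        rw [yx, if_pos (by omega), show e + 1 + j = e + (j + 1) by ring,
          show 0 + (p - (p - r)) = r by omega]
  by_cases hrZ : r < p ∨ r = b - 1
  · rcases Nat.lt_or_ge q (2 * w + 3) with h1 | h1
    · exact elim_Z hd hb δ hZ (by omega) (by omega)
    · have := hmul _ _ h1
      exact htail r q hr hrp hrσ (by omega)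
  · -- the last classes
    have hβ1 : p + b - r < b := by omega
    have hβ2 : p + 2 ≤ p + b - r := by omega
    have hyx : yx b p (p + b - r) = r := by rw [yx, if_neg (by omega)]; omega
    have h3 : δ (r + (w + 2) * b) = 0 := by
      rcases Nat.lt_or_ge r (p + 1 + d) with h4 | h4
      · have hA4 : ∀ i ≤ w + 1, ∑ j ∈ range (w + 1), δ (r + (i + (j + 1)) * b) = 0 := by
          intro i hi
          have h5 := hK (p + 1) (p - (r - (p + 1))) (Or.inr rfl) (by omega) (by omega) i hi
          rw [← h5]
          refine Finset.sum_congr rfl fun j _ => ?_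
          rw [yx, if_pos (by omega)]
          congr 2
          omega
        have hA3 : ∀ i ≤ w + 1, δ (r + i * b) = 0 := by
          intro i hi
          have h5 := hL 0 (p + b - r) (isZ_zero hd) hβ1 hβ2 i hi
          rw [hyx, sum_range_succ'] at h5
          simp only [zero_add, add_zero] at h5
          rw [hA4 i hi, zero_add] at h5
          exact h5
        have h6 := hA4 1 (by omega)
        rw [sum_range_succ, Finset.sum_eq_zero, zero_add] at h6
        · rw [← h6]
          congr 2
          ring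
        · intro j hj
          rw [mem_range] at hj
          exact hA3 _ (by omega)
      · exact htail r (w + 2) hr hrp hrσ (by omega)
    refine down_lemma (fun q => δ (r + q * b)) (w + 1) (w + 2) 0 ?_ ?_ q (Nat.zero_le _)
    · intro q hq
      rcases Nat.lt_or_ge q (w + 3) with h4 | h4
      · have : q = w + 2 := by omega
        subst this
        exact h3
      · have := hmul _ _ h4
        exact htail r q hr hrp hrσ (by omega)
    · intro q _ hq2
      have h5 := hL 0 (p + b - r) (isZ_zero hd) hβ1 hβ2 q (by omega)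
      rw [← h5, hyx]
      refine Finset.sum_congr rfl fun j _ => ?_
      rw [zero_add]

end elim

section final

variable {k : Type*} [Field k]

theorem not_prime (h2 : (2 : k) ≠ 0) {b p d w : ℕ} (hd : d ≤ p) (hb : p + 2 ≤ b) :
    ¬ (permIdeal ((w + 1) * b + d + 1)
      (hankelMatrix k ((w + 1) * b + p + 2) ((w + 2) * b + d))).IsPrime := by
  intro hP
  have e1 : (w + 1) * b = w * b + b := by ring
  have e2 : (w + 2) * b = w * b + 2 * b := by ring
  have e3 : (2 * w + 3) * b = w * b + w * b + 3 * b := by ring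
  have e4 : (w + 1) * (b - 2) = w * b + b - (2 * w + 2) := by
    obtain ⟨b', rfl⟩ : ∃ b', b = b' + 2 := ⟨b - 2, by omega⟩
    rw [Nat.add_sub_cancel]
    have : w * (b' + 2) + (b' + 2) = (w + 1) * b' + (2 * w + 2) := by ring
    omega
  have hwb : 2 * w ≤ w * b := by
    rw [mul_comm 2 w]
    exact Nat.mul_le_mul_left w (by omega)
  set n := (w + 2) * b + d with hn
  -- the point
  have hq : ∀ f ∈ permIdeal ((w + 1) * b + d + 1) (hankelMatrix k ((w + 1) * b + p + 2) n),
      aeval (fun i : Fin ((w + 1) * b + p + 2 + n - 1) => pt b p w k i) f = 0 := by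
    refine mem_of_classes (a := p + 2 - d) (b := b) (pt b p w k) (by omega)
      ((range b).filter (IsZ p d)) (by omega) ?_ ?_ (rho p w) (lev p w) ?_ ?_ ?_
    · have : (range b).filter (IsZ p d) = insert (p + 1) (range (p + 1 - d)) := by
        ext x
        simp only [mem_filter, mem_range, mem_insert, IsZ]
        omega
      rw [this, Finset.card_insert_of_notMem (by rw [mem_range]; omega), card_range]
      omega
    · intro x hx
      exact mem_range.mp (Finset.mem_filter.mp hx).1
    · intro x _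
      exact lev_inj x
    · intro x hx z hz
      exact lev_lt (mem_range.mp (Finset.mem_filter.mp hx).1) hz
    · intro x hx
      obtain ⟨h3, h4⟩ := Finset.mem_filter.mp hx
      rw [mem_range] at h3
      rw [rho, if_pos (IsZ_le h4),
        ← prod_cyR (v := clW k n b p (cl p w) x) (fun s => clW_sq x s) (L := w + 1)]
      refine Finset.prod_congr rfl fun z hz => ?_
      rw [mem_range] at hz
      exact row_Z hd hb hn h3 h4 (by omega)
  -- the free coordinates
  set S1 := (Ico ((w + 2) * b + p + 1 + d) ((w + 2) * b + p + 1 + d + (w + 1) * b)).filter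
    (fun s => s % b ∈ ((range b).erase p).erase ((2 * p + 1) % b)) with hS1
  set S2 := (range (2 * w + 2)).image (fun q => p + (q + 1) * b) with hS2
  have hcard : (S1 ∪ (range d ∪ S2)).card ≤ (w + 1) * b + d := by
    have hσ : (2 * p + 1) % b ≠ p := by
      rcases Nat.lt_or_ge (2 * p + 1) b with h | h
      · rw [Nat.mod_eq_of_lt h]; omega
      · rw [Nat.mod_eq_sub_mod h, Nat.mod_eq_of_lt (by omega)]; omega
    have hσb : (2 * p + 1) % b < b := Nat.mod_lt _ (by omega)
    have h3 : (((range b).erase p).erase ((2 * p + 1) % b)).card = b - 2 := by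
      rw [Finset.card_erase_of_mem, Finset.card_erase_of_mem, card_range]
      · rfl
      · rw [mem_range]; omega
      · rw [mem_erase, mem_range]; exact ⟨hσ, hσb⟩
    have h4 : S1.card ≤ (((range b).erase p).erase ((2 * p + 1) % b)).card * (w + 1) :=
      card_window b ((w + 2) * b + p + 1 + d) (w + 1)
        (((range b).erase p).erase ((2 * p + 1) % b))
        ((Finset.erase_subset _ _).trans (Finset.erase_subset _ _))
    rw [h3, mul_comm (b - 2) (w + 1), e4] at h4
    have h5 : S2.card ≤ 2 * w + 2 := by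
      refine Finset.card_image_le.trans ?_
      rw [card_range]
    have h6 := Finset.card_union_le S1 (range d ∪ S2)
    have h7 := Finset.card_union_le (range d) S2
    rw [card_range] at h7
    omega
  obtain ⟨δ, ⟨s0, hs0, hne⟩, hN, hS, hδ⟩ := exists_delta (m := (w + 1) * b + p + 2) (n := n)
    (T := (w + 1) * b + d) (by omega) (by omega) (by omega) hP (pt b p w k) hq
    (S1 ∪ (range d ∪ S2)) hcard
  apply hne
  refine elim_all hd hb δ
    (fun α β hα hβ hαβ i j hi hj => relZ h2 hd hb hn δ hδ hα hβ hαβ hi hj)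
    (fun α β hα hβb hβ i hi => relL h2 hd hb hn δ hδ hα hβb hβ hi)
    (fun α β hα hβp hβ i hi => relK h2 hd hb hn δ hδ hα hβp hβ hi)
    (fun α hα => relOwn h2 hd hb hn δ hδ hα)
    (fun s hs => hN s (by omega))
    (fun s h3 h4 h5 h6 => hS s ?_)
    (fun s hs => hS s ?_)
    (fun q h3 h4 => hS _ ?_) s0
  · refine Finset.mem_union_left _ ?_
    rw [hS1, mem_filter, mem_Ico, mem_erase, mem_erase, mem_range]
    exact ⟨⟨h3, by omega⟩, h6, h5, Nat.mod_lt _ (by omega)⟩
  · exact Finset.mem_union_right _ (Finset.mem_union_left _ (mem_range.mpr hs))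
  · refine Finset.mem_union_right _ (Finset.mem_union_right _ ?_)
    rw [hS2, mem_image]
    exact ⟨q - 1, mem_range.mpr (by omega), by rw [Nat.sub_add_cancel h3]⟩

end final

end CaseA

end Pool.Agent.HankelPerm
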