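import Pool.Agent.HankelPerm.ClsPt
import Pool.Agent.HankelPerm.ClsAlg

/-!
The region `a ≥ 2`, second case: `m = (w + 2) b + p + 1`, `n = (w + 2) b + f + 1`,
`T = (w + 1) b + f + 1` with `p ≤ f ≤ b - 2` (so `a = b + p - f`).
-/

namespace Pool.Agent.HankelPerm

open Matrix Finset Equiv MvPolynomial Pool.Agent.H32

namespace CaseB

section defs

variable (b p f w : ℕ)

/-- The small cyclic classes. -/
def IsC (x : ℕ) : Prop := p < x ∧ x + f < b + p

instance : DecidablePred (IsC b p f) := fun x => by unfold IsC; infer_instance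

/-- Number of rows of a class. -/
def rho (x : ℕ) : ℕ := if x ≤ p then w + 3 else w + 2

/-- Number of columns of a class. -/
def cc (x : ℕ) : ℕ := if IsC b p f x then w + 2 else w + 3

/-- The labels of the columns. -/
def cl (_ j : ℕ) : ℕ := j

/-- The labels of the rows. -/
def lev (x z : ℕ) : ℕ := if x ≤ p then w + 2 - z else w + 1 - z

/-- The point. -/
def pt (k : Type*) [Field k] : ℕ → k :=
  pt4 k 1 (-1) 1 1 (p + 0 * b) (p + 1 * b) (p + (w + 2) * b) (p + (w + 3) * b)

end defs

section cols

variable {b p f w n : ℕ} (hf : p ≤ f) (hb : f + 2 ≤ b) (hn : n = (w + 2) * b + f + 1)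

include hf hb hn

theorem hc : ∀ x < b, ∀ j, yx b p x + j * b < n ↔ j < cc b p f w x := by
  intro x hx j
  subst hn
  have e2 : (w + 2) * b = (w + 1) * b + b := by ring
  have e3 : (w + 3) * b = (w + 2) * b + b := by ring
  rcases Nat.lt_trichotomy j (w + 2) with h | h | h
  · have h1 : j * b ≤ (w + 1) * b := Nat.mul_le_mul_right b (by omega)
    have h3 := yx_lt (p := p) (by omega) hx
    constructor
    · intro _
      rw [cc]; split_ifs <;> omega
    · intro _
      omega
  · subst h
    by_cases hC : IsC b p f x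
    · rw [cc, if_pos hC, yx, if_neg (by unfold IsC at hC; omega)]
      unfold IsC at hC
      omega
    · rw [cc, if_neg hC, yx]
      unfold IsC at hC
      split_ifs <;> omega
  · have h1 : (w + 3) * b ≤ j * b := Nat.mul_le_mul_right b (by omega)
    constructor
    · intro h3; omega
    · intro h3
      rw [cc] at h3
      split_ifs at h3 <;> omega

omit hf hb hn in
theorem hcl : ∀ x < b, ∀ j < cc b p f w x, cl x j < cc b p f w x ∧ cl x (cl x j) = j :=
  fun _ _ _ hj => ⟨hj, rfl⟩

end cols

section rows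

variable {k : Type*} [Field k] {b p f w n : ℕ} (hf : p ≤ f) (hb : f + 2 ≤ b)
  (hn : n = (w + 2) * b + f + 1)

include hf hb hn

theorem YY_out {x j : ℕ} (hx : x < b) (hj : cc b p f w x ≤ j) :
    YY k n (yx b p x + j * b + 1) = 0 := by
  apply YY_big
  have := (hc hf hb hn x hx j).not.mpr (by omega)
  omega

/-- Rows of the classes `x ≤ p`. -/
theorem row_P {x z : ℕ} (hx : x ≤ p) (hz : z ≤ w + 2) :
    rowq (pt b p w k) n (x + lev p w x z * b) = zpR (clW k n b p cl x) w z := by
  have hxb : x < b := by omega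
  have hpb : p < b := by omega
  have hcc : cc b p f w x = w + 3 := by rw [cc, if_neg (by unfold IsC; omega)]
  rw [lev, if_pos hx, pt, rowq_pt4, term_eq hxb hpb, term_eq hxb hpb, term_eq hxb hpb,
    term_eq hxb hpb]
  simp only [if_pos hx, clW, cl, zpR]
  rw [if_pos (show w + 2 - z ≤ w + 2 by omega), if_pos (show w + 2 - z ≤ w + 3 by omega),
    show w + 2 - (w + 2 - z) = z by omega, show w + 3 - (w + 2 - z) = z + 1 by omega]
  by_cases h1 : z = w + 2
  · subst h1
    rw [if_pos (by omega), if_pos (by omega), if_pos rfl,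
      YY_out hf hb hn (j := w + 2 + 1) hxb (by omega),
      show 0 - (w + 2 - (w + 2)) = 0 by omega, show 1 - (w + 2 - (w + 2)) = 1 by omega]
    simp only [neg_smul, one_smul]
    ring
  by_cases h3 : z = w + 1
  · subst h3
    rw [if_neg (by omega), if_pos (by omega), if_neg h1, if_pos rfl,
      show 1 - (w + 2 - (w + 1)) = 0 by omega]
    simp only [neg_smul, one_smul, smul_zero]
    ring
  · rw [if_neg (by omega), if_neg (by omega), if_neg h1, if_neg h3]
    simp only [neg_smul, one_smul, smul_zero]
    ring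

theorem row_gt {x z : ℕ} (hx : p < x) (hxb : x < b) (hz : z ≤ w + 1) :
    rowq (pt b p w k) n (x + lev p w x z * b) =
      -(if z = w + 1 then YY k n (yx b p x + 0 * b + 1) else 0) +
        YY k n (yx b p x + z * b + 1) + YY k n (yx b p x + (z + 1) * b + 1) := by
  have hpb : p < b := by omega
  have hx' : ¬ x ≤ p := by omega
  rw [lev, if_neg hx', pt, rowq_pt4, term_eq hxb hpb, term_eq hxb hpb, term_eq hxb hpb,
    term_eq hxb hpb]
  simp only [if_neg hx']
  rw [if_neg (show ¬ w + 1 - z < 0 by omega), if_pos (show w + 1 - z < w + 2 by omega),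
    if_pos (show w + 1 - z < w + 3 by omega), show w + 2 - 1 - (w + 1 - z) = z by omega,
    show w + 3 - 1 - (w + 1 - z) = z + 1 by omega]
  by_cases h1 : z = w + 1
  · subst h1
    rw [if_pos (by omega), if_pos rfl, show 1 - 1 - (w + 1 - (w + 1)) = 0 by omega]
    simp only [neg_smul, one_smul, smul_zero]
    ring
  · rw [if_neg (by omega), if_neg h1]
    simp only [neg_smul, one_smul, smul_zero]
    ring

/-- Rows of the small cyclic classes. -/
theorem row_C {x z : ℕ} (hC : IsC b p f x) (hz : z ≤ w + 1) :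
    rowq (pt b p w k) n (x + lev p w x z * b) = cyR (clW k n b p cl x) (w + 1) z := by
  have hxb : x < b := by unfold IsC at hC; omega
  have hcc : cc b p f w x = w + 2 := by rw [cc, if_pos hC]
  rw [row_gt hf hb hn hC.1 hxb hz, cyR]
  simp only [clW, cl]
  by_cases h1 : z = w + 1
  · subst h1
    rw [if_pos rfl, if_pos rfl, YY_out hf hb hn (j := w + 1 + 1) hxb (by omega)]
    ring
  · rw [if_neg h1, if_neg h1]
    ring

/-- Rows of the last classes. -/
theorem row_L {x z : ℕ} (hxb : x < b) (hx : p < x) (hz : z ≤ w + 1) :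
    rowq (pt b p w k) n (x + lev p w x z * b) = zpR (clW k n b p cl x) w z := by
  rw [row_gt hf hb hn hx hxb hz, zpR]
  simp only [clW, cl]
  by_cases h1 : z = w + 1
  · subst h1
    rw [if_pos rfl, if_neg (by omega), if_pos rfl]
    ring
  · rw [if_neg h1, if_neg (by omega), if_neg h1]
    ring

end rows

section rel

variable (b p f w : ℕ)

/-- The selected rows. -/
def EE (α β zβ x : ℕ) : Finset ℕ :=
  if x = α then range (rho p w x) else
    if x ≤ p then (range (w + 3)).erase (if x = β then zβ else w + 2) else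
      if IsC b p f x then (range (w + 2)).erase (if x = β then zβ else 0) else range (w + 2)

variable {b p f w}

theorem EE_α {α β zβ : ℕ} : EE b p f w α β zβ α = range (rho p w α) := by
  rw [EE, if_pos rfl]

theorem EE_P {α β zβ x : ℕ} (hx : x ≠ α) (hP : x ≤ p) :
    EE b p f w α β zβ x = (range (w + 3)).erase (if x = β then zβ else w + 2) := by
  rw [EE, if_neg hx, if_pos hP]

theorem EE_C {α β zβ x : ℕ} (hx : x ≠ α) (hC : IsC b p f x) :
    EE b p f w α β zβ x = (range (w + 2)).erase (if x = β then zβ else 0) := by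
  rw [EE, if_neg hx, if_neg (by unfold IsC at hC; omega), if_pos hC]

theorem EE_L {α β zβ x : ℕ} (hx : x ≠ α) (hxp : p < x) (hC : ¬ IsC b p f x) :
    EE b p f w α β zβ x = range (w + 2) := by
  rw [EE, if_neg hx, if_neg (by omega), if_neg hC]

theorem EE_sub {α β zβ x : ℕ} : EE b p f w α β zβ x ⊆ range (rho p w x) := by
  intro z hz
  by_cases hx : x = α
  · subst hx
    rwa [EE_α] at hz
  by_cases hP : x ≤ p
  · rw [EE_P hx hP] at hz
    rw [rho, if_pos hP]
    exact Finset.mem_of_mem_erase hz
  by_cases hC : IsC b p f x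
  · rw [EE_C hx hC] at hz
    rw [rho, if_neg hP]
    exact Finset.mem_of_mem_erase hz
  · rw [EE_L hx (by omega) hC] at hz
    rw [rho, if_neg hP]
    exact hz

theorem lev_inj (x : ℕ) : Set.InjOn (lev p w x) (range (rho p w x)) := by
  intro z hz z' hz' h
  simp only [coe_range, Set.mem_Iio, rho, lev] at *
  split_ifs at * <;> omega

theorem lev_lt {x z : ℕ} (hx : x < b) (hz : z < rho p w x) :
    x + lev p w x z * b < (w + 2) * b + p + 1 := by
  have h2 : (w + 2) * b = (w + 1) * b + b := by ring
  have h3 : ∀ i, i ≤ w + 2 → i * b ≤ (w + 2) * b := fun i hi => Nat.mul_le_mul_right b hi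
  have h4 : ∀ i, i ≤ w + 1 → i * b ≤ (w + 1) * b := fun i hi => Nat.mul_le_mul_right b hi
  by_cases h6 : x ≤ p
  · rw [rho, if_pos h6] at hz
    rw [lev, if_pos h6]
    have := h3 (w + 2 - z) (by omega); omega
  · rw [rho, if_neg h6] at hz
    rw [lev, if_neg h6]
    have := h4 (w + 1 - z) (by omega); omega

theorem card_EE {α β zβ : ℕ} (hf : p ≤ f) (hb : f + 2 ≤ b) (hα : α ≤ p ∨ IsC b p f α)
    (hzβ : zβ ≤ w + 2) (hzC : IsC b p f β → zβ ≤ w + 1) :
    ∑ x ∈ range b, (EE b p f w α β zβ x).card = (w + 1) * b + f + 1 + 1 := by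
  have h1 : ∀ x ∈ range b, (EE b p f w α β zβ x).card + (if IsC b p f x then 1 else 0) =
      (w + 2) + (if x = α then 1 else 0) := by
    intro x hx
    rw [mem_range] at hx
    by_cases hxα : x = α
    · subst hxα
      rw [EE_α, card_range, if_pos rfl, rho]
      rcases hα with h | h
      · rw [if_pos h, if_neg (by unfold IsC; omega)]
      · rw [if_neg (by unfold IsC at h; omega), if_pos h]
    rw [if_neg hxα]
    by_cases hP : x ≤ p
    · have h3 : (if x = β then zβ else w + 2) ∈ range (w + 3) := by
        rw [mem_range]; split_ifs <;> omega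
      rw [EE_P hxα hP, Finset.card_erase_of_mem h3, card_range, if_neg (by unfold IsC; omega)]
      rfl
    by_cases hC : IsC b p f x
    · have h3 : (if x = β then zβ else 0) ∈ range (w + 2) := by
        rw [mem_range]
        split_ifs with h4
        · subst h4; have := hzC hC; omega
        · omega
      rw [EE_C hxα hC, Finset.card_erase_of_mem h3, card_range, if_pos hC]
      omega
    · rw [EE_L hxα (by omega) hC, card_range, if_neg hC]
  have h2 := Finset.sum_congr rfl h1
  have hαb : α < b := by
    rcases hα with h | h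
    · omega
    · unfold IsC at h; omega
  rw [Finset.sum_add_distrib, Finset.sum_add_distrib, sum_const, card_range,
    Finset.sum_ite_eq' (range b) α, if_pos (mem_range.mpr hαb),
    ← Finset.sum_filter, ← Finset.card_eq_sum_ones] at h2
  have h3 : (range b).filter (IsC b p f) = Ico (p + 1) (b + p - f) := by
    ext x
    simp only [mem_filter, mem_range, mem_Ico, IsC]
    omega
  rw [h3, Nat.card_Ico] at h2
  simp only [smul_eq_mul] at h2
  have e1 : b * (w + 2) = (w + 1) * b + b := by ring
  omega

variable {k : Type*} [Field k] {n : ℕ} (h2 : (2 : k) ≠ 0) (hf : p ≤ f) (hb : f + 2 ≤ b)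
  (hn : n = (w + 2) * b + f + 1) (δ : ℕ → k)
  (hδ : ∀ g ∈ permIdeal ((w + 1) * b + f + 1 + 1) (hankelMatrix k ((w + 2) * b + p + 1) n),
    aeval (fun i : Fin ((w + 2) * b + p + 1 + n - 1) => pt b p w k i)
      (dd (fun i : Fin ((w + 2) * b + p + 1 + n - 1) => δ i) g) = 0)

include hf hb hn hδ in
theorem hrel {α β zβ : ℕ} (hα : α ≤ p ∨ IsC b p f α) (hzβ : zβ ≤ w + 2)
    (hzC : IsC b p f β → zβ ≤ w + 1) :
    ∑ a ∈ (range b).sigma (EE b p f w α β zβ),
      clD b (clW k n b p cl) (cc b p f w)
        (fun x i x' j => δ (x + lev p w x i * b + (yx b p x' + cl x' j * b))) a.1 a.2 *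
      ∏ i ∈ ((range b).sigma (EE b p f w α β zβ)).erase a,
        (fun x z => rowq (pt b p w k) n (x + lev p w x z * b)) i.1 i.2 = 0 :=
  sys_rel (by omega) (hc hf hb hn) hcl (pt b p w k) δ hδ (EE b p f w α β zβ) (lev p w)
    (fun x _ => (lev_inj x).mono (by exact_mod_cast EE_sub))
    (fun x hx z hz => lev_lt hx (mem_range.mp (EE_sub hz)))
    (card_EE hf hb hα hzβ hzC)

theorem clY_C {x : ℕ} (h : IsC b p f x) (W : ℕ → ℕ → SqAlg k n) :
    clY W (cc b p f w) x = mon (W x) 0 (w + 2) := by
  rw [clY, mon, cc, if_pos h]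
  simp only [zero_add]

theorem clY_P {x : ℕ} (h : ¬ IsC b p f x) (W : ℕ → ℕ → SqAlg k n) :
    clY W (cc b p f w) x = mon (W x) 0 (w + 3) := by
  rw [clY, mon, cc, if_neg h]
  simp only [zero_add]

include hf hb hn

theorem clG_C {α β zβ i : ℕ} (hα : IsC b p f α) :
    clG (EE b p f w α β zβ) (fun x z => rowq (pt b p w k) n (x + lev p w x z * b)) α i =
      cyG (clW k n b p cl α) (w + 1) i := by
  rw [clG, EE_α, rho, if_neg (by unfold IsC at hα; omega), cyG]
  refine Finset.prod_congr rfl fun z hz => ?_
  have := mem_range.mp (Finset.mem_of_mem_erase hz)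
  exact row_C hf hb hn hα (by omega)

theorem clG_P {α β zβ i : ℕ} (hα : α ≤ p) :
    clG (EE b p f w α β zβ) (fun x z => rowq (pt b p w k) n (x + lev p w x z * b)) α i =
      zpG (clW k n b p cl α) w i := by
  rw [clG, EE_α, rho, if_pos hα, zpG]
  refine Finset.prod_congr rfl fun z hz => ?_
  have := mem_range.mp (Finset.mem_of_mem_erase hz)
  exact row_P hf hb hn hα (by omega)

theorem clM_α {α β zβ : ℕ} (hα : α ≤ p ∨ IsC b p f α) :
    clM (EE b p f w α β zβ) (fun x z => rowq (pt b p w k) n (x + lev p w x z * b)) α = 0 := by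
  rcases hα with h | h
  · rw [clM, EE_α, rho, if_pos h, ← prod_zpR (v := clW k n b p cl α) (fun s => clW_sq α s) (w := w)]
    refine Finset.prod_congr rfl fun z hz => ?_
    have := mem_range.mp hz
    exact row_P hf hb hn h (by omega)
  · rw [clM, EE_α, rho, if_neg (by unfold IsC at h; omega),
      ← prod_cyR (v := clW k n b p cl α) (fun s => clW_sq α s) (L := w + 1)]
    refine Finset.prod_congr rfl fun z hz => ?_
    have := mem_range.mp hz
    exact row_C hf hb hn h (by omega)

theorem clM_P {α β zβ x : ℕ} (hxα : x ≠ α) (hx : x ≤ p) :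
    clM (EE b p f w α β zβ) (fun x z => rowq (pt b p w k) n (x + lev p w x z * b)) x =
      zpG (clW k n b p cl x) w (if x = β then zβ else w + 2) := by
  rw [clM, EE_P hxα hx, zpG]
  refine Finset.prod_congr rfl fun z hz => ?_
  have := mem_range.mp (Finset.mem_of_mem_erase hz)
  exact row_P hf hb hn hx (by omega)

theorem clM_C {α β zβ x : ℕ} (hxα : x ≠ α) (hx : IsC b p f x) :
    clM (EE b p f w α β zβ) (fun x z => rowq (pt b p w k) n (x + lev p w x z * b)) x =
      cyG (clW k n b p cl x) (w + 1) (if x = β then zβ else 0) := by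
  rw [clM, EE_C hxα hx, cyG]
  refine Finset.prod_congr rfl fun z hz => ?_
  have := mem_range.mp (Finset.mem_of_mem_erase hz)
  exact row_C hf hb hn hx (by omega)

theorem clM_L {α β zβ x : ℕ} (hxb : x < b) (hxα : x ≠ α) (hxp : p < x) (hC : ¬ IsC b p f x) :
    clM (EE b p f w α β zβ) (fun x z => rowq (pt b p w k) n (x + lev p w x z * b)) x =
      zpG (clW k n b p cl x) w (w + 2) := by
  rw [clM, EE_L hxα hxp hC, ← zpG_eq_last]
  refine Finset.prod_congr rfl fun z hz => ?_
  have := mem_range.mp hz
  exact row_L hf hb hn hxb hxp (by omega)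

theorem bystander {α β zβ x : ℕ} (hxb : x < b) (hxα : x ≠ α) (hxβ : x ≠ β) :
    ∃ h : SqAlg k n, ∃ s : k, s ≠ 0 ∧
      h * clM (EE b p f w α β zβ) (fun x z => rowq (pt b p w k) n (x + lev p w x z * b)) x =
        s • clY (clW k n b p cl) (cc b p f w) x := by
  have hv : ∀ s, clW k n b p cl x s * clW k n b p cl x s = 0 := fun s => clW_sq x s
  refine ⟨clW k n b p cl x 0, 1, one_ne_zero, ?_⟩
  by_cases hP : x ≤ p
  · rw [clM_P hf hb hn hxα hP, if_neg hxβ, mul_zpG_last hv (by omega), if_pos (by omega),
      clY_P (by unfold IsC; omega), one_smul]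
  by_cases hC : IsC b p f x
  · rw [clM_C hf hb hn hxα hC, if_neg hxβ, mul_cyG hv (by omega) (by omega), if_pos le_rfl,
      clY_C hC, one_smul]
  · rw [clM_L hf hb hn hxb hxα (by omega) hC, mul_zpG_last hv (by omega), if_pos (by omega),
      clY_P hC, one_smul]

include hδ

/-- The relations between a small cyclic class and another class. -/
theorem crossC (h2 : (2 : k) ≠ 0) {α β zβ i : ℕ} (hα : IsC b p f α) (hβb : β < b) (hαβ : α ≠ β)
    (hzβ : zβ ≤ w + 2) (hzC : IsC b p f β → zβ ≤ w + 1) (hi : i ≤ w + 1) (l : ℕ → k)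
    (hl : ∀ j < cc b p f w β, clW k n b p cl β j *
      clM (EE b p f w α β zβ) (fun x z => rowq (pt b p w k) n (x + lev p w x z * b)) β =
        l j • clY (clW k n b p cl) (cc b p f w) β) :
    ∑ j ∈ range (cc b p f w β), l j * δ (α + lev p w α i * b + (yx b p β + cl β j * b)) = 0 := by
  have hαb : α < b := by unfold IsC at hα; omega
  obtain ⟨e, he⟩ := exists_mult_cyG (v := clW k n b p cl α) (fun s => clW_sq α s) (L := w + 1)
    (i := i) (by omega)
  have h3 := rel_cross (b := b) (E := EE b p f w α β zβ)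
    (R := fun x z => rowq (pt b p w k) n (x + lev p w x z * b)) (W := clW k n b p cl)
    (c := cc b p f w)
    (d := fun x i x' j => δ (x + lev p w x i * b + (yx b p x' + cl x' j * b)))
    (hrel hf hb hn δ hδ (β := β) (Or.inr hα) hzβ hzC) (fun x j => clW_sq x j)
    (clY_ne (by omega) (hc hf hb hn) hcl) hαb hβb hαβ (clM_α hf hb hn (Or.inr hα)) e
    (fun z => if z = i then 2 else 0)
    (by
      intro z hz
      rw [EE_α, rho, if_neg (by unfold IsC at hα; omega), mem_range] at hz
      rw [clG_C hf hb hn hα, he z (by omega), clY_C hα]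
      split_ifs
      · rw [Algebra.smul_def, map_ofNat]
      · rw [zero_smul])
    l hl (fun x hx h4 h5 => bystander hf hb hn hx h4 h5)
  rw [EE_α, rho, if_neg (by unfold IsC at hα; omega), Finset.sum_eq_single i] at h3
  · simp only [if_true] at h3
    exact (mul_eq_zero.mp h3).resolve_left h2
  · intro z _ hz
    rw [if_neg hz, zero_mul]
  · intro h; rw [mem_range] at h; omega

/-- The relations between a class `α ≤ p` and another class: last multiplier. -/
theorem crossP (h2 : (2 : k) ≠ 0) {α β zβ : ℕ} (hα : α ≤ p) (hβb : β < b) (hαβ : α ≠ β)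
    (hzβ : zβ ≤ w + 2) (hzC : IsC b p f β → zβ ≤ w + 1) (l : ℕ → k)
    (hl : ∀ j < cc b p f w β, clW k n b p cl β j *
      clM (EE b p f w α β zβ) (fun x z => rowq (pt b p w k) n (x + lev p w x z * b)) β =
        l j • clY (clW k n b p cl) (cc b p f w) β) :
    ∑ j ∈ range (cc b p f w β), l j * δ (α + (w + 2) * b + (yx b p β + cl β j * b)) = 0 := by
  have hαb : α < b := by omega
  have hv : ∀ s, clW k n b p cl α s * clW k n b p cl α s = 0 := fun s => clW_sq α s
  have h3 := rel_cross (b := b) (E := EE b p f w α β zβ)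
    (R := fun x z => rowq (pt b p w k) n (x + lev p w x z * b)) (W := clW k n b p cl)
    (c := cc b p f w)
    (d := fun x i x' j => δ (x + lev p w x i * b + (yx b p x' + cl x' j * b)))
    (hrel hf hb hn δ hδ (β := β) (Or.inl hα) hzβ hzC) (fun x j => clW_sq x j)
    (clY_ne (by omega) (hc hf hb hn) hcl) hαb hβb hαβ (clM_α hf hb hn (Or.inl hα))
    (clW k n b p cl α (w + 2))
    (fun z => if z = 0 then 2 else 0)
    (by
      intro z hz
      rw [EE_α, rho, if_pos hα, mem_range] at hz
      rw [clG_P hf hb hn hα, vlast_mul_zpG hv (by omega), clY_P (by unfold IsC; omega)]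
      split_ifs
      · rw [Algebra.smul_def, map_ofNat]
      · rw [zero_smul])
    l hl (fun x hx h4 h5 => bystander hf hb hn hx h4 h5)
  rw [EE_α, rho, if_pos hα, Finset.sum_eq_single 0] at h3
  · simp only [if_true] at h3
    have h4 := (mul_eq_zero.mp h3).resolve_left h2
    rw [lev, if_pos hα, Nat.sub_zero] at h4
    exact h4
  · intro z _ hz
    rw [if_neg hz, zero_mul]
  · intro h; rw [mem_range] at h; omega

/-- The relations between a class `α ≤ p` and another class: first multiplier. -/
theorem crossP' {α β zβ : ℕ} (hα : α ≤ p) (hβb : β < b) (hαβ : α ≠ β)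
    (hzβ : zβ ≤ w + 2) (hzC : IsC b p f β → zβ ≤ w + 1) (l : ℕ → k)
    (hl : ∀ j < cc b p f w β, clW k n b p cl β j *
      clM (EE b p f w α β zβ) (fun x z => rowq (pt b p w k) n (x + lev p w x z * b)) β =
        l j • clY (clW k n b p cl) (cc b p f w) β) :
    ∑ i ∈ range (w + 2), ∑ j ∈ range (cc b p f w β),
      l j * δ (α + i * b + (yx b p β + cl β j * b)) = 0 := by
  have hαb : α < b := by omega
  have hv : ∀ s, clW k n b p cl α s * clW k n b p cl α s = 0 := fun s => clW_sq α s
  have h3 := rel_cross (b := b) (E := EE b p f w α β zβ)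
    (R := fun x z => rowq (pt b p w k) n (x + lev p w x z * b)) (W := clW k n b p cl)
    (c := cc b p f w)
    (d := fun x i x' j => δ (x + lev p w x i * b + (yx b p x' + cl x' j * b)))
    (hrel hf hb hn δ hδ (β := β) (Or.inl hα) hzβ hzC) (fun x j => clW_sq x j)
    (clY_ne (by omega) (hc hf hb hn) hcl) hαb hβb hαβ (clM_α hf hb hn (Or.inl hα))
    (clW k n b p cl α 0)
    (fun z => if z = 0 then 0 else 1)
    (by
      intro z hz
      rw [EE_α, rho, if_pos hα, mem_range] at hz
      rw [clG_P hf hb hn hα, vzero_mul_zpG hv (by omega), clY_P (by unfold IsC; omega)]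
      split_ifs
      · rw [zero_smul]
      · rw [one_smul])
    l hl (fun x hx h4 h5 => bystander hf hb hn hx h4 h5)
  rw [EE_α, rho, if_pos hα, sum_range_succ'] at h3
  simp only [if_true, zero_mul, add_zero, if_neg (Nat.succ_ne_zero _), one_mul] at h3
  rw [← Finset.sum_range_reflect] at h3
  rw [← h3]
  refine Finset.sum_congr rfl fun i hi => ?_
  rw [mem_range] at hi
  refine Finset.sum_congr rfl fun j _ => ?_
  rw [lev, if_pos hα, show w + 2 - (w + 2 - 1 - i + 1) = i by omega]

/-- `x ≤ p` and small cyclic classes. -/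
theorem relPC (h2 : (2 : k) ≠ 0) {α β : ℕ} (hα : α ≤ p) (hβ : IsC b p f β)
    (hN : ∀ s, (2 * w + 4) * b + p + 1 ≤ s → δ s = 0) (q : ℕ) :
    δ (α + yx b p β + q * b) = 0 := by
  have hβb : β < b := by unfold IsC at hβ; omega
  have hαβ : α ≠ β := by unfold IsC at hβ; omega
  have hy : f < yx b p β := by
    unfold IsC at hβ
    rw [yx, if_neg (by omega)]; omega
  have hcc : cc b p f w β = w + 2 := by rw [cc, if_pos hβ]
  have hv : ∀ s, clW k n b p cl β s * clW k n b p cl β s = 0 := fun s => clW_sq β s
  have hl : ∀ z ≤ w + 1, ∀ j < cc b p f w β, clW k n b p cl β j *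
      clM (EE b p f w α β z) (fun x z => rowq (pt b p w k) n (x + lev p w x z * b)) β =
        (if j ≤ z then (1 : k) else -1) • clY (clW k n b p cl) (cc b p f w) β := by
    intro z hz j hj
    rw [hcc] at hj
    rw [clM_C hf hb hn hαβ.symm hβ, if_pos rfl, mul_cyG hv (by omega) (by omega), clY_C hβ]
    split_ifs
    · rw [one_smul]
    · rw [neg_smul, one_smul]
  have h3 := z_lemma h2 (L := w + 1)
    (fun j => δ (α + (w + 2) * b + (yx b p β + cl β j * b))) (by
      intro z hz
      have h4 := crossP hf hb hn δ hδ h2 hα hβb hαβ (zβ := z) (by omega) (fun _ => hz)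
        (fun j => if j ≤ z then 1 else -1) (hl z hz)
      rw [hcc] at h4
      exact h4)
  have h5 := z_lemma h2 (L := w + 1)
    (fun j => ∑ i ∈ range (w + 2), δ (α + i * b + (yx b p β + cl β j * b))) (by
      intro z hz
      have h4 := crossP' hf hb hn δ hδ hα hβb hαβ (zβ := z) (by omega) (fun _ => hz)
        (fun j => if j ≤ z then 1 else -1) (hl z hz)
      rw [hcc, Finset.sum_comm] at h4
      rw [← h4]
      refine Finset.sum_congr rfl fun j _ => ?_
      rw [Finset.mul_sum])
  have h6 : ∀ q, w + 2 ≤ q → δ (α + yx b p β + q * b) = 0 := by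
    intro q hq
    rcases Nat.lt_or_ge q (2 * w + 4) with h7 | h7
    · have h8 := h3 (q - (w + 2)) (by omega)
      rw [← h8, cl]
      obtain ⟨e, rfl⟩ : ∃ e, q = w + 2 + e := ⟨q - (w + 2), by omega⟩
      rw [Nat.add_sub_cancel_left, add_mul]
      congr 1
      omega
    · apply hN
      have := Nat.mul_le_mul_right b h7
      omega
  refine down_lemma (fun q => δ (α + yx b p β + q * b)) (w + 1) (w + 2) 0 h6 ?_ q (Nat.zero_le _)
  intro q _ hq
  have h8 := h5 q (by omega)
  rw [← h8]
  refine Finset.sum_congr rfl fun j _ => ?_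
  rw [cl, add_mul]
  congr 1
  omega

/-- Relations from a small cyclic class, `y ≤ f`. -/
theorem relC (h2 : (2 : k) ≠ 0) {α y i : ℕ} (hα : IsC b p f α) (hy : y ≤ f) (hi : i ≤ w + 1) :
    ∑ j ∈ range (w + 2), δ (α + y + (i + j) * b) = 0 := by
  have hαp : p < α := hα.1
  have hlev : lev p w α (w + 1 - i) = i := by rw [lev, if_neg (by omega)]; omega
  rcases Nat.lt_or_ge p y with h | h
  · -- `L`
    have hC : ¬ IsC b p f (p + b - y) := by unfold IsC; omega
    have hyx : yx b p (p + b - y) = y := by rw [yx, if_neg (by omega)]; omega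
    have hαβ : α ≠ p + b - y := fun e => hC (e ▸ hα)
    have hcc : cc b p f w (p + b - y) = w + 3 := by rw [cc, if_neg hC]
    have hv : ∀ s, clW k n b p cl (p + b - y) s * clW k n b p cl (p + b - y) s = 0 :=
      fun s => clW_sq _ s
    have h4 := crossC hf hb hn δ hδ h2 hα (by omega) hαβ (zβ := 0) (by omega) (by omega)
      (i := w + 1 - i) (by omega) (fun j => if j ≤ w + 1 then 1 else 0) (by
        intro j hj
        rw [hcc] at hj
        rw [clM_L hf hb hn (by omega) hαβ.symm (by omega) hC, mul_zpG_last hv (by omega),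
          clY_P hC]
        split_ifs
        · rw [one_smul]
        · rw [zero_smul])
    rw [hcc, sum_range_succ, if_neg (by omega), zero_mul, add_zero, hlev, hyx] at h4
    rw [← h4]
    refine Finset.sum_congr rfl fun j hj => ?_
    rw [mem_range] at hj
    rw [if_pos (by omega), one_mul, cl, add_mul]
    congr 1
    omega
  · have hC : ¬ IsC b p f (p - y) := by unfold IsC; omega
    have hyx : yx b p (p - y) = y := by rw [yx, if_pos (by omega)]; omega
    have hαβ : α ≠ p - y := by omega
    have hcc : cc b p f w (p - y) = w + 3 := by rw [cc, if_neg hC]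
    have hv : ∀ s, clW k n b p cl (p - y) s * clW k n b p cl (p - y) s = 0 :=
      fun s => clW_sq _ s
    have h4 := crossC hf hb hn δ hδ h2 hα (β := p - y) (by omega) hαβ (zβ := w + 2) (by omega)
      (fun h => absurd h hC)
      (i := w + 1 - i) (by omega) (fun j => if j ≤ w + 1 then 1 else 0) (by
        intro j hj
        rw [hcc] at hj
        rw [clM_P hf hb hn hαβ.symm (by omega), if_pos rfl, mul_zpG_last hv (by omega),
          clY_P hC]
        split_ifs
        · rw [one_smul]
        · rw [zero_smul])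
    rw [hcc, sum_range_succ, if_neg (by omega), zero_mul, add_zero, hlev, hyx] at h4
    rw [← h4]
    refine Finset.sum_congr rfl fun j hj => ?_
    rw [mem_range] at hj
    rw [if_pos (by omega), one_mul, cl, add_mul]
    congr 1
    omega

/-- Relations from a small cyclic class, `y ≤ p`: the other drop. -/
theorem relC' (h2 : (2 : k) ≠ 0) {α y i : ℕ} (hα : IsC b p f α) (hy : y ≤ p) (hi : i ≤ w + 1) :
    δ (α + y + (i + (w + 2)) * b) = 0 := by
  have hαp : p < α := hα.1
  have hlev : lev p w α (w + 1 - i) = i := by rw [lev, if_neg (by omega)]; omega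
  have hC : ¬ IsC b p f (p - y) := by unfold IsC; omega
  have hyx : yx b p (p - y) = y := by rw [yx, if_pos (by omega)]; omega
  have hαβ : α ≠ p - y := by omega
  have hcc : cc b p f w (p - y) = w + 3 := by rw [cc, if_neg hC]
  have hv : ∀ s, clW k n b p cl (p - y) s * clW k n b p cl (p - y) s = 0 :=
    fun s => clW_sq _ s
  have h4 := crossC hf hb hn δ hδ h2 hα (β := p - y) (by omega) hαβ (zβ := 0) (by omega)
    (by omega)
    (i := w + 1 - i) (by omega) (fun j => if j = w + 2 then 2 else 0) (by
      intro j hj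
      rw [hcc] at hj
      rw [clM_P hf hb hn hαβ.symm (by omega), if_pos rfl, mul_zpG_zero hv (by omega),
        clY_P hC]
      split_ifs
      · rw [Algebra.smul_def, map_ofNat]
      · rw [zero_smul])
  rw [hcc, Finset.sum_eq_single (w + 2), if_pos rfl, hlev, hyx, cl] at h4
  · have h5 := (mul_eq_zero.mp h4).resolve_left h2
    rw [← h5, add_mul]
    congr 1
    omega
  · intro j _ hj
    rw [if_neg hj, zero_mul]
  · intro h; rw [mem_range] at h; omega

/-- Relations from `0` and the last classes. -/
theorem relP (h2 : (2 : k) ≠ 0) {y : ℕ} (hy : p < y) (hyf : y ≤ f) :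
    ∑ j ∈ range (w + 2), δ (y + (w + 2 + j) * b) = 0 := by
  have hC : ¬ IsC b p f (p + b - y) := by unfold IsC; omega
  have hyx : yx b p (p + b - y) = y := by rw [yx, if_neg (by omega)]; omega
  have hαβ : 0 ≠ p + b - y := by omega
  have hcc : cc b p f w (p + b - y) = w + 3 := by rw [cc, if_neg hC]
  have hv : ∀ s, clW k n b p cl (p + b - y) s * clW k n b p cl (p + b - y) s = 0 :=
    fun s => clW_sq _ s
  have h4 := crossP hf hb hn δ hδ h2 (α := 0) (by omega) (by omega) hαβ (zβ := 0) (by omega)
    (by omega) (fun j => if j ≤ w + 1 then 1 else 0) (by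
      intro j hj
      rw [hcc] at hj
      rw [clM_L hf hb hn (by omega) hαβ.symm (by omega) hC, mul_zpG_last hv (by omega),
        clY_P hC]
      split_ifs
      · rw [one_smul]
      · rw [zero_smul])
  rw [hcc, sum_range_succ, if_neg (by omega), zero_mul, add_zero, hyx] at h4
  rw [← h4]
  refine Finset.sum_congr rfl fun j hj => ?_
  rw [mem_range] at hj
  rw [if_pos (by omega), one_mul, cl, add_mul]
  congr 1
  omega

theorem relOwnC {α : ℕ} (hα : IsC b p f α) :
    ∑ i ∈ range (w + 2), ∑ j ∈ range (w + 2), (if j ≤ i then (1 : k) else -1) *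
      δ (α + lev p w α i * b + (yx b p α + cl α j * b)) = 0 := by
  have hαb : α < b := by unfold IsC at hα; omega
  have hcc : cc b p f w α = w + 2 := by rw [cc, if_pos hα]
  have hv : ∀ s, clW k n b p cl α s * clW k n b p cl α s = 0 := fun s => clW_sq α s
  have h3 := rel_own (b := b) (E := EE b p f w α α 0)
    (R := fun x z => rowq (pt b p w k) n (x + lev p w x z * b)) (W := clW k n b p cl)
    (c := cc b p f w)
    (d := fun x i x' j => δ (x + lev p w x i * b + (yx b p x' + cl x' j * b)))
    (hrel hf hb hn δ hδ (β := α) (zβ := 0) (Or.inr hα) (by omega) (by omega))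
    (fun x j => clW_sq x j)
    (clY_ne (by omega) (hc hf hb hn) hcl) hαb (clM_α hf hb hn (Or.inr hα))
    (fun i j => if j ≤ i then 1 else -1)
    (by
      intro i hi j hj
      rw [EE_α, rho, if_neg (by unfold IsC at hα; omega), mem_range] at hi
      rw [hcc] at hj
      rw [clG_C hf hb hn hα, mul_cyG hv (by omega) (by omega), clY_C hα]
      split_ifs
      · rw [one_smul]
      · rw [neg_smul, one_smul])
    (fun x hx h4 => bystander hf hb hn hx h4 h4)
  rw [EE_α, rho, if_neg (by unfold IsC at hα; omega), hcc] at h3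
  exact h3

theorem relOwnP {α : ℕ} (hα : α ≤ p) :
    ∑ i ∈ range (w + 3), ∑ j ∈ range (w + 3),
      (if i = 0 then (if j = w + 2 then (2 : k) else 0) else
        if j = w + 2 then 0 else if j ≤ i then 1 else -1) *
      δ (α + lev p w α i * b + (yx b p α + cl α j * b)) = 0 := by
  have hαb : α < b := by omega
  have hC : ¬ IsC b p f α := by unfold IsC; omega
  have hcc : cc b p f w α = w + 3 := by rw [cc, if_neg hC]
  have hv : ∀ s, clW k n b p cl α s * clW k n b p cl α s = 0 := fun s => clW_sq α s
  have h3 := rel_own (b := b) (E := EE b p f w α α 0)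
    (R := fun x z => rowq (pt b p w k) n (x + lev p w x z * b)) (W := clW k n b p cl)
    (c := cc b p f w)
    (d := fun x i x' j => δ (x + lev p w x i * b + (yx b p x' + cl x' j * b)))
    (hrel hf hb hn δ hδ (β := α) (zβ := 0) (Or.inl hα) (by omega) (by omega))
    (fun x j => clW_sq x j)
    (clY_ne (by omega) (hc hf hb hn) hcl) hαb (clM_α hf hb hn (Or.inl hα))
    (fun i j => if i = 0 then (if j = w + 2 then (2 : k) else 0) else
        if j = w + 2 then 0 else if j ≤ i then 1 else -1)
    (by
      intro i hi j hj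
      rw [EE_α, rho, if_pos hα, mem_range] at hi
      rw [hcc] at hj
      rw [clG_P hf hb hn hα, clY_P hC]
      by_cases hi0 : i = 0
      · subst hi0
        rw [mul_zpG_zero hv (by omega), if_pos rfl]
        split_ifs
        · rw [Algebra.smul_def, map_ofNat]
        · rw [zero_smul]
      · rw [mul_zpG hv (by omega) (by omega) (by omega), if_neg hi0]
        split_ifs
        · rw [zero_smul]
        · rw [one_smul]
        · rw [neg_smul, one_smul])
    (fun x hx h4 => bystander hf hb hn hx h4 h4)
  rw [EE_α, rho, if_pos hα, hcc] at h3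
  exact h3

end rel

end CaseB

end Pool.Agent.HankelPerm
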