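import Pool.Agent.HankelPerm.Chain

/-!
Relations obtained from the vanishing of the total sum of a chain by multiplying with suitable
linear forms in all classes but one.
-/

namespace Pool.Agent.HankelPerm

open Finset

/-- Multipliers for a chain: `L` keeps `f` and kills `Φ`, `H` keeps `Φ` and kills `f`. -/
structure Mult {k A : Type*} [Field k] [CommRing A] [Algebra k A] (K : Chain A) where
  ω : ℕ → A
  L : ℕ → A
  H : ℕ → A
  l : ℕ → ℕ → k
  η : ℕ → ℕ → k
  hLf : ∀ i ≤ K.h, L i * K.f i = ω i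
  hLΦ : ∀ i ≤ K.h, L i * K.Φ i = 0
  hHf : ∀ i ≤ K.h, 1 ≤ i → H i * K.f i = 0
  hHΦ : ∀ i ≤ K.h, 1 ≤ i → H i * K.Φ i = ω i
  hLq : ∀ i ≤ K.h, ∀ x < K.ρ i, L i * K.q i x = l i x • ω i
  hHq : ∀ i ≤ K.h, 1 ≤ i → ∀ x < K.ρ i, H i * K.q i x = η i x • ω i
  hLC : ∀ i < K.b, K.h < i → L i * K.C i = ω i

namespace Mult

variable {k A : Type*} [Field k] [CommRing A] [Algebra k A] {K : Chain A} (S : Mult (k := k) K)

/-- Product of the tops of all classes but `β`. -/
def Ω (β : ℕ) : A := ∏ i ∈ (range K.b).erase β, S.ω i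

theorem prod_smul_single {s : Finset ℕ} {g : ℕ} (hg : g ∈ s) (χ : k) (u w : ℕ → A)
    (h1 : u g = χ • w g) (h2 : ∀ i ∈ s, i ≠ g → u i = w i) : ∏ i ∈ s, u i = χ • ∏ i ∈ s, w i := by
  rw [← Finset.mul_prod_erase s u hg, ← Finset.mul_prod_erase s w hg, h1, smul_mul_assoc]
  congr 2
  refine Finset.prod_congr rfl fun i hi => ?_
  rw [Finset.mem_erase] at hi
  exact h2 i hi.2 hi.1

theorem mid {D : ℕ → ℕ → A} (hD : K.Tot D = 0) {β : ℕ} (hβ : β < K.b) {g : ℕ} (hg : g ≤ K.h)
    (hgβ : g ≠ β) (μ : A) (χ : ℕ → k) (hμf : μ * K.f g = 0) (hμΦ : 1 ≤ g → μ * K.Φ g = 0)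
    (hμq : ∀ x < K.ρ g, μ * K.q g x = χ x • S.ω g) :
    ∑ x ∈ range (K.ρ g), χ x • (D g x * (S.Ω β * K.Z g x β)) = 0 := by
  classical
  have hb := K.hb
  let M : ℕ → A := fun i => if i < g then S.L i else if i = g then μ else
    if i ≤ K.h then S.H i else S.L i
  have h1 := K.mul_tot D hβ M
  rw [hD, mul_zero] at h1
  rw [Finset.sum_eq_single g] at h1
  · rw [h1]
    refine Finset.sum_congr rfl fun x hx => ?_
    rw [mem_range] at hx
    have h2 : ∏ i ∈ (range K.b).erase β, M i * K.Z g x i = χ x • S.Ω β := by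
      refine prod_smul_single (g := g) (by simp [hgβ]; omega) (χ x) _ _ ?_ ?_
      · simp only [M, Chain.Z, lt_irrefl, if_false, if_true]
        exact hμq x hx
      · intro i hi hig
        rw [Finset.mem_erase, mem_range] at hi
        rcases lt_trichotomy i g with h | h | h
        · simp only [M, Chain.Z, if_pos h]
          exact S.hLf i (by omega)
        · exact absurd h hig
        · simp only [M, Chain.Z, if_neg (show ¬ i < g by omega), if_neg hig]
          by_cases hih : i ≤ K.h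
          · rw [if_pos hih, if_pos hih]
            exact S.hHΦ i hih (by omega)
          · rw [if_neg hih, if_neg hih]
            exact S.hLC i hi.2 (by omega)
    rw [h2, smul_mul_assoc, mul_smul_comm]
  · intro g' hg' hne
    rw [mem_range] at hg'
    refine Finset.sum_eq_zero fun x _ => ?_
    rw [Finset.prod_eq_zero (i := g) (by simp [hgβ]; omega), zero_mul, mul_zero]
    simp only [M, lt_irrefl, if_false, if_true]
    rcases lt_or_gt_of_ne hne with h | h
    · simp only [Chain.Z, if_neg (show ¬ g < g' by omega), if_neg (show ¬ g = g' by omega),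
        if_pos hg]
      exact hμΦ (by omega)
    · simp only [Chain.Z, if_pos h]
      exact hμf
  · intro hno
    exact absurd (mem_range.mpr (by omega)) hno

/-- The multipliers of a cut at `c`. -/
def Mc (c i : ℕ) : A := if i < c then S.L i else if i ≤ K.h then S.H i else S.L i

theorem prod_Mc_zero {β c g x i : ℕ} (hc : 1 ≤ c) (hi : i ≤ K.h)
    (hiβ : i ≠ β) (h : (g < i ∧ i < c) ∨ (c ≤ i ∧ i < g)) :
    ∏ i ∈ (range K.b).erase β, S.Mc c i * K.Z g x i = 0 := by
  have hb := K.hb
  refine Finset.prod_eq_zero (i := i) (by simp [hiβ]; omega) ?_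
  rcases h with ⟨h1, h2⟩ | ⟨h1, h2⟩
  · simp only [Mc, if_pos h2, Chain.Z, if_neg (show ¬ i < g by omega),
      if_neg (show ¬ i = g by omega), if_pos hi]
    exact S.hLΦ i hi
  · simp only [Mc, if_neg (show ¬ i < c by omega), Chain.Z, if_pos h2, if_pos hi]
    exact S.hHf i hi (by omega)

theorem prod_Mc {β c g x : ℕ} (hc : 1 ≤ c) (hg : g ≤ K.h) (hx : x < K.ρ g)
    (h : ∀ i, i ≠ β → ¬ ((g < i ∧ i < c) ∨ (c ≤ i ∧ i < g))) :
    ∏ i ∈ (range K.b).erase β, S.Mc c i * K.Z g x i =
      (if g = β then (1 : k) else if g < c then S.l g x else S.η g x) • S.Ω β := by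
  have hb := K.hb
  have hother : ∀ i ∈ (range K.b).erase β, i ≠ g → S.Mc c i * K.Z g x i = S.ω i := by
    intro i hi hig
    rw [Finset.mem_erase, mem_range] at hi
    have h1 := h i hi.1
    rw [not_or] at h1
    rcases lt_trichotomy i g with h2 | h2 | h2
    · have h3 : i < c := by omega
      simp only [Mc, if_pos h3, Chain.Z, if_pos h2]
      exact S.hLf i (by omega)
    · exact absurd h2 hig
    · have h3 : c ≤ i := by omega
      simp only [Mc, if_neg (show ¬ i < c by omega), Chain.Z, if_neg (show ¬ i < g by omega),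
        if_neg hig]
      by_cases hih : i ≤ K.h
      · rw [if_pos hih, if_pos hih]
        exact S.hHΦ i hih (by omega)
      · rw [if_neg hih, if_neg hih]
        exact S.hLC i hi.2 (by omega)
  by_cases hgβ : g = β
  · rw [if_pos hgβ, one_smul]
    refine Finset.prod_congr rfl fun i hi => hother i hi ?_
    rw [hgβ]; exact Finset.ne_of_mem_erase hi
  · rw [if_neg hgβ]
    refine prod_smul_single (g := g) (by simp [hgβ]; omega) _ _ _ ?_ hother
    by_cases hgc : g < c
    · simp only [Mc, Chain.Z, if_pos hgc, lt_irrefl, if_false, if_true]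
      exact S.hLq g hg x hx
    · simp only [Mc, Chain.Z, if_neg hgc, lt_irrefl, if_false, if_true, if_pos hg]
      exact S.hHq g hg (by omega) x hx

/-- The summand of the class `g` in the relation for the class `β`. -/
def Sum (S : Mult (k := k) K) (D : ℕ → ℕ → A) (β g : ℕ) (χ : ℕ → k) : A :=
  ∑ x ∈ range (K.ρ g), χ x • (D g x * (S.Ω β * K.Z g x β))

theorem cut_aux {D : ℕ → ℕ → A} (hD : K.Tot D = 0) {β c : ℕ} (hc : 1 ≤ c) (hβ : β < K.b) :
    ∑ g ∈ range (K.h + 1), ∑ x ∈ range (K.ρ g), D g x *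
        ((∏ i ∈ (range K.b).erase β, S.Mc c i * K.Z g x i) * K.Z g x β) = 0 := by
  rw [← K.mul_tot D hβ, hD, mul_zero]

theorem cut_zero {D : ℕ → ℕ → A} {β c g i : ℕ} (hc : 1 ≤ c) (hi : i ≤ K.h)
    (hiβ : i ≠ β) (h : (g < i ∧ i < c) ∨ (c ≤ i ∧ i < g)) :
    ∑ x ∈ range (K.ρ g), D g x *
        ((∏ i ∈ (range K.b).erase β, S.Mc c i * K.Z g x i) * K.Z g x β) = 0 := by
  refine Finset.sum_eq_zero fun x _ => ?_
  rw [S.prod_Mc_zero hc hi hiβ h, zero_mul, mul_zero]

theorem cut_term {D : ℕ → ℕ → A} {β c g : ℕ} (hc : 1 ≤ c) (hg : g ≤ K.h)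
    (h : ∀ i, i ≠ β → ¬ ((g < i ∧ i < c) ∨ (c ≤ i ∧ i < g))) (χ : ℕ → k)
    (hχ : ∀ x, χ x = if g = β then (1 : k) else if g < c then S.l g x else S.η g x) :
    ∑ x ∈ range (K.ρ g), D g x *
        ((∏ i ∈ (range K.b).erase β, S.Mc c i * K.Z g x i) * K.Z g x β) = S.Sum D β g χ := by
  refine Finset.sum_congr rfl fun x hx => ?_
  rw [mem_range] at hx
  rw [S.prod_Mc hc hg hx h, smul_mul_assoc, mul_smul_comm, hχ]

theorem cutA {D : ℕ → ℕ → A} (hD : K.Tot D = 0) {β c : ℕ} (hβ : β < K.b) (hc : c + 1 ≤ K.h)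
    (h1 : β ≠ c) (h2 : β ≠ c + 1) :
    S.Sum D β c (S.l c) + S.Sum D β (c + 1) (S.η (c + 1)) = 0 := by
  rw [← S.cut_aux hD (c := c + 1) (by omega) hβ, Finset.sum_eq_add c (c + 1) (by omega)]
  · rw [← S.cut_term (c := c + 1) (by omega) (by omega) (by omega) (S.l c) (by
        intro x; rw [if_neg (by omega), if_pos (by omega)]),
      ← S.cut_term (c := c + 1) (by omega) (by omega) (by omega) (S.η (c + 1)) (by
        intro x; rw [if_neg (by omega), if_neg (by omega)])]
  · intro g hg hne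
    rw [mem_range] at hg
    rcases Nat.lt_or_ge g c with h | h
    · exact S.cut_zero (i := c) (by omega) (by omega) h1.symm (Or.inl ⟨h, by omega⟩)
    · exact S.cut_zero (i := c + 1) (by omega) (by omega) h2.symm (Or.inr ⟨le_rfl, by omega⟩)
  · intro hno; exact absurd (mem_range.mpr (by omega)) hno
  · intro hno; exact absurd (mem_range.mpr (by omega)) hno

theorem cutL {D : ℕ → ℕ → A} (hD : K.Tot D = 0) {β : ℕ} (hβ : β < K.b) (h1 : β ≠ K.h) :
    S.Sum D β K.h (S.l K.h) = 0 := by
  rw [← S.cut_aux hD (c := K.h + 1) (by omega) hβ, Finset.sum_eq_single K.h]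
  · rw [← S.cut_term (c := K.h + 1) (by omega) (by omega) (by omega) (S.l K.h) (by
        intro x; rw [if_neg (by omega), if_pos (by omega)])]
  · intro g hg hne
    rw [mem_range] at hg
    exact S.cut_zero (i := K.h) (by omega) (by omega) h1.symm (Or.inl ⟨by omega, by omega⟩)
  · intro hno; exact absurd (mem_range.mpr (by omega)) hno

theorem cutB {D : ℕ → ℕ → A} (hD : K.Tot D = 0) {β : ℕ} (h1 : β + 1 < K.h) :
    S.Sum D (β + 1) β (S.l β) + S.Sum D (β + 1) (β + 1) (fun _ => 1) +
      S.Sum D (β + 1) (β + 2) (S.η (β + 2)) = 0 := by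
  have hb := K.hb
  rw [← S.cut_aux hD (c := β + 1) (β := β + 1) (by omega) (by omega),
    ← Finset.sum_subset (s₁ := {β, β + 1, β + 2}) (by
      intro i hi
      simp only [mem_insert, mem_singleton] at hi
      rw [mem_range]; omega)]
  · rw [Finset.sum_insert (by simp), Finset.sum_insert (by simp), Finset.sum_singleton,
      ← S.cut_term (c := β + 1) (by omega) (by omega) (by omega) (S.l β) (by
        intro x; rw [if_neg (by omega), if_pos (by omega)]),
      ← S.cut_term (c := β + 1) (by omega) (by omega) (by omega) (fun _ => 1) (by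
        intro x; rw [if_pos rfl]),
      ← S.cut_term (c := β + 1) (by omega) (by omega) (by omega) (S.η (β + 2)) (by
        intro x; rw [if_neg (by omega), if_neg (by omega)])]
    ring
  · intro g hg hne
    rw [mem_range] at hg
    simp only [mem_insert, mem_singleton, not_or] at hne
    rcases Nat.lt_or_ge g β with h | h
    · exact S.cut_zero (i := β) (by omega) (by omega) (by omega) (Or.inl ⟨h, by omega⟩)
    · exact S.cut_zero (i := β + 2) (by omega) (by omega) (by omega)
        (Or.inr ⟨by omega, by omega⟩)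

theorem cutB0 {D : ℕ → ℕ → A} (hD : K.Tot D = 0) (h1 : 1 ≤ K.h) :
    S.Sum D 0 0 (fun _ => 1) + S.Sum D 0 1 (S.η 1) = 0 := by
  have hb := K.hb
  rw [← S.cut_aux hD (c := 1) (β := 0) (by omega) (by omega), Finset.sum_eq_add 0 1 (by omega)]
  · rw [← S.cut_term (c := 1) (by omega) (by omega) (by omega) (fun _ => 1) (by
        intro x; rw [if_pos rfl]),
      ← S.cut_term (c := 1) (by omega) (by omega) (by omega) (S.η 1) (by
        intro x; rw [if_neg (by omega), if_neg (by omega)])]
  · intro g hg hne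
    rw [mem_range] at hg
    exact S.cut_zero (i := 1) (by omega) (by omega) (by omega) (Or.inr ⟨le_rfl, by omega⟩)
  · intro hno; exact absurd (mem_range.mpr (by omega)) hno
  · intro hno; exact absurd (mem_range.mpr (by omega)) hno

theorem cutBh {D : ℕ → ℕ → A} (hD : K.Tot D = 0) {β : ℕ} (h1 : β + 1 = K.h) :
    S.Sum D (β + 1) β (S.l β) + S.Sum D (β + 1) (β + 1) (fun _ => 1) = 0 := by
  have hb := K.hb
  rw [← S.cut_aux hD (c := β + 1) (β := β + 1) (by omega) (by omega),
    Finset.sum_eq_add β (β + 1) (by omega)]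
  · rw [← S.cut_term (c := β + 1) (by omega) (by omega) (by omega) (S.l β) (by
        intro x; rw [if_neg (by omega), if_pos (by omega)]),
      ← S.cut_term (c := β + 1) (by omega) (by omega) (by omega) (fun _ => 1) (by
        intro x; rw [if_pos rfl])]
  · intro g hg hne
    rw [mem_range] at hg
    exact S.cut_zero (i := β) (by omega) (by omega) (by omega) (Or.inl ⟨by omega, by omega⟩)
  · intro hno; exact absurd (mem_range.mpr (by omega)) hno
  · intro hno; exact absurd (mem_range.mpr (by omega)) hno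

end Mult

end Pool.Agent.HankelPerm
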