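import Mathlib

/-!
Relations between tangent vectors, from a relation in an algebra whose rows are grouped in classes.
-/

namespace Pool.Agent.HankelPerm

open Finset

section sig

variable {A : Type*} [CommRing A]

theorem prod_sigma_erase_cls (s : Finset ℕ) (E : ℕ → Finset ℕ) (R : ℕ → ℕ → A) {x i : ℕ}
    (hx : x ∈ s) (hi : i ∈ E x) :
    ∏ a ∈ (s.sigma E).erase ⟨x, i⟩, R a.1 a.2 =
      (∏ i' ∈ (E x).erase i, R x i') * ∏ x' ∈ s.erase x, ∏ i' ∈ E x', R x' i' := by
  classical
  have h1 : (s.sigma E).erase ⟨x, i⟩ =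
      s.sigma (fun x' => if x' = x then (E x).erase i else E x') := by
    ext ⟨x', y⟩
    simp only [Finset.mem_erase, Finset.mem_sigma, ne_eq, Sigma.mk.injEq, heq_eq_eq, not_and]
    by_cases h : x' = x
    · subst h
      simp only [if_true, Finset.mem_erase, forall_const]
      tauto
    · simp only [if_neg h]
      tauto
  rw [h1, Finset.prod_sigma, ← Finset.mul_prod_erase _ _ hx]
  congr 1
  · simp
  · refine Finset.prod_congr rfl fun x' hx' => ?_
    simp [Finset.ne_of_mem_erase hx']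

end sig

section rel

variable {k A : Type*} [Field k] [CommRing A] [Algebra k A]
  (b : ℕ) (E : ℕ → Finset ℕ) (R W : ℕ → ℕ → A) (c : ℕ → ℕ) (d : ℕ → ℕ → ℕ → ℕ → k)

/-- The product of the rows of a class. -/
def clM (x : ℕ) : A := ∏ i ∈ E x, R x i

/-- The product of the rows of a class but one. -/
def clG (x i : ℕ) : A := ∏ i' ∈ (E x).erase i, R x i'

/-- The product of the columns of a class. -/
def clY (x : ℕ) : A := ∏ j ∈ range (c x), W x j

/-- The rows of the tangent vector. -/
def clD (x i : ℕ) : A := ∑ x' ∈ range b, ∑ j ∈ range (c x'), d x i x' j • W x' j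

variable {b E R W c d}

variable (hrel : ∑ a ∈ (range b).sigma E, clD b W c d a.1 a.2 *
    ∏ i ∈ ((range b).sigma E).erase a, R i.1 i.2 = 0)

include hrel

theorem rel_alpha {α : ℕ} (hα : α < b) (h0 : clM E R α = 0) :
    (∑ i ∈ E α, clD b W c d α i * clG E R α i) * ∏ x ∈ (range b).erase α, clM E R x = 0 := by
  rw [← hrel, Finset.sum_sigma]
  symm
  rw [Finset.sum_eq_single α]
  · rw [Finset.sum_mul]
    refine Finset.sum_congr rfl fun i hi => ?_
    rw [prod_sigma_erase_cls (range b) E R (mem_range.mpr hα) hi, mul_assoc]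
    rfl
  · intro x hx hne
    refine Finset.sum_eq_zero fun i hi => ?_
    rw [prod_sigma_erase_cls (range b) E R hx hi]
    have : ∏ x' ∈ (range b).erase x, ∏ i' ∈ E x', R x' i' = 0 :=
      Finset.prod_eq_zero (Finset.mem_erase.mpr ⟨hne.symm, mem_range.mpr hα⟩) h0
    rw [this, mul_zero, mul_zero]
  · intro h; exact absurd (mem_range.mpr hα) h

variable (hW : ∀ x j, W x j * W x j = 0)
  (hne : ∀ s : k, s • ∏ x ∈ range b, clY W c x = 0 → s = 0)

omit hrel in
include hW in
theorem mul_clY {x j : ℕ} (hj : j < c x) : W x j * clY W c x = 0 := by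
  rw [clY, ← Finset.mul_prod_erase _ _ (mem_range.mpr hj), ← mul_assoc, hW, zero_mul]

omit hrel in
include hW in
theorem mul_prod_clY {x j : ℕ} (hj : j < c x) {U : Finset ℕ} (hx : x ∈ U) :
    W x j * ∏ x' ∈ U, clY W c x' = 0 := by
  rw [← Finset.mul_prod_erase _ _ hx, ← mul_assoc, mul_clY hW hj, zero_mul]

include hW hne in
/-- Relations from two different classes. -/
theorem rel_cross {α β : ℕ} (hα : α < b) (hβ : β < b) (hαβ : α ≠ β) (h0 : clM E R α = 0)
    (e : A) (κ : ℕ → k) (he : ∀ i ∈ E α, e * clG E R α i = κ i • clY W c α)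
    (l : ℕ → k) (hl : ∀ j < c β, W β j * clM E R β = l j • clY W c β)
    (hby : ∀ x < b, x ≠ α → x ≠ β → ∃ h : A, ∃ s : k, s ≠ 0 ∧ h * clM E R x = s • clY W c x) :
    ∑ i ∈ E α, κ i * ∑ j ∈ range (c β), l j * d α i β j = 0 := by
  classical
  have h1 := rel_alpha hrel hα h0
  have hex : ∀ x, ∃ h : A, ∃ s : k, x < b → x ≠ α → x ≠ β → s ≠ 0 ∧
      h * clM E R x = s • clY W c x := by
    intro x
    by_cases hx : x < b ∧ x ≠ α ∧ x ≠ β
    · obtain ⟨h, s, h2⟩ := hby x hx.1 hx.2.1 hx.2.2
      exact ⟨h, s, fun _ _ _ => h2⟩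
    · exact ⟨0, 0, fun a1 a2 a3 => absurd ⟨a1, a2, a3⟩ hx⟩
  choose h s hs using hex
  set U := ((range b).erase α).erase β with hU
  have hUmem : ∀ x ∈ U, x < b ∧ x ≠ α ∧ x ≠ β := by
    intro x hx
    rw [hU, mem_erase, mem_erase, mem_range] at hx
    exact ⟨hx.2.2, hx.2.1, hx.1⟩
  have hβ' : β ∈ (range b).erase α := Finset.mem_erase.mpr ⟨hαβ.symm, mem_range.mpr hβ⟩
  have e1 : ∏ x ∈ (range b).erase α, clM E R x = clM E R β * ∏ x ∈ U, clM E R x :=
    (Finset.mul_prod_erase _ _ hβ').symm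
  have e2 : ∏ x ∈ range b, clY W c x = clY W c α * (clY W c β * ∏ x ∈ U, clY W c x) := by
    rw [← Finset.mul_prod_erase _ _ (mem_range.mpr hα), ← Finset.mul_prod_erase _ _ hβ']
  set Z := ∏ x ∈ U, clY W c x with hZ
  have e3 : (∏ x ∈ U, h x) * ∏ x ∈ U, clM E R x = (∏ x ∈ U, s x) • Z := by
    rw [← Finset.prod_mul_distrib, hZ, ← Finset.prod_smul]
    refine Finset.prod_congr rfl fun x hx => ?_
    obtain ⟨a1, a2, a3⟩ := hUmem x hx
    exact (hs x a1 a2 a3).2
  have hs0 : (∏ x ∈ U, s x) ≠ 0 := by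
    rw [Finset.prod_ne_zero_iff]
    intro x hx
    obtain ⟨a1, a2, a3⟩ := hUmem x hx
    exact (hs x a1 a2 a3).1
  -- the rows of the tangent vector
  have e4 : ∀ i, clD b W c d α i * (clY W c α * clM E R β * Z) =
      (∑ j ∈ range (c β), l j * d α i β j) • ∏ x ∈ range b, clY W c x := by
    intro i
    rw [clD, Finset.sum_mul, Finset.sum_eq_single β]
    · rw [Finset.sum_mul, Finset.sum_smul]
      refine Finset.sum_congr rfl fun j hj => ?_
      rw [mem_range] at hj
      have h5 := hl j hj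
      rw [e2, Algebra.smul_def, Algebra.smul_def, map_mul]
      rw [Algebra.smul_def] at h5
      linear_combination (algebraMap k A (d α i β j) * clY W c α * Z) * h5
    · intro x hx hxβ
      rw [mem_range] at hx
      rw [Finset.sum_mul]
      refine Finset.sum_eq_zero fun j hj => ?_
      rw [mem_range] at hj
      by_cases hxα : x = α
      · subst hxα
        have h6 := mul_clY (c := c) hW hj
        rw [smul_mul_assoc]
        have : W x j * (clY W c x * clM E R β * Z) = 0 := by
          linear_combination (clM E R β * Z) * h6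
        rw [this, smul_zero]
      · have h6 := mul_prod_clY (c := c) hW hj (U := U) (by
          rw [hU, mem_erase, mem_erase, mem_range]; exact ⟨hxβ, hxα, hx⟩)
        rw [smul_mul_assoc]
        have : W x j * (clY W c α * clM E R β * Z) = 0 := by
          linear_combination (clY W c α * clM E R β) * h6
        rw [this, smul_zero]
    · intro h; exact absurd (mem_range.mpr hβ) h
  have h7 : (∏ x ∈ U, s x) • (∑ i ∈ E α, κ i * ∑ j ∈ range (c β), l j * d α i β j) •
      ∏ x ∈ range b, clY W c x = 0 := by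
    have h8 : (∑ i ∈ E α, clD b W c d α i * clG E R α i) * (clM E R β * ∏ x ∈ U, clM E R x) *
        (e * ∏ x ∈ U, h x) = 0 := by
      rw [← e1, h1, zero_mul]
    rw [← h8, Finset.sum_mul, Finset.sum_mul, Finset.sum_smul, Finset.smul_sum]
    refine Finset.sum_congr rfl fun i hi => ?_
    have h9 := he i hi
    have h10 := e4 i
    rw [mul_smul, ← h10]
    simp only [Algebra.smul_def] at h9 e3 ⊢
    linear_combination (-(clD b W c d α i * clM E R β) *
      ((∏ x ∈ U, h x) * ∏ x ∈ U, clM E R x)) * h9 -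
      (clD b W c d α i * clM E R β * algebraMap k A (κ i) * clY W c α) * e3
  rw [smul_smul] at h7
  have h8 := hne _ h7
  exact (mul_eq_zero.mp h8).resolve_left hs0

include hW hne in
/-- Relations from one class. -/
theorem rel_own {α : ℕ} (hα : α < b) (h0 : clM E R α = 0)
    (μ : ℕ → ℕ → k) (hμ : ∀ i ∈ E α, ∀ j < c α, W α j * clG E R α i = μ i j • clY W c α)
    (hby : ∀ x < b, x ≠ α → ∃ h : A, ∃ s : k, s ≠ 0 ∧ h * clM E R x = s • clY W c x) :
    ∑ i ∈ E α, ∑ j ∈ range (c α), μ i j * d α i α j = 0 := by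
  classical
  have h1 := rel_alpha hrel hα h0
  have hex : ∀ x, ∃ h : A, ∃ s : k, x < b → x ≠ α → s ≠ 0 ∧
      h * clM E R x = s • clY W c x := by
    intro x
    by_cases hx : x < b ∧ x ≠ α
    · obtain ⟨h, s, h2⟩ := hby x hx.1 hx.2
      exact ⟨h, s, fun _ _ => h2⟩
    · exact ⟨0, 0, fun a1 a2 => absurd ⟨a1, a2⟩ hx⟩
  choose h s hs using hex
  set U := (range b).erase α with hU
  have hUmem : ∀ x ∈ U, x < b ∧ x ≠ α := by
    intro x hx
    rw [hU, mem_erase, mem_range] at hx
    exact ⟨hx.2, hx.1⟩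
  have e2 : ∏ x ∈ range b, clY W c x = clY W c α * ∏ x ∈ U, clY W c x :=
    (Finset.mul_prod_erase _ _ (mem_range.mpr hα)).symm
  set Z := ∏ x ∈ U, clY W c x with hZ
  have e3 : (∏ x ∈ U, h x) * ∏ x ∈ U, clM E R x = (∏ x ∈ U, s x) • Z := by
    rw [← Finset.prod_mul_distrib, hZ, ← Finset.prod_smul]
    refine Finset.prod_congr rfl fun x hx => ?_
    obtain ⟨a1, a2⟩ := hUmem x hx
    exact (hs x a1 a2).2
  have hs0 : (∏ x ∈ U, s x) ≠ 0 := by
    rw [Finset.prod_ne_zero_iff]
    intro x hx
    obtain ⟨a1, a2⟩ := hUmem x hx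
    exact (hs x a1 a2).1
  have e4 : ∀ i ∈ E α, clD b W c d α i * (clG E R α i * Z) =
      (∑ j ∈ range (c α), μ i j * d α i α j) • ∏ x ∈ range b, clY W c x := by
    intro i hi
    rw [clD, Finset.sum_mul, Finset.sum_eq_single α]
    · rw [Finset.sum_mul, Finset.sum_smul]
      refine Finset.sum_congr rfl fun j hj => ?_
      rw [mem_range] at hj
      have h5 := hμ i hi j hj
      rw [e2, Algebra.smul_def, Algebra.smul_def, map_mul]
      rw [Algebra.smul_def] at h5
      linear_combination (algebraMap k A (d α i α j) * Z) * h5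
    · intro x hx hxα
      rw [Finset.sum_mul]
      refine Finset.sum_eq_zero fun j hj => ?_
      rw [mem_range] at hj
      have h6 := mul_prod_clY (c := c) hW hj (U := U) (by
          rw [hU, mem_erase]; exact ⟨hxα, hx⟩)
      rw [smul_mul_assoc]
      have : W x j * (clG E R α i * Z) = 0 := by
        linear_combination (clG E R α i) * h6
      rw [this, smul_zero]
    · intro h; exact absurd (mem_range.mpr hα) h
  have h7 : (∏ x ∈ U, s x) • (∑ i ∈ E α, ∑ j ∈ range (c α), μ i j * d α i α j) •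
      ∏ x ∈ range b, clY W c x = 0 := by
    have h8 : (∑ i ∈ E α, clD b W c d α i * clG E R α i) * (∏ x ∈ U, clM E R x) *
        (∏ x ∈ U, h x) = 0 := by
      rw [h1, zero_mul]
    rw [← h8, Finset.sum_mul, Finset.sum_mul, Finset.sum_smul, Finset.smul_sum]
    refine Finset.sum_congr rfl fun i hi => ?_
    have h10 := e4 i hi
    rw [← h10]
    simp only [Algebra.smul_def] at e3 ⊢
    linear_combination (-(clD b W c d α i * clG E R α i)) * e3
  rw [smul_smul] at h7
  have h8 := hne _ h7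
  exact (mul_eq_zero.mp h8).resolve_left hs0

end rel

end Pool.Agent.HankelPerm
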