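import Pool.Agent.HankelPerm.LinkPoint
import Pool.Agent.HankelPerm.ClsRel

/-!
From Hankel matrices to classes: the rows of the matrix at a point supported on one residue class.
-/

namespace Pool.Agent.HankelPerm

open Matrix Finset Equiv MvPolynomial Pool.Agent.H32

/-- The column class of a row class. -/
def yx (b p x : ℕ) : ℕ := if x ≤ p then p - x else p + b - x

theorem yx_lt {b p x : ℕ} (hp : p < b) (hx : x < b) : yx b p x < b := by
  rw [yx]; split_ifs <;> omega

theorem yx_yx {b p x : ℕ} (hx : x < b) : yx b p (yx b p x) = x := by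
  simp only [yx]; split_ifs <;> omega

theorem mod_mul_add {b x i : ℕ} (hx : x < b) : (x + i * b) % b = x := by
  rw [Nat.add_mul_mod_self_right, Nat.mod_eq_of_lt hx]

theorem div_mul_add {b x i : ℕ} (hx : x < b) : (x + i * b) / b = i := by
  rw [Nat.add_mul_div_right _ _ (by omega), Nat.div_eq_of_lt hx, zero_add]

theorem cls_inj {b x i x' i' : ℕ} (hx : x < b) (hx' : x' < b) (h : x + i * b = x' + i' * b) :
    x = x' ∧ i = i' := by
  have h1 := congrArg (· % b) h
  have h2 := congrArg (· / b) h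
  simp only [mod_mul_add hx, mod_mul_add hx', div_mul_add hx, div_mul_add hx'] at h1 h2
  exact ⟨h1, h2⟩

/-- Sums over windows determine a sequence. -/
theorem down_lemma {M : Type*} [AddCommMonoid M] (f : ℕ → M) (L Q q0 : ℕ)
    (h1 : ∀ q, Q ≤ q → f q = 0)
    (h2 : ∀ q, q0 ≤ q → q < Q → ∑ j ∈ range (L + 1), f (q + j) = 0) :
    ∀ q, q0 ≤ q → f q = 0 := by
  intro q hq
  induction h : Q - q using Nat.strong_induction_on generalizing q with
  | _ e ih =>
    rcases Nat.lt_or_ge q Q with h3 | h3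
    · have h4 := h2 q hq h3
      rw [sum_range_succ', Finset.sum_eq_zero, zero_add, add_zero] at h4
      · exact h4
      · intro j _
        exact ih (Q - (q + (j + 1))) (by omega) _ (by omega) rfl
    · exact h1 q h3

/-- The number of elements of an interval with prescribed residues. -/
theorem card_window (b c e : ℕ) (R : Finset ℕ) (hR : R ⊆ range b) :
    ((Ico c (c + e * b)).filter fun s => s % b ∈ R).card ≤ R.card * e := by
  rcases Nat.eq_zero_or_pos b with hb | hb
  · subst hb
    simp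
  calc ((Ico c (c + e * b)).filter fun s => s % b ∈ R).card
      ≤ (R ×ˢ range e).card := by
        refine Finset.card_le_card_of_injOn (fun s => (s % b, (s - c) / b)) ?_ ?_
        · intro s hs
          simp only [coe_filter, mem_Ico, Set.mem_setOf_eq] at hs
          simp only [coe_product, Set.mem_prod, mem_coe, mem_range]
          refine ⟨hs.2, ?_⟩
          rw [Nat.div_lt_iff_lt_mul hb]
          omega
        · intro s hs s' hs' h
          simp only [coe_filter, mem_Ico, Set.mem_setOf_eq] at hs hs'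
          simp only [Prod.mk.injEq] at h
          obtain ⟨h1, h2⟩ := h
          obtain ⟨u, rfl⟩ := Nat.exists_eq_add_of_le hs.1.1
          obtain ⟨u', rfl⟩ := Nat.exists_eq_add_of_le hs'.1.1
          rw [Nat.add_sub_cancel_left, Nat.add_sub_cancel_left] at h2
          have h3 : u ≡ u' [MOD b] := Nat.ModEq.add_left_cancel' c h1
          have h4 := Nat.div_add_mod u b
          have h5 := Nat.div_add_mod u' b
          rw [h2, h3] at h4
          omega
    _ = R.card * e := by rw [card_product, card_range]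

section cols

variable {b p n : ℕ} {c : ℕ → ℕ} {cl : ℕ → ℕ → ℕ} (hp : p < b)
  (hc : ∀ x < b, ∀ j, yx b p x + j * b < n ↔ j < c x)
  (hcl : ∀ x < b, ∀ j < c x, cl x j < c x ∧ cl x (cl x j) = j)

include hp hc hcl

theorem cols_injOn : Set.InjOn (fun a : (_ : ℕ) × ℕ => yx b p a.1 + cl a.1 a.2 * b)
    ((range b).sigma fun x => range (c x)) := by
  rintro ⟨x, j⟩ ha ⟨x', j'⟩ ha' h
  simp only [coe_sigma, Set.mem_sigma_iff, mem_coe, mem_range] at ha ha' h
  obtain ⟨h1, h2⟩ := cls_inj (yx_lt hp ha.1) (yx_lt hp ha'.1) h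
  have h3 : x = x' := by rw [← yx_yx (p := p) ha.1, h1, yx_yx ha'.1]
  subst h3
  have h4 : j = j' := by
    rw [← (hcl x ha.1 j ha.2).2, h2, (hcl x ha.1 j' ha'.2).2]
  rw [h4]

theorem cols_image : ((range b).sigma fun x => range (c x)).image
    (fun a : (_ : ℕ) × ℕ => yx b p a.1 + cl a.1 a.2 * b) = range n := by
  ext s
  simp only [mem_image, mem_sigma, mem_range]
  constructor
  · rintro ⟨⟨x, j⟩, ⟨h1, h2⟩, rfl⟩
    exact (hc x h1 _).mpr (hcl x h1 j h2).1
  · intro hs
    have hb : 0 < b := by omega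
    have h1 : s % b < b := Nat.mod_lt _ hb
    have h2 : s % b + s / b * b = s := by
      rw [mul_comm, Nat.mod_add_div]
    have h3 : yx b p (s % b) < b := yx_lt hp h1
    have h4 : s / b < c (yx b p (s % b)) := by
      rw [← hc _ h3, yx_yx h1, h2]; exact hs
    refine ⟨⟨yx b p (s % b), cl (yx b p (s % b)) (s / b)⟩, ⟨h3, (hcl _ h3 _ h4).1⟩, ?_⟩
    simp only
    rw [yx_yx h1, (hcl _ h3 _ h4).2, h2]

theorem cols_prod {M : Type*} [CommMonoid M] (F : ℕ → M) :
    ∏ x ∈ range b, ∏ j ∈ range (c x), F (yx b p x + cl x j * b) = ∏ s ∈ range n, F s := by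
  rw [← cols_image hp hc hcl, Finset.prod_image (cols_injOn hp hc hcl), Finset.prod_sigma]

theorem cols_sum {M : Type*} [AddCommMonoid M] (F : ℕ → M) :
    ∑ x ∈ range b, ∑ j ∈ range (c x), F (yx b p x + cl x j * b) = ∑ s ∈ range n, F s := by
  rw [← cols_image hp hc hcl, Finset.sum_image (cols_injOn hp hc hcl), Finset.sum_sigma]

end cols

section sys

variable {k : Type*} [Field k] {n : ℕ}

/-- A row of the Hankel matrix of a sequence. -/
noncomputable def rowq (q : ℕ → k) (n r : ℕ) : SqAlg k n := ∑ j : Fin n, q (r + j) • sy k n j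

/-- The columns of a class. -/
noncomputable def clW (k : Type*) [Field k] (n b p : ℕ) (cl : ℕ → ℕ → ℕ) (x j : ℕ) : SqAlg k n :=
  YY k n (yx b p x + cl x j * b + 1)

theorem clW_sq {b p : ℕ} {cl : ℕ → ℕ → ℕ} (x j : ℕ) :
    clW k n b p cl x j * clW k n b p cl x j = 0 := YY_sq _

variable {b p : ℕ} {c : ℕ → ℕ} {cl : ℕ → ℕ → ℕ} (hp : p < b)
  (hc : ∀ x < b, ∀ j, yx b p x + j * b < n ↔ j < c x)
  (hcl : ∀ x < b, ∀ j < c x, cl x j < c x ∧ cl x (cl x j) = j)

include hp hc hcl

theorem clD_eq (δ : ℕ → k) (r : ℕ → ℕ → ℕ) (x i : ℕ) :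
    clD b (clW k n b p cl) c (fun x i x' j => δ (r x i + (yx b p x' + cl x' j * b))) x i =
      rowq δ n (r x i) := by
  rw [clD, rowq]
  have h1 := cols_sum hp hc hcl (fun s => δ (r x i + s) • YY k n (s + 1))
  refine h1.trans ?_
  rw [← Fin.sum_univ_eq_sum_range (fun s => δ (r x i + s) • YY k n (s + 1)) n]
  refine Finset.sum_congr rfl fun j _ => ?_
  rw [YY_succ]

theorem clY_ne (s : k) (h : s • ∏ x ∈ range b, clY (clW k n b p cl) c x = 0) : s = 0 := by
  have h1 := cols_prod hp hc hcl (fun s => YY k n (s + 1))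
  have h2 : ∏ x ∈ range b, clY (clW k n b p cl) c x = ∏ s ∈ range n, YY k n (s + 1) := h1
  rw [h2, ← Fin.prod_univ_eq_prod_range (fun s => YY k n (s + 1)) n] at h
  refine smul_prod_sy_eq_zero (n := n) univ s ?_
  rw [← h]
  congr 1
  refine Finset.prod_congr rfl fun j _ => ?_
  rw [YY_succ]

theorem sys_rel {m t : ℕ} (q δ : ℕ → k)
    (hδ : ∀ f ∈ permIdeal t (hankelMatrix k m n),
      aeval (fun i : Fin (m + n - 1) => q i) (dd (fun i : Fin (m + n - 1) => δ i) f) = 0)
    (E : ℕ → Finset ℕ) (lev : ℕ → ℕ → ℕ) (hlev : ∀ x < b, Set.InjOn (lev x) (E x))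
    (hE : ∀ x < b, ∀ z ∈ E x, x + lev x z * b < m)
    (hcard : ∑ x ∈ range b, (E x).card = t) :
    ∑ a ∈ (range b).sigma E,
      clD b (clW k n b p cl) c
        (fun x i x' j => δ (x + lev x i * b + (yx b p x' + cl x' j * b))) a.1 a.2 *
      ∏ i ∈ ((range b).sigma E).erase a, rowq q n (i.1 + lev i.1 i.2 * b) = 0 := by
  have h1 := tangent_relation q δ hδ (sy k n) sy_mul_self ((range b).sigma E)
    (by rw [Finset.card_sigma]; exact hcard) (fun a => a.1 + lev a.1 a.2 * b)
    (by
      rintro ⟨x, j⟩ ha ⟨x', j'⟩ ha' h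
      simp only [coe_sigma, Set.mem_sigma_iff, mem_coe, mem_range] at ha ha' h
      obtain ⟨h1, h2⟩ := cls_inj ha.1 ha'.1 h
      subst h1
      rw [hlev x ha.1 ha.2 ha'.2 h2])
    (by
      rintro ⟨x, j⟩ ha
      rw [mem_sigma, mem_range] at ha
      exact hE x ha.1 j ha.2)
  rw [← h1]
  refine Finset.sum_congr rfl fun a _ => ?_
  rw [clD_eq hp hc hcl δ (fun x i => x + lev x i * b) a.1 a.2]
  rfl

end sys

section point

variable {k : Type*} [Field k] {n : ℕ}

/-- The variety contains `q` if sufficiently many classes have vanishing product. -/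
theorem mem_of_classes {m T a b : ℕ} (q : ℕ → k) (hm : m = T + a) (Z : Finset ℕ) (ha : 1 ≤ a)
    (hZ : Z.card = a) (hZb : ∀ x ∈ Z, x < b) (ρ : ℕ → ℕ) (lev : ℕ → ℕ → ℕ)
    (hlev : ∀ x ∈ Z, Set.InjOn (lev x) (range (ρ x)))
    (hρ : ∀ x ∈ Z, ∀ z < ρ x, x + lev x z * b < m)
    (h0 : ∀ x ∈ Z, ∏ z ∈ range (ρ x), rowq q n (x + lev x z * b) = 0)
    (f : MvPolynomial (Fin (m + n - 1)) k) (hf : f ∈ permIdeal (T + 1) (hankelMatrix k m n)) :
    aeval (fun i : Fin (m + n - 1) => q i) f = 0 := by
  classical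
  refine aeval_eq_zero_of_mem q ?_ f hf
  intro r cc
  set I : Finset ℕ := univ.image (fun u : Fin (T + 1) => ((r u : Fin m) : ℕ)) with hI
  have hinj : Function.Injective (fun u : Fin (T + 1) => ((r u : Fin m) : ℕ)) := fun u v h =>
    r.injective (Fin.ext h)
  have hIcard : I.card = T + 1 := by
    rw [hI, Finset.card_image_of_injective _ hinj, Finset.card_univ, Fintype.card_fin]
  have hIm : I ⊆ range m := by
    intro x hx
    obtain ⟨u, _, rfl⟩ := Finset.mem_image.mp hx
    exact mem_range.mpr (r u).2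
  have hex : ∃ x ∈ Z, ∀ z < ρ x, x + lev x z * b ∈ I := by
    by_contra hno
    push Not at hno
    have hch : ∀ x, ∃ z, x ∈ Z → z < ρ x ∧ x + lev x z * b ∉ I := by
      intro x
      by_cases hx : x ∈ Z
      · obtain ⟨z, h1, h2⟩ := hno x hx
        exact ⟨z, fun _ => ⟨h1, h2⟩⟩
      · exact ⟨0, fun h => absurd h hx⟩
    choose g hg using hch
    have h1 : Z.card ≤ (range m \ I).card := by
      refine Finset.card_le_card_of_injOn (fun x => x + lev x (g x) * b) ?_ ?_
      · intro x hx
        have := hg x hx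
        simp only [mem_coe, mem_sdiff, mem_range]
        exact ⟨hρ x hx _ this.1, this.2⟩
      · intro x hx x' hx' h
        exact (cls_inj (hZb x hx) (hZb x' hx') h).1
    rw [Finset.card_sdiff_of_subset hIm, card_range, hIcard] at h1
    omega
  obtain ⟨x, hx, hxz⟩ := hex
  have h1 : ∏ u : Fin (T + 1), rowq q n ((r u : Fin m) : ℕ) = 0 := by
    have h2 : ∏ s ∈ I, rowq q n s = ∏ u : Fin (T + 1), rowq q n ((r u : Fin m) : ℕ) := by
      rw [hI, Finset.prod_image (fun u _ v _ h => hinj h)]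
    rw [← h2]
    set J := (range (ρ x)).image (fun z => x + lev x z * b) with hJ
    have hJI : J ⊆ I := by
      intro s hs
      obtain ⟨z, hz, rfl⟩ := Finset.mem_image.mp hs
      exact hxz z (mem_range.mp hz)
    rw [← Finset.prod_sdiff hJI]
    have h3 : ∏ s ∈ J, rowq q n s = 0 := by
      rw [hJ, Finset.prod_image, h0 x hx]
      intro z hz z' hz' h
      exact hlev x hx hz hz' (cls_inj (hZb x hx) (hZb x hx) h).2
    rw [h3, mul_zero]
  exact permanent_eq_zero_of_prod (n := n) (fun (u : Fin (T + 1)) j => q ((r u : ℕ) + j)) h1 cc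
    cc.injective

/-- A nonzero tangent vector vanishing on a prescribed set of at most `T` coordinates. -/
theorem exists_delta {m T : ℕ} (hT : 1 ≤ T) (hm : T + 1 ≤ m) (hn : T + 1 ≤ n)
    (hP : (permIdeal (T + 1) (hankelMatrix k m n)).IsPrime) (q : ℕ → k)
    (hq : ∀ f ∈ permIdeal (T + 1) (hankelMatrix k m n),
      aeval (fun i : Fin (m + n - 1) => q i) f = 0) (S : Finset ℕ) (hS : S.card ≤ T) :
    ∃ δ : ℕ → k, (∃ s < m + n - 1, δ s ≠ 0) ∧ (∀ s, m + n - 1 ≤ s → δ s = 0) ∧
      (∀ s ∈ S, δ s = 0) ∧ ∀ f ∈ permIdeal (T + 1) (hankelMatrix k m n),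
        aeval (fun i : Fin (m + n - 1) => q i) (dd (fun i : Fin (m + n - 1) => δ i) f) = 0 := by
  classical
  have hbig := hankel_big (k := k) hT hm hn hP
  let F : Finset (Fin (m + n - 1)) := univ.filter fun i => (i : ℕ) ∈ S
  have hF : F.card ≤ T := by
    refine le_trans ?_ hS
    refine Finset.card_le_card_of_injOn (fun i : Fin (m + n - 1) => (i : ℕ))
        (fun i hi => ?_) (fun i _ j _ h => Fin.ext h)
    exact (Finset.mem_filter.mp hi).2
  obtain ⟨δ, hδ0, hδF, hδ⟩ := exists_tangent _ hbig _ hq F hF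
  have hδ' : (fun i : Fin (m + n - 1) =>
      (fun i : ℕ => if h : i < m + n - 1 then δ ⟨i, h⟩ else 0) (i : ℕ)) = δ := by
    funext i
    simp only [dif_pos i.2]
  refine ⟨fun i => if h : i < m + n - 1 then δ ⟨i, h⟩ else 0, ?_, ?_, ?_, ?_⟩
  · by_contra hno
    push Not at hno
    apply hδ0
    funext i
    have := hno i i.2
    simp only [dif_pos i.2] at this
    exact this
  · intro s hs
    simp only
    rw [dif_neg (by omega)]
  · intro s hs
    simp only
    split_ifs with h
    · exact hδF _ (Finset.mem_filter.mpr ⟨Finset.mem_univ _, hs⟩)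
    · rfl
  · intro f hf
    rw [hδ']
    exact hδ f hf

/-- A point with four nonzero coordinates. -/
def pt4 (k : Type*) [Field k] (e0 e1 e2 e3 : k) (c0 c1 c2 c3 s : ℕ) : k :=
  e0 * (if s = c0 then 1 else 0) + e1 * (if s = c1 then 1 else 0) +
    e2 * (if s = c2 then 1 else 0) + e3 * (if s = c3 then 1 else 0)

theorem rowq_pt4 (e0 e1 e2 e3 : k) (c0 c1 c2 c3 r : ℕ) :
    rowq (pt4 k e0 e1 e2 e3 c0 c1 c2 c3) n r =
      e0 • (if r ≤ c0 then YY k n (c0 + 1 - r) else 0) +
      e1 • (if r ≤ c1 then YY k n (c1 + 1 - r) else 0) +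
      e2 • (if r ≤ c2 then YY k n (c2 + 1 - r) else 0) +
      e3 • (if r ≤ c3 then YY k n (c3 + 1 - r) else 0) := by
  simp only [rowq, pt4, add_smul, Finset.sum_add_distrib, mul_smul, ← Finset.smul_sum, sum_ind]

/-- Indicator entries of the rows. -/
theorem term_eq {b p x i l : ℕ} (hx : x < b) (hp : p < b) :
    (if x + i * b ≤ p + l * b then YY k n (p + l * b + 1 - (x + i * b)) else 0) =
      if x ≤ p then (if i ≤ l then YY k n (yx b p x + (l - i) * b + 1) else 0)
        else (if i < l then YY k n (yx b p x + (l - 1 - i) * b + 1) else 0) := by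
  rcases Nat.lt_trichotomy i l with h | h | h
  · obtain ⟨e, rfl⟩ := Nat.exists_eq_add_of_lt h
    have h1 : (i + e + 1) * b = i * b + e * b + b := by ring
    have h2 : (i + e + 1 - i) * b = e * b + b := by
      rw [show i + e + 1 - i = e + 1 by omega]; ring
    have h3 : (i + e + 1 - 1 - i) * b = e * b := by
      rw [show i + e + 1 - 1 - i = e by omega]
    rw [if_pos (by omega), yx]
    by_cases hxp : x ≤ p
    · rw [if_pos hxp, if_pos (by omega), if_pos hxp]
      congr 1
      omega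
    · rw [if_neg hxp, if_pos (by omega), if_neg hxp]
      congr 1
      omega
  · subst h
    rw [yx]
    by_cases hxp : x ≤ p
    · rw [if_pos hxp, if_pos (by omega), if_pos (by omega), if_pos hxp]
      congr 1
      simp
      omega
    · rw [if_neg hxp, if_neg (by omega), if_neg (by omega)]
  · obtain ⟨e, rfl⟩ := Nat.exists_eq_add_of_lt h
    have h1 : (l + e + 1) * b = l * b + e * b + b := by ring
    rw [if_neg (by omega)]
    by_cases hxp : x ≤ p
    · rw [if_pos hxp, if_neg (by omega)]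
    · rw [if_neg hxp, if_neg (by omega)]

end point

end Pool.Agent.HankelPerm
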