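import Pool.Agent.HankelPerm.EvenRel

/-!
Elimination: the tangent vectors at the point used for `m = t`, `n = t + 1`, `t` even, which vanish
on the free coordinates, and the value of the second order term.
-/

namespace Pool.Agent.HankelPerm

open Finset

namespace Even

variable {k : Type*} [Field k] {p : ℕ} {E O : ℕ → k}

theorem theta_eq (hE : ∀ s, 1 ≤ s → s ≤ 2 * p + 4 → E s = 0) : theta p E = -E 0 := by
  rw [theta, Finset.sum_eq_single (p + 2), Finset.sum_eq_single 0]
  · rw [show p + 2 - (p + 2) + 0 = 0 by omega, pv, if_pos (by omega)]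
    ring
  · intro l hl h0
    rw [mem_range] at hl
    rw [hE _ (by omega) (by omega), zero_mul]
  · intro h; exact absurd (mem_range.mpr (by omega)) h
  · intro x hx hxp
    rw [mem_range] at hx
    refine Finset.sum_eq_zero fun l hl => ?_
    rw [mem_range] at hl
    rw [hE _ (by omega) (by omega), zero_mul]
  · intro h; exact absurd (mem_range.mpr (by omega)) h

theorem Om_eq (hE : ∀ s, 1 ≤ s → s ≤ 2 * p + 4 → E s = 0) : Om p E = E (2 * p + 5) := by
  rw [Om, Finset.sum_eq_single 0, Finset.sum_eq_single (p + 2)]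
  · rw [show p + 2 - 0 + (p + 2 + 1) = 2 * p + 5 by omega, qu, if_pos (by omega)]
    ring
  · intro l hl h0
    rw [mem_range] at hl
    rw [hE _ (by omega) (by omega), zero_mul]
  · intro h; exact absurd (mem_range.mpr (by omega)) h
  · intro x hx hxp
    rw [mem_range] at hx
    refine Finset.sum_eq_zero fun l hl => ?_
    rw [mem_range] at hl
    rw [hE _ (by omega) (by omega), zero_mul]
  · intro h; exact absurd (mem_range.mpr (by omega)) h

theorem pv_sub (x m : ℕ) : pv k x m - pv k x (m + 1) = if x = m then -2 else 0 := by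
  rw [pv, pv]
  by_cases h : x = m
  · rw [if_pos (by omega), if_neg (by omega), if_pos h]; ring
  · rw [if_neg h]
    by_cases h1 : m ≤ x
    · rw [if_pos h1, if_pos (by omega)]; ring
    · rw [if_neg h1, if_neg (by omega)]; ring

theorem pv_add (x : ℕ) (hx : x < p + 3) : pv k x 1 + pv k x (p + 3) = if x = 0 then 2 else 0 := by
  rw [pv, pv]
  by_cases h : x = 0
  · rw [if_neg (by omega), if_neg (by omega), if_pos h]; ring
  · rw [if_pos (by omega), if_neg (by omega), if_neg h]; ring

theorem qu_sub (x m : ℕ) (h1 : 2 ≤ m) (h2 : m ≤ p + 2) :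
    qu k p x m - qu k p x (m + 1) = if x = m then 2 else 0 := by
  rw [qu, qu]
  by_cases h : x = m
  · rw [if_pos (by omega), if_neg (by omega), if_pos h]; ring
  · rw [if_neg h]
    by_cases h1 : m ≤ x
    · rw [if_pos (by omega), if_pos (by omega)]; ring
    · rw [if_neg (by omega), if_neg (by omega)]; ring

theorem W_sub {x : ℕ} (hx : x ≤ p + 1) :
    W p O x - W p O (x + 1) = O (2 * p + 4 - x) - O (p + 2 - x) := by
  have h1 : W p O x = ∑ l ∈ range (p + 1), O (p + 3 - x + l) + O (2 * p + 4 - x) := by
    rw [W, sum_range_succ]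
    congr 1
    · refine Finset.sum_congr rfl fun l _ => ?_
      congr 1; omega
    · congr 1; omega
  have h2 : W p O (x + 1) = ∑ l ∈ range (p + 1), O (p + 3 - x + l) + O (p + 2 - x) := by
    rw [W, sum_range_succ']
    congr 1
    · refine Finset.sum_congr rfl fun l _ => ?_
      congr 1; omega
    · congr 1; omega
  rw [h1, h2]; ring

theorem XX_last {x : ℕ} (hx : x ≤ p + 2) :
    XX p O (p + 2) x = O (2 * p + 5 - x) - W p O x := by
  rw [XX, sum_range_succ, pv, if_neg (by omega), W]
  have h1 : ∑ l ∈ range (p + 2), O (p + 3 - x + l) * pv k (p + 2) (l + 1) =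
      -∑ l ∈ range (p + 2), O (p + 2 - x + (l + 1)) := by
    rw [← Finset.sum_neg_distrib]
    refine Finset.sum_congr rfl fun l hl => ?_
    rw [mem_range] at hl
    rw [pv, if_pos (by omega), show p + 3 - x + l = p + 2 - x + (l + 1) by omega]
    ring
  rw [h1, show p + 3 - x + (p + 2) = 2 * p + 5 - x by omega]
  ring

/-- The tangent vector. -/
structure Sol (p : ℕ) (E O : ℕ → k) : Prop where
  o0 : O 0 = 0
  o1 : O 1 = -2 * E 0
  oz : ∀ s, 2 ≤ s → s ≤ p + 1 → O s = 0
  o2 : O (p + 2) = E 0
  o3 : O (p + 3) = -E 0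
  oy : ∀ s, p + 4 ≤ s → s ≤ 2 * p + 3 → O s = 0
  o4 : O (2 * p + 4) = E 0
  o5 : O (2 * p + 5) = E 0
  ez : ∀ s, 1 ≤ s → s ≤ 2 * p + 4 → E s = 0
  e5 : E (2 * p + 5) = -2 * E 0

theorem solve (h2 : (2 : k) ≠ 0) (hO : O 0 = 0) (hE : ∀ s, 1 ≤ s → s ≤ 2 * p + 4 → E s = 0)
    (hV : ∀ m, 1 ≤ m → m ≤ p + 3 →
      ∑ x ∈ range (p + 3), pv k x m * (-2 * W p O x) + pv k (p + 2) m * Om p E = 0)
    (hU : ∀ m, 2 ≤ m → m ≤ p + 4 → (if m = p + 4 then (0 : k) else -2) * theta p E +
      ∑ x ∈ range (p + 3), qu k p x m * XX p O (p + 2) x = 0) : Sol p E O := by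
  have h4 : (4 : k) ≠ 0 := by
    have : (4 : k) = 2 * 2 := by norm_num
    rw [this]; exact mul_ne_zero h2 h2
  -- the window sums
  have w1 : ∀ m, 1 ≤ m → m ≤ p + 2 → 4 * W p O m - (if m = p + 2 then 2 else 0) * Om p E = 0 := by
    intro m hm1 hm2
    have e1 := hV m hm1 (by omega)
    have e2 := hV (m + 1) (by omega) (by omega)
    have e3 : ∑ x ∈ range (p + 3), (pv k x m - pv k x (m + 1)) * (-2 * W p O x) +
        (pv k (p + 2) m - pv k (p + 2) (m + 1)) * Om p E = 0 := by
      simp only [sub_mul, Finset.sum_sub_distrib]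
      linear_combination e1 - e2
    simp only [pv_sub] at e3
    rw [Finset.sum_eq_single m (fun x _ hx => by rw [if_neg hx, zero_mul])
      (fun h => absurd (mem_range.mpr (by omega)) h), if_pos rfl] at e3
    by_cases h : m = p + 2
    · rw [if_pos h.symm] at e3
      rw [if_pos h]
      linear_combination e3
    · rw [if_neg (fun h' => h h'.symm)] at e3
      rw [if_neg h]
      linear_combination e3
  have w0 : W p O 0 = 0 := by
    have e1 := hV 1 le_rfl (by omega)
    have e2 := hV (p + 3) (by omega) le_rfl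
    have e3 : ∑ x ∈ range (p + 3), (pv k x 1 + pv k x (p + 3)) * (-2 * W p O x) +
        (pv k (p + 2) 1 + pv k (p + 2) (p + 3)) * Om p E = 0 := by
      simp only [add_mul, Finset.sum_add_distrib]
      linear_combination e1 + e2
    rw [pv_add (p + 2) (by omega), if_neg (by omega), Finset.sum_congr rfl (fun x hx => by
      rw [pv_add x (mem_range.mp hx)]), Finset.sum_eq_single 0 (fun x _ hx => by
      rw [if_neg hx, zero_mul]) (fun h => absurd (mem_range.mpr (by omega)) h), if_pos rfl] at e3
    have : 4 * W p O 0 = 0 := by linear_combination -e3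
    exact (mul_eq_zero.mp this).resolve_left h4
  have wz : ∀ m, m ≤ p + 1 → W p O m = 0 := by
    intro m hm
    rcases Nat.eq_zero_or_pos m with h | h
    · rw [h]; exact w0
    · have e1 := w1 m h (by omega)
      rw [if_neg (by omega)] at e1
      have : 4 * W p O m = 0 := by linear_combination e1
      exact (mul_eq_zero.mp this).resolve_left h4
  have wl : 2 * W p O (p + 2) = Om p E := by
    have e1 := w1 (p + 2) (by omega) le_rfl
    rw [if_pos rfl] at e1
    have : 2 * (2 * W p O (p + 2) - Om p E) = 0 := by linear_combination e1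
    exact sub_eq_zero.mp ((mul_eq_zero.mp this).resolve_left h2)
  -- the second class
  have k1 : ∀ m, 2 ≤ m → m ≤ p + 2 → XX p O (p + 2) m = 0 := by
    intro m hm1 hm2
    have e1 := hU m hm1 (by omega)
    have e2 := hU (m + 1) (by omega) (by omega)
    rw [if_neg (by omega)] at e1 e2
    have e3 : ∑ x ∈ range (p + 3), (qu k p x m - qu k p x (m + 1)) * XX p O (p + 2) x = 0 := by
      simp only [sub_mul, Finset.sum_sub_distrib]
      linear_combination e1 - e2
    simp only [qu_sub _ m hm1 hm2] at e3
    rw [Finset.sum_eq_single m (fun x _ hx => by rw [if_neg hx, zero_mul])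
      (fun h => absurd (mem_range.mpr (by omega)) h), if_pos rfl] at e3
    exact (mul_eq_zero.mp e3).resolve_left h2
  have split : ∀ f : ℕ → k, ∑ x ∈ range (p + 3), f x * XX p O (p + 2) x =
      f 0 * XX p O (p + 2) 0 + f 1 * XX p O (p + 2) 1 := by
    intro f
    rw [show p + 3 = p + 1 + 1 + 1 by ring, sum_range_succ', sum_range_succ', Finset.sum_eq_zero]
    · ring
    · intro x hx
      rw [mem_range] at hx
      rw [k1 _ (by omega) (by omega), mul_zero]
  have e3 := hU (p + 3) (by omega) (by omega)
  have e4 := hU (p + 4) (by omega) (by omega)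
  rw [if_neg (by omega), split, qu, qu, if_neg (by omega), if_neg (by omega), theta_eq hE] at e3
  rw [if_pos rfl, split, qu, qu, if_pos (by omega), if_neg (by omega), theta_eq hE] at e4
  have k0 : XX p O (p + 2) 0 = E 0 := by
    have : 2 * (XX p O (p + 2) 0 - E 0) = 0 := by linear_combination e4 - e3
    exact sub_eq_zero.mp ((mul_eq_zero.mp this).resolve_left h2)
  have k1' : XX p O (p + 2) 1 = E 0 := by
    have : 2 * (XX p O (p + 2) 1 - E 0) = 0 := by linear_combination -e4 - e3
    exact sub_eq_zero.mp ((mul_eq_zero.mp this).resolve_left h2)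
  have o5 : O (2 * p + 5) = E 0 := by
    have e5 := XX_last (p := p) (O := O) (x := 0) (by omega)
    rw [k0, wz 0 (by omega), Nat.sub_zero] at e5
    linear_combination -e5
  have o4 : O (2 * p + 4) = E 0 := by
    have e5 := XX_last (p := p) (O := O) (x := 1) (by omega)
    rw [k1', wz 1 (by omega), show 2 * p + 5 - 1 = 2 * p + 4 by omega] at e5
    linear_combination -e5
  have oy : ∀ s, p + 4 ≤ s → s ≤ 2 * p + 3 → O s = 0 := by
    intro s h1 h2
    have e5 := XX_last (p := p) (O := O) (x := 2 * p + 5 - s) (by omega)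
    rw [k1 _ (by omega) (by omega), wz _ (by omega),
      show 2 * p + 5 - (2 * p + 5 - s) = s by omega] at e5
    linear_combination -e5
  have o3 : O (p + 3) = W p O (p + 2) := by
    have e5 := XX_last (p := p) (O := O) (x := p + 2) (by omega)
    rw [k1 _ (by omega) (by omega), show 2 * p + 5 - (p + 2) = p + 3 by omega] at e5
    linear_combination -e5
  have o2 : O (p + 2) = E 0 := by
    have e5 := W_sub (p := p) (O := O) (x := 0) (by omega)
    rw [wz 0 (by omega), wz (0 + 1) (by omega), Nat.sub_zero, Nat.sub_zero, o4] at e5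
    linear_combination e5
  have oz : ∀ s, 2 ≤ s → s ≤ p + 1 → O s = 0 := by
    intro s h1 h2
    have e5 := W_sub (p := p) (O := O) (x := p + 2 - s) (by omega)
    rw [wz _ (by omega), wz _ (by omega), oy _ (by omega) (by omega),
      show p + 2 - (p + 2 - s) = s by omega] at e5
    linear_combination e5
  have o3' : O (p + 3) = -E 0 := by
    have e5 := wz (p + 1) le_rfl
    rw [W, sum_range_succ, sum_range_succ, Finset.sum_eq_zero (fun l hl => by
      rw [mem_range] at hl
      rw [oz _ (by omega) (by omega)]), show p + 2 - (p + 1) + (p + 1) = p + 2 by omega,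
      show p + 2 - (p + 1) + (p + 1 + 1) = p + 3 by omega, o2] at e5
    linear_combination e5
  have o1 : O 1 = -2 * E 0 := by
    have e5 := o3
    rw [W, sum_range_succ', sum_range_succ, Finset.sum_eq_zero (fun l hl => by
      rw [mem_range] at hl
      rw [oz _ (by omega) (by omega)]), show p + 2 - (p + 2) + (p + 1 + 1) = p + 2 by omega,
      show p + 2 - (p + 2) + (0 + 1) = 1 by omega, o2, o3'] at e5
    linear_combination -e5
  refine ⟨hO, o1, oz, o2, o3', oy, o4, o5, hE, ?_⟩
  rw [← Om_eq hE, ← wl, ← o3, o3']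
  ring

end Even

end Pool.Agent.HankelPerm
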