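import Pool.Agent.HankelPerm.PathProd

/-!
The products of rows of the two classes of the point used for `m = t`, `n = t + 1`, `t` even.
-/

namespace Pool.Agent.HankelPerm

open Finset

namespace Even

section cyc

variable {A : Type*} [CommRing A] {v : ℕ → A}

theorem prod_range_erase {M : Type*} [CommMonoid M] (f : ℕ → M) {n x : ℕ} (hx : x < n) :
    ∏ y ∈ (range n).erase x, f y = (∏ y ∈ range x, f y) * ∏ y ∈ range (n - (x + 1)), f (x + 1 + y) := by
  have h : (range n).erase x = range x ∪ (range (n - (x + 1))).map (addLeftEmbedding (x + 1)) := by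
    ext y
    simp only [mem_erase, mem_range, mem_union, mem_map, addLeftEmbedding_apply]
    constructor
    · rintro ⟨h1, h2⟩
      rcases Nat.lt_or_ge y x with h3 | h3
      · exact Or.inl h3
      · exact Or.inr ⟨y - (x + 1), by omega, by omega⟩
    · rintro (h1 | ⟨z, h1, rfl⟩) <;> omega
  rw [h, Finset.prod_union, Finset.prod_map]
  · rfl
  · rw [Finset.disjoint_left]
    intro y hy hy'
    simp only [mem_range, mem_map, addLeftEmbedding_apply] at hy hy'
    obtain ⟨z, h1, h2⟩ := hy'
    omega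

/-- closing edge, multiplied by the full path. -/
theorem close_pth (hv : ∀ s, v s * v s = 0) (a l : ℕ) :
    (v a - v (a + l)) * pth v a l = 0 := by
  rw [sub_mul, mul_pth hv le_rfl (by omega), mul_pth hv (by omega) le_rfl, sub_self]

/-- weight of the product of a cycle without one edge: lower part. -/
theorem cyc_low (hv : ∀ s, v s * v s = 0) {a i j l : ℕ} (h1 : a ≤ l) (h2 : l ≤ a + i) :
    v l * ((v a - v (a + i + 1 + j)) * (pth v a i * pth v (a + i + 1) j)) =
      -mon v a (i + 1 + (j + 1)) := by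
  have h3 : v l * pth v a i = mon v a (i + 1) := mul_pth hv h1 h2
  have h4 : v (a + i + 1 + j) * pth v (a + i + 1) j = mon v (a + i + 1) (j + 1) :=
    mul_pth hv (by omega) le_rfl
  have h5 : v a * mon v a (i + 1) = 0 := mul_mon hv le_rfl (by omega)
  have h6 := mon_add (v := v) a (i + 1) (j + 1)
  rw [← add_assoc] at h6
  rw [← h6]
  linear_combination (v a - v (a + i + 1 + j)) * pth v (a + i + 1) j * h3 -
    mon v a (i + 1) * h4 + pth v (a + i + 1) j * h5

/-- weight of the product of a cycle without one edge: upper part. -/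
theorem cyc_high (hv : ∀ s, v s * v s = 0) {a i j l : ℕ} (h1 : a + i + 1 ≤ l)
    (h2 : l ≤ a + i + 1 + j) :
    v l * ((v a - v (a + i + 1 + j)) * (pth v a i * pth v (a + i + 1) j)) =
      mon v a (i + 1 + (j + 1)) := by
  have h3 : v l * pth v (a + i + 1) j = mon v (a + i + 1) (j + 1) := mul_pth hv h1 h2
  have h4 : v a * pth v a i = mon v a (i + 1) := mul_pth hv le_rfl (by omega)
  have h5 : v (a + i + 1 + j) * mon v (a + i + 1) (j + 1) = 0 := mul_mon hv (by omega) (by omega)
  have h6 := mon_add (v := v) a (i + 1) (j + 1)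
  rw [← add_assoc] at h6
  rw [← h6]
  linear_combination (v a - v (a + i + 1 + j)) * pth v a i * h3 +
    mon v (a + i + 1) (j + 1) * h4 - pth v a i * h5

end cyc

section rows

variable {A : Type*} [CommRing A] (U V : ℕ → A) (p : ℕ)

/-- First class, without the link. -/
def kk (x : ℕ) : A := if x = 0 then V 1 - V (p + 3) else V x + V (x + 1)

/-- First class. -/
def KK (x : ℕ) : A := kk V p x + if x = p + 2 then U 1 else 0

/-- Second class, modulo `U 1`. -/
def bb (x : ℕ) : A := if x = 0 then -(U (p + 3) + U (p + 4)) else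
  if x = 1 then U 2 - U (p + 4) else U x + U (x + 1)

/-- Second class. -/
def BB (x : ℕ) : A := bb U p x + if x ≤ 1 then U 1 else 0

/-- The products without one row. -/
def Gk (x : ℕ) : A := ∏ y ∈ (range (p + 3)).erase x, kk V p y
def GK (x : ℕ) : A := ∏ y ∈ (range (p + 3)).erase x, KK U V p y
def Gb (x : ℕ) : A := ∏ y ∈ (range (p + 3)).erase x, bb U p y
def GB (x : ℕ) : A := ∏ y ∈ (range (p + 3)).erase x, BB U p y

/-- The weights. -/
def pv (k : Type*) [Ring k] (x l : ℕ) : k := if l ≤ x then -1 else 1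

def qu (k : Type*) [Ring k] (p x l : ℕ) : k := if l ≤ x ∨ (x = 0 ∧ l = p + 4) then 1 else -1

variable {U V p}

theorem Gk_zero : Gk V p 0 = pth V 1 (p + 2) := by
  rw [Gk, prod_range_erase _ (by omega), range_zero, prod_empty, one_mul, pth]
  refine Finset.prod_congr (by congr 1) fun x _ => ?_
  rw [kk, if_neg (by omega), zero_add]

theorem Gk_succ {j : ℕ} (hj : j < p + 2) :
    Gk V p (j + 1) = (V 1 - V (p + 3)) * (pth V 1 j * pth V (j + 2) (p + 1 - j)) := by
  rw [Gk, prod_range_erase _ (by omega), prod_range_succ']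
  have e0 : kk V p 0 = V 1 - V (p + 3) := by rw [kk, if_pos rfl]
  have e1 : ∏ x ∈ range j, kk V p (x + 1) = pth V 1 j := by
    rw [pth]
    refine Finset.prod_congr rfl fun x _ => ?_
    rw [kk, if_neg (by omega), add_comm 1 x]
  have e2 : ∏ y ∈ range (p + 3 - (j + 1 + 1)), kk V p (j + 1 + 1 + y) =
      pth V (j + 2) (p + 1 - j) := by
    rw [pth]
    refine Finset.prod_congr (by congr 1; omega) fun x _ => ?_
    rw [kk, if_neg (by omega)]
  rw [e0, e1, e2]
  ring

theorem Gb_zero : Gb U p 0 = (U 2 - U (p + 4)) * pth U 2 (p + 1) := by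
  rw [Gb, prod_range_erase _ (by omega), range_zero, prod_empty, one_mul,
    show p + 3 - (0 + 1) = p + 1 + 1 by omega, prod_range_succ']
  have e0 : bb U p (0 + 1 + 0) = U 2 - U (p + 4) := by
    rw [bb, if_neg (by omega), if_pos rfl]
  have e1 : ∏ x ∈ range (p + 1), bb U p (0 + 1 + (x + 1)) = pth U 2 (p + 1) := by
    rw [pth]
    refine Finset.prod_congr rfl fun x _ => ?_
    rw [show 0 + 1 + (x + 1) = 2 + x by ring, bb, if_neg (by omega), if_neg (by omega)]
  rw [e0, e1, mul_comm]

theorem Gb_one : Gb U p 1 = -pth U 2 (p + 2) := by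
  rw [Gb, prod_range_erase _ (by omega), prod_range_one, show p + 3 - (1 + 1) = p + 1 by omega]
  have e0 : bb U p 0 = -(U (p + 3) + U (p + 4)) := by rw [bb, if_pos rfl]
  have e1 : ∏ x ∈ range (p + 1), bb U p (1 + 1 + x) = pth U 2 (p + 1) := by
    rw [pth]
    refine Finset.prod_congr rfl fun x _ => ?_
    rw [show 1 + 1 + x = 2 + x by ring, bb, if_neg (by omega), if_neg (by omega)]
  rw [e0, e1, pth_succ 2 (p + 1), show 2 + (p + 1) = p + 3 by ring,
    show p + 3 + 1 = p + 4 by ring]
  ring

theorem Gb_succ {j : ℕ} (hj : j < p + 1) : Gb U p (j + 2) =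
    -((U 2 - U (p + 4)) * (pth U 2 j * pth U (j + 3) (p + 1 - j))) := by
  rw [Gb, prod_range_erase _ (by omega), show j + 2 = j + 1 + 1 by ring, prod_range_succ',
    prod_range_succ']
  have e0 : bb U p 0 = -(U (p + 3) + U (p + 4)) := by rw [bb, if_pos rfl]
  have e1 : bb U p (0 + 1) = U 2 - U (p + 4) := by
    rw [bb, if_neg (by omega), if_pos rfl]
  have e2 : ∏ x ∈ range j, bb U p (x + 1 + 1) = pth U 2 j := by
    rw [pth]
    refine Finset.prod_congr rfl fun x _ => ?_
    rw [show x + 1 + 1 = 2 + x by ring, bb, if_neg (by omega), if_neg (by omega)]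
  have e3 : ∏ y ∈ range (p + 3 - (j + 1 + 1 + 1)), bb U p (j + 1 + 1 + 1 + y) =
      pth U (j + 3) (p - j) := by
    rw [pth]
    refine Finset.prod_congr (by congr 1; omega) fun x _ => ?_
    rw [bb, if_neg (by omega), if_neg (by omega)]
  rw [e0, e1, e2, e3, show p + 1 - j = p - j + 1 by omega, pth_succ (j + 3) (p - j),
    show j + 3 + (p - j) = p + 3 by omega, show p + 3 + 1 = p + 4 by ring]
  ring

theorem Gk_mul_kk {x : ℕ} (hx : x < p + 3) :
    kk V p x * Gk V p x = ∏ y ∈ range (p + 3), kk V p y := by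
  rw [Gk, Finset.mul_prod_erase _ _ (mem_range.mpr hx)]

theorem Gb_mul_bb {x : ℕ} (hx : x < p + 3) :
    bb U p x * Gb U p x = ∏ y ∈ range (p + 3), bb U p y := by
  rw [Gb, Finset.mul_prod_erase _ _ (mem_range.mpr hx)]

theorem prod_kk (hV : ∀ s, V s * V s = 0) : ∏ y ∈ range (p + 3), kk V p y = 0 := by
  rw [← Gk_mul_kk (show 0 < p + 3 by omega), Gk_zero, kk, if_pos rfl]
  have := close_pth hV 1 (p + 2)
  rwa [show 1 + (p + 2) = p + 3 by ring] at this

theorem prod_bb (hU : ∀ s, U s * U s = 0) : ∏ y ∈ range (p + 3), bb U p y = 0 := by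
  rw [← Gb_mul_bb (show 1 < p + 3 by omega), Gb_one, bb, if_neg (by omega), if_pos rfl]
  have := close_pth hU 2 (p + 2)
  rw [show 2 + (p + 2) = p + 4 by ring] at this
  rw [mul_neg, this, neg_zero]

/-- Weights of the first class. -/
theorem wt_k (hV : ∀ s, V s * V s = 0) {x l : ℕ} (hx : x < p + 3) (h1 : 1 ≤ l) (h2 : l ≤ p + 3) :
    V l * Gk V p x = pv A x l * mon V 1 (p + 3) := by
  rcases Nat.eq_zero_or_pos x with h | h
  · subst h
    rw [Gk_zero, pv, if_neg (by omega), one_mul, mul_pth hV h1 (by omega)]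
  · obtain ⟨j, rfl⟩ : ∃ j, x = j + 1 := ⟨x - 1, by omega⟩
    rw [Gk_succ (by omega), pv]
    split_ifs with h3
    · have := cyc_low hV (a := 1) (i := j) (j := p + 1 - j) (l := l) h1 (by omega)
      rw [show 1 + j + 1 + (p + 1 - j) = p + 3 by omega, show 1 + j + 1 = j + 2 by ring,
        show j + 1 + (p + 1 - j + 1) = p + 3 by omega] at this
      rw [this]
      ring
    · have := cyc_high hV (a := 1) (i := j) (j := p + 1 - j) (l := l) (by omega) (by omega)
      rw [show 1 + j + 1 + (p + 1 - j) = p + 3 by omega, show 1 + j + 1 = j + 2 by ring,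
        show j + 1 + (p + 1 - j + 1) = p + 3 by omega] at this
      rw [this]
      ring

/-- Weights of the second class. -/
theorem wt_b (hU : ∀ s, U s * U s = 0) {x l : ℕ} (hx : x < p + 3) (h1 : 2 ≤ l) (h2 : l ≤ p + 4) :
    U l * Gb U p x = qu A p x l * mon U 2 (p + 3) := by
  rcases Nat.lt_or_ge x 2 with h | h
  · rcases Nat.eq_zero_or_pos x with h0 | h0
    · subst h0
      rw [Gb_zero, qu]
      split_ifs with h3
      · have h4 : l = p + 4 := by omega
        have := cyc_high hU (a := 2) (i := p + 1) (j := 0) (l := l) (by omega) (by omega)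
        rw [show 2 + (p + 1) + 1 + 0 = p + 4 by ring, show p + 1 + 1 + (0 + 1) = p + 3 by ring,
          pth_zero, mul_one] at this
        rw [this]
        ring
      · have := cyc_low hU (a := 2) (i := p + 1) (j := 0) (l := l) (by omega) (by omega)
        rw [show 2 + (p + 1) + 1 + 0 = p + 4 by ring, show p + 1 + 1 + (0 + 1) = p + 3 by ring,
          pth_zero, mul_one] at this
        rw [this]
        ring
    · have h3 : x = 1 := by omega
      subst h3
      rw [Gb_one, qu, if_neg (by omega), mul_neg, mul_pth hU h1 (by omega)]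
      ring
  · obtain ⟨j, rfl⟩ : ∃ j, x = j + 2 := ⟨x - 2, by omega⟩
    rw [Gb_succ (by omega), qu]
    by_cases h3 : l ≤ j + 2
    · rw [if_pos (Or.inl h3)]
      have := cyc_low hU (a := 2) (i := j) (j := p + 1 - j) (l := l) h1 (by omega)
      rw [show 2 + j + 1 + (p + 1 - j) = p + 4 by omega, show 2 + j + 1 = j + 3 by ring,
        show j + 1 + (p + 1 - j + 1) = p + 3 by omega] at this
      rw [mul_neg, this]
      ring
    · rw [if_neg (by omega)]
      have := cyc_high hU (a := 2) (i := j) (j := p + 1 - j) (l := l) (by omega) (by omega)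
      rw [show 2 + j + 1 + (p + 1 - j) = p + 4 by omega, show 2 + j + 1 = j + 3 by ring,
        show j + 1 + (p + 1 - j + 1) = p + 3 by omega] at this
      rw [mul_neg, this]
      ring

theorem mon_U_succ : U 1 * mon U 2 (p + 3) = mon U 1 (p + 4) := by
  have := mon_add (v := U) 1 1 (p + 3)
  rw [mon_one, show 1 + 1 = 2 by ring, show 1 + (p + 3) = p + 4 by ring] at this
  exact this

/-- Products of sums with a common square zero element. -/
theorem prod_add_link {z : A} (hz : z * z = 0) (f : ℕ → A) (c : ℕ → ℤ) (s : Finset ℕ) :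
    ∏ x ∈ s, (f x + (c x : A) * z) = ∏ x ∈ s, f x + z * ∑ x ∈ s, (c x : A) * ∏ y ∈ s.erase x, f y := by
  induction s using Finset.induction_on with
  | empty => simp
  | insert a s ha ih =>
    rw [prod_insert ha, prod_insert ha, ih, sum_insert ha, erase_insert ha]
    have h1 : ∑ x ∈ s, (c x : A) * ∏ y ∈ (insert a s).erase x, f y =
        f a * ∑ x ∈ s, (c x : A) * ∏ y ∈ s.erase x, f y := by
      rw [Finset.mul_sum]
      refine Finset.sum_congr rfl fun x hx => ?_
      have hax : a ≠ x := fun h => ha (h ▸ hx)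
      rw [Finset.erase_insert_of_ne hax, prod_insert (by
        rw [mem_erase]; exact fun h => ha h.2)]
      ring
    rw [h1]
    linear_combination (c a : A) * (∑ x ∈ s, (c x : A) * ∏ y ∈ s.erase x, f y) * hz

theorem mul_prod_link {z : A} (hz : z * z = 0) (f : ℕ → A) (c : ℕ → ℤ) (s : Finset ℕ) :
    z * ∏ x ∈ s, (f x + (c x : A) * z) = z * ∏ x ∈ s, f x := by
  rw [prod_add_link hz]
  linear_combination (∑ x ∈ s, (c x : A) * ∏ y ∈ s.erase x, f y) * hz

theorem KK_eq (x : ℕ) : KK U V p x = kk V p x + ((if x = p + 2 then 1 else 0 : ℤ) : A) * U 1 := by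
  rw [KK]; split_ifs <;> simp

theorem BB_eq (x : ℕ) : BB U p x = bb U p x + ((if x ≤ 1 then 1 else 0 : ℤ) : A) * U 1 := by
  rw [BB]; split_ifs <;> simp

theorem prod_KK (hU : ∀ s, U s * U s = 0) (hV : ∀ s, V s * V s = 0) :
    ∏ x ∈ range (p + 3), KK U V p x = U 1 * Gk V p (p + 2) := by
  simp only [KK_eq]
  rw [prod_add_link (hU 1), prod_kk hV, zero_add, Finset.sum_eq_single (p + 2)]
  · rw [if_pos rfl]; simp [Gk]
  · intro x _ hx
    rw [if_neg hx]; simp
  · intro h; exact absurd (mem_range.mpr (by omega)) h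

theorem prod_BB (hU : ∀ s, U s * U s = 0) :
    ∏ x ∈ range (p + 3), BB U p x = U 1 * (Gb U p 0 + Gb U p 1) := by
  simp only [BB_eq]
  rw [prod_add_link (hU 1), prod_bb hU, zero_add]
  congr 1
  have h : (range (p + 3)) = insert 0 (insert 1 ((range (p + 1)).map (addRightEmbedding 2))) := by
    ext y
    simp only [mem_range, mem_insert, mem_map, addRightEmbedding_apply]
    constructor
    · intro h1
      rcases Nat.lt_or_ge y 2 with h3 | h3
      · omega
      · exact Or.inr (Or.inr ⟨y - 2, by omega, by omega⟩)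
    · rintro (h1 | h1 | ⟨z, h1, rfl⟩) <;> omega
  have h0 : ∑ x ∈ range (p + 3), ((if x ≤ 1 then 1 else 0 : ℤ) : A) *
      ∏ y ∈ (range (p + 3)).erase x, bb U p y = ∑ x ∈ range (p + 3),
        ((if x ≤ 1 then 1 else 0 : ℤ) : A) * Gb U p x := rfl
  rw [h0, h, sum_insert, sum_insert, sum_eq_zero]
  · simp
  · intro x hx
    rw [mem_map] at hx
    obtain ⟨z, _, rfl⟩ := hx
    rw [addRightEmbedding_apply, if_neg (by omega)]
    simp
  · simp only [mem_map, mem_range, addRightEmbedding_apply, not_exists, not_and]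
    intro z _; omega
  · simp only [mem_insert, mem_map, mem_range, addRightEmbedding_apply, not_or, not_exists,
      not_and]
    exact ⟨by omega, fun z _ => by omega⟩

theorem U_mul_GK (hU : ∀ s, U s * U s = 0) (x : ℕ) : U 1 * GK U V p x = U 1 * Gk V p x := by
  rw [GK, Gk]
  simp only [KK_eq]
  exact mul_prod_link (hU 1) _ _ _

theorem U_mul_GB (hU : ∀ s, U s * U s = 0) (x : ℕ) : U 1 * GB U p x = U 1 * Gb U p x := by
  rw [GB, Gb]
  simp only [BB_eq]
  exact mul_prod_link (hU 1) _ _ _

end rows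

end Even

end Pool.Agent.HankelPerm
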