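import Pool.Agent.HankelPerm.EvenProd

/-!
Scalar form of the tangent relation and of the second order relation at the point used for
`m = t`, `n = t + 1`, `t` even.
-/

namespace Pool.Agent.HankelPerm

open Finset

namespace Even

section lin

variable {k : Type*} [Field k] {A : Type*} [CommRing A] [Algebra k A] (U V : ℕ → A) (p : ℕ)

/-- A linear form in the `V`s. -/
def LV (f : ℕ → k) : A := ∑ l ∈ range (p + 3), f l • V (l + 1)

/-- A linear form in the `U`s. -/
def LU (f : ℕ → k) : A := ∑ l ∈ range (p + 4), f l • U (l + 1)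

variable {U V p}

theorem pv_smul (x l : ℕ) (z : A) : pv A x l * z = pv k x l • z := by
  rw [pv, pv]; split_ifs <;> simp

theorem qu_smul (x l : ℕ) (z : A) : qu A p x l * z = qu k p x l • z := by
  rw [qu, qu]; split_ifs <;> simp

theorem LV_mon (hV : ∀ s, V s * V s = 0) (f : ℕ → k) : LV V p f * mon V 1 (p + 3) = 0 := by
  rw [LV, Finset.sum_mul]
  refine Finset.sum_eq_zero fun l hl => ?_
  rw [mem_range] at hl
  rw [smul_mul_assoc, mul_mon hV (by omega) (by omega), smul_zero]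

theorem LU_mon (hU : ∀ s, U s * U s = 0) (f : ℕ → k) : LU U p f * mon U 1 (p + 4) = 0 := by
  rw [LU, Finset.sum_mul]
  refine Finset.sum_eq_zero fun l hl => ?_
  rw [mem_range] at hl
  rw [smul_mul_assoc, mul_mon hU (by omega) (by omega), smul_zero]

theorem LV_Gk (hV : ∀ s, V s * V s = 0) (f : ℕ → k) {x : ℕ} (hx : x < p + 3) :
    LV V p f * Gk V p x = (∑ l ∈ range (p + 3), f l * pv k x (l + 1)) • mon V 1 (p + 3) := by
  rw [LV, Finset.sum_mul, Finset.sum_smul]
  refine Finset.sum_congr rfl fun l hl => ?_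
  rw [mem_range] at hl
  rw [smul_mul_assoc, wt_k hV hx (by omega) (by omega), pv_smul (k := k), smul_smul]

theorem LU_Gb (hU : ∀ s, U s * U s = 0) (f : ℕ → k) {x : ℕ} (hx : x < p + 3) :
    LU U p f * (U 1 * Gb U p x) =
      (∑ l ∈ range (p + 3), f (l + 1) * qu k p x (l + 2)) • mon U 1 (p + 4) := by
  rw [LU, Finset.sum_mul, Finset.sum_range_succ', Finset.sum_smul]
  have h0 : f 0 • U (0 + 1) * (U 1 * Gb U p x) = 0 := by
    rw [zero_add, smul_mul_assoc, ← mul_assoc, hU 1, zero_mul, smul_zero]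
  rw [h0, add_zero]
  refine Finset.sum_congr rfl fun l hl => ?_
  rw [mem_range] at hl
  rw [smul_mul_assoc, mul_left_comm, wt_b hU hx (by omega) (by omega), mul_left_comm,
    mon_U_succ, qu_smul (k := k), smul_smul]

theorem qu_add (l : ℕ) (hl : l < p + 3) :
    qu k p 0 (l + 2) + qu k p 1 (l + 2) = if l = p + 2 then 0 else -2 := by
  by_cases h : l = p + 2
  · subst h
    rw [qu, qu, if_pos (by omega), if_neg (by omega), if_pos rfl]
    ring
  · rw [qu, qu, if_neg (by omega), if_neg (by omega), if_neg h]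
    ring

theorem LU_BB (hU : ∀ s, U s * U s = 0) (f : ℕ → k) :
    LU U p f * ∏ x ∈ range (p + 3), BB U p x =
      (-2 * ∑ l ∈ range (p + 2), f (l + 1)) • mon U 1 (p + 4) := by
  rw [prod_BB hU, mul_add (U 1), mul_add, LU_Gb hU f (by omega), LU_Gb hU f (by omega), ← add_smul]
  congr 1
  rw [← Finset.sum_add_distrib]
  simp only [← mul_add]
  rw [show p + 3 = p + 2 + 1 by ring, sum_range_succ, qu_add _ (by omega), if_pos rfl, mul_zero,
    add_zero, Finset.mul_sum]
  refine Finset.sum_congr rfl fun l hl => ?_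
  rw [mem_range] at hl
  rw [qu_add _ (by omega), if_neg (by omega)]
  ring

theorem V_Gk (hV : ∀ s, V s * V s = 0) {x m : ℕ} (hx : x < p + 3) (h1 : 1 ≤ m) (h2 : m ≤ p + 3) :
    V m * Gk V p x = pv k x m • mon V 1 (p + 3) := by
  rw [wt_k hV hx h1 h2, pv_smul (k := k)]

theorem U_Gb (hU : ∀ s, U s * U s = 0) {x m : ℕ} (hx : x < p + 3) (h1 : 2 ≤ m) (h2 : m ≤ p + 4) :
    U m * (U 1 * Gb U p x) = qu k p x m • mon U 1 (p + 4) := by
  rw [mul_left_comm, wt_b hU hx h1 h2, mul_left_comm, mon_U_succ, qu_smul (k := k)]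

theorem U_BB (hU : ∀ s, U s * U s = 0) {m : ℕ} (h1 : 2 ≤ m) (h2 : m ≤ p + 4) :
    U m * ∏ x ∈ range (p + 3), BB U p x =
      (if m = p + 4 then (0 : k) else -2) • mon U 1 (p + 4) := by
  obtain ⟨l, rfl⟩ : ∃ l, m = l + 2 := ⟨m - 2, by omega⟩
  rw [prod_BB hU, mul_add (U 1), mul_add, U_Gb (k := k) hU (by omega) h1 h2,
    U_Gb (k := k) hU (by omega) h1 h2, ← add_smul, qu_add l (by omega)]
  congr 1
  by_cases h : l = p + 2
  · rw [if_pos h, if_pos (by omega)]
  · rw [if_neg h, if_neg (by omega)]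

end lin

section rel

variable {k : Type*} [Field k] {A : Type*} [CommRing A] [Algebra k A] (U V : ℕ → A) (p : ℕ)
  (E O : ℕ → k)

/-- Rows of the tangent vector. -/
def DK (x : ℕ) : A := LV V p (fun l => E (p + 2 - x + l)) + LU U p (fun l => O (p + 2 - x + l))

def DB (x : ℕ) : A := LV V p (fun l => O (p + 3 - x + l)) + LU U p (fun l => E (p + 2 - x + l))

/-- Scalars. -/
def W (x : ℕ) : k := ∑ l ∈ range (p + 2), O (p + 2 - x + (l + 1))

def XX (x y : ℕ) : k := ∑ l ∈ range (p + 3), O (p + 3 - y + l) * pv k x (l + 1)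

def YY' (x y : ℕ) : k := ∑ l ∈ range (p + 3), O (p + 2 - x + (l + 1)) * qu k p y (l + 2)

def theta : k := ∑ x ∈ range (p + 3), ∑ l ∈ range (p + 3), E (p + 2 - x + l) * pv k x (l + 1)

def Om : k := ∑ x ∈ range (p + 3), ∑ l ∈ range (p + 3), E (p + 2 - x + (l + 1)) * qu k p x (l + 2)

variable {U V p E O}

theorem rel_V (hU : ∀ s, U s * U s = 0) (hV : ∀ s, V s * V s = 0)
    (hnd : ∀ c : k, c • (mon U 1 (p + 4) * mon V 1 (p + 3)) = 0 → c = 0)
    (hrel : (∑ x ∈ range (p + 3), DK U V p E O x * GK U V p x) * ∏ x ∈ range (p + 3), BB U p x +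
      (∏ x ∈ range (p + 3), KK U V p x) * ∑ x ∈ range (p + 3), DB U V p E O x * GB U p x = 0)
    {m : ℕ} (h1 : 1 ≤ m) (h2 : m ≤ p + 3) :
    ∑ x ∈ range (p + 3), pv k x m * (-2 * W p O x) + pv k (p + 2) m * Om p E = 0 := by
  apply hnd
  have e1 : V m * ((∑ x ∈ range (p + 3), DK U V p E O x * GK U V p x) *
      ∏ x ∈ range (p + 3), BB U p x) =
      (∑ x ∈ range (p + 3), pv k x m * (-2 * W p O x)) • (mon U 1 (p + 4) * mon V 1 (p + 3)) := by
    rw [Finset.sum_mul, Finset.mul_sum, Finset.sum_smul]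
    refine Finset.sum_congr rfl fun x hx => ?_
    rw [mem_range] at hx
    have h3 : GK U V p x * ∏ x ∈ range (p + 3), BB U p x =
        Gk V p x * ∏ x ∈ range (p + 3), BB U p x := by
      rw [prod_BB hU]
      linear_combination (Gb U p 0 + Gb U p 1) * U_mul_GK (V := V) (p := p) hU x
    rw [mul_assoc (DK U V p E O x), h3,
      show V m * (DK U V p E O x * (Gk V p x * ∏ x ∈ range (p + 3), BB U p x)) =
        (DK U V p E O x * (∏ x ∈ range (p + 3), BB U p x)) * (V m * Gk V p x) by ring,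
      V_Gk (k := k) hV hx h1 h2, DK, add_mul, LU_BB hU, mul_smul_comm, add_mul,
      mul_right_comm, LV_mon hV, zero_mul, zero_add, smul_mul_assoc, smul_smul, W]
  have e2 : V m * ((∏ x ∈ range (p + 3), KK U V p x) *
      ∑ x ∈ range (p + 3), DB U V p E O x * GB U p x) =
      (pv k (p + 2) m * Om p E) • (mon U 1 (p + 4) * mon V 1 (p + 3)) := by
    rw [prod_KK hU hV, Om, Finset.mul_sum, Finset.mul_sum, Finset.mul_sum, Finset.sum_smul]
    refine Finset.sum_congr rfl fun x hx => ?_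
    rw [mem_range] at hx
    rw [show V m * (U 1 * Gk V p (p + 2) * (DB U V p E O x * GB U p x)) =
      (DB U V p E O x * (V m * Gk V p (p + 2))) * (U 1 * GB U p x) by ring,
      V_Gk (k := k) hV (by omega) h1 h2, U_mul_GB hU, DB, mul_smul_comm, add_mul, LV_mon hV,
      zero_add, smul_mul_assoc, mul_right_comm, LU_Gb hU _ hx, smul_mul_assoc, smul_smul]
  rw [add_smul, ← e1, ← e2, ← mul_add, hrel, mul_zero]

theorem rel_U (hU : ∀ s, U s * U s = 0) (hV : ∀ s, V s * V s = 0)
    (hnd : ∀ c : k, c • (mon U 1 (p + 4) * mon V 1 (p + 3)) = 0 → c = 0)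
    (hrel : (∑ x ∈ range (p + 3), DK U V p E O x * GK U V p x) * ∏ x ∈ range (p + 3), BB U p x +
      (∏ x ∈ range (p + 3), KK U V p x) * ∑ x ∈ range (p + 3), DB U V p E O x * GB U p x = 0)
    {m : ℕ} (h1 : 2 ≤ m) (h2 : m ≤ p + 4) :
    (if m = p + 4 then (0 : k) else -2) * theta p E +
      ∑ x ∈ range (p + 3), qu k p x m * XX p O (p + 2) x = 0 := by
  apply hnd
  have e1 : U m * ((∑ x ∈ range (p + 3), DK U V p E O x * GK U V p x) *
      ∏ x ∈ range (p + 3), BB U p x) =
      ((if m = p + 4 then (0 : k) else -2) * theta p E) • (mon U 1 (p + 4) * mon V 1 (p + 3)) := by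
    rw [mul_left_comm, U_BB (k := k) hU h1 h2, mul_smul_comm, mul_smul, Finset.sum_mul]
    congr 1
    rw [theta, Finset.sum_smul]
    refine Finset.sum_congr rfl fun x hx => ?_
    rw [mem_range] at hx
    have h3 : GK U V p x * mon U 1 (p + 4) = Gk V p x * mon U 1 (p + 4) := by
      rw [← mon_U_succ]
      linear_combination (mon U 2 (p + 3)) * U_mul_GK (V := V) (p := p) hU x
    rw [mul_assoc, h3, DK, add_mul, ← mul_assoc, LV_Gk hV _ hx, mul_left_comm (LU U p _), LU_mon hU,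
      mul_zero, add_zero, smul_mul_assoc, mul_comm (mon V 1 (p + 3))]
  have e2 : U m * ((∏ x ∈ range (p + 3), KK U V p x) *
      ∑ x ∈ range (p + 3), DB U V p E O x * GB U p x) =
      (∑ x ∈ range (p + 3), qu k p x m * XX p O (p + 2) x) •
        (mon U 1 (p + 4) * mon V 1 (p + 3)) := by
    rw [prod_KK hU hV, Finset.mul_sum, Finset.mul_sum, Finset.sum_smul]
    refine Finset.sum_congr rfl fun x hx => ?_
    rw [mem_range] at hx
    rw [show U m * (U 1 * Gk V p (p + 2) * (DB U V p E O x * GB U p x)) =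
      (DB U V p E O x * Gk V p (p + 2)) * (U m * (U 1 * GB U p x)) by ring,
      U_mul_GB hU, U_Gb (k := k) hU hx h1 h2, DB, add_mul, LV_Gk hV _ (by omega), mul_smul_comm,
      add_mul, smul_mul_assoc, mul_right_comm (LU U p _), LU_mon hU, zero_mul, add_zero,
      smul_smul, mul_comm (mon V 1 (p + 3)), XX]
  rw [add_smul, ← e1, ← e2, ← mul_add, hrel, mul_zero]

/-- The second order term. -/
theorem second (hU : ∀ s, U s * U s = 0) (hV : ∀ s, V s * V s = 0) :
    U 1 * ((∑ x ∈ range (p + 3), DK U V p E O x * GK U V p x) *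
      ∑ y ∈ range (p + 3), DB U V p E O y * GB U p y) =
      (theta p E * Om p E + ∑ x ∈ range (p + 3), ∑ y ∈ range (p + 3),
        XX p O x y * YY' p O x y) • (mon U 1 (p + 4) * mon V 1 (p + 3)) := by
  rw [Finset.sum_mul_sum, theta, Om, Finset.sum_mul_sum, ← Finset.sum_add_distrib, Finset.mul_sum,
    Finset.sum_smul]
  refine Finset.sum_congr rfl fun x hx => ?_
  rw [← Finset.sum_add_distrib, Finset.mul_sum, Finset.sum_smul]
  refine Finset.sum_congr rfl fun y hy => ?_
  rw [mem_range] at hx hy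
  have a1 := LV_Gk (V := V) hV (fun l => E (p + 2 - x + l)) hx
  have a2 := LV_Gk (V := V) hV (fun l => O (p + 3 - y + l)) hx
  have b1 := LU_Gb (U := U) hU (fun l => E (p + 2 - y + l)) hy
  have b2 := LU_Gb (U := U) hU (fun l => O (p + 2 - x + l)) hy
  have c1 := LV_mon (V := V) (p := p) hV (fun l => O (p + 3 - y + l))
  have c2 := LU_mon (U := U) (p := p) hU (fun l => O (p + 2 - x + l))
  have d1 := U_mul_GK (V := V) (p := p) hU x
  have d2 := U_mul_GB (p := p) hU y
  rw [XX, YY', DK, DB]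
  simp only [Algebra.smul_def, map_add, map_mul] at a1 a2 b1 b2 ⊢
  set c11 := algebraMap k A (∑ l ∈ range (p + 3), E (p + 2 - x + l) * pv k x (l + 1))
  set c12 := algebraMap k A (∑ l ∈ range (p + 3), O (p + 3 - y + l) * pv k x (l + 1))
  set c21 := algebraMap k A (∑ l ∈ range (p + 3), E (p + 2 - y + (l + 1)) * qu k p y (l + 2))
  set c22 := algebraMap k A (∑ l ∈ range (p + 3), O (p + 2 - x + (l + 1)) * qu k p y (l + 2))
  set LVE := LV V p (fun l => E (p + 2 - x + l))
  set LVO := LV V p (fun l => O (p + 3 - y + l))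
  set LUE := LU U p (fun l => E (p + 2 - y + l))
  set LUO := LU U p (fun l => O (p + 2 - x + l))
  have f1 : U 1 * ((LVE + LUO) * GK U V p x * ((LVO + LUE) * GB U p y)) =
      (LVE + LUO) * (LVO + LUE) * (Gk V p x * (U 1 * Gb U p y)) := by
    linear_combination (LVE + LUO) * (LVO + LUE) * (GB U p y) * d1 +
      (LVE + LUO) * (LVO + LUE) * (Gk V p x) * d2
  rw [f1]
  linear_combination (LVO + LUE) * (U 1 * Gb U p y) * a1 + c11 * (U 1 * Gb U p y) * c1 +
    c11 * mon V 1 (p + 3) * b1 + LUO * (U 1 * Gb U p y) * a2 + c12 * mon V 1 (p + 3) * b2 +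
    LUO * Gk V p x * b1 + c21 * Gk V p x * c2
end rel

end Even

end Pool.Agent.HankelPerm
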