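import Pool.Agent.HankelPerm.EvenElim

/-!
The value of the second order term.
-/

namespace Pool.Agent.HankelPerm

open Finset

namespace Even

variable {k : Type*} [Field k] {p : ℕ} {E O : ℕ → k}

/-- A term of a sum. -/
def pick (c n s : ℕ) (f : ℕ → k) : k := if c ≤ s ∧ s < c + n then f (s - c) else 0

theorem sum_pick (c n s : ℕ) (f : ℕ → k) :
    ∑ l ∈ range n, (if c + l = s then 1 else 0) * f l = pick c n s f := by
  rw [pick]
  by_cases h : c ≤ s ∧ s < c + n
  · rw [if_pos h, Finset.sum_eq_single (s - c)]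
    · rw [if_pos (by omega), one_mul]
    · intro l _ hl
      rw [if_neg (by omega), zero_mul]
    · intro h'; exact absurd (mem_range.mpr (by omega)) h'
  · rw [if_neg h]
    refine Finset.sum_eq_zero fun l hl => ?_
    rw [mem_range] at hl
    rw [if_neg (by omega), zero_mul]

theorem Sol.O_eq (S : Sol p E O) {s : ℕ} (hs : s ≤ 2 * p + 5) :
    O s = E 0 * (-2 * (if s = 1 then 1 else 0) + (if s = p + 2 then 1 else 0) -
      (if s = p + 3 then 1 else 0) + (if s = 2 * p + 4 then 1 else 0) +
      (if s = 2 * p + 5 then 1 else 0)) := by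
  by_cases h1 : s = 1
  · subst h1
    rw [S.o1, if_pos rfl, if_neg (by omega), if_neg (by omega), if_neg (by omega),
      if_neg (by omega)]
    ring
  rw [if_neg h1]
  by_cases h2 : s = p + 2
  · subst h2
    rw [S.o2, if_pos rfl, if_neg (by omega), if_neg (by omega), if_neg (by omega)]
    ring
  rw [if_neg h2]
  by_cases h3 : s = p + 3
  · subst h3
    rw [S.o3, if_pos rfl, if_neg (by omega), if_neg (by omega)]
    ring
  rw [if_neg h3]
  by_cases h4 : s = 2 * p + 4
  · subst h4
    rw [S.o4, if_pos rfl, if_neg (by omega)]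
    ring
  rw [if_neg h4]
  by_cases h5 : s = 2 * p + 5
  · subst h5
    rw [S.o5, if_pos rfl]
    ring
  rw [if_neg h5]
  have h6 : O s = 0 := by
    rcases Nat.eq_zero_or_pos s with h | h
    · rw [h]; exact S.o0
    · rcases Nat.lt_or_ge s (p + 2) with h' | h'
      · exact S.oz s (by omega) (by omega)
      · exact S.oy s (by omega) (by omega)
  rw [h6]; ring

theorem Sol.sum_eq (S : Sol p E O) {c n : ℕ} (hc : c + n ≤ 2 * p + 6) (f : ℕ → k) :
    ∑ l ∈ range n, O (c + l) * f l = E 0 * (-2 * pick c n 1 f + pick c n (p + 2) f -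
      pick c n (p + 3) f + pick c n (2 * p + 4) f + pick c n (2 * p + 5) f) := by
  simp only [← sum_pick]
  rw [Finset.mul_sum, ← Finset.sum_add_distrib, ← Finset.sum_sub_distrib,
    ← Finset.sum_add_distrib, ← Finset.sum_add_distrib, Finset.mul_sum]
  refine Finset.sum_congr rfl fun l hl => ?_
  rw [mem_range] at hl
  rw [S.O_eq (by omega)]
  ring

theorem pick_pos {c n s l : ℕ} (h1 : c + l = s) (h2 : l < n) (f : ℕ → k) : pick c n s f = f l := by
  rw [pick, if_pos (by omega)]
  congr 1; omega

theorem pick_neg {c n s : ℕ} (h : s < c ∨ c + n ≤ s) (f : ℕ → k) : pick c n s f = 0 := by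
  rw [pick, if_neg (by omega)]

theorem Sol.XX0 (S : Sol p E O) (x : ℕ) :
    XX p O x 0 = E 0 * (-pv k x 1 + pv k x (p + 2) + pv k x (p + 3)) := by
  rw [XX, S.sum_eq (by omega), pick_neg (by omega), pick_neg (by omega),
    pick_pos (l := 0) (by omega) (by omega), pick_pos (l := p + 1) (by omega) (by omega),
    pick_pos (l := p + 2) (by omega) (by omega)]
  ring

theorem Sol.XXm (S : Sol p E O) (x : ℕ) {y : ℕ} (h1 : 2 ≤ y) (h2 : y ≤ p + 1) :
    XX p O x y = E 0 * (pv k x y - pv k x (y + 1)) := by
  rw [XX, S.sum_eq (by omega), pick_neg (by omega),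
    pick_pos (l := y - 1) (by omega) (by omega), pick_pos (l := y) (by omega) (by omega),
    pick_neg (by omega), pick_neg (by omega), show y - 1 + 1 = y by omega]
  ring

theorem Sol.XX1 (S : Sol p E O) (x : ℕ) :
    XX p O x 1 = E 0 * (pv k x 1 - pv k x 2 + pv k x (p + 3)) := by
  rw [XX, S.sum_eq (by omega), pick_neg (by omega),
    pick_pos (l := 0) (by omega) (by omega), pick_pos (l := 1) (by omega) (by omega),
    pick_pos (l := p + 2) (by omega) (by omega), pick_neg (by omega)]
  ring

theorem Sol.XXl (S : Sol p E O) (x : ℕ) :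
    XX p O x (p + 2) = E 0 * (-2 * pv k x 1 + pv k x (p + 2) - pv k x (p + 3)) := by
  rw [XX, S.sum_eq (by omega), pick_pos (l := 0) (by omega) (by omega),
    pick_pos (l := p + 1) (by omega) (by omega), pick_pos (l := p + 2) (by omega) (by omega),
    pick_neg (by omega), pick_neg (by omega)]
  ring

theorem YY_shift (x y : ℕ) (hx : x ≤ p + 2) :
    YY' p O x y = ∑ l ∈ range (p + 3), O (p + 3 - x + l) * qu k p y (l + 2) := by
  rw [YY']
  refine Finset.sum_congr rfl fun l _ => ?_
  rw [show p + 2 - x + (l + 1) = p + 3 - x + l by omega]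

theorem Sol.YY0 (S : Sol p E O) (y : ℕ) :
    YY' p O 0 y = E 0 * (-qu k p y 2 + qu k p y (p + 3) + qu k p y (p + 4)) := by
  rw [YY_shift _ _ (by omega), S.sum_eq (by omega), pick_neg (by omega), pick_neg (by omega),
    pick_pos (l := 0) (by omega) (by omega), pick_pos (l := p + 1) (by omega) (by omega),
    pick_pos (l := p + 2) (by omega) (by omega)]
  ring

theorem Sol.YYm (S : Sol p E O) (y : ℕ) {x : ℕ} (h1 : 2 ≤ x) (h2 : x ≤ p + 1) :
    YY' p O x y = E 0 * (qu k p y (x + 1) - qu k p y (x + 2)) := by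
  rw [YY_shift _ _ (by omega), S.sum_eq (by omega), pick_neg (by omega),
    pick_pos (l := x - 1) (by omega) (by omega), pick_pos (l := x) (by omega) (by omega),
    pick_neg (by omega), pick_neg (by omega), show x - 1 + 2 = x + 1 by omega]
  ring

theorem Sol.YY1 (S : Sol p E O) (y : ℕ) :
    YY' p O 1 y = E 0 * (qu k p y 2 - qu k p y 3 + qu k p y (p + 4)) := by
  rw [YY_shift _ _ (by omega), S.sum_eq (by omega), pick_neg (by omega),
    pick_pos (l := 0) (by omega) (by omega), pick_pos (l := 1) (by omega) (by omega),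
    pick_pos (l := p + 2) (by omega) (by omega), pick_neg (by omega)]
  ring

theorem Sol.YYl (S : Sol p E O) (y : ℕ) :
    YY' p O (p + 2) y = E 0 * (-2 * qu k p y 2 + qu k p y (p + 3) - qu k p y (p + 4)) := by
  rw [YY_shift _ _ (by omega), S.sum_eq (by omega), pick_pos (l := 0) (by omega) (by omega),
    pick_pos (l := p + 1) (by omega) (by omega), pick_pos (l := p + 2) (by omega) (by omega),
    pick_neg (by omega), pick_neg (by omega)]
  ring

theorem split4 (f : ℕ → k) : ∑ x ∈ range (p + 3), f x =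
    f 0 + f 1 + (∑ x ∈ range p, f (x + 2)) + f (p + 2) := by
  rw [show p + 3 = p + 1 + 1 + 1 by ring, sum_range_succ, sum_range_succ', sum_range_succ']
  simp only [zero_add]
  ring

theorem pvp {x l : ℕ} (h : l ≤ x) : pv k x l = -1 := by rw [pv, if_pos h]
theorem pvn {x l : ℕ} (h : x < l) : pv k x l = 1 := by rw [pv, if_neg (by omega)]
theorem qup {x l : ℕ} (h : l ≤ x ∨ (x = 0 ∧ l = p + 4)) : qu k p x l = 1 := by rw [qu, if_pos h]
theorem qun {x l : ℕ} (h : x < l) (h' : x ≠ 0 ∨ l ≠ p + 4) : qu k p x l = -1 := by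
  rw [qu, if_neg (by omega)]

/-- The column `y = 0`. -/
theorem Sol.col0 (S : Sol p E O) :
    ∑ x ∈ range (p + 3), XX p O x 0 * YY' p O x 0 = 4 * E 0 ^ 2 := by
  rw [split4, S.XX0, S.XX0, S.XX0, S.YY0, S.YY1, S.YYl, Finset.sum_eq_zero]
  · rw [pvn (by omega), pvn (by omega), pvn (by omega), pvp (by omega), pvn (by omega),
      pvn (by omega), pvp (by omega), pvp (by omega), pvn (by omega),
      qun (by omega) (by omega), qun (l := p + 3) (by omega) (by omega), qup (by omega),
      qun (l := 3) (by omega) (by omega)]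
    ring
  · intro x hx
    rw [mem_range] at hx
    rw [S.YYm _ (by omega) (by omega), qun (by omega) (by omega), qun (by omega) (by omega)]
    ring

/-- The column `y = 1`. -/
theorem Sol.col1 (S : Sol p E O) :
    ∑ x ∈ range (p + 3), XX p O x 1 * YY' p O x 1 = 2 * E 0 ^ 2 := by
  rw [split4, S.XX1, S.XX1, S.XX1, S.YY0, S.YY1, S.YYl, Finset.sum_eq_zero]
  · rw [pvn (by omega), pvn (by omega), pvn (by omega), pvp (by omega), pvn (by omega),
      pvn (by omega), pvp (by omega), pvp (by omega), pvn (by omega),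
      qun (by omega) (by omega), qun (l := p + 3) (by omega) (by omega), qun (by omega) (by omega),
      qun (l := 3) (by omega) (by omega)]
    ring
  · intro x hx
    rw [mem_range] at hx
    rw [S.YYm _ (by omega) (by omega), qun (by omega) (by omega), qun (by omega) (by omega)]
    ring

/-- The middle columns. -/
theorem Sol.colm (S : Sol p E O) {y : ℕ} (h1 : 2 ≤ y) (h2 : y ≤ p + 1) :
    ∑ x ∈ range (p + 3), XX p O x y * YY' p O x y = 0 := by
  refine Finset.sum_eq_zero fun x hx => ?_
  rw [S.XXm x h1 h2, pv_sub]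
  by_cases h : x = y
  · subst h
    rw [S.YYm x h1 h2, qun (by omega) (by omega), qun (by omega) (by omega)]
    ring
  · rw [if_neg h]; ring

/-- The column `y = p + 2`. -/
theorem Sol.coll (S : Sol p E O) :
    ∑ x ∈ range (p + 3), XX p O x (p + 2) * YY' p O x (p + 2) = 8 * E 0 ^ 2 := by
  rw [split4, S.XXl, S.XXl, S.XXl, S.YY0, S.YY1, S.YYl]
  rw [pvn (by omega), pvn (by omega), pvn (by omega), pvp (x := 1) (by omega), pvn (by omega),
    pvn (by omega), pvp (x := p + 2) (l := 1) (by omega), pvp (x := p + 2) (by omega),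
    pvn (by omega), qup (by omega), qun (l := p + 3) (by omega) (by omega),
    qun (l := p + 4) (by omega) (by omega)]
  have h : ∀ x ∈ range p, XX p O (x + 2) (p + 2) * YY' p O (x + 2) (p + 2) =
      if x + 1 = p then 4 * E 0 ^ 2 else 0 := by
    intro x hx
    rw [mem_range] at hx
    rw [S.XXl, S.YYm _ (by omega) (by omega), pvp (by omega), pvn (by omega), pvn (by omega)]
    by_cases h : x + 1 = p
    · rw [if_pos h, qup (by omega), qun (by omega) (by omega)]
      ring
    · rw [if_neg h, qup (by omega), qup (by omega)]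
      ring
  rw [Finset.sum_congr rfl h]
  rcases Nat.eq_zero_or_pos p with h0 | h0
  · subst h0
    rw [qun (l := 3) (by omega) (by omega)]
    simp only [range_zero, sum_empty]
    ring
  · obtain ⟨p', rfl⟩ : ∃ p', p = p' + 1 := ⟨p - 1, by omega⟩
    rw [qup (l := 3) (by omega), sum_range_succ, Finset.sum_eq_zero, if_pos rfl]
    · ring
    · intro x hx
      rw [mem_range] at hx
      rw [if_neg (by omega)]

/-- The value of the second order term. -/
theorem Sol.value (S : Sol p E O) :
    theta p E * Om p E + ∑ x ∈ range (p + 3), ∑ y ∈ range (p + 3),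
      XX p O x y * YY' p O x y = 16 * E 0 ^ 2 := by
  rw [theta_eq S.ez, Om_eq S.ez, S.e5, Finset.sum_comm, split4 (p := p) (fun y =>
    ∑ x ∈ range (p + 3), XX p O x y * YY' p O x y), S.col0, S.col1, S.coll, Finset.sum_eq_zero]
  · ring
  · intro y hy
    rw [mem_range] at hy
    exact S.colm (by omega) (by omega)

end Even

end Pool.Agent.HankelPerm
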