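import Mathlib

/-!
Products of linear forms along paths and cycles, in a commutative ring with variables of square
zero.
-/

namespace Pool.Agent.HankelPerm

open Finset

section path

variable {A : Type*} [CommRing A]

/-- The product of the edges of the path `a, a + 1, ..., a + l`. -/
def pth (v : ℕ → A) (a l : ℕ) : A := ∏ x ∈ range l, (v (a + x) + v (a + x + 1))

/-- The product of the variables `a, ..., a + l - 1`. -/
def mon (v : ℕ → A) (a l : ℕ) : A := ∏ x ∈ range l, v (a + x)

variable {v : ℕ → A}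

theorem pth_zero (a : ℕ) : pth v a 0 = 1 := by simp [pth]

theorem mon_zero (a : ℕ) : mon v a 0 = 1 := by simp [mon]

theorem mon_one (a : ℕ) : mon v a 1 = v a := by simp [mon]

theorem pth_succ (a l : ℕ) : pth v a (l + 1) = pth v a l * (v (a + l) + v (a + l + 1)) := by
  rw [pth, prod_range_succ, pth]

theorem mon_succ (a l : ℕ) : mon v a (l + 1) = mon v a l * v (a + l) := by
  rw [mon, prod_range_succ, mon]

theorem mon_add (a l m : ℕ) : mon v a l * mon v (a + l) m = mon v a (l + m) := by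
  induction m with
  | zero => simp [mon_zero]
  | succ m ih => rw [mon_succ, ← mul_assoc, ih, ← add_assoc, mon_succ, add_assoc]

theorem mul_mon (hv : ∀ s, v s * v s = 0) {s a l : ℕ} (h1 : a ≤ s) (h2 : s < a + l) :
    v s * mon v a l = 0 := by
  have h3 : s - a ∈ range l := by rw [mem_range]; omega
  rw [mon, ← Finset.mul_prod_erase _ _ h3, show a + (s - a) = s by omega, ← mul_assoc, hv,
    zero_mul]

theorem mul_pth (hv : ∀ s, v s * v s = 0) {s a l : ℕ} (h1 : a ≤ s) (h2 : s ≤ a + l) :
    v s * pth v a l = mon v a (l + 1) := by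
  induction l with
  | zero =>
    have : s = a := by omega
    subst this
    simp [pth_zero, mon_one]
  | succ l ih =>
    rcases Nat.lt_or_ge (a + l) s with h | h
    · have hs : s = a + l + 1 := by omega
      subst hs
      have h3 : v (a + l) * pth v a l = mon v a (l + 1) := by
        clear ih
        induction l with
        | zero => simp [pth_zero, mon_one]
        | succ l ih2 =>
          have h4 := ih2 (by omega) (by omega) (by omega)
          rw [pth_succ]
          have h5 : v (a + l) * mon v a (l + 1) = 0 := mul_mon hv (by omega) (by omega)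
          have e1 : mon v a (l + 1 + 1) = mon v a (l + 1) * v (a + l + 1) := by
            rw [mon_succ]; rfl
          rw [e1, ← h4]
          have h6 := hv (a + l + 1)
          rw [show a + (l + 1) = a + l + 1 by ring]
          linear_combination (pth v a l) * h6
      rw [pth_succ, show a + l + 1 = a + (l + 1) by ring, mon_succ, ← h3]
      linear_combination (pth v a l) * hv (a + (l + 1))
    · rw [pth_succ, ← mul_assoc, ih h, mul_add]
      have h5 : v (a + l) * mon v a (l + 1) = 0 := mul_mon hv (by omega) (by omega)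
      rw [mul_comm _ (v (a + l)), h5, zero_add, mon_succ a (l + 1)]
      rfl

end path

section cyc

variable {A : Type*} [CommRing A] (v : ℕ → A) (p : ℕ)

/-- The rows of a class of `p + 2` rows and columns `0, ..., p + 2`. -/
def rwA (x : ℕ) : A :=
  if x = 0 then v 0 + v 1 - v (p + 2) else
    if x = p + 1 then v (p + 1) + v (p + 2) - v 0 else v x + v (x + 1)

/-- The product of all rows but `x`. -/
def GA (x : ℕ) : A := ∏ x' ∈ (range (p + 2)).erase x, rwA v p x'

variable {v} {p}

theorem rwA_zero : rwA v p 0 = v 0 + v 1 - v (p + 2) := by simp [rwA]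

theorem rwA_last : rwA v p (p + 1) = v (p + 1) + v (p + 2) - v 0 := by simp [rwA]

theorem rwA_mid {x : ℕ} (h1 : 1 ≤ x) (h2 : x ≤ p) : rwA v p x = v x + v (x + 1) := by
  rw [rwA, if_neg (by omega), if_neg (by omega)]

theorem prod_rwA_mid : ∏ x ∈ range p, rwA v p (x + 1) = pth v 1 p := by
  rw [pth]
  refine Finset.prod_congr rfl fun x hx => ?_
  rw [mem_range] at hx
  rw [rwA_mid (by omega) (by omega), add_comm 1 x]

theorem rwA_mul_GA {x : ℕ} (hx : x < p + 2) : rwA v p x * GA v p x =
    ∏ x' ∈ range (p + 2), rwA v p x' := by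
  rw [GA, Finset.mul_prod_erase _ _ (mem_range.mpr hx)]

theorem erase_zero_range (n : ℕ) : (range (n + 1)).erase 0 = (range n).map (addRightEmbedding 1) := by
  ext x
  simp only [mem_erase, mem_range, mem_map, addRightEmbedding_apply]
  constructor
  · rintro ⟨h1, h2⟩; exact ⟨x - 1, by omega, by omega⟩
  · rintro ⟨y, h1, rfl⟩; omega

theorem GA_zero : GA v p 0 = pth v 1 p * (v (p + 1) + v (p + 2) - v 0) := by
  rw [GA, show p + 2 = p + 1 + 1 by ring, erase_zero_range, Finset.prod_map,
    prod_range_succ]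
  simp only [addRightEmbedding_apply]
  rw [prod_rwA_mid, rwA_last]

theorem GA_last : GA v p (p + 1) = (v 0 + v 1 - v (p + 2)) * pth v 1 p := by
  have h : (range (p + 2)).erase (p + 1) = range (p + 1) := by
    ext x; simp only [mem_erase, mem_range]; omega
  rw [GA, h, prod_range_succ', prod_rwA_mid, rwA_zero, mul_comm]

theorem GA_mid {j : ℕ} (hj : j < p) : GA v p (j + 1) = (v 0 + v 1 - v (p + 2)) *
    (pth v 1 j * pth v (j + 2) (p - (j + 1))) * (v (p + 1) + v (p + 2) - v 0) := by
  have h : (range (p + 2)).erase (j + 1) = insert 0 (insert (p + 1)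
      ((range j).map (addRightEmbedding 1) ∪ (range (p - (j + 1))).map
        (addRightEmbedding (j + 2)))) := by
    ext x
    simp only [mem_erase, mem_range, mem_insert, mem_union, mem_map, addRightEmbedding_apply]
    constructor
    · rintro ⟨h1, h2⟩
      rcases Nat.eq_zero_or_pos x with h | h
      · exact Or.inl h
      rcases Nat.lt_trichotomy x (j + 1) with h3 | h3 | h3
      · exact Or.inr (Or.inr (Or.inl ⟨x - 1, by omega, by omega⟩))
      · omega
      · rcases Nat.lt_or_ge p x with h4 | h4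
        · exact Or.inr (Or.inl (by omega))
        · exact Or.inr (Or.inr (Or.inr ⟨x - (j + 2), by omega, by omega⟩))
    · rintro (rfl | rfl | ⟨y, h1, rfl⟩ | ⟨y, h1, rfl⟩) <;> omega
  rw [GA, h, Finset.prod_insert, Finset.prod_insert, Finset.prod_union, Finset.prod_map,
    Finset.prod_map, rwA_zero, rwA_last]
  · have e1 : ∏ x ∈ range j, rwA v p (addRightEmbedding 1 x) = pth v 1 j := by
      rw [pth]
      refine Finset.prod_congr rfl fun x hx => ?_
      rw [mem_range] at hx
      rw [addRightEmbedding_apply, rwA_mid (by omega) (by omega), add_comm 1 x]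
    have e2 : ∏ x ∈ range (p - (j + 1)), rwA v p (addRightEmbedding (j + 2) x) =
        pth v (j + 2) (p - (j + 1)) := by
      rw [pth]
      refine Finset.prod_congr rfl fun x hx => ?_
      rw [mem_range] at hx
      rw [addRightEmbedding_apply, rwA_mid (by omega) (by omega), add_comm (j + 2) x]
    rw [e1, e2]
    ring
  · rw [Finset.disjoint_left]
    intro x hx hx'
    simp only [mem_map, mem_range, addRightEmbedding_apply] at hx hx'
    obtain ⟨y, h1, rfl⟩ := hx
    obtain ⟨z, h2, h3⟩ := hx'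
    omega
  · simp only [mem_union, mem_map, mem_range, addRightEmbedding_apply, not_or, not_exists, not_and]
    constructor
    · intro y hy; omega
    · intro y hy; omega
  · simp only [mem_insert, mem_union, mem_map, mem_range, addRightEmbedding_apply, not_or,
      not_exists, not_and]
    refine ⟨by omega, ?_, ?_⟩
    · intro y hy; omega
    · intro y hy; omega

variable (hv : ∀ s, v s * v s = 0)

include hv

/-- The product of all rows. -/
theorem prod_rwA : ∏ x ∈ range (p + 2), rwA v p x = 2 * (v 0 * v (p + 2) * pth v 1 p) := by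
  rw [← rwA_mul_GA (show 0 < p + 2 by omega), rwA_zero, GA_zero]
  have h1 : v 1 * pth v 1 p = mon v 1 (p + 1) := mul_pth hv le_rfl (by omega)
  have h2 : v (p + 1) * pth v 1 p = mon v 1 (p + 1) := mul_pth hv (by omega) (by omega)
  have h3 : v 1 * mon v 1 (p + 1) = 0 := mul_mon hv le_rfl (by omega)
  have h4 := hv 0
  have h5 := hv (p + 2)
  linear_combination (v 0 + v 1 - v (p + 2)) * h2 + (v (p + 2) - v 0) * h1 +
    h3 - pth v 1 p * h4 - pth v 1 p * h5

/-- Multiplying by an element which kills `v 0` and `v (p + 2)`. -/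
theorem mul_GA {X : A} (hX0 : X * v 0 = 0) (hXT : X * v (p + 2) = 0) {x : ℕ} (hx : x < p + 2) :
    X * GA v p x = X * mon v 1 (p + 1) := by
  rcases Nat.eq_zero_or_pos x with h | h
  · subst h
    have h2 : v (p + 1) * pth v 1 p = mon v 1 (p + 1) := mul_pth hv (by omega) (by omega)
    rw [GA_zero]
    linear_combination X * h2 + pth v 1 p * hXT - pth v 1 p * hX0
  rcases Nat.lt_or_ge p x with h' | h'
  · have : x = p + 1 := by omega
    subst this
    have h1 : v 1 * pth v 1 p = mon v 1 (p + 1) := mul_pth hv le_rfl (by omega)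
    rw [GA_last]
    linear_combination X * h1 - pth v 1 p * hXT + pth v 1 p * hX0
  · obtain ⟨j, rfl⟩ : ∃ j, x = j + 1 := ⟨x - 1, by omega⟩
    rw [GA_mid (by omega)]
    have h1 : v 1 * pth v 1 j = mon v 1 (j + 1) := mul_pth hv le_rfl (by omega)
    have h2 : v (p + 1) * pth v (j + 2) (p - (j + 1)) = mon v (j + 2) (p - (j + 1) + 1) :=
      mul_pth hv (by omega) (by omega)
    have h3 : mon v 1 (j + 1) * mon v (j + 2) (p - (j + 1) + 1) = mon v 1 (p + 1) := by
      have := mon_add (v := v) 1 (j + 1) (p - (j + 1) + 1)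
      rw [show 1 + (j + 1) = j + 2 by ring, show j + 1 + (p - (j + 1) + 1) = p + 1 by omega]
        at this
      exact this
    rw [← h3, ← h1, ← h2]
    linear_combination (pth v 1 j * pth v (j + 2) (p - (j + 1))) *
      ((v (p + 1) + v (p + 2) - v 0) * (hX0 - hXT) + v 1 * (hXT - hX0))

/-- The first multiplier. -/
theorem LA_Φ : v 0 * (2 * (v 0 * v (p + 2) * pth v 1 p)) = 0 := by
  linear_combination (2 * v (p + 2) * pth v 1 p) * hv 0

theorem HA_Φ : (v 0 + v (p + 1)) * (2 * (v 0 * v (p + 2) * pth v 1 p)) =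
    2 * (v 0 * v (p + 2) * mon v 1 (p + 1)) := by
  have h2 : v (p + 1) * pth v 1 p = mon v 1 (p + 1) := mul_pth hv (by omega) (by omega)
  linear_combination (2 * v (p + 2) * pth v 1 p) * hv 0 + (2 * v 0 * v (p + 2)) * h2

theorem HA_GA {x : ℕ} (hx : x ≤ p) :
    (v 0 + v (p + 1)) * (v (p + 2) * GA v p x) = 0 := by
  have h1 : GA v p x = rwA v p (p + 1) * ∏ x' ∈ ((range (p + 2)).erase x).erase (p + 1),
      rwA v p x' := by
    rw [GA, Finset.mul_prod_erase]
    rw [mem_erase, mem_range]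
    omega
  rw [h1, rwA_last]
  linear_combination (∏ x' ∈ ((range (p + 2)).erase x).erase (p + 1), rwA v p x') *
    ((v 0 + v (p + 1)) * hv (p + 2) + v (p + 2) * hv (p + 1) - v (p + 2) * hv 0)

theorem HA_GA_last : (v 0 + v (p + 1)) * (v (p + 2) * GA v p (p + 1)) =
    2 * (v 0 * v (p + 2) * mon v 1 (p + 1)) := by
  rw [GA_last]
  have h1 : v 1 * pth v 1 p = mon v 1 (p + 1) := mul_pth hv le_rfl (by omega)
  have h2 : v (p + 1) * pth v 1 p = mon v 1 (p + 1) := mul_pth hv (by omega) (by omega)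
  have h3 : v 1 * mon v 1 (p + 1) = 0 := mul_mon hv le_rfl (by omega)
  linear_combination (-(v 0 + v (p + 1)) * pth v 1 p) * hv (p + 2) + v (p + 2) * pth v 1 p * hv 0 +
    v (p + 2) * v 0 * h1 + v (p + 2) * (v 0 + v 1) * h2 + v (p + 2) * h3

/-- The middle multiplier kills the row `x`. -/
theorem mid_rwA {x : ℕ} (h1 : 1 ≤ x) (h2 : x ≤ p) : (v x - v (x + 1)) * rwA v p x = 0 := by
  rw [rwA_mid h1 h2]
  linear_combination hv x - hv (x + 1)

theorem mid_GA {x x' : ℕ} (h1 : 1 ≤ x) (h2 : x ≤ p) (hne : x' ≠ x) :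
    (v x - v (x + 1)) * GA v p x' = 0 := by
  have h3 : GA v p x' = rwA v p x * ∏ y ∈ ((range (p + 2)).erase x').erase x, rwA v p y := by
    rw [GA, Finset.mul_prod_erase]
    rw [mem_erase, mem_range]
    omega
  rw [h3, ← mul_assoc, mid_rwA hv h1 h2, zero_mul]

theorem mid_GA_self {x : ℕ} (h1 : 1 ≤ x) (h2 : x ≤ p) :
    (v x - v (x + 1)) * (v (p + 2) * GA v p x) = 2 * (v 0 * v (p + 2) * mon v 1 (p + 1)) := by
  obtain ⟨j, rfl⟩ : ∃ j, x = j + 1 := ⟨x - 1, by omega⟩
  rw [GA_mid (by omega)]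
  have a1 : v 1 * pth v 1 j = mon v 1 (j + 1) := mul_pth hv le_rfl (by omega)
  have a2 : v (p + 1) * pth v (j + 2) (p - (j + 1)) = mon v (j + 2) (p - (j + 1) + 1) :=
    mul_pth hv (by omega) (by omega)
  have a3 : v (j + 1) * pth v 1 j = mon v 1 (j + 1) := mul_pth hv (by omega) (by omega)
  have a4 : v (j + 2) * pth v (j + 2) (p - (j + 1)) = mon v (j + 2) (p - (j + 1) + 1) :=
    mul_pth hv (by omega) (by omega)
  have a5 : v 1 * mon v 1 (j + 1) = 0 := mul_mon hv le_rfl (by omega)
  have a6 : v (p + 1) * mon v (j + 2) (p - (j + 1) + 1) = 0 := mul_mon hv (by omega) (by omega)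
  have a7 : mon v 1 (j + 1) * mon v (j + 2) (p - (j + 1) + 1) = mon v 1 (p + 1) := by
    have := mon_add (v := v) 1 (j + 1) (p - (j + 1) + 1)
    rw [show 1 + (j + 1) = j + 2 by ring, show j + 1 + (p - (j + 1) + 1) = p + 1 by omega]
      at this
    exact this
  set P1 := pth v 1 j
  set P2 := pth v (j + 2) (p - (j + 1))
  set M1 := mon v 1 (j + 1)
  set M2 := mon v (j + 2) (p - (j + 1) + 1)
  rw [← a7, show j + 1 + 1 = j + 2 by ring]
  have b1 : (v (j + 1) - v (j + 2)) * (P1 * P2) = M1 * P2 - P1 * M2 := by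
    linear_combination P2 * a3 - P1 * a4
  have b2 : v (p + 2) * (v 0 + v 1 - v (p + 2)) * (v (p + 1) + v (p + 2) - v 0) =
      v (p + 2) * (v 0 + v 1) * (v (p + 1) - v 0) := by
    linear_combination (v 0 + v 1 - v (p + 2) - (v (p + 1) - v 0)) * hv (p + 2)
  calc (v (j + 1) - v (j + 2)) * (v (p + 2) * ((v 0 + v 1 - v (p + 2)) * (P1 * P2) *
        (v (p + 1) + v (p + 2) - v 0)))
      = ((v (j + 1) - v (j + 2)) * (P1 * P2)) *
        (v (p + 2) * (v 0 + v 1 - v (p + 2)) * (v (p + 1) + v (p + 2) - v 0)) := by ring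
    _ = (M1 * P2 - P1 * M2) * (v (p + 2) * (v 0 + v 1) * (v (p + 1) - v 0)) := by rw [b1, b2]
    _ = 2 * (v 0 * v (p + 2) * (M1 * M2)) := by
      linear_combination v (p + 2) * ((v 0 * M1) * a2 + P2 * (v (p + 1) - v 0) * a5 -
        M1 * P2 * hv 0 - P1 * (v 0 + v 1) * a6 + v 0 * M2 * a1 + P1 * M2 * hv 0)

/-! Weights. -/

theorem wt_Φ_zero : v 0 * (2 * (v 0 * v (p + 2) * pth v 1 p)) = 0 := LA_Φ hv

theorem wt_Φ_last : v (p + 2) * (2 * (v 0 * v (p + 2) * pth v 1 p)) = 0 := by
  linear_combination (2 * v 0 * pth v 1 p) * hv (p + 2)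

theorem wt_Φ_mid {s : ℕ} (h1 : 1 ≤ s) (h2 : s ≤ p + 1) :
    v s * (2 * (v 0 * v (p + 2) * pth v 1 p)) = 2 * (v 0 * v (p + 2) * mon v 1 (p + 1)) := by
  have h3 : v s * pth v 1 p = mon v 1 (p + 1) := mul_pth hv h1 (by omega)
  linear_combination (2 * v 0 * v (p + 2)) * h3

theorem wt_f_zero : v 0 * (v (p + 2) * GA v p 0) = v 0 * v (p + 2) * mon v 1 (p + 1) := by
  rw [← mul_assoc]
  exact mul_GA hv (by linear_combination v (p + 2) * hv 0) (by linear_combination v 0 * hv (p + 2))
    (by omega)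

theorem wt_f_last (x : ℕ) : v (p + 2) * (v (p + 2) * GA v p x) = 0 := by
  linear_combination GA v p x * hv (p + 2)

theorem wt_f_mid {s : ℕ} (h1 : 1 ≤ s) (h2 : s ≤ p + 1) :
    v s * (v (p + 2) * GA v p 0) = - (v 0 * v (p + 2) * mon v 1 (p + 1)) := by
  have h3 : v s * pth v 1 p = mon v 1 (p + 1) := mul_pth hv h1 (by omega)
  have h4 : v (p + 1) * mon v 1 (p + 1) = 0 := mul_mon hv (by omega) (by omega)
  rw [GA_zero]
  linear_combination (v (p + 2) * (v (p + 1) + v (p + 2) - v 0)) * h3 + v (p + 2) * h4 +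
    mon v 1 (p + 1) * hv (p + 2)

variable (h0 : v 0 = 0)

include h0

theorem wt0_mid {s : ℕ} (h1 : 1 ≤ s) (h2 : s ≤ p + 2) :
    v s * GA v p 0 = v (p + 2) * mon v 1 (p + 1) := by
  have h4 : v (p + 1) * mon v 1 (p + 1) = 0 := mul_mon hv (by omega) (by omega)
  have h5 : v (p + 1) * pth v 1 p = mon v 1 (p + 1) := mul_pth hv (by omega) (by omega)
  rw [GA_zero, h0]
  rcases Nat.lt_or_ge s (p + 2) with h | h
  · have h3 : v s * pth v 1 p = mon v 1 (p + 1) := mul_pth hv h1 (by omega)
    linear_combination (v (p + 1) + v (p + 2)) * h3 + h4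
  · have : s = p + 2 := by omega
    subst this
    linear_combination v (p + 2) * h5 + pth v 1 p * hv (p + 2)

theorem L0_GA {x : ℕ} (hx : x < p + 2) : v (p + 2) * GA v p x = v (p + 2) * mon v 1 (p + 1) :=
  mul_GA hv (by rw [h0, mul_zero]) (hv _) hx

theorem mid0_rwA {x : ℕ} (h1 : 1 ≤ x) (h2 : x ≤ p + 1) : (v x - v (x + 1)) * rwA v p x = 0 := by
  rcases Nat.lt_or_ge p x with h | h
  · have : x = p + 1 := by omega
    subst this
    rw [rwA_last, h0]
    linear_combination hv (p + 1) - hv (p + 2)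
  · exact mid_rwA hv h1 h

theorem mid0_GA {x x' : ℕ} (h1 : 1 ≤ x) (h2 : x ≤ p + 1) (hne : x' ≠ x) :
    (v x - v (x + 1)) * GA v p x' = 0 := by
  have h3 : GA v p x' = rwA v p x * ∏ y ∈ ((range (p + 2)).erase x').erase x, rwA v p y := by
    rw [GA, Finset.mul_prod_erase]
    rw [mem_erase, mem_range]
    omega
  rw [h3, ← mul_assoc, mid0_rwA hv h0 h1 h2, zero_mul]

theorem mid0_GA_self {x : ℕ} (h1 : 1 ≤ x) (h2 : x ≤ p + 1) :
    (v x - v (x + 1)) * GA v p x = - (2 * (v (p + 2) * mon v 1 (p + 1))) := by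
  have c1 : v 1 * pth v 1 p = mon v 1 (p + 1) := mul_pth hv le_rfl (by omega)
  have c2 : v (p + 1) * pth v 1 p = mon v 1 (p + 1) := mul_pth hv (by omega) (by omega)
  have c3 : v 1 * mon v 1 (p + 1) = 0 := mul_mon hv le_rfl (by omega)
  rcases Nat.lt_or_ge p x with h | h
  · have : x = p + 1 := by omega
    subst this
    rw [GA_last, h0]
    linear_combination (v 1 - 2 * v (p + 2)) * c2 + v (p + 2) * (c2 - c1) + c3 +
      pth v 1 p * hv (p + 2)
  · obtain ⟨j, rfl⟩ : ∃ j, x = j + 1 := ⟨x - 1, by omega⟩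
    rw [GA_mid (by omega), h0]
    have a1 : v 1 * pth v 1 j = mon v 1 (j + 1) := mul_pth hv le_rfl (by omega)
    have a2 : v (p + 1) * pth v (j + 2) (p - (j + 1)) = mon v (j + 2) (p - (j + 1) + 1) :=
      mul_pth hv (by omega) (by omega)
    have a3 : v (j + 1) * pth v 1 j = mon v 1 (j + 1) := mul_pth hv (by omega) (by omega)
    have a4 : v (j + 2) * pth v (j + 2) (p - (j + 1)) = mon v (j + 2) (p - (j + 1) + 1) :=
      mul_pth hv (by omega) (by omega)
    have a5 : v 1 * mon v 1 (j + 1) = 0 := mul_mon hv le_rfl (by omega)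
    have a6 : v (p + 1) * mon v (j + 2) (p - (j + 1) + 1) = 0 :=
      mul_mon hv (by omega) (by omega)
    have a7 : mon v 1 (j + 1) * mon v (j + 2) (p - (j + 1) + 1) = mon v 1 (p + 1) := by
      have := mon_add (v := v) 1 (j + 1) (p - (j + 1) + 1)
      rw [show 1 + (j + 1) = j + 2 by ring, show j + 1 + (p - (j + 1) + 1) = p + 1 by omega]
        at this
      exact this
    set P1 := pth v 1 j
    set P2 := pth v (j + 2) (p - (j + 1))
    set M1 := mon v 1 (j + 1)
    set M2 := mon v (j + 2) (p - (j + 1) + 1)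
    rw [← a7, show j + 1 + 1 = j + 2 by ring]
    have b1 : (v (j + 1) - v (j + 2)) * (P1 * P2) = M1 * P2 - P1 * M2 := by
      linear_combination P2 * a3 - P1 * a4
    calc (v (j + 1) - v (j + 2)) * ((0 + v 1 - v (p + 2)) * (P1 * P2) *
          (v (p + 1) + v (p + 2) - 0))
        = ((v (j + 1) - v (j + 2)) * (P1 * P2)) *
          ((v 1 - v (p + 2)) * (v (p + 1) + v (p + 2))) := by ring
      _ = (M1 * P2 - P1 * M2) * ((v 1 - v (p + 2)) * (v (p + 1) + v (p + 2))) := by rw [b1]
      _ = - (2 * (v (p + 2) * (M1 * M2))) := by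
        linear_combination (P2 * (v (p + 1) + v (p + 2))) * a5 - v (p + 2) * M1 * a2 -
          M1 * P2 * hv (p + 2) - P1 * (v 1 - v (p + 2)) * a6 - v (p + 2) * M2 * a1 +
          P1 * M2 * hv (p + 2)

end cyc

end Pool.Agent.HankelPerm
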