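import Pool.Agent.HankelPerm.ChainRel
import Pool.Agent.HankelPerm.PathProd

/-!
The chain of the first link family.
-/

namespace Pool.Agent.HankelPerm

open Finset

theorem prod_link {A : Type*} [CommRing A] (s : Finset ℕ) (r : ℕ → A) (L : A) (h0 : 0 ∈ s) :
    ∏ x ∈ s, (r x + if x = 0 then L else 0) = ∏ x ∈ s, r x + L * ∏ x ∈ s.erase 0, r x := by
  rw [← Finset.mul_prod_erase s _ h0, ← Finset.mul_prod_erase s r h0, if_pos rfl]
  have : ∏ x ∈ s.erase 0, (r x + if x = 0 then L else 0) = ∏ x ∈ s.erase 0, r x := by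
    refine Finset.prod_congr rfl fun x hx => ?_
    rw [if_neg (Finset.ne_of_mem_erase hx), add_zero]
  rw [this]
  ring

theorem prod_link' {A : Type*} [CommRing A] (s : Finset ℕ) (r : ℕ → A) (L : A) (h0 : 0 ∉ s) :
    ∏ x ∈ s, (r x + if x = 0 then L else 0) = ∏ x ∈ s, r x := by
  refine Finset.prod_congr rfl fun x hx => ?_
  rw [if_neg (fun h : x = 0 => h0 (h ▸ hx)), add_zero]

namespace FamA

section

variable {A : Type*} [CommRing A] (Y : ℕ → A) (b p τ : ℕ)

/-- The variables of the class `i`. -/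
def vv (i s : ℕ) : A := Y (i + s * b)

/-- The rows. -/
def row (i x : ℕ) : A :=
  if i < τ then rwA (vv Y b i) p x + (if x = 0 then vv Y b (i + 1) (p + 2) else 0)
  else vv Y b i x + vv Y b i (x + 1)

/-- The number of rows. -/
def rho (i : ℕ) : ℕ := if i < τ then p + 2 else p + 1

/-- The link variables. -/
def TT (i : ℕ) : A := if i = 0 then 1 else vv Y b i (p + 2)

variable (hY : ∀ j, Y j * Y j = 0) (hY0 : Y 0 = 0) (hYn : ∀ j, (p + 2) * b + τ ≤ j → Y j = 0)
  (h2τ : 2 ≤ τ) (hτb : τ ≤ b)

include hY in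
theorem vv_sq (i s : ℕ) : vv Y b i s * vv Y b i s = 0 := hY _

include hY0 in
theorem vv_zero : vv Y b 0 0 = 0 := by simp [vv, hY0]

include hYn in
theorem vv_big {i : ℕ} (hi : τ ≤ i) : vv Y b i (p + 2) = 0 := hYn _ (by omega)

include hYn hτb in
theorem vv_big' (i : ℕ) : vv Y b i (p + 3) = 0 := by
  refine hYn _ ?_
  have : (p + 3) * b = (p + 2) * b + b := by ring
  omega

/-- The chain. -/
def chain : Chain A where
  b := b
  h := τ - 1
  hb := by omega
  ρ := rho p τ
  R := row Y b p τ
  T := TT Y b p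
  Φ := fun i => 2 * (vv Y b i 0 * vv Y b i (p + 2) * pth (vv Y b i) 1 p)
  f := fun i => TT Y b p i * GA (vv Y b i) p 0
  q := fun i x => TT Y b p i * GA (vv Y b i) p x
  hT0 := by simp [TT]
  hC := by
    intro g hg
    refine ⟨GA (vv Y b g) p 0, ?_, rfl⟩
    have h1 : g < τ := by omega
    simp only [rho, row, if_pos h1]
    rw [prod_link _ _ _ (by simp), prod_rwA (vv_sq Y b hY g)]
    simp only [TT, if_neg (Nat.succ_ne_zero g)]
    rfl
  hCh := by
    have h1 : τ - 1 < τ := by omega
    have h3 : vv Y b (τ - 1 + 1) (p + 2) = 0 := vv_big Y b p τ hYn (by omega)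
    simp only [rho, row, if_pos h1, h3]
    rw [prod_link _ _ _ (by simp), prod_rwA (vv_sq Y b hY (τ - 1)), zero_mul, add_zero]
  hTΦ := by
    intro g hg
    rcases Nat.eq_zero_or_pos g with h | h
    · subst h
      rw [vv_zero Y b hY0]
      ring
    · simp only [TT, if_neg (show g ≠ 0 by omega)]
      exact wt_Φ_last (vv_sq Y b hY g)
  hq := by
    intro g hg x hx
    have h1 : g < τ := by omega
    simp only [rho, row, if_pos h1] at hx ⊢
    rcases Nat.eq_zero_or_pos x with h | h
    · subst h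
      refine ⟨0, ?_⟩
      rw [prod_link' _ _ _ (by simp), mul_zero, add_zero]
      rfl
    · refine ⟨TT Y b p g * ∏ x' ∈ ((range (p + 2)).erase x).erase 0, rwA (vv Y b g) p x', ?_⟩
      rw [prod_link _ _ _ (by simp; omega)]
      simp only [TT, if_neg (Nat.succ_ne_zero g), GA]
      ring
  hqh := by
    intro x hx
    have h1 : τ - 1 < τ := by omega
    have h3 : vv Y b (τ - 1 + 1) (p + 2) = 0 := vv_big Y b p τ hYn (by omega)
    simp only [rho, row, if_pos h1, h3, ite_self, add_zero] at hx ⊢
    rfl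

end

section mult

variable {k A : Type*} [Field k] [CommRing A] [Algebra k A] (Y : ℕ → A) (b p τ : ℕ)

variable (hY : ∀ j, Y j * Y j = 0) (hY0 : Y 0 = 0) (hYn : ∀ j, (p + 2) * b + τ ≤ j → Y j = 0)
  (h2τ : 2 ≤ τ) (hτb : τ ≤ b) (h2 : (2 : k) ≠ 0)

/-- The tops of the classes. -/
def om (i : ℕ) : A :=
  if i = 0 then vv Y b 0 (p + 2) * mon (vv Y b 0) 1 (p + 1)
  else if i < τ then vv Y b i 0 * vv Y b i (p + 2) * mon (vv Y b i) 1 (p + 1)
  else mon (vv Y b i) 0 (p + 2)

theorem half_smul {x y : A} (h2 : (2 : k) ≠ 0) (h : x = 2 * y) : (2⁻¹ : k) • x = y := by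
  rw [h, show (2 : A) * y = (2 : k) • y by
    rw [Algebra.smul_def, map_ofNat], smul_smul, inv_mul_cancel₀ h2, one_smul]

/-- The multipliers. -/
def mult : Mult (k := k) (chain Y b p τ hY hY0 hYn h2τ hτb) where
  ω := om Y b p τ
  L := fun i => if i = 0 then vv Y b 0 (p + 2) else vv Y b i 0
  H := fun i => (2⁻¹ : k) • (vv Y b i 0 + vv Y b i (p + 1))
  l := fun _ _ => 1
  η := fun _ x => if x = p + 1 then 1 else 0
  hLf := by
    intro i hi
    rcases Nat.eq_zero_or_pos i with h | h
    · subst h
      simp only [chain, om, TT, if_true, one_mul]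
      exact L0_GA (vv_sq Y b hY 0) (vv_zero Y b hY0) (by omega)
    · have h1 : i < τ := by
        have : i ≤ τ - 1 := hi
        omega
      simp only [chain, om, TT, if_neg (show i ≠ 0 by omega), if_pos h1]
      exact wt_f_zero (vv_sq Y b hY i)
  hLΦ := by
    intro i hi
    rcases Nat.eq_zero_or_pos i with h | h
    · subst h
      simp only [chain, if_true]
      rw [vv_zero Y b hY0]
      ring
    · simp only [chain, if_neg (show i ≠ 0 by omega)]
      exact LA_Φ (vv_sq Y b hY i)
  hHf := by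
    intro i hi h1
    simp only [chain, TT, if_neg (show i ≠ 0 by omega), smul_mul_assoc]
    rw [HA_GA (vv_sq Y b hY i) (by omega), smul_zero]
  hHΦ := by
    intro i hi h1
    have h3 : i < τ := by
      have : i ≤ τ - 1 := hi
      omega
    simp only [chain, om, if_neg (show i ≠ 0 by omega), if_pos h3, smul_mul_assoc]
    exact half_smul h2 (HA_Φ (vv_sq Y b hY i))
  hLq := by
    intro i hi x hx
    have h3 : i < τ := by
      have : i ≤ τ - 1 := hi
      omega
    have hx' : x < p + 2 := by simpa [chain, rho, h3] using hx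
    rw [one_smul]
    rcases Nat.eq_zero_or_pos i with h | h
    · subst h
      simp only [chain, om, TT, if_true, one_mul]
      exact L0_GA (vv_sq Y b hY 0) (vv_zero Y b hY0) hx'
    · simp only [chain, om, TT, if_neg (show i ≠ 0 by omega), if_pos h3]
      rw [← mul_assoc]
      exact mul_GA (vv_sq Y b hY i)
        (by linear_combination vv Y b i (p + 2) * vv_sq Y b hY i 0)
        (by linear_combination vv Y b i 0 * vv_sq Y b hY i (p + 2)) hx'
  hHq := by
    intro i hi h1 x hx
    have h3 : i < τ := by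
      have : i ≤ τ - 1 := hi
      omega
    have hx' : x < p + 2 := by simpa [chain, rho, h3] using hx
    simp only [chain, om, TT, if_neg (show i ≠ 0 by omega), if_pos h3, smul_mul_assoc]
    by_cases hxp : x = p + 1
    · subst hxp
      rw [if_pos rfl, one_smul]
      exact half_smul h2 (HA_GA_last (vv_sq Y b hY i))
    · rw [if_neg hxp, zero_smul, HA_GA (vv_sq Y b hY i) (by omega), smul_zero]
  hLC := by
    intro i hi h1
    have h3 : ¬ i < τ := by
      have : τ - 1 < i := h1
      omega
    have h4 : (chain Y b p τ hY hY0 hYn h2τ hτb).C i = pth (vv Y b i) 0 (p + 1) := by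
      simp only [Chain.C, chain, rho, row, if_neg h3, pth]
      refine Finset.prod_congr rfl fun x _ => ?_
      rw [zero_add]
    rw [h4]
    simp only [om, if_neg (show i ≠ 0 by omega), if_neg h3]
    exact mul_pth (vv_sq Y b hY i) le_rfl (by omega)

end mult

end FamA

end Pool.Agent.HankelPerm
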