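import Pool.Agent.HankelPerm.FamARel

/-!
Window relations of the first link family.
-/

namespace Pool.Agent.HankelPerm

open Finset

namespace FamA

section

variable {k A : Type*} [Field k] [CommRing A] [Algebra k A] (Y : ℕ → A) (b p τ : ℕ) (d : ℤ → k)

variable (hY : ∀ j, Y j * Y j = 0) (hY0 : Y 0 = 0) (hYn : ∀ j, (p + 2) * b + τ ≤ j → Y j = 0)
  (h2τ : 2 ≤ τ) (hτb : τ ≤ b) (h2 : (2 : k) ≠ 0)

variable (hD : (chain Y b p τ hY hY0 hYn h2τ hτb).Tot (DD Y b p d) = 0)
  (hnd : ∀ c : k, c • ∏ i ∈ range b, om Y b p τ i = 0 → c = 0)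

include h2 hD hnd

theorem relH4 {e : ℕ} (h1 : 2 ≤ e) (he : e < τ) : W1 b p d e 1 = 0 := by
  have key := cutA_scal Y b p τ d hY hY0 hYn h2τ hτb h2 hD hnd (β := e) (c := 0) (by omega)
    (by omega) (by omega) (by omega) _ _
    (fun x' _ s hs => wΦ Y b p τ hY hY0 hYn h2τ hτb (by omega) he hs)
    (fun x' _ s hs => wΦ Y b p τ hY hY0 hYn h2τ hτb (by omega) he hs)
  have h3 : ∀ x : ℕ, ∑ s ∈ range (p + 3), d ((e : ℤ) - (0 : ℕ) + ((s : ℤ) - x) * b) *
      (if 1 ≤ s ∧ s ≤ p + 1 then (2 : k) else 0) = 2 * W1 b p d e (1 - x) := by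
    intro x
    rw [← sum_wΦ]
    simp
  have h4 : ∑ s ∈ range (p + 3), d ((e : ℤ) - (0 + 1 : ℕ) + ((s : ℤ) - (p + 1 : ℕ)) * b) *
      (if 1 ≤ s ∧ s ≤ p + 1 then (2 : k) else 0) = 2 * W1 b p d (e - 1) (-p) := by
    rw [sum_wΦ]
    congr 2 <;> (push_cast; ring)
  have h5 : W1 b p d (e - 1) (-p) = 0 := by
    have := relG1a Y b p τ d hY hY0 hYn h2τ hτb h2 hD hnd (e := e - 1) (x := p + 1) (by omega)
      (by omega) (by omega) le_rfl
    rw [← this]
    congr 1
    · omega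
    · push_cast; ring
  simp only [h3] at key
  rw [h4, h5, mul_zero, add_zero, Finset.sum_eq_single 0] at key
  · have : (2 : k) * W1 b p d e 1 = 0 := by
      rw [← key]; simp
    exact (mul_eq_zero.mp this).resolve_left h2
  · intro x hx hx0
    rw [mem_range] at hx
    rw [relG1a Y b p τ d hY hY0 hYn h2τ hτb h2 hD hnd (by omega) he (by omega) (by omega),
      mul_zero]
  · intro hno; exact absurd (mem_range.mpr (by omega)) hno

theorem relH5 {e : ℕ} (h1 : τ ≤ e) (he : e < b) :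
    W2 b p d e 0 + W2 b p d (e - 1) (-(p + 1)) = 0 := by
  have key := cutA_scal Y b p τ d hY hY0 hYn h2τ hτb h2 hD hnd (β := e) (c := 0) (by omega)
    (by omega) (by omega) (by omega) _ _
    (fun x' _ s hs => wΨ Y b p τ hY hY0 hYn h2τ hτb (by omega) h1 hs)
    (fun x' _ s hs => wΨ Y b p τ hY hY0 hYn h2τ hτb (by omega) h1 hs)
  have h3 : ∀ x : ℕ, ∑ s ∈ range (p + 3), d ((e : ℤ) - (0 : ℕ) + ((s : ℤ) - x) * b) *
      (if s ≤ p + 1 then (1 : k) else 0) = W2 b p d e (-x) := by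
    intro x
    rw [← sum_wΨ]
    simp
  have h4 : ∑ s ∈ range (p + 3), d ((e : ℤ) - (0 + 1 : ℕ) + ((s : ℤ) - (p + 1 : ℕ)) * b) *
      (if s ≤ p + 1 then (1 : k) else 0) = W2 b p d (e - 1) (-(p + 1)) := by
    rw [sum_wΨ]
    congr 1
  simp only [h3] at key
  rw [h4, Finset.sum_eq_single 0] at key
  · rw [← key]; simp
  · intro x hx hx0
    rw [mem_range] at hx
    exact relG1b Y b p τ d hY hY0 hYn h2τ hτb h2 hD hnd h1 he (by omega) (by omega)
  · intro hno; exact absurd (mem_range.mpr (by omega)) hno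

omit h2 hD hnd in
/-- Sum of windows for a class with vanishing middle windows. -/
theorem sum_W2 {e : ℤ} (h : ∀ x, 1 ≤ x → x ≤ p → W2 b p d e (-(x : ℕ)) = 0) :
    ∑ x ∈ range (p + 2), W2 b p d e (-(x : ℕ)) = W2 b p d e 0 + W2 b p d e (-(p + 1)) := by
  rw [sum_range_succ, sum_range_succ']
  rw [Finset.sum_eq_zero, zero_add]
  · congr 2
  · intro x hx
    rw [mem_range] at hx
    exact h (x + 1) (by omega) (by omega)

theorem relH6 {e : ℕ} (h1 : 1 ≤ e) (he : e + 1 < τ) :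
    W2 b p d (e + 1) 0 + W2 b p d (e + 1) (-(p + 1)) + W2 b p d e (-(p + 1)) = 0 := by
  have hmid : ∀ x, 1 ≤ x → x ≤ p → W2 b p d ((e : ℤ) + 1) (-(x : ℕ)) = 0 := by
    intro x h3 h4
    have := relG2 Y b p τ d hY hY0 hYn h2τ hτb h2 hD hnd (e := e + 1) (x := x) (by omega) he h3 h4
    rw [← this]
    congr 1
  rw [← sum_W2 b p d hmid]
  rcases Nat.lt_or_ge τ b with h | h
  · have key := cutA_scal Y b p τ d hY hY0 hYn h2τ hτb h2 hD hnd (β := τ) (c := τ - 1 - e) h
      (by omega) (by omega) (by omega) _ _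
      (fun x' _ s hs => wΨ Y b p τ hY hY0 hYn h2τ hτb (by omega) le_rfl hs)
      (fun x' _ s hs => wΨ Y b p τ hY hY0 hYn h2τ hτb (by omega) le_rfl hs)
    rw [show (τ : ℤ) - (τ - 1 - e : ℕ) = e + 1 by omega,
      show (τ : ℤ) - (τ - 1 - e + 1 : ℕ) = e by omega] at key
    simp only [sum_wΨ] at key
    rw [← key]
    congr 1
  · have key := cutA_scal Y b p τ d hY hY0 hYn h2τ hτb h2 hD hnd (β := 0) (c := τ - 1 - e)
      (by omega) (by omega) (by omega) (by omega) _ _
      (fun x' _ s hs => wf0 Y b p τ hY hY0 hYn h2τ hτb (by omega) hs)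
      (fun x' _ s hs => wf0 Y b p τ hY hY0 hYn h2τ hτb (by omega) hs)
    simp only [sum_wf0] at key
    rw [show (b : ℤ) - (τ - 1 - e : ℕ) = e + 1 by omega,
      show (b : ℤ) - (τ - 1 - e + 1 : ℕ) = e by omega] at key
    rw [← key]
    congr 1

theorem relH7 : W2 b p d 1 0 + W2 b p d 1 (-(p + 1)) = 0 := by
  have hmid : ∀ x, 1 ≤ x → x ≤ p → W2 b p d (1 : ℤ) (-(x : ℕ)) = 0 := by
    intro x h3 h4
    exact relG2 Y b p τ d hY hY0 hYn h2τ hτb h2 hD hnd (e := 1) (x := x) (by omega) (by omega)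
      h3 h4
  rw [← sum_W2 b p d hmid]
  rcases Nat.lt_or_ge τ b with h | h
  · have key := cutL_scal Y b p τ d hY hY0 hYn h2τ hτb h2 hD hnd (β := τ) h (by omega) _
      (fun x' _ s hs => wΨ Y b p τ hY hY0 hYn h2τ hτb (by omega) le_rfl hs)
    rw [show (τ : ℤ) - (τ - 1 : ℕ) = 1 by omega] at key
    simp only [sum_wΨ] at key
    exact key
  · have key := cutL_scal Y b p τ d hY hY0 hYn h2τ hτb h2 hD hnd (β := 0)
      (by omega) (by omega) _
      (fun x' _ s hs => wf0 Y b p τ hY hY0 hYn h2τ hτb (by omega) hs)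
    simp only [sum_wf0] at key
    rw [show (b : ℤ) - (τ - 1 : ℕ) = 1 by omega] at key
    exact key

theorem relH8 (hτ : τ < b) : W2 b p d 2 0 + W2 b p d 2 (-(p + 1)) = 0 := by
  have hmid : ∀ x, 1 ≤ x → x ≤ p → W2 b p d (2 : ℤ) (-(x : ℕ)) = 0 := by
    intro x h3 h4
    rcases Nat.lt_or_ge 2 τ with h | h
    · exact relG2 Y b p τ d hY hY0 hYn h2τ hτb h2 hD hnd (e := 2) (x := x) (by omega) h h3 h4
    · exact relG1b Y b p τ d hY hY0 hYn h2τ hτb h2 hD hnd (e := 2) (x := x) h (by omega) h3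
        (by omega)
  rw [← sum_W2 b p d hmid]
  rcases Nat.lt_or_ge (τ + 1) b with h | h
  · have key := cutL_scal Y b p τ d hY hY0 hYn h2τ hτb h2 hD hnd (β := τ + 1) h (by omega) _
      (fun x' _ s hs => wΨ Y b p τ hY hY0 hYn h2τ hτb (by omega) (by omega) hs)
    rw [show ((τ + 1 : ℕ) : ℤ) - (τ - 1 : ℕ) = 2 by omega] at key
    simp only [sum_wΨ] at key
    exact key
  · have key := cutL_scal Y b p τ d hY hY0 hYn h2τ hτb h2 hD hnd (β := 0)
      (by omega) (by omega) _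
      (fun x' _ s hs => wf0 Y b p τ hY hY0 hYn h2τ hτb (by omega) hs)
    simp only [sum_wf0] at key
    rw [show (b : ℤ) - (τ - 1 : ℕ) = 2 by omega] at key
    exact key

/-- The relation for the class `0`. -/
theorem relR6 (hF : ∀ z : ℤ, -p ≤ z → z ≤ p + 1 → d (z * b) = 0) :
    d ((p + 2) * b) + W2 b p d (b - 1) (-(p + 1)) = 0 := by
  have key := (mult (k := k) Y b p τ hY hY0 hYn h2τ hτb h2).cutB0 hD
    (by have : 1 ≤ τ - 1 := by omega
        exact this)
  rw [Sum_scal Y b p τ d hY hY0 hYn h2τ hτb h2 (β := 0) (g := 0) (by omega) (by omega) _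
      (fun x s => if x = 0 ∧ s = p + 2 then 1 else 0) (fun x hx s hs => by
        have hZ : (chain Y b p τ hY hY0 hYn h2τ hτb).Z 0 x 0 = GA (vv Y b 0) p x := by
          rw [Chain.Z, if_neg (by omega), if_pos rfl]
          simp only [chain, TT, if_true, one_mul]
        rw [hZ]
        by_cases h : x = 0 ∧ s = p + 2
        · obtain ⟨rfl, rfl⟩ := h
          rw [if_pos ⟨rfl, rfl⟩, mul_one]
          congr 1
          simp only [om, if_true]
          exact L0_GA (vv_sq Y b hY 0) (vv_zero Y b hY0) (by omega)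
        · rw [if_neg h, mul_zero, zero_smul]
          rcases Nat.eq_zero_or_pos s with h0 | h0
          · subst h0
            rw [vv_zero Y b hY0, zero_mul, smul_zero]
          · have h5 : d (((0 : ℕ) : ℤ) - (0 : ℕ) + ((s : ℤ) - x) * b) = 0 := by
              have := hF ((s : ℤ) - x) (by omega) (by omega)
              rw [← this]
              congr 1
              push_cast; ring
            rw [h5, zero_smul]),
    Sum_scal Y b p τ d hY hY0 hYn h2τ hτb h2 (β := 0) (g := 1) (by omega) (by omega) _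
      (fun _ s => if 1 ≤ s then (1 : k) else 0)
      (fun x' hx' s hs => by
        rw [wf0 (k := k) Y b p τ hY hY0 hYn h2τ hτb (by omega) hs, smul_smul]), ← add_smul] at key
  have h4 := hnd _ key
  simp only [mult, one_mul, ite_mul, zero_mul] at h4
  rw [Finset.sum_ite_eq' (range (p + 2)) (p + 1), if_pos (by rw [mem_range]; omega),
    sum_wf0, Finset.sum_eq_single 0, Finset.sum_eq_single (p + 2)] at h4
  · rw [← h4]
    congr 1
    · rw [if_pos ⟨rfl, rfl⟩, mul_one]
      congr 1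
      push_cast; ring
  · intro s _ hs
    rw [if_neg (by omega), mul_zero]
  · intro hno; exact absurd (mem_range.mpr (by omega)) hno
  · intro x _ hx
    refine Finset.sum_eq_zero fun s _ => ?_
    rw [if_neg (by omega), mul_zero]
  · intro hno; exact absurd (mem_range.mpr (by omega)) hno

omit h2 hD hnd in
/-- The summand of a class in its own relation. -/
theorem own_term {β : ℕ} (h1 : 1 ≤ β) (hβ : β < τ)
    (hF : ∀ z : ℤ, -p ≤ z → z ≤ p + 1 → d (z * b) = 0) :
    ∀ x < p + 2, ∀ s < p + 3, d ((β : ℤ) - β + ((s : ℤ) - x) * b) •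
      (vv Y b β s * (chain Y b p τ hY hY0 hYn h2τ hτb).Z β x β) =
      (d ((β : ℤ) - β + ((s : ℤ) - x) * b) * (if x = p + 1 ∧ s = 0 then (1 : k) else 0)) •
        om Y b p τ β := by
  intro x hx s hs
  have hZ : (chain Y b p τ hY hY0 hYn h2τ hτb).Z β x β =
      vv Y b β (p + 2) * GA (vv Y b β) p x := by
    rw [Chain.Z, if_neg (by omega), if_pos rfl]
    simp only [chain, TT, if_neg (show β ≠ 0 by omega)]
  rw [hZ]
  by_cases h : x = p + 1 ∧ s = 0
  · obtain ⟨rfl, rfl⟩ := h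
    rw [if_pos ⟨rfl, rfl⟩, mul_one]
    congr 1
    simp only [om, if_neg (show β ≠ 0 by omega), if_pos hβ]
    rw [← mul_assoc]
    exact mul_GA (vv_sq Y b hY β)
      (by linear_combination vv Y b β (p + 2) * vv_sq Y b hY β 0)
      (by linear_combination vv Y b β 0 * vv_sq Y b hY β (p + 2)) (by omega)
  · rw [if_neg h, mul_zero, zero_smul]
    by_cases h5 : x = 0 ∧ s = p + 2
    · obtain ⟨rfl, rfl⟩ := h5
      rw [wt_f_last (vv_sq Y b hY β), smul_zero]
    · have h6 : d ((β : ℤ) - β + ((s : ℤ) - x) * b) = 0 := by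
        have := hF ((s : ℤ) - x) (by omega) (by omega)
        rw [← this]
        congr 1
        ring
      rw [h6, zero_smul]

omit h2 hD hnd in
theorem own_sum {β : ℕ} :
    ∑ x ∈ range (p + 2), ∑ s ∈ range (p + 3), d ((β : ℤ) - β + ((s : ℤ) - x) * b) *
      (if x = p + 1 ∧ s = 0 then (1 : k) else 0) = d (-(p + 1) * b) := by
  rw [Finset.sum_eq_single (p + 1), Finset.sum_eq_single 0]
  · rw [if_pos ⟨rfl, rfl⟩, mul_one]
    congr 1
    push_cast; ring
  · intro s _ hs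
    rw [if_neg (by omega), mul_zero]
  · intro hno; exact absurd (mem_range.mpr (by omega)) hno
  · intro x _ hx
    refine Finset.sum_eq_zero fun s _ => ?_
    rw [if_neg (by omega), mul_zero]
  · intro hno; exact absurd (mem_range.mpr (by omega)) hno

/-- Sum of the windows of a class with link. -/
theorem sum_W1 : ∑ x ∈ range (p + 2), 2 * W1 b p d 1 (1 - (x : ℕ)) = 2 * W1 b p d 1 1 := by
  rw [Finset.sum_eq_single 0]
  · simp
  · intro x hx hx0
    rw [mem_range] at hx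
    have := relG1a Y b p τ d hY hY0 hYn h2τ hτb h2 hD hnd (e := 1) (x := x) (by omega)
      (by omega) (by omega) (by omega)
    rw [Nat.cast_one] at this
    rw [this, mul_zero]
  · intro hno; exact absurd (mem_range.mpr (by omega)) hno

theorem relR7 (hF : ∀ z : ℤ, -p ≤ z → z ≤ p + 1 → d (z * b) = 0) :
    2 * W1 b p d 1 1 + d (-(p + 1) * b) = 0 := by
  have key := (mult (k := k) Y b p τ hY hY0 hYn h2τ hτb h2).cutBh hD (β := τ - 2)
    (by have : τ - 2 + 1 = τ - 1 := by omega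
        exact this)
  rw [Sum_scal Y b p τ d hY hY0 hYn h2τ hτb h2 (β := τ - 2 + 1) (g := τ - 2) (by omega)
      (by omega) _ (fun _ s => if 1 ≤ s ∧ s ≤ p + 1 then (2 : k) else 0)
      (fun x' hx' s hs => by
        rw [wΦ (k := k) Y b p τ hY hY0 hYn h2τ hτb (by omega) (by omega) hs, smul_smul]),
    Sum_scal Y b p τ d hY hY0 hYn h2τ hτb h2 (β := τ - 2 + 1) (g := τ - 2 + 1) (by omega)
      (by omega) _ (fun x s => if x = p + 1 ∧ s = 0 then (1 : k) else 0)
      (own_term Y b p τ d hY hY0 hYn h2τ hτb (by omega) (by omega) hF), ← add_smul] at key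
  have h4 := hnd _ key
  simp only [mult, one_mul, own_sum, sum_wΦ] at h4
  rw [show ((τ - 2 + 1 : ℕ) : ℤ) - (τ - 2 : ℕ) = 1 by omega,
    sum_W1 Y b p τ d hY hY0 hYn h2τ hτb h2 hD hnd] at h4
  exact h4

theorem relR8 (h3τ : 3 ≤ τ) (hF : ∀ z : ℤ, -p ≤ z → z ≤ p + 1 → d (z * b) = 0) :
    2 * W1 b p d 1 1 + d (-(p + 1) * b) +
      (d (-1 - (p + 1) * b) - W1 b p d (-1) (-p)) = 0 := by
  have key := (mult (k := k) Y b p τ hY hY0 hYn h2τ hτb h2).cutB hD (β := τ - 3)
    (by have : τ - 3 + 1 < τ - 1 := by omega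
        exact this)
  rw [Sum_scal Y b p τ d hY hY0 hYn h2τ hτb h2 (β := τ - 3 + 1) (g := τ - 3) (by omega)
      (by omega) _ (fun _ s => if 1 ≤ s ∧ s ≤ p + 1 then (2 : k) else 0)
      (fun x' hx' s hs => by
        rw [wΦ (k := k) Y b p τ hY hY0 hYn h2τ hτb (by omega) (by omega) hs, smul_smul]),
    Sum_scal Y b p τ d hY hY0 hYn h2τ hτb h2 (β := τ - 3 + 1) (g := τ - 3 + 1) (by omega)
      (by omega) _ (fun x s => if x = p + 1 ∧ s = 0 then (1 : k) else 0)
      (own_term Y b p τ d hY hY0 hYn h2τ hτb (by omega) (by omega) hF),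
    Sum_scal Y b p τ d hY hY0 hYn h2τ hτb h2 (β := τ - 3 + 1) (g := τ - 3 + 2) (by omega)
      (by omega) _ (fun _ s => if s = 0 then (1 : k) else if s ≤ p + 1 then -1 else 0)
      (fun x' hx' s hs => by
        rw [wf (k := k) Y b p τ hY hY0 hYn h2τ hτb (by omega) (by omega) (by omega) hs, smul_smul]),
    ← add_smul, ← add_smul] at key
  have h4 := hnd _ key
  simp only [mult, one_mul, own_sum, sum_wΦ, sum_wf, ite_mul, zero_mul] at h4
  rw [show ((τ - 3 + 1 : ℕ) : ℤ) - (τ - 3 : ℕ) = 1 by omega,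
    show ((τ - 3 + 1 : ℕ) : ℤ) - (τ - 3 + 2 : ℕ) = -1 by omega,
    sum_W1 Y b p τ d hY hY0 hYn h2τ hτb h2 hD hnd,
    Finset.sum_ite_eq' (range (p + 2)) (p + 1), if_pos (by rw [mem_range]; omega)] at h4
  rw [← h4]
  congr 3
  · push_cast; ring

theorem relL (h3τ : 3 ≤ τ) :
    ∑ x ∈ range (p + 2), (d (-1 - (x : ℤ) * b) - W1 b p d (-1) (1 - x)) = 0 := by
  have key := cutL_scal Y b p τ d hY hY0 hYn h2τ hτb h2 hD hnd (β := τ - 2) (by omega)
      (by omega) _
      (fun x' _ s hs => wf Y b p τ hY hY0 hYn h2τ hτb (by omega) (by omega) (by omega) hs)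
  simp only [sum_wf] at key
  rw [show ((τ - 2 : ℕ) : ℤ) - (τ - 1 : ℕ) = -1 by omega] at key
  exact key

end

end FamA

end Pool.Agent.HankelPerm
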