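import Pool.Agent.HankelPerm.FamACut

/-!
Elimination for the first link family.
-/

namespace Pool.Agent.HankelPerm

open Finset

namespace FamA

section

variable {k : Type*} [Field k] (b p : ℕ) (d : ℤ → k)

theorem W2_succ (e z : ℤ) : W2 b p d e z = W1 b p d e z + d (e + (z + (p + 1)) * b) := by
  rw [W2, W1, show p + 2 = p + 1 + 1 by ring, sum_range_succ]
  congr 3

theorem W2_succ' (e z : ℤ) : W2 b p d e z = d (e + z * b) + W1 b p d e (z + 1) := by
  rw [W2, W1, show p + 2 = p + 1 + 1 by ring, sum_range_succ', add_comm]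
  congr 1
  · congr 1
    push_cast; ring
  · refine Finset.sum_congr rfl fun s _ => ?_
    congr 1
    push_cast; ring

end

section

variable {k A : Type*} [Field k] [CommRing A] [Algebra k A] (Y : ℕ → A) (b p τ : ℕ) (d : ℤ → k)

variable (hY : ∀ j, Y j * Y j = 0) (hY0 : Y 0 = 0) (hYn : ∀ j, (p + 2) * b + τ ≤ j → Y j = 0)
  (h2τ : 2 ≤ τ) (hτb : τ ≤ b) (h2 : (2 : k) ≠ 0)

variable (hD : (chain Y b p τ hY hY0 hYn h2τ hτb).Tot (DD Y b p d) = 0)
  (hnd : ∀ c : k, c • ∏ i ∈ range b, om Y b p τ i = 0 → c = 0)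

include h2 hD hnd

theorem w1_zero {e : ℕ} {z : ℤ} (h1 : 1 ≤ e) (he : e < τ) (hz1 : -(p : ℤ) ≤ z) (hz2 : z ≤ 0) :
    W1 b p d e z = 0 := by
  have := relG1a Y b p τ d hY hY0 hYn h2τ hτb h2 hD hnd (e := e) (x := (1 - z).toNat) h1 he
    (by omega) (by omega)
  rw [← this]
  congr 1
  omega

theorem core_lt {e : ℕ} {z : ℤ} (h1 : 1 ≤ e) (he : e < τ) (hz1 : -(p : ℤ) ≤ z) (hz2 : z ≤ p) :
    d (e + z * b) = 0 := by
  have hpos : ∀ x : ℕ, 1 ≤ x → x ≤ p → d ((e : ℤ) + (p + 1 - x) * b) = 0 := by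
    intro x h3 h4
    have h5 := relG2 Y b p τ d hY hY0 hYn h2τ hτb h2 hD hnd h1 he h3 h4
    rw [W2_succ, w1_zero Y b p τ d hY hY0 hYn h2τ hτb h2 hD hnd h1 he (by omega) (by omega),
      zero_add] at h5
    rw [← h5]
    congr 1
    ring
  rcases lt_trichotomy z 0 with h | h | h
  · have h5 := relG2 Y b p τ d hY hY0 hYn h2τ hτb h2 hD hnd (e := e) (x := (-z).toNat) h1 he
      (by omega) (by omega)
    rw [show -(((-z).toNat : ℕ) : ℤ) = z by omega, W2_succ',
      w1_zero Y b p τ d hY hY0 hYn h2τ hτb h2 hD hnd h1 he (by omega) (by omega), add_zero] at h5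
    exact h5
  · subst h
    have h5 := w1_zero Y b p τ d hY hY0 hYn h2τ hτb h2 hD hnd (e := e) (z := 0) h1 he
      (by omega) le_rfl
    rw [W1, sum_range_succ', Finset.sum_eq_zero, zero_add] at h5
    · rw [← h5]
      congr 1
    · intro s hs
      rw [mem_range] at hs
      have := hpos (p - s) (by omega) (by omega)
      rw [← this]
      congr 1
      push_cast [Nat.cast_sub hs.le]
      ring
  · have := hpos (p + 1 - z).toNat (by omega) (by omega)
    rw [← this]
    congr 1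
    rw [Int.toNat_of_nonneg (by omega)]
    ring

theorem A_eq {e : ℕ} (h1 : 1 ≤ e) (he : e < τ) : W2 b p d e 0 = d (e + (p + 1) * b) := by
  rw [W2_succ, w1_zero Y b p τ d hY hY0 hYn h2τ hτb h2 hD hnd h1 he (by omega) le_rfl, zero_add,
    zero_add]

theorem A_eq' {e : ℕ} (h1 : 1 ≤ e) (he : e < τ) : W2 b p d e 0 = W1 b p d e 1 := by
  have := core_lt Y b p τ d hY hY0 hYn h2τ hτb h2 hD hnd (z := 0) h1 he (by omega) (by omega)
  rw [W2_succ', this, zero_add, zero_add]

theorem B_eq {e : ℕ} (h1 : 1 ≤ e) (he : e < τ) :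
    W2 b p d e (-(p + 1)) = d (e + -(p + 1) * b) := by
  rw [W2_succ', w1_zero Y b p τ d hY hY0 hYn h2τ hτb h2 hD hnd h1 he (by omega) (by omega),
    add_zero]

theorem A_zero {e : ℕ} (h1 : 2 ≤ e) (he : e < τ) : W2 b p d e 0 = 0 := by
  rw [A_eq' Y b p τ d hY hY0 hYn h2τ hτb h2 hD hnd (by omega) he]
  exact relH4 Y b p τ d hY hY0 hYn h2τ hτb h2 hD hnd h1 he

theorem B_big {e : ℕ} (h1 : τ ≤ e) (he : e < b) : W2 b p d e (-(p + 1)) = 0 := by
  have := relG1b Y b p τ d hY hY0 hYn h2τ hτb h2 hD hnd (x := p + 1) h1 he (by omega) le_rfl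
  rw [← this]
  congr 1

theorem B_one (h3b : 3 ≤ b) (hF : ∀ z : ℤ, -p ≤ z → z ≤ p + 1 → d (z * b) = 0)
    (hF4 : τ = b → 1 ≤ p → d (1 + -(p + 1) * b) = 0) : W2 b p d 1 (-(p + 1)) = 0 := by
  have hA2 : 3 ≤ τ → W2 b p d 2 0 = 0 := fun h =>
    A_zero Y b p τ d hY hY0 hYn h2τ hτb h2 hD hnd (e := 2) le_rfl (by omega)
  have h61 : 3 ≤ τ → W2 b p d 2 0 + W2 b p d 2 (-(p + 1)) + W2 b p d 1 (-(p + 1)) = 0 := by
    intro h
    have := relH6 Y b p τ d hY hY0 hYn h2τ hτb h2 hD hnd (e := 1) le_rfl (by omega)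
    rwa [show (((1 : ℕ) : ℤ) + 1) = 2 by norm_num, Nat.cast_one] at this
  rcases Nat.lt_or_ge τ b with h | h
  · have h8 := relH8 Y b p τ d hY hY0 hYn h2τ hτb h2 hD hnd h
    rcases Nat.lt_or_ge 2 τ with h' | h'
    · linear_combination h61 h' - h8
    · have h5 := relH5 Y b p τ d hY hY0 hYn h2τ hτb h2 hD hnd (e := 2) (by omega) (by omega)
      have hB := B_big Y b p τ d hY hY0 hYn h2τ hτb h2 hD hnd (e := 2) (by omega) (by omega)
      rw [show (((2 : ℕ) : ℤ) - 1) = 1 by norm_num, Nat.cast_ofNat] at h5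
      rw [Nat.cast_ofNat] at hB
      linear_combination h5 - h8 + hB
  · have hτ : τ = b := by omega
    rcases Nat.eq_zero_or_pos p with hp | hp
    · subst hp
      have hb1 : ((b - 1 : ℕ) : ℤ) = b - 1 := by omega
      have hc := core_lt Y b 0 τ d hY hY0 hYn h2τ hτb h2 hD hnd (e := b - 1) (z := 0)
        (by omega) (by omega) (by simp) (by simp)
      have hL := relL Y b 0 τ d hY hY0 hYn h2τ hτb h2 hD hnd (by omega)
      have h7 := relR7 Y b 0 τ d hY hY0 hYn h2τ hτb h2 hD hnd hF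
      have h8 := relR8 Y b 0 τ d hY hY0 hYn h2τ hτb h2 hD hnd (by omega) hF
      have hBb : W2 b 0 d ((b - 1 : ℕ) : ℤ) (-((0 : ℕ) + 1)) = 0 := by
        rw [B_eq Y b 0 τ d hY hY0 hYn h2τ hτb h2 hD hnd (by omega) (by omega)]
        simp only [W1, zero_add, sum_range_succ, range_zero, sum_empty, hb1] at hL h7 h8 hc ⊢
        push_cast at hL h7 h8 hc ⊢
        ring_nf at hL h7 h8 hc ⊢
        linear_combination h7 - h8 + hL + hc
      have hdown : ∀ j, j ≤ b - 2 → W2 b 0 d ((b - 1 - j : ℕ) : ℤ) (-((0 : ℕ) + 1)) = 0 := by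
        intro j
        induction j with
        | zero => intro _; exact hBb
        | succ j ih =>
          intro hj
          have h6 := relH6 Y b 0 τ d hY hY0 hYn h2τ hτb h2 hD hnd (e := b - 1 - (j + 1))
            (by omega) (by omega)
          have hA := A_zero Y b 0 τ d hY hY0 hYn h2τ hτb h2 hD hnd (e := b - 1 - j)
            (by omega) (by omega)
          have ih' := ih (by omega)
          rw [show ((b - 1 - (j + 1) : ℕ) : ℤ) + 1 = ((b - 1 - j : ℕ) : ℤ) by omega, hA, ih',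
            zero_add, zero_add] at h6
          exact h6
      have := hdown (b - 2) le_rfl
      rw [show b - 1 - (b - 2) = 1 by omega] at this
      exact this
    · have := B_eq Y b p τ d hY hY0 hYn h2τ hτb h2 hD hnd (e := 1) le_rfl (by omega)
      rw [Nat.cast_one] at this
      rw [this]
      exact hF4 hτ hp

theorem B_zero (h3b : 3 ≤ b) (hF : ∀ z : ℤ, -p ≤ z → z ≤ p + 1 → d (z * b) = 0)
    (hF4 : τ = b → 1 ≤ p → d (1 + -(p + 1) * b) = 0) {e : ℕ} (h1 : 1 ≤ e) (he : e < τ) :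
    W2 b p d e (-(p + 1)) = 0 := by
  obtain ⟨j, rfl⟩ : ∃ j, e = j + 1 := ⟨e - 1, by omega⟩
  clear h1
  induction j with
  | zero =>
    have := B_one Y b p τ d hY hY0 hYn h2τ hτb h2 hD hnd h3b hF hF4
    simpa using this
  | succ j ih =>
    have h6 := relH6 Y b p τ d hY hY0 hYn h2τ hτb h2 hD hnd (e := j + 1) (by omega) (by omega)
    have hA := A_zero Y b p τ d hY hY0 hYn h2τ hτb h2 hD hnd (e := j + 1 + 1) (by omega) he
    have ih' := ih (by omega)
    rw [show ((j + 1 : ℕ) : ℤ) + 1 = ((j + 1 + 1 : ℕ) : ℤ) by push_cast; ring, hA, ih',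
      zero_add, add_zero] at h6
    exact h6

/-- The elimination. -/
theorem vanish (h3b : 3 ≤ b) (hF : ∀ z : ℤ, -p ≤ z → z ≤ p + 1 → d (z * b) = 0)
    (hF1 : ∀ e : ℕ, 1 ≤ e → e < τ → d (e + (p + 2) * b) = 0)
    (hF2 : ∀ e : ℕ, τ ≤ e → e < b → ∀ z : ℤ, -(p + 1) ≤ z → z ≤ -1 → d (e + z * b) = 0)
    (hF3 : ∀ e : ℕ, b + 2 ≤ e + τ → e < b → d (e + -(p + 2) * b) = 0)
    (hF4 : τ = b → 1 ≤ p → d (1 + -(p + 1) * b) = 0) (j : ℤ)
    (hj1 : 2 - ((p + 1) * b + τ) ≤ j) (hj2 : j ≤ (p + 2) * b + τ - 1) : d j = 0 := by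
  have hb0 : (0 : ℤ) < b := by omega
  have hB := fun {e : ℕ} (h1 : 1 ≤ e) (he : e < τ) =>
    B_zero Y b p τ d hY hY0 hYn h2τ hτb h2 hD hnd h3b hF hF4 h1 he
  have hA1 : W2 b p d 1 0 = 0 := by
    have h7 := relH7 Y b p τ d hY hY0 hYn h2τ hτb h2 hD hnd
    have hB1 := hB (e := 1) le_rfl (by omega)
    rw [Nat.cast_one] at hB1
    linear_combination h7 - hB1
  -- the class `0`, upper end
  have htop : d ((p + 2) * b) = 0 := by
    have h6 := relR6 Y b p τ d hY hY0 hYn h2τ hτb h2 hD hnd hF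
    have hBb : W2 b p d (b - 1) (-(p + 1)) = 0 := by
      rcases Nat.lt_or_ge τ b with h | h
      · have := B_big Y b p τ d hY hY0 hYn h2τ hτb h2 hD hnd (e := b - 1) (by omega) (by omega)
        rw [← this]; congr 1; omega
      · have := hB (e := b - 1) (by omega) (by omega)
        rw [← this]; congr 1; omega
    linear_combination h6 - hBb
  have hbot : d (-(p + 1) * b) = 0 := by
    have h7 := relR7 Y b p τ d hY hY0 hYn h2τ hτb h2 hD hnd hF
    have := A_eq' Y b p τ d hY hY0 hYn h2τ hτb h2 hD hnd (e := 1) le_rfl (by omega)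
    rw [Nat.cast_one] at this
    rw [← this, hA1] at h7
    linear_combination h7
  -- classes with link
  have hlt : ∀ e : ℕ, 1 ≤ e → e < τ → ∀ z : ℤ, -(p + 1) ≤ z → z ≤ p + 1 → d (e + z * b) = 0 := by
    intro e h1 he z hz1 hz2
    rcases lt_or_ge z (-p) with h | h
    · have hz : z = -(p + 1) := by omega
      subst hz
      rw [← B_eq Y b p τ d hY hY0 hYn h2τ hτb h2 hD hnd h1 he]
      exact hB h1 he
    rcases lt_or_ge (p : ℤ) z with h' | h'
    · have hz : z = p + 1 := by omega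
      subst hz
      rw [← A_eq Y b p τ d hY hY0 hYn h2τ hτb h2 hD hnd h1 he]
      rcases Nat.lt_or_ge 1 e with h4 | h4
      · exact A_zero Y b p τ d hY hY0 hYn h2τ hτb h2 hD hnd h4 he
      · have : e = 1 := by omega
        subst this
        rw [Nat.cast_one]; exact hA1
    · exact core_lt Y b p τ d hY hY0 hYn h2τ hτb h2 hD hnd h1 he h h'
  -- classes without link
  have hge : ∀ e : ℕ, τ ≤ e → e < b → ∀ z : ℤ, -(p + 1) ≤ z → z ≤ p + 1 → d (e + z * b) = 0 := by
    intro e h1 he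
    have hwin : ∀ z : ℤ, -(p + 1) ≤ z → z ≤ 0 → W2 b p d e z = 0 := by
      intro z hz1 hz2
      rcases lt_or_ge z 0 with h | h
      · have := relG1b Y b p τ d hY hY0 hYn h2τ hτb h2 hD hnd (x := (-z).toNat) h1 he
          (by omega) (by omega)
        rw [← this]
        congr 1
        omega
      · have hz : z = 0 := by omega
        subst hz
        have h5 := relH5 Y b p τ d hY hY0 hYn h2τ hτb h2 hD hnd h1 he
        have hBe : W2 b p d ((e : ℤ) - 1) (-(p + 1)) = 0 := by
          rcases Nat.lt_or_ge τ e with h' | h'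
          · have := B_big Y b p τ d hY hY0 hYn h2τ hτb h2 hD hnd (e := e - 1) (by omega) (by omega)
            rw [← this]; congr 1; omega
          · have := hB (e := e - 1) (by omega) (by omega)
            rw [← this]; congr 1; omega
        linear_combination h5 - hBe
    have hnat : ∀ z : ℕ, z ≤ p + 1 → d ((e : ℤ) + (z : ℤ) * b) = 0 := by
      intro z
      induction z using Nat.strong_induction_on with
      | _ z ih =>
        intro hz
        have h5 := hwin ((z : ℤ) - (p + 1)) (by omega) (by omega)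
        rw [W2_succ, W1, Finset.sum_eq_zero, zero_add] at h5
        · rw [← h5]
          congr 1
          ring
        · intro s hs
          rw [mem_range] at hs
          rcases lt_or_ge ((z : ℤ) - (p + 1) + s) 0 with h | h
          · exact hF2 e h1 he _ (by omega) (by omega)
          · have := ih ((z : ℤ) - (p + 1) + s).toNat (by omega) (by omega)
            rw [Int.toNat_of_nonneg h] at this
            exact this
    intro z hz1 hz2
    rcases lt_or_ge z 0 with h | h
    · exact hF2 e h1 he z hz1 (by omega)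
    · have := hnat z.toNat (by omega)
      rwa [Int.toNat_of_nonneg h] at this
  -- decomposition
  obtain ⟨e, z, hez, heb⟩ : ∃ e : ℕ, ∃ z : ℤ, j = e + z * b ∧ e < b := by
    refine ⟨(j % b).toNat, j / b, ?_, ?_⟩
    · rw [Int.toNat_of_nonneg (Int.emod_nonneg _ hb0.ne')]
      have := Int.emod_add_mul_ediv j b
      linarith [mul_comm (b : ℤ) (j / b)]
    · have := Int.emod_lt_of_pos j hb0
      have := Int.emod_nonneg j hb0.ne'
      omega
  subst hez
  have hz1 : -((p : ℤ) + 2) ≤ z := by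
    by_contra hlt'
    push Not at hlt'
    have : z + (p + 3) ≤ 0 := by omega
    have h5 : (z + (p + 3)) * b ≤ 0 := mul_nonpos_of_nonpos_of_nonneg this hb0.le
    nlinarith
  have hz2 : z ≤ (p : ℤ) + 2 := by
    by_contra hlt'
    push Not at hlt'
    have : 0 ≤ z - (p + 3) := by omega
    have h5 : 0 ≤ (z - (p + 3)) * b := mul_nonneg this hb0.le
    nlinarith
  rcases lt_or_ge z (-(p + 1)) with h | h
  · have hz : z = -((p : ℤ) + 2) := by omega
    subst hz
    refine hF3 e ?_ heb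
    have h6 : (2 : ℤ) - τ ≤ e - b := by linarith
    omega
  rcases lt_or_ge ((p : ℤ) + 1) z with h' | h'
  · have hz : z = (p : ℤ) + 2 := by omega
    subst hz
    have h6 : (e : ℤ) ≤ τ - 1 := by linarith
    rcases Nat.eq_zero_or_pos e with h7 | h7
    · subst h7
      rw [Nat.cast_zero, zero_add]; exact htop
    · exact hF1 e h7 (by omega)
  · rcases Nat.eq_zero_or_pos e with h7 | h7
    · subst h7
      rw [Nat.cast_zero, zero_add]
      rcases lt_or_ge z (-p) with h8 | h8
      · have hz : z = -((p : ℤ) + 1) := by omega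
        subst hz
        exact hbot
      · exact hF z h8 h'
    · rcases Nat.lt_or_ge e τ with h8 | h8
      · exact hlt e h7 h8 z h h'
      · exact hge e h8 heb z h h'

end

end FamA

end Pool.Agent.HankelPerm
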