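import Pool.Agent.HankelPerm.FamA

/-!
Scalar relations of the first link family.
-/

namespace Pool.Agent.HankelPerm

open Finset

namespace FamA

section

variable {k A : Type*} [Field k] [CommRing A] [Algebra k A] (Y : ℕ → A) (b p τ : ℕ) (d : ℤ → k)

/-- The rows of the tangent vector. -/
def DD (g x : ℕ) : A :=
  ∑ s ∈ range (p + 3), ∑ i ∈ range b, d ((i : ℤ) - g + ((s : ℤ) - x) * b) • vv Y b i s

/-- Windows. -/
def W1 (e z : ℤ) : k := ∑ s ∈ range (p + 1), d (e + (z + s) * b)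

/-- Windows. -/
def W2 (e z : ℤ) : k := ∑ s ∈ range (p + 2), d (e + (z + s) * b)

variable (hY : ∀ j, Y j * Y j = 0) (hY0 : Y 0 = 0) (hYn : ∀ j, (p + 2) * b + τ ≤ j → Y j = 0)
  (h2τ : 2 ≤ τ) (hτb : τ ≤ b) (h2 : (2 : k) ≠ 0)

include hY hY0 hYn in
theorem vv_mul_om {i s : ℕ} (hs : s < p + 3) : vv Y b i s * om Y b p τ i = 0 := by
  rcases Nat.eq_zero_or_pos i with h | h
  · subst h
    simp only [om, if_true]
    rcases Nat.eq_zero_or_pos s with h1 | h1
    · subst h1
      rw [vv_zero Y b hY0, zero_mul]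
    · rcases Nat.lt_or_ge s (p + 2) with h3 | h3
      · have := mul_mon (vv_sq Y b hY 0) (s := s) (a := 1) (l := p + 1) h1 (by omega)
        linear_combination vv Y b 0 (p + 2) * this
      · have : s = p + 2 := by omega
        subst this
        linear_combination mon (vv Y b 0) 1 (p + 1) * vv_sq Y b hY 0 (p + 2)
  · by_cases hi : i < τ
    · simp only [om, if_neg (show i ≠ 0 by omega), if_pos hi]
      rcases Nat.eq_zero_or_pos s with h1 | h1
      · subst h1
        linear_combination (vv Y b i (p + 2) * mon (vv Y b i) 1 (p + 1)) * vv_sq Y b hY i 0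
      · rcases Nat.lt_or_ge s (p + 2) with h3 | h3
        · have := mul_mon (vv_sq Y b hY i) (s := s) (a := 1) (l := p + 1) h1 (by omega)
          linear_combination (vv Y b i 0 * vv Y b i (p + 2)) * this
        · have : s = p + 2 := by omega
          subst this
          linear_combination (vv Y b i 0 * mon (vv Y b i) 1 (p + 1)) * vv_sq Y b hY i (p + 2)
    · simp only [om, if_neg (show i ≠ 0 by omega), if_neg hi]
      rcases Nat.lt_or_ge s (p + 2) with h3 | h3
      · exact mul_mon (vv_sq Y b hY i) (Nat.zero_le _) (by omega)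
      · have : s = p + 2 := by omega
        subst this
        rw [vv_big Y b p τ hYn (by omega), zero_mul]

include hY hY0 hYn in
theorem DD_mul {β : ℕ} (hβ : β < b) (g x : ℕ) (Z : A) (e : ℕ → k)
    (h : ∀ s < p + 3, d ((β : ℤ) - g + ((s : ℤ) - x) * b) • (vv Y b β s * Z) =
      (d ((β : ℤ) - g + ((s : ℤ) - x) * b) * e s) • om Y b p τ β) :
    DD Y b p d g x * ((∏ i ∈ (range b).erase β, om Y b p τ i) * Z) =
      (∑ s ∈ range (p + 3), d ((β : ℤ) - g + ((s : ℤ) - x) * b) * e s) •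
        ∏ i ∈ range b, om Y b p τ i := by
  rw [DD, Finset.sum_mul, Finset.sum_smul]
  refine Finset.sum_congr rfl fun s hs => ?_
  rw [mem_range] at hs
  rw [Finset.sum_mul, Finset.sum_eq_single β]
  · rw [← Finset.mul_prod_erase (range b) (om Y b p τ) (mem_range.mpr hβ), ← smul_mul_assoc,
      ← h s hs]
    simp only [smul_mul_assoc]
    congr 1
    ring
  · intro i hi hne
    have h1 : i ∈ (range b).erase β := by
      rw [mem_erase]; exact ⟨hne, hi⟩
    rw [← Finset.mul_prod_erase _ _ h1, smul_mul_assoc]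
    have h3 := vv_mul_om Y b p τ hY hY0 hYn (i := i) hs
    have h4 : vv Y b i s * (om Y b p τ i * (∏ x ∈ ((range b).erase β).erase i, om Y b p τ x) * Z) =
        0 := by
      linear_combination ((∏ x ∈ ((range b).erase β).erase i, om Y b p τ x) * Z) * h3
    rw [h4, smul_zero]
  · intro hno
    exact absurd (mem_range.mpr hβ) hno

/-- Scalars of the summands. -/
theorem Sum_scal {β : ℕ} (hβ : β < b) {g : ℕ} (hg : g < τ) (χ : ℕ → k) (e : ℕ → ℕ → k)
    (h : ∀ x < p + 2, ∀ s < p + 3, d ((β : ℤ) - g + ((s : ℤ) - x) * b) •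
      (vv Y b β s * (chain Y b p τ hY hY0 hYn h2τ hτb).Z g x β) =
      (d ((β : ℤ) - g + ((s : ℤ) - x) * b) * e x s) • om Y b p τ β) :
    (mult (k := k) Y b p τ hY hY0 hYn h2τ hτb h2).Sum (DD Y b p d) β g χ =
      (∑ x ∈ range (p + 2), χ x * ∑ s ∈ range (p + 3),
        d ((β : ℤ) - g + ((s : ℤ) - x) * b) * e x s) • ∏ i ∈ range b, om Y b p τ i := by
  rw [Mult.Sum, show (chain Y b p τ hY hY0 hYn h2τ hτb).ρ g = p + 2 by
    simp only [chain, rho, if_pos hg], Finset.sum_smul]
  refine Finset.sum_congr rfl fun x hx => ?_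
  rw [mem_range] at hx
  rw [mul_smul]
  congr 1
  exact DD_mul Y b p τ d hY hY0 hYn hβ g x _ (e x) (h x hx)

/-! Weights. -/

theorem wΦ {β g x s : ℕ} (hgβ : g < β) (hβ : β < τ) (hs : s < p + 3) :
    vv Y b β s * (chain Y b p τ hY hY0 hYn h2τ hτb).Z g x β =
      (if 1 ≤ s ∧ s ≤ p + 1 then (2 : k) else 0) • om Y b p τ β := by
  have h1 : (chain Y b p τ hY hY0 hYn h2τ hτb).Z g x β =
      2 * (vv Y b β 0 * vv Y b β (p + 2) * pth (vv Y b β) 1 p) := by
    rw [Chain.Z, if_neg (by omega), if_neg (by omega), if_pos (by simp only [chain]; omega)]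
    rfl
  rw [h1]
  simp only [om, if_neg (show β ≠ 0 by omega), if_pos hβ]
  rcases Nat.eq_zero_or_pos s with h | h
  · subst h
    rw [wt_Φ_zero (vv_sq Y b hY β), if_neg (by omega), zero_smul]
  · rcases Nat.lt_or_ge s (p + 2) with h3 | h3
    · rw [wt_Φ_mid (vv_sq Y b hY β) h (by omega), if_pos ⟨h, by omega⟩, Algebra.smul_def,
        map_ofNat]
    · have : s = p + 2 := by omega
      subst this
      rw [wt_Φ_last (vv_sq Y b hY β), if_neg (by omega), zero_smul]

theorem wΨ {β g x s : ℕ} (hg : g < τ) (hβ : τ ≤ β) (hs : s < p + 3) :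
    vv Y b β s * (chain Y b p τ hY hY0 hYn h2τ hτb).Z g x β =
      (if s ≤ p + 1 then (1 : k) else 0) • om Y b p τ β := by
  have h1 : (chain Y b p τ hY hY0 hYn h2τ hτb).Z g x β = pth (vv Y b β) 0 (p + 1) := by
    rw [Chain.Z, if_neg (by omega), if_neg (by omega), if_neg (by simp only [chain]; omega)]
    simp only [Chain.C, chain, rho, row, if_neg (show ¬ β < τ by omega), pth]
    refine Finset.prod_congr rfl fun x _ => ?_
    rw [zero_add]
  rw [h1]
  simp only [om, if_neg (show β ≠ 0 by omega), if_neg (show ¬ β < τ by omega)]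
  rcases Nat.lt_or_ge s (p + 2) with h3 | h3
  · rw [mul_pth (vv_sq Y b hY β) (Nat.zero_le _) (by omega), if_pos (by omega), one_smul]
  · have : s = p + 2 := by omega
    subst this
    rw [vv_big Y b p τ hYn (by omega), zero_mul, if_neg (by omega), zero_smul]

theorem wf0 {g x s : ℕ} (hg : 1 ≤ g) (hs : s < p + 3) :
    vv Y b 0 s * (chain Y b p τ hY hY0 hYn h2τ hτb).Z g x 0 =
      (if 1 ≤ s then (1 : k) else 0) • om Y b p τ 0 := by
  have h1 : (chain Y b p τ hY hY0 hYn h2τ hτb).Z g x 0 = GA (vv Y b 0) p 0 := by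
    rw [Chain.Z, if_pos (by omega)]
    simp only [chain, TT, if_true, one_mul]
  rw [h1]
  simp only [om, if_true]
  rcases Nat.eq_zero_or_pos s with h | h
  · subst h
    rw [vv_zero Y b hY0, zero_mul, if_neg (by omega), zero_smul]
  · rw [if_pos (show 1 ≤ s from h), one_smul]
    exact wt0_mid (vv_sq Y b hY 0) (vv_zero Y b hY0) h (by omega)

theorem wf {β g x s : ℕ} (hβ : 1 ≤ β) (hgβ : β < g) (hg : g < τ) (hs : s < p + 3) :
    vv Y b β s * (chain Y b p τ hY hY0 hYn h2τ hτb).Z g x β =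
      (if s = 0 then (1 : k) else if s ≤ p + 1 then -1 else 0) • om Y b p τ β := by
  have h1 : (chain Y b p τ hY hY0 hYn h2τ hτb).Z g x β =
      vv Y b β (p + 2) * GA (vv Y b β) p 0 := by
    rw [Chain.Z, if_pos hgβ]
    simp only [chain, TT, if_neg (show β ≠ 0 by omega)]
  rw [h1]
  simp only [om, if_neg (show β ≠ 0 by omega), if_pos (show β < τ by omega)]
  rcases Nat.eq_zero_or_pos s with h | h
  · subst h
    rw [wt_f_zero (vv_sq Y b hY β), if_pos rfl, one_smul]
  · rw [if_neg (by omega)]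
    rcases Nat.lt_or_ge s (p + 2) with h3 | h3
    · rw [wt_f_mid (vv_sq Y b hY β) h (by omega), if_pos (by omega), neg_smul, one_smul]
    · have : s = p + 2 := by omega
      subst this
      rw [wt_f_last (vv_sq Y b hY β), if_neg (by omega), zero_smul]

/-! Sums with weights are windows. -/

theorem sum_wΦ (e : ℤ) (x : ℤ) :
    ∑ s ∈ range (p + 3), d (e + ((s : ℤ) - x) * b) *
      (if 1 ≤ s ∧ s ≤ p + 1 then (2 : k) else 0) = 2 * W1 b p d e (1 - x) := by
  rw [show p + 3 = p + 1 + 1 + 1 by ring, sum_range_succ, sum_range_succ',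
    if_neg (by omega), if_neg (by omega), mul_zero, mul_zero, add_zero, add_zero, W1,
    Finset.mul_sum]
  refine Finset.sum_congr rfl fun s hs => ?_
  rw [mem_range] at hs
  rw [if_pos (by omega), mul_comm]
  congr 3
  push_cast
  ring

theorem sum_wΨ (e : ℤ) (x : ℤ) :
    ∑ s ∈ range (p + 3), d (e + ((s : ℤ) - x) * b) *
      (if s ≤ p + 1 then (1 : k) else 0) = W2 b p d e (-x) := by
  rw [show p + 3 = p + 2 + 1 by ring, sum_range_succ, if_neg (by omega), mul_zero, add_zero, W2]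
  refine Finset.sum_congr rfl fun s hs => ?_
  rw [mem_range] at hs
  rw [if_pos (by omega), mul_one]
  congr 1
  ring

theorem sum_wf0 (g : ℤ) (x : ℤ) :
    ∑ s ∈ range (p + 3), d (((0 : ℕ) : ℤ) - g + ((s : ℤ) - x) * b) *
      (if 1 ≤ s then (1 : k) else 0) = W2 b p d (b - g) (-x) := by
  rw [show p + 3 = p + 2 + 1 by ring, sum_range_succ', if_neg (by omega), mul_zero, add_zero, W2]
  refine Finset.sum_congr rfl fun s hs => ?_
  rw [mem_range] at hs
  rw [if_pos (by omega), mul_one]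
  congr 1
  push_cast
  ring

theorem sum_wf (e : ℤ) (x : ℤ) :
    ∑ s ∈ range (p + 3), d (e + ((s : ℤ) - x) * b) *
      (if s = 0 then (1 : k) else if s ≤ p + 1 then -1 else 0) =
      d (e - x * b) - W1 b p d e (1 - x) := by
  rw [show p + 3 = p + 1 + 1 + 1 by ring, sum_range_succ, sum_range_succ',
    if_pos rfl, if_neg (by omega), if_neg (by omega), mul_zero, add_zero, W1]
  have h1 : ∑ k_1 ∈ range (p + 1), d (e + (((k_1 + 1 : ℕ) : ℤ) - x) * b) *
      (if k_1 + 1 = 0 then (1 : k) else if k_1 + 1 ≤ p + 1 then -1 else 0) =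
      - ∑ s ∈ range (p + 1), d (e + (1 - x + s) * b) := by
    rw [← Finset.sum_neg_distrib]
    refine Finset.sum_congr rfl fun s hs => ?_
    rw [mem_range] at hs
    rw [if_neg (by omega), if_pos (by omega), mul_neg, mul_one]
    congr 2
    push_cast
    ring
  rw [h1, mul_one, show e + (((0 : ℕ) : ℤ) - x) * b = e - x * b by push_cast; ring]
  ring

/-! Scalar relations. -/

variable (hD : (chain Y b p τ hY hY0 hYn h2τ hτb).Tot (DD Y b p d) = 0)
  (hnd : ∀ c : k, c • ∏ i ∈ range b, om Y b p τ i = 0 → c = 0)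

include h2 hD hnd

theorem mid_ysc {β g x : ℕ} (hβ : β < b) (hg : g < τ) (hgβ : g ≠ β) (h1x : 1 ≤ x)
    (hx : x ≤ p ∨ (g = 0 ∧ x = p + 1)) (e : ℕ → k)
    (he : ∀ x' < p + 2, ∀ s < p + 3, vv Y b β s *
      (chain Y b p τ hY hY0 hYn h2τ hτb).Z g x' β = e s • om Y b p τ β) :
    ∑ s ∈ range (p + 3), d ((β : ℤ) - g + ((s : ℤ) - x) * b) * e s = 0 := by
  have hgh : g ≤ (chain Y b p τ hY hY0 hYn h2τ hτb).h := by
    have : g ≤ τ - 1 := by omega
    exact this
  have key := (mult (k := k) Y b p τ hY hY0 hYn h2τ hτb h2).mid hD hβ hgh hgβ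
    ((2⁻¹ : k) • (vv Y b g x - vv Y b g (x + 1)))
    (fun x' => if x' = x then (if g = 0 then -1 else 1) else 0) ?_ ?_ ?_
  · have h3 := Sum_scal Y b p τ d hY hY0 hYn h2τ hτb h2 hβ hg
      (fun x' => if x' = x then (if g = 0 then -1 else 1) else 0) (fun _ => e)
      (fun x' hx' s hs => by rw [he x' hx' s hs, smul_smul])
    rw [Mult.Sum, key] at h3
    have h4 := hnd _ h3.symm
    simp only [ite_mul, zero_mul] at h4
    rw [Finset.sum_ite_eq' (range (p + 2)) x, if_pos (by rw [mem_range]; omega)] at h4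
    by_cases h0 : g = 0
    · rw [if_pos h0] at h4
      linear_combination -h4
    · rw [if_neg h0] at h4
      linear_combination h4
  · rcases Nat.eq_zero_or_pos g with h | h
    · subst h
      simp only [chain, TT, if_true, one_mul, smul_mul_assoc]
      rw [mid0_GA (vv_sq Y b hY 0) (vv_zero Y b hY0) h1x (by omega) (by omega), smul_zero]
    · simp only [chain, smul_mul_assoc]
      rw [mul_left_comm, mid_GA (vv_sq Y b hY g) h1x (by omega) (by omega), mul_zero, smul_zero]
  · intro h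
    simp only [chain, smul_mul_assoc]
    rw [← prod_rwA (vv_sq Y b hY g), ← rwA_mul_GA (show x < p + 2 by omega), ← mul_assoc,
      mid_rwA (vv_sq Y b hY g) h1x (by omega), zero_mul, smul_zero]
  · intro x' hx'
    rcases Nat.eq_zero_or_pos g with h | h
    · subst h
      simp only [chain, TT, if_true, one_mul, smul_mul_assoc]
      by_cases hxx : x' = x
      · subst hxx
        rw [mid0_GA_self (vv_sq Y b hY 0) (vv_zero Y b hY0) h1x (by omega), if_pos rfl,
          smul_neg, neg_smul, one_smul, half_smul h2 rfl]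
        simp only [mult, om, if_true]
      · rw [mid0_GA (vv_sq Y b hY 0) (vv_zero Y b hY0) h1x (by omega) hxx, if_neg hxx, smul_zero,
          zero_smul]
    · simp only [chain, TT, if_neg (show g ≠ 0 by omega), smul_mul_assoc]
      by_cases hxx : x' = x
      · subst hxx
        rw [mid_GA_self (vv_sq Y b hY g) h1x (by omega), if_pos rfl, one_smul, half_smul h2 rfl]
        simp only [mult, om, if_neg (show g ≠ 0 by omega), if_pos hg]
      · rw [mul_left_comm, mid_GA (vv_sq Y b hY g) h1x (by omega) hxx, if_neg hxx, mul_zero,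
          smul_zero, zero_smul]

/-- The relation (G1), classes with a link. -/
theorem relG1a {e x : ℕ} (h1 : 1 ≤ e) (he : e < τ) (h1x : 1 ≤ x) (hx : x ≤ p + 1) :
    W1 b p d e (1 - x) = 0 := by
  have h3 := mid_ysc Y b p τ d hY hY0 hYn h2τ hτb h2 hD hnd (β := e) (g := 0) (x := x)
    (by omega) (by omega) (by omega) h1x (by omega) _
    (fun x' _ s hs => wΦ Y b p τ hY hY0 hYn h2τ hτb (by omega) he hs)
  rw [sum_wΦ] at h3
  simpa [h2] using h3

/-- The relation (G1), classes without link. -/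
theorem relG1b {e x : ℕ} (h1 : τ ≤ e) (he : e < b) (h1x : 1 ≤ x) (hx : x ≤ p + 1) :
    W2 b p d e (-x) = 0 := by
  have h3 := mid_ysc Y b p τ d hY hY0 hYn h2τ hτb h2 hD hnd (β := e) (g := 0) (x := x)
    (by omega) (by omega) (by omega) h1x (by omega) _
    (fun x' _ s hs => wΨ Y b p τ hY hY0 hYn h2τ hτb (by omega) h1 hs)
  rw [sum_wΨ] at h3
  simpa using h3

/-- The relation (G2). -/
theorem relG2 {e x : ℕ} (h1 : 1 ≤ e) (he : e < τ) (h1x : 1 ≤ x) (hx : x ≤ p) :
    W2 b p d e (-x) = 0 := by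
  rcases Nat.lt_or_ge τ b with h | h
  · have h3 := mid_ysc Y b p τ d hY hY0 hYn h2τ hτb h2 hD hnd (β := τ) (g := τ - e) (x := x)
      h (by omega) (by omega) h1x (Or.inl hx) _
      (fun x' _ s hs => wΨ Y b p τ hY hY0 hYn h2τ hτb (by omega) le_rfl hs)
    rw [sum_wΨ] at h3
    rw [← h3]
    congr 1
    omega
  · have h3 := mid_ysc Y b p τ d hY hY0 hYn h2τ hτb h2 hD hnd (β := 0) (g := τ - e) (x := x)
      (by omega) (by omega) (by omega) h1x (Or.inl hx) _
      (fun x' _ s hs => wf0 Y b p τ hY hY0 hYn h2τ hτb (by omega) hs)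
    rw [sum_wf0] at h3
    rw [← h3]
    congr 1
    omega

theorem cutA_scal {β c : ℕ} (hβ : β < b) (hc : c + 1 < τ) (h1 : β ≠ c) (h3 : β ≠ c + 1)
    (e e' : ℕ → k)
    (he : ∀ x < p + 2, ∀ s < p + 3, vv Y b β s *
      (chain Y b p τ hY hY0 hYn h2τ hτb).Z c x β = e s • om Y b p τ β)
    (he' : ∀ x < p + 2, ∀ s < p + 3, vv Y b β s *
      (chain Y b p τ hY hY0 hYn h2τ hτb).Z (c + 1) x β = e' s • om Y b p τ β) :
    ∑ x ∈ range (p + 2), ∑ s ∈ range (p + 3), d ((β : ℤ) - c + ((s : ℤ) - x) * b) * e s +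
      ∑ s ∈ range (p + 3), d ((β : ℤ) - (c + 1 : ℕ) + ((s : ℤ) - (p + 1 : ℕ)) * b) * e' s = 0 := by
  have key := (mult (k := k) Y b p τ hY hY0 hYn h2τ hτb h2).cutA hD (β := β) (c := c) hβ
    (by have : c + 1 ≤ τ - 1 := by omega
        exact this) h1 h3
  rw [Sum_scal Y b p τ d hY hY0 hYn h2τ hτb h2 hβ (by omega) _ (fun _ => e)
      (fun x' hx' s hs => by rw [he x' hx' s hs, smul_smul]),
    Sum_scal Y b p τ d hY hY0 hYn h2τ hτb h2 hβ (by omega) _ (fun _ => e')
      (fun x' hx' s hs => by rw [he' x' hx' s hs, smul_smul]), ← add_smul] at key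
  have h4 := hnd _ key
  simp only [mult, one_mul, ite_mul, zero_mul] at h4
  rw [Finset.sum_ite_eq' (range (p + 2)) (p + 1), if_pos (by rw [mem_range]; omega)] at h4
  exact h4

theorem cutL_scal {β : ℕ} (hβ : β < b) (h1 : β ≠ τ - 1) (e : ℕ → k)
    (he : ∀ x < p + 2, ∀ s < p + 3, vv Y b β s *
      (chain Y b p τ hY hY0 hYn h2τ hτb).Z (τ - 1) x β = e s • om Y b p τ β) :
    ∑ x ∈ range (p + 2), ∑ s ∈ range (p + 3),
      d ((β : ℤ) - (τ - 1 : ℕ) + ((s : ℤ) - x) * b) * e s = 0 := by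
  have key := (mult (k := k) Y b p τ hY hY0 hYn h2τ hτb h2).cutL hD (β := β) hβ h1
  have e1 : (chain Y b p τ hY hY0 hYn h2τ hτb).h = τ - 1 := rfl
  rw [e1] at key
  rw [Sum_scal Y b p τ d hY hY0 hYn h2τ hτb h2 hβ (by omega) _ (fun _ => e)
      (fun x' hx' s hs => by rw [he x' hx' s hs, smul_smul])] at key
  have h4 := hnd _ key
  simp only [mult, one_mul] at h4
  exact h4

end

end FamA

end Pool.Agent.HankelPerm
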