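import Pool.Agent.HankelPerm.PathProdB
import Pool.Agent.HankelPerm.FamA

/-!
The chain of the second link family.
-/

namespace Pool.Agent.HankelPerm

open Finset

namespace FamB

section

variable {A : Type*} [CommRing A] (Y : ℕ → A) (b p : ℕ)

/-- The variables of the class `i`. -/
def vv (i s : ℕ) : A := Y (i + 1 + s * b)

/-- The rows. -/
def row (i x : ℕ) : A :=
  (if i = 0 then rwC (vv Y b i) p x else rwB (vv Y b i) p x) +
    (if x = 0 then vv Y b (i + 1) (p + 2) else 0)

/-- The number of rows. -/
def rho (i : ℕ) : ℕ := if i = 0 then p + 3 else p + 2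

/-- The link variables. -/
def TT (i : ℕ) : A := if i = 0 then 1 else vv Y b i (p + 2)

/-- The products without link. -/
def PP (i : ℕ) : A := if i = 0 then 0 else vv Y b i (p + 2) * GA (vv Y b i) p (p + 1)

/-- The products of all rows but one. -/
def QQ (i x : ℕ) : A := if i = 0 then GC (vv Y b 0) p x else vv Y b i (p + 2) * GA (vv Y b i) p x

variable (hY : ∀ j, Y j * Y j = 0) (hYn : ∀ j, (p + 3) * b + 1 ≤ j → Y j = 0) (h2b : 2 ≤ b)

include hY in
theorem vv_sq (i s : ℕ) : vv Y b i s * vv Y b i s = 0 := hY _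

include hYn in
theorem vv_big {i : ℕ} (hi : b ≤ i) : vv Y b i (p + 2) = 0 := by
  refine hYn _ ?_
  have : (p + 3) * b = (p + 2) * b + b := by ring
  omega

include hYn in
theorem vv_big' (i : ℕ) : vv Y b i (p + 3) = 0 := by
  refine hYn _ ?_
  omega

/-- The chain. -/
def chain : Chain A where
  b := b
  h := b - 1
  hb := by omega
  ρ := rho p
  R := row Y b p
  T := TT Y b p
  Φ := PP Y b p
  f := fun i => QQ Y b p i 0
  q := QQ Y b p
  hT0 := by simp [TT]
  hC := by
    intro g hg
    have e1 : TT Y b p (g + 1) = vv Y b (g + 1) (p + 2) := by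
      simp only [TT, if_neg (Nat.succ_ne_zero g)]
    rw [e1]
    rcases Nat.eq_zero_or_pos g with h | h
    · subst h
      refine ⟨GC (vv Y b 0) p 0, ?_, ?_⟩
      · simp only [rho, row, if_true]
        rw [prod_link _ _ _ (by simp), prod_rwC_zero (vv_sq Y b hY 0)]
        simp only [PP, if_true]
        rfl
      · simp only [TT, QQ, if_true, one_mul]
    · refine ⟨GB (vv Y b g) p 0, ?_, ?_⟩
      · simp only [rho, row, if_neg (show g ≠ 0 by omega)]
        rw [prod_link _ _ _ (by simp), prod_rwB (vv_sq Y b hY g)]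
        simp only [PP, if_neg (show g ≠ 0 by omega)]
        rfl
      · simp only [TT, QQ, if_neg (show g ≠ 0 by omega)]
        exact T_mul_GB (vv_sq Y b hY g) 0
  hCh := by
    have h1 : b - 1 ≠ 0 := by omega
    have h3 : vv Y b (b - 1 + 1) (p + 2) = 0 := vv_big Y b p hYn (by omega)
    simp only [rho, row, if_neg h1, h3]
    rw [prod_link _ _ _ (by simp), prod_rwB (vv_sq Y b hY (b - 1)), zero_mul, add_zero]
    simp only [PP, if_neg h1]
  hTΦ := by
    intro g hg
    rcases Nat.eq_zero_or_pos g with h | h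
    · subst h
      simp only [PP, if_true, mul_zero]
    · simp only [TT, PP, if_neg (show g ≠ 0 by omega)]
      exact wt_f_last (vv_sq Y b hY g) _
  hq := by
    intro g hg x hx
    have e1 : TT Y b p (g + 1) = vv Y b (g + 1) (p + 2) := by
      simp only [TT, if_neg (Nat.succ_ne_zero g)]
    rw [e1]
    rcases Nat.eq_zero_or_pos g with h | h
    · subst h
      simp only [rho, row, if_true, TT, one_mul, QQ] at hx ⊢
      rcases Nat.eq_zero_or_pos x with h | h
      · subst h
        refine ⟨0, ?_⟩
        rw [prod_link' _ _ _ (by simp), mul_zero, add_zero]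
        rfl
      · refine ⟨∏ x' ∈ ((range (p + 3)).erase x).erase 0, rwC (vv Y b 0) p x', ?_⟩
        rw [prod_link _ _ _ (by simp; omega)]
        rfl
    · simp only [rho, row, if_neg (show g ≠ 0 by omega), TT, QQ] at hx ⊢
      rcases Nat.eq_zero_or_pos x with h | h
      · subst h
        refine ⟨0, ?_⟩
        rw [prod_link' _ _ _ (by simp), mul_zero, add_zero]
        exact T_mul_GB (vv_sq Y b hY g) 0
      · refine ⟨vv Y b g (p + 2) * ∏ x' ∈ ((range (p + 2)).erase x).erase 0,
          rwB (vv Y b g) p x', ?_⟩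
        rw [prod_link _ _ _ (by simp; omega), ← T_mul_GB (vv_sq Y b hY g) x, GB]
        ring
  hqh := by
    intro x hx
    have h1 : b - 1 ≠ 0 := by omega
    have h3 : vv Y b (b - 1 + 1) (p + 2) = 0 := vv_big Y b p hYn (by omega)
    simp only [rho, row, if_neg h1, h3, ite_self, add_zero, TT, QQ] at hx ⊢
    exact T_mul_GB (vv_sq Y b hY (b - 1)) x

end

section mult

variable {k A : Type*} [Field k] [CommRing A] [Algebra k A] (Y : ℕ → A) (b p : ℕ)

variable (hY : ∀ j, Y j * Y j = 0) (hYn : ∀ j, (p + 3) * b + 1 ≤ j → Y j = 0) (h2b : 2 ≤ b)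
  (h2 : (2 : k) ≠ 0)

/-- The tops of the classes. -/
def om (i : ℕ) : A := vv Y b i 0 * vv Y b i (p + 2) * mon (vv Y b i) 1 (p + 1)

open FamA in
/-- The multipliers. -/
def mult : Mult (k := k) (chain Y b p hY hYn h2b) where
  ω := om Y b p
  L := fun i => if i = 0 then (2⁻¹ : k) • vv Y b 0 (p + 2) else
    (2⁻¹ : k) • (vv Y b i 0 - vv Y b i 1)
  H := fun i => (2⁻¹ : k) • (vv Y b i 0 + vv Y b i (p + 1))
  l := fun _ x => if x = 0 then 1 else 0
  η := fun _ x => if x = p + 1 then 1 else 0
  hLf := by
    intro i hi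
    rcases Nat.eq_zero_or_pos i with h | h
    · subst h
      simp only [chain, om, QQ, if_true, smul_mul_assoc]
      exact half_smul h2 (T_mul_GC_zero (vv_sq Y b hY 0))
    · simp only [chain, om, QQ, if_neg (show i ≠ 0 by omega), smul_mul_assoc]
      exact half_smul h2 (LB_f (vv_sq Y b hY i))
  hLΦ := by
    intro i hi
    rcases Nat.eq_zero_or_pos i with h | h
    · subst h
      simp only [chain, PP, if_true, mul_zero]
    · simp only [chain, PP, if_neg (show i ≠ 0 by omega), smul_mul_assoc]
      rw [LB_q (vv_sq Y b hY i) (by omega) le_rfl, smul_zero]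
  hHf := by
    intro i hi h1
    simp only [chain, QQ, if_neg (show i ≠ 0 by omega), smul_mul_assoc]
    rw [HA_GA (vv_sq Y b hY i) (by omega), smul_zero]
  hHΦ := by
    intro i hi h1
    simp only [chain, om, PP, if_neg (show i ≠ 0 by omega), smul_mul_assoc]
    exact half_smul h2 (HA_GA_last (vv_sq Y b hY i))
  hLq := by
    intro i hi x hx
    rcases Nat.eq_zero_or_pos i with h | h
    · subst h
      have hx' : x < p + 3 := by simpa [chain, rho] using hx
      simp only [chain, om, QQ, if_true, smul_mul_assoc]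
      rcases Nat.eq_zero_or_pos x with h0 | h0
      · subst h0
        rw [if_pos rfl, one_smul]
        exact half_smul h2 (T_mul_GC_zero (vv_sq Y b hY 0))
      · rw [if_neg (by omega), zero_smul, T_mul_GC (vv_sq Y b hY 0) h0 hx', smul_zero]
    · have hx' : x < p + 2 := by simpa [chain, rho, (show i ≠ 0 by omega)] using hx
      simp only [chain, om, QQ, if_neg (show i ≠ 0 by omega), smul_mul_assoc]
      rcases Nat.eq_zero_or_pos x with h0 | h0
      · subst h0
        rw [if_pos rfl, one_smul]
        exact half_smul h2 (LB_f (vv_sq Y b hY i))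
      · rw [if_neg (by omega), zero_smul, LB_q (vv_sq Y b hY i) h0 (by omega), smul_zero]
  hHq := by
    intro i hi h1 x hx
    have hx' : x < p + 2 := by simpa [chain, rho, (show i ≠ 0 by omega)] using hx
    simp only [chain, om, QQ, if_neg (show i ≠ 0 by omega), smul_mul_assoc]
    by_cases hxp : x = p + 1
    · subst hxp
      rw [if_pos rfl, one_smul]
      exact half_smul h2 (HA_GA_last (vv_sq Y b hY i))
    · rw [if_neg hxp, zero_smul, HA_GA (vv_sq Y b hY i) (by omega), smul_zero]
  hLC := by
    intro i hi h1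
    exfalso
    have h3 : b - 1 < i := h1
    have h4 : i < b := hi
    omega

end mult

end FamB

end Pool.Agent.HankelPerm
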