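import Pool.Agent.HankelPerm.FamB
import Pool.Agent.HankelPerm.FamAElim

/-!
Scalar relations and elimination for the second link family.
-/

namespace Pool.Agent.HankelPerm

open Finset

namespace FamB

open FamA (W1 W2 sum_wΨ sum_wf W2_succ W2_succ' half_smul)

section

variable {k A : Type*} [Field k] [CommRing A] [Algebra k A] (Y : ℕ → A) (b p : ℕ) (d : ℤ → k)

/-- The rows of the tangent vector. -/
def DD (g x : ℕ) : A :=
  ∑ s ∈ range (p + 3), ∑ i ∈ range b, d ((i : ℤ) - g + ((s : ℤ) - x) * b) • vv Y b i s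

variable (hY : ∀ j, Y j * Y j = 0) (hYn : ∀ j, (p + 3) * b + 1 ≤ j → Y j = 0) (h2b : 2 ≤ b)
  (h2 : (2 : k) ≠ 0)

include hY in
theorem vv_mul_om {i s : ℕ} (hs : s < p + 3) : vv Y b i s * om Y b p i = 0 := by
  simp only [om]
  rcases Nat.eq_zero_or_pos s with h1 | h1
  · subst h1
    linear_combination (vv Y b i (p + 2) * mon (vv Y b i) 1 (p + 1)) * vv_sq Y b hY i 0
  · rcases Nat.lt_or_ge s (p + 2) with h3 | h3
    · have := mul_mon (vv_sq Y b hY i) (s := s) (a := 1) (l := p + 1) h1 (by omega)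
      linear_combination (vv Y b i 0 * vv Y b i (p + 2)) * this
    · have : s = p + 2 := by omega
      subst this
      linear_combination (vv Y b i 0 * mon (vv Y b i) 1 (p + 1)) * vv_sq Y b hY i (p + 2)

include hY in
theorem DD_mul {β : ℕ} (hβ : β < b) (g x : ℕ) (Z : A) (e : ℕ → k)
    (h : ∀ s < p + 3, d ((β : ℤ) - g + ((s : ℤ) - x) * b) • (vv Y b β s * Z) =
      (d ((β : ℤ) - g + ((s : ℤ) - x) * b) * e s) • om Y b p β) :
    DD Y b p d g x * ((∏ i ∈ (range b).erase β, om Y b p i) * Z) =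
      (∑ s ∈ range (p + 3), d ((β : ℤ) - g + ((s : ℤ) - x) * b) * e s) •
        ∏ i ∈ range b, om Y b p i := by
  rw [DD, Finset.sum_mul, Finset.sum_smul]
  refine Finset.sum_congr rfl fun s hs => ?_
  rw [mem_range] at hs
  rw [Finset.sum_mul, Finset.sum_eq_single β]
  · rw [← Finset.mul_prod_erase (range b) (om Y b p) (mem_range.mpr hβ), ← smul_mul_assoc,
      ← h s hs]
    simp only [smul_mul_assoc]
    congr 1
    ring
  · intro i hi hne
    have h1 : i ∈ (range b).erase β := by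
      rw [mem_erase]; exact ⟨hne, hi⟩
    rw [← Finset.mul_prod_erase _ _ h1, smul_mul_assoc]
    have h3 := vv_mul_om Y b p hY (i := i) hs
    have h4 : vv Y b i s * (om Y b p i * (∏ x ∈ ((range b).erase β).erase i, om Y b p x) * Z) =
        0 := by
      linear_combination ((∏ x ∈ ((range b).erase β).erase i, om Y b p x) * Z) * h3
    rw [h4, smul_zero]
  · intro hno
    exact absurd (mem_range.mpr hβ) hno

/-- Scalars of the summands. -/
theorem Sum_scal {β : ℕ} (hβ : β < b) {g : ℕ} (χ : ℕ → k) (e : ℕ → ℕ → k)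
    (h : ∀ x < rho p g, ∀ s < p + 3, d ((β : ℤ) - g + ((s : ℤ) - x) * b) •
      (vv Y b β s * (chain Y b p hY hYn h2b).Z g x β) =
      (d ((β : ℤ) - g + ((s : ℤ) - x) * b) * e x s) • om Y b p β) :
    (mult (k := k) Y b p hY hYn h2b h2).Sum (DD Y b p d) β g χ =
      (∑ x ∈ range (rho p g), χ x * ∑ s ∈ range (p + 3),
        d ((β : ℤ) - g + ((s : ℤ) - x) * b) * e x s) • ∏ i ∈ range b, om Y b p i := by
  rw [Mult.Sum, Finset.sum_smul]
  refine Finset.sum_congr rfl fun x hx => ?_
  rw [mem_range] at hx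
  rw [mul_smul]
  congr 1
  exact DD_mul Y b p d hY hβ g x _ (e x) (h x hx)

/-! Weights. -/

theorem wΦ {β g x s : ℕ} (hgβ : g < β) (hβ : β < b) (hs : s < p + 3) :
    vv Y b β s * (chain Y b p hY hYn h2b).Z g x β =
      (if s ≤ p + 1 then (1 : k) else 0) • om Y b p β := by
  have h1 : (chain Y b p hY hYn h2b).Z g x β = vv Y b β (p + 2) * GA (vv Y b β) p (p + 1) := by
    rw [Chain.Z, if_neg (by omega), if_neg (by omega), if_pos (by simp only [chain]; omega)]
    simp only [chain, PP, if_neg (show β ≠ 0 by omega)]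
  rw [h1]
  simp only [om]
  rcases Nat.lt_or_ge s (p + 2) with h3 | h3
  · rw [wtB_Φ (vv_sq Y b hY β) (by omega), if_pos (by omega), one_smul]
  · have : s = p + 2 := by omega
    subst this
    rw [wt_f_last (vv_sq Y b hY β), if_neg (by omega), zero_smul]

theorem wf {β g x s : ℕ} (hβ : 1 ≤ β) (hgβ : β < g) (hs : s < p + 3) :
    vv Y b β s * (chain Y b p hY hYn h2b).Z g x β =
      (if s = 0 then (1 : k) else if s ≤ p + 1 then -1 else 0) • om Y b p β := by
  have h1 : (chain Y b p hY hYn h2b).Z g x β = vv Y b β (p + 2) * GA (vv Y b β) p 0 := by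
    rw [Chain.Z, if_pos hgβ]
    simp only [chain, QQ, if_neg (show β ≠ 0 by omega)]
  rw [h1]
  simp only [om]
  rcases Nat.eq_zero_or_pos s with h | h
  · subst h
    rw [wt_f_zero (vv_sq Y b hY β), if_pos rfl, one_smul]
  · rw [if_neg (by omega)]
    rcases Nat.lt_or_ge s (p + 2) with h3 | h3
    · rw [wt_f_mid (vv_sq Y b hY β) h (by omega), if_pos (by omega), neg_smul, one_smul]
    · have : s = p + 2 := by omega
      subst this
      rw [wt_f_last (vv_sq Y b hY β), if_neg (by omega), zero_smul]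

theorem wf0 {g x s : ℕ} (hg : 1 ≤ g) (hs : s < p + 3) :
    vv Y b 0 s * (chain Y b p hY hYn h2b).Z g x 0 =
      (if s = p + 2 then (2 : k) else 0) • om Y b p 0 := by
  have h1 : (chain Y b p hY hYn h2b).Z g x 0 = GC (vv Y b 0) p 0 := by
    rw [Chain.Z, if_pos (by omega)]
    simp only [chain, QQ, if_true]
  rw [h1]
  by_cases h : s = p + 2
  · subst h
    rw [if_pos rfl, T_mul_GC_zero (vv_sq Y b hY 0), Algebra.smul_def, map_ofNat]
    rfl
  · rw [if_neg h, wtC_zero (vv_sq Y b hY 0) (by omega), zero_smul]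

theorem sum_w0 (g x : ℤ) :
    ∑ s ∈ range (p + 3), d (((0 : ℕ) : ℤ) - g + ((s : ℤ) - x) * b) *
      (if s = p + 2 then (2 : k) else 0) = 2 * d (b - g + (p + 1 - x) * b) := by
  rw [Finset.sum_eq_single (p + 2)]
  · rw [if_pos rfl, mul_comm]
    congr 2
    push_cast
    ring
  · intro s _ hs
    rw [if_neg hs, mul_zero]
  · intro hno; exact absurd (mem_range.mpr (by omega)) hno

/-! Scalar relations. -/

variable (hD : (chain Y b p hY hYn h2b).Tot (DD Y b p d) = 0)
  (hnd : ∀ c : k, c • ∏ i ∈ range b, om Y b p i = 0 → c = 0)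

include h2 hD hnd

theorem mid_ysc {β g x : ℕ} (hβ : β < b) (hg : g < b) (hgβ : g ≠ β) (h1x : 1 ≤ x)
    (hx : x ≤ p) (e : ℕ → k)
    (he : ∀ x' < rho p g, ∀ s < p + 3, vv Y b β s *
      (chain Y b p hY hYn h2b).Z g x' β = e s • om Y b p β) :
    ∑ s ∈ range (p + 3), d ((β : ℤ) - g + ((s : ℤ) - x) * b) * e s = 0 := by
  have hgh : g ≤ (chain Y b p hY hYn h2b).h := by
    have : g ≤ b - 1 := by omega
    exact this
  have key := (mult (k := k) Y b p hY hYn h2b h2).mid hD hβ hgh hgβ
    ((2⁻¹ : k) • (vv Y b g x - vv Y b g (x + 1)))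
    (fun x' => if x' = x then 1 else 0) ?_ ?_ ?_
  · have h3 := Sum_scal Y b p d hY hYn h2b h2 hβ (g := g)
      (fun x' => if x' = x then 1 else 0) (fun _ => e)
      (fun x' hx' s hs => by rw [he x' hx' s hs, smul_smul])
    rw [Mult.Sum, key] at h3
    have h4 := hnd _ h3.symm
    simp only [ite_mul, zero_mul, one_mul] at h4
    rw [Finset.sum_ite_eq' (range (rho p g)) x, if_pos (by
      rw [mem_range, rho]; split_ifs <;> omega)] at h4
    exact h4
  · rcases Nat.eq_zero_or_pos g with h | h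
    · subst h
      simp only [chain, QQ, if_true, smul_mul_assoc]
      rw [midC_GC (vv_sq Y b hY 0) h1x hx (by omega), smul_zero]
    · simp only [chain, QQ, if_neg (show g ≠ 0 by omega), smul_mul_assoc]
      rw [mul_left_comm, mid_GA (vv_sq Y b hY g) h1x hx (by omega), mul_zero, smul_zero]
  · intro h
    simp only [chain, PP, if_neg (show g ≠ 0 by omega), smul_mul_assoc]
    rw [mul_left_comm, mid_GA (vv_sq Y b hY g) h1x hx (by omega), mul_zero, smul_zero]
  · intro x' hx'
    rcases Nat.eq_zero_or_pos g with h | h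
    · subst h
      simp only [chain, QQ, if_true, smul_mul_assoc]
      by_cases hxx : x' = x
      · subst hxx
        rw [midC_GC_self (vv_sq Y b hY 0) h1x hx, if_pos rfl, one_smul, half_smul h2 rfl]
        rfl
      · rw [midC_GC (vv_sq Y b hY 0) h1x hx hxx, if_neg hxx, smul_zero, zero_smul]
    · simp only [chain, QQ, if_neg (show g ≠ 0 by omega), smul_mul_assoc]
      by_cases hxx : x' = x
      · subst hxx
        rw [mid_GA_self (vv_sq Y b hY g) h1x hx, if_pos rfl, one_smul, half_smul h2 rfl]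
        rfl
      · rw [mul_left_comm, mid_GA (vv_sq Y b hY g) h1x hx hxx, if_neg hxx, mul_zero,
          smul_zero, zero_smul]

/-- The relation from the special multiplier of the class `0`. -/
theorem sp_rel {e : ℕ} (h1 : 1 ≤ e) (he : e < b) :
    W2 b p d e (-(p + 1)) + W2 b p d e (-(p + 2)) = 0 := by
  have key := (mult (k := k) Y b p hY hYn h2b h2).mid hD he (g := 0) (Nat.zero_le _)
    (by omega) ((2⁻¹ : k) • (vv Y b 0 0 + vv Y b 0 (p + 1)))
    (fun x' => if p + 1 ≤ x' then 1 else 0) ?_ ?_ ?_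
  · have h3 := Sum_scal Y b p d hY hYn h2b h2 he (g := 0)
      (fun x' => if p + 1 ≤ x' then 1 else 0) (fun _ s => if s ≤ p + 1 then 1 else 0)
      (fun x' hx' s hs => by
        rw [wΦ (k := k) Y b p hY hYn h2b (by omega) he hs, smul_smul])
    rw [Mult.Sum, key] at h3
    have h4 := hnd _ h3.symm
    simp only [sum_wΨ, rho, if_true, ite_mul, one_mul, zero_mul, Nat.cast_zero, sub_zero] at h4
    rw [show p + 3 = p + 1 + 1 + 1 by ring, sum_range_succ, sum_range_succ,
      Finset.sum_eq_zero, zero_add, if_pos le_rfl, if_pos (by omega)] at h4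
    · rw [← h4]
      congr 2
    · intro x hx
      rw [mem_range] at hx
      rw [if_neg (by omega)]
  · simp only [chain, QQ, if_true, smul_mul_assoc]
    rw [spC_zero (vv_sq Y b hY 0), smul_zero]
  · intro h; omega
  · intro x' hx'
    have hx'' : x' < p + 3 := by simpa [chain, rho] using hx'
    simp only [chain, QQ, if_true, smul_mul_assoc]
    by_cases hxx : p + 1 ≤ x'
    · rw [spC_last (vv_sq Y b hY 0) hxx hx'', if_pos hxx, one_smul, half_smul h2 rfl]
      rfl
    · rw [if_neg hxx, zero_smul]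
      rcases Nat.eq_zero_or_pos x' with h0 | h0
      · subst h0
        rw [spC_zero (vv_sq Y b hY 0), smul_zero]
      · rw [spC_mid (vv_sq Y b hY 0) h0 (by omega), smul_zero]

theorem cutA_scal {β c : ℕ} (hβ : β < b) (hc : c + 1 < b) (h1 : β ≠ c) (h3 : β ≠ c + 1)
    (e e' : ℕ → k)
    (he : ∀ x < rho p c, ∀ s < p + 3, vv Y b β s *
      (chain Y b p hY hYn h2b).Z c x β = e s • om Y b p β)
    (he' : ∀ x < rho p (c + 1), ∀ s < p + 3, vv Y b β s *
      (chain Y b p hY hYn h2b).Z (c + 1) x β = e' s • om Y b p β) :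
    ∑ s ∈ range (p + 3), d ((β : ℤ) - c + ((s : ℤ) - (0 : ℕ)) * b) * e s +
      ∑ s ∈ range (p + 3), d ((β : ℤ) - (c + 1 : ℕ) + ((s : ℤ) - (p + 1 : ℕ)) * b) * e' s = 0 := by
  have key := (mult (k := k) Y b p hY hYn h2b h2).cutA hD (β := β) (c := c) hβ
    (by have : c + 1 ≤ b - 1 := by omega
        exact this) h1 h3
  rw [Sum_scal Y b p d hY hYn h2b h2 hβ _ (fun _ => e)
      (fun x' hx' s hs => by rw [he x' hx' s hs, smul_smul]),
    Sum_scal Y b p d hY hYn h2b h2 hβ _ (fun _ => e')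
      (fun x' hx' s hs => by rw [he' x' hx' s hs, smul_smul]), ← add_smul] at key
  have h4 := hnd _ key
  simp only [mult, one_mul, ite_mul, zero_mul] at h4
  rw [Finset.sum_ite_eq' (range (rho p c)) 0, if_pos (by
      rw [mem_range, rho]; split_ifs <;> omega),
    Finset.sum_ite_eq' (range (rho p (c + 1))) (p + 1), if_pos (by
      rw [mem_range, rho]; split_ifs <;> omega)] at h4
  exact h4

theorem cutL_scal {β : ℕ} (hβ : β < b) (h1 : β ≠ b - 1) (e : ℕ → k)
    (he : ∀ x < rho p (b - 1), ∀ s < p + 3, vv Y b β s *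
      (chain Y b p hY hYn h2b).Z (b - 1) x β = e s • om Y b p β) :
    ∑ s ∈ range (p + 3), d ((β : ℤ) - (b - 1 : ℕ) + ((s : ℤ) - (0 : ℕ)) * b) * e s = 0 := by
  have key := (mult (k := k) Y b p hY hYn h2b h2).cutL hD (β := β) hβ h1
  have e1 : (chain Y b p hY hYn h2b).h = b - 1 := rfl
  rw [e1] at key
  rw [Sum_scal Y b p d hY hYn h2b h2 hβ _ (fun _ => e)
      (fun x' hx' s hs => by rw [he x' hx' s hs, smul_smul])] at key
  have h4 := hnd _ key
  simp only [mult, one_mul, ite_mul, zero_mul] at h4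
  rw [Finset.sum_ite_eq' (range (rho p (b - 1))) 0, if_pos (by
      rw [mem_range, rho]; split_ifs <;> omega)] at h4
  exact h4

/-! Relations between windows. -/

theorem relA {e : ℕ} {z : ℤ} (h1 : 1 ≤ e) (he : e < b) (hz1 : 1 ≤ z) (hz2 : z ≤ p) :
    d (e + z * b) = 0 := by
  have h3 := mid_ysc Y b p d hY hYn h2b h2 hD hnd (β := 0) (g := b - e)
    (x := (p + 1 - z).toNat) (by omega) (by omega) (by omega) (by omega) (by omega) _
    (fun x' _ s hs => wf0 (k := k) Y b p hY hYn h2b (by omega) hs)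
  rw [sum_w0] at h3
  have h4 := (mul_eq_zero.mp h3).resolve_left h2
  rw [← h4]
  congr 1
  rw [Int.toNat_of_nonneg (by omega)]
  push_cast [Nat.cast_sub he.le]
  ring

theorem relBa {e : ℕ} (h1 : 2 ≤ e) (he : e < b) : d (e + (p + 1) * b) + d (e - 1) = 0 := by
  have h3 := cutA_scal Y b p d hY hYn h2b h2 hD hnd (β := 0) (c := b - e) (by omega) (by omega)
    (by omega) (by omega) _ _
    (fun x' _ s hs => wf0 (k := k) Y b p hY hYn h2b (by omega) hs)
    (fun x' _ s hs => wf0 (k := k) Y b p hY hYn h2b (by omega) hs)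
  rw [sum_w0, sum_w0, ← mul_add] at h3
  have h4 := (mul_eq_zero.mp h3).resolve_left h2
  rw [← h4]
  congr 1
  · congr 1
    push_cast [Nat.cast_sub he.le]
    ring
  · congr 1
    push_cast [Nat.cast_sub he.le]
    ring

theorem relBb : d (1 + (p + 1) * b) = 0 := by
  have h3 := cutL_scal Y b p d hY hYn h2b h2 hD hnd (β := 0) (by omega) (by omega) _
    (fun x' _ s hs => wf0 (k := k) Y b p hY hYn h2b (by omega) hs)
  rw [sum_w0] at h3
  have h4 := (mul_eq_zero.mp h3).resolve_left h2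
  rw [← h4]
  congr 1
  push_cast [Nat.cast_sub (show 1 ≤ b by omega)]
  ring

theorem relC {e : ℕ} (h1 : 2 ≤ e) (he : e < b) :
    W2 b p d e 0 + W2 b p d (e - 1) (-(p + 1)) = 0 := by
  have h3 := cutA_scal Y b p d hY hYn h2b h2 hD hnd (β := e) (c := 0) he (by omega)
    (by omega) (by omega) _ _
    (fun x' _ s hs => wΦ (k := k) Y b p hY hYn h2b (by omega) he hs)
    (fun x' _ s hs => wΦ (k := k) Y b p hY hYn h2b (by omega) he hs)
  rw [sum_wΨ, sum_wΨ] at h3
  rw [← h3]
  congr 2

theorem relD {e x : ℕ} (h1 : 1 ≤ e) (he : e < b) (h1x : 1 ≤ x) (hx : x ≤ p) :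
    W2 b p d e (-x) = 0 := by
  have h3 := mid_ysc Y b p d hY hYn h2b h2 hD hnd (β := e) (g := 0)
    (x := x) he (by omega) (by omega) h1x hx _
    (fun x' _ s hs => wΦ (k := k) Y b p hY hYn h2b (by omega) he hs)
  rw [sum_wΨ] at h3
  simpa using h3

/-- Double entries: rows of the last class against a smaller class. -/
theorem relF {e j : ℕ} (h1 : 2 ≤ e) (he : e < b) (h1j : 1 ≤ j) (hj : j ≤ p + 1) :
    2 * d (e + -(j : ℤ) * b) - W2 b p d e (-j) = 0 := by
  have hconv : ∀ x : ℤ, d (((e - 1 : ℕ) : ℤ) - (b - 1 : ℕ) - x * b) -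
      W1 b p d (((e - 1 : ℕ) : ℤ) - (b - 1 : ℕ)) (1 - x) =
      2 * d (e + -(x + 1) * b) - W2 b p d e (-(x + 1)) := by
    intro x
    have e1 : ((e - 1 : ℕ) : ℤ) - (b - 1 : ℕ) = e - b := by omega
    rw [e1, W2_succ', W1, W1]
    have e2 : ∀ s : ℕ, d ((e : ℤ) - b + (1 - x + s) * b) = d (e + (-(x + 1) + 1 + s) * b) := by
      intro s; congr 1; ring
    simp only [e2]
    rw [show (e : ℤ) - b - x * b = e + -(x + 1) * b by ring]
    ring
  rcases Nat.lt_or_ge 1 j with h | h
  · have h3 := mid_ysc Y b p d hY hYn h2b h2 hD hnd (β := e - 1) (g := b - 1)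
      (x := j - 1) (by omega) (by omega) (by omega) (by omega) (by omega) _
      (fun x' _ s hs => wf (k := k) Y b p hY hYn h2b (by omega) (by omega) hs)
    rw [sum_wf, hconv] at h3
    rw [← h3]
    congr 3
    · push_cast [Nat.cast_sub (show 1 ≤ j by omega)]
      ring
    · push_cast [Nat.cast_sub (show 1 ≤ j by omega)]
      ring
  · have : j = 1 := by omega
    subst this
    have h3 := cutL_scal Y b p d hY hYn h2b h2 hD hnd (β := e - 1) (by omega) (by omega) _
      (fun x' _ s hs => wf (k := k) Y b p hY hYn h2b (by omega) (by omega) hs)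
    rw [sum_wf, hconv] at h3
    rw [← h3]
    norm_num

/-- The last row of the last class. -/
theorem relG {e : ℕ} (h1 : 2 ≤ e) (he : e + 1 < b) :
    2 * d (e + -(p + 2) * b) - W2 b p d e (-(p + 2)) = 0 := by
  have h3 := cutA_scal Y b p d hY hYn h2b h2 hD hnd (β := e - 1) (c := b - 2) (by omega)
    (by omega) (by omega) (by omega) _ _
    (fun x' _ s hs => wf (k := k) Y b p hY hYn h2b (by omega) (by omega) hs)
    (fun x' _ s hs => wf (k := k) Y b p hY hYn h2b (by omega) (by omega) hs)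
  have h4 := relF Y b p d hY hYn h2b h2 hD hnd (e := e + 1) (j := 1) (by omega) he le_rfl
    (by omega)
  rw [W2_succ'] at h4
  rw [sum_wf, sum_wf] at h3
  rw [W2_succ']
  have e1 : ((e - 1 : ℕ) : ℤ) - (b - 2 : ℕ) = e + 1 - b := by omega
  have e2 : ((e - 1 : ℕ) : ℤ) - (b - 2 + 1 : ℕ) = e - b := by omega
  rw [e1, e2] at h3
  have e3 : W1 b p d ((e : ℤ) + 1 - b) (1 - ((0 : ℕ) : ℤ)) =
      W1 b p d ((e + 1 : ℕ) : ℤ) (-((1 : ℕ) : ℤ) + 1) := by
    simp only [W1]
    refine Finset.sum_congr rfl fun s _ => ?_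
    congr 1
    push_cast; ring
  have e4 : W1 b p d ((e : ℤ) - b) (1 - ((p + 1 : ℕ) : ℤ)) = W1 b p d e (-(p + 2) + 1) := by
    simp only [W1]
    refine Finset.sum_congr rfl fun s _ => ?_
    congr 1
    push_cast; ring
  have e5 : (e : ℤ) + 1 - b - ((0 : ℕ) : ℤ) * b = ((e + 1 : ℕ) : ℤ) + -((1 : ℕ) : ℤ) * b := by
    push_cast; ring
  have e6 : (e : ℤ) - b - ((p + 1 : ℕ) : ℤ) * b = e + -(p + 2) * b := by
    push_cast; ring
  rw [e3, e4, e5, e6] at h3
  linear_combination h3 - h4

/-! The relations with the own class. -/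

omit h2 hD hnd in
theorem own_term {β : ℕ} (h1 : 1 ≤ β)
    (hF : ∀ z : ℤ, -(p + 2) ≤ z → z ≤ p → d (z * b) = 0) :
    ∀ x < rho p β, ∀ s < p + 3, d ((β : ℤ) - β + ((s : ℤ) - x) * b) •
      (vv Y b β s * (chain Y b p hY hYn h2b).Z β x β) =
      (d ((β : ℤ) - β + ((s : ℤ) - x) * b) * (if x = 0 ∧ s = p + 1 then (-1 : k) else 0)) •
        om Y b p β := by
  intro x hx s hs
  have hx' : x < p + 2 := by simpa only [rho, if_neg (show β ≠ 0 by omega)] using hx
  have hZ : (chain Y b p hY hYn h2b).Z β x β = vv Y b β (p + 2) * GA (vv Y b β) p x := by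
    rw [Chain.Z, if_neg (by omega), if_pos rfl]
    simp only [chain, QQ, if_neg (show β ≠ 0 by omega)]
  rw [hZ]
  by_cases h : x = 0 ∧ s = p + 1
  · obtain ⟨rfl, rfl⟩ := h
    rw [if_pos ⟨rfl, rfl⟩, mul_smul]
    congr 1
    rw [wt_f_mid (vv_sq Y b hY β) (by omega) le_rfl, neg_smul, one_smul]
    rfl
  · rw [if_neg h, mul_zero, zero_smul]
    by_cases h5 : s = p + 2
    · subst h5
      rw [wt_f_last (vv_sq Y b hY β), smul_zero]
    · have h6 : d ((β : ℤ) - β + ((s : ℤ) - x) * b) = 0 := by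
        have := hF ((s : ℤ) - x) (by omega) (by omega)
        rw [← this]
        congr 1
        ring
      rw [h6, zero_smul]

omit h2 hD hnd in
theorem own_sum {β : ℕ} :
    ∑ x ∈ range (rho p β), ∑ s ∈ range (p + 3), d ((β : ℤ) - β + ((s : ℤ) - x) * b) *
      (if x = 0 ∧ s = p + 1 then (-1 : k) else 0) = - d ((p + 1) * b) := by
  rw [Finset.sum_eq_single 0, Finset.sum_eq_single (p + 1)]
  · rw [if_pos ⟨rfl, rfl⟩, mul_neg, mul_one]
    congr 2
    push_cast; ring
  · intro s _ hs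
    rw [if_neg (by omega), mul_zero]
  · intro hno; exact absurd (mem_range.mpr (by omega)) hno
  · intro x _ hx
    refine Finset.sum_eq_zero fun s _ => ?_
    rw [if_neg (by omega), mul_zero]
  · intro hno
    exact absurd (mem_range.mpr (by rw [rho]; split_ifs <;> omega)) hno

theorem relH (hF : ∀ z : ℤ, -(p + 2) ≤ z → z ≤ p → d (z * b) = 0) :
    W2 b p d 1 0 - d ((p + 1) * b) = 0 := by
  have key := (mult (k := k) Y b p hY hYn h2b h2).cutBh hD (β := b - 2)
    (by have : b - 2 + 1 = b - 1 := by omega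
        exact this)
  rw [Sum_scal Y b p d hY hYn h2b h2 (β := b - 2 + 1) (g := b - 2) (by omega)
      _ (fun _ s => if s ≤ p + 1 then (1 : k) else 0)
      (fun x' hx' s hs => by
        rw [wΦ (k := k) Y b p hY hYn h2b (by omega) (by omega) hs, smul_smul]),
    Sum_scal Y b p d hY hYn h2b h2 (β := b - 2 + 1) (g := b - 2 + 1) (by omega)
      _ (fun x s => if x = 0 ∧ s = p + 1 then (-1 : k) else 0)
      (own_term Y b p d hY hYn h2b (by omega) hF), ← add_smul] at key
  have h4 := hnd _ key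
  simp only [mult, one_mul, own_sum, sum_wΨ, ite_mul, zero_mul] at h4
  rw [show ((b - 2 + 1 : ℕ) : ℤ) - (b - 2 : ℕ) = 1 by omega,
    Finset.sum_ite_eq' (range (rho p (b - 2))) 0, if_pos (by
      rw [mem_range, rho]; split_ifs <;> omega)] at h4
  rw [← h4, Nat.cast_zero, neg_zero]
  ring

theorem relI (h3b : 3 ≤ b) (hF : ∀ z : ℤ, -(p + 2) ≤ z → z ≤ p → d (z * b) = 0) :
    W2 b p d 1 0 - d ((p + 1) * b) +
      (2 * d ((b - 1) + -(p + 2) * b) - W2 b p d (b - 1) (-(p + 2))) = 0 := by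
  have key := (mult (k := k) Y b p hY hYn h2b h2).cutB hD (β := b - 3)
    (by have : b - 3 + 1 < b - 1 := by omega
        exact this)
  rw [Sum_scal Y b p d hY hYn h2b h2 (β := b - 3 + 1) (g := b - 3) (by omega)
      _ (fun _ s => if s ≤ p + 1 then (1 : k) else 0)
      (fun x' hx' s hs => by
        rw [wΦ (k := k) Y b p hY hYn h2b (by omega) (by omega) hs, smul_smul]),
    Sum_scal Y b p d hY hYn h2b h2 (β := b - 3 + 1) (g := b - 3 + 1) (by omega)
      _ (fun x s => if x = 0 ∧ s = p + 1 then (-1 : k) else 0)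
      (own_term Y b p d hY hYn h2b (by omega) hF),
    Sum_scal Y b p d hY hYn h2b h2 (β := b - 3 + 1) (g := b - 3 + 2) (by omega)
      _ (fun _ s => if s = 0 then (1 : k) else if s ≤ p + 1 then -1 else 0)
      (fun x' hx' s hs => by
        rw [wf (k := k) Y b p hY hYn h2b (by omega) (by omega) hs, smul_smul]),
    ← add_smul, ← add_smul] at key
  have h4 := hnd _ key
  simp only [mult, one_mul, own_sum, sum_wΨ, sum_wf, ite_mul, zero_mul] at h4
  rw [show ((b - 3 + 1 : ℕ) : ℤ) - (b - 3 : ℕ) = 1 by omega,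
    show ((b - 3 + 1 : ℕ) : ℤ) - (b - 3 + 2 : ℕ) = -1 by omega,
    Finset.sum_ite_eq' (range (rho p (b - 3))) 0, if_pos (by
      rw [mem_range, rho]; split_ifs <;> omega),
    Finset.sum_ite_eq' (range (rho p (b - 3 + 2))) (p + 1), if_pos (by
      rw [mem_range, rho]; split_ifs <;> omega), Nat.cast_zero, neg_zero] at h4
  have e7 := W2_succ' b p d ((b : ℤ) - 1) (-(p + 2))
  have e4 : W1 b p d (-1 : ℤ) (1 - ((p + 1 : ℕ) : ℤ)) =
      W1 b p d ((b : ℤ) - 1) (-(p + 2) + 1) := by
    simp only [W1]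
    refine Finset.sum_congr rfl fun s _ => ?_
    congr 1
    push_cast; ring
  have e6 : (-1 : ℤ) - ((p + 1 : ℕ) : ℤ) * b = (b : ℤ) - 1 + -(p + 2) * b := by
    push_cast; ring
  rw [e4, e6] at h4
  linear_combination h4 - e7

theorem relJ (hF : ∀ z : ℤ, -(p + 2) ≤ z → z ≤ p + 1 → d (z * b) = 0) :
    d ((p + 2) * b) + d (b - 1) = 0 := by
  have key := (mult (k := k) Y b p hY hYn h2b h2).cutB0 hD
    (by have : 1 ≤ b - 1 := by omega
        exact this)
  rw [Sum_scal Y b p d hY hYn h2b h2 (β := 0) (g := 0) (by omega) _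
      (fun x s => if x = 0 ∧ s = p + 2 then 2 else 0) (fun x hx s hs => by
        have hx' : x < p + 3 := by simpa only [rho, if_true] using hx
        have hZ : (chain Y b p hY hYn h2b).Z 0 x 0 = GC (vv Y b 0) p x := by
          rw [Chain.Z, if_neg (by omega), if_pos rfl]
          simp only [chain, QQ, if_true]
        rw [hZ]
        by_cases h : x = 0 ∧ s = p + 2
        · obtain ⟨rfl, rfl⟩ := h
          rw [if_pos ⟨rfl, rfl⟩, mul_smul]
          congr 1
          rw [T_mul_GC_zero (vv_sq Y b hY 0), Algebra.smul_def, map_ofNat]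
          rfl
        · rw [if_neg h, mul_zero, zero_smul]
          have h5 : d (((0 : ℕ) : ℤ) - (0 : ℕ) + ((s : ℤ) - x) * b) = 0 := by
            have := hF ((s : ℤ) - x) (by omega) (by omega)
            rw [← this]
            congr 1
            push_cast; ring
          rw [h5, zero_smul]),
    Sum_scal Y b p d hY hYn h2b h2 (β := 0) (g := 1) (by omega) _
      (fun _ s => if s = p + 2 then (2 : k) else 0)
      (fun x' hx' s hs => by
        rw [wf0 (k := k) Y b p hY hYn h2b (by omega) hs, smul_smul]), ← add_smul] at key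
  have h4 := hnd _ key
  simp only [mult, one_mul, ite_mul, zero_mul] at h4
  rw [Finset.sum_ite_eq' (range (rho p 1)) (p + 1), if_pos (by
      rw [mem_range, rho]; split_ifs <;> omega),
    sum_w0, Finset.sum_eq_single 0, Finset.sum_eq_single (p + 2)] at h4
  · have h5 : (2 : k) * (d ((p + 2) * b) + d (b - 1)) = 0 := by
      rw [← h4, if_pos ⟨rfl, rfl⟩, mul_add, mul_comm (d _) 2]
      congr 3
      · push_cast; ring
      · push_cast; ring
    exact (mul_eq_zero.mp h5).resolve_left h2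
  · intro s _ hs
    rw [if_neg (by omega), mul_zero]
  · intro hno; exact absurd (mem_range.mpr (by omega)) hno
  · intro x _ hx
    refine Finset.sum_eq_zero fun s _ => ?_
    rw [if_neg (by omega), mul_zero]
  · intro hno
    exact absurd (mem_range.mpr (by rw [rho]; split_ifs <;> omega)) hno

end

end FamB

end Pool.Agent.HankelPerm
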