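import Mathlib

/-!
The Jacobian frame: a prime ideal of a polynomial ring which contains many polynomials with
independent gradients has small transcendence degree.
-/

namespace Pool.Agent.HankelPerm

open MvPolynomial

universe u

variable {k : Type u} [Field k] {N : ℕ}

theorem derivation_aeval {F : Type u} [Field F] [Algebra k F] {M : Type*} [AddCommGroup M]
    [Module F M] [Module k M] [IsScalarTower k F M] (D : Derivation k F M) (x : Fin N → F)
    (p : MvPolynomial (Fin N) k) :
    D (aeval x p) = ∑ i, aeval x (pderiv i p) • D (x i) := by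
  induction p using MvPolynomial.induction_on with
  | C a => simp
  | add p q hp hq => simp [hp, hq, add_smul, Finset.sum_add_distrib]
  | mul_X p j hp =>
    rw [map_mul, Derivation.leibniz, aeval_X, hp, Finset.smul_sum]
    have h : ∀ i, aeval x (pderiv i (p * X j)) • D (x i) =
        x j • aeval x (pderiv i p) • D (x i) +
          (if i = j then aeval x p • D (x i) else 0) := by
      intro i
      rw [Derivation.leibniz, pderiv_X]
      by_cases hij : i = j
      · subst hij
        simp only [smul_eq_mul, map_add, map_mul, aeval_X, Pi.single_eq_same, mul_one,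
          if_true, add_smul, mul_smul]
        rw [add_comm]
      · simp only [smul_eq_mul, map_add, map_mul, aeval_X, if_neg hij, add_zero]
        rw [Pi.single_eq_of_ne' hij]
        simp [mul_smul]
    simp only [h, Finset.sum_add_distrib, Finset.sum_ite_eq', Finset.mem_univ, if_true]
    rw [add_comm]

theorem trdeg_le_of_jacobian {F : Type u} [Field F] [Algebra k F] (x : Fin N → F)
    (htop : IntermediateField.adjoin k (Set.range x) = ⊤)
    {ι : Type*} [Fintype ι] (g : ι → MvPolynomial (Fin N) k) (hg : ∀ a, aeval x (g a) = 0)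
    (hli : LinearIndependent F (fun a : ι => fun i : Fin N => aeval x (pderiv i (g a)))) :
    Algebra.trdeg k F ≤ (N - Fintype.card ι : ℕ) := by
  classical
  set v : ι → Fin N → F := fun a i => aeval x (pderiv i (g a)) with hv
  set W : Submodule F (Fin N → F) := Submodule.span F (Set.range v) with hW
  have hWrank : Module.finrank F W = Fintype.card ι := finrank_span_eq_card hli
  obtain ⟨κ, a, ha, hsp, hli2⟩ := exists_linearIndependent' F
    (fun i : Fin N => W.mkQ (Pi.single i 1))
  have hspan : Submodule.span F (Set.range fun i : Fin N => W.mkQ (Pi.single i 1)) = ⊤ := by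
    have h1 : (Set.range fun i : Fin N => W.mkQ (Pi.single i 1)) =
        W.mkQ '' Set.range (fun i : Fin N => (Pi.single i 1 : Fin N → F)) := by
      rw [← Set.range_comp]; rfl
    have h2 : Submodule.span F (Set.range fun i : Fin N => (Pi.single i 1 : Fin N → F)) = ⊤ := by
      have := (Pi.basisFun F (Fin N)).span_eq
      convert this using 3
      ext i
      simp
    rw [h1, Submodule.span_image, h2, Submodule.map_top, Submodule.range_mkQ]
  have : Finite κ := Finite.of_injective a ha
  have : Fintype κ := Fintype.ofFinite κ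
  have hκ : Fintype.card κ = N - Fintype.card ι := by
    have h1 : Fintype.card κ = Module.finrank F ((Fin N → F) ⧸ W) := by
      rw [← finrank_top F ((Fin N → F) ⧸ W), ← hspan, ← hsp]
      exact (finrank_span_eq_card hli2).symm
    have h2 := Submodule.finrank_quotient_add_finrank W
    rw [Module.finrank_fintype_fun_eq_card, Fintype.card_fin, hWrank] at h2
    omega
  -- the intermediate field
  set s : Set F := Set.range (x ∘ a) with hs
  let K0 := IntermediateField.adjoin k s
  have hess : Algebra.EssFiniteType k F := by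
    rw [← IntermediateField.fg_top_iff]
    refine ⟨Finset.univ.image x, ?_⟩
    rw [Finset.coe_image, Finset.coe_univ, Set.image_univ, htop]
  have : Algebra.EssFiniteType K0 F := Algebra.EssFiniteType.of_comp k K0 F
  have hD : ∀ i, (KaehlerDifferential.D K0 F) (x i) = 0 := by
    set D := (KaehlerDifferential.D K0 F) with hDdef
    let Φ : (Fin N → F) →ₗ[F] (Ω[F⁄K0]) := Fintype.linearCombination F (fun i => D (x i))
    have hΦ : ∀ i, Φ (Pi.single i 1) = D (x i) := by
      intro i
      simp [Φ, Fintype.linearCombination_apply_single]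
    have hW0 : W ≤ LinearMap.ker Φ := by
      rw [hW, Submodule.span_le]
      rintro _ ⟨b, rfl⟩
      rw [SetLike.mem_coe, LinearMap.mem_ker]
      have h1 := derivation_aeval (D.restrictScalars k) x (g b)
      rw [hg b, map_zero] at h1
      simp only [Φ, Fintype.linearCombination_apply, hv]
      exact h1.symm
    have hκ0 : ∀ c : κ, Φ (Pi.single (a c) 1) = 0 := by
      intro c
      rw [hΦ]
      have hmem : x (a c) ∈ K0 := IntermediateField.subset_adjoin k s ⟨c, rfl⟩
      have : x (a c) = algebraMap K0 F ⟨x (a c), hmem⟩ := rfl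
      rw [this, Derivation.map_algebraMap]
    intro i
    rw [← hΦ]
    have h1 : Φ (Pi.single i 1) = W.liftQ Φ hW0 (W.mkQ (Pi.single i 1)) := by
      rw [Submodule.mkQ_apply, Submodule.liftQ_apply]
    rw [h1]
    have h2 : W.mkQ (Pi.single i 1) ∈
        Submodule.span F (Set.range ((fun i : Fin N => W.mkQ (Pi.single i 1)) ∘ a)) := by
      rw [hsp, hspan]; trivial
    have h3 : Submodule.span F (Set.range ((fun i : Fin N => W.mkQ (Pi.single i 1)) ∘ a)) ≤
        LinearMap.ker (W.liftQ Φ hW0) := by
      rw [Submodule.span_le]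
      rintro _ ⟨c, rfl⟩
      rw [SetLike.mem_coe, LinearMap.mem_ker]
      simp only [Function.comp_apply]
      rw [Submodule.mkQ_apply, Submodule.liftQ_apply, hκ0]
    exact h3 h2
  have hD0 : ∀ y : F, (KaehlerDifferential.D K0 F) y = 0 := by
    intro y
    have hy : y ∈ IntermediateField.adjoin k (Set.range x) := by rw [htop]; trivial
    induction hy using IntermediateField.adjoin_induction with
    | mem y hy => obtain ⟨i, rfl⟩ := hy; exact hD i
    | algebraMap c =>
      rw [IsScalarTower.algebraMap_apply k K0 F, Derivation.map_algebraMap]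
    | add y z _ _ hy hz => rw [map_add, hy, hz, add_zero]
    | inv y _ hy => rw [Derivation.leibniz_inv, hy, smul_zero]
    | mul y z _ _ hy hz => rw [Derivation.leibniz, hy, hz, smul_zero, smul_zero, add_zero]
  have : Algebra.FormallyUnramified K0 F := by
    constructor
    have hsub : (⊤ : Submodule F (Ω[F⁄K0])) = ⊥ := by
      rw [← KaehlerDifferential.span_range_derivation, Submodule.span_eq_bot]
      rintro _ ⟨y, rfl⟩
      exact hD0 y
    exact (Submodule.subsingleton_iff F).mp (subsingleton_of_bot_eq_top hsub.symm)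
  have := Algebra.FormallyUnramified.isSeparable K0 F
  have halg : Algebra.IsAlgebraic K0 F := inferInstance
  have : Algebra.IsAlgebraic (Algebra.adjoin k s) F := by
    open scoped IntermediateField.algebraAdjoinAdjoin in
    exact Algebra.IsAlgebraic.trans (Algebra.adjoin k s) K0 F
  refine (Algebra.IsAlgebraic.trdeg_le_cardinalMk k s).trans ?_
  have h5 := Cardinal.mk_range_le_lift (f := x ∘ a)
  rw [Cardinal.mk_fintype κ, hκ, Cardinal.lift_natCast] at h5
  simpa using h5


/-- The point of `Spec k[X]` given by a prime ideal, with values in the fraction field. -/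
noncomputable def genPt (P : Ideal (MvPolynomial (Fin N) k)) [P.IsPrime] (i : Fin N) :
    FractionRing (MvPolynomial (Fin N) k ⧸ P) :=
  algebraMap (MvPolynomial (Fin N) k ⧸ P) _ (Ideal.Quotient.mk P (X i))

theorem aeval_genPt (P : Ideal (MvPolynomial (Fin N) k)) [P.IsPrime]
    (f : MvPolynomial (Fin N) k) :
    aeval (genPt P) f = algebraMap (MvPolynomial (Fin N) k ⧸ P)
      (FractionRing (MvPolynomial (Fin N) k ⧸ P)) (Ideal.Quotient.mk P f) := by
  have h : (aeval (genPt P) : MvPolynomial (Fin N) k →ₐ[k] _) =
      (IsScalarTower.toAlgHom k (MvPolynomial (Fin N) k ⧸ P)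
        (FractionRing (MvPolynomial (Fin N) k ⧸ P))).comp (Ideal.Quotient.mkₐ k P) := by
    apply MvPolynomial.algHom_ext
    intro i
    simp [genPt]
  rw [h]; rfl

theorem aeval_genPt_eq_zero (P : Ideal (MvPolynomial (Fin N) k)) [P.IsPrime]
    (f : MvPolynomial (Fin N) k) : aeval (genPt P) f = 0 ↔ f ∈ P := by
  rw [aeval_genPt, ← Ideal.Quotient.eq_zero_iff_mem]
  constructor
  · intro h
    exact (IsFractionRing.injective (MvPolynomial (Fin N) k ⧸ P)
        (FractionRing (MvPolynomial (Fin N) k ⧸ P))) (by rw [h, map_zero])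
  · intro h; rw [h, map_zero]

theorem adjoin_genPt (P : Ideal (MvPolynomial (Fin N) k)) [P.IsPrime] :
    IntermediateField.adjoin k (Set.range (genPt P)) = ⊤ := by
  rw [eq_top_iff]
  intro y _
  have hmem : ∀ f : MvPolynomial (Fin N) k, aeval (genPt P) f ∈
      IntermediateField.adjoin k (Set.range (genPt P)) := by
    intro f
    have h1 : aeval (genPt P) f ∈ (aeval (genPt P) : MvPolynomial (Fin N) k →ₐ[k] _).range :=
      ⟨f, rfl⟩
    rw [← Algebra.adjoin_range_eq_range_aeval] at h1
    exact IntermediateField.algebra_adjoin_le_adjoin k _ h1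
  obtain ⟨a, b, hb, rfl⟩ := IsFractionRing.div_surjective (A := MvPolynomial (Fin N) k ⧸ P) y
  obtain ⟨a, rfl⟩ := Ideal.Quotient.mk_surjective a
  obtain ⟨b, rfl⟩ := Ideal.Quotient.mk_surjective b
  rw [← aeval_genPt, ← aeval_genPt]
  exact div_mem (hmem a) (hmem b)

/-- `P` lies below the coordinate space of the first `T` variables, but does not contain `X_T`:
then the first `T + 1` variables are algebraically independent modulo `P`. -/
theorem algebraicIndependent_genPt (P : Ideal (MvPolynomial (Fin N) k)) [P.IsPrime] {T : ℕ}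
    (hT : T < N)
    (hL : ∀ f ∈ P, aeval (fun i : Fin N => if (i : ℕ) < T then X i else
      (0 : MvPolynomial (Fin N) k)) f = 0) (hX : X (⟨T, hT⟩ : Fin N) ∉ P) :
    AlgebraicIndependent k (fun i : Fin (T + 1) => genPt P ⟨i, by omega⟩) := by
  classical
  rw [algebraicIndependent_iff]
  intro p hp
  by_contra hp0
  set e : Fin (T + 1) → Fin N := fun i => ⟨i, by omega⟩ with he
  have he' : Function.Injective e := by
    intro i j hij
    have := congrArg Fin.val hij
    exact Fin.ext this
  have hmem : ∀ f : MvPolynomial (Fin (T + 1)) k, aeval (fun i : Fin (T + 1) => genPt P (e i)) f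
      = 0 ↔ rename e f ∈ P := by
    intro f
    rw [← aeval_genPt_eq_zero, aeval_rename]
    rfl
  have hirr : Irreducible (X (Fin.last T) : MvPolynomial (Fin (T + 1)) k) :=
    (X_prime (i := Fin.last T)).irreducible
  obtain ⟨n, a, hna, hpa⟩ := WfDvdMonoid.max_power_factor hp0 hirr
  have h1 : rename e p ∈ P := (hmem p).mp hp
  have h2 : rename e a ∈ P := by
    rw [hpa, map_mul, map_pow, rename_X] at h1
    rcases Ideal.IsPrime.mem_or_mem inferInstance h1 with h | h
    · exact absurd (Ideal.IsPrime.mem_of_pow_mem inferInstance n h) hX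
    · exact h
  have h3 := hL _ h2
  rw [aeval_rename] at h3
  apply hna
  -- `a` is congruent to `a (X_T = 0)` modulo `X_T`
  have h4 : aeval (fun i : Fin (T + 1) => if i = Fin.last T then 0 else
      (X i : MvPolynomial (Fin (T + 1)) k)) a = 0 := by
    apply rename_injective e he'
    rw [map_zero, ← h3]
    have : (rename e : MvPolynomial (Fin (T + 1)) k →ₐ[k] _).comp
        (aeval (fun i : Fin (T + 1) => if i = Fin.last T then 0 else
          (X i : MvPolynomial (Fin (T + 1)) k))) =
        aeval ((fun i : Fin N => if (i : ℕ) < T then X i else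
          (0 : MvPolynomial (Fin N) k)) ∘ e) := by
      apply MvPolynomial.algHom_ext
      intro i
      simp only [AlgHom.comp_apply, aeval_X, Function.comp_apply, he]
      by_cases hi : i = Fin.last T
      · subst hi; simp
      · have hi' : (i : ℕ) < T := by
          have := i.2
          have h5 : (i : ℕ) ≠ T := fun h => hi (Fin.ext h)
          omega
        rw [if_neg hi, if_pos hi', rename_X]
    exact DFunLike.congr_fun this a
  have h5 : ∀ f : MvPolynomial (Fin (T + 1)) k, f - aeval (fun i : Fin (T + 1) =>
      if i = Fin.last T then 0 else (X i : MvPolynomial (Fin (T + 1)) k)) f ∈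
      Ideal.span {(X (Fin.last T) : MvPolynomial (Fin (T + 1)) k)} := by
    intro f
    rw [← Ideal.Quotient.eq_zero_iff_mem, map_sub, sub_eq_zero]
    have : (Ideal.Quotient.mkₐ k (Ideal.span {(X (Fin.last T) : MvPolynomial (Fin (T + 1)) k)})) =
        (Ideal.Quotient.mkₐ k (Ideal.span {(X (Fin.last T) :
          MvPolynomial (Fin (T + 1)) k)})).comp (aeval (fun i : Fin (T + 1) =>
          if i = Fin.last T then 0 else (X i : MvPolynomial (Fin (T + 1)) k))) := by
      apply MvPolynomial.algHom_ext
      intro i
      by_cases hi : i = Fin.last T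
      · subst hi
        simp only [AlgHom.comp_apply, aeval_X, if_true, map_zero]
        rw [Ideal.Quotient.mkₐ_eq_mk, Ideal.Quotient.eq_zero_iff_mem]
        exact Ideal.mem_span_singleton_self _
      · simp [hi]
    exact DFunLike.congr_fun this f
  have h6 := h5 a
  rw [h4, sub_zero, Ideal.mem_span_singleton] at h6
  exact h6

/-- The gradient of a polynomial at a point. -/
noncomputable def grad {F : Type*} [CommRing F] [Algebra k F] (x : Fin N → F)
    (f : MvPolynomial (Fin N) k) : Fin N → F := fun i => aeval x (pderiv i f)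

/-- `P` has transcendence degree at least `T + 1`, expressed through gradients. -/
def Big (P : Ideal (MvPolynomial (Fin N) k)) [P.IsPrime] (T : ℕ) : Prop :=
  ∀ (r : ℕ) (g : Fin r → MvPolynomial (Fin N) k), (∀ a, g a ∈ P) →
    LinearIndependent (FractionRing (MvPolynomial (Fin N) k ⧸ P))
      (fun a => grad (genPt P) (g a)) → r + T < N

theorem big_of_coord (P : Ideal (MvPolynomial (Fin N) k)) [P.IsPrime] {T : ℕ} (hT : T < N)
    (hL : ∀ f ∈ P, aeval (fun i : Fin N => if (i : ℕ) < T then X i else
      (0 : MvPolynomial (Fin N) k)) f = 0) (hX : X (⟨T, hT⟩ : Fin N) ∉ P) : Big P T := by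
  intro r g hg hli
  by_contra hr
  have h1 := trdeg_le_of_jacobian (genPt P) (adjoin_genPt P) g
    (fun a => (aeval_genPt_eq_zero P _).mpr (hg a)) hli
  have h2 := (algebraicIndependent_genPt P hT hL hX).lift_cardinalMk_le_trdeg
  rw [Fintype.card_fin] at h1
  simp only [Cardinal.mk_fintype, Fintype.card_fin, Cardinal.lift_natCast, Cardinal.lift_id'] at h2
  have h3 := h2.trans h1
  rw [Nat.cast_le] at h3
  omega

/-- Independent gradients at a `k`-point of `V(P)` remain independent at the generic point. -/
theorem linearIndependent_genPt (P : Ideal (MvPolynomial (Fin N) k)) [P.IsPrime]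
    (q : Fin N → k) (hq : ∀ f ∈ P, aeval q f = 0) {r : ℕ} (g : Fin r → MvPolynomial (Fin N) k)
    (hli : LinearIndependent k (fun a => grad q (g a))) :
    LinearIndependent (FractionRing (MvPolynomial (Fin N) k ⧸ P))
      (fun a => grad (genPt P) (g a)) ∧
    ∃ B : Matrix (Fin N) (Fin r) k, ∀ a b, ∑ i, grad q (g a) i * B i b = if a = b then 1 else 0 := by
  classical
  -- a right inverse of the matrix of gradients at `q`
  have hB : ∃ B : Matrix (Fin N) (Fin r) k, ∀ a b, ∑ i, grad q (g a) i * B i b =
      if a = b then 1 else 0 := by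
    let φ : (Fin r → k) →ₗ[k] (Fin N → k) := Fintype.linearCombination k (fun a => grad q (g a))
    have hφ : LinearMap.ker φ = ⊥ := by
      rw [LinearMap.ker_eq_bot']
      intro c hc
      rw [Fintype.linearIndependent_iff] at hli
      funext a
      exact hli c (by simpa [φ, Fintype.linearCombination_apply] using hc) a
    obtain ⟨ψ, hψ⟩ := φ.exists_leftInverse_of_injective hφ
    refine ⟨Matrix.of fun i b => ψ (Pi.single i 1) b, fun a b => ?_⟩
    have h1 : ψ (φ (Pi.single a 1)) = Pi.single a 1 := DFunLike.congr_fun hψ (Pi.single a 1)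
    have h2 : φ (Pi.single a 1) = grad q (g a) := by
      simp [φ, Fintype.linearCombination_apply_single]
    have h3 : grad q (g a) = ∑ i, grad q (g a) i • (Pi.single i 1 : Fin N → k) := by
      funext j
      simp [Finset.sum_apply, Pi.single_apply]
    have h4 : ψ (grad q (g a)) b = ∑ i, grad q (g a) i * ψ (Pi.single i 1) b := by
      conv_lhs => rw [h3]
      rw [map_sum, Finset.sum_apply]
      simp
    simp only [Matrix.of_apply]
    rw [← h4, ← h2, h1, Pi.single_apply]
    simp [eq_comm]
  refine ⟨?_, hB⟩
  obtain ⟨B, hB⟩ := hB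
  let M : Matrix (Fin r) (Fin r) (MvPolynomial (Fin N) k) :=
    Matrix.of fun a b => ∑ i, pderiv i (g a) * C (B i b)
  have hM : M.det ∉ P := by
    intro hM
    have h1 := hq _ hM
    rw [AlgHom.map_det] at h1
    have h2 : (aeval q : MvPolynomial (Fin N) k →ₐ[k] k).mapMatrix M = 1 := by
      ext a b
      rw [Matrix.one_apply, ← hB a b]
      simp [M, grad]
    rw [h2, Matrix.det_one] at h1
    exact one_ne_zero h1
  rw [Fintype.linearIndependent_iff]
  intro c hc
  have h1 : Matrix.vecMul c ((aeval (genPt P) : MvPolynomial (Fin N) k →ₐ[k] _).mapMatrix M) = 0 := by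
    funext b
    simp only [Matrix.vecMul, dotProduct, AlgHom.mapMatrix_apply, Matrix.map_apply, M,
      Matrix.of_apply, map_sum, map_mul, Pi.zero_apply, Finset.mul_sum]
    rw [Finset.sum_comm]
    refine Finset.sum_eq_zero fun i _ => ?_
    have h2 := congrFun hc i
    simp only [Finset.sum_apply, Pi.smul_apply, smul_eq_mul, Pi.zero_apply, grad] at h2
    have h3 : ∀ a, c a * (aeval (genPt P) (pderiv i (g a)) * aeval (genPt P) (C (B i b))) =
      (c a * aeval (genPt P) (pderiv i (g a))) * aeval (genPt P) (C (B i b)) := fun a => by ring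
    simp only [h3]
    rw [← Finset.sum_mul, h2, zero_mul]
  have h2 : ((aeval (genPt P) : MvPolynomial (Fin N) k →ₐ[k] _).mapMatrix M).det ≠ 0 := by
    rw [← AlgHom.map_det]
    intro h
    exact hM ((aeval_genPt_eq_zero P _).mp h)
  have h3 := Matrix.eq_zero_of_vecMul_eq_zero h2 h1
  intro a
  exact congrFun h3 a

/-- First order criterion. -/
theorem first_order (P : Ideal (MvPolynomial (Fin N) k)) [P.IsPrime] {T : ℕ} (hbig : Big P T)
    (q : Fin N → k) (hq : ∀ f ∈ P, aeval q f = 0) {r : ℕ} (g : Fin r → MvPolynomial (Fin N) k)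
    (hg : ∀ a, g a ∈ P) (hli : LinearIndependent k (fun a => grad q (g a))) : r + T < N :=
  hbig r g hg (linearIndependent_genPt P q hq g hli).1

/-- Second order criterion. -/
theorem second_order (P : Ideal (MvPolynomial (Fin N) k)) [P.IsPrime] {T : ℕ} (hbig : Big P T)
    (q : Fin N → k) (hq : ∀ f ∈ P, aeval q f = 0) {r : ℕ} (g : Fin r → MvPolynomial (Fin N) k)
    (hg : ∀ a, g a ∈ P) (hli : LinearIndependent k (fun a => grad q (g a))) (hr : r + 1 + T = N)
    (τ τ' : Fin N → k) (hτ : ∀ a, ∑ i, grad q (g a) i * τ i = 0)
    (hτ' : ∀ a, ∑ i, grad q (g a) i * τ' i = 0) (h : MvPolynomial (Fin N) k) (hh : h ∈ P)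
    (hh0 : ∀ i, grad q h i = 0) :
    ∑ i, ∑ j, τ i * τ' j * aeval q (pderiv j (pderiv i h)) = 0 := by
  classical
  obtain ⟨hliF, B, hB⟩ := linearIndependent_genPt P q hq g hli
  let G : Matrix (Fin r) (Fin N) (MvPolynomial (Fin N) k) := Matrix.of fun a i => pderiv i (g a)
  let BC : Matrix (Fin N) (Fin r) (MvPolynomial (Fin N) k) := B.map C
  let M : Matrix (Fin r) (Fin r) (MvPolynomial (Fin N) k) := G * BC
  let τC : Fin N → MvPolynomial (Fin N) k := fun i => C (τ i)
  -- the vector field
  let v : Fin N → MvPolynomial (Fin N) k :=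
    M.det • τC - BC.mulVec (M.adjugate.mulVec (G.mulVec τC))
  have hGv : G.mulVec v = 0 := by
    simp only [v, Matrix.mulVec_sub, Matrix.mulVec_smul, Matrix.mulVec_mulVec]
    rw [show G * (BC * (M.adjugate * G)) = M * M.adjugate * G by
      simp only [M, Matrix.mul_assoc], Matrix.mul_adjugate, Matrix.smul_mul, Matrix.one_mul,
      Matrix.smul_mulVec, sub_self]
  -- `v` maps `P` to `P`
  have hvP : ∀ f ∈ P, ∑ i, v i * pderiv i f ∈ P := by
    intro f hf
    rw [← aeval_genPt_eq_zero]
    have hdep : ¬ LinearIndependent (FractionRing (MvPolynomial (Fin N) k ⧸ P))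
        (fun a => grad (genPt P) ((Fin.snoc g f : Fin (r + 1) → MvPolynomial (Fin N) k) a)) := by
      intro hli'
      have := hbig (r + 1) (Fin.snoc g f) (by
        intro a
        refine Fin.lastCases ?_ (fun a => ?_) a
        · simpa using hf
        · simpa using hg a) hli'
      omega
    have hsnoc : (fun a => grad (genPt P) ((Fin.snoc g f : Fin (r + 1) →
        MvPolynomial (Fin N) k) a)) = Fin.snoc (fun a => grad (genPt P) (g a))
        (grad (genPt P) f) := by
      funext a
      refine Fin.lastCases ?_ (fun a => ?_) a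
      · simp
      · simp
    rw [hsnoc, linearIndependent_finSnoc] at hdep
    have hmem : grad (genPt P) f ∈ Submodule.span (FractionRing (MvPolynomial (Fin N) k ⧸ P))
        (Set.range fun a => grad (genPt P) (g a)) := by
      by_contra hnot
      exact hdep ⟨hliF, hnot⟩
    have hker : ∀ y ∈ Submodule.span (FractionRing (MvPolynomial (Fin N) k ⧸ P))
        (Set.range fun a => grad (genPt P) (g a)), ∑ i, aeval (genPt P) (v i) * y i = 0 := by
      intro y hy
      induction hy using Submodule.span_induction with
      | mem y hy =>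
        obtain ⟨a, rfl⟩ := hy
        have h1 := congrArg (aeval (genPt P)) (congrFun hGv a)
        simp only [Matrix.mulVec, dotProduct, G, Matrix.of_apply, map_sum, map_mul,
          Pi.zero_apply, map_zero] at h1
        rw [← h1]
        refine Finset.sum_congr rfl fun i _ => ?_
        simp only [grad]
        ring
      | zero => simp
      | add y z _ _ hy hz => simp only [Pi.add_apply, mul_add, Finset.sum_add_distrib, hy, hz,
          add_zero]
      | smul c y _ hy =>
        simp only [Pi.smul_apply, smul_eq_mul]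
        have : ∀ i, aeval (genPt P) (v i) * (c * y i) = c * (aeval (genPt P) (v i) * y i) :=
          fun i => by ring
        simp only [this, ← Finset.mul_sum, hy, mul_zero]
    have := hker _ hmem
    simpa [grad] using this
  -- value of `v` at `q`
  have hMq : (aeval q : MvPolynomial (Fin N) k →ₐ[k] k).mapMatrix M = 1 := by
    ext a b
    rw [Matrix.one_apply, ← hB a b]
    simp [M, G, BC, grad, Matrix.mul_apply]
  have hvq : ∀ i, aeval q (v i) = τ i := by
    intro i
    have h1 : aeval q M.det = 1 := by rw [AlgHom.map_det, hMq, Matrix.det_one]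
    have h2 : ∀ a, aeval q (G.mulVec τC a) = 0 := by
      intro a
      rw [← hτ a]
      simp [G, Matrix.mulVec, dotProduct, τC, grad]
    simp only [v, Pi.sub_apply, Pi.smul_apply, smul_eq_mul, map_sub, map_mul, h1, one_mul]
    have h3 : aeval q (BC.mulVec (M.adjugate.mulVec (G.mulVec τC)) i) = 0 := by
      simp only [Matrix.mulVec, dotProduct, map_sum, map_mul]
      refine Finset.sum_eq_zero fun b _ => ?_
      rw [Finset.sum_eq_zero, mul_zero]
      intro a _
      have h4 := h2 a
      simp only [Matrix.mulVec, dotProduct, map_sum, map_mul] at h4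
      rw [h4, mul_zero]
    rw [h3, sub_zero]
    simp [τC]
  set μ : MvPolynomial (Fin N) k := ∑ i, v i * pderiv i h with hμ
  have hμP : μ ∈ P := hvP h hh
  have hgradμ : ∀ j, grad q μ j = ∑ i, τ i * aeval q (pderiv j (pderiv i h)) := by
    intro j
    simp only [grad, hμ, map_sum, Derivation.leibniz, smul_eq_mul, map_add, map_mul]
    refine Finset.sum_congr rfl fun i _ => ?_
    have h1 := hh0 i
    simp only [grad] at h1
    rw [hvq, h1, zero_mul, add_zero]
  -- gradients of `g`, `μ` at `q` are dependent
  have hdep : ¬ LinearIndependent k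
      (fun a => grad q ((Fin.snoc g μ : Fin (r + 1) → MvPolynomial (Fin N) k) a)) := by
    intro hli'
    have := first_order P hbig q hq (Fin.snoc g μ) (by
      intro a
      refine Fin.lastCases ?_ (fun a => ?_) a
      · simpa using hμP
      · simpa using hg a) hli'
    omega
  have hsnoc : (fun a => grad q ((Fin.snoc g μ : Fin (r + 1) →
      MvPolynomial (Fin N) k) a)) = Fin.snoc (fun a => grad q (g a)) (grad q μ) := by
    funext a
    refine Fin.lastCases ?_ (fun a => ?_) a
    · simp
    · simp
  rw [hsnoc, linearIndependent_finSnoc] at hdep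
  have hmem : grad q μ ∈ Submodule.span k (Set.range fun a => grad q (g a)) := by
    by_contra hnot
    exact hdep ⟨hli, hnot⟩
  have hker : ∀ y ∈ Submodule.span k (Set.range fun a => grad q (g a)),
      ∑ i, y i * τ' i = 0 := by
    intro y hy
    induction hy using Submodule.span_induction with
    | mem y hy => obtain ⟨a, rfl⟩ := hy; exact hτ' a
    | zero => simp
    | add y z _ _ hy hz => simp only [Pi.add_apply, add_mul, Finset.sum_add_distrib, hy, hz,
        add_zero]
    | smul c y _ hy =>
      simp only [Pi.smul_apply, smul_eq_mul, mul_assoc, ← Finset.mul_sum, hy, mul_zero]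
  have h1 := hker _ hmem
  simp only [hgradμ, Finset.sum_mul] at h1
  rw [Finset.sum_comm] at h1
  rw [← h1]
  refine Finset.sum_congr rfl fun i _ => Finset.sum_congr rfl fun j _ => ?_
  ring

end Pool.Agent.HankelPerm
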