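import Pool.Agent.HankelPerm.SmallCases

/-!
`m = t`, `n = t + 1`, `t = 9`.
-/

namespace Pool.Agent.HankelPerm

open Pool.Agent.H32

namespace Small

def Q9 : List ℤ := [0, 0, 0, 0, 0, 1, 0, 0, 1, 0, 0, -1, 0, 1, 0, 0, -1, 0]
def R9 : List (List (ℕ × ℤ)) := [[(5, 1), (8, 1)], [(4, 1), (7, 1)], [(3, 1), (6, 1), (9, -1)], [(2, 1), (5, 1), (8, -1)], [(1, 1), (4, 1), (7, -1), (9, 1)], [(0, 1), (3, 1), (6, -1), (8, 1)], [(2, 1), (5, -1), (7, 1)], [(1, 1), (4, -1), (6, 1), (9, -1)], [(0, 1), (3, -1), (5, 1), (8, -1)]]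
def G9 : List (List ℤ) := [[0, 1, 8, 0, 2, 2, -2, 3, 0, -1, 4, 5, -2, 1, 0, 1, -2, 1], [1, 4, 0, 2, -4, 0, 3, -4, 1, 0, 5, 4, -3, 4, 3, -2, 1, 0], [4, 0, 0, 0, 0, 0, 0, 0, 0, 0, 0, 0, 0, 0, 0, 0, 0, 0], [0, 1, -4, 0, 0, 0, 0, -1, -2, 5, -4, -5, 4, -3, -2, 1, 0, 1], [1, -1, 2, 2, 2, -2, -1, 1, 3, -3, -1, 1, 1, 1, -1, 1, 1, -1], [1, -1, 2, 2, 0, 2, 1, 1, -3, -1, 1, -1, 1, -1, 1, 1, -1, 1], [-1, 1, -2, -2, 0, 0, 1, -1, -1, 3, -1, -1, -1, 1, 1, -1, 1, 1], [1, -1, -2, 2, 2, -2, -1, 1, 3, -3, -1, 1, 1, 1, -1, 1, 1, -1], [-1, 1, 2, 0, 0, 2, 1, 1, -3, 1, 1, -1, 1, -1, 1, 1, -1, 1], [1, 0, 2, 2, -2, -2, 1, 0, 5, -4, 5, 6, -5, 4, 3, -2, 1, 0]]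
def C9 : List (List ℤ) := [[0, 143, 0, 72, 215, 0, 61, 0, -5, -71, 10, 0, 0, -200, 0, -358, 0, 0], [0, 40, 0, 20, 58, 0, 16, 0, -2, -20, 2, 0, 0, -54, 0, -98, 0, 0], [1, -18, 0, -10, -27, 0, -7, 0, 1, 9, -1, 0, 0, 25, 0, 46, 0, 0], [0, -158, 0, -78, -236, 0, -68, 0, 6, 80, -10, 0, 0, 220, 0, 394, 0, 0], [0, -560, 1, -280, -841, 0, -242, 0, 19, 280, -39, 0, 0, 785, 0, 1401, 0, 0], [0, 208, 0, 106, 314, 0, 90, 0, -8, -104, 14, 0, 0, -292, 0, -524, 0, 0], [0, -33, 0, -16, -47, 0, -13, 0, 1, 17, -2, 0, 0, 46, 0, 80, 0, 0], [0, 388, -1, 194, 583, 0, 168, 0, -13, -194, 27, 0, 0, -543, 0, -969, 0, 0], [0, -72, 0, -38, -108, 0, -28, 0, 4, 36, -4, 0, 0, 100, 0, 184, 0, 0], [0, -109, 0, -54, -161, 0, -45, 0, 5, 55, -6, 0, 0, 150, 0, 270, 0, 0]]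

theorem rows9 : Rows 9 (9 + 1) (fun s => Q9.getD s 0) R9 :=
  ⟨rfl, by decide +kernel, by decide +kernel⟩

theorem grads9 : ∀ j < 9 + 1, ∀ s < 2 * 9, gr R9 9 (9 + 1) j s = tab G9 j s := by decide +kernel

theorem not_prime_9 {k : Type*} [Field k] (h2 : (2 : k) ≠ 0) :
    ¬ (permIdeal 9 (hankelMatrix k 9 (9 + 1))).IsPrime :=
  first_check h2 (by norm_num) rows9 (by decide +kernel) (tab G9) (tab C9) 2 grads9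
    (by decide +kernel)

end Small

end Pool.Agent.HankelPerm
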