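import Pool.Agent.HankelPerm.Assembly
import Pool.Agent.HankelPerm.SmallNine

/-!
Hankel matrices: `P_t` is prime iff `t = m = n`.
-/

namespace Pool.Agent.HankelPerm

open MvPolynomial Pool.Agent.H32

theorem hankel_iff {k : Type*} [Field k] (h2 : (2 : k) ≠ 0) {m n t : ℕ} (ht : 2 ≤ t)
    (htm : t ≤ m) (htn : t ≤ n) :
    (permIdeal t (hankelMatrix k m n)).IsPrime ↔ t = m ∧ m = n := by
  refine hankel_iff_aux h2 ?_ ht htm htn
  rintro t (rfl | rfl | rfl | rfl | rfl)
  · exact Small.not_prime_3 h2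
  · exact Small.not_prime_4 h2
  · exact Small.not_prime_5 h2
  · exact Small.not_prime_7 h2
  · exact Small.not_prime_9 h2

end Pool.Agent.HankelPerm
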