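import Pool.Agent.HankelPerm.PathProd

/-!
Products of rows for the second link family.
-/

namespace Pool.Agent.HankelPerm

open Finset

section

variable {A : Type*} [CommRing A] (v : ℕ → A) (p : ℕ)

/-- The rows of a class with link. -/
def rwB (x : ℕ) : A :=
  if x = 0 then v 0 + v 1 else
    if x = p + 1 then v (p + 1) + v (p + 2) - v 0 else v x + v (x + 1)

/-- The product of all rows but `x`. -/
def GB (x : ℕ) : A := ∏ x' ∈ (range (p + 2)).erase x, rwB v p x'

/-- The rows of the class `0`. -/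
def rwC (x : ℕ) : A := if x = p + 2 then v (p + 2) - v 1 + v 0 else rwB v p x

/-- The product of all rows but `x`. -/
def GC (x : ℕ) : A := ∏ x' ∈ (range (p + 3)).erase x, rwC v p x'

variable {v p}

theorem rwB_pos {x : ℕ} (hx : x ≠ 0) : rwB v p x = rwA v p x := by
  simp only [rwB, rwA, if_neg hx]

theorem GB_zero : GB v p 0 = GA v p 0 := by
  refine Finset.prod_congr rfl fun x hx => ?_
  exact rwB_pos (Finset.ne_of_mem_erase hx)

theorem rwC_lt {x : ℕ} (hx : x < p + 2) : rwC v p x = rwB v p x := by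
  rw [rwC, if_neg (by omega)]

theorem GC_eq {x : ℕ} (hx : x < p + 2) : GC v p x = GB v p x * (v (p + 2) - v 1 + v 0) := by
  have h : (range (p + 3)).erase x = insert (p + 2) ((range (p + 2)).erase x) := by
    ext y; simp only [mem_erase, mem_range, mem_insert]; omega
  rw [GC, h, Finset.prod_insert (by simp), rwC, if_pos rfl, mul_comm]
  congr 1
  refine Finset.prod_congr rfl fun y hy => ?_
  rw [mem_erase, mem_range] at hy
  exact rwC_lt hy.2

theorem GC_last : GC v p (p + 2) = ∏ x ∈ range (p + 2), rwB v p x := by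
  have h : (range (p + 3)).erase (p + 2) = range (p + 2) := by
    ext y; simp only [mem_erase, mem_range]; omega
  rw [GC, h]
  refine Finset.prod_congr rfl fun y hy => ?_
  rw [mem_range] at hy
  exact rwC_lt hy

theorem prod_rwC : ∏ x ∈ range (p + 3), rwC v p x =
    (∏ x ∈ range (p + 2), rwB v p x) * (v (p + 2) - v 1 + v 0) := by
  rw [show p + 3 = p + 2 + 1 by ring, prod_range_succ, rwC, if_pos rfl]
  congr 1
  refine Finset.prod_congr rfl fun y hy => ?_
  rw [mem_range] at hy
  exact rwC_lt hy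

variable (hv : ∀ s, v s * v s = 0)

include hv

theorem T_mul_GB (x : ℕ) : v (p + 2) * GB v p x = v (p + 2) * GA v p x := by
  rcases Nat.eq_zero_or_pos x with h | h
  · subst h; rw [GB_zero]
  · have h0 : 0 ∈ (range (p + 2)).erase x := by
      rw [mem_erase, mem_range]; omega
    rw [GB, GA, ← Finset.mul_prod_erase _ _ h0, ← Finset.mul_prod_erase _ (rwA v p) h0]
    have : ∏ x' ∈ ((range (p + 2)).erase x).erase 0, rwB v p x' =
        ∏ x' ∈ ((range (p + 2)).erase x).erase 0, rwA v p x' :=
      Finset.prod_congr rfl fun y hy => rwB_pos (Finset.ne_of_mem_erase hy)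
    rw [this, rwA_zero, rwB, if_pos rfl]
    linear_combination (∏ x' ∈ ((range (p + 2)).erase x).erase 0, rwA v p x') * hv (p + 2)

theorem prod_rwB : ∏ x ∈ range (p + 2), rwB v p x = v (p + 2) * GA v p (p + 1) := by
  rw [← Finset.mul_prod_erase (range (p + 2)) _ (mem_range.mpr (show 0 < p + 2 by omega))]
  have h1 : v 1 * pth v 1 p = mon v 1 (p + 1) := mul_pth hv le_rfl (by omega)
  have h2 : v (p + 1) * pth v 1 p = mon v 1 (p + 1) := mul_pth hv (by omega) (by omega)
  have h3 : v 1 * mon v 1 (p + 1) = 0 := mul_mon hv le_rfl (by omega)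
  change rwB v p 0 * GB v p 0 = _
  rw [GB_zero, GA_zero, GA_last, rwB, if_pos rfl]
  linear_combination (v 0 + v 1) * h2 - v 0 * h1 + h3 - pth v 1 p * hv 0 +
    pth v 1 p * hv (p + 2)

theorem prod_rwC_zero : ∏ x ∈ range (p + 3), rwC v p x = 0 := by
  rw [prod_rwC, prod_rwB hv, GA_last]
  linear_combination ((v 0 + v 1 - v (p + 2)) * pth v 1 p - (v (p + 2) - v 1 + v 0) *
    pth v 1 p + v (p + 2) * pth v 1 p) * hv (p + 2) + v (p + 2) * pth v 1 p * (hv 0 - hv 1)

theorem GC_zero : GC v p 0 = 2 * (v 0 * mon v 1 (p + 1)) := by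
  rw [GC_eq (by omega), GB_zero, GA_zero]
  have h1 : v 1 * pth v 1 p = mon v 1 (p + 1) := mul_pth hv le_rfl (by omega)
  have h2 : v (p + 1) * pth v 1 p = mon v 1 (p + 1) := mul_pth hv (by omega) (by omega)
  have h3 : v 1 * mon v 1 (p + 1) = 0 := mul_mon hv le_rfl (by omega)
  linear_combination (v (p + 2) - v 1 + v 0) * h2 + (v 0 - v (p + 2)) * h1 - h3 +
    pth v 1 p * (hv (p + 2) - hv 0)

theorem T_mul_GC {x : ℕ} (h1 : 1 ≤ x) (h2 : x < p + 3) : v (p + 2) * GC v p x = 0 := by
  rcases Nat.lt_or_ge x (p + 2) with h | h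
  · have h0 : 0 ∈ (range (p + 2)).erase x := by
      rw [mem_erase, mem_range]; omega
    rw [GC_eq h, GB, ← Finset.mul_prod_erase _ _ h0, rwB, if_pos rfl]
    linear_combination (∏ x' ∈ ((range (p + 2)).erase x).erase 0, rwB v p x') *
      (v (p + 2) * (hv 0 - hv 1) + (v 0 + v 1) * hv (p + 2))
  · have : x = p + 2 := by omega
    subst this
    rw [GC_last, prod_rwB hv]
    linear_combination GA v p (p + 1) * hv (p + 2)

theorem T_mul_GC_zero : v (p + 2) * GC v p 0 = 2 * (v 0 * v (p + 2) * mon v 1 (p + 1)) := by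
  rw [GC_zero hv]; ring

theorem mid_rwB {x : ℕ} (h1 : 1 ≤ x) (h2 : x ≤ p) : (v x - v (x + 1)) * rwB v p x = 0 := by
  rw [rwB_pos (by omega)]
  exact mid_rwA hv h1 h2

theorem midC_GC {x x' : ℕ} (h1 : 1 ≤ x) (h2 : x ≤ p) (hne : x' ≠ x) :
    (v x - v (x + 1)) * GC v p x' = 0 := by
  have h3 : GC v p x' = rwC v p x * ∏ y ∈ ((range (p + 3)).erase x').erase x, rwC v p y := by
    rw [GC, Finset.mul_prod_erase]
    rw [mem_erase, mem_range]
    omega
  rw [h3, ← mul_assoc, rwC_lt (by omega), mid_rwB hv h1 h2, zero_mul]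

/-- The three special rows together. -/
theorem GC_mid {x : ℕ} (h1 : 1 ≤ x) (h2 : x ≤ p) :
    GC v p x = v (p + 2) * (v 0 * v (p + 1) - v 0 * v 1 + v 1 * v (p + 1)) *
      (pth v 1 (x - 1) * pth v (x + 1) (p - x)) := by
  obtain ⟨j, rfl⟩ : ∃ j, x = j + 1 := ⟨x - 1, by omega⟩
  have hGB : GB v p (j + 1) = (v 0 + v 1) * (pth v 1 j * pth v (j + 2) (p - (j + 1))) *
      (v (p + 1) + v (p + 2) - v 0) := by
    have h0 : 0 ∈ (range (p + 2)).erase (j + 1) := by
      rw [mem_erase, mem_range]; omega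
    have e1 : GA v p (j + 1) = rwA v p 0 *
        ∏ x' ∈ ((range (p + 2)).erase (j + 1)).erase 0, rwA v p x' := by
      rw [GA, ← Finset.mul_prod_erase _ (rwA v p) h0]
    -- the product of the other rows
    have e2 : ∏ x' ∈ ((range (p + 2)).erase (j + 1)).erase 0, rwA v p x' =
        (pth v 1 j * pth v (j + 2) (p - (j + 1))) * (v (p + 1) + v (p + 2) - v 0) := by
      have h : ((range (p + 2)).erase (j + 1)).erase 0 = insert (p + 1)
          ((range j).map (addRightEmbedding 1) ∪ (range (p - (j + 1))).map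
            (addRightEmbedding (j + 2))) := by
        ext x
        simp only [mem_erase, mem_range, mem_insert, mem_union, mem_map, addRightEmbedding_apply]
        constructor
        · rintro ⟨h0, h1, h2⟩
          rcases Nat.lt_trichotomy x (j + 1) with h3 | h3 | h3
          · exact Or.inr (Or.inl ⟨x - 1, by omega, by omega⟩)
          · omega
          · rcases Nat.lt_or_ge p x with h4 | h4
            · exact Or.inl (by omega)
            · exact Or.inr (Or.inr ⟨x - (j + 2), by omega, by omega⟩)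
        · rintro (rfl | ⟨y, h1, rfl⟩ | ⟨y, h1, rfl⟩) <;> omega
      rw [h, Finset.prod_insert, Finset.prod_union, Finset.prod_map,
        Finset.prod_map, rwA_last]
      · have e1 : ∏ x ∈ range j, rwA v p (addRightEmbedding 1 x) = pth v 1 j := by
          rw [pth]
          refine Finset.prod_congr rfl fun x hx => ?_
          rw [mem_range] at hx
          rw [addRightEmbedding_apply, rwA_mid (by omega) (by omega), add_comm 1 x]
        have e2 : ∏ x ∈ range (p - (j + 1)), rwA v p (addRightEmbedding (j + 2) x) =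
            pth v (j + 2) (p - (j + 1)) := by
          rw [pth]
          refine Finset.prod_congr rfl fun x hx => ?_
          rw [mem_range] at hx
          rw [addRightEmbedding_apply, rwA_mid (by omega) (by omega), add_comm (j + 2) x]
        rw [e1, e2]
        ring
      · rw [Finset.disjoint_left]
        intro x hx hx'
        simp only [mem_map, mem_range, addRightEmbedding_apply] at hx hx'
        obtain ⟨y, h1, rfl⟩ := hx
        obtain ⟨z, h2, h3⟩ := hx'
        omega
      · simp only [mem_union, mem_map, mem_range, addRightEmbedding_apply, not_or, not_exists,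
          not_and]
        constructor
        · intro y hy; omega
        · intro y hy; omega
    have e3 : GB v p (j + 1) = rwB v p 0 *
        ∏ x' ∈ ((range (p + 2)).erase (j + 1)).erase 0, rwA v p x' := by
      rw [GB, ← Finset.mul_prod_erase _ (rwB v p) h0]
      congr 1
      exact Finset.prod_congr rfl fun y hy => rwB_pos (Finset.ne_of_mem_erase hy)
    rw [e3, e2, rwB, if_pos rfl]
    ring
  rw [GC_eq (by omega), hGB, show j + 1 - 1 = j by omega, show j + 1 + 1 = j + 2 by ring]
  linear_combination (pth v 1 j * pth v (j + 2) (p - (j + 1))) *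
    ((v 0 + v 1) * (hv (p + 2) - hv 0) +
      (v (p + 1) + v 1) * hv 0 - (v (p + 1) + v (p + 2) - v 0) * hv 1)

theorem midC_GC_self {x : ℕ} (h1 : 1 ≤ x) (h2 : x ≤ p) :
    (v x - v (x + 1)) * GC v p x = 2 * (v 0 * v (p + 2) * mon v 1 (p + 1)) := by
  rw [GC_mid hv h1 h2]
  obtain ⟨j, rfl⟩ : ∃ j, x = j + 1 := ⟨x - 1, by omega⟩
  rw [show j + 1 - 1 = j by omega, show j + 1 + 1 = j + 2 by ring]
  have a1 : v 1 * pth v 1 j = mon v 1 (j + 1) := mul_pth hv le_rfl (by omega)
  have a2 : v (p + 1) * pth v (j + 2) (p - (j + 1)) = mon v (j + 2) (p - (j + 1) + 1) :=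
    mul_pth hv (by omega) (by omega)
  have a3 : v (j + 1) * pth v 1 j = mon v 1 (j + 1) := mul_pth hv (by omega) (by omega)
  have a4 : v (j + 2) * pth v (j + 2) (p - (j + 1)) = mon v (j + 2) (p - (j + 1) + 1) :=
    mul_pth hv (by omega) (by omega)
  have a5 : v 1 * mon v 1 (j + 1) = 0 := mul_mon hv le_rfl (by omega)
  have a6 : v (p + 1) * mon v (j + 2) (p - (j + 1) + 1) = 0 :=
    mul_mon hv (by omega) (by omega)
  have a7 : mon v 1 (j + 1) * mon v (j + 2) (p - (j + 1) + 1) = mon v 1 (p + 1) := by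
    have := mon_add (v := v) 1 (j + 1) (p - (j + 1) + 1)
    rw [show 1 + (j + 1) = j + 2 by ring, show j + 1 + (p - (j + 1) + 1) = p + 1 by omega]
      at this
    exact this
  set P1 := pth v 1 j
  set P2 := pth v (j + 2) (p - (j + 1))
  set M1 := mon v 1 (j + 1)
  set M2 := mon v (j + 2) (p - (j + 1) + 1)
  rw [← a7]
  have b1 : (v (j + 1) - v (j + 2)) * (P1 * P2) = M1 * P2 - P1 * M2 := by
    linear_combination P2 * a3 - P1 * a4
  calc (v (j + 1) - v (j + 2)) * (v (p + 2) * (v 0 * v (p + 1) - v 0 * v 1 +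
        v 1 * v (p + 1)) * (P1 * P2))
      = ((v (j + 1) - v (j + 2)) * (P1 * P2)) *
        (v (p + 2) * (v 0 * v (p + 1) - v 0 * v 1 + v 1 * v (p + 1))) := by ring
    _ = (M1 * P2 - P1 * M2) *
        (v (p + 2) * (v 0 * v (p + 1) - v 0 * v 1 + v 1 * v (p + 1))) := by rw [b1]
    _ = 2 * (v 0 * v (p + 2) * (M1 * M2)) := by
      linear_combination v (p + 2) * ((v 0 * M1) * a2 + (-v 0 + v (p + 1)) * P2 * a5 -
        (v 0 + v 1) * P1 * a6 + v 0 * M2 * a1)

/-- The special multiplier of the class `0`. -/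
theorem spC_zero : (v 0 + v (p + 1)) * GC v p 0 = 0 := by
  have h3 : v (p + 1) * mon v 1 (p + 1) = 0 := mul_mon hv (by omega) (by omega)
  rw [GC_zero hv]
  linear_combination (2 * mon v 1 (p + 1)) * hv 0 + (2 * v 0) * h3

theorem spC_mid {x : ℕ} (h1 : 1 ≤ x) (h2 : x ≤ p) : (v 0 + v (p + 1)) * GC v p x = 0 := by
  rw [GC_mid hv h1 h2]
  linear_combination (v (p + 2) * (pth v 1 (x - 1) * pth v (x + 1) (p - x))) *
    ((v (p + 1) - v 1) * hv 0 + (v 0 + v 1) * hv (p + 1))

theorem spC_last {x : ℕ} (h1 : p + 1 ≤ x) (h2 : x < p + 3) :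
    (v 0 + v (p + 1)) * GC v p x = 2 * (v 0 * v (p + 2) * mon v 1 (p + 1)) := by
  have hT : GC v p x = v (p + 2) * GA v p (p + 1) := by
    rcases Nat.lt_or_ge x (p + 2) with h | h
    · have : x = p + 1 := by omega
      subst this
      have h : (range (p + 2)).erase (p + 1) = range (p + 1) := by
        ext x; simp only [mem_erase, mem_range]; omega
      have hGB : GB v p (p + 1) = (v 0 + v 1) * pth v 1 p := by
        rw [GB, h, prod_range_succ', rwB, if_pos rfl, mul_comm]
        congr 1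
        rw [← prod_rwA_mid]
        exact Finset.prod_congr rfl fun y _ => rwB_pos (Nat.succ_ne_zero y)
      rw [GC_eq (by omega), hGB, GA_last]
      linear_combination pth v 1 p * (hv 0 - hv 1 + hv (p + 2))
    · have : x = p + 2 := by omega
      subst this
      rw [GC_last, prod_rwB hv]
  rw [hT]
  exact HA_GA_last hv

/-- The first multiplier of a class with link. -/
theorem LB_f : (v 0 - v 1) * (v (p + 2) * GA v p 0) =
    2 * (v 0 * v (p + 2) * mon v 1 (p + 1)) := by
  have h1 := wt_f_zero hv (p := p)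
  have h2 := wt_f_mid hv (p := p) (s := 1) le_rfl (by omega)
  linear_combination h1 - h2

theorem LB_q {x : ℕ} (h1 : 1 ≤ x) (_h2 : x ≤ p + 1) :
    (v 0 - v 1) * (v (p + 2) * GA v p x) = 0 := by
  have h0 : 0 ∈ (range (p + 2)).erase x := by
    rw [mem_erase, mem_range]; omega
  rw [GA, ← Finset.mul_prod_erase _ (rwA v p) h0, rwA_zero]
  linear_combination (∏ x' ∈ ((range (p + 2)).erase x).erase 0, rwA v p x') *
    (v (p + 2) * (hv 0 - hv 1) - (v 0 - v 1) * hv (p + 2))

/-! Weights. -/

theorem wtB_Φ {s : ℕ} (h : s ≤ p + 1) :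
    v s * (v (p + 2) * GA v p (p + 1)) = v 0 * v (p + 2) * mon v 1 (p + 1) := by
  rcases Nat.eq_zero_or_pos s with h0 | h0
  · subst h0
    rw [← mul_assoc]
    exact mul_GA hv (by linear_combination v (p + 2) * hv 0)
      (by linear_combination v 0 * hv (p + 2)) (by omega)
  · have h1 : v s * pth v 1 p = mon v 1 (p + 1) := mul_pth hv h0 (by omega)
    have h3 : v 1 * mon v 1 (p + 1) = 0 := mul_mon hv le_rfl (by omega)
    rw [GA_last]
    linear_combination (v (p + 2) * (v 0 + v 1 - v (p + 2))) * h1 + v (p + 2) * h3 -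
      mon v 1 (p + 1) * hv (p + 2)

theorem wtC_zero {s : ℕ} (h : s ≤ p + 1) : v s * GC v p 0 = 0 := by
  rw [GC_zero hv]
  rcases Nat.eq_zero_or_pos s with h0 | h0
  · subst h0
    linear_combination (2 * mon v 1 (p + 1)) * hv 0
  · have h3 : v s * mon v 1 (p + 1) = 0 := mul_mon hv h0 (by omega)
    linear_combination (2 * v 0) * h3

end

end Pool.Agent.HankelPerm
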