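import Pool.Agent.H32.SquareIrr
import Pool.Agent.HankelPerm.Frame

/-!
Tools for permanents: reindexing, derivatives, vanishing criteria, block matrices, and the
gradient of the permanents of a Hankel matrix.
-/

namespace Pool.Agent.HankelPerm

open Matrix Finset Equiv MvPolynomial Pool.Agent.H32

section general

variable {R : Type*} [CommRing R] {ι κ : Type*} [Fintype ι] [DecidableEq ι] [Fintype κ]
  [DecidableEq κ]

theorem permanent_submatrix_equiv (e : ι ≃ κ) (A : Matrix κ κ R) :
    (A.submatrix e e).permanent = A.permanent := by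
  rw [Matrix.permanent, Matrix.permanent]
  refine Fintype.sum_equiv e.permCongr _ _ fun σ => ?_
  refine Fintype.prod_equiv e _ _ fun i => ?_
  simp [Equiv.permCongr_apply]

theorem permanent_mem_permIdeal' {m n t : ℕ} (M : Matrix (Fin m) (Fin n) R)
    (hι : Fintype.card ι = t) (r : ι → Fin m) (hr : Function.Injective r)
    (c : ι → Fin n) (hc : Function.Injective c) : (M.submatrix r c).permanent ∈ permIdeal t M := by
  let e : Fin t ≃ ι := (Fintype.equivFinOfCardEq hι).symm
  rw [← permanent_submatrix_equiv e, Matrix.submatrix_submatrix]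
  exact permanent_mem_permIdeal M _ (hr.comp e.injective) _ (hc.comp e.injective)

theorem permanent_updateRow (A : Matrix ι ι R) (a : ι) (u : ι → R) :
    (A.updateRow a u).permanent =
      ∑ σ : Perm ι, u (σ.symm a) * ∏ j ∈ univ.erase (σ.symm a), A (σ j) j := by
  rw [Matrix.permanent]
  refine Finset.sum_congr rfl fun σ _ => ?_
  rw [← Finset.mul_prod_erase _ _ (Finset.mem_univ (σ.symm a))]
  congr 1
  · simp
  · refine Finset.prod_congr rfl fun j hj => ?_
    rw [Matrix.updateRow_ne]
    intro h
    apply Finset.ne_of_mem_erase hj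
    rw [← h, Equiv.symm_apply_apply]

theorem derivation_prod {k S : Type*} [CommRing k] [CommRing S] [Algebra k S]
    (D : Derivation k S S) (s : Finset ι) (f : ι → S) :
    D (∏ i ∈ s, f i) = ∑ i ∈ s, D (f i) * ∏ j ∈ s.erase i, f j := by
  induction s using Finset.induction_on with
  | empty => simp
  | insert a s ha ih =>
    rw [Finset.prod_insert ha, Derivation.leibniz, ih, Finset.sum_insert ha,
      Finset.erase_insert ha, smul_eq_mul, smul_eq_mul, Finset.mul_sum, add_comm]
    congr 1
    · ring
    · refine Finset.sum_congr rfl fun i hi => ?_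
      have hne : a ≠ i := fun h => ha (h ▸ hi)
      rw [Finset.erase_insert_of_ne hne, Finset.prod_insert (fun h => ha (Finset.mem_of_mem_erase h))]
      ring

theorem derivation_permanent {k S : Type*} [CommRing k] [CommRing S] [Algebra k S]
    (D : Derivation k S S) (A : Matrix ι ι S) :
    D A.permanent = ∑ a, (A.updateRow a (fun j => D (A a j))).permanent := by
  simp only [permanent_updateRow]
  rw [Finset.sum_comm, Matrix.permanent, map_sum]
  refine Finset.sum_congr rfl fun σ _ => ?_
  rw [derivation_prod]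
  refine Fintype.sum_equiv σ _ _ fun j => ?_
  simp

/-- If two rows of `A` have vanishing `2 × 2` permanents, then the permanent of `A` vanishes. -/
theorem permanent_eq_zero_of_two_rows [IsDomain R] (h2 : (2 : R) ≠ 0) (A : Matrix ι ι R)
    {a a' : ι} (ha : a ≠ a') (h : ∀ j j', j ≠ j' → A a j * A a' j' + A a' j * A a j' = 0) :
    A.permanent = 0 := by
  have hsum : A.permanent = ∑ σ : Perm ι, ∏ i, A ((Equiv.swap a a' * σ) i) i := by
    rw [Matrix.permanent]
    exact (Equiv.sum_comp (Equiv.mulLeft (Equiv.swap a a'))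
      (fun σ : Perm ι => ∏ i, A (σ i) i)).symm
  have h' : A.permanent + A.permanent = 0 := by
    nth_rewrite 2 [hsum]
    rw [Matrix.permanent, ← Finset.sum_add_distrib]
    refine Finset.sum_eq_zero fun σ _ => ?_
    set j := σ.symm a with hj
    set j' := σ.symm a' with hj'
    have hjj' : j ≠ j' := fun h => ha (σ.symm.injective h)
    have hsplit : ∀ f : ι → R, ∏ i, f i = f j * (f j' * ∏ i ∈ (Finset.univ.erase j).erase j', f i) := by
      intro f
      rw [← Finset.mul_prod_erase _ _ (Finset.mem_univ j),
        ← Finset.mul_prod_erase (Finset.univ.erase j) _ (a := j')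
          (Finset.mem_erase.mpr ⟨hjj'.symm, Finset.mem_univ _⟩)]
    rw [hsplit, hsplit]
    have hrest : ∏ i ∈ (Finset.univ.erase j).erase j', A ((Equiv.swap a a' * σ) i) i =
        ∏ i ∈ (Finset.univ.erase j).erase j', A (σ i) i := by
      refine Finset.prod_congr rfl fun i hi => ?_
      simp only [Finset.mem_erase, Finset.mem_univ, and_true] at hi
      rw [Perm.mul_apply, Equiv.swap_apply_of_ne_of_ne]
      · intro h; apply hi.2; rw [hj, ← h, Equiv.symm_apply_apply]
      · intro h; apply hi.1; rw [hj', ← h, Equiv.symm_apply_apply]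
    rw [hrest, Perm.mul_apply, Perm.mul_apply]
    have e1 : σ j = a := by rw [hj, Equiv.apply_symm_apply]
    have e2 : σ j' = a' := by rw [hj', Equiv.apply_symm_apply]
    rw [e1, e2, Equiv.swap_apply_left, Equiv.swap_apply_right]
    linear_combination (∏ i ∈ (Finset.univ.erase j).erase j', A (σ i) i) * h j j' hjj'
  rw [← two_mul] at h'
  exact (mul_eq_zero.mp h').resolve_left h2

/-- Colour mismatch: the permanent vanishes. -/
theorem permanent_eq_zero_of_card {γ : Type*} [DecidableEq γ] (A : Matrix ι ι R) (ρ τ : ι → γ)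
    (h : ∀ i j, ρ i ≠ τ j → A i j = 0) (c : γ)
    (hc : (univ.filter fun i => ρ i = c).card ≠ (univ.filter fun j => τ j = c).card) :
    A.permanent = 0 := by
  rw [Matrix.permanent]
  refine Finset.sum_eq_zero fun σ _ => ?_
  by_contra hne
  apply hc
  have hall : ∀ j, ρ (σ j) = τ j := by
    intro j
    by_contra hj
    exact hne (Finset.prod_eq_zero (Finset.mem_univ j) (h _ _ hj))
  symm
  refine Finset.card_bij (fun j _ => σ j) ?_ ?_ ?_
  · intro j hj
    simp only [Finset.mem_filter, Finset.mem_univ, true_and] at hj ⊢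
    rw [hall, hj]
  · intro j _ j' _ hjj'
    exact σ.injective hjj'
  · intro i hi
    simp only [Finset.mem_filter, Finset.mem_univ, true_and] at hi ⊢
    refine ⟨σ.symm i, ?_, by simp⟩
    rw [← hall]
    simpa using hi

theorem permanent_fromBlocks_zero₂₁ (A : Matrix ι ι R) (B : Matrix ι κ R) (D : Matrix κ κ R) :
    (Matrix.fromBlocks A B 0 D).permanent = A.permanent * D.permanent := by
  classical
  rw [Matrix.permanent, Matrix.permanent, Matrix.permanent]
  convert!
    Eq.symm <|
      sum_subset (M := R)
        (subset_univ ((Equiv.Perm.sumCongrHom ι κ).range : Set (Perm (ι ⊕ κ))).toFinset) ?_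
  · simp_rw [sum_mul_sum, ← sum_product', univ_product_univ]
    refine sum_nbij (fun σ ↦ σ.fst.sumCongr σ.snd) ?_ ?_ ?_ ?_
    · intro σ₁₂ _
      simp
    · intro σ₁ _ σ₂ _
      dsimp only
      intro h
      have h2 : ∀ x, Perm.sumCongr σ₁.fst σ₁.snd x = Perm.sumCongr σ₂.fst σ₂.snd x :=
        DFunLike.congr_fun h
      simp only [Sum.map_inr, Sum.map_inl, Perm.sumCongr_apply, Sum.forall, Sum.inl.injEq,
        Sum.inr.injEq] at h2
      ext x
      · exact h2.left x
      · exact h2.right x
    · intro σ hσ
      rw [mem_coe, Set.mem_toFinset] at hσ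
      obtain ⟨σ₁₂, hσ₁₂⟩ := hσ
      use σ₁₂
      rw [← hσ₁₂]
      simp
    · simp only [forall_prop_of_true, Prod.forall, mem_univ]
      intro σ₁ σ₂
      rw [Fintype.prod_sum_type]
      simp_rw [Equiv.sumCongr_apply, Sum.map_inr, Sum.map_inl, fromBlocks_apply₁₁,
        fromBlocks_apply₂₂]
  · rintro σ - hσn
    have h1 : ¬∀ x, ∃ y, Sum.inl y = σ (Sum.inl x) := by
      rw [Set.mem_toFinset] at hσn
      simpa only [Set.MapsTo, Set.mem_range, forall_exists_index, forall_apply_eq_imp_iff] using
        mt Equiv.Perm.mem_sumCongrHom_range_of_perm_mapsTo_inl hσn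
    obtain ⟨a, ha⟩ := not_forall.mp h1
    rcases hx : σ (Sum.inl a) with a2 | b
    · have hn := (not_exists.mp ha) a2
      exact absurd hx.symm hn
    · rw [Finset.prod_eq_zero (Finset.mem_univ (Sum.inl a))]
      rw [hx, fromBlocks_apply₂₁, Matrix.zero_apply]

theorem permanent_fromBlocks_zero₁₂ (A : Matrix ι ι R) (C : Matrix κ ι R) (D : Matrix κ κ R) :
    (Matrix.fromBlocks A 0 C D).permanent = A.permanent * D.permanent := by
  rw [← permanent_transpose, fromBlocks_transpose, transpose_zero, permanent_fromBlocks_zero₂₁,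
    permanent_transpose, permanent_transpose]

end general

section hankel

variable {k : Type*} [Field k] {N : ℕ}

/-- The constant vector field with coefficients `δ`. -/
noncomputable def dd (δ : Fin N → k) :
    Derivation k (MvPolynomial (Fin N) k) (MvPolynomial (Fin N) k) :=
  mkDerivation k (fun i => C (δ i))

theorem dd_X (δ : Fin N → k) (i : Fin N) : dd δ (X i) = C (δ i) := by
  simp [dd]

theorem dd_apply (δ : Fin N → k) (f : MvPolynomial (Fin N) k) :
    dd δ f = ∑ i, C (δ i) * pderiv i f := by
  induction f using MvPolynomial.induction_on with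
  | C a => simp [dd]
  | add p q hp hq => simp only [map_add, hp, hq, mul_add, Finset.sum_add_distrib]
  | mul_X p j hp =>
    have h : ∀ i, C (δ i) * pderiv i (p * X j) = X j * (C (δ i) * pderiv i p) +
        (if i = j then p * C (δ j) else 0) := by
      intro i
      rw [Derivation.leibniz, pderiv_X, smul_eq_mul, smul_eq_mul]
      by_cases hij : i = j
      · subst hij
        rw [if_pos rfl, Pi.single_eq_same]
        ring
      · rw [if_neg hij, Pi.single_eq_of_ne' hij]
        ring
    simp only [h, Finset.sum_add_distrib, Finset.sum_ite_eq', Finset.mem_univ, if_true]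
    rw [Derivation.leibniz, hp, dd_X, smul_eq_mul, smul_eq_mul, ← Finset.mul_sum, add_comm]

theorem sum_grad_mul (q : Fin N → k) (δ : Fin N → k) (f : MvPolynomial (Fin N) k) :
    ∑ i, grad q f i * δ i = aeval q (dd δ f) := by
  rw [dd_apply]
  simp [grad, mul_comm]

theorem sum_sum_hess (q : Fin N → k) (τ τ' : Fin N → k) (f : MvPolynomial (Fin N) k) :
    ∑ i, ∑ j, τ i * τ' j * aeval q (pderiv j (pderiv i f)) = aeval q (dd τ' (dd τ f)) := by
  rw [dd_apply τ' (dd τ f), dd_apply τ f]
  simp only [map_sum, map_mul, Finset.mul_sum, Derivation.leibniz, pderiv_C,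
    smul_eq_mul, aeval_C, Algebra.algebraMap_self, RingHom.id_apply]
  rw [Finset.sum_comm]
  refine Finset.sum_congr rfl fun i _ => Finset.sum_congr rfl fun j _ => ?_
  have h : aeval q (C (τ j) * pderiv i (pderiv j f) + (pderiv j f) * 0) =
      τ j * aeval q (pderiv i (pderiv j f)) := by
    rw [mul_zero, add_zero, map_mul, aeval_C, Algebra.algebraMap_self, RingHom.id_apply]
  rw [h]
  ring

variable {ι : Type*} [Fintype ι] [DecidableEq ι]

/-- A square submatrix of the infinite Hankel matrix of a sequence. -/
def hm (w : ℕ → k) (r c : ι → ℕ) : Matrix ι ι k := Matrix.of fun i j => w (r i + c j)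

theorem aeval_dd_permanent {m n : ℕ} (q δ : ℕ → k) (r : ι → Fin m) (c : ι → Fin n) :
    aeval (fun i : Fin (m + n - 1) => q i) (dd (fun i : Fin (m + n - 1) => δ i)
      ((hankelMatrix k m n).submatrix r c).permanent) =
    ∑ a, ((hm q (fun i => r i) (fun i => c i)).updateRow a
      (fun j => δ (r a + c j))).permanent := by
  rw [derivation_permanent, map_sum]
  refine Finset.sum_congr rfl fun a _ => ?_
  have h := map_permanent (aeval (fun i : Fin (m + n - 1) => q i) :
    MvPolynomial (Fin (m + n - 1)) k →ₐ[k] k).toRingHom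
    (((hankelMatrix k m n).submatrix r c).updateRow a fun j =>
      dd (fun i : Fin (m + n - 1) => δ i) (((hankelMatrix k m n).submatrix r c) a j))
  refine h.trans ?_
  congr 1
  ext i j
  by_cases hi : i = a
  · subst hi
    simp [hankelMatrix, dd_X]
  · simp [hi, hankelMatrix, hm]

theorem aeval_permanent {m n : ℕ} (q : ℕ → k) (r : ι → Fin m) (c : ι → Fin n) :
    aeval (fun i : Fin (m + n - 1) => q i) ((hankelMatrix k m n).submatrix r c).permanent =
    (hm q (fun i => r i) (fun i => c i)).permanent := by
  have h := map_permanent (aeval (fun i : Fin (m + n - 1) => q i) :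
    MvPolynomial (Fin (m + n - 1)) k →ₐ[k] k).toRingHom ((hankelMatrix k m n).submatrix r c)
  refine h.trans ?_
  congr 1
  ext i j
  simp [hankelMatrix, hm]

theorem aeval_dd_dd_permanent {m n : ℕ} (q τ τ' : ℕ → k) (r : ι → Fin m) (c : ι → Fin n) :
    aeval (fun i : Fin (m + n - 1) => q i) (dd (fun i : Fin (m + n - 1) => τ' i)
      (dd (fun i : Fin (m + n - 1) => τ i)
      ((hankelMatrix k m n).submatrix r c).permanent)) =
    ∑ a, ∑ b ∈ univ.erase a, (((hm q (fun i => r i) (fun i => c i)).updateRow a
      (fun j => τ (r a + c j))).updateRow b (fun j => τ' (r b + c j))).permanent := by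
  rw [derivation_permanent, map_sum, map_sum]
  refine Finset.sum_congr rfl fun a _ => ?_
  rw [derivation_permanent, map_sum, ← Finset.add_sum_erase _ _ (Finset.mem_univ a)]
  have h0 : (aeval fun i : Fin (m + n - 1) => q i)
      ((((hankelMatrix k m n).submatrix r c).updateRow a fun j =>
        dd (fun i : Fin (m + n - 1) => τ i) (((hankelMatrix k m n).submatrix r c) a j)).updateRow a
        fun j => dd (fun i : Fin (m + n - 1) => τ' i)
        ((((hankelMatrix k m n).submatrix r c).updateRow a fun j =>
          dd (fun i : Fin (m + n - 1) => τ i)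
            (((hankelMatrix k m n).submatrix r c) a j)) a j)).permanent = 0 := by
    rw [permanent_eq_zero_of_row _ a]
    · simp
    · intro j
      simp [hankelMatrix, dd_X]
  rw [h0, zero_add]
  refine Finset.sum_congr rfl fun b hb => ?_
  have hab : b ≠ a := Finset.ne_of_mem_erase hb
  have h := map_permanent (aeval (fun i : Fin (m + n - 1) => q i) :
    MvPolynomial (Fin (m + n - 1)) k →ₐ[k] k).toRingHom
    ((((hankelMatrix k m n).submatrix r c).updateRow a fun j =>
        dd (fun i : Fin (m + n - 1) => τ i) (((hankelMatrix k m n).submatrix r c) a j)).updateRow b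
        fun j => dd (fun i : Fin (m + n - 1) => τ' i)
        ((((hankelMatrix k m n).submatrix r c).updateRow a fun j =>
          dd (fun i : Fin (m + n - 1) => τ i)
            (((hankelMatrix k m n).submatrix r c) a j)) b j))
  refine h.trans ?_
  congr 1
  ext i j
  by_cases hi : i = b
  · subst hi
    simp [hankelMatrix, dd_X, hab]
  · by_cases hi' : i = a
    · subst hi'
      simp [hankelMatrix, dd_X, hi]
    · simp [hi, hi', hankelMatrix, hm]

/-- The coordinate space of the first `T` variables lies in `V(P_{T+1})`. -/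
theorem permIdeal_le_coord {m n T : ℕ} (f : MvPolynomial (Fin (m + n - 1)) k)
    (hf : f ∈ permIdeal (T + 1) (hankelMatrix k m n)) :
    aeval (fun i : Fin (m + n - 1) => if (i : ℕ) < T then X i else
      (0 : MvPolynomial (Fin (m + n - 1)) k)) f = 0 := by
  have hle : permIdeal (T + 1) (hankelMatrix k m n) ≤
      RingHom.ker (aeval (fun i : Fin (m + n - 1) => if (i : ℕ) < T then X i else
      (0 : MvPolynomial (Fin (m + n - 1)) k)) :
        MvPolynomial (Fin (m + n - 1)) k →ₐ[k] _).toRingHom := by
    rw [permIdeal, Ideal.span_le]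
    rintro f ⟨r, c, rfl⟩
    rw [SetLike.mem_coe, RingHom.mem_ker, map_permanent, Matrix.permanent]
    refine Finset.sum_eq_zero fun σ _ => ?_
    have hr : ∀ i : Fin (T + 1), (i : ℕ) ≤ r i := by
      rintro ⟨i, hi⟩
      induction i with
      | zero => simp
      | succ i ih =>
        have h1 := ih (by omega)
        have h2 : r ⟨i, by omega⟩ < r ⟨i + 1, hi⟩ := r.strictMono (by simp)
        have h3 : ((r ⟨i, by omega⟩ : Fin m) : ℕ) < r ⟨i + 1, hi⟩ := h2
        simp only at h1 ⊢
        omega
    have hc : ∀ i : Fin (T + 1), (i : ℕ) ≤ c i := by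
      rintro ⟨i, hi⟩
      induction i with
      | zero => simp
      | succ i ih =>
        have h1 := ih (by omega)
        have h2 : c ⟨i, by omega⟩ < c ⟨i + 1, hi⟩ := c.strictMono (by simp)
        have h3 : ((c ⟨i, by omega⟩ : Fin n) : ℕ) < c ⟨i + 1, hi⟩ := h2
        simp only at h1 ⊢
        omega
    have hex : ∃ i : Fin (T + 1), T ≤ (σ i : ℕ) + i := by
      by_contra hno
      push Not at hno
      have h1 : ∑ i : Fin (T + 1), ((σ i : ℕ) + i) < ∑ i : Fin (T + 1), T :=
        Finset.sum_lt_sum (fun i _ => (hno i).le) ⟨0, Finset.mem_univ _, hno 0⟩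
      rw [Finset.sum_add_distrib, Equiv.sum_comp σ (fun i : Fin (T + 1) => (i : ℕ))] at h1
      simp only [Finset.sum_const, Finset.card_univ, Fintype.card_fin, smul_eq_mul] at h1
      have h2 : (∑ i : Fin (T + 1), (i : ℕ)) * 2 = (T + 1) * T := by
        rw [Fin.sum_univ_eq_sum_range (fun i => i) (T + 1), Finset.sum_range_id_mul_two]
        simp
      omega
    obtain ⟨i, hi⟩ := hex
    refine Finset.prod_eq_zero (Finset.mem_univ i) ?_
    have h1 := hr (σ i)
    have h2 := hc i
    simp only [Matrix.map_apply, Matrix.submatrix_apply, hankelMatrix, Matrix.of_apply,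
      AlgHom.toRingHom_eq_coe, RingHom.coe_coe, aeval_X]
    rw [if_neg]
    omega
  exact hle hf

theorem hankel_big {m n T : ℕ} (hT : 1 ≤ T) (hm : T + 1 ≤ m) (hn : T + 1 ≤ n)
    (hp : (permIdeal (T + 1) (hankelMatrix k m n)).IsPrime) :
    Big (permIdeal (T + 1) (hankelMatrix k m n)) T := by
  have hTN : T < m + n - 1 := by omega
  refine big_of_coord _ hTN (fun f hf => permIdeal_le_coord f hf) ?_
  exact X_not_mem_permIdeal (by omega) (hankelMatrix k m n)
    (fun i j => (⟨i + j, by omega⟩ : Fin (m + n - 1))) (fun i j => rfl) _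

theorem aeval_eq_zero_of_mem {m n t : ℕ} (q : ℕ → k)
    (hq : ∀ (r : Fin t ↪o Fin m) (c : Fin t ↪o Fin n),
      (hm q (fun i => r i) (fun i => c i)).permanent = 0)
    (f : MvPolynomial (Fin (m + n - 1)) k) (hf : f ∈ permIdeal t (hankelMatrix k m n)) :
    aeval (fun i : Fin (m + n - 1) => q i) f = 0 := by
  have hle : permIdeal t (hankelMatrix k m n) ≤
      RingHom.ker (aeval (fun i : Fin (m + n - 1) => q i) :
        MvPolynomial (Fin (m + n - 1)) k →ₐ[k] _).toRingHom := by
    rw [permIdeal, Ideal.span_le]
    rintro f ⟨r, c, rfl⟩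
    rw [SetLike.mem_coe, RingHom.mem_ker]
    exact (aeval_permanent q r c).trans (hq r c)
  exact hle hf

end hankel

end Pool.Agent.HankelPerm
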