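import Pool.Agent.HankelPerm.SmallCheck

/-!
`m = t`, `n = t + 1`, `t = 3, 4, 5, 7, 9`.
-/

namespace Pool.Agent.HankelPerm

open Pool.Agent.H32

namespace Small

/-- Entry of a list of lists. -/
def tab (L : List (List ℤ)) (i j : ℕ) : ℤ := (L.getD i []).getD j 0

def Q3 : List ℤ := [0, 1, 0, 1, 0, -1]
def R3 : List (List (ℕ × ℤ)) := [[(1, 1), (3, 1)], [(0, 1), (2, 1)], [(1, 1), (3, -1)]]
def tau3 : List ℤ := [1, 0, -1, 0, 1, 0]
def T3 : List (List (ℕ × ℤ)) := [[(0, 1), (2, -1)], [(1, -1), (3, 1)], [(0, -1), (2, 1)]]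
def G3 : List (List ℤ) := [[0, -1, 0, 2, 0, 1], [-1, 0, 0, 0, 1, 0], [0, -1, 0, 2, 0, 1], [1, 0, 2, 0, 1, 0]]
def C3 : List (List ℤ) := [[0, -2, 0, 0, 0, 0], [-2, 0, 1, 0, 0, 0], [0, 0, 1, 0, 0, 0]]

theorem rows3 : Rows 3 (3 + 1) (fun s => Q3.getD s 0) R3 :=
  ⟨rfl, by decide +kernel, by decide +kernel⟩

theorem rowsT3 : Rows 3 (3 + 1) (fun s => tau3.getD s 0) T3 :=
  ⟨rfl, by decide +kernel, by decide +kernel⟩

theorem not_prime_3 {k : Type*} [Field k] (h2 : (2 : k) ≠ 0) :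
    ¬ (permIdeal 3 (hankelMatrix k 3 (3 + 1))).IsPrime :=
  second_check h2 (by norm_num) rows3 rowsT3 (by decide +kernel) (tab G3) (tab C3) 1
    (fun a => ([0, 1, 3] : List ℕ).getD a 0) (by decide +kernel) (by decide +kernel) (by decide +kernel)
    (by decide +kernel) (fun j => ([-1, 0, 1, 0] : List ℤ).getD j 0) (by decide +kernel) 3 (by decide +kernel)

def Q4 : List ℤ := [1, 0, 0, -1, 0, 1, -1, 1]
def R4 : List (List (ℕ × ℤ)) := [[(0, 1), (3, -1)], [(2, -1), (4, 1)], [(1, -1), (3, 1), (4, -1)], [(0, -1), (2, 1), (3, -1), (4, 1)]]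
def tau4 : List ℤ := [-1, 0, 1, 0, 1, 0, 0, 0]
def T4 : List (List (ℕ × ℤ)) := [[(0, -1), (2, 1), (4, 1)], [(1, 1), (3, 1)], [(0, 1), (2, 1)], [(1, 1)]]
def G4 : List (List ℤ) := [[0, -1, 2, 1, -2, 2, 0, -1], [-1, 1, -1, -1, 0, 2, 1, -1], [1, 0, 1, 2, 0, 0, -1, 0], [0, -1, 0, -1, 0, -2, 0, 1], [-1, 2, 1, -2, -2, 0, 1, 0]]
def C4 : List (List ℤ) := [[-3, -1, 1, 1, 0, 0, 0, 0], [-5, 1, -1, 3, 0, 0, 0, 0], [0, 2, 0, 2, 0, 0, 0, 0], [1, 1, 1, -1, 0, 0, 0, 0]]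

theorem rows4 : Rows 4 (4 + 1) (fun s => Q4.getD s 0) R4 :=
  ⟨rfl, by decide +kernel, by decide +kernel⟩

theorem rowsT4 : Rows 4 (4 + 1) (fun s => tau4.getD s 0) T4 :=
  ⟨rfl, by decide +kernel, by decide +kernel⟩

theorem not_prime_4 {k : Type*} [Field k] (h2 : (2 : k) ≠ 0) :
    ¬ (permIdeal 4 (hankelMatrix k 4 (4 + 1))).IsPrime :=
  second_check h2 (by norm_num) rows4 rowsT4 (by decide +kernel) (tab G4) (tab C4) 2
    (fun a => ([0, 1, 2, 4] : List ℕ).getD a 0) (by decide +kernel) (by decide +kernel) (by decide +kernel)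
    (by decide +kernel) (fun j => ([0, 1, 1, 1, 0] : List ℤ).getD j 0) (by decide +kernel) 2 (by decide +kernel)

def Q5 : List ℤ := [1, 1, -1, 0, -1, -1, 1, 0, -1, -1]
def R5 : List (List (ℕ × ℤ)) := [[(0, 1), (1, 1), (2, -1), (4, -1), (5, -1)], [(0, 1), (1, -1), (3, -1), (4, -1), (5, 1)], [(0, -1), (2, -1), (3, -1), (4, 1)], [(1, -1), (2, -1), (3, 1), (5, -1)], [(0, -1), (1, -1), (2, 1), (4, -1), (5, -1)]]
def G5 : List (List ℤ) := [[0, 1, 0, 6, 4, 6, 12, -6, 0, 3], [1, 0, 0, 0, 2, 4, 6, -4, 1, 0], [0, 0, -2, 8, 6, -8, -6, 4, -2, 0], [2, 0, 8, 8, -8, 0, 0, 0, 2, 0], [2, 3, 6, -2, -6, 6, -2, 2, 0, -3], [-1, 4, -2, -4, 8, 0, 0, 0, -3, 0]]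
def C5 : List (List ℤ) := [[-124181669690935670016, -772894210378315561946, 490091011612931590472, -93257301980580800998, 203727879847383977230, 106910644866639534464, -10093409885895091696, 528640176522073291, -648241649448931578960, 118464454100264112], [-62090938497936823096, -386447750311689727106, 245045914877655681648, -46628728830680415492, 101864109972120234482, 53455411669938417280, -5046713367756600080, 264320529508602725, -324121365801483303600, 59232325930531920], [100897662768972600440, 627976895373752864904, -398199168515734772400, 75771600022766492266, -165528994485564781344, -86864947290646390528, 8200900095727999712, -429520382433282842, 526696633260641394720, -96252422516681184], [3880610235622184876, 24152527432687146100, -15315079921093977226, 2914240414974598682, -6366386422287507166, -3340900020099607296, 315413617911707424, -16519720543928364, 20257202099705300640, -3701950330375008],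 [31045503799791407584, 193224090196688845598, -122523093795891136296, 23314390362136879410, -50932111668869532530, -26727735580508758656, 2523359492147984784, -132160411836823389, 162060863259747489840, -29616195925399248], [7761289572890361816, 48305484947062256290, -30630432556314545396, 5828532723542540692, -12732886210193844910, -6681859531278314624, 630832852362784336, -33039735252900781, 40514764917422277360, -7403966581016592]]

theorem rows5 : Rows 5 (5 + 1) (fun s => Q5.getD s 0) R5 :=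
  ⟨rfl, by decide +kernel, by decide +kernel⟩

theorem grads5 : ∀ j < 5 + 1, ∀ s < 2 * 5, gr R5 5 (5 + 1) j s = tab G5 j s := by decide +kernel

theorem not_prime_5 {k : Type*} [Field k] (h2 : (2 : k) ≠ 0) :
    ¬ (permIdeal 5 (hankelMatrix k 5 (5 + 1))).IsPrime :=
  first_check h2 (by norm_num) rows5 (by decide +kernel) (tab G5) (tab C5) 3 grads5
    (by decide +kernel)

def Q7 : List ℤ := [0, 0, 1, 0, -1, 0, 0, 0, 1, 1, 0, 0, 0, 0]
def R7 : List (List (ℕ × ℤ)) := [[(2, 1), (4, -1)], [(1, 1), (3, -1), (7, 1)], [(0, 1), (2, -1), (6, 1), (7, 1)], [(1, -1), (5, 1), (6, 1)], [(0, -1), (4, 1), (5, 1)], [(3, 1), (4, 1)], [(2, 1), (3, 1)]]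
def G7 : List (List ℤ) := [[0, -1, 0, 0, 0, 0, 6, 2, 0, 0, 0, -1, 2, 3], [-1, 0, 0, 0, 0, 6, 4, 0, 0, 0, -1, 0, 1, 0], [0, 0, 0, 0, 0, 0, -2, 0, 0, 0, 0, 2, 2, 0], [0, 0, 0, 0, 0, 0, -2, 0, 0, 0, 0, 2, -2, 0], [0, 0, 0, 0, 0, 0, -2, 0, 0, 0, 0, -2, -2, 0], [0, 3, 0, 0, 0, 0, -4, 2, 0, 0, 0, 1, 0, -1], [3, 3, -2, -2, -2, -4, 0, 6, 4, -4, -1, -1, -1, 1], [1, 0, 0, 0, 0, 2, 6, 0, 0, 0, 1, -2, 1, 0]]
def C7 : List (List ℤ) := [[0, -2, 0, 6, 0, 0, 0, 3, 0, 0, 0, 0, 0, 0], [-2, 0, 0, -5, 0, 1, 0, 0, 0, 0, 0, 0, 0, 0], [6, -4, 0, 4, 0, 2, -2, 2, 0, 0, 0, 0, 2, 0], [4, -2, 0, 7, 0, 1, 0, 2, 0, 0, 0, 2, -2, 0], [4, -4, 0, 6, 0, 2, -2, 3, 0, 0, 0, -2, 0, 0], [0, 2, 0, 6, 0, 0, 0, 1, 0, 0, 0, 0, 0, 0], [0, 0, 0, -4, 0, 0, 0, 0, 0, 0, 0, 0, 0, 0], [6, 0, 0, 7, 0, 1, 0, 0, 0, 0, 0, 0, 0, 0]]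

theorem rows7 : Rows 7 (7 + 1) (fun s => Q7.getD s 0) R7 :=
  ⟨rfl, by decide +kernel, by decide +kernel⟩

theorem grads7 : ∀ j < 7 + 1, ∀ s < 2 * 7, gr R7 7 (7 + 1) j s = tab G7 j s := by decide +kernel

theorem not_prime_7 {k : Type*} [Field k] (h2 : (2 : k) ≠ 0) :
    ¬ (permIdeal 7 (hankelMatrix k 7 (7 + 1))).IsPrime :=
  first_check h2 (by norm_num) rows7 (by decide +kernel) (tab G7) (tab C7) 3 grads7
    (by decide +kernel)

end Small

end Pool.Agent.HankelPerm
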