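import Pool.Agent.HankelPerm.SecondOrder

/-!
A verified checker for first and second order arguments at an integer point, `m = t`, `n = t + 1`.
-/

namespace Pool.Agent.HankelPerm

open Matrix Finset Equiv MvPolynomial Pool.Agent.H32

namespace Small

/-! ### the checker -/

/-- Membership test. -/
noncomputable def mem (c : ℕ) (U : List ℕ) : Bool :=
  @List.rec ℕ (fun _ => Bool) false (fun d _ ih => @Bool.rec (fun _ => Bool) ih true (Nat.beq c d)) U

/-- Permanent of the sparse rows, on the columns not in `U`. -/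
noncomputable def prm (rs : List (List (ℕ × ℤ))) : List ℕ → ℤ :=
  @List.rec _ (fun _ => List ℕ → ℤ) (fun _ => Int.ofNat 1) (fun r _ ih U =>
    @List.rec _ (fun _ => ℤ) (Int.ofNat 0) (fun x _ s => @Bool.rec (fun _ => ℤ)
      (Int.add (Int.mul x.2 (ih (x.1 :: U))) s) s (mem x.1 U)) r) rs

/-- The gradient of the permanent with missing column `j`, in the direction `s`. -/
noncomputable def gr (R : List (List (ℕ × ℤ))) (t n j s : ℕ) : ℤ :=
  ((List.range t).map fun a => bif (Nat.ble a s).and ((Nat.blt (s - a) n).and (!Nat.beq (s - a) j))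
    then prm (R.eraseIdx a) [s - a, j] else 0).sum

/-- Entry of a sparse row. -/
def ent (r : List (ℕ × ℤ)) (j : ℕ) : ℤ := (r.map fun x => bif Nat.beq x.1 j then x.2 else 0).sum

theorem mem_cons (c d : ℕ) (U : List ℕ) : mem c (d :: U) = (Nat.beq c d).or (mem c U) := by
  have h : mem c (d :: U) = @Bool.rec (fun _ => Bool) (mem c U) true (Nat.beq c d) := rfl
  rw [h]
  cases Nat.beq c d <;> rfl

theorem prm_nil (U : List ℕ) : prm [] U = 1 := rfl

theorem prm_cons (r : List (ℕ × ℤ)) (rs : List (List (ℕ × ℤ))) (U : List ℕ) :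
    prm (r :: rs) U = (r.map fun x => bif mem x.1 U then 0 else x.2 * prm rs (x.1 :: U)).sum := by
  have h : prm (r :: rs) U = @List.rec _ (fun _ => ℤ) (Int.ofNat 0) (fun x _ s =>
    @Bool.rec (fun _ => ℤ) (Int.add (Int.mul x.2 (prm rs (x.1 :: U))) s) s (mem x.1 U)) r := rfl
  rw [h]
  clear h
  induction r with
  | nil => rfl
  | cons x r ih =>
    rw [List.map_cons, List.sum_cons, ← ih]
    have key : ∀ (b : Bool) (P S : ℤ), @Bool.rec (fun _ => ℤ) (Int.add (Int.mul x.2 P) S) S b =
        (bif b then 0 else x.2 * P) + S := by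
      intro b P S
      cases b
      · rfl
      · exact (zero_add _).symm
    exact key _ _ _

theorem mem_iff (c : ℕ) (U : List ℕ) : mem c U = true ↔ c ∈ U := by
  induction U with
  | nil => exact ⟨fun h => absurd h Bool.false_ne_true, fun h => absurd h List.not_mem_nil⟩
  | cons d U ih =>
    rw [mem_cons, Bool.or_eq_true, ih, List.mem_cons]
    constructor
    · rintro (h | h)
      · exact Or.inl (Nat.eq_of_beq_eq_true h)
      · exact Or.inr h
    · rintro (h | h)
      · left; subst h; exact Nat.beq_refl _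
      · exact Or.inr h

section alg

variable {A : Type*} [CommRing A] (y : ℕ → A)

/-- The linear form of a sparse row. -/
def lin (r : List (ℕ × ℤ)) : A := (r.map fun x => (x.2 : A) * y x.1).sum

variable {y}

theorem lin_cons (x : ℕ × ℤ) (r : List (ℕ × ℤ)) : lin y (x :: r) = (x.2 : A) * y x.1 + lin y r := by
  simp [lin]

theorem lin_mul (r : List (ℕ × ℤ)) (Z : A) :
    lin y r * Z = (r.map fun x => (x.2 : A) * (y x.1 * Z)).sum := by
  induction r with
  | nil => simp [lin]
  | cons x r ih =>
    rw [lin_cons, add_mul, ih, List.map_cons, List.sum_cons, mul_assoc]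

theorem cast_sum_mul (r : List (ℕ × ℤ)) (f : ℕ × ℤ → ℤ) (Z : A) :
    (((r.map f).sum : ℤ) : A) * Z = (r.map fun x => (f x : A) * Z).sum := by
  induction r with
  | nil => simp
  | cons x r ih =>
    rw [List.map_cons, List.sum_cons, Int.cast_add, add_mul, ih, List.map_cons, List.sum_cons]

theorem mul_prod_mem (hy : ∀ j, y j * y j = 0) {c : ℕ} {U : List ℕ} (h : c ∈ U) :
    y c * (U.map y).prod = 0 := by
  induction U with
  | nil => simp at h
  | cons d U ih =>
    rw [List.map_cons, List.prod_cons]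
    rcases List.mem_cons.mp h with h | h
    · subst h; rw [← mul_assoc, hy, zero_mul]
    · rw [mul_left_comm, ih h, mul_zero]

theorem prm_spec (hy : ∀ j, y j * y j = 0) (n : ℕ) (rs : List (List (ℕ × ℤ))) :
    ∀ U : List ℕ, U.Nodup → (∀ c ∈ U, c < n) → U.length + rs.length = n →
    (∀ r ∈ rs, ∀ x ∈ r, x.1 < n) →
    (rs.map (lin y)).prod * (U.map y).prod = (prm rs U : A) * ∏ j ∈ range n, y j := by
  induction rs with
  | nil =>
    intro U h1 h2 h3 _
    have h4 : U.toFinset = range n := by
      apply Finset.eq_of_subset_of_card_le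
      · intro c hc
        rw [mem_range]
        exact h2 c (List.mem_toFinset.mp hc)
      · rw [card_range, List.toFinset_card_of_nodup h1]
        simpa using h3.symm.le
    rw [List.map_nil, List.prod_nil, one_mul, prm_nil, Int.cast_one, one_mul, ← h4,
      List.prod_toFinset y h1]
  | cons r rs ih =>
    intro U h1 h2 h3 h5
    rw [List.map_cons, List.prod_cons, mul_assoc, lin_mul, prm_cons, cast_sum_mul]
    congr 1
    refine List.map_congr_left fun x hx => ?_
    by_cases h : x.1 ∈ U
    · rw [(mem_iff x.1 U).mpr h, cond_true, Int.cast_zero, zero_mul, mul_left_comm (y x.1),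
        mul_prod_mem hy h, mul_zero, mul_zero]
    · have h' : mem x.1 U = false := by
        rw [← Bool.not_eq_true, mem_iff]; exact h
      rw [h', cond_false, Int.cast_mul, mul_assoc]
      congr 1
      have h6 := ih (x.1 :: U) (List.nodup_cons.mpr ⟨h, h1⟩) (by
        intro c hc
        rcases List.mem_cons.mp hc with hc | hc
        · rw [hc]; exact h5 r List.mem_cons_self x hx
        · exact h2 c hc) (by
        rw [List.length_cons]
        rw [List.length_cons] at h3
        omega) (fun r' hr' => h5 r' (List.mem_cons_of_mem _ hr'))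
      rw [← h6, List.map_cons, List.prod_cons]
      ring

theorem lin_eq {n : ℕ} {r : List (ℕ × ℤ)} (hr : ∀ x ∈ r, x.1 < n) :
    lin y r = ∑ j ∈ range n, (ent r j : A) * y j := by
  induction r with
  | nil => simp [lin, ent]
  | cons x r ih =>
    rw [lin_cons, ih (fun z hz => hr z (List.mem_cons_of_mem _ hz))]
    have h1 : ∀ j, ent (x :: r) j = (bif Nat.beq x.1 j then x.2 else 0) + ent r j := by
      intro j; simp [ent]
    simp only [h1, Int.cast_add, add_mul, Finset.sum_add_distrib]
    congr 1
    rw [Finset.sum_eq_single x.1]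
    · rw [Nat.beq_refl, cond_true]
    · intro j _ hj
      have : Nat.beq x.1 j = false := by
        rw [← Bool.not_eq_true]
        intro h
        exact hj (Nat.eq_of_beq_eq_true h).symm
      rw [this, cond_false, Int.cast_zero, zero_mul]
    · intro h
      exact absurd (mem_range.mpr (hr x List.mem_cons_self)) h

/-- Products of a family over `Fin t` given by a list. -/
theorem prod_list {t : ℕ} (L : List A) (hL : L.length = t) :
    ∏ i : Fin t, L.getD i 0 = L.prod := by
  have h : L = List.ofFn (fun i : Fin t => L.getD i 0) := by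
    apply List.ext_getElem
    · rw [List.length_ofFn, hL]
    · intro i h1 h2
      rw [List.getElem_ofFn, List.getD_eq_getElem _ _ h1]
  conv_rhs => rw [h]
  rw [List.prod_ofFn]

theorem prod_set {t : ℕ} (L : List A) (hL : L.length = t) (a : ℕ) (ha : a < t) (D : A) :
    ∏ i : Fin t, (if (i : ℕ) = a then D else L.getD i 0) = D * (L.eraseIdx a).prod := by
  have h1 : ∏ i : Fin t, (if (i : ℕ) = a then D else L.getD i 0) =
      ∏ i : Fin t, (L.set a D).getD i 0 := by
    refine Finset.prod_congr rfl fun i _ => ?_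
    have hi : (i : ℕ) < L.length := by rw [hL]; exact i.2
    rw [List.getD_eq_getElem _ _ hi, List.getD_eq_getElem _ _ (by rw [List.length_set]; exact hi),
      List.getElem_set]
    by_cases h : (i : ℕ) = a
    · rw [if_pos h, if_pos h.symm]
    · rw [if_neg h, if_neg (fun h' => h h'.symm)]
  rw [h1, prod_list _ (by rw [List.length_set, hL]),
    (List.set_perm_cons_eraseIdx (by rw [hL]; exact ha) D).prod_eq, List.prod_cons]

theorem prod_set_set {t : ℕ} (L : List A) (hL : L.length = t) (a b : ℕ) (D D' : A) :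
    ∏ i : Fin t, (if (i : ℕ) = b then D' else if (i : ℕ) = a then D else L.getD i 0) =
      ((L.set a D).set b D').prod := by
  rw [← prod_list ((L.set a D).set b D') (by rw [List.length_set, List.length_set, hL])]
  refine Finset.prod_congr rfl fun i _ => ?_
  have hi : (i : ℕ) < L.length := by rw [hL]; exact i.2
  rw [List.getD_eq_getElem _ _ hi, List.getD_eq_getElem _ _ (by
    rw [List.length_set, List.length_set]; exact hi), List.getElem_set, List.getElem_set]
  by_cases h : (i : ℕ) = b
  · rw [if_pos h, if_pos h.symm]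
  · have hb : ¬ b = (i : ℕ) := fun h' => h h'.symm
    rw [if_neg h, if_neg hb]
    by_cases h' : (i : ℕ) = a
    · rw [if_pos h', if_pos h'.symm]
    · have ha : ¬ a = (i : ℕ) := fun h'' => h' h''.symm
      rw [if_neg h', if_neg ha]

end alg

/-! ### the polynomials -/

section poly

variable {k : Type*} [Field k] {t : ℕ}

/-- The maximal permanent with missing column `j`. -/
noncomputable def fpol (k : Type*) [Field k] (t : ℕ) (j : Fin (t + 1)) :
    MvPolynomial (Fin (t + (t + 1) - 1)) k :=
  ((hankelMatrix k t (t + 1)).submatrix id (Fin.succAbove j)).permanent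

theorem fpol_mem (j : Fin (t + 1)) : fpol k t j ∈ permIdeal t (hankelMatrix k t (t + 1)) :=
  permanent_mem_permIdeal' _ (Fintype.card_fin t) id Function.injective_id _
    Fin.succAbove_right_injective

theorem compl_succAbove (j : Fin (t + 1)) : (univ.image (Fin.succAbove j))ᶜ = {j} := by
  ext i
  simp only [Finset.mem_compl, Finset.mem_image, Finset.mem_univ, true_and, not_exists,
    Finset.mem_singleton]
  constructor
  · intro h
    by_contra hij
    obtain ⟨x, hx⟩ := Fin.exists_succAbove_eq hij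
    exact h x hx
  · rintro rfl x hx
    exact Fin.succAbove_ne i x hx

/-- The variables. -/
noncomputable def yy (k : Type*) [Field k] (n : ℕ) (j : ℕ) : SqAlg k n :=
  if h : j < n then sy k n ⟨j, h⟩ else 0

theorem yy_sq (n j : ℕ) : yy k n j * yy k n j = 0 := by
  rw [yy]; split_ifs
  · exact sy_mul_self _
  · simp

theorem yy_fin {n : ℕ} (j : Fin n) : yy k n j = sy k n j := by rw [yy, dif_pos j.2]

theorem prod_yy (n : ℕ) : ∏ j : Fin n, sy k n j = ∏ j ∈ range n, yy k n j := by
  rw [← Fin.prod_univ_eq_prod_range (fun j => yy k n j)]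
  exact Finset.prod_congr rfl fun j _ => (yy_fin j).symm

theorem eq_of_smul_prod {n : ℕ} {a b : k} (h : a • ∏ j : Fin n, sy k n j = b • ∏ j : Fin n, sy k n j) :
    a = b := by
  rw [← sub_eq_zero]
  apply smul_prod_sy_eq_zero univ
  rw [sub_smul, h, sub_self]

/-- The rows of an integer sequence are given by a list of sparse rows. -/
structure Rows (t n : ℕ) (Q : ℕ → ℤ) (R : List (List (ℕ × ℤ))) : Prop where
  len : R.length = t
  lt : ∀ r ∈ R, ∀ x ∈ r, x.1 < n
  eq : ∀ i < t, ∀ j < n, ent (R.getD i []) j = Q (i + j)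

theorem Rows.row {n : ℕ} {Q : ℕ → ℤ} {R : List (List (ℕ × ℤ))} (h : Rows t n Q R) (i : Fin t) :
    ∑ j : Fin n, ((Q (i + j) : ℤ) : k) • sy k n j = (R.map (lin (yy k n))).getD i 0 := by
  have hi : (i : ℕ) < R.length := by rw [h.len]; exact i.2
  rw [List.getD_eq_getElem _ _ (by rw [List.length_map]; exact hi), List.getElem_map,
    lin_eq (fun x hx => h.lt _ (List.getElem_mem hi) x hx),
    ← Fin.sum_univ_eq_sum_range (fun j => (ent R[(i : ℕ)] j : SqAlg k n) * yy k n j)]
  refine Finset.sum_congr rfl fun j _ => ?_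
  have h1 := h.eq i i.2 j j.2
  rw [List.getD_eq_getElem _ _ hi] at h1
  rw [h1, yy_fin, Algebra.smul_def, map_intCast]

/-- Values. -/
theorem value_eq {Q : ℕ → ℤ} {R : List (List (ℕ × ℤ))} (h : Rows t (t + 1) Q R) (j : Fin (t + 1)) :
    aeval (fun i : Fin (t + (t + 1) - 1) => ((Q i : ℤ) : k)) (fpol k t j) = ((prm R [j] : ℤ) : k) := by
  have h1 := compl_mul_prod (sy k (t + 1)) sy_mul_self (fun (i : Fin t) (c : Fin (t + 1)) =>
    ((Q (i + c) : ℤ) : k)) (Fin.succAbove j) Fin.succAbove_right_injective
  have h2 : aeval (fun i : Fin (t + (t + 1) - 1) => ((Q i : ℤ) : k)) (fpol k t j) =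
      (Matrix.of fun (i c : Fin t) => ((Q (i + (Fin.succAbove j c : Fin (t + 1))) : ℤ) : k)).permanent :=
    aeval_permanent (fun i => ((Q i : ℤ) : k)) id (Fin.succAbove j)
  rw [h2]
  apply eq_of_smul_prod (n := t + 1)
  rw [← h1, compl_succAbove, Finset.prod_singleton, Finset.prod_congr rfl (fun i _ => h.row i),
    prod_list _ (by rw [List.length_map, h.len])]
  have h3 := prm_spec (y := yy k (t + 1)) (yy_sq _) (t + 1) R [j] (List.nodup_singleton _)
    (by intro c hc; rw [List.mem_singleton] at hc; rw [hc]; exact j.2)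
    (by rw [h.len, List.length_singleton]; ring) h.lt
  rw [List.map_singleton, List.prod_singleton, yy_fin] at h3
  rw [mul_comm, h3, prod_yy, Algebra.smul_def, map_intCast]

/-- Gradients. -/
theorem grad_eq {Q : ℕ → ℤ} {R : List (List (ℕ × ℤ))} (h : Rows t (t + 1) Q R) (δ : ℕ → k)
    (j : Fin (t + 1)) :
    aeval (fun i : Fin (t + (t + 1) - 1) => ((Q i : ℤ) : k))
      (dd (fun i : Fin (t + (t + 1) - 1) => δ i) (fpol k t j)) =
      ∑ s ∈ range (2 * t), ((gr R t (t + 1) j s : ℤ) : k) * δ s := by
  have h1 := compl_mul_dd (sy k (t + 1)) sy_mul_self (fun i => ((Q i : ℤ) : k)) δ id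
    (Fin.succAbove j) Fin.succAbove_right_injective
  apply eq_of_smul_prod (n := t + 1)
  refine h1.symm.trans ?_
  rw [compl_succAbove, Finset.prod_singleton, Finset.mul_sum]
  have h2 : ∀ a : Fin t, sy k (t + 1) j * ∏ i : Fin t, (if i = a then
      ∑ c : Fin (t + 1), δ ((id i : Fin t) + c) • sy k (t + 1) c else
      ∑ c : Fin (t + 1), ((Q ((id i : Fin t) + c) : ℤ) : k) • sy k (t + 1) c) =
      (∑ c ∈ range (t + 1), (if c = (j : ℕ) then (0 : k) else
        δ (a + c) * ((prm (R.eraseIdx a) [c, j] : ℤ) : k))) • ∏ j, sy k (t + 1) j := by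
    intro a
    have h3 : ∏ i : Fin t, (if i = a then
      ∑ c : Fin (t + 1), δ ((id i : Fin t) + c) • sy k (t + 1) c else
      ∑ c : Fin (t + 1), ((Q ((id i : Fin t) + c) : ℤ) : k) • sy k (t + 1) c) =
      ∏ i : Fin t, (if (i : ℕ) = a then
        ∑ c : Fin (t + 1), δ (a + c) • sy k (t + 1) c else
        (R.map (lin (yy k (t + 1)))).getD i 0) := by
      refine Finset.prod_congr rfl fun i _ => ?_
      by_cases hi : i = a
      · rw [if_pos hi, if_pos (congrArg Fin.val hi), hi]; rfl
      · rw [if_neg hi, if_neg (fun h' => hi (Fin.ext h')), ← h.row]; rfl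
    rw [h3, prod_set _ (by rw [List.length_map, h.len]) a a.2, List.eraseIdx_map,
      Finset.sum_mul, Finset.mul_sum, Finset.sum_smul,
      ← Fin.sum_univ_eq_sum_range (fun c => (if c = (j : ℕ) then (0 : k) else
        δ (a + c) * ((prm (R.eraseIdx a) [c, j] : ℤ) : k)) • ∏ j, sy k (t + 1) j)]
    refine Finset.sum_congr rfl fun c _ => ?_
    by_cases hc : c = j
    · subst hc
      rw [if_pos rfl, zero_smul, smul_mul_assoc, mul_smul_comm, ← mul_assoc, sy_mul_self,
        zero_mul, smul_zero]
    · rw [if_neg (fun h' => hc (Fin.ext h'))]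
      have h4 := prm_spec (y := yy k (t + 1)) (yy_sq _) (t + 1) (R.eraseIdx a) [(c : ℕ), (j : ℕ)]
        (by
          rw [List.nodup_cons, List.mem_singleton]
          exact ⟨fun h' => hc (Fin.ext h'), List.nodup_singleton _⟩)
        (by
          intro d hd
          rcases List.mem_cons.mp hd with hd | hd
          · rw [hd]; exact c.2
          · rw [List.mem_singleton] at hd; rw [hd]; exact j.2)
        (by
          rw [List.length_eraseIdx_of_lt (by rw [h.len]; exact a.2), h.len]
          have := a.2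
          simp only [List.length_cons, List.length_nil]
          omega) (fun r hr => h.lt r (List.mem_of_mem_eraseIdx hr))
      rw [List.map_cons, List.prod_cons, List.map_singleton, List.prod_singleton, yy_fin,
        yy_fin] at h4
      rw [mul_smul, Algebra.smul_def ((prm (R.eraseIdx a) [(c : ℕ), (j : ℕ)] : ℤ) : k), map_intCast,
        prod_yy, ← h4, smul_mul_assoc, mul_smul_comm]
      congr 1
      ring
  refine (Finset.sum_congr rfl fun a _ => h2 a).trans ?_
  rw [← Finset.sum_smul]
  congr 1
  -- reorganise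
  have h5 : ∀ a : Fin t, ∑ c ∈ range (t + 1), (if c = (j : ℕ) then (0 : k) else
      δ (a + c) * ((prm (R.eraseIdx a) [c, j] : ℤ) : k)) =
      ∑ s ∈ range (2 * t), (((bif (Nat.ble a s).and ((Nat.blt (s - a) (t + 1)).and
        (!Nat.beq (s - a) j)) then prm (R.eraseIdx a) [s - a, j] else 0 : ℤ)) : k) * δ s := by
    intro a
    have ha := a.2
    rw [← Finset.sum_filter_add_sum_filter_not (range (2 * t)) (fun s => (a : ℕ) ≤ s ∧ s - a < t + 1),
      Finset.sum_eq_zero (s := (range (2 * t)).filter (fun s => ¬ ((a : ℕ) ≤ s ∧ s - a < t + 1))),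
      add_zero]
    · refine Finset.sum_bij' (fun c _ => a + c) (fun s _ => s - a) ?_ ?_ ?_ ?_ ?_
      · intro c hc
        rw [mem_range] at hc
        rw [Finset.mem_filter, mem_range]
        omega
      · intro s hs
        rw [Finset.mem_filter, mem_range] at hs
        rw [mem_range]
        omega
      · intro c _; omega
      · intro s hs
        rw [Finset.mem_filter] at hs
        omega
      · intro c hc
        rw [mem_range] at hc
        have e1 : Nat.ble a (a + c) = true := Nat.ble_eq.mpr (by omega)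
        have e2 : Nat.blt (a + c - a) (t + 1) = true := Nat.ble_eq.mpr (by omega)
        have e3 : (a : ℕ) + c - a = c := by omega
        rw [e1, e2, e3, Bool.true_and, Bool.true_and]
        by_cases hcj : c = j
        · rw [if_pos hcj, hcj, Nat.beq_refl]; simp
        · have e4 : Nat.beq c j = false := by
            rw [← Bool.not_eq_true]
            intro h'; exact hcj (Nat.eq_of_beq_eq_true h')
          rw [if_neg hcj, e4, Bool.not_false, cond_true, mul_comm]
    · intro s hs
      rw [Finset.mem_filter, mem_range] at hs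
      have e1 : ((Nat.ble a s).and ((Nat.blt (s - a) (t + 1)).and (!Nat.beq (s - a) j))) = false := by
        rw [← Bool.not_eq_true]
        intro h'
        rw [Bool.and_eq_true, Bool.and_eq_true] at h'
        have f1 := Nat.le_of_ble_eq_true h'.1
        have f2 : s - a + 1 ≤ t + 1 := Nat.le_of_ble_eq_true h'.2.1
        exact hs.2 ⟨f1, by omega⟩
      rw [e1, cond_false, Int.cast_zero, zero_mul]
  rw [Finset.sum_congr rfl (fun a _ => h5 a), Finset.sum_comm]
  refine Finset.sum_congr rfl fun s _ => ?_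
  rw [gr, ← Finset.sum_mul]
  congr 1
  have h6 : ∀ (f : ℕ → ℤ) (m : ℕ), (((List.range m).map f).sum : ℤ) = ∑ a ∈ range m, f a := by
    intro f m
    rw [Finset.sum_range, ← List.sum_ofFn]
    congr 1
    apply List.ext_getElem <;> simp
  rw [h6, Int.cast_sum, Finset.sum_range]

/-- Second derivatives. -/
noncomputable def hs (R T : List (List (ℕ × ℤ))) (t j : ℕ) : ℤ :=
  ((List.range t).map fun a => ((List.range t).map fun b => bif Nat.beq a b then 0 else
    prm ((R.set a (T.getD a [])).set b (T.getD b [])) [j]).sum).sum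

theorem sum_list (f : ℕ → ℤ) (m : ℕ) : (((List.range m).map f).sum : ℤ) = ∑ a ∈ range m, f a := by
  rw [Finset.sum_range, ← List.sum_ofFn]
  congr 1
  apply List.ext_getElem <;> simp

theorem mem_set_or {α : Type*} {l : List α} {i : ℕ} {a b : α} (h : b ∈ l.set i a) :
    b ∈ l ∨ b = a := List.mem_or_eq_of_mem_set h

theorem hess_eq {Q τ : ℕ → ℤ} {R T : List (List (ℕ × ℤ))} (h : Rows t (t + 1) Q R)
    (hT : Rows t (t + 1) τ T) (j : Fin (t + 1)) :
    aeval (fun i : Fin (t + (t + 1) - 1) => ((Q i : ℤ) : k))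
      (dd (fun i : Fin (t + (t + 1) - 1) => ((τ i : ℤ) : k))
      (dd (fun i : Fin (t + (t + 1) - 1) => ((τ i : ℤ) : k)) (fpol k t j))) =
      ((hs R T t j : ℤ) : k) := by
  have h1 := compl_mul_dd_dd (sy k (t + 1)) sy_mul_self (fun i => ((Q i : ℤ) : k))
    (fun i => ((τ i : ℤ) : k)) (fun i => ((τ i : ℤ) : k)) id
    (Fin.succAbove j) Fin.succAbove_right_injective
  apply eq_of_smul_prod (n := t + 1)
  refine h1.symm.trans ?_
  rw [compl_succAbove, Finset.prod_singleton, Finset.mul_sum, hs, sum_list, Int.cast_sum,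
    Finset.sum_smul, Finset.sum_range]
  refine Finset.sum_congr rfl fun a _ => ?_
  rw [Finset.mul_sum, sum_list, Int.cast_sum, Finset.sum_smul, Finset.sum_range,
    ← Finset.add_sum_erase univ (fun b : Fin t => (((bif Nat.beq a b then 0 else
    prm ((R.set a (T.getD a [])).set b (T.getD b [])) [(j : ℕ)] : ℤ)) : k) •
      ∏ j, sy k (t + 1) j) (Finset.mem_univ a), Nat.beq_refl, cond_true, Int.cast_zero, zero_smul,
    zero_add]
  refine Finset.sum_congr rfl fun b hb => ?_
  have hab : (b : ℕ) ≠ a := fun h' => (Finset.ne_of_mem_erase hb) (Fin.ext h')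
  have hab' : Nat.beq a b = false := by
    rw [← Bool.not_eq_true]
    intro h'; exact hab (Nat.eq_of_beq_eq_true h').symm
  have hTa : (a : ℕ) < T.length := by rw [hT.len]; exact a.2
  have hTb : (b : ℕ) < T.length := by rw [hT.len]; exact b.2
  have ta := hT.row (k := k) a
  have tb := hT.row (k := k) b
  rw [List.getD_eq_getElem _ _ (by rw [List.length_map]; exact hTa), List.getElem_map] at ta
  rw [List.getD_eq_getElem _ _ (by rw [List.length_map]; exact hTb), List.getElem_map] at tb
  have h3 : ∏ i : Fin t, (if i = b then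
      ∑ c : Fin (t + 1), ((τ ((id i : Fin t) + c) : ℤ) : k) • sy k (t + 1) c else if i = a then
      ∑ c : Fin (t + 1), ((τ ((id i : Fin t) + c) : ℤ) : k) • sy k (t + 1) c else
      ∑ c : Fin (t + 1), ((Q ((id i : Fin t) + c) : ℤ) : k) • sy k (t + 1) c) =
      ∏ i : Fin t, (if (i : ℕ) = b then lin (yy k (t + 1)) T[(b : ℕ)] else
        if (i : ℕ) = a then lin (yy k (t + 1)) T[(a : ℕ)] else
        (R.map (lin (yy k (t + 1)))).getD i 0) := by
    refine Finset.prod_congr rfl fun i _ => ?_
    by_cases hi : i = b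
    · rw [if_pos hi, if_pos (congrArg Fin.val hi), hi, ← tb]; rfl
    · rw [if_neg hi, if_neg (fun h' => hi (Fin.ext h'))]
      by_cases hi' : i = a
      · rw [if_pos hi', if_pos (congrArg Fin.val hi'), hi', ← ta]; rfl
      · rw [if_neg hi', if_neg (fun h' => hi' (Fin.ext h')), ← h.row]; rfl
  have h4 := prm_spec (y := yy k (t + 1)) (yy_sq _) (t + 1)
    ((R.set a (T.getD a [])).set b (T.getD b [])) [(j : ℕ)] (List.nodup_singleton _)
    (by intro c hc; rw [List.mem_singleton] at hc; rw [hc]; exact j.2)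
    (by rw [List.length_set, List.length_set, h.len, List.length_singleton]; ring) (by
      intro r hr
      rw [List.getD_eq_getElem _ _ hTa, List.getD_eq_getElem _ _ hTb] at hr
      rcases List.mem_or_eq_of_mem_set hr with hr | hr
      · rcases List.mem_or_eq_of_mem_set hr with hr | hr
        · exact h.lt r hr
        · rw [hr]; exact hT.lt _ (List.getElem_mem hTa)
      · rw [hr]; exact hT.lt _ (List.getElem_mem hTb))
  rw [List.map_singleton, List.prod_singleton, yy_fin, List.map_set, List.map_set,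
    List.getD_eq_getElem _ _ hTa, List.getD_eq_getElem _ _ hTb] at h4
  rw [hab', cond_false]
  refine (congrArg (fun z => sy k (t + 1) j * z) h3).trans ?_
  rw [prod_set_set _ (by rw [List.length_map, h.len]), mul_comm, h4, prod_yy, Algebra.smul_def,
    map_intCast, List.getD_eq_getElem _ _ hTa, List.getD_eq_getElem _ _ hTb]

/-- The point belongs to the variety. -/
theorem point_mem {Q : ℕ → ℤ} {R : List (List (ℕ × ℤ))} (h : Rows t (t + 1) Q R)
    (hval : ∀ j < t + 1, prm R [j] = 0) (f : MvPolynomial (Fin (t + (t + 1) - 1)) k)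
    (hf : f ∈ permIdeal t (hankelMatrix k t (t + 1))) :
    aeval (fun i : Fin (t + (t + 1) - 1) => ((Q i : ℤ) : k)) f = 0 := by
  refine aeval_eq_zero_of_mem (fun i => ((Q i : ℤ) : k)) (fun r c => ?_) f hf
  have hr : ∀ i, r i = i := fun i => congrFun (strictMono_fin_eq_id r r.strictMono) i
  have hcard : (univ.image c)ᶜ.card = 1 := by
    rw [Finset.card_compl, Finset.card_image_of_injective _ c.injective, Fintype.card_fin,
      Finset.card_univ, Fintype.card_fin]
    omega
  obtain ⟨j, hj⟩ := Finset.card_eq_one.mp hcard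
  have h1 := compl_mul_prod (sy k (t + 1)) sy_mul_self (fun (i : Fin t) (c : Fin (t + 1)) =>
    ((Q (i + c) : ℤ) : k)) c c.injective
  rw [hj, Finset.prod_singleton, Finset.prod_congr rfl (fun i _ => h.row i),
    prod_list _ (by rw [List.length_map, h.len])] at h1
  have h3 := prm_spec (y := yy k (t + 1)) (yy_sq _) (t + 1) R [(j : ℕ)] (List.nodup_singleton _)
    (by intro c hc; rw [List.mem_singleton] at hc; rw [hc]; exact j.2)
    (by rw [h.len, List.length_singleton]; ring) h.lt
  rw [List.map_singleton, List.prod_singleton, yy_fin, hval j j.2, Int.cast_zero, zero_mul,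
    mul_comm] at h3
  rw [h3] at h1
  have h4 := smul_prod_sy_eq_zero univ _ h1.symm
  rw [← h4]
  congr 1
  ext i c'
  simp only [hm, Matrix.of_apply, hr]

/-- Independence of gradients from an integer certificate. -/
theorem indep {Q : ℕ → ℤ} {R : List (List (ℕ × ℤ))} (h2 : (2 : k) ≠ 0) (h : Rows t (t + 1) Q R)
    {m : ℕ} (idx : ℕ → ℕ) (hidx : ∀ a < m, idx a < t + 1) (G C : ℕ → ℕ → ℤ) (e : ℕ)
    (hG : ∀ j < t + 1, ∀ s < 2 * t, gr R t (t + 1) j s = G j s)
    (hC : ∀ a < m, ∀ l < m, ((List.range (2 * t)).map fun s => G (idx a) s * C l s).sum =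
      if a = l then 2 ^ e else 0)
    (c : Fin m → k) (hc : ∀ δ : Fin (t + (t + 1) - 1) → k, ∑ a, c a *
      aeval (fun i : Fin (t + (t + 1) - 1) => ((Q i : ℤ) : k)) (dd δ (fpol k t
        ⟨idx a, hidx a a.2⟩)) = 0) : c = 0 := by
  funext l
  have h1 := hc (fun i => ((C l i : ℤ) : k))
  have h3 : ∀ a : Fin m, c a * aeval (fun i : Fin (t + (t + 1) - 1) => ((Q i : ℤ) : k))
      (dd (fun i => ((C l i : ℤ) : k)) (fpol k t ⟨idx a, hidx a a.2⟩)) =
      if a = l then c a * 2 ^ e else 0 := by
    intro a
    have e1 := grad_eq h (fun i => ((C l i : ℤ) : k)) ⟨idx a, hidx a a.2⟩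
    rw [e1]
    have e2 : ∑ s ∈ range (2 * t), ((gr R t (t + 1) (idx a) s : ℤ) : k) * ((C l s : ℤ) : k) =
        (((if (a : ℕ) = l then 2 ^ e else 0 : ℤ)) : k) := by
      rw [← hC a a.2 l l.2, sum_list, Int.cast_sum]
      refine Finset.sum_congr rfl fun s hs => ?_
      rw [mem_range] at hs
      rw [hG _ (hidx a a.2) s hs, Int.cast_mul]
    refine (congrArg (fun z => c a * z) e2).trans ?_
    by_cases hal : a = l
    · rw [if_pos hal, if_pos (congrArg Fin.val hal)]
      simp
    · rw [if_neg hal, if_neg (fun h' => hal (Fin.ext h'))]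
      simp
  rw [Finset.sum_congr rfl (fun a _ => h3 a), Finset.sum_ite_eq' univ l (fun a => c a * 2 ^ e),
    if_pos (Finset.mem_univ _)] at h1
  exact (mul_eq_zero.mp h1).resolve_right (pow_ne_zero _ h2)

/-- First order check. -/
theorem first_check {Q : ℕ → ℤ} {R : List (List (ℕ × ℤ))} (h2 : (2 : k) ≠ 0) (ht : 2 ≤ t)
    (h : Rows t (t + 1) Q R) (hval : ∀ j < t + 1, prm R [j] = 0) (G C : ℕ → ℕ → ℤ) (e : ℕ)
    (hG : ∀ j < t + 1, ∀ s < 2 * t, gr R t (t + 1) j s = G j s)
    (hC : ∀ a < t + 1, ∀ l < t + 1, ((List.range (2 * t)).map fun s => G a s * C l s).sum =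
      if a = l then 2 ^ e else 0) : ¬ (permIdeal t (hankelMatrix k t (t + 1))).IsPrime := by
  intro hP
  obtain ⟨T, hT⟩ : ∃ T, t = T + 1 := ⟨t - 1, by omega⟩
  have hbig : Big (permIdeal t (hankelMatrix k t (t + 1))) T := by
    subst hT
    exact hankel_big (by omega) le_rfl (by omega) hP
  have h1 := first_order' _ hbig _ (point_mem h hval) (fun j : Fin (t + 1) => fpol k t j)
    (fun j => fpol_mem j) (fun c hc => indep h2 h (m := t + 1) (fun a => a) (fun a ha => ha) G C e
      hG hC c hc)
  rw [Fintype.card_fin] at h1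
  omega

/-- Second order check. -/
theorem second_check {Q τ : ℕ → ℤ} {R T : List (List (ℕ × ℤ))} (h2 : (2 : k) ≠ 0) (ht : 2 ≤ t)
    (h : Rows t (t + 1) Q R) (hT : Rows t (t + 1) τ T) (hval : ∀ j < t + 1, prm R [j] = 0)
    (G C : ℕ → ℕ → ℤ) (e : ℕ) (idx : ℕ → ℕ) (hidx : ∀ a < t, idx a < t + 1)
    (hG : ∀ j < t + 1, ∀ s < 2 * t, gr R t (t + 1) j s = G j s)
    (hC : ∀ a < t, ∀ l < t, ((List.range (2 * t)).map fun s => G (idx a) s * C l s).sum =
      if a = l then 2 ^ e else 0)
    (hτ : ∀ a < t, ((List.range (2 * t)).map fun s => G (idx a) s * τ s).sum = 0)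
    (lam : ℕ → ℤ)
    (hlam : ∀ s < 2 * t, ((List.range (t + 1)).map fun j => lam j * G j s).sum = 0) (e' : ℕ)
    (hH : ((List.range (t + 1)).map fun j => lam j * hs R T t j).sum = 2 ^ e') :
    ¬ (permIdeal t (hankelMatrix k t (t + 1))).IsPrime := by
  intro hP
  obtain ⟨T', hT'⟩ : ∃ T', t = T' + 1 := ⟨t - 1, by omega⟩
  have hbig : Big (permIdeal t (hankelMatrix k t (t + 1))) T' := by
    subst hT'
    exact hankel_big (by omega) le_rfl (by omega) hP
  let hp : MvPolynomial (Fin (t + (t + 1) - 1)) k :=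
    ∑ j : Fin (t + 1), (((lam j : ℤ) : k) • fpol k t j)
  have hhp : hp ∈ permIdeal t (hankelMatrix k t (t + 1)) := by
    refine Ideal.sum_mem _ fun j _ => ?_
    rw [smul_eq_C_mul]
    exact Ideal.mul_mem_left _ _ (fpol_mem j)
  have hgrad : ∀ δ : Fin (t + (t + 1) - 1) → k,
      aeval (fun i : Fin (t + (t + 1) - 1) => ((Q i : ℤ) : k)) (dd δ hp) = 0 := by
    intro δ
    obtain ⟨δ', rfl⟩ := exists_ext δ
    simp only [hp, map_sum, Derivation.map_smul, map_smul, smul_eq_mul]
    rw [Finset.sum_congr rfl (fun j _ => by rw [grad_eq h δ' j, Finset.mul_sum]), Finset.sum_comm]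
    refine Finset.sum_eq_zero fun s hs => ?_
    rw [mem_range] at hs
    have e1 := hlam s hs
    rw [sum_list] at e1
    have e2 : ∑ j : Fin (t + 1), ((lam j : ℤ) : k) * (((gr R t (t + 1) j s : ℤ) : k) * δ' s) =
        ((∑ j ∈ range (t + 1), lam j * G j s : ℤ) : k) * δ' s := by
      rw [Int.cast_sum, Finset.sum_range, Finset.sum_mul]
      refine Finset.sum_congr rfl fun j _ => ?_
      rw [hG j j.2 s hs, Int.cast_mul, mul_assoc]
    rw [e2, e1, Int.cast_zero, zero_mul]
  have h1 := second_order' _ hbig _ (point_mem h hval)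
    (fun a : Fin t => fpol k t ⟨idx a, hidx a a.2⟩)
    (fun j => fpol_mem _) (fun c hc => indep h2 h (m := t) idx hidx G C e hG hC c hc)
    (by rw [Fintype.card_fin]; omega) (fun i => ((τ i : ℤ) : k)) (fun i => ((τ i : ℤ) : k))
    (fun a => by
      rw [grad_eq h (fun i => ((τ i : ℤ) : k))]
      have e1 := hτ a a.2
      rw [sum_list] at e1
      have e2 : ∑ s ∈ range (2 * t), ((gr R t (t + 1) (idx a) s : ℤ) : k) * ((τ s : ℤ) : k) =
          ((∑ s ∈ range (2 * t), G (idx a) s * τ s : ℤ) : k) := by
        rw [Int.cast_sum]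
        refine Finset.sum_congr rfl fun s hs => ?_
        rw [mem_range] at hs
        rw [hG _ (hidx a a.2) s hs, Int.cast_mul]
      refine e2.trans ?_
      rw [e1, Int.cast_zero]) (fun a => by
      rw [grad_eq h (fun i => ((τ i : ℤ) : k))]
      have e1 := hτ a a.2
      rw [sum_list] at e1
      have e2 : ∑ s ∈ range (2 * t), ((gr R t (t + 1) (idx a) s : ℤ) : k) * ((τ s : ℤ) : k) =
          ((∑ s ∈ range (2 * t), G (idx a) s * τ s : ℤ) : k) := by
        rw [Int.cast_sum]
        refine Finset.sum_congr rfl fun s hs => ?_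
        rw [mem_range] at hs
        rw [hG _ (hidx a a.2) s hs, Int.cast_mul]
      refine e2.trans ?_
      rw [e1, Int.cast_zero]) hp hhp hgrad
  simp only [hp, map_sum, Derivation.map_smul, map_smul, smul_eq_mul] at h1
  rw [Finset.sum_congr rfl (fun j _ => by rw [hess_eq h hT j])] at h1
  have e3 : ∑ j : Fin (t + 1), ((lam j : ℤ) : k) * ((hs R T t j : ℤ) : k) = 2 ^ e' := by
    rw [sum_list] at hH
    have := congrArg (fun z : ℤ => (z : k)) hH
    simp only [Int.cast_sum, Int.cast_mul, Int.cast_pow, Int.cast_ofNat] at this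
    rw [← this, Finset.sum_range]
  rw [e3] at h1
  exact pow_ne_zero _ h2 h1

end poly

end Small

end Pool.Agent.HankelPerm
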