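import Pool.Agent.HankelPerm.Middle

/-!
Squarefree algebra: `k[X_j] / (X_j ^ 2)`.  A tangent vector of the variety of `t × t` permanents
of a Hankel matrix at a point `q` gives the relation `∑_a D_a ∏_{i ≠ a} L_i = 0` in this algebra,
where `L_i` are the rows at `q` and `D_a` the rows of the tangent vector.

Free coordinates: if `P` is prime and big, then there is a nonzero tangent vector at each point,
vanishing on a prescribed set of at most `T` coordinates.
-/

namespace Pool.Agent.HankelPerm

open Matrix Finset Equiv MvPolynomial Pool.Agent.H32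

section alg

variable {k : Type*} [Field k] {n : ℕ}

/-- The ideal generated by the squares of the variables. -/
noncomputable def sqIdeal (k : Type*) [Field k] (n : ℕ) : Ideal (MvPolynomial (Fin n) k) :=
  Ideal.span ((fun s => monomial s (1 : k)) '' (Set.range fun i : Fin n => Finsupp.single i 2))

/-- The squarefree algebra. -/
def SqAlg (k : Type*) [Field k] (n : ℕ) := MvPolynomial (Fin n) k ⧸ sqIdeal k n

noncomputable instance : CommRing (SqAlg k n) :=
  inferInstanceAs (CommRing (MvPolynomial (Fin n) k ⧸ sqIdeal k n))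

noncomputable instance : Algebra k (SqAlg k n) :=
  inferInstanceAs (Algebra k (MvPolynomial (Fin n) k ⧸ sqIdeal k n))

/-- The projection to the squarefree algebra. -/
noncomputable def toSq (k : Type*) [Field k] (n : ℕ) : MvPolynomial (Fin n) k →ₐ[k] SqAlg k n :=
  Ideal.Quotient.mkₐ k (sqIdeal k n)

theorem toSq_eq_zero {f : MvPolynomial (Fin n) k} : toSq k n f = 0 ↔ f ∈ sqIdeal k n :=
  Ideal.Quotient.eq_zero_iff_mem

/-- The variables of the squarefree algebra. -/
noncomputable def sy (k : Type*) [Field k] (n : ℕ) (i : Fin n) : SqAlg k n := toSq k n (X i)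

theorem sy_mul_self (i : Fin n) : sy k n i * sy k n i = 0 := by
  rw [sy, ← map_mul, toSq_eq_zero]
  refine Ideal.subset_span ⟨Finsupp.single i 2, ⟨i, rfl⟩, ?_⟩
  rw [← pow_two, X_pow_eq_monomial]

theorem smul_prod_sy_eq_zero (S : Finset (Fin n)) (c : k) (h : c • ∏ i ∈ S, sy k n i = 0) :
    c = 0 := by
  classical
  have h1 : toSq k n (C c * ∏ i ∈ S, X i) = 0 := by
    rw [← smul_eq_C_mul, map_smul, map_prod]
    exact h
  rw [toSq_eq_zero, sqIdeal, mem_ideal_span_monomial_image] at h1
  by_contra hc
  have h2 : (C c * ∏ i ∈ S, X i : MvPolynomial (Fin n) k) =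
      monomial (∑ i ∈ S, Finsupp.single i 1) c := by
    rw [show (∏ i ∈ S, X i : MvPolynomial (Fin n) k) =
      monomial (∑ i ∈ S, Finsupp.single i 1) 1 by
        rw [monomial_sum_one]; rfl, C_mul_monomial, mul_one]
  obtain ⟨s, ⟨i, rfl⟩, hs⟩ := h1 (∑ i ∈ S, Finsupp.single i 1) (by
    rw [h2, mem_support_iff, coeff_monomial, if_pos rfl]
    exact hc)
  have h3 := hs i
  rw [Finsupp.single_eq_same, Finsupp.finsetSum_apply] at h3
  have h4 : ∑ j ∈ S, (Finsupp.single j 1 : Fin n →₀ ℕ) i ≤ 1 := by
    simp only [Finsupp.single_apply]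
    rw [Finset.sum_ite_eq' S i (fun _ => 1)]
    split_ifs <;> simp
  omega

end alg

section relation

variable {k : Type*} [Field k] {n : ℕ} {A : Type*} [CommRing A] [Algebra k A]

theorem sum_prod_eq_zero (y : Fin n → A) (hy : ∀ j, y j * y j = 0) {ι : Type*} [Fintype ι]
    [DecidableEq ι] (m : ι → ι → Fin n → k)
    (hm : ∀ c : ι → Fin n, Function.Injective c →
      ∑ a, (Matrix.of fun i j => m a i (c j)).permanent = 0) :
    ∑ a, ∏ i, ∑ j, m a i j • y j = 0 := by
  classical
  have h1 : ∀ a, ∏ i, ∑ j, m a i j • y j =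
      ∑ c : ι → Fin n, (∏ i, m a i (c i)) • ∏ i, y (c i) := by
    intro a
    rw [Finset.prod_univ_sum, Fintype.piFinset_univ]
    refine Finset.sum_congr rfl fun c _ => ?_
    simp only [Algebra.smul_def, Finset.prod_mul_distrib, map_prod]
  simp only [h1]
  rw [Finset.sum_comm]
  simp only [← Finset.sum_smul]
  set T : (ι → Fin n) → k := fun c => ∑ a, ∏ i, m a i (c i) with hT
  have h2 : ∀ S : Finset (Fin n), ∑ c ∈ (univ : Finset (ι → Fin n)).filter
      (fun c => Finset.univ.image c = S), T c • ∏ i, y (c i) = 0 := by
    intro S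
    by_cases hex : ∃ c0 : ι → Fin n, Function.Injective c0 ∧ univ.image c0 = S
    · obtain ⟨c0, hc0, himg⟩ := hex
      have h3 : ∑ c ∈ (univ : Finset (ι → Fin n)).filter
          (fun c => Finset.univ.image c = S), T c • ∏ i, y (c i) =
          ∑ σ : Perm ι, T (c0 ∘ σ) • ∏ i, y (c0 (σ i)) := by
        symm
        refine Finset.sum_bij (fun σ _ => c0 ∘ σ) ?_ ?_ ?_ ?_
        · intro σ _
          rw [Finset.mem_filter]
          refine ⟨Finset.mem_univ _, ?_⟩
          rw [← himg]
          ext x
          simp only [Finset.mem_image, Finset.mem_univ, true_and, Function.comp_apply]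
          constructor
          · rintro ⟨i, rfl⟩; exact ⟨σ i, rfl⟩
          · rintro ⟨i, rfl⟩; exact ⟨σ.symm i, by simp⟩
        · intro σ _ σ' _ h
          ext i
          have := congrFun h i
          exact hc0 this
        · intro c hc
          rw [Finset.mem_filter] at hc
          have h4 : ∀ i, ∃ j, c0 j = c i := by
            intro i
            have : c i ∈ univ.image c0 := by
              rw [himg, ← hc.2]; exact Finset.mem_image_of_mem _ (Finset.mem_univ _)
            simpa using this
          choose g hg using h4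
          have hsurj : Function.Surjective g := by
            intro j
            have : c0 j ∈ univ.image c := by
              rw [hc.2, ← himg]; exact Finset.mem_image_of_mem _ (Finset.mem_univ _)
            obtain ⟨i, _, hi⟩ := Finset.mem_image.mp this
            exact ⟨i, hc0 (by rw [hg, hi])⟩
          refine ⟨Equiv.ofBijective g (Finite.surjective_iff_bijective.mp hsurj),
            Finset.mem_univ _, ?_⟩
          funext i
          simp [hg]
        · intro σ _; rfl
      rw [h3]
      have h5 : ∀ σ : Perm ι, ∏ i, y (c0 (σ i)) = ∏ i, y (c0 i) := fun σ =>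
        Equiv.prod_comp σ (fun i => y (c0 i))
      simp only [h5]
      rw [← Finset.sum_smul]
      have h6 : ∑ σ : Perm ι, T (c0 ∘ σ) = 0 := by
        rw [← hm c0 hc0, hT]
        simp only [Matrix.permanent, Matrix.of_apply, Function.comp_apply]
        rw [Finset.sum_comm]
        refine Finset.sum_congr rfl fun a _ => ?_
        rw [← Equiv.sum_comp (Equiv.inv (Perm ι))]
        refine Finset.sum_congr rfl fun σ _ => ?_
        rw [← Equiv.prod_comp σ]
        simp
      rw [h6, zero_smul]
    · refine Finset.sum_eq_zero fun c hc => ?_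
      rw [Finset.mem_filter] at hc
      have hni : ¬ Function.Injective c := fun h => hex ⟨c, h, hc.2⟩
      rw [Function.not_injective_iff] at hni
      obtain ⟨a, b, hab, hne⟩ := hni
      have : ∏ i, y (c i) = 0 := by
        rw [← Finset.mul_prod_erase _ _ (Finset.mem_univ a),
          ← Finset.mul_prod_erase (univ.erase a) _ (a := b) (by simp [hne.symm]), hab,
          ← mul_assoc, hy, zero_mul]
      rw [this, smul_zero]
  rw [← Finset.sum_fiberwise_of_maps_to (s := univ) (t := univ)
    (g := fun c : ι → Fin n => Finset.univ.image c) (fun _ _ => Finset.mem_univ _)]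
  exact Finset.sum_eq_zero fun S _ => h2 S

/-- Tangent vectors of the variety of permanents of a Hankel matrix, as a relation in the
squarefree algebra. -/
theorem tangent_relation {m t : ℕ} (q δ : ℕ → k)
    (hδ : ∀ f ∈ permIdeal t (hankelMatrix k m n),
      aeval (fun i : Fin (m + n - 1) => q i) (dd (fun i : Fin (m + n - 1) => δ i) f) = 0)
    (y : Fin n → A) (hy : ∀ j, y j * y j = 0) {β : Type*} [DecidableEq β] (s : Finset β)
    (hs : s.card = t) (r : β → ℕ) (hr : Set.InjOn r s) (hrm : ∀ i ∈ s, r i < m) :
    ∑ a ∈ s, (∑ j : Fin n, δ (r a + j) • y j) *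
      ∏ i ∈ s.erase a, (∑ j : Fin n, q (r i + j) • y j) = 0 := by
  classical
  let m' : s → s → Fin n → k := fun a i j => if i = a then δ (r i + j) else q (r i + j)
  have h1 := sum_prod_eq_zero y hy m' (by
    intro c hc
    let r' : s → Fin m := fun i => ⟨r i, hrm i i.2⟩
    have hr' : Function.Injective r' := by
      intro i j hij
      have := congrArg Fin.val hij
      exact Subtype.ext (hr i.2 j.2 this)
    have h2 := hδ _ (permanent_mem_permIdeal' (hankelMatrix k m n) (by simpa using hs) r' hr' c hc)
    rw [aeval_dd_permanent] at h2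
    rw [← h2]
    refine Finset.sum_congr rfl fun a _ => ?_
    congr 1
    ext i j
    by_cases hi : i = a
    · subst hi; simp [m', r']
    · simp [m', r', hi, hm])
  rw [← Finset.sum_coe_sort s, ← h1]
  refine Finset.sum_congr rfl fun a _ => ?_
  rw [← Finset.mul_prod_erase univ _ (Finset.mem_univ a)]
  congr 1
  · simp [m']
  · have h3 : ∏ i ∈ s.erase (a : β), (∑ j : Fin n, q (r i + j) • y j) =
        ∏ i ∈ (univ : Finset s).erase a, (∑ j : Fin n, q (r (i : β) + j) • y j) := by
      refine (Finset.prod_bij (fun (i : s) _ => (i : β)) ?_ ?_ ?_ ?_).symm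
      · intro i hi
        simp only [Finset.mem_erase, ne_eq, Finset.mem_univ, and_true] at hi ⊢
        exact ⟨fun h => hi (Subtype.ext h), i.2⟩
      · intro i _ j _ h; exact Subtype.ext h
      · intro i hi
        rw [Finset.mem_erase] at hi
        exact ⟨⟨i, hi.2⟩, by simp [Subtype.ext_iff, hi.1], rfl⟩
      · intro i _; rfl
    rw [h3]
    refine Finset.prod_congr rfl fun i hi => ?_
    have : i ≠ a := Finset.ne_of_mem_erase hi
    simp [m', this]

end relation

section tangent

variable {k : Type*} [Field k] {N : ℕ}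

/-- If `P` is prime and big, then at each point of `V(P)` there is a nonzero tangent vector
vanishing on a prescribed set of at most `T` coordinates. -/
theorem exists_tangent (P : Ideal (MvPolynomial (Fin N) k)) [P.IsPrime] {T : ℕ} (hbig : Big P T)
    (q : Fin N → k) (hq : ∀ f ∈ P, aeval q f = 0) (F : Finset (Fin N)) (hF : F.card ≤ T) :
    ∃ δ : Fin N → k, δ ≠ 0 ∧ (∀ i ∈ F, δ i = 0) ∧ ∀ f ∈ P, aeval q (dd δ f) = 0 := by
  classical
  obtain ⟨κ, a, ha, hsp, hli⟩ := exists_linearIndependent' k
    (fun f : P => grad q (f : MvPolynomial (Fin N) k))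
  have : Finite κ := hli.finite
  have : Fintype κ := Fintype.ofFinite κ
  let e := (Fintype.equivFin κ).symm
  have h1 := first_order P hbig q hq (fun i => ((a (e i) : P) : MvPolynomial (Fin N) k))
    (fun i => (a (e i)).2) (hli.comp e e.injective)
  let φ : (Fin N → k) →ₗ[k] (F → k) × (κ → k) :=
    LinearMap.prod (LinearMap.pi fun i : F => LinearMap.proj (i : Fin N))
      (LinearMap.pi fun b : κ => Fintype.linearCombination k (grad q ((a b : P) : MvPolynomial (Fin N) k)))
  have hφ : ¬ Function.Injective φ := by
    intro hinj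
    have h2 := LinearMap.finrank_le_finrank_of_injective hinj
    rw [Module.finrank_prod, Module.finrank_fintype_fun_eq_card, Module.finrank_fintype_fun_eq_card,
      Module.finrank_fintype_fun_eq_card, Fintype.card_fin, Fintype.card_coe] at h2
    omega
  rw [← LinearMap.ker_eq_bot, LinearMap.ker_eq_bot'] at hφ
  push Not at hφ
  obtain ⟨δ, hδ, hδ0⟩ := hφ
  refine ⟨δ, hδ0, fun i hi => ?_, fun f hf => ?_⟩
  · exact congrFun (congrArg Prod.fst hδ) ⟨i, hi⟩
  · have h2 : ∀ v ∈ Submodule.span k (Set.range ((fun f : P => grad q (f : MvPolynomial (Fin N) k)) ∘ a)),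
        ∑ i, v i * δ i = 0 := by
      intro v hv
      induction hv using Submodule.span_induction with
      | mem v hv =>
        obtain ⟨b, rfl⟩ := hv
        have h3 := congrFun (congrArg Prod.snd hδ) b
        simp only [φ, LinearMap.prod_apply, Prod.snd_zero, Pi.zero_apply] at h3
        rw [← h3]
        refine Finset.sum_congr rfl fun i _ => ?_
        simp only [Function.comp_apply, smul_eq_mul]
        ring
      | zero => simp
      | add v w _ _ hv hw => simp only [Pi.add_apply, add_mul, Finset.sum_add_distrib, hv, hw,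
          add_zero]
      | smul c v _ hv =>
        simp only [Pi.smul_apply, smul_eq_mul, mul_assoc, ← Finset.mul_sum, hv, mul_zero]
    rw [← sum_grad_mul]
    apply h2
    rw [hsp]
    exact Submodule.subset_span ⟨⟨f, hf⟩, rfl⟩

end tangent

end Pool.Agent.HankelPerm
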